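import Mathlib

/-!
# The eigenvalues of a complex matrix, enumerated

The proofs are those of `Pool.Agent.V11288.QU.Artin`, `Pool.Agent.V11288.QU.Sat` and
`Pool.Agent.V11288.LZ.Tr`.
-/

set_option autoImplicit false

namespace Pool.Agent.V11333.AM

open Polynomial

theorem ofFn_of_length {m : ℕ} (l : List ℂ) (h : l.length = m) : ∃ a : Fin m → ℂ, List.ofFn a = l := by
  subst h
  exact ⟨l.get, List.ofFn_get l⟩

/-- the eigenvalues of a matrix, enumerated -/
theorem exists_enum {n : ℕ} (M : Matrix (Fin n) (Fin n) ℂ) :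
    ∃ a : Fin n → ℂ, Multiset.map a Finset.univ.val = M.charpoly.roots := by
  obtain ⟨l, hl⟩ := Quot.exists_rep M.charpoly.roots
  have hl' : (l : Multiset ℂ) = M.charpoly.roots := hl
  have h1 : M.charpoly.roots.card = n := by
    rw [IsAlgClosed.card_roots_eq_natDegree, Matrix.charpoly_natDegree_eq_dim, Fintype.card_fin]
  rw [← hl', Multiset.coe_card] at h1
  obtain ⟨a, ha⟩ := ofFn_of_length l h1
  refine ⟨a, ?_⟩
  rw [Fin.univ_val_map, ha, hl']

/-- the eigenvalues of a matrix -/
noncomputable def enum {n : ℕ} (M : Matrix (Fin n) (Fin n) ℂ) : Fin n → ℂ := (exists_enum M).choose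

theorem enum_spec {n : ℕ} (M : Matrix (Fin n) (Fin n) ℂ) :
    Multiset.map (enum M) Finset.univ.val = M.charpoly.roots := (exists_enum M).choose_spec

theorem enum_sum {n : ℕ} (M : Matrix (Fin n) (Fin n) ℂ) (f : ℂ → ℂ) :
    (M.charpoly.roots.map f).sum = ∑ i, f (enum M i) := by
  rw [← enum_spec, Multiset.map_map]
  rfl

theorem enum_prod {n : ℕ} (M : Matrix (Fin n) (Fin n) ℂ) (f : ℂ → ℂ) :
    (M.charpoly.roots.map f).prod = ∏ i, f (enum M i) := by
  rw [← enum_spec, Multiset.map_map]
  rfl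

theorem enum_mem {n : ℕ} (M : Matrix (Fin n) (Fin n) ℂ) (i : Fin n) :
    enum M i ∈ M.charpoly.roots := by
  rw [← enum_spec]
  exact Multiset.mem_map_of_mem _ (Finset.mem_univ i)

/-- the eigenvalues of a matrix of finite order are roots of unity -/
theorem enum_norm {G : Type} [Group G] [Finite G] {n : ℕ} (ρ : G →* Matrix (Fin n) (Fin n) ℂ) (g : G)
    (i : Fin n) : ‖enum (ρ g) i‖ = 1 := by
  have h1 := enum_mem (ρ g) i
  have h2 : (ρ g).charpoly.IsRoot (enum (ρ g) i) := Polynomial.isRoot_of_mem_roots h1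
  have h3 : enum (ρ g) i ∈ spectrum ℂ (ρ g) := Matrix.mem_spectrum_iff_isRoot_charpoly.2 h2
  have h4 := spectrum.pow_mem_pow (ρ g) (Nat.card G) h3
  rw [← map_pow, pow_card_eq_one', map_one] at h4
  have hn : Nonempty (Fin n) := ⟨i⟩
  rw [spectrum.one_eq, Set.mem_singleton_iff] at h4
  exact Complex.norm_eq_one_of_pow_eq_one h4 Nat.card_pos.ne'

variable {n : ℕ}

/-- the determinant and the eigenvalues -/
theorem det_eq (M : Matrix (Fin n) (Fin n) ℂ) {x : ℂ} (hx : x ≠ 0) :
    (1 - x • M).det = ∏ j, (1 - enum M j * x) := by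
  have h1 : M.charpoly.eval x⁻¹ = ∏ j, (x⁻¹ - enum M j) := by
    rw [← enum_prod M (fun y => x⁻¹ - y)]
    have h2 := (IsAlgClosed.splits M.charpoly).eq_prod_roots_of_monic (Matrix.charpoly_monic M)
    conv_lhs => rw [h2]
    rw [Polynomial.eval_multiset_prod, Multiset.map_map]
    congr 1
    refine Multiset.map_congr rfl fun y _ => ?_
    simp
  have h3 : (1 - x • M) = x • (Matrix.scalar (Fin n) x⁻¹ - M) := by
    rw [smul_sub]
    congr 1
    ext i j
    by_cases hij : i = j
    · subst hij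
      simp [hx]
    · simp [hij]
  rw [h3, Matrix.det_smul, ← Matrix.eval_charpoly, h1, Fintype.card_fin]
  have h4 : ∀ j : Fin n, 1 - enum M j * x = x * (x⁻¹ - enum M j) := by
    intro j
    field_simp
  rw [Finset.prod_congr rfl fun j _ => h4 j, Finset.prod_mul_distrib, Finset.prod_const,
    Finset.card_univ, Fintype.card_fin]

theorem det_sub_scalar (M : Matrix (Fin n) (Fin n) ℂ) (a : ℂ) :
    (M - algebraMap ℂ (Matrix (Fin n) (Fin n) ℂ) a).det = ∏ j, (enum M j - a) := by
  have h2 := (IsAlgClosed.splits M.charpoly).eq_prod_roots_of_monic (Matrix.charpoly_monic M)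
  have h1 : M.charpoly.eval a = ∏ j, (a - enum M j) := by
    rw [← enum_prod M (fun y => a - y)]
    conv_lhs => rw [h2]
    rw [Polynomial.eval_multiset_prod, Multiset.map_map]
    congr 1
    refine Multiset.map_congr rfl fun y _ => ?_
    simp
  have h3 : M - algebraMap ℂ (Matrix (Fin n) (Fin n) ℂ) a = -(Matrix.scalar (Fin n) a - M) := by
    rw [neg_sub]
    rfl
  rw [h3, Matrix.det_neg, ← Matrix.eval_charpoly, h1, Fintype.card_fin]
  have h4 : ∀ j : Fin n, enum M j - a = -1 * (a - enum M j) := fun j => by ring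
  rw [Finset.prod_congr rfl fun j _ => h4 j, Finset.prod_mul_distrib, Finset.prod_const,
    Finset.card_univ, Fintype.card_fin]

theorem det_aeval (M : Matrix (Fin n) (Fin n) ℂ) (p : ℂ[X]) :
    (aeval M p).det = ∏ j, p.eval (enum M j) := by
  let φ : ℂ[X] →* ℂ := Matrix.detMonoidHom.comp
    (aeval M : ℂ[X] →ₐ[ℂ] Matrix (Fin n) (Fin n) ℂ).toRingHom.toMonoidHom
  have hφ : ∀ r : ℂ[X], φ r = (aeval M r).det := fun r => rfl
  let ψ : ℂ[X] →* ℂ :=
    { toFun := fun r => ∏ j, r.eval (enum M j)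
      map_one' := by simp
      map_mul' := fun r s => by simp [Finset.prod_mul_distrib] }
  have hψ : ∀ r : ℂ[X], ψ r = ∏ j, r.eval (enum M j) := fun r => rfl
  rw [← hφ, ← hψ]
  have h2 := (IsAlgClosed.splits p).eq_prod_roots
  rw [h2, map_mul, map_mul, map_multiset_prod, map_multiset_prod, Multiset.map_map,
    Multiset.map_map]
  congr 1
  · rw [hφ, hψ, aeval_C]
    simp only [eval_C, Finset.prod_const, Finset.card_univ, Fintype.card_fin]
    rw [Matrix.algebraMap_eq_diagonal, Matrix.det_diagonal]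
    simp
  · congr 1
    refine Multiset.map_congr rfl fun a _ => ?_
    simp only [Function.comp_apply]
    rw [hφ, hψ, map_sub, aeval_X, aeval_C, det_sub_scalar]
    simp

/-- the eigenvalues of the powers -/
theorem charpoly_pow (M : Matrix (Fin n) (Fin n) ℂ) (k : ℕ) :
    (M ^ k).charpoly = ∏ j, (X - C (enum M j ^ k)) := by
  refine Polynomial.funext fun y => ?_
  rw [Matrix.eval_charpoly, Polynomial.eval_prod]
  have h1 : Matrix.scalar (Fin n) y - M ^ k = aeval M (C y - X ^ k) := by
    rw [map_sub, aeval_C, map_pow, aeval_X]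
    rfl
  rw [h1, det_aeval]
  refine Finset.prod_congr rfl fun j _ => ?_
  simp

/-- **the trace of the powers** -/
theorem trace_pow (M : Matrix (Fin n) (Fin n) ℂ) (k : ℕ) : (M ^ k).trace = ∑ j, enum M j ^ k := by
  have h : (∏ j, (X - C (enum M j ^ k)) : ℂ[X]) =
      (((Finset.univ : Finset (Fin n)).val.map fun j => enum M j ^ k).map
        fun a => (X : ℂ[X]) - C a).prod := by
    rw [Multiset.map_map]
    rfl
  rw [Matrix.trace_eq_sum_roots_charpoly, charpoly_pow, h,
    Polynomial.roots_multiset_prod_X_sub_C]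
  rfl

end Pool.Agent.V11333.AM
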