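import Pool.Agent.V11333.Mero1

/-!
# Meromorphic continuation with a given real divisor
-/

set_option autoImplicit false

namespace Pool.Agent.V11333.Mero

open MeasureTheory Filter Topology Set
open Pool.Agent.W263.BSD (LInt lap lapC lapC_ofReal lap_sub LInt.sub LInt.neg lapC_differentiableAt)
open Pool.Agent.TH942.ES
open Pool.Agent.V11333.OneSide

variable {X : Type} {d : ℕ} {N : X → ℕ} {α : X → Fin d → ℂ}
variable {T : Finset ℝ} {n : ℝ → ℤ} {al : ℝ}

/-- the modified step function -/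
noncomputable def aa (N : X → ℕ) (α : X → Fin d → ℂ) (T : Finset ℝ) (n : ℝ → ℤ) (t : ℝ) : ℝ :=
  st N α t - MM T n t

theorem aa_meas (E : Sys N α) : Measurable (aa N α T n) := (st_meas E).sub (MM_meas T n)

/-- the real identity -/
theorem real_id (hT : ∀ β ∈ T, 0 < β) {w : ℝ} (hw : ∀ β ∈ T, β < w) (hw0 : 0 < w) :
    Real.exp (w * lap (MM T n) w) * ∏ β ∈ T, (w - β) ^ n β = ∏ β ∈ T, w ^ n β := by
  rw [(MM_lap hT hw).2, ← Finset.sum_neg_distrib, Real.exp_sum, ← Finset.prod_mul_distrib]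
  refine Finset.prod_congr rfl fun β hβ => ?_
  have h1 : 0 < 1 - β / w := by
    rw [sub_pos, div_lt_one hw0]
    exact hw β hβ
  have h2 : Real.exp (-((n β : ℝ) * Real.log (1 - β / w))) = ((1 - β / w) ^ n β)⁻¹ := by
    rw [Real.exp_neg, mul_comm, Real.exp_mul, Real.exp_log h1, Real.rpow_intCast]
  have h3 : w - β = w * (1 - β / w) := by
    field_simp
  rw [h2, h3, mul_zpow]
  have h4 : (1 - β / w) ^ n β ≠ 0 := (zpow_pos h1 _).ne'
  calc ((1 - β / w) ^ n β)⁻¹ * (w ^ n β * (1 - β / w) ^ n β) =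
        w ^ n β * (((1 - β / w) ^ n β)⁻¹ * (1 - β / w) ^ n β) := by ring
    _ = w ^ n β := by rw [inv_mul_cancel₀ h4, mul_one]

/-- the abscissa to the right of which everything converges -/
noncomputable def cc (T : Finset ℝ) : ℝ := 1 / 2 + ∑ β ∈ T, |β|

theorem cc_ge (T : Finset ℝ) : 1 / 2 ≤ cc T := by
  unfold cc
  have : 0 ≤ ∑ β ∈ T, |β| := Finset.sum_nonneg fun β _ => abs_nonneg β
  linarith

theorem cc_gt {β : ℝ} (hβ : β ∈ T) : β < cc T := by
  unfold cc
  have h1 : |β| ≤ ∑ β ∈ T, |β| := Finset.single_le_sum (f := fun β : ℝ => |β|)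
    (fun b _ => abs_nonneg b) hβ
  have h2 := le_abs_self β
  linarith

theorem aa_int (E : Sys N α) (hT : ∀ β ∈ T, 0 < β) {w : ℝ} (hw : cc T < w) :
    LInt (aa N α T n) w :=
  (st_int E ((cc_ge T).trans_lt hw)).sub (MM_lap hT fun _ hβ => (cc_gt hβ).trans hw).1

theorem aa_lap (E : Sys N α) (hT : ∀ β ∈ T, 0 < β) {w : ℝ} (hw : cc T < w) :
    lap (aa N α T n) w = lap (st N α) w - lap (MM T n) w :=
  lap_sub (st_int E ((cc_ge T).trans_lt hw)) (MM_lap hT fun _ hβ => (cc_gt hβ).trans hw).1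

/-- the Euler product at the real points -/
theorem LE_real (E : Sys N α) (hT : ∀ β ∈ T, 0 < β) {w : ℝ} (hw : cc T < w) :
    Complex.exp (GG N α w - w * lapC (aa N α T n) w) * ∏ β ∈ T, ((w : ℂ) - β) ^ n β =
      LE N α w * ∏ β ∈ T, (w : ℂ) ^ n β := by
  have hw1 : 1 / 2 < w := (cc_ge T).trans_lt hw
  have hw0 : 0 < w := by linarith
  have h1 : 1 / 2 < ((w : ℝ) : ℂ).re := by rwa [Complex.ofReal_re]
  rw [E.LE_eq h1, ← st_transform E h1, lapC_ofReal, lapC_ofReal, aa_lap E hT hw]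
  have h2 : GG N α w - w * ((lap (st N α) w - lap (MM T n) w : ℝ) : ℂ) =
      (GG N α w - w * (lap (st N α) w : ℂ)) + ((w * lap (MM T n) w : ℝ) : ℂ) := by
    push_cast
    ring
  rw [h2, Complex.exp_add, mul_assoc]
  congr 1
  have h3 := real_id (n := n) hT (fun β hβ => (cc_gt hβ).trans hw) hw0
  have h4 := congrArg (fun x : ℝ => (x : ℂ)) h3
  push_cast at h4
  push_cast
  exact h4

theorem prod_pow_an {F : ℂ → ℂ} {x : ℝ} (hx : 0 < x) (hF : AnalyticAt ℂ F x) (m : ℝ → ℤ) :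
    AnalyticAt ℂ (fun z => F z * ∏ β ∈ T, z ^ m β) x := by
  have hx0 : (x : ℂ) ≠ 0 := Complex.ofReal_ne_zero.mpr hx.ne'
  refine hF.mul ?_
  have h1 : AnalyticAt ℂ (fun z : ℂ => ∏ β ∈ T, z ^ m β) x :=
    Finset.analyticAt_fun_prod T fun β _ => analyticAt_id.zpow hx0
  exact h1

/-- the data, upper side -/
theorem mdata_upper (E : Sys N α) (hal : 0 ≤ al) (hT : ∀ β ∈ T, 0 < β) {F : ℂ → ℂ}
    (hF : ∀ x : ℝ, al < x → AnalyticAt ℂ F x)
    (hFe : ∀ x : ℝ, 1 / 2 < x → F x * ∏ β ∈ T, ((x : ℂ) - β) ^ n β = LE N α x) :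
    DataLoc al (aa N α T n) (fun z => F z * ∏ β ∈ T, z ^ n β) (GG N α) (cc T) where
  al_nonneg := hal
  meas := aa_meas E
  c0_nonneg := by linarith [cc_ge T]
  int := fun w hw => aa_int E hT hw
  hΦ := fun w hw => prod_pow_an (hal.trans_lt hw) (hF w hw) n
  hG := fun z hz => E.GG_diff hz
  eq := fun w hw => by
    have h1 := LE_real (n := n) E hT hw
    have h2 := hFe w ((cc_ge T).trans_lt hw)
    have h3 : ∏ β ∈ T, ((w : ℂ) - β) ^ n β ≠ 0 := by
      refine Finset.prod_ne_zero_iff.mpr fun β hβ => zpow_ne_zero _ ?_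
      rw [← Complex.ofReal_sub]
      exact Complex.ofReal_ne_zero.mpr (sub_pos.mpr ((cc_gt hβ).trans hw)).ne'
    rw [← h2] at h1
    apply mul_right_cancel₀ h3
    rw [h1]
    ring

/-- the data, lower side -/
theorem mdata_lower (E : Sys N α) (hal : 0 ≤ al) (hT : ∀ β ∈ T, 0 < β) {F : ℂ → ℂ}
    (hF : ∀ x : ℝ, al < x → AnalyticAt ℂ F x)
    (hFe : ∀ x : ℝ, 1 / 2 < x → (F x)⁻¹ * ∏ β ∈ T, ((x : ℂ) - β) ^ n β = LE N α x) :
    DataLoc al (fun t => -aa N α T n t) (fun z => F z * ∏ β ∈ T, z ^ (-n β))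
      (fun z => -GG N α z) (cc T) where
  al_nonneg := hal
  meas := (aa_meas E).neg
  c0_nonneg := by linarith [cc_ge T]
  int := fun w hw => (aa_int E hT hw).neg
  hΦ := fun w hw => prod_pow_an (hal.trans_lt hw) (hF w hw) fun β => -n β
  hG := fun z hz => (E.GG_diff hz).neg
  eq := fun w hw => by
    have h1 := LE_real (n := n) E hT hw
    have h2 := hFe w ((cc_ge T).trans_lt hw)
    have h3 : ∏ β ∈ T, ((w : ℂ) - β) ^ n β ≠ 0 := by
      refine Finset.prod_ne_zero_iff.mpr fun β hβ => zpow_ne_zero _ ?_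
      rw [← Complex.ofReal_sub]
      exact Complex.ofReal_ne_zero.mpr (sub_pos.mpr ((cc_gt hβ).trans hw)).ne'
    rw [← h2] at h1
    have h4 : Complex.exp (GG N α w - w * lapC (aa N α T n) w) =
        (F w)⁻¹ * ∏ β ∈ T, (w : ℂ) ^ n β := by
      apply mul_right_cancel₀ h3
      rw [h1]
      ring
    have h5 : -GG N α w - w * lapC (fun t => -aa N α T n t) w =
        -(GG N α w - w * lapC (aa N α T n) w) := by
      rw [lapC_neg]
      ring
    rw [h5, Complex.exp_neg, h4, mul_inv, inv_inv, ← Finset.prod_inv_distrib]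
    congr 1
    exact Finset.prod_congr rfl fun β _ => zpow_neg _ _

/-- **the meromorphic continuation from the convergence of the Laplace integral** -/
theorem mero_cont (E : Sys N α) (hal : 0 ≤ al) (hal2 : al < 1 / 2) (hT : ∀ β ∈ T, 0 < β)
    (hT2 : ∀ β ∈ T, β ≤ 1 / 2) (hconv : ∀ w : ℝ, al < w → LInt (aa N α T n) w) :
    ∃ G : ℂ → ℂ, (∀ s : ℂ, al < s.re → DifferentiableAt ℂ G s ∧ G s ≠ 0) ∧
      ∀ s : ℂ, 1 / 2 < s.re → G s * ∏ β ∈ T, (s - β) ^ n β = LE N α s := by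
  set G : ℂ → ℂ := fun s => Complex.exp (GG N α s - s * lapC (aa N α T n) s) *
    ∏ β ∈ T, s ^ (-n β) with hG
  have hne : ∀ s : ℂ, al < s.re → s ≠ 0 := fun s hs h0 => by
    rw [h0, Complex.zero_re] at hs
    linarith
  have hGd : ∀ s : ℂ, al < s.re → DifferentiableAt ℂ G s ∧ G s ≠ 0 := by
    intro s hs
    have h0 := hne s hs
    constructor
    · have h1 : DifferentiableAt ℂ (fun s => Complex.exp (GG N α s - s * lapC (aa N α T n) s)) s :=
        ((E.GG_diff (hal.trans_lt hs)).sub (differentiableAt_id.mul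
          (lapC_differentiableAt (aa_meas E) (fun w hw => hconv w hw) hs))).cexp
      have h2 : DifferentiableAt ℂ (fun z : ℂ => ∏ β ∈ T, z ^ (-n β)) s :=
        DifferentiableAt.fun_finsetProd fun β _ => differentiableAt_id.zpow (Or.inl h0)
      exact h1.mul h2
    · exact mul_ne_zero (Complex.exp_ne_zero _)
        (Finset.prod_ne_zero_iff.mpr fun β _ => zpow_ne_zero _ h0)
  refine ⟨G, hGd, ?_⟩
  set U : Set ℂ := {s : ℂ | 1 / 2 < s.re} with hU
  have hUo : IsOpen U := isOpen_lt continuous_const Complex.continuous_re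
  have hUc : IsPreconnected U := (convex_halfSpace_re_gt (1 / 2)).isPreconnected
  have hsub : ∀ s ∈ U, ∀ β ∈ T, s - (β : ℂ) ≠ 0 := by
    intro s hs β hβ h0
    have h1 := congrArg Complex.re h0
    rw [Complex.sub_re, Complex.ofReal_re, Complex.zero_re] at h1
    have h2 : 1 / 2 < s.re := hs
    have := hT2 β hβ
    linarith
  have a1 : AnalyticOnNhd ℂ (fun s => G s * ∏ β ∈ T, (s - β) ^ n β) U := by
    refine DifferentiableOn.analyticOnNhd (fun s hs => ?_) hUo
    have h2 : 1 / 2 < s.re := hs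
    have h3 : DifferentiableAt ℂ (fun z : ℂ => ∏ β ∈ T, (z - β) ^ n β) s :=
      DifferentiableAt.fun_finsetProd fun β hβ =>
        (differentiableAt_id.sub_const _).zpow (Or.inl (hsub s hs β hβ))
    exact ((hGd s (by linarith)).1.mul h3).differentiableWithinAt
  have a2 : AnalyticOnNhd ℂ (LE N α) U :=
    DifferentiableOn.analyticOnNhd (fun s hs => (E.LE_diff hs).1.differentiableWithinAt) hUo
  have hw0 : cc T + 1 ∈ Ioi (cc T) := by
    rw [mem_Ioi]
    linarith
  have hz : ((cc T + 1 : ℝ) : ℂ) ∈ U := by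
    show 1 / 2 < ((cc T + 1 : ℝ) : ℂ).re
    rw [Complex.ofReal_re]
    have := cc_ge T
    linarith
  have key : ∀ w : ℝ, cc T < w → G w * ∏ β ∈ T, ((w : ℂ) - β) ^ n β = LE N α w := by
    intro w hw
    have h1 := LE_real (n := n) E hT hw
    have hw1 : 0 < w := by
      have := cc_ge T
      linarith
    have h2 : ∏ β ∈ T, (w : ℂ) ^ n β ≠ 0 := Finset.prod_ne_zero_iff.mpr fun β _ =>
      zpow_ne_zero _ (Complex.ofReal_ne_zero.mpr hw1.ne')
    have h3 : ∏ β ∈ T, (w : ℂ) ^ (-n β) = (∏ β ∈ T, (w : ℂ) ^ n β)⁻¹ := by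
      rw [← Finset.prod_inv_distrib]
      exact Finset.prod_congr rfl fun β _ => zpow_neg _ _
    rw [hG]
    simp only
    rw [h3, mul_right_comm, h1, mul_assoc, mul_inv_cancel₀ h2, mul_one]
  have a3 := a1.eqOn_of_preconnected_of_frequently_eq a2 hUc hz (by
    have h1 : Tendsto (fun w : ℝ => (w : ℂ)) (𝓝[≠] (cc T + 1)) (𝓝[≠] ((cc T + 1 : ℝ) : ℂ)) := by
      refine tendsto_nhdsWithin_of_tendsto_nhds_of_eventually_within _ ?_ ?_
      · exact (Complex.continuous_ofReal.tendsto _).mono_left nhdsWithin_le_nhds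
      · filter_upwards [self_mem_nhdsWithin] with w hw
        exact fun h => hw (Complex.ofReal_injective h)
    refine h1.frequently (Eventually.frequently ?_)
    filter_upwards [nhdsWithin_le_nhds (lt_mem_nhds (show cc T < cc T + 1 by linarith))] with w hw
    exact key w hw)
  exact fun s hs => a3 hs

end Pool.Agent.V11333.Mero
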