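import Pool.Agent.V11333.Cone7

/-!
# One-sided bounds of smoothed products over the primes and the order at the vertex
-/

set_option autoImplicit false

open MeasureTheory Filter Topology Set Complex
open Pool.Agent.TH942.LS (Dat P P_le Cont)
open Pool.Agent.TH942.SL Pool.Agent.TH942.ES
open Pool.Agent.W263.BSD (LInt lap lapC lapC_ofReal lap_nonneg lapC_differentiableAt ell ell_meas
  ell_nonneg ell_lap_limit ell_LInt ell_mono ell_le log_le_ell ex ex_LInt ex_lap ex_meas lap_add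
  lap_const_mul)
open Pool.Agent.V11333.OneSide (DataLoc transform comp_an comp_GG real_value an_ofReal
  cont_of_upper)

namespace Pool.Agent.V11333.Cone

variable {X : Type} {d : ℕ} {N : X → ℕ} {α : X → Fin d → ℂ}

/-- the growth of the iterated logarithm -/
lemma loglog_le {ρ : ℝ} (hρ : 0 < ρ) (t C ε : ℝ) (hε : 0 < ε) : ∃ B : ℝ, ∀ᶠ Y : ℝ in atTop,
    t * Real.log (Real.log Y) + C ≤ B * Real.exp (ε * Real.log Y ^ ρ) := by
  refine ⟨|t| / (ρ * ε) + |C|, ?_⟩
  filter_upwards [Real.tendsto_log_atTop.eventually_ge_atTop 1] with Y hY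
  have h0 : 0 < Real.log Y := by linarith
  have h1 : 0 < Real.log Y ^ ρ := Real.rpow_pos_of_pos h0 _
  have e1 : ε * Real.log Y ^ ρ ≤ Real.exp (ε * Real.log Y ^ ρ) := by
    have := Real.add_one_le_exp (ε * Real.log Y ^ ρ)
    linarith
  have e2 : 1 ≤ Real.exp (ε * Real.log Y ^ ρ) := Real.one_le_exp (by positivity)
  have e3 : ρ * Real.log (Real.log Y) ≤ Real.log Y ^ ρ := by
    rw [← Real.log_rpow h0]
    have := Real.log_le_sub_one_of_pos h1
    linarith
  have e4 : 0 ≤ Real.log (Real.log Y) := Real.log_nonneg hY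
  have e5 : t * Real.log (Real.log Y) ≤ |t| * Real.log (Real.log Y) :=
    mul_le_mul_of_nonneg_right (le_abs_self t) e4
  have e6 : |t| * Real.log (Real.log Y) ≤ |t| / (ρ * ε) * Real.exp (ε * Real.log Y ^ ρ) := by
    have e7 : |t| * Real.log (Real.log Y) = |t| / (ρ * ε) * (ε * (ρ * Real.log (Real.log Y))) := by
      field_simp
    rw [e7]
    refine mul_le_mul_of_nonneg_left ?_ (by positivity)
    exact (mul_le_mul_of_nonneg_left e3 hε.le).trans e1
  have e8 : C ≤ |C| * Real.exp (ε * Real.log Y ^ ρ) :=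
    (le_abs_self C).trans (le_mul_of_one_le_right (abs_nonneg _) e2)
  rw [add_mul]
  linarith

/-- translation of the upper bounds for the sums over the primes -/
lemma bound_Mr (E : Sys N α) {e : X → ℕ} (he : Function.Injective e) {ρ ρ' : ℝ} (hρ : 1 < ρ)
    (hρ' : ρ < ρ') (t : ℝ)
    (h : ∃ C : ℝ, ∀ᶠ Y : ℝ in atTop, SrE N α ρ ρ' Y ≤ t * Real.log (Real.log Y) + C) :
    ∃ C : ℝ, ∀ᶠ y : ℝ in atTop,
      M (lamN N e) (cN N α e) ρ⁻¹ y ≤ t * ρ⁻¹ * Real.log y + C := by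
  obtain ⟨C, hC⟩ := h
  obtain ⟨C₁, hC₁, h0⟩ := E.Sr_close he hρ hρ'
  have h1 := (Sys.tendsto_exp_rpow hρ).eventually (hC.and h0)
  refine ⟨C + C₁, ?_⟩
  filter_upwards [h1, eventually_gt_atTop 0] with y hy hy0
  obtain ⟨e1, e2⟩ := hy
  rw [Sys.pow_log hρ hy0.le] at e2
  have e3 : Real.log (Real.log (Real.exp (y ^ ρ⁻¹))) = ρ⁻¹ * Real.log y := by
    rw [Real.log_exp, Real.log_rpow hy0]
  rw [e3] at e1
  have e4 := (abs_le.1 e2).1
  linarith

/-- the lower bound on the real axis from upper bounds of the means over the primes -/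
theorem real_lower_primes (E : Sys N α) {ρ ρ' : ℝ} (hρ : 1 < ρ) (hρ' : ρ < ρ') {H : ℂ → ℂ}
    (hH : ∀ x : ℝ, 0 < x → AnalyticAt ℂ H x) (hHe : ∀ x : ℝ, 1 / 2 < x → H x = LE N α x) (t : ℝ)
    (h : ∃ C : ℝ, ∀ᶠ Y : ℝ in atTop, SrE N α ρ ρ' Y ≤ t * Real.log (Real.log Y) + C) :
    ∃ B : ℝ, 0 < B ∧ ∀ᶠ x : ℝ in 𝓝[>] 0, B * Real.exp (t * Real.log x) ≤ ‖H x‖ := by
  have := E.cnt
  obtain ⟨e, he⟩ := Countable.exists_injective_nat X
  have hρ0 : 0 < ρ := by linarith
  have h0 : 0 < ρ⁻¹ := by positivity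
  have h1 : ρ⁻¹ < 1 := inv_lt_one_of_one_lt₀ hρ
  obtain ⟨a, K1, x₀, ham, hK1, hx₀, haM, hbd, hint, htr⟩ := transform (E.dat he) h0 h1
  have DL : DataLoc 0 a (fun v => H (v ^ ((ρ⁻¹ : ℝ) : ℂ))) (fun v => GG N α (v ^ ((ρ⁻¹ : ℝ) : ℂ)))
      (max x₀ 1) :=
    { al_nonneg := le_rfl
      meas := ham
      c0_nonneg := le_max_of_le_right zero_le_one
      int := fun w hw => hint w ((le_max_left _ _).trans_lt hw)
      hΦ := fun w hw => comp_an hH hw
      hG := fun z hz => comp_GG E h0 h1 hz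
      eq := fun w hw => by
        obtain ⟨e1, e2⟩ := real_value E he hρ htr ((le_max_right _ _).trans_lt hw)
          ((le_max_left _ _).trans_lt hw)
        have e3 : (w : ℂ) ^ ((ρ⁻¹ : ℝ) : ℂ) = ((w ^ ρ⁻¹ : ℝ) : ℂ) :=
          (Complex.ofReal_cpow (hx₀.le.trans ((le_max_left _ _).trans hw.le)) _).symm
        rw [e3, hHe _ e1, e2] }
  obtain ⟨C, hC⟩ := bound_Mr E he hρ hρ' t h
  obtain ⟨y₁, hy₁⟩ := (hC.and (eventually_ge_atTop 2)).exists_forall_of_atTop
  set y₀ : ℝ := max y₁ 2 with hy₀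
  have hy02 : 2 ≤ y₀ := le_max_right _ _
  have hy0 : ∀ y, y₀ ≤ y → a y ≤ t * ρ⁻¹ * Real.log y + C := by
    intro y hy
    have e1 := (hy₁ y ((le_max_left _ _).trans hy)).1
    rwa [haM y (by linarith)]
  have hsm : ∀ u, 0 < u → u ≤ y₀ → |a u| ≤ K1 * Real.exp (x₀ * y₀) := by
    intro u hu huy
    refine (hbd u hu).trans (mul_le_mul_of_nonneg_left (Real.exp_le_exp.2 ?_) hK1)
    exact mul_le_mul_of_nonneg_left huy hx₀.le
  have hell0 := ell_nonneg (show (0 : ℝ) ≤ y₀ by linarith)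
  have hKρ : |t * ρ⁻¹| = |t| * ρ⁻¹ := by
    rw [abs_mul, abs_of_pos h0]
  have hex : 0 ≤ K1 * Real.exp (x₀ * y₀) := by positivity
  set C2 : ℝ := |C| + |t| * ρ⁻¹ * (1 + ell y₀) + K1 * Real.exp (x₀ * y₀) with hC2
  -- the nonnegative function
  set g : ℝ → ℝ := fun u => (-1 * a u + t * ρ⁻¹ * ell u) + C2 * ex 0 u with hg
  have hg0 : ∀ u, 0 < u → 0 ≤ g u := by
    intro u hu
    have e0 : g u = -1 * a u + t * ρ⁻¹ * ell u + C2 := by
      rw [hg, ex_zero]
      ring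
    rw [e0]
    have hCa := neg_abs_le C
    have hCb := le_abs_self C
    rcases le_total y₀ u with h | h
    · have e1 := hy0 u h
      have e2 := ell_le (hy02.trans h)
      have e3 := log_le_ell hu
      have e4 : |t * ρ⁻¹ * (ell u - Real.log u)| ≤ |t| * ρ⁻¹ * 1 := by
        rw [abs_mul, hKρ]
        refine mul_le_mul_of_nonneg_left ?_ (by positivity)
        rw [abs_le]
        constructor <;> linarith
      have e5 := (abs_le.1 e4).1
      have e6 : 0 ≤ |t| * ρ⁻¹ * ell y₀ := by positivity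
      rw [hC2]
      nlinarith
    · have e1 := hsm u hu h
      have e3 : |t * ρ⁻¹ * ell u| ≤ |t| * ρ⁻¹ * ell y₀ := by
        rw [abs_mul, hKρ]
        refine mul_le_mul_of_nonneg_left ?_ (by positivity)
        rw [abs_of_nonneg (by linarith [ell_nonneg hu.le])]
        exact ell_mono hu.le h
      have e4 := (abs_le.1 e1).2
      have e5 := (abs_le.1 e3).1
      have e6 : 0 ≤ |t| * ρ⁻¹ := by positivity
      rw [hC2]
      nlinarith [abs_nonneg C]
  -- convergence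
  have hconv : ∀ w : ℝ, 0 < w → LInt a w := by
    refine DL.core_upper (w0 := 0) le_rfl
      (κ := fun u => t * ρ⁻¹ * ell u + C2 * ex 0 u)
      ((ell_meas.const_mul _).add ((ex_meas 0).const_mul _))
      (fun w hw => ((ell_LInt hw).const_mul _).add ((ex_LInt hw).const_mul _)) fun u hu => ?_
    have e1 := hg0 u hu
    rw [hg] at e1
    simp only at e1
    linarith
  obtain ⟨C₁, hG⟩ := E.GG_sector (K := 1) one_pos
  have h2 := (Metric.tendsto_nhds.1 ell_lap_limit) 1 one_pos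
  have h3 : Tendsto (fun x : ℝ => x ^ ρ) (𝓝[>] 0) (𝓝[>] 0) := by
    refine tendsto_nhdsWithin_of_tendsto_nhds_of_eventually_within _ ?_ ?_
    · have e2 : Tendsto (fun w : ℝ => w ^ ρ) (𝓝[>] 0) (𝓝 (0 ^ ρ)) :=
        (tendsto_id.mono_left nhdsWithin_le_nhds).rpow_const (Or.inr hρ0.le)
      rwa [Real.zero_rpow hρ0.ne'] at e2
    · filter_upwards [self_mem_nhdsWithin] with w hw
      exact Real.rpow_pos_of_pos hw _
  set γ := Real.eulerMascheroniConstant with hγ
  refine ⟨Real.exp (-C₁ - C2 - |t * ρ⁻¹| * (1 + |γ|)), Real.exp_pos _, ?_⟩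
  filter_upwards [h3.eventually h2, self_mem_nhdsWithin] with x hx hx0
  have hx' : 0 < x := hx0
  have hw : 0 < x ^ ρ := Real.rpow_pos_of_pos hx' _
  have e1 := DL.norm_eq (s := 0) le_rfl hconv hw
  rw [← Complex.ofReal_cpow hw.le, Real.rpow_rpow_inv hx'.le hρ0.ne'] at e1
  rw [e1, ← Real.exp_add]
  apply Real.exp_le_exp.2
  have e2 : -C₁ ≤ (GG N α (x : ℂ)).re := by
    have f1 := hG x (by rwa [Complex.ofReal_re]) (by
      rw [Complex.norm_real, Real.norm_eq_abs, abs_of_pos hx', Complex.ofReal_re, one_mul])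
    have f2 := Complex.abs_re_le_norm (GG N α (x : ℂ))
    have f3 := (abs_le.1 (f2.trans f1)).1
    exact f3
  have e3 : 0 ≤ x ^ ρ * lap g (x ^ ρ) := mul_nonneg hw.le (lap_nonneg hg0 _)
  have e4 : lap g (x ^ ρ) = (-1 * lap a (x ^ ρ) + t * ρ⁻¹ * lap ell (x ^ ρ)) +
      C2 * (1 / (x ^ ρ - 0)) := by
    rw [hg, lap_add (((hconv _ hw).const_mul _).add ((ell_LInt hw).const_mul _))
      ((ex_LInt hw).const_mul _), lap_add ((hconv _ hw).const_mul _)
      ((ell_LInt hw).const_mul _), lap_const_mul, lap_const_mul, lap_const_mul, ex_lap hw]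
  have e5 : x ^ ρ * lap g (x ^ ρ) = -(x ^ ρ * lap a (x ^ ρ)) +
      t * ρ⁻¹ * (x ^ ρ * lap ell (x ^ ρ)) + C2 := by
    rw [e4, sub_zero]
    field_simp
  rw [Real.dist_eq] at hx
  have e6 : Real.log (x ^ ρ) = ρ * Real.log x := Real.log_rpow hx' _
  rw [e6] at hx
  set L := x ^ ρ * lap ell (x ^ ρ) with hL
  have e7 : |L + ρ * Real.log x| ≤ 1 + |γ| := by
    have e5 : L + ρ * Real.log x = (L + ρ * Real.log x - -γ) + -γ := by ring
    rw [e5]
    refine (abs_add_le _ _).trans (add_le_add hx.le ?_)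
    rw [abs_neg]
  have e8 : |t * ρ⁻¹ * (L + ρ * Real.log x)| ≤ |t * ρ⁻¹| * (1 + |γ|) := by
    rw [abs_mul]
    exact mul_le_mul_of_nonneg_left e7 (abs_nonneg _)
  have e9 := (abs_le.1 e8).2
  have e10 : t * ρ⁻¹ * (L + ρ * Real.log x) = t * ρ⁻¹ * L + t * Real.log x := by
    field_simp
  linarith

/-- **Upper bounds for the sums over the primes and the order.** -/
theorem order_upper_primes (E : Sys N α) {H : ℂ → ℂ} (hH : ∀ x : ℝ, 0 ≤ x → AnalyticAt ℂ H x)
    (hHe : ∀ x : ℝ, 1 / 2 < x → H x = LE N α x) (t : ℝ) :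
    (∀ ρ ρ' : ℝ, 1 < ρ → ρ < ρ' → ∃ C : ℝ, ∀ᶠ Y : ℝ in atTop,
        SrE N α ρ ρ' Y ≤ t * Real.log (Real.log Y) + C) ↔
      (∃ m : ℕ, analyticOrderAt H 0 = m ∧ (m : ℝ) ≤ t) ∧
      ∃ G : ℂ → ℂ, (∀ s : ℂ, 0 < s.re → DifferentiableAt ℂ G s ∧ G s ≠ 0) ∧
        ∀ s : ℂ, 1 / 2 < s.re → G s = LE N α s := by
  have hH0 : AnalyticAt ℂ H 0 := by simpa using hH 0 le_rfl
  constructor
  · intro hb
    obtain ⟨B, hB, hlow⟩ := real_lower_primes E (ρ := 2) (ρ' := 3) (by norm_num) (by norm_num)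
      (fun x hx => hH x hx.le) hHe t (hb 2 3 (by norm_num) (by norm_num))
    refine ⟨order_le hH0 hB hlow, ?_⟩
    have hG : ∀ ρ : ℝ, 1 < ρ → ∃ G : ℂ → ℂ,
        (∀ s : ℂ, s ∈ Sect ρ ∨ 1 / 2 < s.re → DifferentiableAt ℂ G s ∧ G s ≠ 0) ∧
        ∀ s : ℂ, 1 / 2 < s.re → G s = LE N α s := fun ρ hρ =>
      cont_of_upper E hρ (by linarith : ρ < ρ + 1) (fun x hx => hH x hx.le) hHe fun ε hε => by
        obtain ⟨C, hC⟩ := hb ρ (ρ + 1) hρ (by linarith)
        obtain ⟨B, hB⟩ := loglog_le (ρ := ρ) (by linarith) t C ε hε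
        exact ⟨B, (hC.and hB).mono fun Y hY => hY.1.trans hY.2⟩
    choose! G hG1 hG2 using hG
    obtain ⟨Gh, hGh⟩ := glue2 (σ := 1 / 2) (le_refl (1 : ℝ)) (L := LE N α) (G := G)
      (fun ρ hρ s hs => (hG1 ρ hρ s (Or.inl hs)).1) (fun ρ hρ s _ hs => hG2 ρ hρ s hs)
    have hex : ∀ s : ℂ, 0 < s.re → ∃ ρ, 1 < ρ ∧ s ∈ Sect ρ := fun s hs =>
      exists_sect' (ρ₀ := 1) le_rfl (by rwa [sect_one])
    refine ⟨Gh, fun s hs => ?_, fun s hs => ?_⟩
    · obtain ⟨ρ, h1, h2⟩ := hex s hs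
      obtain ⟨h3, h4⟩ := hG1 ρ h1 s (Or.inl h2)
      refine ⟨h3.congr_of_eventuallyEq ?_, by rw [hGh ρ h1 s h2]; exact h4⟩
      filter_upwards [(sect_open h1).mem_nhds h2] with z hz
      exact hGh ρ h1 z hz
    · obtain ⟨ρ, h1, h2⟩ := hex s (by linarith)
      rw [hGh ρ h1 s h2, hG2 ρ h1 s hs]
  · rintro ⟨⟨m, hm, hmt⟩, G, q1, q2⟩ ρ ρ' hρ hρ'
    obtain ⟨hf, hf1, hf2, hf3⟩ := (hH0.analyticOrderAt_eq_natCast).1 hm
    have hHh : ∀ᶠ s : ℂ in 𝓝 0, H s = s ^ m * hf s := by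
      filter_upwards [hf3] with s hs
      rw [hs, sub_zero, smul_eq_mul]
    have ho : IsOpen {s : ℂ | 0 < s.re} := isOpen_lt continuous_const Complex.continuous_re
    have hGan : ∀ x : ℝ, 0 < x → AnalyticAt ℂ G x := fun x hx => by
      have h1 : DifferentiableOn ℂ G {s : ℂ | 0 < s.re} := fun z hz =>
        (q1 z hz).1.differentiableWithinAt
      exact h1.analyticAt (ho.mem_nhds (by rwa [Set.mem_ofPred_eq, Complex.ofReal_re]))
    have hGH : ∀ x : ℝ, 0 < x → G x = H x := by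
      have a1 : AnalyticOnNhd ℝ (fun x : ℝ => G x) (Ioi 0) := fun x hx => an_ofReal (hGan x hx)
      have a2 : AnalyticOnNhd ℝ (fun x : ℝ => H x) (Ioi 0) := fun x hx =>
        an_ofReal (hH x (le_of_lt hx))
      have a3 := a1.eqOn_of_preconnected_of_eventuallyEq a2 isPreconnected_Ioi
        (Set.mem_Ioi.2 (one_pos : (0 : ℝ) < 1)) (by
          filter_upwards [lt_mem_nhds (show (1 / 2 : ℝ) < 1 by norm_num)] with x hx
          rw [hHe x hx, q2 _ (by rwa [Complex.ofReal_re])])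
      exact fun x hx => a3 hx
    have hHd : ∀ᶠ s : ℂ in 𝓝 0, DifferentiableAt ℂ H s := by
      filter_upwards [hH0.eventually_analyticAt] with s hs
      exact hs.differentiableAt
    obtain ⟨ε, hε, hball⟩ := Metric.eventually_nhds_iff_ball.1 (hHd.and hHh)
    set U : Set ℂ := {s : ℂ | 0 < s.re} ∩ Metric.ball 0 ε with hU
    have hUo : IsOpen U := ho.inter Metric.isOpen_ball
    have hUc : Convex ℝ U := (convex_halfSpace_re_gt 0).inter (convex_ball 0 ε)
    have hx : ((ε / 2 : ℝ) : ℂ) ∈ U := by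
      refine ⟨by rw [Set.mem_ofPred_eq, Complex.ofReal_re]; positivity, ?_⟩
      rw [Metric.mem_ball, dist_zero_right, Complex.norm_real, Real.norm_eq_abs,
        abs_of_pos (by positivity)]
      linarith
    have heq : EqOn G H U := by
      refine eqOn_of_real hUo hUc.isPreconnected (fun s hs => (q1 s hs.1).1)
        (fun s hs => (hball s hs.2).1) hx ?_
      filter_upwards [lt_mem_nhds (show 0 < ε / 2 by positivity)] with x hx
      exact hGH x hx
    -- the glued function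
    set Ψ : ℂ → ℂ := fun s => if 0 < s.re then G s else H s with hΨ
    have hΨG : ∀ s : ℂ, 0 < s.re → Ψ s = G s := fun s hs => by
      rw [hΨ]
      simp only
      rw [if_pos hs]
    have hCon : Con N α Ψ :=
      { Ψd := fun s hs => by
          refine (q1 s hs).1.congr_of_eventuallyEq ?_
          filter_upwards [ho.mem_nhds hs] with z hz
          exact hΨG z hz
        prod := fun s hs => by
          have h2 := E.hasProd hs
          rw [hΨG s (by linarith), q2 s hs]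
          unfold Pool.Agent.TH942.ES.LE
          rw [h2.tprod_eq]
          exact h2 }
    have hord : Pool.Agent.W263.BSD.OrdZero Ψ m := by
      refine ⟨hf, hf1, hf2, ?_⟩
      filter_upwards [Metric.ball_mem_nhds (0 : ℂ) hε] with s hs
      have e1 := (hball s hs).2
      by_cases h0 : 0 < s.re
      · rw [hΨG s h0, heq ⟨h0, hs⟩, e1]
      · rw [hΨ]
        simp only
        rw [if_neg h0, e1]
    obtain ⟨C, hC, h5⟩ := E.Sr_up hCon hρ hρ' hord fun s hs1 hs2 => by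
      have h6 : 0 < s.re := sect_re hρ ⟨hs1, hs2⟩
      rw [hΨG s h6]
      exact (q1 s h6).2
    have e2 : ∀ᶠ Y : ℝ in atTop, 0 < Real.log (Real.log Y) :=
      (Real.tendsto_log_atTop.comp Real.tendsto_log_atTop).eventually_gt_atTop 0
    refine ⟨C, ?_⟩
    filter_upwards [h5, e2] with Y h1 h2
    have h3 : (m : ℝ) * Real.log (Real.log Y) ≤ t * Real.log (Real.log Y) :=
      mul_le_mul_of_nonneg_right hmt h2.le
    have h4 := (abs_le.1 h1).2
    linarith

end Pool.Agent.V11333.Cone
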