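import Mathlib

/-!
# Random convex sets in a Hilbert space: the strong law fails for sets with a common expectation

Core construction used for MP_b91784_pr, MP_aabed8_pr and MP_3b082f_pr.
-/

set_option autoImplicit false

open MeasureTheory ProbabilityTheory Filter Topology Pointwise

namespace Pool.Agent.V11333.RandomSets

/-- The non-empty bounded convex subsets of `X`. -/
structure BC (X : Type*) [NormedAddCommGroup X] [NormedSpace ℝ X] where
  /-- the underlying set -/
  carrier : Set X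
  nonempty : carrier.Nonempty
  convex : Convex ℝ carrier
  bounded : Bornology.IsBounded carrier

section General

variable {X : Type*} [NormedAddCommGroup X] [NormedSpace ℝ X]

/-- The support function `x* ↦ sup_{a ∈ A} x*(a)`. -/
noncomputable def support (A : Set X) (f : StrongDual ℝ X) : ℝ := sSup (f '' A)

lemma bddAbove_image {A : Set X} (hA : Bornology.IsBounded A) (f : StrongDual ℝ X) :
    BddAbove (f '' A) := by
  obtain ⟨C, hC⟩ := hA.exists_norm_le
  refine ⟨‖f‖ * C, ?_⟩
  rintro _ ⟨a, ha, rfl⟩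
  calc f a ≤ ‖f a‖ := le_abs_self _
    _ ≤ ‖f‖ * ‖a‖ := f.le_opNorm a
    _ ≤ ‖f‖ * C := mul_le_mul_of_nonneg_left (hC a ha) (norm_nonneg _)

lemma support_le {A : Set X} (hn : A.Nonempty) {C : ℝ} (hC : ∀ a ∈ A, ‖a‖ ≤ C)
    (f g : StrongDual ℝ X) : support A f ≤ support A g + ‖f - g‖ * C := by
  refine csSup_le (hn.image _) ?_
  rintro _ ⟨a, ha, rfl⟩
  have hb : Bornology.IsBounded A := isBounded_iff_forall_norm_le.2 ⟨C, hC⟩
  have h1 : g a ≤ support A g := le_csSup (bddAbove_image hb g) ⟨a, ha, rfl⟩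
  have h2 : f a = g a + (f - g) a := by simp
  have h3 : (f - g) a ≤ ‖f - g‖ * C :=
    calc (f - g) a ≤ ‖(f - g) a‖ := le_abs_self _
      _ ≤ ‖f - g‖ * ‖a‖ := (f - g).le_opNorm a
      _ ≤ ‖f - g‖ * C := mul_le_mul_of_nonneg_left (hC a ha) (norm_nonneg _)
  rw [h2]
  exact add_le_add h1 h3

lemma support_zero {A : Set X} (hn : A.Nonempty) : support A 0 = 0 := by
  unfold support
  have : (fun a => (0 : StrongDual ℝ X) a) '' A = {0} := by
    ext x
    simp only [Set.mem_image, zero_apply, Set.mem_singleton_iff]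
    constructor
    · rintro ⟨_, _, h⟩; exact h.symm
    · intro h; exact ⟨hn.some, hn.some_mem, h.symm⟩
  rw [this]
  exact csSup_singleton _

/-- The Radstrom embedding: the support function of `A`, as a bounded continuous function on the
unit sphere of the dual space. -/
noncomputable def radstrom (A : BC X) :
    BoundedContinuousFunction (Metric.sphere (0 : StrongDual ℝ X) 1) ℝ :=
  BoundedContinuousFunction.ofNormedAddCommGroup (fun f => support A.carrier f.1)
    (by
      obtain ⟨C, hC⟩ := A.bounded.exists_norm_le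
      have hC0 : 0 ≤ C := (norm_nonneg _).trans (hC _ A.nonempty.some_mem)
      refine (LipschitzWith.of_dist_le_mul (K := Real.toNNReal C) fun f g => ?_).continuous
      have h1 := support_le A.nonempty hC f.1 g.1
      have h2 := support_le A.nonempty hC g.1 f.1
      rw [norm_sub_rev g.1 f.1] at h2
      rw [Real.dist_eq, Subtype.dist_eq, dist_eq_norm, Real.coe_toNNReal C hC0, abs_le]
      constructor <;> linarith [mul_comm C ‖(f.1 : StrongDual ℝ X) - g.1‖])
    (A.bounded.exists_norm_le).choose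
    (by
      intro f
      have hC := (A.bounded.exists_norm_le).choose_spec
      have h1 := support_le A.nonempty hC f.1 0
      have h2 := support_le A.nonempty hC 0 f.1
      have hf : ‖(f.1 : StrongDual ℝ X)‖ = 1 := by
        have := f.2
        rwa [mem_sphere_zero_iff_norm] at this
      rw [sub_zero, hf, support_zero A.nonempty] at h1
      rw [zero_sub, norm_neg, hf, support_zero A.nonempty] at h2
      rw [Real.norm_eq_abs, abs_le]
      constructor <;> linarith)

@[simp] lemma radstrom_apply (A : BC X) (f : Metric.sphere (0 : StrongDual ℝ X) 1) :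
    radstrom A f = support A.carrier f.1 := rfl

lemma support_add {A B : Set X} (hA : A.Nonempty) (hB : B.Nonempty) (hA' : Bornology.IsBounded A)
    (hB' : Bornology.IsBounded B) (f : StrongDual ℝ X) :
    support (A + B) f = support A f + support B f := by
  unfold support
  rw [Set.image_add]
  exact csSup_add (hA.image _) (bddAbove_image hA' f) (hB.image _) (bddAbove_image hB' f)

lemma support_smul {A : Set X} {c : ℝ} (hc : 0 ≤ c) (f : StrongDual ℝ X) :
    support (c • A) f = c * support A f := by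
  unfold support
  have : f '' (c • A) = c • (f '' A) := by
    rw [← Set.image_smul, ← Set.image_smul, Set.image_image, Set.image_image]
    simp
  rw [this, Real.sSup_smul_of_nonneg hc, smul_eq_mul]

lemma sum_facts {ι : Type*} (s : Finset ι) (A : ι → Set X) (hn : ∀ i, (A i).Nonempty)
    (hb : ∀ i, Bornology.IsBounded (A i)) (f : StrongDual ℝ X) :
    (∑ i ∈ s, A i).Nonempty ∧ Bornology.IsBounded (∑ i ∈ s, A i) ∧
      support (∑ i ∈ s, A i) f = ∑ i ∈ s, support (A i) f := by
  classical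
  induction s using Finset.induction_on with
  | empty =>
    refine ⟨by simp, ?_, ?_⟩
    · rw [Finset.sum_empty]
      exact Bornology.isBounded_singleton
    · simp [support]
  | insert a s ha ih =>
    obtain ⟨h1, h2, h3⟩ := ih
    rw [Finset.sum_insert ha, Finset.sum_insert ha]
    refine ⟨(hn a).add h1, (hb a).add h2, ?_⟩
    rw [support_add (hn a) h1 (hb a) h2, h3]

/-! ### Infinite Minkowski sums -/

/-- The infinite Minkowski sum of the sets `C j`. -/
def bigSum (C : ℕ → Set X) : Set X := {x | ∃ v : ℕ → X, (∀ j, v j ∈ C j) ∧ x = ∑' j, v j}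

variable [CompleteSpace X]

omit [CompleteSpace X] in
lemma bigSum_nonempty {C : ℕ → Set X} (hC : ∀ j, (C j).Nonempty) : (bigSum C).Nonempty :=
  ⟨_, fun j => (hC j).some, fun j => (hC j).some_mem, rfl⟩

lemma summable_of {C : ℕ → Set X} {b : ℕ → ℝ} (hb : Summable b)
    (hC : ∀ j, ∀ x ∈ C j, ‖x‖ ≤ b j) {v : ℕ → X} (hv : ∀ j, v j ∈ C j) : Summable v :=
  Summable.of_norm_bounded hb fun j => hC j _ (hv j)

lemma bigSum_norm_le {C : ℕ → Set X} {b : ℕ → ℝ} (hb : Summable b)
    (hC : ∀ j, ∀ x ∈ C j, ‖x‖ ≤ b j) : ∀ x ∈ bigSum C, ‖x‖ ≤ ∑' j, b j := by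
  rintro x ⟨v, hv, rfl⟩
  exact tsum_of_norm_bounded hb.hasSum fun j => hC j _ (hv j)

lemma bigSum_convex {C : ℕ → Set X} {b : ℕ → ℝ} (hb : Summable b)
    (hC : ∀ j, ∀ x ∈ C j, ‖x‖ ≤ b j) (hc : ∀ j, Convex ℝ (C j)) : Convex ℝ (bigSum C) := by
  rintro x ⟨v, hv, rfl⟩ y ⟨w, hw, rfl⟩ s t hs ht hst
  refine ⟨fun j => s • v j + t • w j, fun j => hc j (hv j) (hw j) hs ht hst, ?_⟩
  have h1 := summable_of hb hC hv
  have h2 := summable_of hb hC hw
  rw [Summable.tsum_add (h1.const_smul s) (h2.const_smul t), h1.tsum_const_smul,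
    h2.tsum_const_smul]

lemma bigSum_compact {C : ℕ → Set X} {b : ℕ → ℝ} (hb : Summable b)
    (hC : ∀ j, ∀ x ∈ C j, ‖x‖ ≤ b j) (hc : ∀ j, IsCompact (C j)) : IsCompact (bigSum C) := by
  have h1 : ∀ j, CompactSpace (C j) := fun j => isCompact_iff_compactSpace.1 (hc j)
  have h2 : Continuous (fun v : (∀ j, C j) => ∑' j, (v j : X)) :=
    continuous_tsum (fun j => continuous_subtype_val.comp (continuous_apply j)) hb
      (fun j v => hC j _ (v j).2)
  have h3 : bigSum C = Set.range (fun v : (∀ j, C j) => ∑' j, (v j : X)) := by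
    ext x
    constructor
    · rintro ⟨v, hv, rfl⟩
      exact ⟨fun j => ⟨v j, hv j⟩, rfl⟩
    · rintro ⟨v, rfl⟩
      exact ⟨fun j => (v j : X), fun j => (v j).2, rfl⟩
  rw [h3]
  exact isCompact_range h2

lemma bigSum_split {C : ℕ → Set X} {b : ℕ → ℝ} (hb : Summable b)
    (hC : ∀ j, ∀ x ∈ C j, ‖x‖ ≤ b j) (i : ℕ) :
    bigSum C = C i + bigSum (Function.update C i {0}) := by
  ext x
  rw [Set.mem_add]
  constructor
  · rintro ⟨v, hv, rfl⟩
    refine ⟨v i, hv i, ∑' j, (if j = i then 0 else v j), ⟨fun j => if j = i then 0 else v j, ?_,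
      rfl⟩, ((summable_of hb hC hv).tsum_eq_add_tsum_ite i).symm⟩
    intro j
    by_cases h : j = i
    · subst h; simp
    · simp [h, hv j]
  · rintro ⟨a, ha, y, ⟨v, hv, rfl⟩, rfl⟩
    refine ⟨Function.update v i a, ?_, ?_⟩
    · intro j
      by_cases h : j = i
      · subst h; simpa using ha
      · have := hv j
        simp only [h, ne_eq, not_false_eq_true, Function.update_of_ne] at this ⊢
        exact this
    · have hs : Summable (Function.update v i a) := by
        refine summable_of hb hC (fun j => ?_)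
        by_cases h : j = i
        · subst h; simpa using ha
        · have := hv j
          simp only [h, ne_eq, not_false_eq_true, Function.update_of_ne] at this ⊢
          exact this
      rw [hs.tsum_eq_add_tsum_ite i, Function.update_self]
      congr 1
      refine tsum_congr fun j => ?_
      by_cases h : j = i
      · subst h
        have := hv j
        simpa using this
      · simp [h]

end General

/-! ### The construction -/

section Construction

variable (c : ℕ → ℕ)

/-- patterns of a block -/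
abbrev Pat : Type := Σ m : ℕ, (∀ i : Fin (2 ^ (m + 1)), Fin (c i + 1))

lemma lt_block (i : ℕ) : i < 2 ^ (Nat.log 2 i + 1) := Nat.lt_pow_succ_log_self (by norm_num) i

variable {c}

variable {X : Type*} [NormedAddCommGroup X] [InnerProductSpace ℝ X] (u : Pat c → X)

/-- the vertices of `W i k` -/
def vert (i : ℕ) (k : Fin (c i + 1)) : Set X :=
  {x | ∃ A : (∀ j : Fin (2 ^ (Nat.log 2 i + 1)), Fin (c j + 1)),
    A ⟨i, lt_block i⟩ = k ∧ x = u ⟨Nat.log 2 i, A⟩}

/-- the random part -/
def W (i : ℕ) (k : Fin (c i + 1)) : Set X := convexHull ℝ (vert u i k)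

/-- its mean -/
noncomputable def V (i : ℕ) : Set X := ((c i + 1 : ℝ)⁻¹) • ∑ k : Fin (c i + 1), W u i k

lemma vert_finite (i : ℕ) (k : Fin (c i + 1)) : (vert u i k).Finite := by
  refine (Set.finite_range (fun A : (∀ j : Fin (2 ^ (Nat.log 2 i + 1)), Fin (c j + 1)) =>
    u ⟨Nat.log 2 i, A⟩)).subset ?_
  rintro x ⟨A, -, rfl⟩
  exact ⟨A, rfl⟩

lemma vert_nonempty (i : ℕ) (k : Fin (c i + 1)) : (vert u i k).Nonempty :=
  ⟨_, Function.update (fun _ => 0) ⟨i, lt_block i⟩ k, by simp, rfl⟩

lemma W_compact (i : ℕ) (k : Fin (c i + 1)) : IsCompact (W u i k) :=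
  (vert_finite u i k).isCompact_convexHull ℝ

lemma W_nonempty (i : ℕ) (k : Fin (c i + 1)) : (W u i k).Nonempty :=
  (vert_nonempty u i k).convexHull

lemma V_compact (i : ℕ) : IsCompact (V u i) := by
  unfold V
  refine IsCompact.smul _ ?_
  classical
  induction (Finset.univ : Finset (Fin (c i + 1))) using Finset.induction_on with
  | empty => simp
  | insert a s ha ih =>
    rw [Finset.sum_insert ha]
    exact (W_compact u i a).add ih

lemma V_convex (i : ℕ) : Convex ℝ (V u i) := by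
  unfold V
  refine Convex.smul ?_ _
  classical
  induction (Finset.univ : Finset (Fin (c i + 1))) using Finset.induction_on with
  | empty =>
    rw [Finset.sum_empty]
    exact convex_singleton 0
  | insert a s ha ih =>
    rw [Finset.sum_insert ha]
    exact (convex_convexHull ℝ _).add ih

lemma V_nonempty (i : ℕ) : (V u i).Nonempty := by
  unfold V
  refine Set.Nonempty.smul_set ?_
  exact (sum_facts Finset.univ (fun k => W u i k) (W_nonempty u i)
    (fun k => (W_compact u i k).isBounded) 0).1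

variable (hu : ∀ A B, A ≠ B → inner ℝ (u A) (u B) = 0) (hu' : ∀ A, ‖u A‖ ≤ 1 / 2)

include hu' in
lemma W_norm (i : ℕ) (k : Fin (c i + 1)) : ∀ x ∈ W u i k, ‖x‖ ≤ 1 / 2 := by
  have : W u i k ⊆ Metric.closedBall 0 (1 / 2) := by
    refine convexHull_min ?_ (convex_closedBall _ _)
    rintro x ⟨A, -, rfl⟩
    simpa using hu' _
  intro x hx
  simpa using this hx

include hu in
lemma W_orth (i : ℕ) {k l : Fin (c i + 1)} (hkl : k ≠ l) :
    ∀ x ∈ W u i k, ∀ y ∈ W u i l, inner ℝ x y = 0 := by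
  have h1 : ∀ x ∈ vert u i k, ∀ y ∈ W u i l, inner ℝ x y = 0 := by
    intro x hx
    have : W u i l ⊆ {y | inner ℝ x y = 0} := by
      refine convexHull_min ?_ ?_
      · rintro y ⟨B, hB, rfl⟩
        obtain ⟨A, hA, rfl⟩ := hx
        refine hu _ _ ?_
        intro h
        have h2 : A = B := by
          simpa using h
        subst h2
        exact hkl (hA.symm.trans hB)
      · intro y hy z hz s t _ _ _
        simp only [Set.mem_ofPred_eq] at hy hz ⊢
        rw [inner_add_right, inner_smul_right, inner_smul_right, hy, hz]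
        simp
    exact fun y hy => this hy
  intro x hx y hy
  have : W u i k ⊆ {x | inner ℝ x y = 0} := by
    refine convexHull_min (fun x hx => h1 x hx y hy) ?_
    intro z hz w hw s t _ _ _
    simp only [Set.mem_ofPred_eq] at hz hw ⊢
    rw [inner_add_left, inner_smul_left, inner_smul_left, hz, hw]
    simp
  exact this hx

include hu hu' in
lemma V_norm (i : ℕ) : ∀ x ∈ V u i, ‖x‖ ≤ 1 / Real.sqrt (c i + 1) := by
  rintro x ⟨y, hy, rfl⟩
  rw [Set.mem_finsetSum] at hy
  obtain ⟨g, hg, rfl⟩ := hy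
  have hg' : ∀ k, g k ∈ W u i k := fun k => hg (Finset.mem_univ k)
  have hsq : ‖∑ k, g k‖ ^ 2 ≤ (c i + 1) := by
    rw [← real_inner_self_eq_norm_sq, sum_inner]
    have h1 : ∀ k, inner ℝ (g k) (∑ l, g l) ≤ (1 : ℝ) := by
      intro k
      rw [inner_sum, Finset.sum_eq_single k]
      · rw [real_inner_self_eq_norm_sq]
        have := W_norm u hu' i k _ (hg' k)
        nlinarith [norm_nonneg (g k)]
      · intro l _ hl
        exact W_orth u hu i hl.symm _ (hg' k) _ (hg' l)
      · simp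
    calc ∑ k, inner ℝ (g k) (∑ l, g l) ≤ ∑ _k : Fin (c i + 1), (1 : ℝ) :=
          Finset.sum_le_sum fun k _ => h1 k
      _ = c i + 1 := by simp
  have hpos : (0 : ℝ) < c i + 1 := by positivity
  have h2 : ‖∑ k, g k‖ ≤ Real.sqrt (c i + 1) := Real.le_sqrt_of_sq_le hsq
  simp only
  rw [norm_smul, norm_inv, Real.norm_eq_abs, abs_of_pos hpos]
  have h3 : Real.sqrt (c i + 1) * Real.sqrt (c i + 1) = c i + 1 := Real.mul_self_sqrt hpos.le
  have h4 : 0 < Real.sqrt (c i + 1) := Real.sqrt_pos.2 hpos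
  rw [le_div_iff₀ h4]
  calc ((c i + 1 : ℝ))⁻¹ * ‖∑ k, g k‖ * Real.sqrt (c i + 1)
      ≤ ((c i + 1 : ℝ))⁻¹ * Real.sqrt (c i + 1) * Real.sqrt (c i + 1) := by gcongr
    _ = 1 := by rw [mul_assoc, h3]; exact inv_mul_cancel₀ hpos.ne'

/-- the deterministic part -/
noncomputable def Frest (i : ℕ) : Set X := bigSum (Function.update (V u) i {0})

variable {b : ℕ → ℝ} (hb : Summable b) (hbc : ∀ i, 1 / Real.sqrt (c i + 1) ≤ b i)

include hu hu' hbc in
lemma V_norm' (i : ℕ) : ∀ x ∈ V u i, ‖x‖ ≤ b i :=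
  fun x hx => (V_norm u hu hu' i x hx).trans (hbc i)

include hu hu' hbc in
lemma upd_norm (i j : ℕ) : ∀ x ∈ Function.update (V u) i {0} j, ‖x‖ ≤ b j := by
  intro x hx
  by_cases h : j = i
  · subst h
    simp only [Function.update_self, Set.mem_singleton_iff] at hx
    rw [hx, norm_zero]
    exact le_trans (by positivity) (hbc j)
  · simp only [h, ne_eq, not_false_eq_true, Function.update_of_ne] at hx
    exact V_norm' u hu hu' hbc j x hx

lemma upd_nonempty (i j : ℕ) : (Function.update (V u) i {0} j).Nonempty := by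
  by_cases h : j = i
  · subst h; simp
  · simp only [h, ne_eq, not_false_eq_true, Function.update_of_ne]
    exact V_nonempty u j

lemma upd_convex (i j : ℕ) : Convex ℝ (Function.update (V u) i {0} j) := by
  by_cases h : j = i
  · subst h; simp only [Function.update_self]; exact convex_singleton 0
  · simp only [h, ne_eq, not_false_eq_true, Function.update_of_ne]
    exact V_convex u j

variable [CompleteSpace X]

include hu hu' hb hbc in
lemma Frest_norm (i : ℕ) : ∀ x ∈ Frest u i, ‖x‖ ≤ ∑' j, b j :=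
  bigSum_norm_le hb (fun j => upd_norm u hu hu' hbc i j)

/-- the common expectation -/
noncomputable def UU : BC X where
  carrier := bigSum (V u)
  nonempty := bigSum_nonempty (V_nonempty u)
  convex := bigSum_convex hb (V_norm' u hu hu' hbc) (V_convex u)
  bounded := isBounded_iff_forall_norm_le.2 ⟨_, bigSum_norm_le hb (V_norm' u hu hu' hbc)⟩

/-- the values of the random sets -/
noncomputable def PP (i : ℕ) (k : Fin (c i + 1)) : BC X where
  carrier := W u i k + Frest u i
  nonempty := (W_nonempty u i k).add (bigSum_nonempty (upd_nonempty u i))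
  convex := (convex_convexHull ℝ _).add
    (bigSum_convex hb (fun j => upd_norm u hu hu' hbc i j) (upd_convex u i))
  bounded := (W_compact u i k).isBounded.add
    (isBounded_iff_forall_norm_le.2 ⟨_, Frest_norm u hu hu' hb hbc i⟩)

lemma mean_identity (i : ℕ) (f : StrongDual ℝ X) :
    ∑ k : Fin (c i + 1), ((c i + 1 : ℝ)⁻¹) * support (PP u hu hu' hb hbc i k).carrier f
      = support (UU u hu hu' hb hbc).carrier f := by
  have hFb : Bornology.IsBounded (Frest u i) :=
    isBounded_iff_forall_norm_le.2 ⟨_, Frest_norm u hu hu' hb hbc i⟩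
  have hFn : (Frest u i).Nonempty := bigSum_nonempty (upd_nonempty u i)
  have h1 : ∀ k, support (PP u hu hu' hb hbc i k).carrier f
      = support (W u i k) f + support (Frest u i) f := fun k =>
    support_add (W_nonempty u i k) hFn (W_compact u i k).isBounded hFb f
  simp only [h1]
  obtain ⟨h2, h3, h4⟩ := sum_facts Finset.univ (fun k => W u i k) (W_nonempty u i)
    (fun k => (W_compact u i k).isBounded) f
  have hpos : (0 : ℝ) < c i + 1 := by positivity
  have h5 : (UU u hu hu' hb hbc).carrier = V u i + Frest u i :=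
    bigSum_split hb (V_norm' u hu hu' hbc) i
  rw [h5, support_add (V_nonempty u i) hFn (V_compact u i).isBounded hFb, V,
    support_smul (inv_nonneg.2 hpos.le), h4, ← Finset.mul_sum, Finset.sum_add_distrib, mul_add]
  congr 1
  rw [Finset.sum_const, Finset.card_univ, Fintype.card_fin, nsmul_eq_mul]
  push_cast
  rw [← mul_assoc, inv_mul_cancel₀ hpos.ne', one_mul]

end Construction

/-! ### Probability -/

section Probability

variable {c : ℕ → ℕ}

variable {X : Type*} [NormedAddCommGroup X] [InnerProductSpace ℝ X] [CompleteSpace X]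
  (u : Pat c → X) (hu : ∀ A B, A ≠ B → inner ℝ (u A) (u B) = 0) (hu' : ∀ A, ‖u A‖ ≤ 1 / 2)
  {b : ℕ → ℝ} (hb : Summable b) (hbc : ∀ i, 1 / Real.sqrt (c i + 1) ≤ b i)

variable (c) in
/-- the probability space: independent uniform classes -/
noncomputable def law : Measure (∀ i, Fin (c i + 1)) :=
  Measure.infinitePi fun i => (PMF.uniformOfFintype (Fin (c i + 1))).toMeasure

instance : IsProbabilityMeasure (law c) := by unfold law; infer_instance

theorem hasExpectation (i : ℕ) :
    StronglyMeasurable (fun ω : ∀ i, Fin (c i + 1) => radstrom (PP u hu hu' hb hbc i (ω i))) ∧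
    Integrable (fun ω : ∀ i, Fin (c i + 1) => radstrom (PP u hu hu' hb hbc i (ω i))) (law c) ∧
    ∫ ω, radstrom (PP u hu hu' hb hbc i (ω i)) ∂(law c) = radstrom (UU u hu hu' hb hbc) := by
  have hg : StronglyMeasurable (fun k : Fin (c i + 1) => radstrom (PP u hu hu' hb hbc i k)) :=
    StronglyMeasurable.of_discrete
  have hmp := measurePreserving_eval_infinitePi
    (fun i => (PMF.uniformOfFintype (Fin (c i + 1))).toMeasure) i
  have hgi : Integrable (fun k : Fin (c i + 1) => radstrom (PP u hu hu' hb hbc i k))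
      (PMF.uniformOfFintype (Fin (c i + 1))).toMeasure := Integrable.of_finite
  refine ⟨hg.comp_measurable hmp.measurable, hmp.integrable_comp_of_integrable hgi, ?_⟩
  have h1 : ∫ ω, radstrom (PP u hu hu' hb hbc i (ω i)) ∂(law c)
      = ∫ k, radstrom (PP u hu hu' hb hbc i k)
        ∂(PMF.uniformOfFintype (Fin (c i + 1))).toMeasure := by
    rw [← hmp.map_eq]
    exact (integral_map hmp.measurable.aemeasurable hg.aestronglyMeasurable).symm
  rw [h1, PMF.integral_eq_sum]
  ext f
  rw [BoundedContinuousFunction.sum_apply]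
  simp only [PMF.uniformOfFintype_apply, Fintype.card_fin, BoundedContinuousFunction.coe_smul,
    radstrom_apply, smul_eq_mul]
  rw [← mean_identity u hu hu' hb hbc i f.1]
  refine Finset.sum_congr rfl fun k _ => ?_
  congr 1
  rw [ENNReal.toReal_inv]
  congr 1
  rw [Nat.cast_add, Nat.cast_one, ENNReal.toReal_add (by simp) (by simp)]
  simp

/-- the trajectory vertex -/
lemma mem_PP (ω : ∀ i, Fin (c i + 1)) (i : ℕ) :
    ∃ f : X, ‖f‖ ≤ ∑' j, b j ∧
      u ⟨Nat.log 2 i, fun j => ω j⟩ + f ∈ (PP u hu hu' hb hbc i (ω i)).carrier := by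
  obtain ⟨f, hf⟩ : (Frest u i).Nonempty := bigSum_nonempty (upd_nonempty u i)
  refine ⟨f, Frest_norm u hu hu' hb hbc i f hf, ?_⟩
  exact Set.add_mem_add (subset_convexHull ℝ _ ⟨fun j => ω j, rfl, rfl⟩) hf

lemma card_block (m : ℕ) :
    2 ^ m ≤ ((Finset.range (2 ^ (m + 1))).filter (fun i => Nat.log 2 i = m)).card := by
  have h : Finset.Ico (2 ^ m) (2 ^ (m + 1)) ⊆
      (Finset.range (2 ^ (m + 1))).filter (fun i => Nat.log 2 i = m) := by
    intro i hi
    rw [Finset.mem_Ico] at hi
    rw [Finset.mem_filter, Finset.mem_range]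
    exact ⟨hi.2, Nat.log_eq_of_pow_le_of_lt_pow hi.1 hi.2⟩
  have h1 := Finset.card_le_card h
  rw [Nat.card_Ico] at h1
  have h2 : 2 ^ (m + 1) = 2 * 2 ^ m := pow_succ' 2 m
  omega

theorem large_point (hn : ∀ A, ‖u A‖ = 1 / 2) (ω : ∀ i, Fin (c i + 1)) (m : ℕ) :
    ∃ x ∈ (((2 ^ (m + 1) : ℕ) : ℝ)⁻¹) • ∑ i ∈ Finset.range (2 ^ (m + 1)),
      (PP u hu hu' hb hbc i (ω i)).carrier, 1 / 4 - ∑' j, b j ≤ ‖x‖ := by
  choose f hf hfm using mem_PP u hu hu' hb hbc ω
  set n : ℕ := 2 ^ (m + 1) with hnn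
  have hnpos : (0 : ℝ) < n := by positivity
  set e : X := u ⟨m, fun j => ω j⟩ with he
  set p : ℕ → X := fun i => u ⟨Nat.log 2 i, fun j => ω j⟩ + f i with hp
  refine ⟨((n : ℝ)⁻¹) • ∑ i ∈ Finset.range n, p i, Set.smul_mem_smul_set ?_, ?_⟩
  · rw [Set.mem_finsetSum]
    exact ⟨p, fun {i} _ => hfm i, rfl⟩
  · -- inner product with `2 • e`
    have h1 : ∀ i, (if Nat.log 2 i = m then (1 / 4 : ℝ) else 0) - (∑' j, b j) / 2
        ≤ inner ℝ (p i) e := by
      intro i
      have h2 : |inner ℝ (f i) e| ≤ (∑' j, b j) / 2 := by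
        calc |inner ℝ (f i) e| ≤ ‖f i‖ * ‖e‖ := abs_real_inner_le_norm _ _
          _ ≤ (∑' j, b j) * (1 / 2) := by
            rw [he, hn]
            exact mul_le_mul_of_nonneg_right (hf i) (by norm_num)
          _ = _ := by ring
      have h3 := (abs_le.1 h2).1
      simp only [hp]
      rw [inner_add_left]
      by_cases h : Nat.log 2 i = m
      · subst h
        have : inner ℝ (u ⟨Nat.log 2 i, fun j => ω j⟩) e = (1 / 4 : ℝ) := by
          rw [he, real_inner_self_eq_norm_sq, hn]; norm_num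
        rw [this]
        simp only [if_true]
        linarith
      · have : inner ℝ (u ⟨Nat.log 2 i, fun j => ω j⟩) e = 0 := by
          refine hu _ _ ?_
          intro h4
          exact h (congrArg Sigma.fst h4)
        rw [this]
        simp only [h, if_false]
        linarith
    have h5 : (n : ℝ) * (1 / 8 - (∑' j, b j) / 2) ≤ inner ℝ (∑ i ∈ Finset.range n, p i) e := by
      rw [sum_inner]
      calc (n : ℝ) * (1 / 8 - (∑' j, b j) / 2)
          ≤ ∑ i ∈ Finset.range n, ((if Nat.log 2 i = m then (1 / 4 : ℝ) else 0)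
            - (∑' j, b j) / 2) := by
            rw [Finset.sum_sub_distrib, ← Finset.sum_filter, Finset.sum_const, Finset.sum_const,
              Finset.card_range, nsmul_eq_mul, nsmul_eq_mul]
            have h6 : ((2 ^ m : ℕ) : ℝ) ≤
                (((Finset.range n).filter (fun i => Nat.log 2 i = m)).card : ℝ) := by
              exact_mod_cast card_block m
            have h7 : (n : ℝ) = 2 * ((2 ^ m : ℕ) : ℝ) := by
              rw [hnn]; push_cast; ring
            nlinarith
        _ ≤ _ := Finset.sum_le_sum fun i _ => h1 i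
    have h8 : inner ℝ (((n : ℝ)⁻¹) • ∑ i ∈ Finset.range n, p i) e
        ≤ ‖((n : ℝ)⁻¹) • ∑ i ∈ Finset.range n, p i‖ * (1 / 2) := by
      calc inner ℝ (((n : ℝ)⁻¹) • ∑ i ∈ Finset.range n, p i) e
          ≤ ‖((n : ℝ)⁻¹) • ∑ i ∈ Finset.range n, p i‖ * ‖e‖ := real_inner_le_norm _ _
        _ = _ := by rw [he, hn]
    rw [real_inner_smul_left] at h8
    have h9 : (n : ℝ)⁻¹ * ((n : ℝ) * (1 / 8 - (∑' j, b j) / 2))
        ≤ (n : ℝ)⁻¹ * inner ℝ (∑ i ∈ Finset.range n, p i) e :=
      mul_le_mul_of_nonneg_left h5 (inv_nonneg.2 hnpos.le)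
    rw [← mul_assoc, inv_mul_cancel₀ hnpos.ne', one_mul] at h9
    linarith

end Probability

/-- The real sequence space `ℓ²`. -/
abbrev L2 : Type := lp (fun _ : ℕ => ℝ) 2

/-- the scaled basis vectors -/
noncomputable def ee (n : ℕ) : L2 := lp.single 2 n (1 / 2 : ℝ)

lemma ee_norm (n : ℕ) : ‖ee n‖ = 1 / 2 := by
  unfold ee
  rw [lp.norm_single (by norm_num)]
  norm_num

lemma ee_inner {n m : ℕ} (h : n ≠ m) : inner ℝ (ee n) (ee m) = 0 := by
  unfold ee
  rw [lp.inner_single_left]
  simp [lp.single_apply, h]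

/-- **Core theorem.** -/
theorem core (δ : ℝ) (hδ : 0 < δ) :
    ∃ (Ω : Type) (_ : MeasurableSpace Ω) (μ : Measure Ω) (_ : IsProbabilityMeasure μ)
      (U : BC L2) (Ψ : ℕ → Ω → BC L2),
      IsCompact U.carrier ∧ (∀ x ∈ U.carrier, ‖x‖ ≤ δ) ∧ (∀ x ∈ U.carrier, ‖x‖ ≤ 1 / 16) ∧
      (∀ n ω, ∀ x ∈ (Ψ n ω).carrier, ‖x‖ ≤ 1) ∧
      (∀ n, StronglyMeasurable (fun ω => radstrom (Ψ n ω))) ∧
      (∀ n, Integrable (fun ω => radstrom (Ψ n ω)) μ ∧
        ∫ ω, radstrom (Ψ n ω) ∂μ = radstrom U) ∧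
      iIndepFun (m := fun _ => borel _) (fun n ω => radstrom (Ψ n ω)) μ ∧
      ∀ ω m, ∃ x ∈ (((2 ^ (m + 1) : ℕ) : ℝ)⁻¹) • ∑ i ∈ Finset.range (2 ^ (m + 1)),
        (Ψ i ω).carrier, 3 / 16 ≤ ‖x‖ := by
  obtain ⟨d, hd⟩ := exists_pow_lt_of_lt_one (show (0 : ℝ) < min δ (1 / 16) / 2 by positivity)
    (show (1 / 2 : ℝ) < 1 by norm_num)
  set c : ℕ → ℕ := fun j => 4 ^ (j + d) with hc
  set b : ℕ → ℝ := fun j => (1 / 2 : ℝ) ^ (j + d) with hbdef
  have hb : Summable b := by
    simp only [hbdef, pow_add]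
    exact summable_geometric_two.mul_right _
  have hbs : ∑' j, b j = 2 * (1 / 2 : ℝ) ^ d := by
    simp only [hbdef, pow_add]
    rw [tsum_mul_right, tsum_geometric_two]
  have hbs1 : ∑' j, b j ≤ δ := by
    rw [hbs]; linarith [min_le_left δ (1 / 16)]
  have hbs2 : ∑' j, b j ≤ 1 / 16 := by
    rw [hbs]; linarith [min_le_right δ (1 / 16)]
  have hbc : ∀ i, 1 / Real.sqrt (c i + 1) ≤ b i := by
    intro i
    have h1 : (2 : ℝ) ^ (i + d) ≤ Real.sqrt (c i + 1) := by
      refine Real.le_sqrt_of_sq_le ?_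
      rw [hc, ← pow_mul, mul_comm, pow_mul]
      push_cast
      norm_num
    simp only [hbdef]
    rw [one_div_pow]
    exact one_div_le_one_div_of_le (by positivity) h1
  have hcount : Countable (Pat c) := inferInstance
  obtain ⟨φ, hφ⟩ := exists_injective_nat (Pat c)
  set u : Pat c → L2 := fun A => ee (φ A) with hu0
  have hu : ∀ A B, A ≠ B → inner ℝ (u A) (u B) = 0 := fun A B h => ee_inner (hφ.ne h)
  have hn : ∀ A, ‖u A‖ = 1 / 2 := fun A => ee_norm _
  have hu' : ∀ A, ‖u A‖ ≤ 1 / 2 := fun A => (hn A).le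
  refine ⟨∀ i, Fin (c i + 1), inferInstance, law c, inferInstance, UU u hu hu' hb hbc,
    fun i ω => PP u hu hu' hb hbc i (ω i), ?_, ?_, ?_, ?_, ?_, ?_, ?_, ?_⟩
  · exact bigSum_compact hb (V_norm' u hu hu' hbc) (V_compact u)
  · intro x hx
    exact (bigSum_norm_le hb (V_norm' u hu hu' hbc) x hx).trans hbs1
  · intro x hx
    exact (bigSum_norm_le hb (V_norm' u hu hu' hbc) x hx).trans hbs2
  · rintro i ω x ⟨y, hy, z, hz, rfl⟩
    have h1 := W_norm u hu' i _ y hy
    have h2 := (Frest_norm u hu hu' hb hbc i z hz).trans hbs2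
    exact (norm_add_le _ _).trans (by linarith)
  · intro i
    exact (hasExpectation u hu hu' hb hbc i).1
  · intro i
    exact (hasExpectation u hu hu' hb hbc i).2
  · let mB : MeasurableSpace
      (BoundedContinuousFunction (Metric.sphere (0 : StrongDual ℝ L2) 1) ℝ) := borel _
    exact iIndepFun_infinitePi
      (X := fun i (k : Fin (c i + 1)) => radstrom (PP u hu hu' hb hbc i k))
      (fun i => Measurable.of_discrete)
  · intro ω m
    obtain ⟨x, hx, hx'⟩ := large_point u hu hu' hb hbc hn ω m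
    exact ⟨x, hx, by linarith⟩

/-! ### Definitions used in the statements -/

section Defs

variable {X : Type*} [NormedAddCommGroup X] [NormedSpace ℝ X]

variable (X) in
/-- `X` is B-convex. -/
def BConvex : Prop := ∃ n : ℕ, 2 ≤ n ∧ ∃ η : ℝ, 0 < η ∧ ∀ x : Fin n → X, (∀ i, ‖x i‖ ≤ 1) →
  ∃ s : Fin n → ℤˣ, ‖∑ i, ((s i : ℤ) : ℝ) • x i‖ ≤ n * (1 - η)

variable {Ω : Type*} [MeasurableSpace Ω]

/-- `Ψ` is a random set: `R ∘ Ψ` is strongly measurable. -/
def IsRandomSet (Ψ : Ω → BC X) : Prop := StronglyMeasurable (fun ω => radstrom (Ψ ω))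

/-- `E(Ψ) = U`: `R ∘ Ψ` is Bochner integrable with integral `R(U)`. -/
def HasExpectation (μ : Measure Ω) (Ψ : Ω → BC X) (U : BC X) : Prop :=
  Integrable (fun ω => radstrom (Ψ ω)) μ ∧ ∫ ω, radstrom (Ψ ω) ∂μ = radstrom U

/-- The random sets `Ψ n` are independent: the random vectors `R ∘ Ψ n` are independent (for the
Borel sigma-algebra of the space of bounded continuous functions). -/
def IndependentSets (μ : Measure Ω) (Ψ : ℕ → Ω → BC X) : Prop :=
  iIndepFun (m := fun _ => borel _) (fun n ω => radstrom (Ψ n ω)) μ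

/-- The Minkowski average `(1/n) (A_0 + ... + A_{n-1})`. -/
noncomputable def average (A : ℕ → BC X) (n : ℕ) : Set X :=
  ((n : ℝ)⁻¹) • ∑ i ∈ Finset.range n, (A i).carrier

/-- `‖A‖ = sup_{a ∈ A} ‖a‖`. -/
noncomputable def setNorm (A : Set X) : ℝ := sSup ((fun a => ‖a‖) '' A)

end Defs

lemma bconvex_inner (X : Type*) [NormedAddCommGroup X] [InnerProductSpace ℝ X] : BConvex X := by
  refine ⟨2, le_rfl, 1 / 4, by norm_num, fun x hx => ?_⟩
  have hpar := parallelogram_law_with_norm ℝ (x 0) (x 1)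
  have h0 := hx 0
  have h1 := hx 1
  have h00 := norm_nonneg (x 0)
  have h11 := norm_nonneg (x 1)
  by_cases h : ‖x 0 + x 1‖ ≤ 3 / 2
  · refine ⟨fun _ => 1, ?_⟩
    simp only [Fin.sum_univ_two, Units.val_one, Int.cast_one, one_smul]
    norm_num
    linarith
  · refine ⟨![1, -1], ?_⟩
    simp only [Fin.sum_univ_two, Matrix.cons_val_zero, Matrix.cons_val_one, Units.val_one,
      Int.cast_one, one_smul, Units.val_neg, Int.cast_neg, neg_smul]
    rw [← sub_eq_add_neg]
    push Not at h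
    have h2 : ‖x 0 - x 1‖ ≤ 3 / 2 := by
      by_contra h3
      push Not at h3
      nlinarith
    norm_num
    linarith

lemma average_norm_le {X : Type*} [NormedAddCommGroup X] [NormedSpace ℝ X] (A : ℕ → BC X)
    (hA : ∀ i, ∀ x ∈ (A i).carrier, ‖x‖ ≤ 1) (n : ℕ) : ∀ x ∈ average A n, ‖x‖ ≤ 1 := by
  rintro x ⟨y, hy, rfl⟩
  rw [Set.mem_finsetSum] at hy
  obtain ⟨g, hg, rfl⟩ := hy
  have h1 : ‖∑ i ∈ Finset.range n, g i‖ ≤ n := by
    calc ‖∑ i ∈ Finset.range n, g i‖ ≤ ∑ i ∈ Finset.range n, ‖g i‖ := norm_sum_le _ _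
      _ ≤ ∑ _i ∈ Finset.range n, (1 : ℝ) := Finset.sum_le_sum fun i hi => hA i _ (hg hi)
      _ = n := by simp
  simp only
  rw [norm_smul, norm_inv, Real.norm_natCast]
  rcases Nat.eq_zero_or_pos n with h | h
  · subst h; simp
  · have hn : (0 : ℝ) < n := by exact_mod_cast h
    rw [inv_mul_le_iff₀ hn, mul_one]
    exact h1

lemma average_nonempty {X : Type*} [NormedAddCommGroup X] [NormedSpace ℝ X] (A : ℕ → BC X)
    (n : ℕ) : (average A n).Nonempty :=
  Set.Nonempty.smul_set
    (sum_facts (Finset.range n) (fun i => (A i).carrier) (fun i => (A i).nonempty)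
    (fun i => (A i).bounded) 0).1

theorem limsup_large {X : Type*} [NormedAddCommGroup X] [NormedSpace ℝ X] (A : ℕ → BC X)
    (hA : ∀ i, ∀ x ∈ (A i).carrier, ‖x‖ ≤ 1)
    (h : ∀ m : ℕ, ∃ x ∈ (((2 ^ (m + 1) : ℕ) : ℝ)⁻¹) • ∑ i ∈ Finset.range (2 ^ (m + 1)),
        (A i).carrier, 3 / 16 ≤ ‖x‖) :
    3 / 16 ≤ limsup (fun n => setNorm (average A n)) atTop := by
  have hbdd : ∀ n, BddAbove ((fun a => ‖a‖) '' average A n) := by
    intro n
    refine ⟨1, ?_⟩
    rintro _ ⟨x, hx, rfl⟩
    exact average_norm_le A hA n x hx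
  refine Filter.le_limsup_of_frequently_le ?_ ?_
  · rw [frequently_atTop]
    intro a
    refine ⟨2 ^ (a + 1), ?_, ?_⟩
    · exact (Nat.lt_two_pow_self (n := a)).le.trans (Nat.pow_le_pow_right (by norm_num) (by omega))
    · obtain ⟨x, hx, hx'⟩ := h a
      exact hx'.trans (le_csSup (hbdd _) ⟨x, hx, rfl⟩)
  · refine isBoundedUnder_of ⟨1, fun n => ?_⟩
    refine csSup_le ((average_nonempty A n).image _) ?_
    rintro _ ⟨x, hx, rfl⟩
    exact average_norm_le A hA n x hx

theorem not_tendsto {X : Type*} [NormedAddCommGroup X] [NormedSpace ℝ X] (A : ℕ → BC X)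
    (U : BC X) (hU : ∀ x ∈ U.carrier, ‖x‖ ≤ 1 / 16)
    (hA : ∀ i, ∀ x ∈ (A i).carrier, ‖x‖ ≤ 1)
    (h : ∀ m : ℕ, ∃ x ∈ (((2 ^ (m + 1) : ℕ) : ℝ)⁻¹) • ∑ i ∈ Finset.range (2 ^ (m + 1)),
        (A i).carrier, 3 / 16 ≤ ‖x‖) :
    ¬ Tendsto (fun n => Metric.hausdorffDist (average A n) U.carrier) atTop (𝓝 0) := by
  intro ht
  have h1 := ht.eventually (gt_mem_nhds (show (0 : ℝ) < 1 / 16 by norm_num))
  obtain ⟨a, ha⟩ := eventually_atTop.1 h1
  have h2 := ha (2 ^ (a + 1))
    ((Nat.lt_two_pow_self (n := a)).le.trans (Nat.pow_le_pow_right (by norm_num) (by omega)))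
  obtain ⟨x, hx, hx'⟩ := h a
  have hfin : Metric.hausdorffEDist (average A (2 ^ (a + 1))) U.carrier ≠ ⊤ :=
    Metric.hausdorffEDist_ne_top_of_nonempty_of_bounded (average_nonempty A _) U.nonempty
      (isBounded_iff_forall_norm_le.2 ⟨1, average_norm_le A hA _⟩) U.bounded
  have h3 := Metric.infDist_le_hausdorffDist_of_mem (show x ∈ average A (2 ^ (a + 1)) from hx) hfin
  have h4 : 1 / 8 ≤ Metric.infDist x U.carrier := by
    rw [Metric.le_infDist U.nonempty]
    intro y hy
    have h5 := hU y hy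
    rw [dist_eq_norm]
    have h6 : ‖x‖ - ‖y‖ ≤ ‖x - y‖ := norm_sub_norm_le _ _
    linarith
  linarith

end Pool.Agent.V11333.RandomSets
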