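import Mathlib

open Filter Topology Finset

namespace Pool.Agent.V11333.Cop

/-- convolution powers, real version -/
noncomputable def U (w : ℕ → ℝ) : ℕ → ℕ → ℝ
  | 0, m => if m = 0 then 1 else 0
  | i + 1, m => ∑ n ∈ range (m + 1), w n * U w i (m - n)

lemma U_nonneg (w : ℕ → ℝ) (hw : ∀ n, 0 ≤ w n) : ∀ i m, 0 ≤ U w i m
  | 0, m => by unfold U; split_ifs <;> norm_num
  | i + 1, m => by
      unfold U
      exact Finset.sum_nonneg (fun n _ => mul_nonneg (hw n) (U_nonneg w hw i _))

lemma U_sum_le (w : ℕ → ℝ) (hw : ∀ n, 0 ≤ w n) (q : ℝ) (hq : ∀ M, ∑ n ∈ range M, w n ≤ q)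
    (i : ℕ) : ∀ M, ∑ m ∈ range M, U w i m ≤ q ^ i := by
  have hq0 : 0 ≤ q := by simpa using hq 0
  induction i with
  | zero =>
      intro M
      simp only [U, pow_zero]
      rw [Finset.sum_ite_eq' (range M) 0 (fun _ => (1:ℝ))]
      split_ifs <;> norm_num
  | succ i ih =>
      intro M
      have h1 : ∑ m ∈ range M, U w (i + 1) m
          = ∑ n ∈ range M, ∑ k ∈ range (M - n), w n * U w i k := by
        rw [← Finset.sum_range_diag_flip M (fun n k => w n * U w i k)]
        rfl
      rw [h1]
      calc ∑ n ∈ range M, ∑ k ∈ range (M - n), w n * U w i k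
          = ∑ n ∈ range M, w n * ∑ k ∈ range (M - n), U w i k := by
            simp_rw [Finset.mul_sum]
        _ ≤ ∑ n ∈ range M, w n * q ^ i := by
            apply Finset.sum_le_sum
            intro n _
            exact mul_le_mul_of_nonneg_left (ih _) (hw n)
        _ = (∑ n ∈ range M, w n) * q ^ i := by rw [Finset.sum_mul]
        _ ≤ q * q ^ i := mul_le_mul_of_nonneg_right (hq M) (pow_nonneg hq0 i)
        _ = q ^ (i + 1) := by ring

lemma U_bound (w : ℕ → ℝ) (hw : ∀ n, 0 ≤ w n) (q : ℝ) (hq : ∀ M, ∑ n ∈ range M, w n ≤ q)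
    (hq0 : 0 < q) (a C : ℝ) (ha : 0 < a) (hC : 0 ≤ C)
    (hw0 : w 0 = 0)
    (hK : ∀ n : ℕ, 1 ≤ n → w n ≤ C * (1 / (n:ℝ)) ^ a) (i : ℕ) :
    ∀ m : ℕ, 1 ≤ m → U w i m ≤ C / q * i * q ^ i * ((i:ℝ) / m) ^ a := by
  induction i with
  | zero =>
      intro m hm
      have : m ≠ 0 := by omega
      simp [U, this]
  | succ i ih =>
      intro m hm
      have hmpos : (0:ℝ) < m := by exact_mod_cast hm
      have hipos : (0:ℝ) < (i:ℝ) + 1 := by positivity
      set B : ℝ := (((i:ℝ) + 1) / m) ^ a with hB
      have hB0 : 0 ≤ B := by positivity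
      have hkey : ∀ n ∈ range (m + 1), w n * U w i (m - n) ≤
          C * B * U w i (m - n) + w n * (C / q * i * q ^ i * B) := by
        intro n hn
        rw [mem_range] at hn
        have hU0 := U_nonneg w hw i (m - n)
        have hz1 : 0 ≤ C * B * U w i (m - n) := by positivity
        have hz2 : 0 ≤ w n * (C / q * i * q ^ i * B) := by
          have := hw n
          positivity
        rcases Nat.eq_zero_or_pos n with h0 | hnpos
        · subst h0
          rw [hw0] at hz2 ⊢
          linarith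
        have hnR : (0:ℝ) < n := by exact_mod_cast hnpos
        by_cases hc : (m:ℝ) ≤ n * ((i:ℝ) + 1)
        · have h1 : w n ≤ C * B := by
            refine (hK n hnpos).trans ?_
            apply mul_le_mul_of_nonneg_left _ hC
            apply Real.rpow_le_rpow (by positivity) _ ha.le
            rw [div_le_div_iff₀ hnR hmpos]
            linarith
          have := mul_le_mul_of_nonneg_right h1 hU0
          linarith
        · push Not at hc
          have hnm : n < m := by
            have : (n:ℝ) < m := by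
              have : (0:ℝ) ≤ n * i := by positivity
              nlinarith
            exact_mod_cast this
          have hcast : ((m - n : ℕ) : ℝ) = (m:ℝ) - n := by
            push_cast [Nat.cast_sub hnm.le]; ring
          have hmn : (0:ℝ) < (m:ℝ) - n := by
            have : (n:ℝ) < m := by exact_mod_cast hnm
            linarith
          have h1 := ih (m - n) (by omega)
          have h2 : ((i:ℝ) / ((m - n : ℕ) : ℝ)) ^ a ≤ B := by
            apply Real.rpow_le_rpow (by positivity) _ ha.le
            rw [hcast, div_le_div_iff₀ hmn hmpos]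
            nlinarith
          have h3 : U w i (m - n) ≤ C / q * i * q ^ i * B := by
            refine h1.trans ?_
            apply mul_le_mul_of_nonneg_left h2
            positivity
          have := mul_le_mul_of_nonneg_left h3 (hw n)
          linarith
      have hsum1 : ∑ n ∈ range (m + 1), U w i (m - n) ≤ q ^ i := by
        have h := U_sum_le w hw q hq i (m + 1)
        rw [← Finset.sum_range_reflect] at h
        refine le_trans (le_of_eq ?_) h
        apply Finset.sum_congr rfl
        intro n hn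
        congr 1
      calc U w (i + 1) m = ∑ n ∈ range (m + 1), w n * U w i (m - n) := rfl
        _ ≤ ∑ n ∈ range (m + 1), (C * B * U w i (m - n) + w n * (C / q * i * q ^ i * B)) :=
            Finset.sum_le_sum hkey
        _ = C * B * ∑ n ∈ range (m + 1), U w i (m - n)
            + (∑ n ∈ range (m + 1), w n) * (C / q * i * q ^ i * B) := by
            rw [Finset.sum_add_distrib, Finset.mul_sum, Finset.sum_mul]
        _ ≤ C * B * q ^ i + q * (C / q * i * q ^ i * B) := by
            have h1 : C * B * ∑ n ∈ range (m + 1), U w i (m - n) ≤ C * B * q ^ i :=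
              mul_le_mul_of_nonneg_left hsum1 (by positivity)
            have h2 := mul_le_mul_of_nonneg_right (hq (m+1))
              (show 0 ≤ C / q * i * q ^ i * B by positivity)
            linarith
        _ = C / q * ((i + 1 : ℕ) : ℝ) * q ^ (i + 1) * (((i + 1 : ℕ) : ℝ) / m) ^ a := by
            have : (((i + 1 : ℕ) : ℝ)) = (i:ℝ) + 1 := by push_cast; ring
            rw [this, ← hB]
            field_simp
            ring

lemma V_bound (w : ℕ → ℝ) (hw : ∀ n, 0 ≤ w n) (q : ℝ) (hq : ∀ M, ∑ n ∈ range M, w n ≤ q)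
    (hq0 : 0 < q) (hq1 : q < 1) (a C : ℝ) (ha : 0 < a) (hC : 0 ≤ C)
    (hw0 : w 0 = 0)
    (hK : ∀ n : ℕ, 1 ≤ n → w n ≤ C * (1 / (n:ℝ)) ^ a) :
    ∃ C2 : ℝ, 0 ≤ C2 ∧ ∀ I m : ℕ, 1 ≤ m →
      ∑ i ∈ range I, U w i m ≤ C2 * (1 / (m:ℝ)) ^ a := by
  obtain ⟨k, hk⟩ := exists_nat_ge a
  have hs : Summable (fun i : ℕ => (i:ℝ) ^ (k + 1) * q ^ i) := by
    apply summable_pow_mul_geometric_of_norm_lt_one
    rw [Real.norm_eq_abs, abs_of_pos hq0]; exact hq1
  refine ⟨C / q * ∑' i : ℕ, (i:ℝ) ^ (k + 1) * q ^ i, ?_, ?_⟩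
  · have : 0 ≤ ∑' i : ℕ, (i:ℝ) ^ (k + 1) * q ^ i := tsum_nonneg (fun i => by positivity)
    positivity
  · intro I m hm
    have hmpos : (0:ℝ) < m := by exact_mod_cast hm
    calc ∑ i ∈ range I, U w i m
        ≤ ∑ i ∈ range I, (C / q * (1 / (m:ℝ)) ^ a) * ((i:ℝ) ^ (k + 1) * q ^ i) := by
          apply Finset.sum_le_sum
          intro i _
          refine (U_bound w hw q hq hq0 a C ha hC hw0 hK i m hm).trans ?_
          have h1 : ((i:ℝ) / m) ^ a = (i:ℝ) ^ a * (1 / (m:ℝ)) ^ a := by
            rw [← Real.mul_rpow (by positivity) (by positivity)]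
            congr 1; ring
          have h2 : (i:ℝ) * (i:ℝ) ^ a ≤ (i:ℝ) ^ (k + 1) := by
            rcases Nat.eq_zero_or_pos i with h0 | hp
            · subst h0; simp
            · have hi1 : (1:ℝ) ≤ i := by exact_mod_cast hp
              have : (i:ℝ) ^ a ≤ (i:ℝ) ^ (k:ℝ) := Real.rpow_le_rpow_of_exponent_le hi1 hk
              rw [Real.rpow_natCast] at this
              calc (i:ℝ) * (i:ℝ) ^ a ≤ i * (i:ℝ) ^ k :=
                    mul_le_mul_of_nonneg_left this (by positivity)
                _ = (i:ℝ) ^ (k + 1) := by ring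
          rw [h1]
          calc C / q * i * q ^ i * ((i:ℝ) ^ a * (1 / (m:ℝ)) ^ a)
              = (C / q * (1 / (m:ℝ)) ^ a * q ^ i) * ((i:ℝ) * (i:ℝ) ^ a) := by ring
            _ ≤ (C / q * (1 / (m:ℝ)) ^ a * q ^ i) * (i:ℝ) ^ (k + 1) :=
                mul_le_mul_of_nonneg_left h2 (by positivity)
            _ = _ := by ring
      _ = (C / q * (1 / (m:ℝ)) ^ a) * ∑ i ∈ range I, ((i:ℝ) ^ (k + 1) * q ^ i) := by
          rw [Finset.mul_sum]
      _ ≤ (C / q * (1 / (m:ℝ)) ^ a) * ∑' i : ℕ, (i:ℝ) ^ (k + 1) * q ^ i := by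
          apply mul_le_mul_of_nonneg_left _ (by positivity)
          exact hs.sum_le_tsum _ (fun i _ => by positivity)
      _ = _ := by ring

end Pool.Agent.V11333.Cop
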