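import Mathlib
import Pool.Agent.V11333.Cop1

open Filter Topology Finset

namespace Pool.Agent.V11333.Cop

/-- The `i`-th renewal epoch `τ_i = t_0 + ... + t_{i-1}` built from the gaps `t`. -/
def tau (t : ℕ → ℕ) (i : ℕ) : ℕ := ∑ j ∈ range i, t j

/-- Monomer `n` lies in the lower half-plane: `n ∈ (τ_i, τ_{i+1}]` for some `i` whose
sign `z i` is `true`. -/
def Low (t : ℕ → ℕ) (z : ℕ → Bool) (n : ℕ) : Prop :=
  ∃ i, tau t i < n ∧ n ≤ tau t (i + 1) ∧ z i = true

open Classical in
/-- `Δ_n`. -/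
noncomputable def Delta (t : ℕ → ℕ) (z : ℕ → Bool) (n : ℕ) : ℝ := if Low t z n then 1 else 0

open Classical in
/-- number of lower monomers up to `N` -/
noncomputable def cnt (t : ℕ → ℕ) (z : ℕ → Bool) (N : ℕ) : ℕ := ((Icc 1 N).filter (Low t z)).card

/-- total length of the lower excursions among the first `i` -/
def S (t : ℕ → ℕ) (z : ℕ → Bool) (i : ℕ) : ℕ := ∑ j ∈ range i, if z j = true then t j else 0

lemma tau_succ (t : ℕ → ℕ) (i : ℕ) : tau t (i + 1) = tau t i + t i := by
  unfold tau; rw [Finset.sum_range_succ]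

lemma S_succ (t : ℕ → ℕ) (z : ℕ → Bool) (i : ℕ) :
    S t z (i + 1) = S t z i + (if z i = true then t i else 0) := by
  unfold S; rw [Finset.sum_range_succ]

lemma cnt_mono (t : ℕ → ℕ) (z : ℕ → Bool) {a b : ℕ} (h : a ≤ b) : cnt t z a ≤ cnt t z b := by
  classical
  unfold cnt
  apply Finset.card_le_card
  apply Finset.filter_subset_filter
  exact Finset.Icc_subset_Icc_right h

lemma cnt_add (t : ℕ → ℕ) (z : ℕ → Bool) (i a N : ℕ) (hz : z i = true) (ha : tau t i ≤ a)
    (haN : a ≤ N) (hN : N ≤ tau t (i + 1)) : cnt t z a + (N - a) ≤ cnt t z N := by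
  classical
  unfold cnt
  have h1 : (Ioc a N).card = N - a := by simp
  rw [← h1, ← Finset.card_union_of_disjoint]
  · apply Finset.card_le_card
    intro n hn
    rw [mem_union] at hn
    rcases hn with hn | hn
    · rw [mem_filter, mem_Icc] at hn ⊢
      exact ⟨⟨hn.1.1, hn.1.2.trans haN⟩, hn.2⟩
    · rw [mem_Ioc] at hn
      rw [mem_filter, mem_Icc]
      refine ⟨⟨by omega, hn.2⟩, i, by omega, by omega, hz⟩
  · rw [Finset.disjoint_left]
    intro n hn hn'
    rw [mem_filter, mem_Icc] at hn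
    rw [mem_Ioc] at hn'
    omega

lemma S_le_cnt (t : ℕ → ℕ) (z : ℕ → Bool) (i : ℕ) : S t z i ≤ cnt t z (tau t i) := by
  induction i with
  | zero => simp [S]
  | succ i ih =>
      rw [S_succ]
      by_cases hz : z i = true
      · rw [if_pos hz]
        have h := cnt_add t z i (tau t i) (tau t (i + 1)) hz le_rfl (by rw [tau_succ]; omega) le_rfl
        have h2 : tau t (i + 1) - tau t i = t i := by rw [tau_succ]; omega
        omega
      · rw [if_neg hz]
        have := cnt_mono t z (a := tau t i) (b := tau t (i+1)) (by rw [tau_succ]; omega)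
        omega

lemma tau_ge (t : ℕ → ℕ) (ht : ∀ i, 1 ≤ t i) (i : ℕ) : i ≤ tau t i := by
  induction i with
  | zero => simp
  | succ i ih => rw [tau_succ]; have := ht i; omega

lemma tau_mono (t : ℕ → ℕ) : Monotone (tau t) := by
  apply monotone_nat_of_le_succ
  intro i
  rw [tau_succ]; omega

lemma exists_idx (t : ℕ → ℕ) (ht : ∀ i, 1 ≤ t i) (N : ℕ) (hN : 1 ≤ N) :
    ∃ i, i < N ∧ tau t i < N ∧ N ≤ tau t (i + 1) := by
  classical
  have hex : ∃ j, N ≤ tau t (j + 1) := ⟨N, (tau_ge t ht (N+1)).trans' (by omega)⟩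
  refine ⟨Nat.find hex, ?_, ?_, Nat.find_spec hex⟩
  · have : Nat.find hex ≤ N - 1 := Nat.find_min' hex (by
      have := tau_ge t ht (N - 1 + 1)
      omega)
    omega
  · rcases Nat.eq_zero_or_pos (Nat.find hex) with h0 | hp
    · rw [h0]; unfold tau; simp; omega
    · have h := Nat.find_min hex (m := Nat.find hex - 1) (by omega)
      rw [Nat.sub_add_cancel hp] at h
      omega

lemma path_bound (t : ℕ → ℕ) (z : ℕ → Bool) (ht : ∀ i, 1 ≤ t i) (N M : ℕ) (hN : 1 ≤ N)
    (R : ENNReal) (hR : R ≤ 1) (hlow : ∃ n, M ≤ n ∧ n ≤ N ∧ Low t z n) :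
    R ^ cnt t z N ≤ R ^ (N - M) + ∑ i ∈ range N,
      (if M ≤ tau t i ∧ tau t i < N ∧ N - tau t i ≤ t i then R ^ S t z i else 0) := by
  obtain ⟨i, hiN, h1, h2⟩ := exists_idx t ht N hN
  by_cases hM : M ≤ tau t i
  · have hS : R ^ cnt t z N ≤ R ^ S t z i := by
      apply pow_le_pow_right_of_le_one' hR
      exact (S_le_cnt t z i).trans (cnt_mono t z h1.le)
    have hterm : R ^ S t z i ≤ ∑ i ∈ range N,
      (if M ≤ tau t i ∧ tau t i < N ∧ N - tau t i ≤ t i then R ^ S t z i else 0) := by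
      have hsingle := Finset.single_le_sum
        (f := fun i => (if M ≤ tau t i ∧ tau t i < N ∧ N - tau t i ≤ t i then R ^ S t z i else 0))
        (s := range N) (fun j _ => zero_le) (mem_range.mpr hiN)
      rw [if_pos ⟨hM, h1, by rw [tau_succ] at h2; omega⟩] at hsingle
      exact hsingle
    exact (hS.trans hterm).trans le_add_self
  · obtain ⟨n, hn1, hn2, j, hj1, hj2, hj3⟩ := hlow
    have hji : j = i := by
      by_contra hne
      rcases Nat.lt_or_gt_of_ne hne with hlt | hgt
      · have := tau_mono t (show j + 1 ≤ i by omega)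
        omega
      · have := tau_mono t (show i + 1 ≤ j by omega)
        omega
    subst hji
    have h3 := cnt_add t z j (tau t j) N hj3 le_rfl h1.le h2
    refine le_trans ?_ le_self_add
    apply pow_le_pow_right_of_le_one' hR
    omega

end Pool.Agent.V11333.Cop
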