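import Mathlib
import Pool.Agent.V11333.Cop2

open Filter Topology Finset MeasureTheory ProbabilityTheory
open scoped ENNReal

namespace Pool.Agent.V11333.Cop

/-- Admissible inter-arrival law: `K n > 0` for `n ≥ 1`, total mass one,
`n^{1+α} K(n) → cK > 0` with `α > 0`. -/
structure KernelOK (K : ℕ → ℝ) (α cK : ℝ) : Prop where
  alpha_pos : 0 < α
  c_pos : 0 < cK
  zero : K 0 = 0
  pos : ∀ n, 1 ≤ n → 0 < K n
  sum_one : HasSum K 1
  asymp : Tendsto (fun n : ℕ => (n : ℝ) ^ (1 + α) * K n) atTop (𝓝 cK)

/-- Gaps `T i` and signs `ζ i` (`true` = lower half-plane): the pairs are independent,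
`T i` has law `K` and `ζ i` is an independent fair sign. -/
structure RenewalOK {X : Type*} [MeasurableSpace X] (Q : Measure X) (K : ℕ → ℝ)
    (T : ℕ → X → ℕ) (ζ : ℕ → X → Bool) : Prop where
  measT : ∀ i, Measurable (T i)
  measZ : ∀ i, Measurable (ζ i)
  indep : iIndepFun (fun i x => (T i x, ζ i x)) Q
  law : ∀ i n b, Q {x | T i x = n ∧ ζ i x = b} = ENNReal.ofReal (K n / 2)

section ren

set_option linter.unusedSectionVars false

variable {X : Type*} [MeasurableSpace X] {Q : Measure X} [IsProbabilityMeasure Q] {K : ℕ → ℝ}
  {α cK : ℝ} {T : ℕ → X → ℕ} {ζ : ℕ → X → Bool}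

lemma KernelOK.nonneg (hK : KernelOK K α cK) (n : ℕ) : 0 ≤ K n := by
  rcases Nat.eq_zero_or_pos n with h | h
  · rw [h, hK.zero]
  · exact (hK.pos n h).le

lemma meas_tau (hT : RenewalOK Q K T ζ) (i : ℕ) :
    Measurable (fun x => tau (fun j => T j x) i) := by
  unfold tau
  exact Finset.measurable_fun_sum _ (fun j _ => hT.measT j)

lemma meas_S (hT : RenewalOK Q K T ζ) (i : ℕ) :
    Measurable (fun x => S (fun j => T j x) (fun j => ζ j x) i) := by
  unfold S
  refine Finset.measurable_fun_sum _ (fun j _ => ?_)
  exact Measurable.ite (hT.measZ j (measurableSet_singleton true)) (hT.measT j) measurable_const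

lemma indep_past (hT : RenewalOK Q K T ζ) (i : ℕ) :
    IndepFun (fun x => (tau (fun j => T j x) i, S (fun j => T j x) (fun j => ζ j x) i))
      (fun x => (T i x, ζ i x)) Q := by
  have h := hT.indep.indepFun_finset (range i) {i} (by simp)
    (fun j => (hT.measT j).prodMk (hT.measZ j))
  let φ : ((j : range i) → ℕ × Bool) → ℕ × ℕ := fun u =>
    (∑ j : range i, (u j).1, ∑ j : range i, if (u j).2 = true then (u j).1 else 0)
  let ψ : ((j : ({i} : Finset ℕ)) → ℕ × Bool) → ℕ × Bool := fun u => u ⟨i, by simp⟩
  have hφ : Measurable φ := by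
    refine Measurable.prodMk ?_ ?_
    · refine Finset.measurable_fun_sum _ (fun j _ => ?_)
      exact measurable_fst.comp (measurable_pi_apply j)
    · refine Finset.measurable_fun_sum _ (fun j _ => ?_)
      exact Measurable.ite ((measurable_snd.comp (measurable_pi_apply j))
        (measurableSet_singleton true)) (measurable_fst.comp (measurable_pi_apply j))
        measurable_const
  have hψ : Measurable ψ := measurable_pi_apply _
  have h2 := h.comp hφ hψ
  have e1 : (φ ∘ fun (a : X) (j : range i) => (T j a, ζ j a))
      = fun x => (tau (fun j => T j x) i, S (fun j => T j x) (fun j => ζ j x) i) := by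
    funext x
    simp only [φ, Function.comp, tau, S]
    congr 1
    · exact Finset.sum_coe_sort (range i) (fun j => T j x)
    · exact Finset.sum_coe_sort (range i) (fun j => if ζ j x = true then T j x else 0)
  have e2 : (ψ ∘ fun (a : X) (j : ({i} : Finset ℕ)) => (T j a, ζ j a))
      = fun x => (T i x, ζ i x) := by
    funext x
    simp only [ψ, Function.comp]
  rw [e1, e2] at h2
  exact h2

lemma factor (hT : RenewalOK Q K T ζ) (i : ℕ) (F : ℕ × ℕ → ℝ≥0∞) (G : ℕ × Bool → ℝ≥0∞) :
    ∫⁻ x, F (tau (fun j => T j x) i, S (fun j => T j x) (fun j => ζ j x) i) *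
        G (T i x, ζ i x) ∂Q
      = (∫⁻ x, F (tau (fun j => T j x) i, S (fun j => T j x) (fun j => ζ j x) i) ∂Q) *
        ∫⁻ x, G (T i x, ζ i x) ∂Q := by
  have h := (indep_past hT i).comp (φ := F) (ψ := G) (measurable_of_countable F)
    (measurable_of_countable G)
  have hm1 : Measurable (F ∘ fun x =>
      (tau (fun j => T j x) i, S (fun j => T j x) (fun j => ζ j x) i)) :=
    (measurable_of_countable F).comp ((meas_tau hT i).prodMk (meas_S hT i))
  have hm2 : Measurable (G ∘ fun x => (T i x, ζ i x)) :=
    (measurable_of_countable G).comp ((hT.measT i).prodMk (hT.measZ i))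
  exact lintegral_mul_eq_lintegral_mul_lintegral_of_indepFun hm1 hm2 h

lemma lawT (hT : RenewalOK Q K T ζ) (hK0 : ∀ n, 0 ≤ K n) (i n : ℕ) :
    Q {x | T i x = n} = ENNReal.ofReal (K n) := by
  have h1 : {x | T i x = n} = {x | T i x = n ∧ ζ i x = true} ∪ {x | T i x = n ∧ ζ i x = false} := by
    ext x
    simp only [Set.mem_ofPred_eq, Set.mem_union]
    cases ζ i x <;> simp
  rw [h1, measure_union, hT.law, hT.law, ← ENNReal.ofReal_add (by have := hK0 n; positivity)
    (by have := hK0 n; positivity)]
  · congr 1; ring
  · rw [Set.disjoint_left]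
    intro x hx hx'
    simp only [Set.mem_ofPred_eq] at hx hx'
    rw [hx.2] at hx'
    simp at hx'
  · exact (hT.measT i (measurableSet_singleton n)).inter (hT.measZ i (measurableSet_singleton false))

/-- tail of the gap law -/
noncomputable def kb (K : ℕ → ℝ) (n : ℕ) : ℝ := 1 - ∑ k ∈ range n, K k

lemma law_tail (hT : RenewalOK Q K T ζ) (hK0 : ∀ n, 0 ≤ K n) (i n : ℕ) :
    Q {x | n ≤ T i x} = ENNReal.ofReal (kb K n) := by
  have h1 : Q {x | T i x < n} = ENNReal.ofReal (∑ k ∈ range n, K k) := by
    have : {x | T i x < n} = ⋃ k ∈ range n, {x | T i x = k} := by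
      ext x; simp
    rw [this, measure_biUnion_finset, ENNReal.ofReal_sum_of_nonneg (fun k _ => hK0 k)]
    · exact Finset.sum_congr rfl (fun k _ => lawT hT hK0 i k)
    · intro a _ b _ hab
      rw [Function.onFun, Set.disjoint_left]
      intro x hx hx'
      simp only [Set.mem_ofPred_eq] at hx hx'
      exact hab (hx.symm.trans hx')
    · intro b _
      exact hT.measT i (measurableSet_singleton b)
  have hmeas : MeasurableSet {x | T i x < n} :=
    hT.measT i (MeasurableSet.of_discrete (s := Set.Iio n))
  have h2 : {x | n ≤ T i x} = {x | T i x < n}ᶜ := by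
    ext x; simp
  rw [h2, prob_compl_eq_one_sub hmeas, h1]
  unfold kb
  rw [ENNReal.ofReal_sub _ (Finset.sum_nonneg (fun k _ => hK0 k)), ENNReal.ofReal_one]

lemma ae_pos (hT : RenewalOK Q K T ζ) (hK : KernelOK K α cK) :
    ∀ᵐ x ∂Q, ∀ i, 1 ≤ T i x := by
  rw [ae_all_iff]
  intro i
  have h := lawT hT hK.nonneg i 0
  rw [hK.zero, ENNReal.ofReal_zero] at h
  rw [ae_iff]
  convert h using 2
  ext x
  simp

/-- weight of one gap -/
noncomputable def wt (K : ℕ → ℝ) (r : ℝ) (n : ℕ) : ℝ := K n * ((1 + r ^ n) / 2)

lemma gap_int (hT : RenewalOK Q K T ζ) (hK0 : ∀ n, 0 ≤ K n) (r : ℝ) (hr : 0 ≤ r) (i n : ℕ) :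
    ∫⁻ x, (if T i x = n then ENNReal.ofReal r ^ (if ζ i x = true then n else 0) else 0) ∂Q
      = ENNReal.ofReal (wt K r n) := by
  have hpt : ∀ x, (if T i x = n then ENNReal.ofReal r ^ (if ζ i x = true then n else 0) else 0)
      = Set.indicator {x | T i x = n ∧ ζ i x = true} (fun _ => ENNReal.ofReal r ^ n) x
        + Set.indicator {x | T i x = n ∧ ζ i x = false} (fun _ => (1:ℝ≥0∞)) x := by
    intro x
    by_cases h1 : T i x = n <;> cases h2 : ζ i x <;> simp [Set.indicator, h1, h2]
  have m1 : MeasurableSet {x | T i x = n ∧ ζ i x = true} :=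
    (hT.measT i (measurableSet_singleton n)).inter (hT.measZ i (measurableSet_singleton true))
  have m2 : MeasurableSet {x | T i x = n ∧ ζ i x = false} :=
    (hT.measT i (measurableSet_singleton n)).inter (hT.measZ i (measurableSet_singleton false))
  simp_rw [hpt]
  rw [lintegral_add_left (measurable_const.indicator m1), lintegral_indicator m1,
    lintegral_indicator m2, setLIntegral_const, setLIntegral_const, hT.law, hT.law,
    ← ENNReal.ofReal_pow hr, ← ENNReal.ofReal_mul (by positivity), one_mul,
    ← ENNReal.ofReal_add]
  · congr 1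
    unfold wt
    ring
  · have := hK0 n; positivity
  · have := hK0 n; positivity

lemma Phi_eq (hT : RenewalOK Q K T ζ) (hK0 : ∀ n, 0 ≤ K n) (r : ℝ) (hr : 0 ≤ r) (i : ℕ) :
    ∀ m, ∫⁻ x, (if tau (fun j => T j x) i = m then
        ENNReal.ofReal r ^ S (fun j => T j x) (fun j => ζ j x) i else 0) ∂Q
      = ENNReal.ofReal (U (wt K r) i m) := by
  induction i with
  | zero =>
      intro m
      unfold tau S U
      by_cases h : m = 0
      · simp [h]
      · have h' : ¬ (0 = m) := fun h2 => h h2.symm
        simp [h, h']
  | succ i ih =>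
      intro m
      have hpt : ∀ x, (if tau (fun j => T j x) (i + 1) = m then
          ENNReal.ofReal r ^ S (fun j => T j x) (fun j => ζ j x) (i + 1) else 0)
          = ∑ n ∈ range (m + 1),
            (if tau (fun j => T j x) i = m - n then
              ENNReal.ofReal r ^ S (fun j => T j x) (fun j => ζ j x) i else 0) *
            (if T i x = n then ENNReal.ofReal r ^ (if ζ i x = true then n else 0) else 0) := by
        intro x
        rw [tau_succ, S_succ]
        by_cases h1 : tau (fun j => T j x) i + T i x = m
        · rw [if_pos h1, Finset.sum_eq_single (T i x)]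
          · have e1 : tau (fun j => T j x) i = m - T i x := by omega
            rw [if_pos e1, if_pos (rfl : T i x = T i x), pow_add]
          · intro n _ hn
            rw [if_neg (c := T i x = n) (fun h => hn h.symm), mul_zero]
          · intro hn
            exact absurd (mem_range.mpr (by omega)) hn
        · rw [if_neg h1]
          symm
          apply Finset.sum_eq_zero
          intro n hn
          rw [mem_range] at hn
          by_cases h2 : T i x = n
          · have e2 : ¬ (tau (fun j => T j x) i = m - n) := by omega
            rw [if_neg e2, zero_mul]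
          · rw [if_neg h2, mul_zero]
      simp_rw [hpt]
      rw [lintegral_finsetSum]
      · unfold U
        rw [ENNReal.ofReal_sum_of_nonneg]
        · apply Finset.sum_congr rfl
          intro n _
          have hf := factor hT i
            (fun p => if p.1 = m - n then ENNReal.ofReal r ^ p.2 else 0)
            (fun p => if p.1 = n then ENNReal.ofReal r ^ (if p.2 = true then n else 0) else 0)
          simp only at hf
          rw [hf, ih (m - n), gap_int hT hK0 r hr i n, mul_comm, ← ENNReal.ofReal_mul]
          unfold wt
          have := hK0 n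
          positivity
        · intro n _
          apply mul_nonneg
          · unfold wt
            have := hK0 n
            positivity
          · apply U_nonneg
            intro n
            unfold wt
            have := hK0 n
            positivity
      · intro n _
        have hf1 : Measurable (fun p : ℕ × ℕ => if p.1 = m - n then ENNReal.ofReal r ^ p.2 else 0) :=
          measurable_of_countable _
        have hf2 : Measurable (fun p : ℕ × Bool =>
          if p.1 = n then ENNReal.ofReal r ^ (if p.2 = true then n else 0) else 0) :=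
          measurable_of_countable _
        exact (hf1.comp ((meas_tau hT i).prodMk (meas_S hT i))).mul
          (hf2.comp ((hT.measT i).prodMk (hT.measZ i)))

/-- expected weight of the bad event -/
lemma bad_bound (hT : RenewalOK Q K T ζ) (hK : KernelOK K α cK) (r : ℝ) (hr : 0 ≤ r) (hr1 : r ≤ 1)
    (N M : ℕ) (hN : 1 ≤ N) (B : Set X)
    (hB : ∀ x ∈ B, ∃ n, M ≤ n ∧ n ≤ N ∧ Low (fun j => T j x) (fun j => ζ j x) n) :
    ∫⁻ x, B.indicator (fun x =>
      ENNReal.ofReal r ^ cnt (fun j => T j x) (fun j => ζ j x) N) x ∂Q
      ≤ ENNReal.ofReal (r ^ (N - M) + ∑ m ∈ Ico M N, (∑ i ∈ range N, U (wt K r) i m) * kb K (N - m)) := by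
  have hU0 : ∀ i m, 0 ≤ U (wt K r) i m := by
    intro i m
    apply U_nonneg
    intro n
    unfold wt
    have := hK.nonneg n
    positivity
  have hkb0 : ∀ n, 0 ≤ kb K n := by
    intro n
    unfold kb
    have := hK.sum_one.summable.sum_le_tsum (range n) (fun k _ => hK.nonneg k)
    rw [hK.sum_one.tsum_eq] at this
    linarith
  calc ∫⁻ x, B.indicator (fun x =>
      ENNReal.ofReal r ^ cnt (fun j => T j x) (fun j => ζ j x) N) x ∂Q
      ≤ ∫⁻ x, (ENNReal.ofReal r ^ (N - M) + ∑ i ∈ range N, ∑ m ∈ Ico M N,
          (if tau (fun j => T j x) i = m then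
            ENNReal.ofReal r ^ S (fun j => T j x) (fun j => ζ j x) i else 0) *
          (if N - m ≤ T i x then 1 else 0)) ∂Q := by
        apply lintegral_mono_ae
        filter_upwards [ae_pos hT hK] with x hx
        by_cases hxB : x ∈ B
        · rw [Set.indicator_of_mem hxB]
          refine (path_bound _ _ hx N M hN _ (by
            rw [← ENNReal.ofReal_one]; exact ENNReal.ofReal_le_ofReal hr1) (hB x hxB)).trans ?_
          apply add_le_add le_rfl
          apply Finset.sum_le_sum
          intro i _
          split_ifs with hc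
          · have hs := Finset.single_le_sum (f := fun m => (if tau (fun j => T j x) i = m then
              ENNReal.ofReal r ^ S (fun j => T j x) (fun j => ζ j x) i else 0) *
              (if N - m ≤ T i x then (1:ℝ≥0∞) else 0)) (s := Ico M N)
              (fun j _ => zero_le) (Finset.mem_Ico.mpr ⟨hc.1, hc.2.1⟩)
            rw [if_pos rfl, if_pos hc.2.2, mul_one] at hs
            exact hs
          · exact zero_le
        · rw [Set.indicator_of_notMem hxB]; exact zero_le
    _ = ENNReal.ofReal r ^ (N - M) + ∑ i ∈ range N, ∑ m ∈ Ico M N,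
          ENNReal.ofReal (U (wt K r) i m) * ENNReal.ofReal (kb K (N - m)) := by
        rw [lintegral_add_left measurable_const, lintegral_const, measure_univ, mul_one,
          lintegral_finsetSum]
        · congr 1
          apply Finset.sum_congr rfl
          intro i _
          rw [lintegral_finsetSum]
          · apply Finset.sum_congr rfl
            intro m _
            have hf := factor hT i
              (fun p => if p.1 = m then ENNReal.ofReal r ^ p.2 else 0)
              (fun p => if N - m ≤ p.1 then 1 else 0)
            simp only at hf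
            rw [hf, Phi_eq hT hK.nonneg r hr i m]
            congr 1
            have : ∀ x, (if N - m ≤ T i x then (1:ℝ≥0∞) else 0)
                = Set.indicator {x | N - m ≤ T i x} (fun _ => 1) x := by
              intro x; simp [Set.indicator]
            simp_rw [this]
            have hms : MeasurableSet {x | N - m ≤ T i x} :=
              hT.measT i (MeasurableSet.of_discrete (s := Set.Ici (N - m)))
            rw [lintegral_indicator hms,
              setLIntegral_const, one_mul, law_tail hT hK.nonneg]
          · intro m _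
            have hf1 : Measurable (fun p : ℕ × ℕ => if p.1 = m then ENNReal.ofReal r ^ p.2 else 0) :=
              measurable_of_countable _
            have hf2 : Measurable (fun p : ℕ × Bool => if N - m ≤ p.1 then (1:ℝ≥0∞) else 0) :=
              measurable_of_countable _
            exact (hf1.comp ((meas_tau hT i).prodMk (meas_S hT i))).mul
              (hf2.comp ((hT.measT i).prodMk (hT.measZ i)))
        · intro i _
          refine Finset.measurable_fun_sum _ (fun m _ => ?_)
          have hf1 : Measurable (fun p : ℕ × ℕ => if p.1 = m then ENNReal.ofReal r ^ p.2 else 0) :=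
            measurable_of_countable _
          have hf2 : Measurable (fun p : ℕ × Bool => if N - m ≤ p.1 then (1:ℝ≥0∞) else 0) :=
            measurable_of_countable _
          exact (hf1.comp ((meas_tau hT i).prodMk (meas_S hT i))).mul
            (hf2.comp ((hT.measT i).prodMk (hT.measZ i)))
    _ = ENNReal.ofReal (r ^ (N - M) + ∑ m ∈ Ico M N, (∑ i ∈ range N, U (wt K r) i m) * kb K (N - m)) := by
        rw [ENNReal.ofReal_add (by positivity), ENNReal.ofReal_pow hr, Finset.sum_comm]
        · congr 1
          rw [ENNReal.ofReal_sum_of_nonneg]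
          · apply Finset.sum_congr rfl
            intro m _
            rw [ENNReal.ofReal_mul (Finset.sum_nonneg (fun i _ => hU0 i m)),
              ENNReal.ofReal_sum_of_nonneg (fun i _ => hU0 i m), Finset.sum_mul]
          · intro m _
            exact mul_nonneg (Finset.sum_nonneg (fun i _ => hU0 i m)) (hkb0 _)
        · exact Finset.sum_nonneg (fun m _ =>
            mul_nonneg (Finset.sum_nonneg (fun i _ => hU0 i m)) (hkb0 _))

end ren

end Pool.Agent.V11333.Cop
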