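import Mathlib
import Pool.Agent.V11333.Cop3

open Filter Topology Finset MeasureTheory ProbabilityTheory
open scoped ENNReal

namespace Pool.Agent.V11333.Cop

section asym

variable {K : ℕ → ℝ} {α cK : ℝ}

lemma kb_nonneg (hK : KernelOK K α cK) (n : ℕ) : 0 ≤ kb K n := by
  unfold kb
  have := hK.sum_one.summable.sum_le_tsum (range n) (fun k _ => hK.nonneg k)
  rw [hK.sum_one.tsum_eq] at this
  linarith

lemma kb_tendsto (hK : KernelOK K α cK) : Tendsto (kb K) atTop (𝓝 0) := by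
  have h := hK.sum_one.tendsto_sum_nat
  have h2 := h.const_sub 1
  rw [sub_self] at h2
  exact h2

lemma K_upper (hK : KernelOK K α cK) :
    ∃ C : ℝ, 0 ≤ C ∧ ∀ n : ℕ, 1 ≤ n → K n ≤ C * (1 / (n:ℝ)) ^ (1 + α) := by
  obtain ⟨C, hC⟩ := hK.asymp.bddAbove_range
  refine ⟨max C 0, le_max_right _ _, ?_⟩
  intro n hn
  have hn' : (0:ℝ) < n := by exact_mod_cast hn
  have h1 : (n:ℝ) ^ (1 + α) * K n ≤ C := hC ⟨n, rfl⟩
  have h2 : (1 / (n:ℝ)) ^ (1 + α) = ((n:ℝ) ^ (1 + α))⁻¹ := by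
    rw [one_div, Real.inv_rpow hn'.le]
  have hp : 0 < (n:ℝ) ^ (1 + α) := by positivity
  rw [h2]
  calc K n = ((n:ℝ) ^ (1 + α) * K n) * ((n:ℝ) ^ (1 + α))⁻¹ := by field_simp
    _ ≤ C * ((n:ℝ) ^ (1 + α))⁻¹ := mul_le_mul_of_nonneg_right h1 (by positivity)
    _ ≤ max C 0 * ((n:ℝ) ^ (1 + α))⁻¹ :=
        mul_le_mul_of_nonneg_right (le_max_left _ _) (by positivity)

/-- lower bound for the partition function -/
noncomputable def Llow (K : ℕ → ℝ) (N : ℕ) : ℝ := (∑ n ∈ Ico N (2 * N), K n) / 2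

lemma Llow_pos (hK : KernelOK K α cK) (N : ℕ) (hN : 1 ≤ N) : 0 < Llow K N := by
  unfold Llow
  apply div_pos _ two_pos
  apply Finset.sum_pos
  · intro n hn
    rw [mem_Ico] at hn
    exact hK.pos n (by omega)
  · exact ⟨N, by rw [mem_Ico]; omega⟩

lemma Llow_lower (hK : KernelOK K α cK) :
    ∃ c : ℝ, 0 < c ∧ ∀ᶠ N : ℕ in atTop, c * (1 / (N:ℝ)) ^ α ≤ Llow K N := by
  have hc := hK.c_pos
  have hev : ∀ᶠ n : ℕ in atTop, cK / 2 < (n:ℝ) ^ (1 + α) * K n :=
    hK.asymp.eventually (lt_mem_nhds (by linarith))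
  obtain ⟨N0, hN0⟩ := eventually_atTop.mp hev
  refine ⟨cK / 4 * (1/2) ^ (1 + α), by positivity, ?_⟩
  filter_upwards [eventually_ge_atTop (max N0 1)] with N hN
  have hN1 : 1 ≤ N := le_trans (le_max_right _ _) hN
  have hNR : (0:ℝ) < N := by exact_mod_cast hN1
  have hα := hK.alpha_pos
  have hterm : ∀ n ∈ Ico N (2 * N), cK / 2 * (1 / (2 * (N:ℝ))) ^ (1 + α) ≤ K n := by
    intro n hn
    rw [mem_Ico] at hn
    have h1 := hN0 n (le_trans (le_max_left _ _) (hN.trans hn.1))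
    have hnR : (0:ℝ) < n := by exact_mod_cast (show 0 < n by omega)
    have hp : 0 < (n:ℝ) ^ (1 + α) := by positivity
    have h2 : (1 / (2 * (N:ℝ))) ^ (1 + α) ≤ (1 / (n:ℝ)) ^ (1 + α) := by
      apply Real.rpow_le_rpow (by positivity) _ (by linarith)
      apply one_div_le_one_div_of_le hnR
      exact_mod_cast hn.2.le
    have h3 : (1 / (n:ℝ)) ^ (1 + α) = ((n:ℝ) ^ (1 + α))⁻¹ := by
      rw [one_div, Real.inv_rpow hnR.le]
    calc cK / 2 * (1 / (2 * (N:ℝ))) ^ (1 + α) ≤ cK / 2 * (1 / (n:ℝ)) ^ (1 + α) :=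
          mul_le_mul_of_nonneg_left h2 (by positivity)
      _ ≤ ((n:ℝ) ^ (1 + α) * K n) * ((n:ℝ) ^ (1 + α))⁻¹ := by
          rw [h3]; exact mul_le_mul_of_nonneg_right h1.le (by positivity)
      _ = K n := by field_simp
  have hsum := Finset.card_nsmul_le_sum (Ico N (2*N)) K _ hterm
  rw [Nat.card_Ico, nsmul_eq_mul] at hsum
  have hcard : ((2 * N - N : ℕ) : ℝ) = N := by
    have : 2 * N - N = N := by omega
    rw [this]
  rw [hcard] at hsum
  unfold Llow
  have hsplit : (1 / (2 * (N:ℝ))) ^ (1 + α) = (1/2) ^ (1 + α) * ((1 / (N:ℝ)) * (1 / (N:ℝ)) ^ α) := by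
    have e1 : (1 / (2 * (N:ℝ))) = (1/2) * (1 / (N:ℝ)) := by field_simp
    rw [e1, Real.mul_rpow (by positivity) (by positivity), Real.rpow_add (x := 1 / (N:ℝ)) (by positivity),
      Real.rpow_one]
  rw [hsplit] at hsum
  have e2 : (N:ℝ) * (cK / 2 * ((1/2) ^ (1 + α) * ((1 / (N:ℝ)) * (1 / (N:ℝ)) ^ α)))
      = cK / 2 * (1/2) ^ (1 + α) * (1 / (N:ℝ)) ^ α := by
    field_simp
  rw [e2] at hsum
  linarith

lemma wt_nonneg (hK : KernelOK K α cK) (r : ℝ) (hr : 0 ≤ r) (n : ℕ) : 0 ≤ wt K r n := by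
  unfold wt
  have := hK.nonneg n
  positivity

lemma wt_sum (hK : KernelOK K α cK) (r : ℝ) (hr : 0 ≤ r) (hr1 : r ≤ 1) (M : ℕ) :
    ∑ n ∈ range M, wt K r n ≤ (1 + r) / 2 := by
  have h1 := hK.sum_one.summable.sum_le_tsum (range M) (fun k _ => hK.nonneg k)
  rw [hK.sum_one.tsum_eq] at h1
  calc ∑ n ∈ range M, wt K r n ≤ ∑ n ∈ range M, K n * ((1 + r) / 2) := by
        apply Finset.sum_le_sum
        intro n _
        unfold wt
        rcases Nat.eq_zero_or_pos n with h | h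
        · rw [h, hK.zero]; simp
        · apply mul_le_mul_of_nonneg_left _ (hK.nonneg n)
          have : r ^ n ≤ r := pow_le_of_le_one hr hr1 (by omega)
          linarith
    _ = (∑ n ∈ range M, K n) * ((1 + r) / 2) := by rw [Finset.sum_mul]
    _ ≤ 1 * ((1 + r) / 2) := mul_le_mul_of_nonneg_right h1 (by positivity)
    _ = _ := one_mul _

lemma wt_le (hK : KernelOK K α cK) (r : ℝ) (hr : 0 ≤ r) (hr1 : r ≤ 1) (n : ℕ) :
    wt K r n ≤ K n := by
  unfold wt
  have h1 : r ^ n ≤ 1 := pow_le_one₀ hr hr1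
  have h2 : (1 + r ^ n) / 2 ≤ 1 := by linarith
  exact mul_le_of_le_one_right (hK.nonneg n) h2

/-- the bad weight -/
noncomputable def bad (K : ℕ → ℝ) (r : ℝ) (N M : ℕ) : ℝ :=
  r ^ (N - M) + ∑ m ∈ Ico M N, (∑ i ∈ range N, U (wt K r) i m) * kb K (N - m)

lemma bad_tendsto (hK : KernelOK K α cK) (r : ℝ) (hr : 0 < r) (hr1 : r < 1) (ε : ℝ) (hε : 0 < ε)
    (hε1 : ε ≤ 1) :
    Tendsto (fun N : ℕ => bad K r N ⌈ε * N / 2⌉₊ / Llow K N) atTop (𝓝 0) := by
  obtain ⟨C, hC0, hC⟩ := K_upper hK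
  have hα := hK.alpha_pos
  obtain ⟨C2, hC20, hC2⟩ := V_bound (wt K r) (wt_nonneg hK r hr.le) ((1 + r) / 2)
    (wt_sum hK r hr.le hr1.le) (by positivity) (by linarith) (1 + α) C (by positivity) hC0
    (by unfold wt; rw [hK.zero]; simp)
    (fun n hn => (wt_le hK r hr.le hr1.le n).trans (hC n hn))
  obtain ⟨c, hc0, hc⟩ := Llow_lower hK
  set s : ℝ := Real.sqrt r with hs
  have hs0 : 0 < s := Real.sqrt_pos.mpr hr
  have hs1 : s < 1 := by
    rw [hs, Real.sqrt_lt' one_pos]; simpa using hr1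
  have hss : s ^ 2 = r := Real.sq_sqrt hr.le
  obtain ⟨k, hk⟩ := exists_nat_ge α
  have hup : ∀ᶠ N : ℕ in atTop, bad K r N ⌈ε * N / 2⌉₊ / Llow K N
      ≤ (1 / (s * c)) * ((N:ℝ) ^ k * s ^ N)
        + (C2 * (2 / ε) ^ (1 + α) / c) * ((N:ℝ)⁻¹ * ∑ j ∈ range N, kb K (j + 1)) := by
    filter_upwards [hc, eventually_ge_atTop 1] with N hcN hN
    have hNR : (0:ℝ) < N := by exact_mod_cast hN
    have hL := Llow_pos hK N hN
    have hNα : 0 < (1 / (N:ℝ)) ^ α := by positivity
    have hNinv : (1 / (N:ℝ)) ^ α * (N:ℝ) ^ α = 1 := by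
      rw [← Real.mul_rpow (by positivity) (by positivity)]
      have : 1 / (N:ℝ) * N = 1 := by field_simp
      rw [this, Real.one_rpow]
    set M := ⌈ε * N / 2⌉₊ with hM
    have hM2 : M ≤ (N + 1) / 2 := by
      rw [hM, Nat.ceil_le]
      have h1 : (N:ℝ) ≤ 2 * ((N+1)/2 : ℕ) := by
        have : N ≤ 2 * ((N+1)/2) := by omega
        exact_mod_cast this
      have h2 : ε * N ≤ N := by
        have := mul_le_mul_of_nonneg_right hε1 hNR.le
        linarith
      linarith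
    have hMpos : 1 ≤ M := Nat.one_le_iff_ne_zero.mpr (by
      have : 0 < M := Nat.ceil_pos.mpr (by positivity)
      omega)
    have hMge : ε * N / 2 ≤ M := Nat.le_ceil _
    have hrs : r ^ (N - M) * s ≤ s ^ N := by
      rw [← hss, ← pow_mul, ← pow_succ]
      apply pow_le_pow_of_le_one hs0.le hs1.le
      omega
    have hbadle : bad K r N M ≤ s ^ N / s
        + C2 * ((2 / ε) ^ (1 + α) * ((1 / (N:ℝ)) * (1 / (N:ℝ)) ^ α)) * ∑ j ∈ range N, kb K (j + 1) := by
      unfold bad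
      apply add_le_add
      · rw [le_div_iff₀ hs0]; exact hrs
      · calc ∑ m ∈ Ico M N, (∑ i ∈ range N, U (wt K r) i m) * kb K (N - m)
            ≤ ∑ m ∈ Ico M N, (C2 * ((2 / ε) ^ (1 + α) * ((1 / (N:ℝ)) * (1 / (N:ℝ)) ^ α)))
                * kb K (N - m) := by
              apply Finset.sum_le_sum
              intro m hm
              rw [mem_Ico] at hm
              apply mul_le_mul_of_nonneg_right _ (kb_nonneg hK _)
              refine (hC2 N m (by omega)).trans ?_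
              apply mul_le_mul_of_nonneg_left _ hC20
              have hmR : (0:ℝ) < m := by exact_mod_cast (show 0 < m by omega)
              have hle : (1 / (m:ℝ)) ≤ (2 / ε) * (1 / (N:ℝ)) := by
                rw [div_mul_div_comm, div_le_div_iff₀ hmR (by positivity)]
                have : (M:ℝ) ≤ m := by exact_mod_cast hm.1
                linarith
              calc (1 / (m:ℝ)) ^ (1 + α) ≤ ((2 / ε) * (1 / (N:ℝ))) ^ (1 + α) :=
                    Real.rpow_le_rpow (by positivity) hle (by positivity)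
                _ = (2 / ε) ^ (1 + α) * ((1 / (N:ℝ)) * (1 / (N:ℝ)) ^ α) := by
                    rw [Real.mul_rpow (by positivity) (by positivity),
                      Real.rpow_add (x := 1 / (N:ℝ)) (by positivity), Real.rpow_one]
          _ = (C2 * ((2 / ε) ^ (1 + α) * ((1 / (N:ℝ)) * (1 / (N:ℝ)) ^ α)))
                * ∑ m ∈ Ico M N, kb K (N - m) := by rw [Finset.mul_sum]
          _ ≤ (C2 * ((2 / ε) ^ (1 + α) * ((1 / (N:ℝ)) * (1 / (N:ℝ)) ^ α)))
                * ∑ m ∈ range N, kb K (N - m) := by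
              apply mul_le_mul_of_nonneg_left _ (by positivity)
              apply Finset.sum_le_sum_of_subset_of_nonneg
              · intro m hm
                rw [mem_Ico] at hm
                exact mem_range.mpr hm.2
              · intro m _ _
                exact kb_nonneg hK _
          _ = _ := by
              congr 1
              rw [← Finset.sum_range_reflect (fun j => kb K (j + 1)) N]
              apply Finset.sum_congr rfl
              intro m hm
              rw [mem_range] at hm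
              congr 1
              omega
    have hsum0 : 0 ≤ ∑ j ∈ range N, kb K (j + 1) := Finset.sum_nonneg (fun j _ => kb_nonneg hK _)
    have hrhs0 : 0 ≤ s ^ N / s
        + C2 * ((2 / ε) ^ (1 + α) * ((1 / (N:ℝ)) * (1 / (N:ℝ)) ^ α)) * ∑ j ∈ range N, kb K (j + 1) := by
      positivity
    calc bad K r N M / Llow K N ≤ (s ^ N / s
        + C2 * ((2 / ε) ^ (1 + α) * ((1 / (N:ℝ)) * (1 / (N:ℝ)) ^ α)) * ∑ j ∈ range N, kb K (j + 1))
          / (c * (1 / (N:ℝ)) ^ α) :=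
          div_le_div₀ hrhs0 hbadle (by positivity) hcN
      _ = (1 / (s * c)) * (((1 / (N:ℝ)) ^ α)⁻¹ * s ^ N)
        + (C2 * (2 / ε) ^ (1 + α) / c) * ((N:ℝ)⁻¹ * ∑ j ∈ range N, kb K (j + 1)) := by
          field_simp
      _ ≤ _ := by
          apply add_le_add _ le_rfl
          apply mul_le_mul_of_nonneg_left _ (by positivity)
          apply mul_le_mul_of_nonneg_right _ (by positivity)
          have e : ((1 / (N:ℝ)) ^ α)⁻¹ = (N:ℝ) ^ α := inv_eq_of_mul_eq_one_right hNinv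
          rw [e]
          calc (N:ℝ) ^ α ≤ (N:ℝ) ^ (k:ℝ) :=
                Real.rpow_le_rpow_of_exponent_le (by exact_mod_cast hN) hk
            _ = (N:ℝ) ^ k := Real.rpow_natCast _ _
  have hlim : Tendsto (fun N : ℕ => (1 / (s * c)) * ((N:ℝ) ^ k * s ^ N)
        + (C2 * (2 / ε) ^ (1 + α) / c) * ((N:ℝ)⁻¹ * ∑ j ∈ range N, kb K (j + 1))) atTop (𝓝 0) := by
    have h1 := tendsto_pow_const_mul_const_pow_of_abs_lt_one k (r := s)
      (by rw [abs_of_pos hs0]; exact hs1)
    have h2 := ((kb_tendsto hK).comp (tendsto_add_atTop_nat 1)).cesaro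
    have := (h1.const_mul (1 / (s * c))).add (h2.const_mul (C2 * (2 / ε) ^ (1 + α) / c))
    simpa using this
  refine tendsto_of_tendsto_of_tendsto_of_le_of_le' tendsto_const_nhds hlim ?_ hup
  filter_upwards [eventually_ge_atTop 1] with N hN
  apply div_nonneg _ (Llow_pos hK N hN).le
  unfold bad
  apply add_nonneg (by positivity)
  apply Finset.sum_nonneg
  intro m _
  exact mul_nonneg (Finset.sum_nonneg (fun i _ => U_nonneg _ (wt_nonneg hK r hr.le) _ _))
    (kb_nonneg hK _)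

end asym

end Pool.Agent.V11333.Cop
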