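import Mathlib
import Pool.Agent.V11333.Cop4

open Filter Topology Finset MeasureTheory ProbabilityTheory
open scoped ENNReal

namespace Pool.Agent.V11333.Cop

/-- Charges `ω_1, ω_2, ...` (index `0` unused): i.i.d., mean zero, variance one, all exponential
moments finite. -/
structure ChargesOK {Ω : Type*} [MeasurableSpace Ω] (P : Measure Ω) (ω : ℕ → Ω → ℝ) : Prop where
  meas : ∀ n, Measurable (ω n)
  indep : iIndepFun ω P
  ident : ∀ n, IdentDistrib (ω n) (ω 0) P P
  expint : ∀ t : ℝ, Integrable (fun v => Real.exp (t * ω 0 v)) P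
  mean : ∫ v, ω 0 v ∂P = 0
  var : ∫ v, ω 0 v ^ 2 ∂P = 1

section defs

variable {X Ω : Type*} [MeasurableSpace X] [MeasurableSpace Ω]

/-- Boltzmann weight `exp(-2λ ∑_{n=1}^N (ω_n + h) Δ_n)`. -/
noncomputable def weight (T : ℕ → X → ℕ) (ζ : ℕ → X → Bool) (ω : ℕ → Ω → ℝ) (lam h : ℝ) (N : ℕ)
    (v : Ω) (x : X) : ℝ :=
  Real.exp (-2 * lam * ∑ n ∈ Icc 1 N, (ω n v + h) * Delta (fun j => T j x) (fun j => ζ j x) n)

/-- Partition function `Z_{N,ω}`. -/
noncomputable def partFun (Q : Measure X) (T : ℕ → X → ℕ) (ζ : ℕ → X → Bool) (ω : ℕ → Ω → ℝ)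
    (lam h : ℝ) (N : ℕ) (v : Ω) : ℝ := ∫ x, weight T ζ ω lam h N v x ∂Q

/-- Quenched polymer probability `P_{N,ω}(A)`. -/
noncomputable def polymer (Q : Measure X) (T : ℕ → X → ℕ) (ζ : ℕ → X → Bool) (ω : ℕ → Ω → ℝ)
    (lam h : ℝ) (N : ℕ) (v : Ω) (A : Set X) : ℝ :=
  (∫ x in A, weight T ζ ω lam h N v x ∂Q) / partFun Q T ζ ω lam h N v

/-- The event `Δ_n = 0` for every `n ∈ [εN, N]`. -/
def upEvent (T : ℕ → X → ℕ) (ζ : ℕ → X → Bool) (ε : ℝ) (N : ℕ) : Set X :=
  {x | ∀ n : ℕ, ε * N ≤ n → n ≤ N → Delta (fun j => T j x) (fun j => ζ j x) n = 0}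

/-- The delocalized region: parameters `(λ, h)` with `λ, h ≥ 0` and zero free energy
`lim (1/N) E log Z_N = 0` (with `log Z_N` integrable for every `N`). -/
def Deloc (Q : Measure X) (P : Measure Ω) (T : ℕ → X → ℕ) (ζ : ℕ → X → Bool) (ω : ℕ → Ω → ℝ) :
    Set (ℝ × ℝ) :=
  {p | 0 ≤ p.1 ∧ 0 ≤ p.2 ∧
    (∀ N, Integrable (fun v => Real.log (partFun Q T ζ ω p.1 p.2 N v)) P) ∧
    Tendsto (fun N : ℕ => (∫ v, Real.log (partFun Q T ζ ω p.1 p.2 N v) ∂P) / N) atTop (𝓝 0)}

end defs

section main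

set_option linter.unusedSectionVars false

variable {X Ω : Type*} [MeasurableSpace X] [MeasurableSpace Ω] {Q : Measure X} {P : Measure Ω}
  [IsProbabilityMeasure Q] [IsProbabilityMeasure P] {K : ℕ → ℝ}
  {α cK : ℝ} {T : ℕ → X → ℕ} {ζ : ℕ → X → Bool} {ω : ℕ → Ω → ℝ}

lemma meas_Low (hT : RenewalOK Q K T ζ) (n : ℕ) :
    MeasurableSet {x | Low (fun j => T j x) (fun j => ζ j x) n} := by
  have : {x | Low (fun j => T j x) (fun j => ζ j x) n} = ⋃ i : ℕ,
      ({x | tau (fun j => T j x) i < n} ∩ {x | n ≤ tau (fun j => T j x) (i + 1)}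
        ∩ {x | ζ i x = true}) := by
    ext x
    simp only [Low, Set.mem_ofPred_eq, Set.mem_iUnion, Set.mem_inter_iff, and_assoc]
  rw [this]
  refine MeasurableSet.iUnion (fun i => ?_)
  refine MeasurableSet.inter (MeasurableSet.inter ?_ ?_) ?_
  · exact meas_tau hT i (MeasurableSet.of_discrete (s := Set.Iio n))
  · exact meas_tau hT (i+1) (MeasurableSet.of_discrete (s := Set.Ici n))
  · exact hT.measZ i (measurableSet_singleton true)

lemma meas_Delta (hT : RenewalOK Q K T ζ) (n : ℕ) :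
    Measurable (fun x => Delta (fun j => T j x) (fun j => ζ j x) n) := by
  unfold Delta
  exact Measurable.ite (meas_Low hT n) measurable_const measurable_const

lemma meas_weight (hT : RenewalOK Q K T ζ) (hω : ChargesOK P ω) (lam h : ℝ) (N : ℕ) :
    Measurable (fun p : Ω × X => weight T ζ ω lam h N p.1 p.2) := by
  unfold weight
  apply Real.measurable_exp.comp
  apply Measurable.const_mul
  refine Finset.measurable_fun_sum _ (fun n _ => ?_)
  exact (((hω.meas n).comp measurable_fst).add_const h).mul ((meas_Delta hT n).comp measurable_snd)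

lemma weight_pos (lam h : ℝ) (N : ℕ) (v : Ω) (x : X) : 0 < weight T ζ ω lam h N v x :=
  Real.exp_pos _

lemma weight_le (lam h : ℝ) (N : ℕ) (v : Ω) (x : X) :
    weight T ζ ω lam h N v x ≤ Real.exp (∑ n ∈ Icc 1 N, |-2 * lam * (ω n v + h)|) := by
  unfold weight
  apply Real.exp_le_exp.mpr
  rw [Finset.mul_sum]
  apply Finset.sum_le_sum
  intro n _
  unfold Delta
  split_ifs
  · rw [mul_one]; exact le_abs_self _
  · rw [mul_zero, mul_zero]; exact abs_nonneg _

lemma weight_int (hT : RenewalOK Q K T ζ) (hω : ChargesOK P ω) (lam h : ℝ) (N : ℕ) (v : Ω) :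
    Integrable (fun x => weight T ζ ω lam h N v x) Q := by
  apply Integrable.of_bound (C := Real.exp (∑ n ∈ Icc 1 N, |-2 * lam * (ω n v + h)|))
  · exact ((meas_weight hT hω lam h N).comp measurable_prodMk_left).aestronglyMeasurable
  · refine ae_of_all _ (fun x => ?_)
    rw [Real.norm_eq_abs, abs_of_pos (weight_pos lam h N v x)]
    exact weight_le lam h N v x

/-- `r = E exp(-2λ(ω+h))` -/
noncomputable def rr (P : Measure Ω) (ω : ℕ → Ω → ℝ) (lam h : ℝ) : ℝ :=
  ∫ v, Real.exp (-2 * lam * (ω 0 v + h)) ∂P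

lemma rr_int (hω : ChargesOK P ω) (lam h : ℝ) :
    Integrable (fun v => Real.exp (-2 * lam * (ω 0 v + h))) P := by
  have : (fun v => Real.exp (-2 * lam * (ω 0 v + h)))
      = fun v => Real.exp (-2 * lam * h) * Real.exp ((-2 * lam) * ω 0 v) := by
    funext v; rw [← Real.exp_add]; congr 1; ring
  rw [this]
  exact (hω.expint _).const_mul _

lemma rr_pos (hω : ChargesOK P ω) (lam h : ℝ) : 0 < rr P ω lam h :=
  integral_exp_pos (rr_int hω lam h)

lemma charge_lint (hω : ChargesOK P ω) (lam h : ℝ) (n : ℕ) :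
    ∫⁻ v, ENNReal.ofReal (Real.exp (-2 * lam * (ω n v + h))) ∂P = ENNReal.ofReal (rr P ω lam h) := by
  have hm : Measurable (fun y : ℝ => ENNReal.ofReal (Real.exp (-2 * lam * (y + h)))) := by
    fun_prop
  have h1 := ((hω.ident n).comp hm).lintegral_eq
  simp only [Function.comp] at h1
  rw [h1, rr, ofReal_integral_eq_lintegral_ofReal (rr_int hω lam h)
    (ae_of_all _ (fun v => (Real.exp_pos _).le))]

lemma weight_prod (lam h : ℝ) (N : ℕ) (v : Ω) (x : X) :
    ENNReal.ofReal (weight T ζ ω lam h N v x) = ∏ n ∈ Icc 1 N,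
      ENNReal.ofReal (Real.exp (-2 * lam * (ω n v + h) *
        Delta (fun j => T j x) (fun j => ζ j x) n)) := by
  unfold weight
  rw [← ENNReal.ofReal_prod_of_nonneg (fun n _ => (Real.exp_pos _).le), ← Real.exp_sum,
    Finset.mul_sum]
  congr 2
  apply Finset.sum_congr rfl
  intro n _
  ring

lemma inner_charge (hω : ChargesOK P ω) (lam h : ℝ) (N : ℕ) (x : X) :
    ∫⁻ v, ENNReal.ofReal (weight T ζ ω lam h N v x) ∂P
      = ENNReal.ofReal (rr P ω lam h) ^ cnt (fun j => T j x) (fun j => ζ j x) N := by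
  classical
  simp_rw [weight_prod]
  have hmeas : ∀ n : ℕ, Measurable (fun y : ℝ => ENNReal.ofReal (Real.exp (-2 * lam * (y + h) *
        Delta (fun j => T j x) (fun j => ζ j x) n))) := by
    intro n; fun_prop
  have hind : iIndepFun (fun n v => ENNReal.ofReal (Real.exp (-2 * lam * (ω n v + h) *
        Delta (fun j => T j x) (fun j => ζ j x) n))) P :=
    hω.indep.comp (fun n y => ENNReal.ofReal (Real.exp (-2 * lam * (y + h) *
        Delta (fun j => T j x) (fun j => ζ j x) n))) hmeas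
  rw [lintegral_prod_eq_prod_lintegral_of_indepFun (Icc 1 N) _ hind
    (fun n => (hmeas n).comp (hω.meas n))]
  have : ∀ n ∈ Icc 1 N, ∫⁻ v, ENNReal.ofReal (Real.exp (-2 * lam * (ω n v + h) *
        Delta (fun j => T j x) (fun j => ζ j x) n)) ∂P
        = if Low (fun j => T j x) (fun j => ζ j x) n then ENNReal.ofReal (rr P ω lam h) else 1 := by
    intro n _
    unfold Delta
    split_ifs with hl
    · simp only [mul_one]
      exact charge_lint hω lam h n
    · simp
  rw [Finset.prod_congr rfl this, Finset.prod_ite, Finset.prod_const, Finset.prod_const_one, mul_one]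
  rfl

/-- Tonelli -/
lemma tonelli (hT : RenewalOK Q K T ζ) (hω : ChargesOK P ω) (lam h : ℝ) (N : ℕ) (B : Set X)
    (hB : MeasurableSet B) :
    ∫⁻ v, ENNReal.ofReal (∫ x in B, weight T ζ ω lam h N v x ∂Q) ∂P
      = ∫⁻ x, B.indicator (fun x =>
        ENNReal.ofReal (rr P ω lam h) ^ cnt (fun j => T j x) (fun j => ζ j x) N) x ∂Q := by
  have h1 : ∀ v, ENNReal.ofReal (∫ x in B, weight T ζ ω lam h N v x ∂Q)
      = ∫⁻ x in B, ENNReal.ofReal (weight T ζ ω lam h N v x) ∂Q := by
    intro v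
    exact ofReal_integral_eq_lintegral_ofReal (weight_int hT hω lam h N v).integrableOn
      (ae_of_all _ (fun x => (weight_pos lam h N v x).le))
  simp_rw [h1]
  rw [lintegral_lintegral_swap]
  · rw [lintegral_indicator hB]
    exact lintegral_congr (fun x => inner_charge hω lam h N x)
  · exact ((meas_weight hT hω lam h N).ennreal_ofReal).aemeasurable

lemma meas_num (hT : RenewalOK Q K T ζ) (hω : ChargesOK P ω) (lam h : ℝ) (N : ℕ) (B : Set X) :
    Measurable (fun v => ∫ x in B, weight T ζ ω lam h N v x ∂Q) := by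
  have := (meas_weight hT hω lam h N).stronglyMeasurable
  exact (StronglyMeasurable.integral_prod_right (ν := Q.restrict B) this).measurable

lemma meas_part (hT : RenewalOK Q K T ζ) (hω : ChargesOK P ω) (lam h : ℝ) (N : ℕ) :
    Measurable (fun v => partFun Q T ζ ω lam h N v) := by
  have := (meas_weight hT hω lam h N).stronglyMeasurable
  exact (StronglyMeasurable.integral_prod_right (ν := Q) this).measurable

lemma part_lower (hT : RenewalOK Q K T ζ) (hK : KernelOK K α cK) (hω : ChargesOK P ω)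
    (lam h : ℝ) (N : ℕ) (v : Ω) : Llow K N ≤ partFun Q T ζ ω lam h N v := by
  set E : Set X := ⋃ n ∈ Ico N (2 * N), {x | T 0 x = n ∧ ζ 0 x = false} with hE
  have hEm : MeasurableSet E := by
    rw [hE]
    refine Finset.measurableSet_biUnion _ (fun n _ => ?_)
    exact (hT.measT 0 (measurableSet_singleton n)).inter (hT.measZ 0 (measurableSet_singleton false))
  have hQE : Q E = ENNReal.ofReal (Llow K N) := by
    rw [hE, measure_biUnion_finset]
    · simp_rw [hT.law]
      unfold Llow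
      rw [← ENNReal.ofReal_sum_of_nonneg (fun n _ => by have := hK.nonneg n; positivity),
        Finset.sum_div]
    · intro a _ b _ hab
      rw [Function.onFun, Set.disjoint_left]
      intro x hx hx'
      simp only [Set.mem_ofPred_eq] at hx hx'
      exact hab (hx.1.symm.trans hx'.1)
    · intro n _
      exact (hT.measT 0 (measurableSet_singleton n)).inter
        (hT.measZ 0 (measurableSet_singleton false))
  have hw : ∀ x ∈ E, weight T ζ ω lam h N v x = 1 := by
    intro x hx
    rw [hE, Set.mem_iUnion₂] at hx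
    obtain ⟨n, hn, hx1, hx2⟩ := hx
    rw [mem_Ico] at hn
    unfold weight
    have hz : ∑ m ∈ Icc 1 N, (ω m v + h) * Delta (fun j => T j x) (fun j => ζ j x) m = 0 := by
      apply Finset.sum_eq_zero
      intro m hm
      rw [mem_Icc] at hm
      unfold Delta
      rw [if_neg, mul_zero]
      rintro ⟨i, hi1, hi2, hi3⟩
      rcases Nat.eq_zero_or_pos i with h0 | hp
      · subst h0
        change ζ 0 x = true at hi3
        rw [hx2] at hi3
        simp at hi3
      · have := tau_mono (fun j => T j x) (show 1 ≤ i by omega)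
        have h1 : tau (fun j => T j x) 1 = T 0 x := by
          unfold tau; simp
        omega
    rw [hz, mul_zero, Real.exp_zero]
  have hLnn : 0 ≤ Llow K N := by
    unfold Llow
    exact div_nonneg (Finset.sum_nonneg (fun n _ => hK.nonneg n)) two_pos.le
  calc Llow K N = ∫ x in E, (1:ℝ) ∂Q := by
        rw [setIntegral_const, smul_eq_mul, mul_one, Measure.real, hQE, ENNReal.toReal_ofReal hLnn]
    _ = ∫ x in E, weight T ζ ω lam h N v x ∂Q :=
        setIntegral_congr_fun hEm (fun x hx => (hw x hx).symm)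
    _ ≤ ∫ x, weight T ζ ω lam h N v x ∂Q :=
        setIntegral_le_integral (weight_int hT hω lam h N v)
          (ae_of_all _ (fun x => (weight_pos lam h N v x).le))
    _ = _ := rfl

lemma part_pos (hT : RenewalOK Q K T ζ) (hω : ChargesOK P ω)
    (lam h : ℝ) (N : ℕ) (v : Ω) : 0 < partFun Q T ζ ω lam h N v :=
  integral_exp_pos (weight_int hT hω lam h N v)

lemma part_int (hT : RenewalOK Q K T ζ) (hω : ChargesOK P ω)
    (lam h : ℝ) (hr : rr P ω lam h ≤ 1) (N : ℕ) :
    Integrable (fun v => partFun Q T ζ ω lam h N v) P ∧ ∫ v, partFun Q T ζ ω lam h N v ∂P ≤ 1 := by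
  have h1 := tonelli hT hω lam h N Set.univ MeasurableSet.univ
  simp only [Measure.restrict_univ, Set.indicator_univ] at h1
  have h2 : ∫⁻ x, ENNReal.ofReal (rr P ω lam h) ^ cnt (fun j => T j x) (fun j => ζ j x) N ∂Q ≤ 1 := by
    calc ∫⁻ x, ENNReal.ofReal (rr P ω lam h) ^ cnt (fun j => T j x) (fun j => ζ j x) N ∂Q
        ≤ ∫⁻ _, 1 ∂Q := by
          apply lintegral_mono
          intro x
          exact pow_le_one' (by rw [← ENNReal.ofReal_one]; exact ENNReal.ofReal_le_ofReal hr) _
      _ = 1 := by simp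
  have h3 : ∫⁻ v, ENNReal.ofReal (partFun Q T ζ ω lam h N v) ∂P ≤ 1 := by
    rw [← h1] at h2; exact h2
  have hnn : 0 ≤ᵐ[P] fun v => partFun Q T ζ ω lam h N v :=
    ae_of_all _ (fun v => (part_pos hT hω lam h N v).le)
  refine ⟨⟨(meas_part hT hω lam h N).aestronglyMeasurable, ?_⟩, ?_⟩
  · rw [hasFiniteIntegral_iff_ofReal hnn]
    exact h3.trans_lt ENNReal.one_lt_top
  · rw [integral_eq_lintegral_of_nonneg_ae hnn (meas_part hT hω lam h N).aestronglyMeasurable]
    have := ENNReal.toReal_mono ENNReal.one_ne_top h3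
    simpa using this

end main

end Pool.Agent.V11333.Cop
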