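import Mathlib
import Pool.Agent.V11333.Cop5

open Filter Topology Finset MeasureTheory ProbabilityTheory
open scoped ENNReal

namespace Pool.Agent.V11333.Cop

section main

set_option linter.unusedSectionVars false

variable {X Ω : Type*} [MeasurableSpace X] [MeasurableSpace Ω] {Q : Measure X} {P : Measure Ω}
  [IsProbabilityMeasure Q] [IsProbabilityMeasure P] {K : ℕ → ℝ}
  {α cK : ℝ} {T : ℕ → X → ℕ} {ζ : ℕ → X → Bool} {ω : ℕ → Ω → ℝ}

lemma meas_up (hT : RenewalOK Q K T ζ) (ε : ℝ) (N : ℕ) : MeasurableSet (upEvent T ζ ε N) := by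
  have : upEvent T ζ ε N = ⋂ n : ℕ, ⋂ (_ : ε * N ≤ n), ⋂ (_ : n ≤ N),
      {x | Delta (fun j => T j x) (fun j => ζ j x) n = 0} := by
    ext x
    simp [upEvent]
  rw [this]
  refine MeasurableSet.iInter (fun n => MeasurableSet.iInter (fun _ =>
    MeasurableSet.iInter (fun _ => ?_)))
  exact meas_Delta hT n (measurableSet_singleton 0)

lemma bad_case (ε : ℝ) (hε : 0 < ε) (N : ℕ) (x : X)
    (hx : x ∈ (upEvent T ζ ε N)ᶜ) :
    ∃ n, ⌈min ε 1 * N / 2⌉₊ ≤ n ∧ n ≤ N ∧ Low (fun j => T j x) (fun j => ζ j x) n := by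
  simp only [upEvent, Set.mem_compl_iff, Set.mem_ofPred_eq, not_forall] at hx
  obtain ⟨n, h1, h2, h3⟩ := hx
  refine ⟨n, ?_, h2, ?_⟩
  · rw [Nat.ceil_le]
    have hN0 : (0:ℝ) ≤ N := Nat.cast_nonneg N
    have h4 : min ε 1 * N ≤ ε * N := mul_le_mul_of_nonneg_right (min_le_left _ _) hN0
    have h5 : 0 ≤ min ε 1 * (N:ℝ) := by positivity
    linarith
  · by_contra hl
    exact h3 (by unfold Delta; rw [if_neg hl])

lemma num_int (hT : RenewalOK Q K T ζ) (hK : KernelOK K α cK) (hω : ChargesOK P ω)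
    (lam h : ℝ) (hr1 : rr P ω lam h < 1) (ε : ℝ) (hε : 0 < ε) (N : ℕ) (hN : 1 ≤ N) :
    Integrable (fun v => ∫ x in (upEvent T ζ ε N)ᶜ, weight T ζ ω lam h N v x ∂Q) P ∧
    ∫ v, (∫ x in (upEvent T ζ ε N)ᶜ, weight T ζ ω lam h N v x ∂Q) ∂P
      ≤ bad K (rr P ω lam h) N ⌈min ε 1 * N / 2⌉₊ := by
  have hr0 := rr_pos hω lam h
  have h1 := tonelli hT hω lam h N (upEvent T ζ ε N)ᶜ (meas_up hT ε N).compl
  have h2 := bad_bound hT hK (rr P ω lam h) hr0.le hr1.le N ⌈min ε 1 * N / 2⌉₊ hN
    (upEvent T ζ ε N)ᶜ (bad_case ε hε N)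
  rw [← h1] at h2
  change _ ≤ ENNReal.ofReal (bad K (rr P ω lam h) N ⌈min ε 1 * N / 2⌉₊) at h2
  have hnn : 0 ≤ᵐ[P] fun v => ∫ x in (upEvent T ζ ε N)ᶜ, weight T ζ ω lam h N v x ∂Q :=
    ae_of_all _ (fun v => integral_nonneg (fun x => (weight_pos lam h N v x).le))
  have hms := (meas_num hT hω lam h N (upEvent T ζ ε N)ᶜ).aestronglyMeasurable (μ := P)
  have hbad0 : 0 ≤ bad K (rr P ω lam h) N ⌈min ε 1 * N / 2⌉₊ := by
    unfold bad
    apply add_nonneg (by positivity)
    apply Finset.sum_nonneg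
    intro m _
    exact mul_nonneg (Finset.sum_nonneg (fun i _ => U_nonneg _ (wt_nonneg hK _ hr0.le) _ _))
      (kb_nonneg hK _)
  refine ⟨⟨hms, ?_⟩, ?_⟩
  · rw [hasFiniteIntegral_iff_ofReal hnn]
    exact h2.trans_lt ENNReal.ofReal_lt_top
  · rw [integral_eq_lintegral_of_nonneg_ae hnn hms]
    have := ENNReal.toReal_mono ENNReal.ofReal_ne_top h2
    rw [ENNReal.toReal_ofReal hbad0] at this
    exact this

lemma pol_compl (hT : RenewalOK Q K T ζ) (hω : ChargesOK P ω)
    (lam h : ℝ) (ε : ℝ) (N : ℕ) (v : Ω) :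
    1 - polymer Q T ζ ω lam h N v (upEvent T ζ ε N)
      = (∫ x in (upEvent T ζ ε N)ᶜ, weight T ζ ω lam h N v x ∂Q) / partFun Q T ζ ω lam h N v := by
  have hZ := part_pos hT hω lam h N v
  have h := integral_add_compl (meas_up hT ε N) (weight_int hT hω lam h N v)
  unfold polymer
  rw [eq_div_iff hZ.ne', sub_mul, one_mul, div_mul_cancel₀ _ hZ.ne']
  unfold partFun
  linarith

lemma pol_meas (hT : RenewalOK Q K T ζ) (hω : ChargesOK P ω)
    (lam h : ℝ) (N : ℕ) (A : Set X) :
    Measurable (fun v => polymer Q T ζ ω lam h N v A) := by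
  unfold polymer
  exact (meas_num hT hω lam h N A).div (meas_part hT hω lam h N)

lemma pol_L1 (hT : RenewalOK Q K T ζ) (hK : KernelOK K α cK) (hω : ChargesOK P ω)
    (lam h : ℝ) (hr1 : rr P ω lam h < 1) (ε : ℝ) (hε : 0 < ε) (N : ℕ) (hN : 1 ≤ N) :
    Integrable (fun v => 1 - polymer Q T ζ ω lam h N v (upEvent T ζ ε N)) P ∧
    ∫ v, (1 - polymer Q T ζ ω lam h N v (upEvent T ζ ε N)) ∂P
      ≤ bad K (rr P ω lam h) N ⌈min ε 1 * N / 2⌉₊ / Llow K N := by
  obtain ⟨hi, hle⟩ := num_int hT hK hω lam h hr1 ε hε N hN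
  have hL := Llow_pos hK N hN
  have hpt : ∀ v, 1 - polymer Q T ζ ω lam h N v (upEvent T ζ ε N)
      ≤ (∫ x in (upEvent T ζ ε N)ᶜ, weight T ζ ω lam h N v x ∂Q) / Llow K N := by
    intro v
    rw [pol_compl hT hω]
    exact div_le_div_of_nonneg_left (integral_nonneg (fun x => (weight_pos lam h N v x).le)) hL
      (part_lower hT hK hω lam h N v)
  have hnn : ∀ v, 0 ≤ 1 - polymer Q T ζ ω lam h N v (upEvent T ζ ε N) := by
    intro v
    rw [pol_compl hT hω]
    exact div_nonneg (integral_nonneg (fun x => (weight_pos lam h N v x).le))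
      (part_pos hT hω lam h N v).le
  have hint : Integrable (fun v => 1 - polymer Q T ζ ω lam h N v (upEvent T ζ ε N)) P := by
    apply (hi.div_const (Llow K N)).mono'
    · exact ((pol_meas hT hω lam h N _).const_sub 1).aestronglyMeasurable
    · refine ae_of_all _ (fun v => ?_)
      rw [Real.norm_eq_abs, abs_of_nonneg (hnn v)]
      exact hpt v
  refine ⟨hint, ?_⟩
  calc ∫ v, (1 - polymer Q T ζ ω lam h N v (upEvent T ζ ε N)) ∂P
      ≤ ∫ v, (∫ x in (upEvent T ζ ε N)ᶜ, weight T ζ ω lam h N v x ∂Q) / Llow K N ∂P :=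
        integral_mono hint (hi.div_const _) hpt
    _ = (∫ v, (∫ x in (upEvent T ζ ε N)ᶜ, weight T ζ ω lam h N v x ∂Q) ∂P) / Llow K N :=
        integral_div _ _
    _ ≤ _ := div_le_div_of_nonneg_right hle hL.le

lemma pol_tendsto0 (hT : RenewalOK Q K T ζ) (hK : KernelOK K α cK) (hω : ChargesOK P ω)
    (lam h : ℝ) (hr1 : rr P ω lam h < 1) (ε : ℝ) (hε : 0 < ε) :
    Tendsto (fun N : ℕ => ∫ v, (1 - polymer Q T ζ ω lam h N v (upEvent T ζ ε N)) ∂P)
      atTop (𝓝 0) := by
  have hb := bad_tendsto hK (rr P ω lam h) (rr_pos hω lam h) hr1 (min ε 1) (lt_min hε one_pos)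
    (min_le_right _ _)
  refine tendsto_of_tendsto_of_tendsto_of_le_of_le' tendsto_const_nhds hb ?_ ?_
  · refine Eventually.of_forall (fun N => integral_nonneg (fun v => ?_))
    simp only [Pi.zero_apply]
    rw [pol_compl hT hω]
    exact div_nonneg (integral_nonneg (fun x => (weight_pos lam h N v x).le))
      (part_pos hT hω lam h N v).le
  · filter_upwards [eventually_ge_atTop 1] with N hN
    exact (pol_L1 hT hK hω lam h hr1 ε hε N hN).2

lemma pol_tendsto1 (hT : RenewalOK Q K T ζ) (hK : KernelOK K α cK) (hω : ChargesOK P ω)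
    (lam h : ℝ) (hr1 : rr P ω lam h < 1) (ε : ℝ) (hε : 0 < ε) :
    Tendsto (fun N : ℕ => ∫ v, polymer Q T ζ ω lam h N v (upEvent T ζ ε N) ∂P)
      atTop (𝓝 1) := by
  have h0 := (pol_tendsto0 hT hK hω lam h hr1 ε hε).const_sub 1
  rw [sub_zero] at h0
  refine h0.congr' ?_
  filter_upwards [eventually_ge_atTop 1] with N hN
  have hi := (pol_L1 hT hK hω lam h hr1 ε hε N hN).1
  have hi2 : Integrable (fun v => polymer Q T ζ ω lam h N v (upEvent T ζ ε N)) P := by
    have := (integrable_const (1:ℝ)).sub hi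
    refine this.congr (ae_of_all _ (fun v => ?_))
    simp
  rw [integral_sub (integrable_const _) hi2]
  simp

lemma pol_subseq (hT : RenewalOK Q K T ζ) (hK : KernelOK K α cK) (hω : ChargesOK P ω)
    (lam h : ℝ) (hr1 : rr P ω lam h < 1) (ε : ℝ) (hε : 0 < ε) :
    ∃ ns : ℕ → ℕ, StrictMono ns ∧ ∀ᵐ v ∂P,
      Tendsto (fun k => polymer Q T ζ ω lam h (ns k) v (upEvent T ζ ε (ns k))) atTop (𝓝 1) := by
  have hm : TendstoInMeasure P (fun N v => polymer Q T ζ ω lam h N v (upEvent T ζ ε N)) atTop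
      (fun _ => 1) := by
    apply tendstoInMeasure_of_tendsto_eLpNorm (p := 1) one_ne_zero
    · intro N
      exact (pol_meas hT hω lam h N _).aestronglyMeasurable
    · exact aestronglyMeasurable_const
    · have h0 := (ENNReal.tendsto_ofReal (pol_tendsto0 hT hK hω lam h hr1 ε hε))
      rw [ENNReal.ofReal_zero] at h0
      refine h0.congr' ?_
      filter_upwards [eventually_ge_atTop 1] with N hN
      have hi := (pol_L1 hT hK hω lam h hr1 ε hε N hN).1
      have hnn : ∀ v, 0 ≤ 1 - polymer Q T ζ ω lam h N v (upEvent T ζ ε N) := by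
        intro v
        rw [pol_compl hT hω]
        exact div_nonneg (integral_nonneg (fun x => (weight_pos lam h N v x).le))
          (part_pos hT hω lam h N v).le
      rw [eLpNorm_one_eq_lintegral_enorm, ofReal_integral_eq_lintegral_ofReal hi
        (ae_of_all _ hnn)]
      apply lintegral_congr
      intro v
      simp only [Pi.sub_apply]
      rw [← ofReal_norm, Real.norm_eq_abs, abs_sub_comm, abs_of_nonneg (hnn v)]
  exact hm.exists_seq_tendsto_ae

lemma log_part (hT : RenewalOK Q K T ζ) (hω : ChargesOK P ω)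
    (lam h : ℝ) (hr : rr P ω lam h ≤ 1) (N : ℕ) (c : ℝ) (hc : 0 < c)
    (hcl : ∀ v, c ≤ partFun Q T ζ ω lam h N v) :
    Integrable (fun v => Real.log (partFun Q T ζ ω lam h N v)) P ∧
    ∫ v, Real.log (partFun Q T ζ ω lam h N v) ∂P ≤ 0 ∧
    Real.log c ≤ ∫ v, Real.log (partFun Q T ζ ω lam h N v) ∂P := by
  obtain ⟨hZi, hZ1⟩ := part_int hT hω lam h hr N
  have hup : ∀ v, Real.log (partFun Q T ζ ω lam h N v) ≤ partFun Q T ζ ω lam h N v - 1 := by
    intro v
    exact Real.log_le_sub_one_of_pos (part_pos hT hω lam h N v)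
  have hlo : ∀ v, Real.log c ≤ Real.log (partFun Q T ζ ω lam h N v) := by
    intro v
    exact Real.log_le_log hc (hcl v)
  have hint : Integrable (fun v => Real.log (partFun Q T ζ ω lam h N v)) P := by
    apply ((hZi.add (integrable_const |Real.log c|))).mono'
    · exact (Real.measurable_log.comp (meas_part hT hω lam h N)).aestronglyMeasurable
    · refine ae_of_all _ (fun v => ?_)
      simp only [Pi.add_apply]
      rw [Real.norm_eq_abs, abs_le]
      have h1 := hup v
      have h2 := hlo v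
      have h3 := part_pos hT hω lam h N v
      have h4 := neg_abs_le (Real.log c)
      have h5 := abs_nonneg (Real.log c)
      constructor
      · linarith
      · linarith
  refine ⟨hint, ?_, ?_⟩
  · have := integral_mono hint (hZi.sub (integrable_const 1)) hup
    refine this.trans ?_
    simp only [Pi.sub_apply]
    rw [integral_sub hZi (integrable_const 1)]
    simp
    exact hZ1
  · have := integral_mono (integrable_const (Real.log c)) hint hlo
    simpa using this

lemma mem_deloc (hT : RenewalOK Q K T ζ) (hK : KernelOK K α cK) (hω : ChargesOK P ω)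
    (lam h : ℝ) (hl : 0 ≤ lam) (hh : 0 ≤ h) (hr : rr P ω lam h ≤ 1) :
    (lam, h) ∈ Deloc Q P T ζ ω := by
  refine ⟨hl, hh, ?_, ?_⟩
  · intro N
    rcases Nat.eq_zero_or_pos N with h0 | hp
    · subst h0
      have : (fun v => Real.log (partFun Q T ζ ω lam h 0 v)) = fun _ => 0 := by
        funext v
        simp [partFun, weight]
      simp only [this]
      exact integrable_zero _ _ _
    · exact (log_part hT hω lam h hr N (Llow K N) (Llow_pos hK N hp)
        (part_lower hT hK hω lam h N)).1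
  · obtain ⟨c, hc0, hc⟩ := Llow_lower hK
    have hα := hK.alpha_pos
    have hlow : Tendsto (fun N : ℕ => (Real.log c - α * Real.log N) / N) atTop (𝓝 0) := by
      have h1 : Tendsto (fun N : ℕ => Real.log c / (N:ℝ)) atTop (𝓝 0) :=
        tendsto_const_div_atTop_nhds_zero_nat _
      have h2 : Tendsto (fun N : ℕ => Real.log (N:ℝ) / N) atTop (𝓝 0) := by
        have := Real.tendsto_pow_log_div_mul_add_atTop 1 0 1 one_ne_zero
        simp only [pow_one, one_mul, add_zero] at this
        exact this.comp tendsto_natCast_atTop_atTop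
      have h3 := h1.sub (h2.const_mul α)
      rw [mul_zero, sub_zero] at h3
      refine h3.congr (fun N => ?_)
      ring
    refine tendsto_of_tendsto_of_tendsto_of_le_of_le' hlow tendsto_const_nhds ?_ ?_
    · filter_upwards [hc, eventually_ge_atTop 1] with N hcN hN
      have hNR : (0:ℝ) < N := by exact_mod_cast hN
      have h1 := (log_part hT hω lam h hr N (Llow K N) (Llow_pos hK N hN)
        (part_lower hT hK hω lam h N)).2.2
      apply div_le_div_of_nonneg_right _ hNR.le
      refine le_trans ?_ h1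
      have h2 : Real.log (c * (1 / (N:ℝ)) ^ α) ≤ Real.log (Llow K N) :=
        Real.log_le_log (by positivity) hcN
      rw [Real.log_mul hc0.ne' (by positivity), Real.log_rpow (by positivity), one_div,
        Real.log_inv] at h2
      linarith
    · filter_upwards [eventually_ge_atTop 1] with N hN
      have hNR : (0:ℝ) < N := by exact_mod_cast hN
      have h1 := (log_part hT hω lam h hr N (Llow K N) (Llow_pos hK N hN)
        (part_lower hT hK hω lam h N)).2.1
      exact div_nonpos_of_nonpos_of_nonneg h1 hNR.le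

lemma rr_eq (lam h : ℝ) : rr P ω lam h = Real.exp (-2 * lam * h) * mgf (ω 0) P (-2 * lam) := by
  unfold rr mgf
  rw [← integral_const_mul]
  apply integral_congr_ae
  refine ae_of_all _ (fun v => ?_)
  simp only
  rw [← Real.exp_add]
  congr 1
  ring

lemma rr_cont (hω : ChargesOK P ω) : Continuous (fun p : ℝ × ℝ => rr P ω p.1 p.2) := by
  simp_rw [rr_eq]
  have := continuous_mgf (X := ω 0) (μ := P) hω.expint
  fun_prop

lemma int_charge (hω : ChargesOK P ω) : Integrable (ω 0) P := by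
  apply ((hω.expint 1).add (hω.expint (-1))).mono' (hω.meas 0).aestronglyMeasurable
  refine ae_of_all _ (fun v => ?_)
  simp only [Pi.add_apply]
  rw [Real.norm_eq_abs, abs_le]
  have h1 := Real.add_one_le_exp (1 * ω 0 v)
  have h2 := Real.add_one_le_exp (-1 * ω 0 v)
  have h3 := Real.exp_pos (1 * ω 0 v)
  have h4 := Real.exp_pos (-1 * ω 0 v)
  constructor <;> linarith

lemma mgf_ge_one (hω : ChargesOK P ω) (t : ℝ) : 1 ≤ mgf (ω 0) P t := by
  unfold mgf
  have hi := int_charge hω
  have h := integral_mono (f := fun v => t * ω 0 v + 1) ((hi.const_mul t).add (integrable_const 1))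
    (hω.expint t) (fun v => Real.add_one_le_exp _)
  rw [integral_add (hi.const_mul t) (integrable_const 1), integral_const_mul, hω.mean] at h
  simpa using h

lemma h_pos (hω : ChargesOK P ω) (lam h : ℝ) (hl : 0 < lam) (hr : rr P ω lam h < 1) : 0 < h := by
  by_contra hh
  push Not at hh
  rw [rr_eq] at hr
  have h1 := mgf_ge_one hω (-2 * lam)
  have h2 : 1 ≤ Real.exp (-2 * lam * h) := by
    apply Real.one_le_exp
    nlinarith
  nlinarith

lemma mem_interior_deloc (hT : RenewalOK Q K T ζ) (hK : KernelOK K α cK) (hω : ChargesOK P ω)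
    (lam h : ℝ) (hl : 0 < lam) (hr : rr P ω lam h < 1) :
    (lam, h) ∈ interior (Deloc Q P T ζ ω) := by
  rw [mem_interior]
  refine ⟨{p : ℝ × ℝ | 0 < p.1 ∧ 0 < p.2 ∧ rr P ω p.1 p.2 < 1}, ?_, ?_, ?_⟩
  · rintro ⟨l, h'⟩ ⟨h1, h2, h3⟩
    exact mem_deloc hT hK hω l h' h1.le h2.le h3.le
  · exact (isOpen_lt continuous_const continuous_fst).inter
      ((isOpen_lt continuous_const continuous_snd).inter (isOpen_lt (rr_cont hω) continuous_const))
  · exact ⟨hl, h_pos hω lam h hl hr, hr⟩

lemma exists_h0 (hω : ChargesOK P ω) (lam : ℝ) (hl : 0 < lam) :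
    ∃ h0 : ℝ, ∀ h, h0 ≤ h → rr P ω lam h < 1 := by
  have hm := mgf_ge_one hω (-2 * lam)
  set m := mgf (ω 0) P (-2 * lam) with hmdef
  refine ⟨m / (2 * lam), fun h hh => ?_⟩
  rw [rr_eq, ← hmdef]
  have h1 : m ≤ 2 * lam * h := by
    rw [div_le_iff₀ (by positivity)] at hh
    linarith
  have h2 : 2 * lam * h + 1 ≤ Real.exp (2 * lam * h) := Real.add_one_le_exp _
  have h3 : Real.exp (-2 * lam * h) * Real.exp (2 * lam * h) = 1 := by
    rw [← Real.exp_add]
    have : -2 * lam * h + 2 * lam * h = 0 := by ring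
    rw [this, Real.exp_zero]
  have h4 := Real.exp_pos (-2 * lam * h)
  calc Real.exp (-2 * lam * h) * m < Real.exp (-2 * lam * h) * Real.exp (2 * lam * h) :=
        mul_lt_mul_of_pos_left (by linarith) h4
    _ = 1 := h3

end main

end Pool.Agent.V11333.Cop
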