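import Pool.Agent.V11333.Cone9

/-!
# The two-sided law for the sums over the primes, from the continuation along the real axis
-/

set_option autoImplicit false

open MeasureTheory Filter Topology Set Complex
open Pool.Agent.TH942.LS (Dat P P_le Cont)
open Pool.Agent.TH942.SL Pool.Agent.TH942.ES
open Pool.Agent.W263.BSD (LInt lap lapC lapC_ofReal lap_nonneg lapC_differentiableAt ell ell_meas
  ell_nonneg ell_lap_limit ell_LInt ell_mono ell_le log_le_ell ex ex_LInt ex_lap ex_meas lap_add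
  lap_const_mul)
open Pool.Agent.V11333.OneSide (DataLoc transform comp_an comp_GG real_value an_ofReal
  cont_of_upper)

namespace Pool.Agent.V11333.Cone

variable {X : Type} {d : ℕ} {N : X → ℕ} {α : X → Fin d → ℂ}

/-- **The law for the sums over the primes.** -/
theorem law_primes (E : Sys N α) {H : ℂ → ℂ} (hH : ∀ x : ℝ, 0 ≤ x → AnalyticAt ℂ H x)
    (hHe : ∀ x : ℝ, 1 / 2 < x → H x = LE N α x) {m : ℕ} (hm : analyticOrderAt H 0 = m)
    {G : ℂ → ℂ} (q1 : ∀ s : ℂ, 0 < s.re → DifferentiableAt ℂ G s ∧ G s ≠ 0)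
    (q2 : ∀ s : ℂ, 1 / 2 < s.re → G s = LE N α s) {ρ ρ' : ℝ} (hρ : 1 < ρ) (hρ' : ρ < ρ') :
    ∃ C : ℝ, ∀ᶠ Y : ℝ in atTop, |SrE N α ρ ρ' Y - m * Real.log (Real.log Y)| ≤ C := by
  have hH0 : AnalyticAt ℂ H 0 := by simpa using hH 0 le_rfl
  obtain ⟨hf, hf1, hf2, hf3⟩ := (hH0.analyticOrderAt_eq_natCast).1 hm
  have hHh : ∀ᶠ s : ℂ in 𝓝 0, H s = s ^ m * hf s := by
    filter_upwards [hf3] with s hs
    rw [hs, sub_zero, smul_eq_mul]
  have ho : IsOpen {s : ℂ | 0 < s.re} := isOpen_lt continuous_const Complex.continuous_re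
  have hGan : ∀ x : ℝ, 0 < x → AnalyticAt ℂ G x := fun x hx => by
    have h1 : DifferentiableOn ℂ G {s : ℂ | 0 < s.re} := fun z hz =>
      (q1 z hz).1.differentiableWithinAt
    exact h1.analyticAt (ho.mem_nhds (by rwa [Set.mem_ofPred_eq, Complex.ofReal_re]))
  have hGH : ∀ x : ℝ, 0 < x → G x = H x := by
    have a1 : AnalyticOnNhd ℝ (fun x : ℝ => G x) (Ioi 0) := fun x hx => an_ofReal (hGan x hx)
    have a2 : AnalyticOnNhd ℝ (fun x : ℝ => H x) (Ioi 0) := fun x hx =>
      an_ofReal (hH x (le_of_lt hx))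
    have a3 := a1.eqOn_of_preconnected_of_eventuallyEq a2 isPreconnected_Ioi
      (Set.mem_Ioi.2 (one_pos : (0 : ℝ) < 1)) (by
        filter_upwards [lt_mem_nhds (show (1 / 2 : ℝ) < 1 by norm_num)] with x hx
        rw [hHe x hx, q2 _ (by rwa [Complex.ofReal_re])])
    exact fun x hx => a3 hx
  have hHd : ∀ᶠ s : ℂ in 𝓝 0, DifferentiableAt ℂ H s := by
    filter_upwards [hH0.eventually_analyticAt] with s hs
    exact hs.differentiableAt
  obtain ⟨ε, hε, hball⟩ := Metric.eventually_nhds_iff_ball.1 (hHd.and hHh)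
  set U : Set ℂ := {s : ℂ | 0 < s.re} ∩ Metric.ball 0 ε with hU
  have hUo : IsOpen U := ho.inter Metric.isOpen_ball
  have hUc : Convex ℝ U := (convex_halfSpace_re_gt 0).inter (convex_ball 0 ε)
  have hx : ((ε / 2 : ℝ) : ℂ) ∈ U := by
    refine ⟨by rw [Set.mem_ofPred_eq, Complex.ofReal_re]; positivity, ?_⟩
    rw [Metric.mem_ball, dist_zero_right, Complex.norm_real, Real.norm_eq_abs,
      abs_of_pos (by positivity)]
    linarith
  have heq : EqOn G H U := by
    refine eqOn_of_real hUo hUc.isPreconnected (fun s hs => (q1 s hs.1).1)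
      (fun s hs => (hball s hs.2).1) hx ?_
    filter_upwards [lt_mem_nhds (show 0 < ε / 2 by positivity)] with x hx
    exact hGH x hx
  -- the glued function
  set Ψ : ℂ → ℂ := fun s => if 0 < s.re then G s else H s with hΨ
  have hΨG : ∀ s : ℂ, 0 < s.re → Ψ s = G s := fun s hs => by
    rw [hΨ]
    simp only
    rw [if_pos hs]
  have hCon : Con N α Ψ :=
    { Ψd := fun s hs => by
        refine (q1 s hs).1.congr_of_eventuallyEq ?_
        filter_upwards [ho.mem_nhds hs] with z hz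
        exact hΨG z hz
      prod := fun s hs => by
        have h2 := E.hasProd hs
        rw [hΨG s (by linarith), q2 s hs]
        unfold Pool.Agent.TH942.ES.LE
        rw [h2.tprod_eq]
        exact h2 }
  have hord : Pool.Agent.W263.BSD.OrdZero Ψ m := by
    refine ⟨hf, hf1, hf2, ?_⟩
    filter_upwards [Metric.ball_mem_nhds (0 : ℂ) hε] with s hs
    have e1 := (hball s hs).2
    by_cases h0 : 0 < s.re
    · rw [hΨG s h0, heq ⟨h0, hs⟩, e1]
    · rw [hΨ]
      simp only
      rw [if_neg h0, e1]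
  obtain ⟨C, hC, h5⟩ := E.Sr_up hCon hρ hρ' hord fun s hs1 hs2 => by
    have h6 : 0 < s.re := sect_re hρ ⟨hs1, hs2⟩
    rw [hΨG s h6]
    exact (q1 s h6).2
  exact ⟨C, h5⟩

end Pool.Agent.V11333.Cone
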