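import Pool.Agent.V11333.EVSys

/-!
# Pure systems of eigenvalues with real traces as systems of primes
-/

set_option autoImplicit false

namespace Pool.Agent.V11333.PS

open Filter Topology Set NumberField IsDedekindDomain
open Pool.Agent.TH942.ES
open Pool.Agent.V11288
open Pool.Agent.H921R2.TatePole (nm)
open Pool.Agent.V11333.EVS (ctr nal zv_eq nrm_two factor_eq pow_ctr)

variable {K : Type} [Field K] [NumberField K] {n N : ℕ}
variable {S : Set (HeightOneSpectrum (𝓞 K))}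

/-- `α` is a pure system of weight `i` with real traces -/
def Pure (i : ℕ) (α : S → Fin N → ℂ) : Prop :=
  (∀ v j, ‖α v j‖ ≤ (nm v.1 : ℝ) ^ ((i : ℝ) / 2)) ∧ ∀ v k, (∑ j, α v j ^ k).im = 0

theorem norm_lt {i : ℕ} {α : S → Fin N → ℂ} (h : Pure i α) (v : S) (j : Fin N) :
    ‖α v j * ((((nm v.1 : ℝ) ^ ctr i)⁻¹ : ℝ) : ℂ)‖ < 1 := by
  have h2 := nrm_two v.1
  have h0 : (0 : ℝ) < nm v.1 := by linarith
  have h1 := h.1 v j
  rw [norm_mul, Complex.norm_real, Real.norm_eq_abs, abs_of_pos (by positivity)]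
  have h3 : (nm v.1 : ℝ) ^ ((i : ℝ) / 2) * ((nm v.1 : ℝ) ^ ctr i)⁻¹ < 1 := by
    rw [← Real.rpow_neg h0.le, ← Real.rpow_add h0]
    refine Real.rpow_lt_one_of_one_lt_of_neg (by linarith) ?_
    unfold ctr
    linarith
  exact (mul_le_mul_of_nonneg_right h1 (by positivity)).trans_lt h3

theorem nal_norm {i : ℕ} {α : S → Fin N → ℂ} (h : Pure i α) (v : S) (j : Fin N) :
    ‖nal i α v j‖ ≤ 1 := by
  have h2 := nrm_two v.1
  have h0 : (0 : ℝ) < nm v.1 := by linarith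
  have h1 := h.1 v j
  unfold nal
  rw [norm_mul, Complex.norm_real, Real.norm_eq_abs, abs_of_pos (by positivity)]
  calc ‖α v j‖ * (nm v.1 : ℝ) ^ (-((i : ℝ) / 2)) ≤
        (nm v.1 : ℝ) ^ ((i : ℝ) / 2) * (nm v.1 : ℝ) ^ (-((i : ℝ) / 2)) := by gcongr
    _ = 1 := by rw [← Real.rpow_add h0, add_neg_cancel, Real.rpow_zero]

theorem pow_real {i : ℕ} {α : S → Fin N → ℂ} (h : Pure i α) (v : S) (c : ℝ) (k : ℕ) :
    (∑ j, (α v j * (c : ℂ)) ^ k).im = 0 := by
  simp only [mul_pow]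
  rw [← Finset.sum_mul, ← Complex.ofReal_pow, Complex.im_mul_ofReal, h.2 v k, zero_mul]

theorem log_real {i : ℕ} {α : S → Fin N → ℂ} (h : Pure i α) (v : S) :
    (∑ j, Complex.log (1 - α v j * ((((nm v.1 : ℝ) ^ ctr i)⁻¹ : ℝ) : ℂ))).im = 0 := by
  have h1 : HasSum (fun k : ℕ => ∑ j, (α v j * ((((nm v.1 : ℝ) ^ ctr i)⁻¹ : ℝ) : ℂ)) ^ k / k)
      (∑ j, -Complex.log (1 - α v j * ((((nm v.1 : ℝ) ^ ctr i)⁻¹ : ℝ) : ℂ))) :=
    hasSum_sum fun j _ => Complex.hasSum_taylorSeries_neg_log (norm_lt h v j)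
  have h2 := Complex.hasSum_im h1
  have h3 : ∀ k : ℕ, (∑ j, (α v j * ((((nm v.1 : ℝ) ^ ctr i)⁻¹ : ℝ) : ℂ)) ^ k / k).im = 0 := by
    intro k
    rw [← Finset.sum_div, ← Complex.ofReal_natCast, Complex.div_ofReal_im, pow_real h v, zero_div]
  simp only [h3] at h2
  have h4 := h2.unique hasSum_zero
  rw [Finset.sum_neg_distrib, Complex.neg_im, neg_eq_zero] at h4
  exact h4

theorem sys {i : ℕ} {α : S → Fin N → ℂ} (h : Pure i α) :
    Sys (fun v : S => nm v.1) (nal i α) :=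
  nf_sys (fun v => v ∈ S) (nal i α) (fun v j => nal_norm h v j) fun v => by
    have h1 : ∀ j, nal i α v j / ((√(((nm v.1 : ℕ) : ℝ)) : ℝ) : ℂ) =
        α v j * ((((nm v.1 : ℝ) ^ ctr i)⁻¹ : ℝ) : ℂ) := fun j => zv_eq i α v j
    simp only [h1]
    exact log_real h v

/-- the local term at the centre -/
theorem cv_log {i : ℕ} {α : S → Fin N → ℂ} (h : Pure i α) (v : S) :
    cv (fun v : S => nm v.1) (nal i α) v =
      Real.log ‖∏ j, (1 - α v j * (nm v.1 : ℂ) ^ (-(ctr i : ℂ)))‖ := by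
  unfold cv
  rw [norm_prod, Real.log_prod, Complex.re_sum]
  · refine Finset.sum_congr rfl fun j _ => ?_
    rw [Complex.log_re, zv_eq, pow_ctr]
  · intro j _
    rw [norm_ne_zero_iff, pow_ctr]
    intro h0
    have h1 := norm_lt h v j
    rw [← sub_eq_zero.1 h0, norm_one] at h1
    exact lt_irrefl _ h1

theorem hasProd_iff {i : ℕ} {α : S → Fin N → ℂ} (h : Pure i α) {s : ℂ}
    (hs : (i : ℝ) / 2 + 1 < s.re) (y : ℂ) :
    HasProd (fun v : S => ∏ j, (1 - α v j * (nm v.1 : ℂ) ^ (-s))⁻¹) y ↔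
      y = LE (fun v : S => nm v.1) (nal i α) (s - ctr i) := by
  have h1 : 1 / 2 < (s - ctr i).re := by
    rw [Complex.sub_re, Complex.ofReal_re]
    unfold ctr
    linarith
  have h2 := (sys h).hasProd h1
  rw [factor_eq i α s]
  constructor
  · intro h
    exact h.tprod_eq.symm
  · rintro rfl
    unfold Pool.Agent.TH942.ES.LE
    rw [h2.tprod_eq]
    exact h2

/-- the eigenvalues of Frobenius on `H^i(X)` -/
theorem pure_of_frobenius {X : Set (MvPolynomial (Fin n) (𝓞 K))} {d i : ℕ} (hi : i ≤ 2 * d)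
    {α : S → Fin N → ℂ} (h : ∀ v, EV.IsFrobenius X d i v.1 (α v)) : Pure i α := by
  refine ⟨fun v j => ?_, fun v k => ?_⟩
  · have h1 : ‖α v j‖ = (nm v.1 : ℝ) ^ ((i : ℝ) / 2) := EV.norm' (h v) j
    exact h1.le
  · refine EV.real_sum hi (h v) (fun z => z ^ k) fun j => ?_
    rw [map_pow]

end Pool.Agent.V11333.PS
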