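import Mathlib

open MeasureTheory ProbabilityTheory Finset
open scoped ENNReal NNReal

namespace Pool.Agent.V11333.Slab

/-- a Gaussian law puts mass at most `(b-a)/√(2πv)` on an interval -/
lemma gauss_Icc (m : ℝ) {v : ℝ≥0} (hv : v ≠ 0) (a b : ℝ) :
    gaussianReal m v (Set.Icc a b) ≤ ENNReal.ofReal ((b - a) / Real.sqrt (2 * Real.pi * v)) := by
  rw [gaussianReal_apply m hv]
  have hvpos : (0:ℝ) < v := by
    rw [NNReal.coe_pos]; exact pos_iff_ne_zero.mpr hv
  have hs : 0 < Real.sqrt (2 * Real.pi * v) := Real.sqrt_pos.mpr (by positivity)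
  calc ∫⁻ x in Set.Icc a b, gaussianPDF m v x
      ≤ ∫⁻ _ in Set.Icc a b, ENNReal.ofReal (1 / Real.sqrt (2 * Real.pi * v)) := by
        apply lintegral_mono
        intro x
        unfold gaussianPDF
        apply ENNReal.ofReal_le_ofReal
        unfold gaussianPDFReal
        rw [one_div]
        apply mul_le_of_le_one_right (by positivity)
        apply Real.exp_le_one_iff.mpr
        apply div_nonpos_of_nonpos_of_nonneg
        · nlinarith [sq_nonneg (x - m)]
        · positivity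
    _ = ENNReal.ofReal (1 / Real.sqrt (2 * Real.pi * v)) * ENNReal.ofReal (b - a) := by
        rw [setLIntegral_const, Real.volume_Icc]
    _ = _ := by
        rw [← ENNReal.ofReal_mul (by positivity)]
        congr 1
        field_simp

/-- law of a unit linear functional of a Gaussian vector -/
lemma law_lin {ι : Type*} [Fintype ι] (v : ℝ≥0) (r : ι → ℝ) (hr : ∑ j, r j ^ 2 = 1) :
    (Measure.pi (fun _ : ι => gaussianReal 0 v)).map (fun a => ∑ j, r j * a j)
      = gaussianReal 0 v := by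
  have hmeas : Measurable (fun a : ι → ℝ => ∑ j, r j * a j) := by fun_prop
  have : IsProbabilityMeasure
      ((Measure.pi (fun _ : ι => gaussianReal 0 v)).map (fun a => ∑ j, r j * a j)) :=
    Measure.isProbabilityMeasure_map hmeas.aemeasurable
  apply Measure.ext_of_charFun
  ext t
  rw [charFun_gaussianReal, charFun_apply_real,
    integral_map hmeas.aemeasurable (by fun_prop)]
  have h1 : ∀ a : ι → ℝ, Complex.exp (t * ((∑ j, r j * a j : ℝ) : ℂ) * Complex.I)
      = ∏ j, Complex.exp (((t * r j : ℝ) : ℂ) * (a j : ℂ) * Complex.I) := by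
    intro a
    rw [← Complex.exp_sum]
    congr 1
    push_cast
    rw [Finset.mul_sum, Finset.sum_mul]
    apply Finset.sum_congr rfl
    intro j _
    ring
  simp_rw [h1]
  rw [integral_fintype_prod_eq_prod (f := fun j (x : ℝ) =>
    Complex.exp (((t * r j : ℝ) : ℂ) * (x : ℂ) * Complex.I))]
  simp_rw [← charFun_apply_real, charFun_gaussianReal]
  rw [← Complex.exp_sum]
  congr 1
  have h2 : ((∑ j, r j ^ 2 : ℝ) : ℂ) = 1 := by rw [hr]; norm_num
  push_cast at h2 ⊢
  simp only [mul_zero, zero_mul, zero_sub]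
  rw [Finset.sum_neg_distrib, ← Finset.sum_div]
  congr 2
  have h3 : ∀ j : ι, (v : ℂ) * ((t : ℂ) * (r j : ℂ)) ^ 2 = ((v : ℂ) * (t : ℂ) ^ 2) * (r j : ℂ) ^ 2 := by
    intro j; ring
  rw [Finset.sum_congr rfl (fun j _ => h3 j), ← Finset.mul_sum, h2, mul_one]

/-- slab estimate, unit normal -/
lemma slab_unit {ι : Type*} [Fintype ι] {v : ℝ≥0} (hv : v ≠ 0) (r : ι → ℝ)
    (hr : ∑ j, r j ^ 2 = 1) (b τ : ℝ) :
    (Measure.pi (fun _ : ι => gaussianReal 0 v)) {a | |(∑ j, r j * a j) + b| ≤ τ}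
      ≤ ENNReal.ofReal (2 * τ / Real.sqrt (2 * Real.pi * v)) := by
  have hmeas : Measurable (fun a : ι → ℝ => ∑ j, r j * a j) := by fun_prop
  have h1 : {a : ι → ℝ | |(∑ j, r j * a j) + b| ≤ τ}
      = (fun a : ι → ℝ => ∑ j, r j * a j) ⁻¹' (Set.Icc (-τ - b) (τ - b)) := by
    ext a
    simp only [Set.mem_ofPred_eq, Set.mem_preimage, Set.mem_Icc, abs_le]
    constructor
    · rintro ⟨h1, h2⟩; constructor <;> linarith
    · rintro ⟨h1, h2⟩; constructor <;> linarith
  rw [h1, ← Measure.map_apply hmeas measurableSet_Icc, law_lin v r hr]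
  refine (gauss_Icc 0 hv _ _).trans (ENNReal.ofReal_le_ofReal (le_of_eq ?_))
  congr 1
  ring

/-- slab estimate, arbitrary nonzero normal -/
lemma slab_gen {ι : Type*} [Fintype ι] {v : ℝ≥0} (hv : v ≠ 0) (r : ι → ℝ) (N : ℝ) (hN : 0 < N)
    (hr : ∑ j, r j ^ 2 = N ^ 2) (b τ : ℝ) :
    (Measure.pi (fun _ : ι => gaussianReal 0 v)) {a | |(∑ j, r j * a j) + b| ≤ τ * N}
      ≤ ENNReal.ofReal (2 * τ / Real.sqrt (2 * Real.pi * v)) := by
  have hr2 : ∑ j, (r j / N) ^ 2 = 1 := by
    simp_rw [div_pow]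
    rw [← Finset.sum_div, hr]
    field_simp
  have h := slab_unit hv (fun j => r j / N) hr2 (b / N) τ
  convert h using 2
  ext a
  simp only [Set.mem_ofPred_eq]
  have e : (∑ j, r j / N * a j) + b / N = ((∑ j, r j * a j) + b) / N := by
    rw [add_div, Finset.sum_div]
    congr 1
    apply Finset.sum_congr rfl
    intro j _
    ring
  rw [e, abs_div, abs_of_pos hN, div_le_iff₀ hN]

end Pool.Agent.V11333.Slab
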