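import Mathlib
import Pool.Agent.V11333.Slab

open MeasureTheory ProbabilityTheory Finset
open scoped ENNReal NNReal

namespace Pool.Agent.V11333.Cond

open Pool.Agent.V11333.Slab

lemma lint_pi_prod {ι : Type*} [Fintype ι] {X : ι → Type*} [∀ i, MeasurableSpace (X i)]
    (μ : ∀ i, Measure (X i)) [∀ i, IsProbabilityMeasure (μ i)] (f : ∀ i, X i → ℝ≥0∞)
    (hf : ∀ i, Measurable (f i)) :
    ∫⁻ G, ∏ i, f i (G i) ∂(Measure.pi μ) = ∏ i, ∫⁻ x, f i x ∂(μ i) := by
  have hind : iIndepFun (fun i (G : ∀ i, X i) => f i (G i)) (Measure.pi μ) :=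
    iIndepFun_pi (fun i => (hf i).aemeasurable)
  rw [lintegral_prod_eq_prod_lintegral_of_indepFun univ _ hind
    (fun i => (hf i).comp (measurable_pi_apply i))]
  apply Finset.prod_congr rfl
  intro i _
  exact (measurePreserving_eval μ i).lintegral_comp (hf i)

/-- `E exp(g²/4) ≤ √2` -/
lemma exp_sq_gauss : ∫⁻ g, ENNReal.ofReal (Real.exp (g ^ 2 / 4)) ∂(gaussianReal 0 1)
    = ENNReal.ofReal (Real.sqrt 2) := by
  rw [gaussianReal_of_var_ne_zero 0 one_ne_zero,
    lintegral_withDensity_eq_lintegral_mul _ (measurable_gaussianPDF 0 1) (by fun_prop)]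
  have h1 : ∀ g : ℝ, (gaussianPDF 0 1 * fun g => ENNReal.ofReal (Real.exp (g ^ 2 / 4))) g
      = ENNReal.ofReal ((Real.sqrt (2 * Real.pi))⁻¹ * Real.exp (-(1/4) * g ^ 2)) := by
    intro g
    simp only [Pi.mul_apply, gaussianPDF]
    rw [← ENNReal.ofReal_mul (gaussianPDFReal_nonneg 0 1 g)]
    congr 1
    unfold gaussianPDFReal
    simp only [NNReal.coe_one, mul_one, sub_zero]
    rw [mul_assoc, ← Real.exp_add]
    congr 2
    ring
  simp_rw [h1]
  rw [← ofReal_integral_eq_lintegral_ofReal]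
  · congr 1
    rw [integral_const_mul, integral_gaussian]
    rw [inv_mul_eq_div, ← Real.sqrt_div' _ (by positivity)]
    congr 1
    field_simp
    norm_num
  · exact (integrable_exp_neg_mul_sq (by norm_num : (0:ℝ) < 1/4)).const_mul _
  · exact ae_of_all _ (fun g => by positivity)

/-- one row -/
lemma row_exp {n : ℕ} (y : Fin n → ℝ) (hy : ∑ j, y j ^ 2 ≤ 9 / 4) :
    ∫⁻ g : Fin n → ℝ, ENNReal.ofReal (Real.exp ((∑ j, g j * y j) ^ 2 / 9))
      ∂(Measure.pi (fun _ => gaussianReal 0 1)) ≤ ENNReal.ofReal (Real.sqrt 2) := by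
  by_cases h0 : ∑ j, y j ^ 2 = 0
  · have hy0 : ∀ j, y j = 0 := by
      intro j
      rw [Finset.sum_eq_zero_iff_of_nonneg (fun j _ => sq_nonneg _)] at h0
      exact pow_eq_zero_iff (two_ne_zero) |>.mp (h0 j (mem_univ j))
    simp only [hy0, mul_zero, Finset.sum_const_zero]
    norm_num
  · have hpos : 0 < ∑ j, y j ^ 2 :=
      lt_of_le_of_ne (Finset.sum_nonneg (fun j _ => sq_nonneg _)) (Ne.symm h0)
    set s := Real.sqrt (∑ j, y j ^ 2) with hs
    have hs0 : 0 < s := Real.sqrt_pos.mpr hpos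
    have hs2 : s ^ 2 = ∑ j, y j ^ 2 := Real.sq_sqrt hpos.le
    have hr : ∑ j, (y j / s) ^ 2 = 1 := by
      simp_rw [div_pow]
      rw [← Finset.sum_div, hs2]
      field_simp
    have hlaw := law_lin (1 : ℝ≥0) (fun j => y j / s) hr
    have hmeas : Measurable (fun a : Fin n → ℝ => ∑ j, y j / s * a j) := by fun_prop
    calc ∫⁻ g : Fin n → ℝ, ENNReal.ofReal (Real.exp ((∑ j, g j * y j) ^ 2 / 9))
          ∂(Measure.pi (fun _ => gaussianReal 0 1))
        ≤ ∫⁻ g : Fin n → ℝ, ENNReal.ofReal (Real.exp ((∑ j, y j / s * g j) ^ 2 / 4))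
          ∂(Measure.pi (fun _ => gaussianReal 0 1)) := by
          apply lintegral_mono
          intro g
          apply ENNReal.ofReal_le_ofReal
          apply Real.exp_le_exp.mpr
          have e : ∑ j, g j * y j = s * ∑ j, y j / s * g j := by
            rw [Finset.mul_sum]
            apply Finset.sum_congr rfl
            intro j _
            field_simp
          rw [e, mul_pow]
          have h1 : s ^ 2 ≤ 9 / 4 := by rw [hs2]; exact hy
          have h2 := mul_le_mul_of_nonneg_right h1 (sq_nonneg (∑ j, y j / s * g j))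
          linarith
      _ = ∫⁻ t, ENNReal.ofReal (Real.exp (t ^ 2 / 4)) ∂(gaussianReal 0 1) := by
          conv_rhs => rw [← hlaw]
          rw [lintegral_map (by fun_prop) hmeas]
      _ = _ := exp_sq_gauss

/-- Gaussian matrix law -/
noncomputable abbrev gm (n : ℕ) : Measure (Fin n → Fin n → ℝ) :=
  Measure.pi (fun _ : Fin n => Measure.pi (fun _ : Fin n => gaussianReal 0 1))

/-- operator norm -/
noncomputable def nrm {n : ℕ} (M : Matrix (Fin n) (Fin n) ℝ) : ℝ :=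
  ‖Matrix.toEuclideanCLM (𝕜 := ℝ) M‖

lemma nrm_apply {n : ℕ} (M : Matrix (Fin n) (Fin n) ℝ) (y : EuclideanSpace ℝ (Fin n)) :
    ‖Matrix.toEuclideanCLM (𝕜 := ℝ) M y‖ ^ 2 = ∑ i, (∑ j, M i j * y j) ^ 2 := by
  rw [EuclideanSpace.real_norm_sq_eq]
  apply Finset.sum_congr rfl
  intro i _
  congr 1

lemma mat_exp {n : ℕ} (y : EuclideanSpace ℝ (Fin n)) (hy : ‖y‖ ≤ 3 / 2) :
    ∫⁻ G, ENNReal.ofReal (Real.exp (‖Matrix.toEuclideanCLM (𝕜 := ℝ) (Matrix.of G) y‖ ^ 2 / 9))
      ∂(gm n) ≤ ENNReal.ofReal (Real.sqrt 2) ^ n := by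
  have h1 : ∀ G : Fin n → Fin n → ℝ,
      ENNReal.ofReal (Real.exp (‖Matrix.toEuclideanCLM (𝕜 := ℝ) (Matrix.of G) y‖ ^ 2 / 9))
      = ∏ i, ENNReal.ofReal (Real.exp ((∑ j, G i j * y j) ^ 2 / 9)) := by
    intro G
    rw [nrm_apply, ← ENNReal.ofReal_prod_of_nonneg (fun i _ => (Real.exp_pos _).le),
      ← Real.exp_sum, Finset.sum_div]
    rfl
  simp_rw [h1]
  rw [lint_pi_prod (fun _ : Fin n => Measure.pi (fun _ : Fin n => gaussianReal 0 1))
    (fun _ g => ENNReal.ofReal (Real.exp ((∑ j, g j * y j) ^ 2 / 9))) (fun i => by fun_prop)]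
  have hy2 : ∑ j, y j ^ 2 ≤ 9 / 4 := by
    rw [← EuclideanSpace.real_norm_sq_eq]
    have := norm_nonneg y
    nlinarith
  calc ∏ _i : Fin n, ∫⁻ g : Fin n → ℝ, ENNReal.ofReal (Real.exp ((∑ j, g j * y j) ^ 2 / 9))
          ∂(Measure.pi (fun _ : Fin n => gaussianReal 0 1))
      ≤ ∏ _i : Fin n, ENNReal.ofReal (Real.sqrt 2) :=
        Finset.prod_le_prod' (fun i _ => row_exp _ hy2)
    _ = _ := by simp

lemma clm_meas {n : ℕ} : Continuous (fun G : Fin n → Fin n → ℝ =>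
    Matrix.toEuclideanCLM (𝕜 := ℝ) (Matrix.of G)) := by
  let L : (Fin n → Fin n → ℝ) →ₗ[ℝ] (EuclideanSpace ℝ (Fin n) →L[ℝ] EuclideanSpace ℝ (Fin n)) :=
    { toFun := fun G => Matrix.toEuclideanCLM (𝕜 := ℝ) (Matrix.of G)
      map_add' := by intro a b; exact map_add (Matrix.toEuclideanCLM (𝕜 := ℝ)) _ _
      map_smul' := by intro c a; exact map_smul (Matrix.toEuclideanCLM (𝕜 := ℝ)) c _ }
  exact L.continuous_of_finiteDimensional

/-- `E exp(‖G‖²/144) ≤ (3√2)^n` -/
lemma norm_exp {n : ℕ} (hn : 1 ≤ n) :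
    ∫⁻ G, ENNReal.ofReal (Real.exp (nrm (Matrix.of G) ^ 2 / 144)) ∂(gm n)
      ≤ ENNReal.ofReal ((3 * Real.sqrt 2) ^ n) := by
  have : Nonempty (Fin n) := ⟨⟨0, hn⟩⟩
  have : Nontrivial (EuclideanSpace ℝ (Fin n)) := by infer_instance
  set E := EuclideanSpace ℝ (Fin n) with hE
  set B : Set E := Metric.ball 0 (3/2) with hB
  have hvolB : (volume : Measure E) B ≠ 0 := (Metric.measure_ball_pos volume 0 (by norm_num)).ne'
  have hvolB' : (volume : Measure E) B ≠ ∞ := measure_ball_lt_top.ne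
  -- pointwise estimate
  have hpt : ∀ G : Fin n → Fin n → ℝ,
      ENNReal.ofReal (Real.exp (nrm (Matrix.of G) ^ 2 / 144)) * volume B
      ≤ ENNReal.ofReal (3 ^ n) * ∫⁻ y in B,
        ENNReal.ofReal (Real.exp (‖Matrix.toEuclideanCLM (𝕜 := ℝ) (Matrix.of G) y‖ ^ 2 / 9)) := by
    intro G
    set f := Matrix.toEuclideanCLM (𝕜 := ℝ) (Matrix.of G) with hf
    obtain ⟨x, hx1, hx2⟩ : ∃ x : E, ‖x‖ ≤ 1 ∧ 3 / 4 * ‖f‖ ≤ ‖f x‖ := by
      by_cases h0 : ‖f‖ = 0
      · exact ⟨0, by simp, by simp [h0]⟩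
      · have hpos : 0 < ‖f‖ := lt_of_le_of_ne (norm_nonneg _) (Ne.symm h0)
        obtain ⟨x, hx1, hx2⟩ := f.exists_lt_apply_of_lt_opNorm (show 3 / 4 * ‖f‖ < ‖f‖ by linarith)
        exact ⟨x, hx1.le, hx2.le⟩
    have hsub : Metric.ball x (1/2) ⊆ B := by
      intro y hy
      rw [hB, mem_ball_zero_iff]
      rw [mem_ball_iff_norm] at hy
      have := norm_le_norm_add_norm_sub x y
      have h2 : ‖x - y‖ = ‖y - x‖ := norm_sub_rev _ _
      linarith
    have hval : ∀ y ∈ Metric.ball x (1/2), ENNReal.ofReal (Real.exp (nrm (Matrix.of G) ^ 2 / 144))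
        ≤ ENNReal.ofReal (Real.exp (‖f y‖ ^ 2 / 9)) := by
      intro y hy
      rw [mem_ball_iff_norm] at hy
      apply ENNReal.ofReal_le_ofReal
      apply Real.exp_le_exp.mpr
      have h1 : ‖f x‖ ≤ ‖f y‖ + ‖f (x - y)‖ := by
        rw [map_sub]
        exact norm_le_norm_add_norm_sub' _ _
      have h2 : ‖f (x - y)‖ ≤ ‖f‖ * (1/2) := by
        refine (f.le_opNorm _).trans (mul_le_mul_of_nonneg_left ?_ (norm_nonneg _))
        rw [norm_sub_rev]; exact hy.le
      have h3 : ‖f‖ / 4 ≤ ‖f y‖ := by linarith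
      have h4 : nrm (Matrix.of G) = ‖f‖ := rfl
      rw [h4]
      have h5 := pow_le_pow_left₀ (by positivity) h3 2
      nlinarith
    have hvol : (volume : Measure E) B = ENNReal.ofReal (3 ^ n) * volume (Metric.ball x (1/2)) := by
      have h1 := Measure.addHaar_ball_mul_of_pos (volume : Measure E) (0:E) (show (0:ℝ) < 3 by norm_num) (1/2)
      have h2 : (3:ℝ) * (1/2) = 3 / 2 := by norm_num
      have h3 : Module.finrank ℝ E = n := finrank_euclideanSpace_fin
      rw [h2, h3] at h1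
      rw [hB, h1, Measure.addHaar_ball_center volume x (1/2)]
    rw [hvol, ← mul_assoc, mul_comm (ENNReal.ofReal (Real.exp _)) (ENNReal.ofReal (3 ^ n)), mul_assoc]
    apply mul_le_mul_right
    calc ENNReal.ofReal (Real.exp (nrm (Matrix.of G) ^ 2 / 144)) * volume (Metric.ball x (1/2))
        = ∫⁻ _ in Metric.ball x (1/2), ENNReal.ofReal (Real.exp (nrm (Matrix.of G) ^ 2 / 144)) := by
          rw [setLIntegral_const]
      _ ≤ ∫⁻ y in Metric.ball x (1/2), ENNReal.ofReal (Real.exp (‖f y‖ ^ 2 / 9)) :=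
          setLIntegral_mono' measurableSet_ball hval
      _ ≤ ∫⁻ y in B, ENNReal.ofReal (Real.exp (‖f y‖ ^ 2 / 9)) := lintegral_mono_set hsub
  have hcont : Continuous (fun q : (Fin n → Fin n → ℝ) × E =>
      Matrix.toEuclideanCLM (𝕜 := ℝ) (Matrix.of q.1) q.2) :=
    (clm_meas.comp continuous_fst).clm_apply continuous_snd
  have hnrm : Measurable (fun G : Fin n → Fin n → ℝ =>
      ENNReal.ofReal (Real.exp (nrm (Matrix.of G) ^ 2 / 144))) := by
    have : Continuous (fun G : Fin n → Fin n → ℝ => nrm (Matrix.of G)) := clm_meas.norm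
    exact (((this.pow 2).div_const 144).rexp).measurable.ennreal_ofReal
  have hmain : (∫⁻ G, ENNReal.ofReal (Real.exp (nrm (Matrix.of G) ^ 2 / 144)) ∂(gm n)) * volume B
      ≤ ENNReal.ofReal ((3 * Real.sqrt 2) ^ n) * volume B := by
    rw [← lintegral_mul_const _ hnrm]
    calc ∫⁻ G, ENNReal.ofReal (Real.exp (nrm (Matrix.of G) ^ 2 / 144)) * volume B ∂(gm n)
        ≤ ∫⁻ G, (ENNReal.ofReal (3 ^ n) * ∫⁻ y in B,
          ENNReal.ofReal (Real.exp (‖Matrix.toEuclideanCLM (𝕜 := ℝ) (Matrix.of G) y‖ ^ 2 / 9)))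
          ∂(gm n) := lintegral_mono hpt
      _ = ENNReal.ofReal (3 ^ n) * ∫⁻ y in B, ∫⁻ G,
          ENNReal.ofReal (Real.exp (‖Matrix.toEuclideanCLM (𝕜 := ℝ) (Matrix.of G) y‖ ^ 2 / 9))
          ∂(gm n) := by
          rw [lintegral_const_mul' _ _ ENNReal.ofReal_ne_top, lintegral_lintegral_swap]
          have : Measurable (fun q : (Fin n → Fin n → ℝ) × E =>
            ENNReal.ofReal (Real.exp (‖Matrix.toEuclideanCLM (𝕜 := ℝ) (Matrix.of q.1) q.2‖ ^ 2 / 9))) :=
            ((hcont.norm.pow 2).div_const 9).rexp.measurable.ennreal_ofReal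
          exact this.aemeasurable
      _ ≤ ENNReal.ofReal (3 ^ n) * ∫⁻ y in B, ENNReal.ofReal (Real.sqrt 2) ^ n := by
          apply mul_le_mul_right
          apply setLIntegral_mono' measurableSet_ball
          intro y hy
          rw [mem_ball_zero_iff] at hy
          exact mat_exp y hy.le
      _ = _ := by
          rw [setLIntegral_const, ← mul_assoc]
          congr 1
          rw [mul_pow, ENNReal.ofReal_mul (by positivity), ← ENNReal.ofReal_pow (Real.sqrt_nonneg _)]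
  exact (ENNReal.mul_le_mul_iff_left hvolB hvolB').mp hmain

end Pool.Agent.V11333.Cond
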