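import Mathlib
import Pool.Agent.V11333.Slab

open MeasureTheory ProbabilityTheory Finset
open scoped ENNReal NNReal

namespace Pool.Agent.V11333.GRot

open Pool.Agent.V11333.Slab

/-- Gaussian vector law -/
noncomputable abbrev gv (ι : Type*) [Fintype ι] : Measure (ι → ℝ) :=
  Measure.pi (fun _ : ι => gaussianReal 0 1)

/-- Gaussian matrix law -/
noncomputable abbrev gmm (ι κ : Type*) [Fintype ι] [Fintype κ] : Measure (ι → κ → ℝ) :=
  Measure.pi (fun _ : ι => gv κ)

lemma cf_gv {ι : Type*} [Fintype ι] (c : ι → ℝ) :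
    ∫ a, Complex.exp (((∑ j, c j * a j : ℝ) : ℂ) * Complex.I) ∂(gv ι)
      = Complex.exp (-(((∑ j, c j ^ 2 : ℝ) : ℂ) / 2)) := by
  have h1 : ∀ a : ι → ℝ, Complex.exp (((∑ j, c j * a j : ℝ) : ℂ) * Complex.I)
      = ∏ j, Complex.exp (((c j : ℝ) : ℂ) * (a j : ℂ) * Complex.I) := by
    intro a
    rw [← Complex.exp_sum]
    congr 1
    push_cast
    rw [Finset.sum_mul]
  simp_rw [h1]
  rw [integral_fintype_prod_eq_prod (f := fun j (x : ℝ) =>
    Complex.exp (((c j : ℝ) : ℂ) * (x : ℂ) * Complex.I))]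
  simp_rw [← charFun_apply_real, charFun_gaussianReal]
  rw [← Complex.exp_sum]
  congr 1
  push_cast
  rw [Finset.sum_div, ← Finset.sum_neg_distrib]
  apply Finset.sum_congr rfl
  intro j _
  ring

lemma cf_gmm {ι κ : Type*} [Fintype ι] [Fintype κ] (c : ι → κ → ℝ) :
    ∫ G, Complex.exp (((∑ i, ∑ j, c i j * G i j : ℝ) : ℂ) * Complex.I) ∂(gmm ι κ)
      = Complex.exp (-(((∑ i, ∑ j, c i j ^ 2 : ℝ) : ℂ) / 2)) := by
  have h1 : ∀ G : ι → κ → ℝ, Complex.exp (((∑ i, ∑ j, c i j * G i j : ℝ) : ℂ) * Complex.I)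
      = ∏ i, Complex.exp (((∑ j, c i j * G i j : ℝ) : ℂ) * Complex.I) := by
    intro G
    rw [← Complex.exp_sum]
    congr 1
    push_cast
    rw [Finset.sum_mul]
  simp_rw [h1]
  rw [integral_fintype_prod_eq_prod (f := fun i (g : κ → ℝ) =>
    Complex.exp (((∑ j, c i j * g j : ℝ) : ℂ) * Complex.I))]
  simp_rw [cf_gv]
  rw [← Complex.exp_sum]
  congr 1
  push_cast
  rw [Finset.sum_div, ← Finset.sum_neg_distrib]

lemma ext_gv {ι : Type*} [Fintype ι] (ν : Measure (ι → ℝ)) [IsProbabilityMeasure ν]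
    (h : ∀ c : ι → ℝ, ∫ a, Complex.exp (((∑ j, c j * a j : ℝ) : ℂ) * Complex.I) ∂ν
      = Complex.exp (-(((∑ j, c j ^ 2 : ℝ) : ℂ) / 2))) : ν = gv ι := by
  classical
  apply Measure.ext_of_charFunDual
  ext L
  have hL : ∀ a : ι → ℝ, L a = ∑ j, L (Pi.single j 1) * a j := by
    intro a
    have e : a = ∑ j, a j • (Pi.single j (1:ℝ) : ι → ℝ) := by
      rw [← pi_eq_sum_univ']
    conv_lhs => rw [e]
    rw [map_sum]
    apply Finset.sum_congr rfl
    intro j _
    rw [map_smul, smul_eq_mul, mul_comm]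
  rw [charFunDual_apply, charFunDual_apply]
  have hL2 : (fun v : ι → ℝ => Complex.exp ((L v : ℂ) * Complex.I)) = fun a : ι → ℝ =>
      Complex.exp (((∑ j, L (Pi.single j 1) * a j : ℝ) : ℂ) * Complex.I) := by
    ext a
    rw [← hL a]
  rw [hL2, h, cf_gv]

lemma ext_gmm {ι κ : Type*} [Fintype ι] [Fintype κ] (ν : Measure (ι → κ → ℝ))
    [IsProbabilityMeasure ν]
    (h : ∀ c : ι → κ → ℝ, ∫ G, Complex.exp (((∑ i, ∑ j, c i j * G i j : ℝ) : ℂ) * Complex.I) ∂ν
      = Complex.exp (-(((∑ i, ∑ j, c i j ^ 2 : ℝ) : ℂ) / 2))) : ν = gmm ι κ := by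
  classical
  apply Measure.ext_of_charFunDual
  ext L
  have hL : ∀ G : ι → κ → ℝ, L G = ∑ i, ∑ j, L (Pi.single i (Pi.single j 1)) * G i j := by
    intro G
    have e : G = ∑ i, ∑ j, G i j • (Pi.single i (Pi.single j (1:ℝ)) : ι → κ → ℝ) := by
      ext i j
      simp only [Finset.sum_apply, Pi.smul_apply, smul_eq_mul]
      rw [Finset.sum_eq_single i, Finset.sum_eq_single j]
      · simp
      · intro b _ hb
        rw [Pi.single_eq_same, Pi.single_eq_of_ne hb.symm, mul_zero]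
      · intro h; exact absurd (mem_univ _) h
      · intro b _ hb
        apply Finset.sum_eq_zero
        intro k _
        rw [Pi.single_eq_of_ne hb.symm, Pi.zero_apply, mul_zero]
      · intro h; exact absurd (mem_univ _) h
    conv_lhs => rw [e]
    rw [map_sum]
    apply Finset.sum_congr rfl
    intro i _
    rw [map_sum]
    apply Finset.sum_congr rfl
    intro j _
    rw [map_smul, smul_eq_mul, mul_comm]
  rw [charFunDual_apply, charFunDual_apply]
  have hL2 : (fun v : ι → κ → ℝ => Complex.exp ((L v : ℂ) * Complex.I)) = fun G : ι → κ → ℝ =>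
      Complex.exp (((∑ i, ∑ j, L (Pi.single i (Pi.single j 1)) * G i j : ℝ) : ℂ) * Complex.I) := by
    ext a
    rw [← hL a]
  rw [hL2, h, cf_gmm]

/-- left multiplication by an orthogonal matrix -/
def lm {ι κ : Type*} [Fintype ι] (O : Matrix ι ι ℝ) (G : ι → κ → ℝ) : ι → κ → ℝ :=
  fun i j => ∑ k, O i k * G k j

lemma lm_meas {ι κ : Type*} [Fintype ι] [Fintype κ] (O : Matrix ι ι ℝ) :
    Measurable (lm (κ := κ) O) := by
  apply measurable_pi_lambda
  intro i
  apply measurable_pi_lambda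
  intro j
  unfold lm
  apply Finset.measurable_sum
  intro k _
  exact Measurable.const_mul (by fun_prop) _

lemma gmm_left {ι κ : Type*} [Fintype ι] [Fintype κ] [DecidableEq ι] (O : Matrix ι ι ℝ)
    (hO : O * O.transpose = 1) : (gmm ι κ).map (lm O) = gmm ι κ := by
  have hm := lm_meas (κ := κ) O
  have : IsProbabilityMeasure ((gmm ι κ).map (lm O)) :=
    Measure.isProbabilityMeasure_map hm.aemeasurable
  apply ext_gmm
  intro c
  have hc : Continuous (fun G : ι → κ → ℝ =>
      Complex.exp (((∑ i, ∑ j, c i j * G i j : ℝ) : ℂ) * Complex.I)) :=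
    Complex.continuous_exp.comp
      ((Complex.continuous_ofReal.comp (by fun_prop)).mul continuous_const)
  rw [integral_map hm.aemeasurable hc.aestronglyMeasurable]
  have h1 : ∀ G : ι → κ → ℝ, (∑ i, ∑ j, c i j * lm O G i j)
      = ∑ k, ∑ j, (∑ i, c i j * O i k) * G k j := by
    intro G
    unfold lm
    calc (∑ i, ∑ j, c i j * ∑ k, O i k * G k j)
        = ∑ i, ∑ j, ∑ k, c i j * O i k * G k j := by
          apply Finset.sum_congr rfl
          intro i _
          apply Finset.sum_congr rfl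
          intro j _
          rw [Finset.mul_sum]
          apply Finset.sum_congr rfl
          intro k _
          ring
      _ = ∑ i, ∑ k, ∑ j, c i j * O i k * G k j := by
          apply Finset.sum_congr rfl
          intro i _
          rw [Finset.sum_comm]
      _ = ∑ k, ∑ i, ∑ j, c i j * O i k * G k j := by rw [Finset.sum_comm]
      _ = ∑ k, ∑ j, ∑ i, c i j * O i k * G k j := by
          apply Finset.sum_congr rfl
          intro k _
          rw [Finset.sum_comm]
      _ = _ := by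
          apply Finset.sum_congr rfl
          intro k _
          apply Finset.sum_congr rfl
          intro j _
          rw [Finset.sum_mul]
  simp_rw [h1]
  rw [cf_gmm]
  congr 4
  -- |cO|² = |c|²
  rw [Finset.sum_comm]
  rw [Finset.sum_comm (s := univ (α := ι)) (t := univ (α := κ))]
  apply Finset.sum_congr rfl
  intro j _
  have h2 : ∀ k, (∑ i, c i j * O i k) = (O.transpose.mulVec (fun i => c i j)) k := by
    intro k
    simp only [Matrix.mulVec, dotProduct, Matrix.transpose_apply]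
    apply Finset.sum_congr rfl
    intro i _
    ring
  simp_rw [h2, sq]
  change (O.transpose.mulVec (fun i => c i j)) ⬝ᵥ (O.transpose.mulVec (fun i => c i j))
    = (fun i => c i j) ⬝ᵥ (fun i => c i j)
  rw [Matrix.dotProduct_mulVec, Matrix.vecMul_transpose, Matrix.mulVec_mulVec, hO,
    Matrix.one_mulVec]

/-- replacing the component along a unit vector by an independent Gaussian -/
lemma strip_law {ι : Type*} [Fintype ι] (η : ι → ℝ) (hη : ∑ j, η j ^ 2 = 1) :
    ((gv ι).prod (gaussianReal 0 1)).map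
      (fun p : (ι → ℝ) × ℝ => fun j => p.1 j + (p.2 - ∑ k, η k * p.1 k) * η j) = gv ι := by
  have hm : Measurable (fun p : (ι → ℝ) × ℝ => fun j => p.1 j + (p.2 - ∑ k, η k * p.1 k) * η j) := by
    fun_prop
  have : IsProbabilityMeasure (((gv ι).prod (gaussianReal 0 1)).map
      (fun p : (ι → ℝ) × ℝ => fun j => p.1 j + (p.2 - ∑ k, η k * p.1 k) * η j)) :=
    Measure.isProbabilityMeasure_map hm.aemeasurable
  apply ext_gv
  intro c
  have hc : Continuous (fun a : ι → ℝ =>
      Complex.exp (((∑ j, c j * a j : ℝ) : ℂ) * Complex.I)) :=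
    Complex.continuous_exp.comp
      ((Complex.continuous_ofReal.comp (by fun_prop)).mul continuous_const)
  rw [integral_map hm.aemeasurable hc.aestronglyMeasurable]
  set d := ∑ j, c j * η j with hd
  have h1 : ∀ p : (ι → ℝ) × ℝ, Complex.exp (((∑ j, c j * (p.1 j + (p.2 - ∑ k, η k * p.1 k) * η j) : ℝ) : ℂ)
        * Complex.I)
      = Complex.exp (((∑ j, (c j - d * η j) * p.1 j : ℝ) : ℂ) * Complex.I)
        * Complex.exp ((d : ℂ) * (p.2 : ℂ) * Complex.I) := by
    intro p
    rw [← Complex.exp_add, ← add_mul]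
    congr 2
    have : (∑ j, c j * (p.1 j + (p.2 - ∑ k, η k * p.1 k) * η j))
        = (∑ j, (c j - d * η j) * p.1 j) + d * p.2 := by
      have e1 : ∀ j, c j * (p.1 j + (p.2 - ∑ k, η k * p.1 k) * η j)
        = c j * p.1 j + (p.2 - ∑ k, η k * p.1 k) * (c j * η j) := by intro j; ring
      simp_rw [e1, Finset.sum_add_distrib, ← Finset.mul_sum, ← hd]
      have e2 : ∀ j, (c j - d * η j) * p.1 j = c j * p.1 j - d * (η j * p.1 j) := by intro j; ring
      simp_rw [e2, Finset.sum_sub_distrib, ← Finset.mul_sum]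
      ring
    rw [this]
    push_cast
    ring
  simp_rw [h1]
  rw [integral_prod_mul (μ := gv ι) (ν := gaussianReal 0 1)
    (f := fun a : ι → ℝ => Complex.exp (((∑ j, (c j - d * η j) * a j : ℝ) : ℂ) * Complex.I))
    (g := fun t : ℝ => Complex.exp ((d : ℂ) * (t : ℂ) * Complex.I))]
  rw [cf_gv, ← charFun_apply_real, charFun_gaussianReal, ← Complex.exp_add]
  congr 1
  have h3 : ∑ j, (c j - d * η j) ^ 2 = (∑ j, c j ^ 2) - d ^ 2 := by
    have e1 : ∀ j, (c j - d * η j) ^ 2 = c j ^ 2 - 2 * d * (c j * η j) + d ^ 2 * η j ^ 2 := by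
      intro j; ring
    simp_rw [e1, Finset.sum_add_distrib, Finset.sum_sub_distrib, ← Finset.mul_sum, ← hd, hη]
    ring
  rw [h3]
  push_cast
  ring

/-- strip lemma -/
lemma strip {ι : Type*} [Fintype ι] (η : ι → ℝ) (hη : ∑ j, η j ^ 2 = 1) (b : ℝ)
    (B : (ι → ℝ) → ℝ) (hB : Measurable B)
    (hinv : ∀ g : ι → ℝ, ∀ t : ℝ, B (fun j => g j + t * η j) = B g) :
    gv ι {g | |(∑ j, η j * g j) + b| ≤ B g}
      ≤ ∫⁻ g, ENNReal.ofReal (2 * B g / Real.sqrt (2 * Real.pi)) ∂(gv ι) := by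
  have hm : Measurable (fun p : (ι → ℝ) × ℝ => fun j => p.1 j + (p.2 - ∑ k, η k * p.1 k) * η j) := by
    fun_prop
  have hS : MeasurableSet {g : ι → ℝ | |(∑ j, η j * g j) + b| ≤ B g} :=
    measurableSet_le (by fun_prop) hB
  conv_lhs => rw [← strip_law η hη]
  rw [Measure.map_apply hm hS]
  have h1 : (fun p : (ι → ℝ) × ℝ => fun j => p.1 j + (p.2 - ∑ k, η k * p.1 k) * η j) ⁻¹'
      {g : ι → ℝ | |(∑ j, η j * g j) + b| ≤ B g} = {p : (ι → ℝ) × ℝ | |p.2 + b| ≤ B p.1} := by
    ext p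
    simp only [Set.mem_preimage, Set.mem_ofPred_eq]
    rw [hinv]
    have e : ∑ j, η j * (p.1 j + (p.2 - ∑ k, η k * p.1 k) * η j) = p.2 := by
      have e1 : ∀ j, η j * (p.1 j + (p.2 - ∑ k, η k * p.1 k) * η j)
        = η j * p.1 j + (p.2 - ∑ k, η k * p.1 k) * η j ^ 2 := by intro j; ring
      simp_rw [e1, Finset.sum_add_distrib, ← Finset.mul_sum, hη]
      ring
    rw [e]
  rw [h1, Measure.prod_apply (measurableSet_le (by fun_prop) (by fun_prop))]
  apply lintegral_mono
  intro g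
  have h2 : Prod.mk g ⁻¹' {p : (ι → ℝ) × ℝ | |p.2 + b| ≤ B p.1} = Set.Icc (-B g - b) (B g - b) := by
    ext t
    simp only [Set.mem_preimage, Set.mem_ofPred_eq, Set.mem_Icc, abs_le]
    constructor
    · rintro ⟨h1, h2⟩; constructor <;> linarith
    · rintro ⟨h1, h2⟩; constructor <;> linarith
  change (gaussianReal 0 1) (Prod.mk g ⁻¹' {p : (ι → ℝ) × ℝ | |p.2 + b| ≤ B p.1}) ≤ _
  rw [h2]
  refine (gauss_Icc 0 one_ne_zero _ _).trans (ENNReal.ofReal_le_ofReal (le_of_eq ?_))
  simp only [NNReal.coe_one, mul_one]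
  congr 1
  ring

end Pool.Agent.V11333.GRot
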