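import Mathlib
import Pool.Agent.V11333.Cond1
import Pool.Agent.V11333.GRot

open MeasureTheory ProbabilityTheory Finset
open scoped ENNReal NNReal

namespace Pool.Agent.V11333.Cond

open Pool.Agent.V11333.Slab Pool.Agent.V11333.GRot

/-- Euclidean length -/
noncomputable def en {n : ℕ} (v : Fin n → ℝ) : ℝ := Real.sqrt (∑ j, v j ^ 2)

lemma en_nonneg {n : ℕ} (v : Fin n → ℝ) : 0 ≤ en v := Real.sqrt_nonneg _

lemma en_sq {n : ℕ} (v : Fin n → ℝ) : en v ^ 2 = ∑ j, v j ^ 2 :=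
  Real.sq_sqrt (Finset.sum_nonneg (fun j _ => sq_nonneg _))

lemma en_smul {n : ℕ} (c : ℝ) (v : Fin n → ℝ) : en (c • v) = |c| * en v := by
  unfold en
  simp only [Pi.smul_apply, smul_eq_mul, mul_pow]
  rw [← Finset.mul_sum, Real.sqrt_mul (sq_nonneg c), Real.sqrt_sq_eq_abs]

lemma en_eq_zero {n : ℕ} {v : Fin n → ℝ} (h : en v = 0) : v = 0 := by
  have h2 := en_sq v
  rw [h] at h2
  have h3 : ∑ j, v j ^ 2 = 0 := by rw [← h2]; norm_num
  rw [Finset.sum_eq_zero_iff_of_nonneg (fun j _ => sq_nonneg _)] at h3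
  ext j
  exact pow_eq_zero_iff (two_ne_zero) |>.mp (h3 j (mem_univ j))

lemma nrm_nonneg {n : ℕ} (M : Matrix (Fin n) (Fin n) ℝ) : 0 ≤ nrm M := norm_nonneg _

lemma nrm_add {n : ℕ} (M N : Matrix (Fin n) (Fin n) ℝ) : nrm (M + N) ≤ nrm M + nrm N := by
  unfold nrm
  rw [map_add]
  exact norm_add_le _ _

lemma nrm_mul {n : ℕ} (M N : Matrix (Fin n) (Fin n) ℝ) : nrm (M * N) ≤ nrm M * nrm N := by
  unfold nrm
  rw [map_mul]
  exact norm_mul_le _ _

lemma nrm_smul {n : ℕ} (c : ℝ) (M : Matrix (Fin n) (Fin n) ℝ) : nrm (c • M) = |c| * nrm M := by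
  unfold nrm
  rw [map_smul, norm_smul, Real.norm_eq_abs]

lemma nrm_le_of {n : ℕ} (M : Matrix (Fin n) (Fin n) ℝ) (c : ℝ) (hc : 0 ≤ c)
    (h : ∀ y : Fin n → ℝ, ∑ i, (M.mulVec y i) ^ 2 ≤ c ^ 2 * ∑ j, y j ^ 2) : nrm M ≤ c := by
  unfold nrm
  apply ContinuousLinearMap.opNorm_le_bound _ hc
  intro y
  have h1 := nrm_apply M y
  have h2 := h y
  have h3 := EuclideanSpace.real_norm_sq_eq y
  have h4 : ‖Matrix.toEuclideanCLM (𝕜 := ℝ) M y‖ ^ 2 ≤ (c * ‖y‖) ^ 2 := by
    rw [h1, mul_pow, h3]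
    exact h2
  exact abs_le_of_sq_le_sq' h4 (by positivity) |>.2

lemma mulVec_le {n : ℕ} (M : Matrix (Fin n) (Fin n) ℝ) (y : Fin n → ℝ) :
    en (M.mulVec y) ≤ nrm M * en y := by
  have h1 := (Matrix.toEuclideanCLM (𝕜 := ℝ) M).le_opNorm (WithLp.toLp 2 y)
  have h2 : ‖Matrix.toEuclideanCLM (𝕜 := ℝ) M (WithLp.toLp 2 y)‖ = en (M.mulVec y) := by
    rw [Matrix.toEuclideanCLM_toLp, EuclideanSpace.norm_eq]
    unfold en
    simp
  have h3 : ‖(WithLp.toLp 2 y : EuclideanSpace ℝ (Fin n))‖ = en y := by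
    rw [EuclideanSpace.norm_eq]
    unfold en
    simp
  rw [h2, h3] at h1
  exact h1

/-- cofactors of the first row -/
noncomputable def cof {m : ℕ} (R : Fin m → Fin (m+1) → ℝ) (j : Fin (m+1)) : ℝ :=
  (-1) ^ (j : ℕ) * ((Matrix.of R).submatrix id j.succAbove).det

lemma det_cons {m : ℕ} (a : Fin (m+1) → ℝ) (R : Fin m → Fin (m+1) → ℝ) :
    (Matrix.of (Fin.cons a R : Fin (m+1) → Fin (m+1) → ℝ)).det = ∑ j, a j * cof R j := by
  rw [Matrix.det_succ_row_zero]
  apply Finset.sum_congr rfl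
  intro j _
  unfold cof
  have : (Matrix.of (Fin.cons a R : Fin (m+1) → Fin (m+1) → ℝ)).submatrix Fin.succ j.succAbove
      = (Matrix.of R).submatrix id j.succAbove := by
    ext p q
    simp
  rw [this]
  simp
  ring

lemma cof_orth {m : ℕ} (R : Fin m → Fin (m+1) → ℝ) (i : Fin m) : ∑ j, R i j * cof R j = 0 := by
  rw [← det_cons]
  apply Matrix.det_zero_of_row_eq (i := 0) (j := i.succ) (Fin.succ_ne_zero i).symm
  ext k
  simp

lemma adj_cons {m : ℕ} (a : Fin (m+1) → ℝ) (R : Fin m → Fin (m+1) → ℝ) (s : ℝ) :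
    (Matrix.of (Fin.cons a R : Fin (m+1) → Fin (m+1) → ℝ)).adjugate.mulVec (s • Pi.single 0 1)
      = s • cof R := by
  rw [Matrix.mulVec_smul]
  congr 1
  ext j
  rw [Matrix.mulVec_single_one]
  rw [Matrix.col_apply, Matrix.adjugate_fin_succ_eq_det_submatrix]
  unfold cof
  have : (Matrix.of (Fin.cons a R : Fin (m+1) → Fin (m+1) → ℝ)).submatrix
      (Fin.succAbove 0) j.succAbove = (Matrix.of R).submatrix id j.succAbove := by
    ext p q
    simp
  rw [this]
  simp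

/-- the key deterministic estimate -/
lemma key_det {m : ℕ} (a : Fin (m+1) → ℝ) (R : Fin m → Fin (m+1) → ℝ) (η : Fin (m+1) → ℝ)
    (hη : ∑ j, η j ^ 2 = 1) (hR : ∀ i, ∑ j, R i j * η j = 0) :
    nrm (Matrix.of (Fin.cons (fun j => a j - (∑ k, a k * η k) * η j) R : Fin (m+1) → Fin (m+1) → ℝ))
        ≤ nrm (Matrix.of (Fin.cons a R : Fin (m+1) → Fin (m+1) → ℝ))
    ∧ nrm (Matrix.of (Fin.cons a R : Fin (m+1) → Fin (m+1) → ℝ)) ≤
      nrm (Matrix.of (Fin.cons (fun j => a j - (∑ k, a k * η k) * η j) R :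
        Fin (m+1) → Fin (m+1) → ℝ)) + |∑ k, a k * η k| := by
  set ξ := ∑ k, a k * η k with hξ
  constructor
  · have h1 : (Matrix.of (Fin.cons (fun j => a j - ξ * η j) R : Fin (m+1) → Fin (m+1) → ℝ))
      = (Matrix.of (Fin.cons a R : Fin (m+1) → Fin (m+1) → ℝ)) *
        (1 - Matrix.vecMulVec η η) := by
      rw [mul_sub, mul_one]
      ext i j
      rw [Matrix.sub_apply, Matrix.mul_apply]
      simp only [Matrix.vecMulVec_apply, Matrix.of_apply]
      have e : ∀ k, (Fin.cons a R : Fin (m+1) → Fin (m+1) → ℝ) i k * (η k * η j)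
        = ((Fin.cons a R : Fin (m+1) → Fin (m+1) → ℝ) i k * η k) * η j := by intro k; ring
      simp_rw [e]
      rw [← Finset.sum_mul]
      refine Fin.cases ?_ (fun i' => ?_) i
      · simp [hξ]
      · simp [hR i']
    rw [h1]
    refine (nrm_mul _ _).trans ?_
    have h2 : nrm (1 - Matrix.vecMulVec η η : Matrix (Fin (m+1)) (Fin (m+1)) ℝ) ≤ 1 := by
      apply nrm_le_of _ _ zero_le_one
      intro y
      have e : ∀ i, ((1 - Matrix.vecMulVec η η : Matrix (Fin (m+1)) (Fin (m+1)) ℝ).mulVec y) i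
        = y i - η i * ∑ j, η j * y j := by
        intro i
        rw [Matrix.sub_mulVec, Matrix.one_mulVec, Pi.sub_apply, Matrix.vecMulVec_mulVec]
        simp [dotProduct, mul_comm]
      simp_rw [e]
      set d := ∑ j, η j * y j with hd
      have e2 : ∀ i, (y i - η i * d) ^ 2 = y i ^ 2 - 2 * d * (η i * y i) + d ^ 2 * η i ^ 2 := by
        intro i; ring
      simp_rw [e2, Finset.sum_add_distrib, Finset.sum_sub_distrib, ← Finset.mul_sum, ← hd, hη]
      nlinarith [sq_nonneg d]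
    calc _ ≤ nrm (Matrix.of (Fin.cons a R : Fin (m+1) → Fin (m+1) → ℝ)) * 1 :=
          mul_le_mul_of_nonneg_left h2 (nrm_nonneg _)
      _ = _ := mul_one _
  · have h1 : (Matrix.of (Fin.cons a R : Fin (m+1) → Fin (m+1) → ℝ))
      = (Matrix.of (Fin.cons (fun j => a j - ξ * η j) R : Fin (m+1) → Fin (m+1) → ℝ))
        + Matrix.of (Fin.cons (fun j => ξ * η j) (fun _ _ => 0) : Fin (m+1) → Fin (m+1) → ℝ) := by
      ext i j
      rw [Matrix.add_apply]
      refine Fin.cases ?_ (fun i' => ?_) i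
      · simp
      · simp
    conv_lhs => rw [h1]
    refine (nrm_add _ _).trans (add_le_add_right ?_ _)
    apply nrm_le_of _ _ (abs_nonneg _)
    intro y
    rw [Fin.sum_univ_succ]
    have e0 : (Matrix.of (Fin.cons (fun j => ξ * η j) (fun _ _ => 0) :
        Fin (m+1) → Fin (m+1) → ℝ)).mulVec y 0 = ξ * ∑ j, η j * y j := by
      rw [Matrix.mulVec, dotProduct, Finset.mul_sum]
      apply Finset.sum_congr rfl
      intro j _
      simp
      ring
    have e1 : ∀ i : Fin m, (Matrix.of (Fin.cons (fun j => ξ * η j) (fun _ _ => 0) :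
        Fin (m+1) → Fin (m+1) → ℝ)).mulVec y i.succ = 0 := by
      intro i
      rw [Matrix.mulVec, dotProduct]
      apply Finset.sum_eq_zero
      intro j _
      simp
    simp_rw [e1, e0]
    have hcs := Finset.sum_mul_sq_le_sq_mul_sq univ η y
    rw [hη, one_mul] at hcs
    rw [sq_abs, mul_pow]
    simp only [ne_eq, OfNat.ofNat_ne_zero, not_false_eq_true, zero_pow, Finset.sum_const_zero,
      add_zero]
    exact mul_le_mul_of_nonneg_left hcs (sq_nonneg _)

end Pool.Agent.V11333.Cond
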