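import Mathlib
import Pool.Agent.V11333.Cond2

open MeasureTheory ProbabilityTheory Finset
open scoped ENNReal NNReal

namespace Pool.Agent.V11333.Cond

open Pool.Agent.V11333.Slab Pool.Agent.V11333.GRot

/-- the matrix with first row `a` and other rows `R` -/
abbrev cm {m : ℕ} (a : Fin (m+1) → ℝ) (R : Fin m → Fin (m+1) → ℝ) :
    Matrix (Fin (m+1)) (Fin (m+1)) ℝ :=
  Matrix.of (Fin.cons a R : Fin (m+1) → Fin (m+1) → ℝ)

lemma nrm_cont {n : ℕ} : Continuous (fun G : Fin n → Fin n → ℝ => nrm (Matrix.of G)) :=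
  clm_meas.norm

lemma cons_cont {m : ℕ} {X : Type*} [TopologicalSpace X] {f : X → Fin (m+1) → ℝ}
    {g : X → Fin m → Fin (m+1) → ℝ} (hf : Continuous f) (hg : Continuous g) :
    Continuous (fun x => (Fin.cons (f x) (g x) : Fin (m+1) → Fin (m+1) → ℝ)) := by
  apply continuous_pi
  intro i
  refine Fin.cases ?_ (fun i' => ?_) i
  · simpa using hf
  · simpa using (continuous_pi_iff.mp hg i')

lemma inner_bound {m : ℕ} (ab : Fin (m+1) → ℝ) (R : Fin m → Fin (m+1) → ℝ) {σ s x : ℝ}
    (hσ : 0 < σ) (hs : 0 ≤ s) (hx : 0 < x) (hsx : s ≤ x / 4) (hc : cof R ≠ 0) :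
    gv (Fin (m+1)) {g | (x/2) * |(cm (ab + σ • g) R).det| ≤ nrm (cm (ab + σ • g) R) * (s * en (cof R))}
      ≤ ENNReal.ofReal (8 * s / (x * σ * Real.sqrt (2 * Real.pi))) *
        ∫⁻ g, ENNReal.ofReal (nrm (cm (ab + σ • g) R)) ∂(gv (Fin (m+1))) := by
  have hN : 0 < en (cof R) := by
    rcases (en_nonneg (cof R)).lt_or_eq with h | h
    · exact h
    · exact absurd (en_eq_zero h.symm) hc
  set N := en (cof R) with hNdef
  set η : Fin (m+1) → ℝ := fun j => cof R j / N with hηdef
  have hη : ∑ j, η j ^ 2 = 1 := by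
    simp only [hηdef, div_pow]
    rw [← Finset.sum_div, ← en_sq, ← hNdef]
    field_simp
  have hR : ∀ i, ∑ j, R i j * η j = 0 := by
    intro i
    simp only [hηdef]
    have e : ∀ j, R i j * (cof R j / N) = R i j * cof R j / N := by intro j; ring
    simp_rw [e]
    rw [← Finset.sum_div, cof_orth, zero_div]
  set M0 : (Fin (m+1) → ℝ) → Matrix (Fin (m+1)) (Fin (m+1)) ℝ := fun g =>
    cm (fun j => (ab + σ • g) j - (∑ k, (ab + σ • g) k * η k) * η j) R with hM0
  have hM0c : Continuous (fun g => nrm (M0 g)) := by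
    apply nrm_cont.comp
    apply cons_cont _ continuous_const
    fun_prop
  set B : (Fin (m+1) → ℝ) → ℝ := fun g => (4 * s / (x * σ)) * nrm (M0 g) with hB
  have hBm : Measurable B := (hM0c.measurable).const_mul _
  have hinv : ∀ g : Fin (m+1) → ℝ, ∀ t : ℝ, B (fun j => g j + t * η j) = B g := by
    intro g t
    simp only [hB]
    congr 2
    simp only [hM0]
    congr 2
    ext j
    simp only [Pi.add_apply, Pi.smul_apply, smul_eq_mul]
    have e : ∑ k, (ab k + σ * (g k + t * η k)) * η k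
        = (∑ k, (ab k + σ * g k) * η k) + σ * t := by
      have e1 : ∀ k, (ab k + σ * (g k + t * η k)) * η k
        = (ab k + σ * g k) * η k + σ * t * η k ^ 2 := by intro k; ring
      simp_rw [e1, Finset.sum_add_distrib, ← Finset.mul_sum, hη, mul_one]
    rw [e]
    ring
  have hst := strip η hη ((∑ k, ab k * η k) / σ) B hBm hinv
  refine (measure_mono ?_).trans (hst.trans ?_)
  · intro g hg
    simp only [Set.mem_ofPred_eq] at hg ⊢
    set ξ := ∑ k, (ab + σ • g) k * η k with hξ
    have hdet : (cm (ab + σ • g) R).det = ξ * N := by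
      rw [det_cons, hξ, Finset.sum_mul]
      apply Finset.sum_congr rfl
      intro j _
      simp only [hηdef]
      field_simp
    obtain ⟨-, hk⟩ := key_det (ab + σ • g) R η hη hR
    change nrm (cm (ab + σ • g) R) ≤ nrm (M0 g) + |ξ| at hk
    rw [hdet, abs_mul, abs_of_pos hN] at hg
    have h1 : x / 2 * |ξ| ≤ nrm (cm (ab + σ • g) R) * s := by
      have : (x / 2 * |ξ|) * N ≤ (nrm (cm (ab + σ • g) R) * s) * N := by linarith
      exact le_of_mul_le_mul_right this hN
    have h2 : nrm (cm (ab + σ • g) R) * s ≤ (nrm (M0 g) + |ξ|) * s :=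
      mul_le_mul_of_nonneg_right hk hs
    have h3 : |ξ| * s ≤ |ξ| * (x / 4) := mul_le_mul_of_nonneg_left hsx (abs_nonneg _)
    have h4 : x / 4 * |ξ| ≤ nrm (M0 g) * s := by linarith
    have e : (∑ j, η j * g j) + (∑ k, ab k * η k) / σ = ξ / σ := by
      rw [hξ]
      simp only [Pi.add_apply, Pi.smul_apply, smul_eq_mul, add_mul, Finset.sum_add_distrib]
      rw [add_div, add_comm]
      congr 1
      rw [Finset.sum_div]
      apply Finset.sum_congr rfl
      intro j _
      field_simp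
    rw [e, abs_div, abs_of_pos hσ]
    simp only [hB]
    rw [div_le_iff₀ hσ]
    have h5 : 4 * s / (x * σ) * nrm (M0 g) * σ = 4 * (nrm (M0 g) * s) / x := by
      field_simp
    rw [h5, le_div_iff₀ hx]
    linarith
  · have hcoef : 0 ≤ 8 * s / (x * σ * Real.sqrt (2 * Real.pi)) := by positivity
    rw [← lintegral_const_mul' _ _ ENNReal.ofReal_ne_top]
    apply lintegral_mono
    intro g
    simp only
    rw [← ENNReal.ofReal_mul hcoef]
    apply ENNReal.ofReal_le_ofReal
    obtain ⟨hk, -⟩ := key_det (ab + σ • g) R η hη hR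
    change nrm (M0 g) ≤ nrm (cm (ab + σ • g) R) at hk
    have h5 : 2 * B g / Real.sqrt (2 * Real.pi)
        = 8 * s / (x * σ * Real.sqrt (2 * Real.pi)) * nrm (M0 g) := by
      simp only [hB]
      field_simp
      ring
    rw [h5]
    exact mul_le_mul_of_nonneg_left hk hcoef

/-- splitting off the first row -/
lemma lint_cons {m n : ℕ} (f : (Fin (m+1) → Fin n → ℝ) → ℝ≥0∞) (hf : Measurable f) :
    ∫⁻ G, f G ∂(gmm (Fin (m+1)) (Fin n))
      = ∫⁻ R, ∫⁻ g, f (Fin.cons g R) ∂(gv (Fin n)) ∂(gmm (Fin m) (Fin n)) := by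
  have h := (measurePreserving_piFinSuccAbove (fun _ : Fin (m+1) => gv (Fin n)) 0).symm
  rw [← h.lintegral_comp hf]
  have h2 : AEMeasurable (fun a => f ((MeasurableEquiv.piFinSuccAbove
      (fun _ : Fin (m+1) => Fin n → ℝ) 0).symm a)) ((gv (Fin n)).prod (gmm (Fin m) (Fin n))) :=
    (hf.comp (MeasurableEquiv.measurable _)).aemeasurable
  rw [lintegral_prod_symm _ h2]
  apply lintegral_congr
  intro R
  apply lintegral_congr
  intro g
  congr 1
  simp [MeasurableEquiv.piFinSuccAbove, Fin.insertNthEquiv, Fin.insertNth_zero']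

lemma meas_cons {m n : ℕ} (S : Set (Fin (m+1) → Fin n → ℝ)) (hS : MeasurableSet S) :
    gmm (Fin (m+1)) (Fin n) S
      = ∫⁻ R, gv (Fin n) {g | (Fin.cons g R : Fin (m+1) → Fin n → ℝ) ∈ S} ∂(gmm (Fin m) (Fin n)) := by
  rw [← lintegral_indicator_one hS, lint_cons _ (measurable_one.indicator hS)]
  apply lintegral_congr
  intro R
  have hm : Measurable (fun g : Fin n → ℝ => (Fin.cons g R : Fin (m+1) → Fin n → ℝ)) := by
    apply measurable_pi_lambda
    intro i
    refine Fin.cases ?_ (fun i' => ?_) i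
    · simp only [Fin.cons_zero]; exact measurable_id
    · simp
  rw [← lintegral_indicator_one (show MeasurableSet {g : Fin n → ℝ |
    (Fin.cons g R : Fin (m+1) → Fin n → ℝ) ∈ S} from hm hS)]
  rfl

end Pool.Agent.V11333.Cond
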