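import Mathlib
import Pool.Agent.V11333.Cond3

open MeasureTheory ProbabilityTheory Finset
open scoped ENNReal NNReal

namespace Pool.Agent.V11333.Cond

open Pool.Agent.V11333.Slab Pool.Agent.V11333.GRot

lemma det_cont {n : ℕ} {X : Type*} [TopologicalSpace X] {f : X → Fin n → Fin n → ℝ}
    (hf : Continuous f) : Continuous (fun x => (Matrix.of (f x)).det) := by
  apply Continuous.matrix_det
  exact hf

/-- dropping the first column preserves the Gaussian law -/
lemma drop_col {m n : ℕ} : MeasurePreserving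
    (fun (Q : Fin m → Fin (n+1) → ℝ) => fun i (j : Fin n) => Q i j.succ)
    (gmm (Fin m) (Fin (n+1))) (gmm (Fin m) (Fin n)) := by
  have h := measurePreserving_piFinSuccAbove (fun _ : Fin (n+1) => gaussianReal 0 1) 0
  have h2 : MeasurePreserving (Prod.snd : ℝ × (Fin n → ℝ) → Fin n → ℝ)
      ((gaussianReal 0 1).prod (gv (Fin n))) (gv (Fin n)) := measurePreserving_snd
  have h3 : MeasurePreserving (fun (q : Fin (n+1) → ℝ) => fun (j : Fin n) => q j.succ)
      (gv (Fin (n+1))) (gv (Fin n)) := h2.comp h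
  exact measurePreserving_pi (fun _ : Fin m => gv (Fin (n+1))) (fun _ : Fin m => gv (Fin n))
    (f := fun _ (q : Fin (n+1) → ℝ) => fun (j : Fin n) => q j.succ) (fun _ => h3)

lemma slab_null {n : ℕ} (c : Fin n → ℝ) (hc : c ≠ 0) (b : ℝ) :
    gv (Fin n) {g | (∑ j, c j * g j) + b = 0} = 0 := by
  have hN : 0 < en c := by
    rcases (en_nonneg c).lt_or_eq with h | h
    · exact h
    · exact absurd (en_eq_zero h.symm) hc
  have h3 := slab_gen (v := 1) one_ne_zero c _ hN (en_sq _).symm b 0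
  simp only [mul_zero, zero_mul, zero_div, ENNReal.ofReal_zero, nonpos_iff_eq_zero] at h3
  refine measure_mono_null ?_ h3
  intro g hg
  simp only [Set.mem_ofPred_eq] at hg ⊢
  rw [hg, abs_zero]

lemma cof_zero_null {m : ℕ} (Rb : Fin m → Fin (m+1) → ℝ) {σ : ℝ}
    (h : ∀ Bb : Fin m → Fin m → ℝ, gmm (Fin m) (Fin m) {Q | (Matrix.of (Bb + σ • Q)).det = 0} = 0) :
    gmm (Fin m) (Fin (m+1)) {Q | cof (Rb + σ • Q) = 0} = 0 := by
  have h1 := h (fun i j => Rb i j.succ)
  have hS : MeasurableSet {Q : Fin m → Fin m → ℝ |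
      (Matrix.of ((fun i j => Rb i j.succ) + σ • Q)).det = 0} :=
    measurableSet_eq_fun (det_cont (by fun_prop)).measurable measurable_const
  rw [← (drop_col (m := m) (n := m)).measure_preimage hS.nullMeasurableSet] at h1
  refine measure_mono_null ?_ h1
  intro Q hQ
  simp only [Set.mem_ofPred_eq, Set.mem_preimage] at hQ ⊢
  have h2 := congrFun hQ 0
  unfold cof at h2
  simp only [Fin.val_zero, pow_zero, one_mul, Pi.zero_apply] at h2
  rw [← h2]
  congr 1

lemma det_null {m : ℕ} (Bb : Fin m → Fin m → ℝ) {σ : ℝ} (hσ : 0 < σ) :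
    gmm (Fin m) (Fin m) {Q | (Matrix.of (Bb + σ • Q)).det = 0} = 0 := by
  induction m with
  | zero =>
    have : {Q : Fin 0 → Fin 0 → ℝ | (Matrix.of (Bb + σ • Q)).det = 0} = ∅ := by
      ext Q
      simp
    rw [this, measure_empty]
  | succ m ih =>
    have hS : MeasurableSet {Q : Fin (m+1) → Fin (m+1) → ℝ |
      (Matrix.of (Bb + σ • Q)).det = 0} :=
      measurableSet_eq_fun (det_cont (by fun_prop)).measurable measurable_const
    rw [meas_cons _ hS, lintegral_eq_zero_iff' ?_]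
    · have h1 := cof_zero_null (fun i => Bb i.succ) (σ := σ) (fun Bb' => ih Bb')
      have h2 : ∀ᵐ R ∂(gmm (Fin m) (Fin (m+1))), cof ((fun i => Bb i.succ) + σ • R) ≠ 0 := by
        rw [ae_iff]
        simpa using h1
      filter_upwards [h2] with R hR
      have h3 := slab_null (cof ((fun i => Bb i.succ) + σ • R)) hR
        ((∑ j, Bb 0 j * cof ((fun i => Bb i.succ) + σ • R) j) / σ)
      refine measure_mono_null ?_ h3
      intro g hg
      simp only [Set.mem_ofPred_eq] at hg ⊢
      have e : (Bb + σ • (Fin.cons g R : Fin (m+1) → Fin (m+1) → ℝ))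
        = (Fin.cons (Bb 0 + σ • g) ((fun i => Bb i.succ) + σ • R) : Fin (m+1) → Fin (m+1) → ℝ) := by
        ext i j
        refine Fin.cases ?_ (fun i' => ?_) i
        · simp
        · simp
      rw [e, det_cons] at hg
      generalize cof ((fun i => Bb i.succ) + σ • R) = c at hg ⊢
      simp only [Pi.add_apply, Pi.smul_apply, smul_eq_mul, add_mul, Finset.sum_add_distrib] at hg
      have e3 : ∑ j, σ * g j * c j = σ * ∑ j, c j * g j := by
        rw [Finset.mul_sum]
        apply Finset.sum_congr rfl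
        intro j _
        ring
      rw [e3] at hg
      field_simp
      linarith
    · have hm : Measurable (fun p : (Fin (m+1) → ℝ) × (Fin m → Fin (m+1) → ℝ) =>
          (Fin.cons p.1 p.2 : Fin (m+1) → Fin (m+1) → ℝ)) :=
        (cons_cont continuous_fst continuous_snd).measurable
      have h4 := measurable_measure_prodMk_right (μ := gv (Fin (m+1))) (hm hS)
      exact h4.aemeasurable

/-- second moment of the norm -/
lemma nrm_sq_exp {n : ℕ} (hn : 1 ≤ n) :
    ∫⁻ G, ENNReal.ofReal (nrm (Matrix.of G) ^ 2) ∂(gmm (Fin n) (Fin n))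
      ≤ ENNReal.ofReal (225 * n) := by
  set L := Real.log (3 * Real.sqrt 2) with hL
  have hs2 : Real.sqrt 2 ^ 2 = 2 := Real.sq_sqrt (by norm_num)
  have hs2pos : 0 < Real.sqrt 2 := Real.sqrt_pos.mpr (by norm_num)
  have hs2lo : 1.41 < Real.sqrt 2 := by
    apply Real.lt_sqrt_of_sq_lt; norm_num
  have hs2hi : Real.sqrt 2 < 1.42 := by
    rw [Real.sqrt_lt' (by norm_num)]; norm_num
  have hL1 : 1 ≤ L := by
    rw [hL, Real.le_log_iff_exp_le (by positivity)]
    have := Real.exp_one_lt_d9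
    linarith
  have hL2 : L ≤ 3 / 2 := by
    rw [hL, Real.log_le_iff_le_exp (by positivity)]
    have h1 := Real.exp_one_gt_d9
    have h2 : Real.exp (3/2) ^ 2 = Real.exp 1 ^ 3 := by
      rw [← Real.exp_nat_mul, ← Real.exp_nat_mul]; norm_num
    have h3 : (2.7182818283:ℝ) ^ 3 ≤ Real.exp 1 ^ 3 := pow_le_pow_left₀ (by norm_num) h1.le 3
    have h4 : (3 * Real.sqrt 2) ^ 2 ≤ Real.exp (3/2) ^ 2 := by
      rw [h2, mul_pow, hs2]
      refine le_trans ?_ h3
      norm_num
    exact abs_le_of_sq_le_sq' h4 (Real.exp_pos _).le |>.2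
  have hnpos : (1:ℝ) ≤ n := by exact_mod_cast hn
  -- pointwise
  have hpt : ∀ G : Fin n → Fin n → ℝ, ENNReal.ofReal (nrm (Matrix.of G) ^ 2)
      ≤ ENNReal.ofReal (144 * (n * L - 1)) + ENNReal.ofReal (144 * Real.exp (-(n * L))) *
        ENNReal.ofReal (Real.exp (nrm (Matrix.of G) ^ 2 / 144)) := by
    intro G
    rw [← ENNReal.ofReal_mul (by positivity), ← ENNReal.ofReal_add (by nlinarith) (by positivity)]
    apply ENNReal.ofReal_le_ofReal
    have h1 := Real.add_one_le_exp (nrm (Matrix.of G) ^ 2 / 144 - n * L)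
    rw [sub_eq_add_neg, Real.exp_add] at h1
    nlinarith
  calc ∫⁻ G, ENNReal.ofReal (nrm (Matrix.of G) ^ 2) ∂(gmm (Fin n) (Fin n))
      ≤ ∫⁻ G, (ENNReal.ofReal (144 * (n * L - 1)) + ENNReal.ofReal (144 * Real.exp (-(n * L))) *
        ENNReal.ofReal (Real.exp (nrm (Matrix.of G) ^ 2 / 144))) ∂(gmm (Fin n) (Fin n)) :=
        lintegral_mono hpt
    _ = ENNReal.ofReal (144 * (n * L - 1)) + ENNReal.ofReal (144 * Real.exp (-(n * L))) *
        ∫⁻ G, ENNReal.ofReal (Real.exp (nrm (Matrix.of G) ^ 2 / 144)) ∂(gmm (Fin n) (Fin n)) := by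
        rw [lintegral_add_left measurable_const, lintegral_const,
          lintegral_const_mul' _ _ ENNReal.ofReal_ne_top]
        simp
    _ ≤ ENNReal.ofReal (144 * (n * L - 1)) + ENNReal.ofReal (144 * Real.exp (-(n * L))) *
        ENNReal.ofReal ((3 * Real.sqrt 2) ^ n) := by
        gcongr
        exact norm_exp hn
    _ = ENNReal.ofReal (144 * (n * L)) := by
        rw [← ENNReal.ofReal_mul (by positivity), ← ENNReal.ofReal_add (by nlinarith) (by positivity)]
        congr 1
        have : (3 * Real.sqrt 2) ^ n = Real.exp (n * L) := by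
          rw [Real.exp_nat_mul, hL, Real.exp_log (by positivity)]
        rw [this, mul_assoc, ← Real.exp_add]
        simp
        ring
    _ ≤ _ := by
        apply ENNReal.ofReal_le_ofReal
        nlinarith

/-- first moment of the norm -/
lemma nrm_exp1 {n : ℕ} (hn : 1 ≤ n) :
    ∫⁻ G, ENNReal.ofReal (nrm (Matrix.of G)) ∂(gmm (Fin n) (Fin n))
      ≤ ENNReal.ofReal (15 * Real.sqrt n) := by
  have hnpos : (1:ℝ) ≤ n := by exact_mod_cast hn
  have hsn : 0 < Real.sqrt n := Real.sqrt_pos.mpr (by linarith)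
  have hsn2 : Real.sqrt n ^ 2 = n := Real.sq_sqrt (by linarith)
  have hpt : ∀ G : Fin n → Fin n → ℝ, ENNReal.ofReal (nrm (Matrix.of G))
      ≤ ENNReal.ofReal (15 / 2 * Real.sqrt n) + ENNReal.ofReal (1 / (30 * Real.sqrt n)) *
        ENNReal.ofReal (nrm (Matrix.of G) ^ 2) := by
    intro G
    rw [← ENNReal.ofReal_mul (by positivity), ← ENNReal.ofReal_add (by positivity) (by positivity)]
    apply ENNReal.ofReal_le_ofReal
    have h1 := sq_nonneg (nrm (Matrix.of G) - 15 * Real.sqrt n)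
    rw [← sub_nonneg]
    have h2 : 15 / 2 * Real.sqrt n + 1 / (30 * Real.sqrt n) * nrm (Matrix.of G) ^ 2
        - nrm (Matrix.of G) = (nrm (Matrix.of G) - 15 * Real.sqrt n) ^ 2 / (30 * Real.sqrt n) := by
      field_simp
      ring
    rw [h2]
    positivity
  calc ∫⁻ G, ENNReal.ofReal (nrm (Matrix.of G)) ∂(gmm (Fin n) (Fin n))
      ≤ ∫⁻ G, (ENNReal.ofReal (15 / 2 * Real.sqrt n) + ENNReal.ofReal (1 / (30 * Real.sqrt n)) *
        ENNReal.ofReal (nrm (Matrix.of G) ^ 2)) ∂(gmm (Fin n) (Fin n)) :=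
        lintegral_mono hpt
    _ = ENNReal.ofReal (15 / 2 * Real.sqrt n) + ENNReal.ofReal (1 / (30 * Real.sqrt n)) *
        ∫⁻ G, ENNReal.ofReal (nrm (Matrix.of G) ^ 2) ∂(gmm (Fin n) (Fin n)) := by
        rw [lintegral_add_left measurable_const, lintegral_const,
          lintegral_const_mul' _ _ ENNReal.ofReal_ne_top]
        simp
    _ ≤ ENNReal.ofReal (15 / 2 * Real.sqrt n) + ENNReal.ofReal (1 / (30 * Real.sqrt n)) *
        ENNReal.ofReal (225 * n) := by
        gcongr
        exact nrm_sq_exp hn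
    _ = _ := by
        rw [← ENNReal.ofReal_mul (by positivity), ← ENNReal.ofReal_add (by positivity) (by positivity)]
        congr 1
        rw [← hsn2]
        field_simp
        rw [Real.sqrt_sq hsn.le]
        ring

lemma nrm_expA {n : ℕ} (hn : 1 ≤ n) (Ab : Matrix (Fin n) (Fin n) ℝ) (hA : nrm Ab ≤ Real.sqrt n)
    {σ : ℝ} (hσ : 0 < σ) (hσ1 : σ ≤ 1) :
    ∫⁻ G, ENNReal.ofReal (nrm (Ab + σ • Matrix.of G)) ∂(gmm (Fin n) (Fin n))
      ≤ ENNReal.ofReal (16 * Real.sqrt n) := by
  have hpt : ∀ G : Fin n → Fin n → ℝ, ENNReal.ofReal (nrm (Ab + σ • Matrix.of G))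
      ≤ ENNReal.ofReal (Real.sqrt n) + ENNReal.ofReal (nrm (Matrix.of G)) := by
    intro G
    rw [← ENNReal.ofReal_add (by positivity) (nrm_nonneg _)]
    apply ENNReal.ofReal_le_ofReal
    refine (nrm_add _ _).trans (add_le_add hA ?_)
    rw [nrm_smul, abs_of_pos hσ]
    nlinarith [nrm_nonneg (Matrix.of G)]
  calc ∫⁻ G, ENNReal.ofReal (nrm (Ab + σ • Matrix.of G)) ∂(gmm (Fin n) (Fin n))
      ≤ ∫⁻ G, (ENNReal.ofReal (Real.sqrt n) + ENNReal.ofReal (nrm (Matrix.of G)))
        ∂(gmm (Fin n) (Fin n)) := lintegral_mono hpt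
    _ = ENNReal.ofReal (Real.sqrt n) + ∫⁻ G, ENNReal.ofReal (nrm (Matrix.of G))
        ∂(gmm (Fin n) (Fin n)) := by
        rw [lintegral_add_left measurable_const, lintegral_const]
        simp
    _ ≤ ENNReal.ofReal (Real.sqrt n) + ENNReal.ofReal (15 * Real.sqrt n) := by
        gcongr
        exact nrm_exp1 hn
    _ = _ := by
        rw [← ENNReal.ofReal_add (by positivity) (by positivity)]
        congr 1
        ring

end Pool.Agent.V11333.Cond
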