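import Mathlib
import Pool.Agent.V11333.Cond4

open MeasureTheory ProbabilityTheory Finset
open scoped ENNReal NNReal

namespace Pool.Agent.V11333.Cond

open Pool.Agent.V11333.Slab Pool.Agent.V11333.GRot

/-- the event for a fixed test vector -/
def ev {n : ℕ} (Ab : Matrix (Fin n) (Fin n) ℝ) (σ x : ℝ) (z : Fin n → ℝ) :
    Set (Fin n → Fin n → ℝ) :=
  {G | (x/2) * |(Ab + σ • Matrix.of G).det| ≤
    nrm (Ab + σ • Matrix.of G) * en ((Ab + σ • Matrix.of G).adjugate.mulVec z)}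

lemma en_cont {n : ℕ} : Continuous (en : (Fin n → ℝ) → ℝ) := by
  unfold en
  fun_prop

lemma A_cont {n : ℕ} (Ab : Matrix (Fin n) (Fin n) ℝ) (σ : ℝ) :
    Continuous (fun G : Fin n → Fin n → ℝ => Ab + σ • Matrix.of G) := by
  have : Continuous (fun G : Fin n → Fin n → ℝ => (Matrix.of G : Matrix (Fin n) (Fin n) ℝ)) :=
    continuous_id
  exact continuous_const.add (this.const_smul σ)

lemma nrm_cont' {n : ℕ} {X : Type*} [TopologicalSpace X] {f : X → Matrix (Fin n) (Fin n) ℝ}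
    (hf : Continuous f) : Continuous (fun x => nrm (f x)) :=
  nrm_cont.comp hf

lemma ev_closed {n : ℕ} (Ab : Matrix (Fin n) (Fin n) ℝ) (σ x : ℝ) :
    IsClosed {p : (Fin n → Fin n → ℝ) × (Fin n → ℝ) | p.1 ∈ ev Ab σ x p.2} := by
  have hA : Continuous (fun p : (Fin n → Fin n → ℝ) × (Fin n → ℝ) => Ab + σ • Matrix.of p.1) :=
    (A_cont Ab σ).comp continuous_fst
  refine isClosed_le (f := fun p : (Fin n → Fin n → ℝ) × (Fin n → ℝ) =>
    (x/2) * |(Ab + σ • Matrix.of p.1).det|) (g := fun p : (Fin n → Fin n → ℝ) × (Fin n → ℝ) =>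
    nrm (Ab + σ • Matrix.of p.1) * en ((Ab + σ • Matrix.of p.1).adjugate.mulVec p.2)) ?_ ?_
  · exact continuous_const.mul hA.matrix_det.abs
  · refine (nrm_cont' hA).mul (en_cont.comp ?_)
    exact hA.matrix_adjugate.matrix_mulVec continuous_snd

lemma ev_meas {n : ℕ} (Ab : Matrix (Fin n) (Fin n) ℝ) (σ x : ℝ) (z : Fin n → ℝ) :
    MeasurableSet (ev Ab σ x z) := by
  have h : Continuous (fun G : Fin n → Fin n → ℝ => (G, z)) := by fun_prop
  exact ((ev_closed Ab σ x).preimage h).measurableSet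

lemma split_A {m : ℕ} (Ab : Matrix (Fin (m+1)) (Fin (m+1)) ℝ) (σ : ℝ) (g : Fin (m+1) → ℝ)
    (R : Fin m → Fin (m+1) → ℝ) :
    Ab + σ • Matrix.of (Fin.cons g R : Fin (m+1) → Fin (m+1) → ℝ)
      = cm (Ab 0 + σ • g) ((fun i => Ab i.succ) + σ • R) := by
  ext i j
  refine Fin.cases ?_ (fun i' => ?_) i
  · simp
  · simp

lemma axis_bound {m : ℕ} (Ab : Matrix (Fin (m+1)) (Fin (m+1)) ℝ)
    (hA : nrm Ab ≤ Real.sqrt ((m + 1 : ℕ) : ℝ)) {σ s x : ℝ}
    (hσ : 0 < σ) (hσ1 : σ ≤ 1) (hs : 0 ≤ s) (hx : 0 < x) :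
    gmm (Fin (m+1)) (Fin (m+1)) (ev Ab σ x (s • Pi.single 0 1))
      ≤ ENNReal.ofReal (64 * s * Real.sqrt ((m + 1 : ℕ) : ℝ) / (x * σ)) := by
  have hn1 : (1:ℝ) ≤ ((m + 1 : ℕ) : ℝ) := by push_cast; linarith [Nat.cast_nonneg (α := ℝ) m]
  have hsn1 : 1 ≤ Real.sqrt ((m + 1 : ℕ) : ℝ) := Real.one_le_sqrt.mpr hn1
  by_cases hsx : s ≤ x / 4
  · rw [meas_cons _ (ev_meas Ab σ x _)]
    have hnull : ∀ᵐ R ∂(gmm (Fin m) (Fin (m+1))), cof ((fun i => Ab i.succ) + σ • R) ≠ 0 := by
      have := cof_zero_null (fun i => Ab i.succ) (σ := σ) (fun Bb' => det_null Bb' hσ)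
      rw [ae_iff]
      simpa using this
    have hstep : ∀ᵐ R ∂(gmm (Fin m) (Fin (m+1))),
        gv (Fin (m+1)) {g | (Fin.cons g R : Fin (m+1) → Fin (m+1) → ℝ) ∈ ev Ab σ x (s • Pi.single 0 1)}
        ≤ ENNReal.ofReal (8 * s / (x * σ * Real.sqrt (2 * Real.pi))) *
        ∫⁻ g, ENNReal.ofReal (nrm (Ab + σ • Matrix.of (Fin.cons g R : Fin (m+1) → Fin (m+1) → ℝ)))
          ∂(gv (Fin (m+1))) := by
      filter_upwards [hnull] with R hR
      have h := inner_bound (Ab 0) ((fun i => Ab i.succ) + σ • R) hσ hs hx hsx hR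
      simp_rw [split_A]
      refine le_trans (measure_mono ?_) h
      intro g hg
      simp only [ev, Set.mem_ofPred_eq] at hg ⊢
      rw [split_A, adj_cons, en_smul, abs_of_nonneg hs] at hg
      exact hg
    have hmeas : Measurable (fun G : Fin (m+1) → Fin (m+1) → ℝ =>
        ENNReal.ofReal (nrm (Ab + σ • Matrix.of G))) :=
      (nrm_cont' (A_cont Ab σ)).measurable.ennreal_ofReal
    calc ∫⁻ R, gv (Fin (m+1)) {g | (Fin.cons g R : Fin (m+1) → Fin (m+1) → ℝ) ∈
            ev Ab σ x (s • Pi.single 0 1)} ∂(gmm (Fin m) (Fin (m+1)))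
        ≤ ∫⁻ R, ENNReal.ofReal (8 * s / (x * σ * Real.sqrt (2 * Real.pi))) *
          ∫⁻ g, ENNReal.ofReal (nrm (Ab + σ • Matrix.of (Fin.cons g R : Fin (m+1) → Fin (m+1) → ℝ)))
          ∂(gv (Fin (m+1))) ∂(gmm (Fin m) (Fin (m+1))) := lintegral_mono_ae hstep
      _ = ENNReal.ofReal (8 * s / (x * σ * Real.sqrt (2 * Real.pi))) *
          ∫⁻ G, ENNReal.ofReal (nrm (Ab + σ • Matrix.of G)) ∂(gmm (Fin (m+1)) (Fin (m+1))) := by
          rw [lintegral_const_mul' _ _ ENNReal.ofReal_ne_top, lint_cons _ hmeas]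
      _ ≤ ENNReal.ofReal (8 * s / (x * σ * Real.sqrt (2 * Real.pi))) *
          ENNReal.ofReal (16 * Real.sqrt ((m + 1 : ℕ) : ℝ)) := by
          gcongr
          exact nrm_expA (by omega) Ab hA hσ hσ1
      _ ≤ _ := by
          rw [← ENNReal.ofReal_mul (by positivity)]
          apply ENNReal.ofReal_le_ofReal
          have h2 : 2 ≤ Real.sqrt (2 * Real.pi) := by
            apply Real.le_sqrt_of_sq_le
            nlinarith [Real.pi_gt_three]
          have h3 : 8 * s / (x * σ * Real.sqrt (2 * Real.pi)) ≤ 8 * s / (x * σ * 2) := by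
            gcongr
          calc 8 * s / (x * σ * Real.sqrt (2 * Real.pi)) * (16 * Real.sqrt ((m + 1 : ℕ) : ℝ))
              ≤ 8 * s / (x * σ * 2) * (16 * Real.sqrt ((m + 1 : ℕ) : ℝ)) := by gcongr
            _ = _ := by field_simp; ring
  · push Not at hsx
    refine (prob_le_one).trans ?_
    rw [← ENNReal.ofReal_one]
    apply ENNReal.ofReal_le_ofReal
    rw [le_div_iff₀ (by positivity), one_mul]
    have h1 : x * σ ≤ x * 1 := mul_le_mul_of_nonneg_left hσ1 hx.le
    have h2 : 64 * s * 1 ≤ 64 * s * Real.sqrt ((m + 1 : ℕ) : ℝ) :=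
      mul_le_mul_of_nonneg_left hsn1 (by positivity)
    linarith

/-- an orthogonal matrix taking `z` to the first axis -/
lemma exists_rot {m : ℕ} (z : Fin (m+1) → ℝ) : ∃ O : Matrix (Fin (m+1)) (Fin (m+1)) ℝ,
    O * O.transpose = 1 ∧ O.mulVec z = en z • Pi.single 0 1 := by
  set v : Fin (m+1) → ℝ := z - en z • Pi.single 0 1 with hv
  by_cases h0 : v = 0
  · refine ⟨1, by simp, ?_⟩
    rw [Matrix.one_mulVec]
    exact sub_eq_zero.mp h0
  · have hvv : 0 < v ⬝ᵥ v := by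
      have h1 : en v ^ 2 = v ⬝ᵥ v := by
        rw [en_sq]
        simp [dotProduct, sq]
      rw [← h1]
      rcases (en_nonneg v).lt_or_eq with h | h
      · positivity
      · exact absurd (en_eq_zero h.symm) h0
    have hvz : 2 * (v ⬝ᵥ z) = v ⬝ᵥ v := by
      have h1 : z ⬝ᵥ z = en z ^ 2 := by
        rw [en_sq]
        simp [dotProduct, sq]
      have h2 : v ⬝ᵥ v = z ⬝ᵥ z - 2 * (en z * z 0) + en z ^ 2 := by
        rw [hv]
        simp only [sub_dotProduct, dotProduct_sub, smul_dotProduct, dotProduct_smul,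
          dotProduct_single, single_dotProduct, smul_eq_mul, Pi.single_eq_same, Pi.sub_apply,
          Pi.smul_apply]
        ring
      have h3 : v ⬝ᵥ z = z ⬝ᵥ z - en z * z 0 := by
        rw [hv]
        simp only [sub_dotProduct, smul_dotProduct, single_dotProduct, smul_eq_mul]
        ring
      rw [h2, h3, h1]
      ring
    set c := 2 / (v ⬝ᵥ v) with hc
    refine ⟨1 - c • Matrix.vecMulVec v v, ?_, ?_⟩
    · have ht : (1 - c • Matrix.vecMulVec v v).transpose = 1 - c • Matrix.vecMulVec v v := by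
        rw [Matrix.transpose_sub, Matrix.transpose_one, Matrix.transpose_smul]
        congr 2
        ext i j
        simp [Matrix.vecMulVec_apply, mul_comm]
      rw [ht, sub_mul, one_mul, mul_sub, mul_one, smul_mul_assoc, mul_smul_comm, smul_smul]
      have h4 : Matrix.vecMulVec v v * Matrix.vecMulVec v v = (v ⬝ᵥ v) • Matrix.vecMulVec v v := by
        ext i j
        rw [Matrix.mul_apply, Matrix.smul_apply]
        simp only [Matrix.vecMulVec_apply, smul_eq_mul, dotProduct, Finset.sum_mul]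
        apply Finset.sum_congr rfl
        intro k _
        ring
      rw [h4, smul_smul]
      have h5 : c * c * (v ⬝ᵥ v) = 2 * c := by
        rw [hc]
        field_simp
      rw [h5]
      ext i j
      simp only [Matrix.sub_apply, Matrix.smul_apply, smul_eq_mul]
      ring
    · rw [Matrix.sub_mulVec, Matrix.one_mulVec, Matrix.smul_mulVec]
      have h6 : (Matrix.vecMulVec v v).mulVec z = (v ⬝ᵥ z) • v := by
        rw [Matrix.vecMulVec_mulVec]
        ext i
        simp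
        ring
      rw [h6, smul_smul]
      have h7 : c * (v ⬝ᵥ z) = 1 := by
        rw [hc]
        field_simp
        linarith
      rw [h7, one_smul, hv]
      abel

lemma orth_det {n : ℕ} {O : Matrix (Fin n) (Fin n) ℝ} (hO : O * O.transpose = 1) : |O.det| = 1 := by
  have h := congrArg Matrix.det hO
  rw [Matrix.det_mul, Matrix.det_transpose, Matrix.det_one] at h
  have h2 : |O.det| ^ 2 = 1 := by rw [sq_abs, sq]; exact h
  have h3 : (|O.det| - 1) * (|O.det| + 1) = 0 := by linear_combination h2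
  rcases mul_eq_zero.mp h3 with h | h
  · linarith
  · have := abs_nonneg O.det
    linarith

lemma orth_nrm {n : ℕ} {O : Matrix (Fin n) (Fin n) ℝ} (hO : O * O.transpose = 1)
    (M : Matrix (Fin n) (Fin n) ℝ) : nrm (O * M) = nrm M := by
  have hO' : O.transpose * O = 1 := mul_eq_one_comm.mp hO
  have key : ∀ P : Matrix (Fin n) (Fin n) ℝ, P.transpose * P = 1 → nrm P ≤ 1 := by
    intro P hP
    apply nrm_le_of _ _ zero_le_one
    intro y
    have h1 : ∑ i, (P.mulVec y i) ^ 2 = (P.mulVec y) ⬝ᵥ (P.mulVec y) := by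
      simp [dotProduct, sq]
    have h2 : ∑ i, (y i) ^ 2 = y ⬝ᵥ y := by
      simp [dotProduct, sq]
    rw [h1, h2, Matrix.dotProduct_mulVec, ← Matrix.mulVec_transpose, Matrix.mulVec_mulVec, hP,
      Matrix.one_mulVec]
    simp
  apply le_antisymm
  · refine (nrm_mul _ _).trans ?_
    have := key O hO'
    nlinarith [nrm_nonneg M, nrm_nonneg O]
  · have h1 : M = O.transpose * (O * M) := by rw [← mul_assoc, hO', one_mul]
    conv_lhs => rw [h1]
    refine (nrm_mul _ _).trans ?_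
    have := key O.transpose (by rw [Matrix.transpose_transpose]; exact hO)
    nlinarith [nrm_nonneg (O * M), nrm_nonneg O.transpose]

lemma ev_rot {n : ℕ} (Ab O : Matrix (Fin n) (Fin n) ℝ) (hO : O * O.transpose = 1) (σ x : ℝ)
    (z : Fin n → ℝ) (G : Fin n → Fin n → ℝ) :
    lm O G ∈ ev (O * Ab) σ x (O.mulVec z) ↔ G ∈ ev Ab σ x z := by
  have hO' : O.transpose * O = 1 := mul_eq_one_comm.mp hO
  have hlm : (Matrix.of (lm O G) : Matrix (Fin n) (Fin n) ℝ) = O * Matrix.of G := by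
    ext i j
    simp [lm, Matrix.mul_apply]
  have hA : O * Ab + σ • Matrix.of (lm O G) = O * (Ab + σ • Matrix.of G) := by
    rw [hlm, mul_add, mul_smul_comm]
  simp only [ev, Set.mem_ofPred_eq]
  rw [hA, orth_nrm hO, Matrix.det_mul, abs_mul, orth_det hO, one_mul, Matrix.adjugate_mul_distrib,
    Matrix.mulVec_mulVec, mul_assoc, Matrix.adjugate_mul, mul_smul_comm, mul_one, Matrix.smul_mulVec,
    en_smul, orth_det hO, one_mul]

lemma gen_bound {m : ℕ} (Ab : Matrix (Fin (m+1)) (Fin (m+1)) ℝ)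
    (hA : nrm Ab ≤ Real.sqrt ((m + 1 : ℕ) : ℝ)) {σ x : ℝ}
    (hσ : 0 < σ) (hσ1 : σ ≤ 1) (hx : 0 < x) (z : Fin (m+1) → ℝ) :
    gmm (Fin (m+1)) (Fin (m+1)) (ev Ab σ x z)
      ≤ ENNReal.ofReal (64 * en z * Real.sqrt ((m + 1 : ℕ) : ℝ) / (x * σ)) := by
  obtain ⟨O, hO, hz⟩ := exists_rot z
  have h1 : ev Ab σ x z = lm O ⁻¹' (ev (O * Ab) σ x (en z • Pi.single 0 1)) := by
    ext G
    rw [Set.mem_preimage, ← hz]
    exact (ev_rot Ab O hO σ x z G).symm
  rw [h1, ← Measure.map_apply (lm_meas O) (ev_meas _ _ _ _), gmm_left O hO]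
  refine axis_bound (O * Ab) ?_ hσ hσ1 (en_nonneg z) hx
  rw [orth_nrm hO]
  exact hA

end Pool.Agent.V11333.Cond
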