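import Mathlib
import Pool.Agent.V11333.Cond4

open MeasureTheory ProbabilityTheory Finset
open scoped ENNReal NNReal

namespace Pool.Agent.V11333.Sv

open Pool.Agent.V11333.Slab Pool.Agent.V11333.GRot Pool.Agent.V11333.Cond

/-- `|Mᵀ u|²` -/
def qf {n : ℕ} (M : Fin n → Fin n → ℝ) (u : Fin n → ℝ) : ℝ := ∑ j, (∑ i, u i * M i j) ^ 2

/-- unit sphere -/
def sph (n : ℕ) : Set (Fin n → ℝ) := {u | ∑ i, u i ^ 2 = 1}

/-- square of the smallest singular value -/
noncomputable def s2 {n : ℕ} (M : Fin n → Fin n → ℝ) : ℝ := sInf (qf M '' sph n)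

lemma qf_cont {n : ℕ} : Continuous (fun p : (Fin n → Fin n → ℝ) × (Fin n → ℝ) => qf p.1 p.2) := by
  unfold qf
  fun_prop

lemma qf_nonneg {n : ℕ} (M : Fin n → Fin n → ℝ) (u : Fin n → ℝ) : 0 ≤ qf M u :=
  Finset.sum_nonneg (fun j _ => sq_nonneg _)

lemma sph_compact (n : ℕ) : IsCompact (sph n) := by
  rw [Metric.isCompact_iff_isClosed_bounded]
  constructor
  · exact isClosed_eq (by fun_prop) continuous_const
  · refine (Metric.isBounded_closedBall (x := (0 : Fin n → ℝ)) (r := 1)).subset ?_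
    intro u hu
    rw [mem_closedBall_zero_iff, pi_norm_le_iff_of_nonneg zero_le_one]
    intro i
    rw [Real.norm_eq_abs]
    have h1 : u i ^ 2 ≤ 1 := by
      have h2 : ∑ i, u i ^ 2 = 1 := hu
      rw [← h2]
      exact Finset.single_le_sum (f := fun i => u i ^ 2) (fun j _ => sq_nonneg _) (mem_univ i)
    exact abs_le_one_iff_mul_self_le_one.mpr (by nlinarith)

lemma sph_nonempty (m : ℕ) : (sph (m+1)).Nonempty := by
  refine ⟨Pi.single 0 1, ?_⟩
  unfold sph
  simp only [Set.mem_ofPred_eq]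
  rw [Finset.sum_eq_single 0]
  · simp
  · intro b _ hb
    rw [Pi.single_eq_of_ne hb]
    norm_num
  · intro h
    exact absurd (mem_univ _) h

lemma s2_le {n : ℕ} (M : Fin n → Fin n → ℝ) {u : Fin n → ℝ} (hu : u ∈ sph n) : s2 M ≤ qf M u :=
  csInf_le ⟨0, by rintro _ ⟨v, _, rfl⟩; exact qf_nonneg M v⟩ ⟨u, hu, rfl⟩

lemma s2_att {m : ℕ} (M : Fin (m+1) → Fin (m+1) → ℝ) : ∃ u ∈ sph (m+1), qf M u = s2 M := by
  have hc : ContinuousOn (qf M) (sph (m+1)) := by
    have h : Continuous (fun u : Fin (m+1) → ℝ => qf M u) := by unfold qf; fun_prop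
    exact h.continuousOn
  obtain ⟨u, hu, h⟩ := (sph_compact (m+1)).exists_isMinOn (sph_nonempty m) hc
  refine ⟨u, hu, ?_⟩
  apply le_antisymm _ (s2_le M hu)
  refine le_csInf ((sph_nonempty m).image _) ?_
  rintro _ ⟨v, hv, rfl⟩
  exact h hv

lemma s2_nonneg {m : ℕ} (M : Fin (m+1) → Fin (m+1) → ℝ) : 0 ≤ s2 M := by
  obtain ⟨u, _, h⟩ := s2_att M
  rw [← h]
  exact qf_nonneg _ _

lemma s2_cont {n : ℕ} : Continuous (s2 : (Fin n → Fin n → ℝ) → ℝ) := by
  unfold s2
  exact (sph_compact n).continuous_sInf (f := qf) qf_cont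

lemma s2_meas {n : ℕ} : Measurable (s2 : (Fin n → Fin n → ℝ) → ℝ) := s2_cont.measurable

/-- permuting rows -/
def pr {n : ℕ} (e : Equiv.Perm (Fin n)) (M : Fin n → Fin n → ℝ) : Fin n → Fin n → ℝ :=
  fun i => M (e i)

lemma qf_pr {n : ℕ} (e : Equiv.Perm (Fin n)) (M : Fin n → Fin n → ℝ) (u : Fin n → ℝ) :
    qf (pr e M) (fun i => u (e i)) = qf M u := by
  unfold qf pr
  apply Finset.sum_congr rfl
  intro j _
  rw [Equiv.sum_comp e (fun i => u i * M i j)]

lemma sph_pr {n : ℕ} (e : Equiv.Perm (Fin n)) {u : Fin n → ℝ} (hu : u ∈ sph n) :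
    (fun i => u (e i)) ∈ sph n := by
  unfold sph at hu ⊢
  simp only [Set.mem_ofPred_eq] at hu ⊢
  rw [Equiv.sum_comp e (fun i => u i ^ 2), hu]

lemma s2_pr {m : ℕ} (e : Equiv.Perm (Fin (m+1))) (M : Fin (m+1) → Fin (m+1) → ℝ) :
    s2 (pr e M) = s2 M := by
  have key : ∀ (e : Equiv.Perm (Fin (m+1))) (M : Fin (m+1) → Fin (m+1) → ℝ), s2 (pr e M) ≤ s2 M := by
    intro e M
    obtain ⟨u, hu, h⟩ := s2_att M
    rw [← h, ← qf_pr e M u]
    exact s2_le _ (sph_pr e hu)
  apply le_antisymm (key e M)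
  have h2 : pr e.symm (pr e M) = M := by
    ext i j
    simp [pr]
  conv_lhs => rw [← h2]
  exact key _ _

lemma gmm_pr {n : ℕ} (e : Equiv.Perm (Fin n)) :
    MeasurePreserving (pr e) (gmm (Fin n) (Fin n)) (gmm (Fin n) (Fin n)) := by
  have hm : Measurable (pr e) := by
    unfold pr
    fun_prop
  refine ⟨hm, ?_⟩
  have : IsProbabilityMeasure ((gmm (Fin n) (Fin n)).map (pr e)) :=
    Measure.isProbabilityMeasure_map hm.aemeasurable
  apply ext_gmm
  intro c
  have hc : Continuous (fun G : Fin n → Fin n → ℝ =>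
      Complex.exp (((∑ i, ∑ j, c i j * G i j : ℝ) : ℂ) * Complex.I)) :=
    Complex.continuous_exp.comp
      ((Complex.continuous_ofReal.comp (by fun_prop)).mul continuous_const)
  rw [integral_map hm.aemeasurable hc.aestronglyMeasurable]
  have h1 : ∀ G : Fin n → Fin n → ℝ, (∑ i, ∑ j, c i j * pr e G i j)
      = ∑ i, ∑ j, c (e.symm i) j * G i j := by
    intro G
    unfold pr
    rw [← Equiv.sum_comp e (fun i => ∑ j, c (e.symm i) j * G i j)]
    simp
  simp_rw [h1]
  rw [cf_gmm]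
  congr 4
  exact Equiv.sum_comp e.symm (fun i => ∑ j, c i j ^ 2)

/-- transposed action: the smallest singular value squared is at most `t² /N²` type bounds come from
explicit vectors; singular matrices have `s2 = 0` -/
lemma s2_zero_of_det {m : ℕ} (M : Fin (m+1) → Fin (m+1) → ℝ) (h : (Matrix.of M).det = 0) :
    s2 M = 0 := by
  apply le_antisymm _ (s2_nonneg M)
  obtain ⟨v, hv0, hv⟩ := Matrix.exists_vecMul_eq_zero_iff.mpr h
  have hN : 0 < en v := by
    rcases (en_nonneg v).lt_or_eq with h | h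
    · exact h
    · exact absurd (en_eq_zero h.symm) hv0
  have hmem : (fun i => v i / en v) ∈ sph (m+1) := by
    unfold sph
    simp only [Set.mem_ofPred_eq, div_pow]
    rw [← Finset.sum_div, ← en_sq]
    field_simp
  refine (s2_le M hmem).trans (le_of_eq ?_)
  unfold qf
  apply Finset.sum_eq_zero
  intro j _
  have h3 : (Matrix.vecMul v (Matrix.of M)) j = 0 := by rw [hv]; rfl
  have h4 : ∑ i, v i / en v * M i j = (∑ i, v i * M i j) / en v := by
    rw [Finset.sum_div]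
    apply Finset.sum_congr rfl
    intro i _
    ring
  have h5 : ∑ i, v i * M i j = 0 := by
    rw [← h3]
    rfl
  rw [h4, h5]
  simp

end Pool.Agent.V11333.Sv
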