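import Mathlib
import Pool.Agent.V11333.Sv1
import Pool.Agent.V11333.Cond5

open MeasureTheory ProbabilityTheory Finset
open scoped ENNReal NNReal

namespace Pool.Agent.V11333.Sv

open Pool.Agent.V11333.Slab Pool.Agent.V11333.GRot Pool.Agent.V11333.Cond

noncomputable abbrev g1 : Measure ℝ := gaussianReal 0 1

lemma sq_exp1 : ∫⁻ t, ENNReal.ofReal (t ^ 2) ∂g1 = 1 := by
  have hv := variance_id_gaussianReal (μ := 0) (v := 1)
  rw [variance_eq_integral (by fun_prop)] at hv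
  simp only [id_eq, integral_id_gaussianReal, sub_zero, NNReal.coe_one] at hv
  have hi : Integrable (fun t : ℝ => t ^ 2) g1 := by
    have h := (memLp_id_gaussianReal (μ := 0) (v := 1) 2).integrable_sq
    simpa using h
  rw [← ofReal_integral_eq_lintegral_ofReal hi (ae_of_all _ (fun t => sq_nonneg t))]
  rw [show ∫ t, t ^ 2 ∂g1 = 1 from hv]
  simp

lemma abs_exp1 : ENNReal.ofReal (2 / Real.sqrt (2 * Real.pi)) ≤ ∫⁻ t, ENNReal.ofReal |t| ∂g1 := by
  have hi : Integrable (fun t : ℝ => |t|) g1 := by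
    have h := (memLp_id_gaussianReal (μ := 0) (v := 1) 1)
    have h2 : Integrable (id : ℝ → ℝ) g1 := by
      rw [← memLp_one_iff_integrable]; simpa using h
    exact h2.abs
  rw [← ofReal_integral_eq_lintegral_ofReal hi (ae_of_all _ (fun t => abs_nonneg t))]
  apply ENNReal.ofReal_le_ofReal
  rw [integral_gaussianReal_eq_integral_smul one_ne_zero]
  have h1 : ∀ t : ℝ, gaussianPDFReal 0 1 t • |t|
      = (fun y : ℝ => (Real.sqrt (2 * Real.pi))⁻¹ * (y ^ (1:ℝ) * Real.exp (-(1/2) * y ^ (2:ℝ)))) |t| := by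
    intro t
    simp only [gaussianPDFReal, NNReal.coe_one, mul_one, sub_zero, smul_eq_mul, Real.rpow_one,
      Real.rpow_ofNat, sq_abs]
    rw [mul_assoc, mul_comm (Real.exp _) |t|]
    congr 3
    ring
  simp_rw [h1]
  rw [integral_comp_abs (f := fun y : ℝ => (Real.sqrt (2 * Real.pi))⁻¹ *
    (y ^ (1:ℝ) * Real.exp (-(1/2) * y ^ (2:ℝ))))]
  rw [integral_const_mul, integral_rpow_mul_exp_neg_mul_rpow (by norm_num) (by norm_num) (by norm_num)]
  norm_num
  have : (0:ℝ) < Real.sqrt 2 * Real.sqrt Real.pi := by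
    have := Real.pi_pos
    positivity
  apply le_of_eq
  field_simp

lemma en_exp1 (n : ℕ) : ∫⁻ z, ENNReal.ofReal (en z) ∂(gv (Fin n)) ≤ ENNReal.ofReal (Real.sqrt n) := by
  rcases Nat.eq_zero_or_pos n with rfl | hn
  · simp [en]
  have hnpos : (1:ℝ) ≤ n := by exact_mod_cast hn
  have hsn : 0 < Real.sqrt n := Real.sqrt_pos.mpr (by linarith)
  have hsn2 : Real.sqrt n ^ 2 = n := Real.sq_sqrt (by linarith)
  have hsq : ∫⁻ z, ENNReal.ofReal (en z ^ 2) ∂(gv (Fin n)) = ENNReal.ofReal n := by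
    have e : ∀ z : Fin n → ℝ, ENNReal.ofReal (en z ^ 2) = ∑ j, ENNReal.ofReal (z j ^ 2) := by
      intro z
      rw [en_sq, ENNReal.ofReal_sum_of_nonneg (fun j _ => sq_nonneg _)]
    simp_rw [e]
    rw [lintegral_finsetSum _ (fun j _ => by fun_prop)]
    calc ∑ j, ∫⁻ z, ENNReal.ofReal (z j ^ 2) ∂(gv (Fin n))
        = ∑ _j : Fin n, ∫⁻ t, ENNReal.ofReal (t ^ 2) ∂(gaussianReal 0 1) := by
          apply Finset.sum_congr rfl
          intro j _
          exact (measurePreserving_eval (fun _ : Fin n => gaussianReal 0 1) j).lintegral_comp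
            (f := fun t => ENNReal.ofReal (t ^ 2)) (by fun_prop)
      _ = ∑ _j : Fin n, (1 : ℝ≥0∞) := by simp_rw [sq_exp1]
      _ = _ := by simp
  have hpt : ∀ z : Fin n → ℝ, ENNReal.ofReal (en z)
      ≤ ENNReal.ofReal (1 / 2 * Real.sqrt n) + ENNReal.ofReal (1 / (2 * Real.sqrt n)) *
        ENNReal.ofReal (en z ^ 2) := by
    intro z
    rw [← ENNReal.ofReal_mul (by positivity), ← ENNReal.ofReal_add (by positivity) (by positivity)]
    apply ENNReal.ofReal_le_ofReal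
    rw [← sub_nonneg]
    have h2 : 1 / 2 * Real.sqrt n + 1 / (2 * Real.sqrt n) * en z ^ 2
        - en z = (en z - Real.sqrt n) ^ 2 / (2 * Real.sqrt n) := by
      field_simp
      ring
    rw [h2]
    positivity
  calc ∫⁻ z, ENNReal.ofReal (en z) ∂(gv (Fin n))
      ≤ ∫⁻ z, (ENNReal.ofReal (1 / 2 * Real.sqrt n) + ENNReal.ofReal (1 / (2 * Real.sqrt n)) *
        ENNReal.ofReal (en z ^ 2)) ∂(gv (Fin n)) :=
        lintegral_mono hpt
    _ = ENNReal.ofReal (1 / 2 * Real.sqrt n) + ENNReal.ofReal (1 / (2 * Real.sqrt n)) *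
        ∫⁻ z, ENNReal.ofReal (en z ^ 2) ∂(gv (Fin n)) := by
        rw [lintegral_add_left measurable_const, lintegral_const,
          lintegral_const_mul' _ _ ENNReal.ofReal_ne_top]
        simp
    _ = _ := by
        rw [hsq, ← ENNReal.ofReal_mul (by positivity), ← ENNReal.ofReal_add (by positivity) (by positivity)]
        congr 1
        have h3 : 1 / (2 * Real.sqrt n) * n = Real.sqrt n / 2 := by
          rw [div_mul_eq_mul_div, one_mul, div_eq_div_iff (by positivity) (by norm_num)]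
          nlinarith
        rw [h3]
        ring

/-- the test event -/
def tv {n : ℕ} (δ : ℝ) (z : Fin n → ℝ) : Set (Fin n → Fin n → ℝ) :=
  {G | |(Matrix.of G).det| ≤ δ * en ((Matrix.of G).adjugate.mulVec z)}

lemma tv_closed {n : ℕ} (δ : ℝ) :
    IsClosed {p : (Fin n → Fin n → ℝ) × (Fin n → ℝ) | p.1 ∈ tv δ p.2} := by
  have hA : Continuous (fun p : (Fin n → Fin n → ℝ) × (Fin n → ℝ) =>
      (Matrix.of p.1 : Matrix (Fin n) (Fin n) ℝ)) := continuous_fst
  refine isClosed_le (f := fun p : (Fin n → Fin n → ℝ) × (Fin n → ℝ) =>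
    |(Matrix.of p.1).det|) (g := fun p : (Fin n → Fin n → ℝ) × (Fin n → ℝ) =>
    δ * en ((Matrix.of p.1).adjugate.mulVec p.2)) ?_ ?_
  · exact hA.matrix_det.abs
  · refine continuous_const.mul (en_cont.comp ?_)
    exact hA.matrix_adjugate.matrix_mulVec continuous_snd

lemma tv_meas {n : ℕ} (δ : ℝ) (z : Fin n → ℝ) : MeasurableSet (tv δ z) := by
  have h : Continuous (fun G : Fin n → Fin n → ℝ => (G, z)) := by fun_prop
  exact ((tv_closed δ).preimage h).measurableSet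

lemma cof_ae {m : ℕ} : ∀ᵐ R ∂(gmm (Fin m) (Fin (m+1))), cof R ≠ 0 := by
  have := cof_zero_null (fun _ _ => 0 : Fin m → Fin (m+1) → ℝ) (σ := 1)
    (fun Bb' => det_null Bb' one_pos)
  rw [ae_iff]
  refine measure_mono_null ?_ this
  intro R hR
  simp only [Set.mem_ofPred_eq, not_not] at hR ⊢
  rw [← hR]
  congr 1
  ext i j
  simp

lemma axis_tv {m : ℕ} {δ s : ℝ} (hs : 0 ≤ s) :
    gmm (Fin (m+1)) (Fin (m+1)) (tv δ (s • Pi.single 0 1))
      ≤ ENNReal.ofReal (2 * (δ * s) / Real.sqrt (2 * Real.pi)) := by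
  rw [meas_cons _ (tv_meas δ _)]
  calc ∫⁻ R, gv (Fin (m+1)) {g | (Fin.cons g R : Fin (m+1) → Fin (m+1) → ℝ) ∈
          tv δ (s • Pi.single 0 1)} ∂(gmm (Fin m) (Fin (m+1)))
      ≤ ∫⁻ R, ENNReal.ofReal (2 * (δ * s) / Real.sqrt (2 * Real.pi)) ∂(gmm (Fin m) (Fin (m+1))) := by
        apply lintegral_mono_ae
        filter_upwards [cof_ae] with R hR
        have hN : 0 < en (cof R) := by
          rcases (en_nonneg (cof R)).lt_or_eq with h | h
          · exact h
          · exact absurd (en_eq_zero h.symm) hR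
        have h3 := slab_gen (v := 1) one_ne_zero (cof R) _ hN (en_sq _).symm 0 (δ * s)
        simp only [NNReal.coe_one, mul_one] at h3
        refine le_trans (measure_mono ?_) h3
        intro g hg
        simp only [tv, Set.mem_ofPred_eq] at hg ⊢
        rw [adj_cons, det_cons, en_smul, abs_of_nonneg hs] at hg
        rw [add_zero]
        have e : ∑ j, cof R j * g j = ∑ j, g j * cof R j := by
          apply Finset.sum_congr rfl
          intro j _
          ring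
        rw [e]
        linarith
    _ = _ := by simp

lemma tv_rot {n : ℕ} (O : Matrix (Fin n) (Fin n) ℝ) (hO : O * O.transpose = 1) (δ : ℝ)
    (z : Fin n → ℝ) (G : Fin n → Fin n → ℝ) :
    lm O G ∈ tv δ (O.mulVec z) ↔ G ∈ tv δ z := by
  have hO' : O.transpose * O = 1 := mul_eq_one_comm.mp hO
  have hlm : (Matrix.of (lm O G) : Matrix (Fin n) (Fin n) ℝ) = O * Matrix.of G := by
    ext i j
    simp [lm, Matrix.mul_apply]
  simp only [tv, Set.mem_ofPred_eq]
  rw [hlm, Matrix.det_mul, abs_mul, orth_det hO, one_mul, Matrix.adjugate_mul_distrib,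
    Matrix.mulVec_mulVec, mul_assoc, Matrix.adjugate_mul, mul_smul_comm, mul_one, Matrix.smul_mulVec,
    en_smul, orth_det hO, one_mul]

lemma gen_tv {m : ℕ} (δ : ℝ) (z : Fin (m+1) → ℝ) :
    gmm (Fin (m+1)) (Fin (m+1)) (tv δ z)
      ≤ ENNReal.ofReal (2 * (δ * en z) / Real.sqrt (2 * Real.pi)) := by
  obtain ⟨O, hO, hz⟩ := exists_rot z
  have h1 : tv δ z = lm O ⁻¹' (tv δ (en z • Pi.single 0 1)) := by
    ext G
    rw [Set.mem_preimage, ← hz]
    exact (tv_rot O hO δ z G).symm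
  rw [h1, ← Measure.map_apply (lm_meas O) (tv_meas _ _), gmm_left O hO]
  exact axis_tv (en_nonneg z)

lemma tv_low {m : ℕ} {δ : ℝ} (hδ : 0 ≤ δ) (G : Fin (m+1) → Fin (m+1) → ℝ) :
    g1 {t | s2 G ≤ δ ^ 2 * t ^ 2} ≤ gv (Fin (m+1)) {z | G ∈ tv δ z} := by
  by_cases hd : (Matrix.of G).det = 0
  · have : {z : Fin (m+1) → ℝ | G ∈ tv δ z} = Set.univ := by
      ext z
      simp only [tv, Set.mem_ofPred_eq, Set.mem_univ, iff_true, hd, abs_zero]
      exact mul_nonneg hδ (en_nonneg _)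
    rw [this, measure_univ]
    exact prob_le_one
  · obtain ⟨u, hu, hus⟩ := s2_att G
    have hlaw := law_lin (1 : ℝ≥0) u hu
    have hmeas : Measurable (fun a : Fin (m+1) → ℝ => ∑ j, u j * a j) := by fun_prop
    have hS : MeasurableSet {t : ℝ | s2 G ≤ δ ^ 2 * t ^ 2} :=
      measurableSet_le (by fun_prop) (by fun_prop)
    have e0 : g1 {t | s2 G ≤ δ ^ 2 * t ^ 2}
        = gv (Fin (m+1)) ((fun a : Fin (m+1) → ℝ => ∑ j, u j * a j) ⁻¹' {t | s2 G ≤ δ ^ 2 * t ^ 2}) := by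
      rw [← Measure.map_apply hmeas hS, hlaw]
    rw [e0]
    apply measure_mono
    intro z hz
    simp only [Set.mem_preimage, Set.mem_ofPred_eq] at hz
    -- y = G⁻¹ z
    set y := (Matrix.of G)⁻¹.mulVec z with hy
    have hGy : (Matrix.of G).mulVec y = z := by
      rw [hy, Matrix.mulVec_mulVec, Matrix.mul_nonsing_inv _ (Ne.isUnit hd), Matrix.one_mulVec]
    have h1 : ∑ j, u j * z j = ∑ j, (∑ i, u i * G i j) * y j := by
      have : ∀ i, z i = ∑ j, G i j * y j := by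
        intro i
        rw [← hGy]
        rfl
      simp_rw [this, Finset.mul_sum, Finset.sum_mul]
      rw [Finset.sum_comm]
      apply Finset.sum_congr rfl
      intro j _
      apply Finset.sum_congr rfl
      intro i _
      ring
    have hcs := Finset.sum_mul_sq_le_sq_mul_sq univ (fun j => ∑ i, u i * G i j) y
    rw [← h1, ← en_sq y] at hcs
    have hcs2 : (∑ j, u j * z j) ^ 2 ≤ s2 G * en y ^ 2 := by
      rw [← hus]; exact hcs
    have hpos : 0 < s2 G := by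
      rcases (s2_nonneg G).lt_or_eq with h | h
      · exact h
      · exfalso
        have h2 : qf G u = 0 := by rw [hus, ← h]
        unfold qf at h2
        rw [Finset.sum_eq_zero_iff_of_nonneg (fun j _ => sq_nonneg _)] at h2
        have h3 : Matrix.vecMul u (Matrix.of G) = 0 := by
          ext j
          have := h2 j (mem_univ j)
          exact pow_eq_zero_iff (two_ne_zero) |>.mp this
        have h4 : u = 0 := by
          by_contra hne
          exact hd (Matrix.exists_vecMul_eq_zero_iff.mp ⟨u, hne, h3⟩)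
        have h5 : ∑ i, u i ^ 2 = 1 := hu
        rw [h4] at h5
        simp at h5
    have h6 : s2 G ≤ s2 G * (δ ^ 2 * en y ^ 2) := by
      calc s2 G ≤ δ ^ 2 * (∑ j, u j * z j) ^ 2 := hz
        _ ≤ δ ^ 2 * (s2 G * en y ^ 2) := mul_le_mul_of_nonneg_left hcs2 (sq_nonneg _)
        _ = _ := by ring
    have h7 : 1 ≤ (δ * en y) ^ 2 := by
      have : s2 G * 1 ≤ s2 G * (δ * en y) ^ 2 := by
        rw [mul_one, mul_pow]; exact h6
      exact le_of_mul_le_mul_left this hpos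
    have h8 : 1 ≤ δ * en y := by
      have h9 : 0 ≤ δ * en y := mul_nonneg hδ (en_nonneg _)
      nlinarith
    change |(Matrix.of G).det| ≤ δ * en ((Matrix.of G).adjugate.mulVec z)
    have h5 : (Matrix.of G).adjugate.mulVec z = (Matrix.of G).det • y := by
      rw [hy, Matrix.inv_def, Matrix.smul_mulVec, smul_smul, Ring.mul_inverse_cancel _ (Ne.isUnit hd),
        one_smul]
    rw [h5, en_smul]
    have h10 := mul_le_mul_of_nonneg_left h8 (abs_nonneg (Matrix.of G).det)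
    linarith

/-- distribution function of `s2` -/
noncomputable def F (n : ℕ) (E : ℝ) : ℝ≥0∞ := gmm (Fin n) (Fin n) {G | s2 G ≤ E}

lemma F_mono {n : ℕ} {a b : ℝ} (h : a ≤ b) : F n a ≤ F n b :=
  measure_mono (fun _ hG => le_trans hG h)

/-- averaged bound -/
lemma avg_bound {m : ℕ} {δ : ℝ} (hδ : 0 ≤ δ) :
    ∫⁻ t, F (m+1) (δ ^ 2 * t ^ 2) ∂g1
      ≤ ENNReal.ofReal (2 * δ * Real.sqrt ((m + 1 : ℕ) : ℝ) / Real.sqrt (2 * Real.pi)) := by
  have hT : MeasurableSet {p : (Fin (m+1) → Fin (m+1) → ℝ) × (Fin (m+1) → ℝ) |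
      p.1 ∈ tv δ p.2} := (tv_closed δ).measurableSet
  have hS : MeasurableSet {p : (Fin (m+1) → Fin (m+1) → ℝ) × ℝ | s2 p.1 ≤ δ ^ 2 * p.2 ^ 2} :=
    measurableSet_le (s2_meas.comp measurable_fst) (by fun_prop)
  have h1 : ∫⁻ t, F (m+1) (δ ^ 2 * t ^ 2) ∂g1
      = ∫⁻ G, g1 {t | s2 G ≤ δ ^ 2 * t ^ 2} ∂(gmm (Fin (m+1)) (Fin (m+1))) := by
    have ha := Measure.prod_apply (μ := gmm (Fin (m+1)) (Fin (m+1))) (ν := g1) hS
    have hb := Measure.prod_apply_symm (μ := gmm (Fin (m+1)) (Fin (m+1))) (ν := g1) hS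
    exact hb.symm.trans ha
  have h2 : ∫⁻ G, gv (Fin (m+1)) {z | G ∈ tv δ z} ∂(gmm (Fin (m+1)) (Fin (m+1)))
      = ∫⁻ z, gmm (Fin (m+1)) (Fin (m+1)) (tv δ z) ∂(gv (Fin (m+1))) := by
    have ha := Measure.prod_apply (μ := gmm (Fin (m+1)) (Fin (m+1))) (ν := gv (Fin (m+1))) hT
    have hb := Measure.prod_apply_symm (μ := gmm (Fin (m+1)) (Fin (m+1))) (ν := gv (Fin (m+1))) hT
    exact ha.symm.trans hb
  rw [h1]
  calc ∫⁻ G, g1 {t | s2 G ≤ δ ^ 2 * t ^ 2} ∂(gmm (Fin (m+1)) (Fin (m+1)))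
      ≤ ∫⁻ G, gv (Fin (m+1)) {z | G ∈ tv δ z} ∂(gmm (Fin (m+1)) (Fin (m+1))) :=
        lintegral_mono (fun G => tv_low hδ G)
    _ = ∫⁻ z, gmm (Fin (m+1)) (Fin (m+1)) (tv δ z) ∂(gv (Fin (m+1))) := h2
    _ ≤ ∫⁻ z, ENNReal.ofReal (2 * δ / Real.sqrt (2 * Real.pi)) * ENNReal.ofReal (en z)
        ∂(gv (Fin (m+1))) := by
        apply lintegral_mono
        intro z
        refine (gen_tv δ z).trans (le_of_eq ?_)
        beta_reduce
        rw [← ENNReal.ofReal_mul (by positivity)]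
        congr 1
        ring
    _ = ENNReal.ofReal (2 * δ / Real.sqrt (2 * Real.pi)) * ∫⁻ z, ENNReal.ofReal (en z)
        ∂(gv (Fin (m+1))) := lintegral_const_mul' _ _ ENNReal.ofReal_ne_top
    _ ≤ ENNReal.ofReal (2 * δ / Real.sqrt (2 * Real.pi)) *
        ENNReal.ofReal (Real.sqrt ((m + 1 : ℕ) : ℝ)) := by
        gcongr
        exact en_exp1 (m+1)
    _ = _ := by
        rw [← ENNReal.ofReal_mul (by positivity)]
        congr 1
        ring

/-- star-shapedness plus the averaged bound give the centred bound -/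
lemma centred_of_star {m : ℕ} (hstar : ∀ κ : ℝ, 0 ≤ κ → κ ≤ 1 → ∀ E : ℝ, 0 ≤ E →
      ENNReal.ofReal κ * F (m+1) E ≤ F (m+1) (κ ^ 2 * E)) {r : ℝ} (hr : 0 ≤ r) :
    F (m+1) (r ^ 2) ≤ ENNReal.ofReal (r * Real.sqrt ((m + 1 : ℕ) : ℝ)) := by
  set c := Real.sqrt ((m + 1 : ℕ) : ℝ) with hc
  -- for each K
  have hK : ∀ K : ℕ, F (m+1) (r ^ 2) * ∫⁻ t in Set.Icc (-(K+1:ℝ)) (K+1), ENNReal.ofReal |t| ∂g1
      ≤ ENNReal.ofReal (2 * r * c / Real.sqrt (2 * Real.pi)) := by
    intro K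
    have hKpos : (0:ℝ) < K + 1 := by positivity
    have h1 := avg_bound (m := m) (δ := r / (K+1)) (by positivity)
    have h2 : ∫⁻ t in Set.Icc (-(K+1:ℝ)) (K+1), ENNReal.ofReal (|t| / (K+1)) * F (m+1) (r ^ 2) ∂g1
        ≤ ∫⁻ t, F (m+1) ((r / (K+1)) ^ 2 * t ^ 2) ∂g1 := by
      refine le_trans ?_ (setLIntegral_le_lintegral (Set.Icc (-(K+1:ℝ)) (K+1)) _)
      apply setLIntegral_mono' measurableSet_Icc
      intro t ht
      have ht2 : |t| ≤ K + 1 := abs_le.mpr ht
      have h3 := hstar (|t| / (K+1)) (by positivity) ((div_le_one hKpos).mpr ht2) (r ^ 2) (sq_nonneg r)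
      refine h3.trans (le_of_eq ?_)
      congr 1
      rw [div_pow, div_pow, sq_abs]
      ring
    have h4 : ∫⁻ t in Set.Icc (-(K+1:ℝ)) (K+1), ENNReal.ofReal (|t| / (K+1)) * F (m+1) (r ^ 2) ∂g1
        = ENNReal.ofReal (1 / (K+1)) * (F (m+1) (r ^ 2) *
          ∫⁻ t in Set.Icc (-(K+1:ℝ)) (K+1), ENNReal.ofReal |t| ∂g1) := by
      have hne : F (m+1) (r ^ 2) ≠ ∞ := measure_ne_top _ _
      have e : ∀ t : ℝ, ENNReal.ofReal (|t| / (K+1)) * F (m+1) (r ^ 2)
          = (ENNReal.ofReal (1 / (K+1)) * F (m+1) (r ^ 2)) * ENNReal.ofReal |t| := by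
        intro t
        rw [show |t| / ((K:ℝ)+1) = (1 / (K+1)) * |t| by ring, ENNReal.ofReal_mul (by positivity)]
        ring
      simp_rw [e]
      rw [lintegral_const_mul' _ _ (ENNReal.mul_ne_top ENNReal.ofReal_ne_top hne)]
      ring
    rw [h4] at h2
    have h5 := h2.trans h1
    have h6 : ENNReal.ofReal (2 * (r / (K+1)) * Real.sqrt ((m + 1 : ℕ) : ℝ) / Real.sqrt (2 * Real.pi))
        = ENNReal.ofReal (1 / (K+1)) * ENNReal.ofReal (2 * r * c / Real.sqrt (2 * Real.pi)) := by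
      rw [← ENNReal.ofReal_mul (by positivity)]
      congr 1
      rw [← hc]
      field_simp
    rw [h6] at h5
    have h7 : ENNReal.ofReal (1 / ((K:ℝ)+1)) ≠ 0 := by
      rw [ENNReal.ofReal_ne_zero_iff]; positivity
    exact (ENNReal.mul_le_mul_iff_right h7 ENNReal.ofReal_ne_top).mp h5
  -- limit
  have hlim : ∫⁻ t, ENNReal.ofReal |t| ∂g1
      = ⨆ K : ℕ, ∫⁻ t in Set.Icc (-(K+1:ℝ)) (K+1), ENNReal.ofReal |t| ∂g1 := by
    rw [← setLIntegral_univ]
    have hU : (Set.univ : Set ℝ) = ⋃ K : ℕ, Set.Icc (-(K+1:ℝ)) (K+1) := by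
      ext t
      simp only [Set.mem_univ, Set.mem_iUnion, Set.mem_Icc, true_iff]
      obtain ⟨K, hK⟩ := exists_nat_ge |t|
      exact ⟨K, abs_le.mp (hK.trans (by linarith))⟩
    rw [hU]
    rw [setLIntegral_iUnion_of_directed]
    apply Monotone.directed_le
    intro a b hab
    apply Set.Icc_subset_Icc
    · have : (a:ℝ) ≤ b := by exact_mod_cast hab
      linarith
    · have : (a:ℝ) ≤ b := by exact_mod_cast hab
      linarith
  have h8 : F (m+1) (r ^ 2) * ENNReal.ofReal (2 / Real.sqrt (2 * Real.pi))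
      ≤ ENNReal.ofReal (2 * r * c / Real.sqrt (2 * Real.pi)) := by
    calc F (m+1) (r ^ 2) * ENNReal.ofReal (2 / Real.sqrt (2 * Real.pi))
        ≤ F (m+1) (r ^ 2) * ∫⁻ t, ENNReal.ofReal |t| ∂g1 := by
          gcongr
          exact abs_exp1
      _ ≤ _ := by
          rw [hlim, ENNReal.mul_iSup]
          exact iSup_le hK
  have hpos : 0 < 2 / Real.sqrt (2 * Real.pi) := by
    have := Real.pi_pos
    positivity
  have h9 : ENNReal.ofReal (2 * r * c / Real.sqrt (2 * Real.pi))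
      = ENNReal.ofReal (r * c) * ENNReal.ofReal (2 / Real.sqrt (2 * Real.pi)) := by
    rw [← ENNReal.ofReal_mul (by positivity)]
    congr 1
    ring
  rw [h9] at h8
  exact (ENNReal.mul_le_mul_iff_left (by rw [ENNReal.ofReal_ne_zero_iff]; exact hpos)
    ENNReal.ofReal_ne_top).mp h8

end Pool.Agent.V11333.Sv
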