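import Mathlib
import Pool.Agent.V11333.Sv2

open MeasureTheory ProbabilityTheory Finset
open scoped ENNReal NNReal

namespace Pool.Agent.V11333.Sv

open Pool.Agent.V11333.Slab Pool.Agent.V11333.GRot Pool.Agent.V11333.Cond

/-- standard Gaussian density -/
noncomputable abbrev ph (t : ℝ) : ℝ := gaussianPDFReal 0 1 t

lemma ph_eq (t : ℝ) : ph t = (Real.sqrt (2 * Real.pi))⁻¹ * Real.exp (-t ^ 2 / 2) := by
  unfold ph gaussianPDFReal
  simp

lemma ph_anti {a b : ℝ} (h : a ^ 2 ≤ b ^ 2) : ph b ≤ ph a := by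
  rw [ph_eq, ph_eq]
  apply mul_le_mul_of_nonneg_left _ (by positivity)
  apply Real.exp_le_exp.mpr
  linarith

lemma ph_nonneg (t : ℝ) : 0 ≤ ph t := gaussianPDFReal_nonneg _ _ _

lemma ph_meas : Measurable ph := measurable_gaussianPDFReal 0 1

lemma ph_int : Integrable ph := integrable_gaussianPDFReal 0 1

/-- integrability of bounded functions against the density -/
lemma int_bdd {f : ℝ → ℝ} (hf : Measurable f) {C : ℝ} (hb : ∀ t, |f t| ≤ C) :
    Integrable (fun t => ph t * f t) := by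
  refine Integrable.mono' (ph_int.mul_const C) (ph_meas.mul hf).aestronglyMeasurable ?_
  refine ae_of_all _ (fun t => ?_)
  rw [Real.norm_eq_abs, abs_mul, abs_of_nonneg (ph_nonneg t)]
  exact mul_le_mul_of_nonneg_left (hb t) (ph_nonneg t)

/-- J functional -/
lemma J_formula {Y : ℝ → ℝ} (hY : Measurable Y) (h0 : ∀ t, 0 ≤ Y t) (h1 : ∀ t, Y t ≤ t ^ 2)
    {q : ℝ} (hq0 : 0 < q) (hq1 : q < 1) :
    ∫ t, ph t * ((Y t - Y (q * t)) / t ^ 2) = ∫ t, (ph t - q * ph (t / q)) * (Y t / t ^ 2) := by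
  have hb : ∀ t, |Y t / t ^ 2| ≤ 1 := by
    intro t
    rw [abs_of_nonneg (div_nonneg (h0 t) (sq_nonneg t))]
    rcases eq_or_ne t 0 with rfl | ht
    · simp
    · rw [div_le_one (by positivity)]; exact h1 t
  have hm1 : Measurable (fun t => Y t / t ^ 2) := by fun_prop
  have hm2 : Measurable (fun t => Y (q * t) / t ^ 2) := by fun_prop
  have hb2 : ∀ t, |Y (q * t) / t ^ 2| ≤ 1 := by
    intro t
    rw [abs_of_nonneg (div_nonneg (h0 _) (sq_nonneg t))]
    rcases eq_or_ne t 0 with rfl | ht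
    · simp
    · rw [div_le_one (by positivity)]
      refine (h1 _).trans ?_
      rw [mul_pow]
      exact mul_le_of_le_one_left (sq_nonneg t) (by nlinarith)
  have i1 := int_bdd hm1 hb
  have i2 := int_bdd hm2 hb2
  have e1 : ∫ t, ph t * ((Y t - Y (q * t)) / t ^ 2)
      = (∫ t, ph t * (Y t / t ^ 2)) - ∫ t, ph t * (Y (q * t) / t ^ 2) := by
    rw [← integral_sub i1 i2]
    congr 1
    ext t
    ring
  have e2 : ∫ t, ph t * (Y (q * t) / t ^ 2) = ∫ t, q * ph (t / q) * (Y t / t ^ 2) := by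
    have h := Measure.integral_comp_mul_left (fun t => q * (q * ph (t / q) * (Y t / t ^ 2))) q
    have e3 : ∀ t, q * (q * ph (q * t / q) * (Y (q * t) / (q * t) ^ 2)) = ph t * (Y (q * t) / t ^ 2) := by
      intro t
      rw [mul_div_cancel_left₀ t hq0.ne', mul_pow]
      rcases eq_or_ne t 0 with rfl | ht
      · simp
      · field_simp
    simp_rw [e3] at h
    rw [h, abs_of_pos (by positivity), smul_eq_mul, integral_const_mul]
    field_simp
  have i3 : Integrable (fun t => q * ph (t / q) * (Y t / t ^ 2)) := by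
    have h := (ph_int.comp_div hq0.ne').const_mul q
    refine Integrable.mono' h ?_ ?_
    · have : Measurable (fun t => ph (t / q)) := ph_meas.comp (by fun_prop)
      exact ((this.const_mul q).mul hm1).aestronglyMeasurable
    · refine ae_of_all _ (fun t => ?_)
      rw [Real.norm_eq_abs, abs_mul, abs_of_nonneg (mul_nonneg hq0.le (ph_nonneg _))]
      exact mul_le_of_le_one_right (mul_nonneg hq0.le (ph_nonneg _)) (hb t)
  rw [e1, e2, ← integral_sub i1 i3]
  congr 1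
  ext t
  ring

lemma kern_nonneg {q : ℝ} (hq0 : 0 < q) (hq1 : q < 1) (t : ℝ) : 0 ≤ ph t - q * ph (t / q) := by
  have h1 : ph (t / q) ≤ ph t := by
    apply ph_anti
    rw [div_pow, le_div_iff₀ (by positivity)]
    exact mul_le_of_le_one_right (sq_nonneg t) (by nlinarith)
  nlinarith [ph_nonneg t, ph_nonneg (t / q)]

lemma J_mono {Y Z : ℝ → ℝ} (hY : Measurable Y) (h0 : ∀ t, 0 ≤ Y t) (h1 : ∀ t, Y t ≤ t ^ 2)
    (hZ : Measurable Z) (h0' : ∀ t, 0 ≤ Z t) (h1' : ∀ t, Z t ≤ t ^ 2) (hle : ∀ t, Y t ≤ Z t)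
    {q : ℝ} (hq0 : 0 < q) (hq1 : q < 1) :
    ∫ t, ph t * ((Y t - Y (q * t)) / t ^ 2) ≤ ∫ t, ph t * ((Z t - Z (q * t)) / t ^ 2) := by
  rw [J_formula hY h0 h1 hq0 hq1, J_formula hZ h0' h1' hq0 hq1]
  have hi : ∀ {W : ℝ → ℝ}, Measurable W → (∀ t, 0 ≤ W t) → (∀ t, W t ≤ t ^ 2) →
      Integrable (fun t => (ph t - q * ph (t / q)) * (W t / t ^ 2)) := by
    intro W hW hW0 hW1
    refine Integrable.mono' ph_int ?_ ?_
    · have : Measurable (fun t => ph (t / q)) := ph_meas.comp (by fun_prop)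
      exact ((ph_meas.sub (this.const_mul q)).mul (by fun_prop)).aestronglyMeasurable
    · refine ae_of_all _ (fun t => ?_)
      have h2 : 0 ≤ W t / t ^ 2 := div_nonneg (hW0 t) (sq_nonneg t)
      have h3 : W t / t ^ 2 ≤ 1 := by
        rcases eq_or_ne t 0 with rfl | ht
        · simp
        · rw [div_le_one (by positivity)]; exact hW1 t
      have h4 := kern_nonneg hq0 hq1 t
      rw [Real.norm_eq_abs, abs_of_nonneg (mul_nonneg h4 h2)]
      have h5 : ph t - q * ph (t / q) ≤ ph t := by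
        have := mul_nonneg hq0.le (ph_nonneg (t / q))
        linarith
      calc (ph t - q * ph (t / q)) * (W t / t ^ 2) ≤ (ph t - q * ph (t / q)) * 1 :=
            mul_le_mul_of_nonneg_left h3 h4
        _ ≤ ph t := by linarith
  apply integral_mono (hi hY h0 h1) (hi hZ h0' h1')
  intro t
  apply mul_le_mul_of_nonneg_left _ (kern_nonneg hq0 hq1 t)
  gcongr
  exact hle t

/-- the line lemma -/
lemma line_lemma {S : ℝ → ℝ} (hS : Continuous S) (h0 : ∀ t, 0 ≤ S t) (h1 : ∀ t, S t ≤ t ^ 2)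
    (hmono : ∀ a b : ℝ, |a| ≤ |b| → S a ≤ S b)
    (hstar : ∀ c : ℝ, 0 ≤ c → c ≤ 1 → ∀ t, c ^ 2 * S t ≤ S (c * t))
    {q κ E : ℝ} (hq0 : 0 < q) (hq1 : q < 1) (hκ0 : 0 < κ) (hκ1 : κ ≤ 1) (hE : 0 ≤ E) :
    ENNReal.ofReal (q * κ) *
      ∫⁻ t, ENNReal.ofReal ((min (S (q * t)) E - min (S t) E) / ((q ^ 2 - 1) * t ^ 2)) ∂g1
      ≤ ∫⁻ t, ENNReal.ofReal ((min (S (q⁻¹ * t)) (κ ^ 2 * E) - min (S t) (κ ^ 2 * E)) /
          ((q⁻¹ ^ 2 - 1) * t ^ 2)) ∂g1 := by
  have hq2 : 0 < 1 - q ^ 2 := by nlinarith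
  have hSm := hS.measurable
  -- abbreviations
  set B : ℝ → ℝ := fun t => min (S t) E with hB
  set A : ℝ → ℝ := fun t => min (S t) (κ ^ 2 * E) with hA
  have hBm : Measurable B := hSm.min measurable_const
  have hAm : Measurable A := hSm.min measurable_const
  have hB0 : ∀ t, 0 ≤ B t := fun t => le_min (h0 t) hE
  have hA0 : ∀ t, 0 ≤ A t := fun t => le_min (h0 t) (by positivity)
  have hB1 : ∀ t, B t ≤ t ^ 2 := fun t => (min_le_left _ _).trans (h1 t)
  have hA1 : ∀ t, A t ≤ t ^ 2 := fun t => (min_le_left _ _).trans (h1 t)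
  have habs : ∀ c : ℝ, 0 < c → c ≤ 1 → ∀ t : ℝ, |c * t| ≤ |t| := by
    intro c hc0 hc1 t
    rw [abs_mul, abs_of_pos hc0]
    nlinarith [abs_nonneg t]
  have hBq : ∀ t, B (q * t) ≤ B t := fun t => min_le_min_right _ (hmono _ _ (habs q hq0 hq1.le t))
  have hAq : ∀ t, A t ≤ A (q⁻¹ * t) := by
    intro t
    apply min_le_min_right
    apply hmono
    have := habs q hq0 hq1.le (q⁻¹ * t)
    rwa [mul_inv_cancel_left₀ hq0.ne'] at this
  -- real integrals
  have hfm : Measurable (fun t => (B (q * t) - B t) / ((q ^ 2 - 1) * t ^ 2)) := by fun_prop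
  have hfb : ∀ t, |(B (q * t) - B t) / ((q ^ 2 - 1) * t ^ 2)| ≤ 1 / (1 - q ^ 2) := by
    intro t
    have e : (B (q * t) - B t) / ((q ^ 2 - 1) * t ^ 2) = (1 / (1 - q ^ 2)) * ((B t - B (q * t)) / t ^ 2) := by
      rw [show (q ^ 2 - 1) * t ^ 2 = -((1 - q ^ 2) * t ^ 2) by ring,
        show B (q * t) - B t = -(B t - B (q * t)) by ring, neg_div_neg_eq, div_mul_div_comm, one_mul]
    rw [e, abs_mul, abs_of_pos (by positivity : 0 < 1 / (1 - q ^ 2))]
    apply mul_le_of_le_one_right (by positivity)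
    rw [abs_of_nonneg (div_nonneg (sub_nonneg.mpr (hBq t)) (sq_nonneg t))]
    rcases eq_or_ne t 0 with rfl | ht
    · simp
    · rw [div_le_one (by positivity)]
      linarith [hB0 (q * t), hB1 t]
  have hgm : Measurable (fun t => (A (q⁻¹ * t) - A t) / ((q⁻¹ ^ 2 - 1) * t ^ 2)) := by fun_prop
  have hq3 : 0 < q⁻¹ ^ 2 - 1 := by
    have : 1 < q⁻¹ := (one_lt_inv₀ hq0).mpr hq1
    nlinarith
  have hg0 : ∀ t, 0 ≤ (A (q⁻¹ * t) - A t) / ((q⁻¹ ^ 2 - 1) * t ^ 2) := fun t =>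
    div_nonneg (sub_nonneg.mpr (hAq t)) (by positivity)
  have hgb : ∀ t, |(A (q⁻¹ * t) - A t) / ((q⁻¹ ^ 2 - 1) * t ^ 2)| ≤ q⁻¹ ^ 2 / (q⁻¹ ^ 2 - 1) := by
    intro t
    rw [abs_of_nonneg (hg0 t)]
    rcases eq_or_ne t 0 with rfl | ht
    · simp only [ne_eq, OfNat.ofNat_ne_zero, not_false_eq_true, zero_pow, mul_zero, div_zero]
      exact div_nonneg (by positivity) hq3.le
    · rw [div_le_div_iff₀ (by positivity) hq3]
      have h3 := hA1 (q⁻¹ * t)
      rw [mul_pow] at h3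
      have h4 := hA0 t
      have h5 : A (q⁻¹ * t) - A t ≤ q⁻¹ ^ 2 * t ^ 2 := by linarith
      nlinarith [mul_le_mul_of_nonneg_right h5 hq3.le]
  have hf0 : ∀ t, 0 ≤ (B (q * t) - B t) / ((q ^ 2 - 1) * t ^ 2) := by
    intro t
    apply div_nonneg_of_nonpos
    · linarith [hBq t]
    · nlinarith [sq_nonneg t]
  have hIf : Integrable (fun t => (B (q * t) - B t) / ((q ^ 2 - 1) * t ^ 2)) g1 := by
    refine Integrable.mono' (integrable_const (1 / (1 - q ^ 2))) hfm.aestronglyMeasurable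
      (ae_of_all _ (fun t => ?_))
    rw [Real.norm_eq_abs]; exact hfb t
  have hIg : Integrable (fun t => (A (q⁻¹ * t) - A t) / ((q⁻¹ ^ 2 - 1) * t ^ 2)) g1 := by
    refine Integrable.mono' (integrable_const (q⁻¹ ^ 2 / (q⁻¹ ^ 2 - 1))) hgm.aestronglyMeasurable
      (ae_of_all _ (fun t => ?_))
    rw [Real.norm_eq_abs]; exact hgb t
  change ENNReal.ofReal (q * κ) * ∫⁻ t, ENNReal.ofReal ((B (q * t) - B t) / ((q ^ 2 - 1) * t ^ 2)) ∂g1
    ≤ ∫⁻ t, ENNReal.ofReal ((A (q⁻¹ * t) - A t) / ((q⁻¹ ^ 2 - 1) * t ^ 2)) ∂g1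
  rw [← ofReal_integral_eq_lintegral_ofReal hIf (ae_of_all _ hf0),
    ← ofReal_integral_eq_lintegral_ofReal hIg (ae_of_all _ hg0),
    ← ENNReal.ofReal_mul (by positivity)]
  apply ENNReal.ofReal_le_ofReal
  rw [integral_gaussianReal_eq_integral_smul one_ne_zero,
    integral_gaussianReal_eq_integral_smul one_ne_zero]
  simp only [smul_eq_mul]
  change q * κ * ∫ t, ph t * ((B (q * t) - B t) / ((q ^ 2 - 1) * t ^ 2))
    ≤ ∫ t, ph t * ((A (q⁻¹ * t) - A t) / ((q⁻¹ ^ 2 - 1) * t ^ 2))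
  -- left side
  have eL : ∫ t, ph t * ((B (q * t) - B t) / ((q ^ 2 - 1) * t ^ 2))
      = (1 / (1 - q ^ 2)) * ∫ t, ph t * ((B t - B (q * t)) / t ^ 2) := by
    rw [← integral_const_mul]
    congr 1
    ext t
    rw [show (q ^ 2 - 1) * t ^ 2 = -((1 - q ^ 2) * t ^ 2) by ring,
        show B (q * t) - B t = -(B t - B (q * t)) by ring, neg_div_neg_eq]
    field_simp
  -- right side: substitution
  set Ak : ℝ → ℝ := fun t => A (κ * t) with hAk
  have hqk : 0 < q * κ := by positivity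
  have eR : ∫ t, ph t * ((A (q⁻¹ * t) - A t) / ((q⁻¹ ^ 2 - 1) * t ^ 2))
      = (q / κ) * (1 / (1 - q ^ 2)) * ∫ t, ph (q * κ * t) * ((Ak t - Ak (q * t)) / t ^ 2) := by
    have h := Measure.integral_comp_mul_left
      (fun t => ph t * ((A (q⁻¹ * t) - A t) / ((q⁻¹ ^ 2 - 1) * t ^ 2))) (q * κ)
    rw [abs_of_pos (by positivity), smul_eq_mul] at h
    have e3 : ∀ t, ph (q * κ * t) * ((A (q⁻¹ * (q * κ * t)) - A (q * κ * t)) /
        ((q⁻¹ ^ 2 - 1) * (q * κ * t) ^ 2))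
        = (1 / (κ ^ 2 * (1 - q ^ 2))) * (ph (q * κ * t) * ((Ak t - Ak (q * t)) / t ^ 2)) := by
      intro t
      have e4 : q⁻¹ * (q * κ * t) = κ * t := by field_simp
      have e5 : q * κ * t = κ * (q * t) := by ring
      have e6 : (q⁻¹ ^ 2 - 1) * (q * κ * t) ^ 2 = (κ ^ 2 * (1 - q ^ 2)) * t ^ 2 := by
        field_simp
      rw [e6, e4]
      simp only [hAk]
      rw [← e5, ← mul_div_mul_left (A (κ * t) - A (q * κ * t)) _ (one_ne_zero)]
      rcases eq_or_ne t 0 with rfl | ht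
      · simp
      · field_simp
    simp_rw [e3] at h
    rw [integral_const_mul] at h
    generalize (∫ t, ph t * ((A (q⁻¹ * t) - A t) / ((q⁻¹ ^ 2 - 1) * t ^ 2))) = IA at h ⊢
    generalize (∫ t, ph (q * κ * t) * ((Ak t - Ak (q * t)) / t ^ 2)) = IB at h ⊢
    have h2 : IA = (q * κ) * ((q * κ)⁻¹ * IA) := by
      rw [mul_inv_cancel_left₀ hqk.ne']
    rw [h2, ← h]
    field_simp
  rw [eL, eR]
  have hAk0 : ∀ t, 0 ≤ Ak t := fun t => hA0 _
  have hAkm : Measurable Ak := hAm.comp (measurable_const_mul κ)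
  have hAk1 : ∀ t, Ak t ≤ t ^ 2 := by
    intro t
    refine (hA1 _).trans ?_
    rw [mul_pow]
    exact mul_le_of_le_one_left (sq_nonneg t) (by nlinarith)
  have hAkq : ∀ t, Ak (q * t) ≤ Ak t := by
    intro t
    apply min_le_min_right
    apply hmono
    rw [abs_mul, abs_mul κ t]
    exact mul_le_mul_of_nonneg_left (habs q hq0 hq1.le t) (abs_nonneg _)
  have hb : ∀ t, |(Ak t - Ak (q * t)) / t ^ 2| ≤ 1 := by
    intro t
    rw [abs_of_nonneg (div_nonneg (sub_nonneg.mpr (hAkq t)) (sq_nonneg t))]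
    rcases eq_or_ne t 0 with rfl | ht
    · simp
    · rw [div_le_one (by positivity)]
      linarith [hAk0 (q * t), hAk1 t]
  have hstep1 : ∫ t, ph t * ((Ak t - Ak (q * t)) / t ^ 2)
      ≤ ∫ t, ph (q * κ * t) * ((Ak t - Ak (q * t)) / t ^ 2) := by
    apply integral_mono
    · exact int_bdd (by fun_prop) hb
    · have h := ph_int.comp_mul_left' hqk.ne'
      refine Integrable.mono' h ?_ ?_
      · have : Measurable (fun t => ph (q * κ * t)) := ph_meas.comp (by fun_prop)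
        exact (this.mul (by fun_prop)).aestronglyMeasurable
      · refine ae_of_all _ (fun t => ?_)
        rw [Real.norm_eq_abs, abs_mul, abs_of_nonneg (ph_nonneg _)]
        exact mul_le_of_le_one_right (ph_nonneg _) (hb t)
    · intro t
      apply mul_le_mul_of_nonneg_right _ (div_nonneg (sub_nonneg.mpr (hAkq t)) (sq_nonneg t))
      apply ph_anti
      rw [mul_pow, mul_pow]
      have h2 : q ^ 2 * κ ^ 2 ≤ 1 := by nlinarith [sq_nonneg q, sq_nonneg κ]
      nlinarith [sq_nonneg t]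
  have hstep2 : κ ^ 2 * ∫ t, ph t * ((B t - B (q * t)) / t ^ 2)
      ≤ ∫ t, ph t * ((Ak t - Ak (q * t)) / t ^ 2) := by
    have h := J_mono (Y := fun t => κ ^ 2 * B t) (Z := Ak) (by fun_prop)
      (fun t => mul_nonneg (sq_nonneg _) (hB0 t))
      (fun t => by
        have := hB1 t
        have := hB0 t
        have h3 : κ ^ 2 ≤ 1 := by nlinarith
        nlinarith [sq_nonneg t, sq_nonneg κ]) hAkm hAk0 hAk1
      (fun t => by
        simp only [hB, hAk, hA]
        rw [mul_min_of_nonneg _ _ (sq_nonneg κ)]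
        exact min_le_min_right _ (hstar κ hκ0.le hκ1 t)) hq0 hq1
    refine le_trans (le_of_eq ?_) h
    rw [← integral_const_mul]
    congr 1
    ext t
    ring
  have hfin := hstep2.trans hstep1
  have hc : 0 ≤ (q / κ) * (1 / (1 - q ^ 2)) := by positivity
  calc q * κ * ((1 / (1 - q ^ 2)) * ∫ t, ph t * ((B t - B (q * t)) / t ^ 2))
      = (q / κ) * (1 / (1 - q ^ 2)) * (κ ^ 2 * ∫ t, ph t * ((B t - B (q * t)) / t ^ 2)) := by
        field_simp
    _ ≤ _ := mul_le_mul_of_nonneg_left hfin hc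

end Pool.Agent.V11333.Sv
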