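import Mathlib
import Pool.Agent.V11333.Sv3

open MeasureTheory ProbabilityTheory Finset
open scoped ENNReal NNReal

namespace Pool.Agent.V11333.Sv

open Pool.Agent.V11333.Slab Pool.Agent.V11333.GRot Pool.Agent.V11333.Cond

/-- unit normal of the rows of `R` -/
noncomputable def et {m : ℕ} (R : Fin m → Fin (m+1) → ℝ) (j : Fin (m+1)) : ℝ := cof R j / en (cof R)

lemma et_unit {m : ℕ} {R : Fin m → Fin (m+1) → ℝ} (h : cof R ≠ 0) : ∑ j, et R j ^ 2 = 1 := by
  have hN : 0 < en (cof R) := by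
    rcases (en_nonneg (cof R)).lt_or_eq with h' | h'
    · exact h'
    · exact absurd (en_eq_zero h'.symm) h
  unfold et
  simp only [div_pow]
  rw [← Finset.sum_div, ← en_sq]
  field_simp

lemma et_orth {m : ℕ} (R : Fin m → Fin (m+1) → ℝ) (i : Fin m) : ∑ j, R i j * et R j = 0 := by
  unfold et
  have e : ∀ j, R i j * (cof R j / en (cof R)) = R i j * cof R j / en (cof R) := by intro j; ring
  simp_rw [e]
  rw [← Finset.sum_div, cof_orth, zero_div]

/-- normal component of the first row -/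
noncomputable def xi {m : ℕ} (M : Fin (m+1) → Fin (m+1) → ℝ) : ℝ :=
  ∑ k, M 0 k * et (fun i => M i.succ) k

/-- scaling the normal component of the first row -/
noncomputable def sc {m : ℕ} (r : ℝ) (M : Fin (m+1) → Fin (m+1) → ℝ) : Fin (m+1) → Fin (m+1) → ℝ :=
  Fin.cons (fun j => M 0 j + (r - 1) * xi M * et (fun i => M i.succ) j) (fun i => M i.succ)

lemma qf_sc {m : ℕ} (r : ℝ) (M : Fin (m+1) → Fin (m+1) → ℝ) (h : cof (fun i => M i.succ) ≠ 0)
    (u : Fin (m+1) → ℝ) : qf (sc r M) u = qf M u + (r ^ 2 - 1) * xi M ^ 2 * u 0 ^ 2 := by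
  set η := et (fun i => M i.succ) with hη
  have hu := et_unit h
  rw [← hη] at hu
  set w : Fin (m+1) → ℝ := fun j => ∑ i, u i * M i j with hw
  have h1 : ∀ j, ∑ i, u i * sc r M i j = w j + u 0 * ((r - 1) * xi M) * η j := by
    intro j
    rw [Fin.sum_univ_succ, hw]
    simp only
    rw [Fin.sum_univ_succ (fun i => u i * M i j)]
    simp only [sc, Fin.cons_zero, Fin.cons_succ]
    rw [← hη]
    ring
  have h2 : ∑ j, w j * η j = u 0 * xi M := by
    rw [hw]
    simp only [Finset.sum_mul]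
    rw [Finset.sum_comm, Fin.sum_univ_succ]
    have e1 : ∀ i : Fin m, ∑ j, u i.succ * M i.succ j * η j = 0 := by
      intro i
      have e : ∀ j, u i.succ * M i.succ j * η j = u i.succ * (M i.succ j * η j) := by intro j; ring
      simp_rw [e]
      rw [← Finset.mul_sum, hη, et_orth (fun i => M i.succ) i, mul_zero]
    simp_rw [e1]
    rw [Finset.sum_const_zero, add_zero]
    unfold xi
    rw [Finset.mul_sum]
    apply Finset.sum_congr rfl
    intro j _
    rw [← hη]
    ring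
  unfold qf
  simp_rw [h1]
  have e2 : ∀ j, (w j + u 0 * ((r - 1) * xi M) * η j) ^ 2
      = w j ^ 2 + 2 * (u 0 * ((r - 1) * xi M)) * (w j * η j)
        + (u 0 * ((r - 1) * xi M)) ^ 2 * η j ^ 2 := by intro j; ring
  simp_rw [e2, Finset.sum_add_distrib, ← Finset.mul_sum, h2, hu]
  ring

/-- weight -/
noncomputable def wt {m : ℕ} (r E : ℝ) (M : Fin (m+1) → Fin (m+1) → ℝ) : ℝ :=
  (min (s2 (sc r M)) E - min (s2 M) E) / ((r ^ 2 - 1) * xi M ^ 2)

lemma xi_det {m : ℕ} (M : Fin (m+1) → Fin (m+1) → ℝ) :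
    (Matrix.of M).det = en (cof (fun i => M i.succ)) * xi M := by
  have h1 : M = Fin.cons (M 0) (fun i => M i.succ) := (Fin.cons_self_tail M).symm
  conv_lhs => rw [h1]
  rw [det_cons]
  by_cases h : cof (fun i => M i.succ) = 0
  · have h2 : en (cof (fun i => M i.succ)) = 0 := by
      rw [h]; simp [en]
    rw [h2, h]
    simp
  · have hN : 0 < en (cof (fun i => M i.succ)) := by
      rcases (en_nonneg (cof (fun i => M i.succ))).lt_or_eq with h' | h'
      · exact h'
      · exact absurd (en_eq_zero h'.symm) h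
    unfold xi et
    rw [Finset.mul_sum]
    apply Finset.sum_congr rfl
    intro j _
    field_simp

lemma good_of_det {m : ℕ} {M : Fin (m+1) → Fin (m+1) → ℝ} (h : (Matrix.of M).det ≠ 0) :
    cof (fun i => M i.succ) ≠ 0 ∧ xi M ≠ 0 := by
  rw [xi_det] at h
  constructor
  · intro h2
    apply h
    rw [h2]
    simp [en]
  · intro h2
    apply h
    rw [h2, mul_zero]

lemma wt_up {m : ℕ} {r E : ℝ} (hr : 1 < r) {M : Fin (m+1) → Fin (m+1) → ℝ}
    (h : (Matrix.of M).det ≠ 0) {u : Fin (m+1) → ℝ} (hu : u ∈ sph (m+1)) (hus : qf M u = s2 M) :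
    wt r E M ≤ if s2 M ≤ E then u 0 ^ 2 else 0 := by
  obtain ⟨hc, hx⟩ := good_of_det h
  have h1 : s2 (sc r M) ≤ s2 M + (r ^ 2 - 1) * xi M ^ 2 * u 0 ^ 2 := by
    rw [← hus, ← qf_sc r M hc u]
    exact s2_le _ hu
  have hr2 : 0 < r ^ 2 - 1 := by nlinarith
  have hx2 : 0 < xi M ^ 2 := by positivity
  unfold wt
  split_ifs with hE
  · rw [div_le_iff₀ (by positivity)]
    rw [min_eq_left hE]
    have := min_le_left (s2 (sc r M)) E
    nlinarith
  · push Not at hE
    rw [min_eq_right hE.le]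
    apply div_nonpos_of_nonpos_of_nonneg _ (by positivity)
    have := min_le_right (s2 (sc r M)) E
    linarith

lemma wt_dn {m : ℕ} {q E : ℝ} (hq0 : 0 < q) (hq1 : q < 1) {M : Fin (m+1) → Fin (m+1) → ℝ}
    (h : (Matrix.of M).det ≠ 0) {u : Fin (m+1) → ℝ} (hu : u ∈ sph (m+1)) (hus : qf M u = s2 M) :
    (if s2 M ≤ E then u 0 ^ 2 else 0) ≤ wt q E M := by
  obtain ⟨hc, hx⟩ := good_of_det h
  have h1 : s2 (sc q M) ≤ s2 M + (q ^ 2 - 1) * xi M ^ 2 * u 0 ^ 2 := by
    rw [← hus, ← qf_sc q M hc u]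
    exact s2_le _ hu
  have hr2 : 0 < 1 - q ^ 2 := by nlinarith
  have hx2 : 0 < xi M ^ 2 := by positivity
  have e : wt q E M = (min (s2 M) E - min (s2 (sc q M)) E) / ((1 - q ^ 2) * xi M ^ 2) := by
    unfold wt
    rw [show (q ^ 2 - 1) * xi M ^ 2 = -((1 - q ^ 2) * xi M ^ 2) by ring,
      show min (s2 (sc q M)) E - min (s2 M) E = -(min (s2 M) E - min (s2 (sc q M)) E) by ring,
      neg_div_neg_eq]
  rw [e]
  have h3 : s2 (sc q M) ≤ s2 M := by
    have : 0 ≤ (1 - q ^ 2) * xi M ^ 2 * u 0 ^ 2 := by positivity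
    linarith
  split_ifs with hE
  · rw [le_div_iff₀ (by positivity)]
    rw [min_eq_left hE, min_eq_left (h3.trans hE)]
    linarith
  · apply div_nonneg _ (by positivity)
    have := min_le_min_right E h3
    linarith

/-- swapping row `i` to the top -/
def sw {m : ℕ} (i : Fin (m+1)) : Equiv.Perm (Fin (m+1)) := Equiv.swap 0 i

lemma det_pr {m : ℕ} (e : Equiv.Perm (Fin (m+1))) {M : Fin (m+1) → Fin (m+1) → ℝ}
    (h : (Matrix.of M).det ≠ 0) : (Matrix.of (pr e M)).det ≠ 0 := by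
  have h1 : (Matrix.of (pr e M)) = (Matrix.of M).submatrix e id := rfl
  rw [h1, Matrix.det_permute]
  exact mul_ne_zero (by
    rcases Int.units_eq_one_or (Equiv.Perm.sign e) with h | h <;> simp [h]) h

lemma sum_up {m : ℕ} {r E : ℝ} (hr : 1 < r) {M : Fin (m+1) → Fin (m+1) → ℝ}
    (h : (Matrix.of M).det ≠ 0) :
    ∑ i, wt r E (pr (sw i) M) ≤ if s2 M ≤ E then 1 else 0 := by
  obtain ⟨u, hu, hus⟩ := s2_att M
  have h1 : ∀ i, wt r E (pr (sw i) M) ≤ if s2 M ≤ E then u i ^ 2 else 0 := by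
    intro i
    have h2 := wt_up (E := E) hr (det_pr (sw i) h) (sph_pr (sw i) hu)
      (by rw [qf_pr, hus, s2_pr])
    rw [s2_pr] at h2
    have h3 : u (sw i 0) = u i := by simp [sw]
    rw [h3] at h2
    exact h2
  refine (Finset.sum_le_sum (fun i _ => h1 i)).trans ?_
  split_ifs with hE
  · exact le_of_eq hu
  · simp

lemma sum_dn {m : ℕ} {q E : ℝ} (hq0 : 0 < q) (hq1 : q < 1) {M : Fin (m+1) → Fin (m+1) → ℝ}
    (h : (Matrix.of M).det ≠ 0) :
    (if s2 M ≤ E then 1 else 0) ≤ ∑ i, wt q E (pr (sw i) M) := by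
  obtain ⟨u, hu, hus⟩ := s2_att M
  have h1 : ∀ i, (if s2 M ≤ E then u i ^ 2 else 0) ≤ wt q E (pr (sw i) M) := by
    intro i
    have h2 := wt_dn (E := E) hq0 hq1 (det_pr (sw i) h) (sph_pr (sw i) hu)
      (by rw [qf_pr, hus, s2_pr])
    rw [s2_pr] at h2
    have h3 : u (sw i 0) = u i := by simp [sw]
    rw [h3] at h2
    exact h2
  refine le_trans ?_ (Finset.sum_le_sum (fun i _ => h1 i))
  split_ifs with hE
  · exact le_of_eq hu.symm
  · simp

/-! measurability -/

lemma cof_cont {m : ℕ} : Continuous (cof : (Fin m → Fin (m+1) → ℝ) → Fin (m+1) → ℝ) := by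
  apply continuous_pi
  intro j
  unfold cof
  apply Continuous.mul continuous_const
  apply Continuous.matrix_det
  apply continuous_pi
  intro i
  apply continuous_pi
  intro k
  exact (continuous_apply_apply i (j.succAbove k))

lemma et_meas {m : ℕ} : Measurable (et : (Fin m → Fin (m+1) → ℝ) → Fin (m+1) → ℝ) := by
  apply measurable_pi_lambda
  intro j
  unfold et
  have h1 : Measurable (fun R : Fin m → Fin (m+1) → ℝ => cof R j) :=
    (measurable_pi_apply j).comp cof_cont.measurable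
  exact h1.div (en_cont.comp cof_cont).measurable

lemma tail_meas {m : ℕ} : Measurable (fun (M : Fin (m+1) → Fin (m+1) → ℝ) => fun i : Fin m => M i.succ) := by
  fun_prop

lemma xi_meas {m : ℕ} : Measurable (xi : (Fin (m+1) → Fin (m+1) → ℝ) → ℝ) := by
  unfold xi
  apply Finset.measurable_sum
  intro k _
  have h1 : Measurable (fun M : Fin (m+1) → Fin (m+1) → ℝ => et (fun i => M i.succ) k) :=
    (measurable_pi_apply k).comp (et_meas.comp tail_meas)
  exact Measurable.mul (by fun_prop) h1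

lemma sc_meas {m : ℕ} (r : ℝ) : Measurable (sc r : (Fin (m+1) → Fin (m+1) → ℝ) → _) := by
  apply measurable_pi_lambda
  intro i
  unfold sc
  refine Fin.cases ?_ (fun i' => ?_) i
  · simp only [Fin.cons_zero]
    apply measurable_pi_lambda
    intro k
    have h1 : Measurable (fun M : Fin (m+1) → Fin (m+1) → ℝ => et (fun i => M i.succ) k) :=
      (measurable_pi_apply k).comp (et_meas.comp tail_meas)
    have h2 : Measurable (fun M : Fin (m+1) → Fin (m+1) → ℝ => M 0 k) := by fun_prop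
    exact h2.add ((xi_meas.const_mul (r - 1)).mul h1)
  · simp only [Fin.cons_succ]
    fun_prop

lemma wt_meas {m : ℕ} (r E : ℝ) : Measurable (wt r E : (Fin (m+1) → Fin (m+1) → ℝ) → ℝ) := by
  unfold wt
  have h1 : Measurable (fun M : Fin (m+1) → Fin (m+1) → ℝ => s2 (sc r M)) := s2_meas.comp (sc_meas r)
  exact ((h1.min measurable_const).sub (s2_meas.min measurable_const)).div
    ((xi_meas.pow_const 2).const_mul _)

lemma det_ae {m : ℕ} : ∀ᵐ M ∂(gmm (Fin m) (Fin m)), (Matrix.of M).det ≠ 0 := by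
  have := det_null (fun _ _ => 0 : Fin m → Fin m → ℝ) one_pos
  rw [ae_iff]
  refine measure_mono_null ?_ this
  intro R hR
  simp only [Set.mem_ofPred_eq, not_not] at hR ⊢
  have e : ((fun _ _ => 0 : Fin m → Fin m → ℝ) + (1:ℝ) • R) = R := by ext i j; simp
  convert hR using 2
  exact congrArg Matrix.of e

lemma F_eq {m : ℕ} (E : ℝ) : F (m+1) E = ∫⁻ M, ENNReal.ofReal (if s2 M ≤ E then 1 else 0)
    ∂(gmm (Fin (m+1)) (Fin (m+1))) := by
  unfold F
  have hS : MeasurableSet {G : Fin (m+1) → Fin (m+1) → ℝ | s2 G ≤ E} :=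
    measurableSet_le s2_meas measurable_const
  rw [← lintegral_indicator_one hS]
  apply lintegral_congr
  intro M
  by_cases h : s2 M ≤ E
  · rw [Set.indicator_of_mem (by exact h), if_pos h]; simp
  · rw [Set.indicator_of_notMem (by exact h), if_neg h]; simp

lemma F_le_dn {m : ℕ} {q E : ℝ} (hq0 : 0 < q) (hq1 : q < 1) :
    F (m+1) E ≤ ((m+1 : ℕ) : ℝ≥0∞) * ∫⁻ M, ENNReal.ofReal (wt q E M) ∂(gmm (Fin (m+1)) (Fin (m+1))) := by
  rw [F_eq]
  calc ∫⁻ M, ENNReal.ofReal (if s2 M ≤ E then 1 else 0) ∂(gmm (Fin (m+1)) (Fin (m+1)))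
      ≤ ∫⁻ M, ∑ i, ENNReal.ofReal (wt q E (pr (sw i) M)) ∂(gmm (Fin (m+1)) (Fin (m+1))) := by
        apply lintegral_mono_ae
        filter_upwards [det_ae] with M hM
        refine (ENNReal.ofReal_le_ofReal (sum_dn hq0 hq1 hM)).trans ?_
        rw [ENNReal.ofReal_sum_of_nonneg]
        intro i _
        obtain ⟨u, hu, hus⟩ := s2_att (pr (sw i) M)
        have h2 := wt_dn (E := E) hq0 hq1 (det_pr (sw i) hM) hu hus
        refine le_trans ?_ h2
        split_ifs <;> positivity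
    _ = ∑ i, ∫⁻ M, ENNReal.ofReal (wt q E (pr (sw i) M)) ∂(gmm (Fin (m+1)) (Fin (m+1))) := by
        apply lintegral_finsetSum
        intro i _
        exact ((wt_meas q E).comp (gmm_pr (sw i)).measurable).ennreal_ofReal
    _ = ∑ _i : Fin (m+1), ∫⁻ M, ENNReal.ofReal (wt q E M) ∂(gmm (Fin (m+1)) (Fin (m+1))) := by
        apply Finset.sum_congr rfl
        intro i _
        exact (gmm_pr (sw i)).lintegral_comp (wt_meas q E).ennreal_ofReal
    _ = _ := by simp

lemma up_le_F {m : ℕ} {r E : ℝ} (hr : 1 < r)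
    (hnn : ∀ M : Fin (m+1) → Fin (m+1) → ℝ, (Matrix.of M).det ≠ 0 → 0 ≤ wt r E M) :
    ((m+1 : ℕ) : ℝ≥0∞) * ∫⁻ M, ENNReal.ofReal (wt r E M) ∂(gmm (Fin (m+1)) (Fin (m+1)))
      ≤ F (m+1) E := by
  rw [F_eq]
  calc ((m+1 : ℕ) : ℝ≥0∞) * ∫⁻ M, ENNReal.ofReal (wt r E M) ∂(gmm (Fin (m+1)) (Fin (m+1)))
      = ∑ _i : Fin (m+1), ∫⁻ M, ENNReal.ofReal (wt r E M) ∂(gmm (Fin (m+1)) (Fin (m+1))) := by simp
    _ = ∑ i, ∫⁻ M, ENNReal.ofReal (wt r E (pr (sw i) M)) ∂(gmm (Fin (m+1)) (Fin (m+1))) := by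
        apply Finset.sum_congr rfl
        intro i _
        exact ((gmm_pr (sw i)).lintegral_comp (wt_meas r E).ennreal_ofReal).symm
    _ = ∫⁻ M, ∑ i, ENNReal.ofReal (wt r E (pr (sw i) M)) ∂(gmm (Fin (m+1)) (Fin (m+1))) := by
        symm
        apply lintegral_finsetSum
        intro i _
        exact ((wt_meas r E).comp (gmm_pr (sw i)).measurable).ennreal_ofReal
    _ ≤ _ := by
        apply lintegral_mono_ae
        filter_upwards [det_ae] with M hM
        rw [← ENNReal.ofReal_sum_of_nonneg (fun i _ => hnn _ (det_pr _ hM))]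
        exact ENNReal.ofReal_le_ofReal (sum_up hr hM)

end Pool.Agent.V11333.Sv
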