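import Mathlib
import Pool.Agent.V11333.Sv4

open MeasureTheory ProbabilityTheory Finset
open scoped ENNReal NNReal

namespace Pool.Agent.V11333.Sv

open Pool.Agent.V11333.Slab Pool.Agent.V11333.GRot Pool.Agent.V11333.Cond

/-- the line through the top row in the normal direction -/
noncomputable def ln {m : ℕ} (R : Fin m → Fin (m+1) → ℝ) (g : Fin (m+1) → ℝ) (t : ℝ) :
    Fin (m+1) → Fin (m+1) → ℝ :=
  Fin.cons (fun j => g j + (t - ∑ k, et R k * g k) * et R j) R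

lemma ln_tail {m : ℕ} (R : Fin m → Fin (m+1) → ℝ) (g : Fin (m+1) → ℝ) (t : ℝ) :
    (fun i : Fin m => ln R g t i.succ) = R := by
  ext i j
  simp [ln]

lemma xi_ln {m : ℕ} {R : Fin m → Fin (m+1) → ℝ} (h : cof R ≠ 0) (g : Fin (m+1) → ℝ) (t : ℝ) :
    xi (ln R g t) = t := by
  unfold xi
  rw [ln_tail]
  have hu := et_unit h
  have e : ∀ k, ln R g t 0 k * et R k = et R k * g k + (t - ∑ k, et R k * g k) * et R k ^ 2 := by
    intro k
    simp only [ln, Fin.cons_zero]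
    ring
  simp_rw [e]
  rw [Finset.sum_add_distrib, ← Finset.mul_sum, hu]
  ring

lemma sc_ln {m : ℕ} {R : Fin m → Fin (m+1) → ℝ} (h : cof R ≠ 0) (g : Fin (m+1) → ℝ) (r t : ℝ) :
    sc r (ln R g t) = ln R g (r * t) := by
  unfold sc
  rw [xi_ln h, ln_tail]
  unfold ln
  congr 1
  funext j
  simp only [Fin.cons_zero]
  ring

lemma qf_ln {m : ℕ} {R : Fin m → Fin (m+1) → ℝ} (h : cof R ≠ 0) (g : Fin (m+1) → ℝ) (t : ℝ)
    (u : Fin (m+1) → ℝ) : qf (ln R g t) u = qf (ln R g 0) u + t ^ 2 * u 0 ^ 2 := by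
  have h1 := qf_sc 0 (ln R g t) (by rw [ln_tail]; exact h) u
  rw [sc_ln h, xi_ln h, zero_mul] at h1
  rw [h1]
  ring

lemma ln_det {m : ℕ} {R : Fin m → Fin (m+1) → ℝ} (h : cof R ≠ 0) (g : Fin (m+1) → ℝ) :
    (Matrix.of (ln R g 0)).det = 0 := by
  rw [xi_det, xi_ln h, mul_zero]

lemma ln_cont {m : ℕ} (R : Fin m → Fin (m+1) → ℝ) (g : Fin (m+1) → ℝ) :
    Continuous (ln R g) := by
  unfold ln
  exact cons_cont (by fun_prop) continuous_const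

lemma sq_le_one_of_sph {n : ℕ} {u : Fin n → ℝ} (hu : u ∈ sph n) (i : Fin n) : u i ^ 2 ≤ 1 := by
  have h : ∑ i, u i ^ 2 = 1 := hu
  rw [← h]
  exact Finset.single_le_sum (f := fun i => u i ^ 2) (fun j _ => sq_nonneg _) (Finset.mem_univ i)

lemma line_ineq {m : ℕ} {R : Fin m → Fin (m+1) → ℝ} (h : cof R ≠ 0) (g : Fin (m+1) → ℝ)
    {q κ E : ℝ} (hq0 : 0 < q) (hq1 : q < 1) (hκ0 : 0 < κ) (hκ1 : κ ≤ 1) (hE : 0 ≤ E) :
    ENNReal.ofReal (q * κ) * ∫⁻ t, ENNReal.ofReal (wt q E (ln R g t)) ∂g1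
      ≤ ∫⁻ t, ENNReal.ofReal (wt q⁻¹ (κ ^ 2 * E) (ln R g t)) ∂g1 := by
  have hw : ∀ r E t, wt r E (ln R g t)
      = (min (s2 (ln R g (r * t))) E - min (s2 (ln R g t)) E) / ((r ^ 2 - 1) * t ^ 2) := by
    intro r E t
    unfold wt
    rw [sc_ln h, xi_ln h]
  simp_rw [hw]
  apply line_lemma (S := fun t => s2 (ln R g t)) _ _ _ _ _ hq0 hq1 hκ0 hκ1 hE
  · exact s2_cont.comp (ln_cont R g)
  · intro t
    exact s2_nonneg _
  · intro t
    obtain ⟨u, hu, hus⟩ := s2_att (ln R g 0)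
    rw [s2_zero_of_det _ (ln_det h g)] at hus
    refine (s2_le _ hu).trans ?_
    rw [qf_ln h, hus, zero_add]
    exact mul_le_of_le_one_right (sq_nonneg t) (sq_le_one_of_sph hu 0)
  · intro a b hab
    obtain ⟨u, hu, hus⟩ := s2_att (ln R g b)
    show s2 (ln R g a) ≤ s2 (ln R g b)
    rw [← hus]
    refine (s2_le _ hu).trans ?_
    rw [qf_ln h g a, qf_ln h g b]
    have h2 : a ^ 2 ≤ b ^ 2 := sq_le_sq.mpr hab
    have := mul_le_mul_of_nonneg_right h2 (sq_nonneg (u 0))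
    linarith
  · intro c hc0 hc1 t
    obtain ⟨u, hu, hus⟩ := s2_att (ln R g (c * t))
    show c ^ 2 * s2 (ln R g t) ≤ s2 (ln R g (c * t))
    rw [← hus]
    refine (mul_le_mul_of_nonneg_left (s2_le _ hu) (sq_nonneg c)).trans ?_
    rw [qf_ln h g t, qf_ln h g (c * t)]
    have h2 : c ^ 2 * qf (ln R g 0) u ≤ qf (ln R g 0) u :=
      mul_le_of_le_one_left (qf_nonneg _ _) (by nlinarith)
    nlinarith

lemma lint_ln {m : ℕ} (f : (Fin (m+1) → Fin (m+1) → ℝ) → ℝ≥0∞) (hf : Measurable f) :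
    ∫⁻ M, f M ∂(gmm (Fin (m+1)) (Fin (m+1)))
      = ∫⁻ R, ∫⁻ g, ∫⁻ t, f (ln R g t) ∂g1 ∂(gv (Fin (m+1))) ∂(gmm (Fin m) (Fin (m+1))) := by
  rw [lint_cons f hf]
  apply lintegral_congr_ae
  filter_upwards [cof_ae] with R hR
  have hm : Measurable (fun p : (Fin (m+1) → ℝ) × ℝ => fun j => p.1 j + (p.2 - ∑ k, et R k * p.1 k) * et R j) := by
    fun_prop
  have hf2 : Measurable (fun g : Fin (m+1) → ℝ => f (Fin.cons g R)) :=
    hf.comp (cons_cont continuous_id continuous_const).measurable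
  conv_lhs => rw [← strip_law (et R) (et_unit hR)]
  rw [lintegral_map hf2 hm]
  exact lintegral_prod _ (hf2.comp hm).aemeasurable

lemma wt_nonneg_up {m : ℕ} {r E : ℝ} (hr : 1 < r) (M : Fin (m+1) → Fin (m+1) → ℝ)
    (h : (Matrix.of M).det ≠ 0) : 0 ≤ wt r E M := by
  obtain ⟨hc, hx⟩ := good_of_det h
  have hr2 : 0 < r ^ 2 - 1 := by nlinarith
  unfold wt
  apply div_nonneg _ (by positivity)
  have h1 : s2 M ≤ s2 (sc r M) := by
    obtain ⟨u, hu, hus⟩ := s2_att (sc r M)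
    rw [← hus, qf_sc r M hc u]
    refine (s2_le M hu).trans ?_
    have : 0 ≤ (r ^ 2 - 1) * xi M ^ 2 * u 0 ^ 2 := by positivity
    linarith
  have := min_le_min_right E h1
  linarith

lemma star_q {m : ℕ} {q κ E : ℝ} (hq0 : 0 < q) (hq1 : q < 1) (hκ0 : 0 < κ) (hκ1 : κ ≤ 1)
    (hE : 0 ≤ E) :
    ENNReal.ofReal (q * κ) * F (m+1) E ≤ F (m+1) (κ ^ 2 * E) := by
  have h1 := F_le_dn (m := m) (E := E) hq0 hq1
  have h2 := up_le_F (m := m) (r := q⁻¹) (E := κ ^ 2 * E) ((one_lt_inv₀ hq0).mpr hq1)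
    (fun M hM => wt_nonneg_up ((one_lt_inv₀ hq0).mpr hq1) M hM)
  have h3 : ENNReal.ofReal (q * κ) *
      ∫⁻ M, ENNReal.ofReal (wt q E M) ∂(gmm (Fin (m+1)) (Fin (m+1)))
      ≤ ∫⁻ M, ENNReal.ofReal (wt q⁻¹ (κ ^ 2 * E) M) ∂(gmm (Fin (m+1)) (Fin (m+1))) := by
    rw [lint_ln _ (wt_meas q E).ennreal_ofReal, lint_ln _ (wt_meas q⁻¹ (κ ^ 2 * E)).ennreal_ofReal]
    rw [← lintegral_const_mul' _ _ ENNReal.ofReal_ne_top]
    apply lintegral_mono_ae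
    filter_upwards [cof_ae] with R hR
    rw [← lintegral_const_mul' _ _ ENNReal.ofReal_ne_top]
    apply lintegral_mono
    intro g
    exact line_ineq hR g hq0 hq1 hκ0 hκ1 hE
  calc ENNReal.ofReal (q * κ) * F (m+1) E
      ≤ ENNReal.ofReal (q * κ) * (((m+1 : ℕ) : ℝ≥0∞) *
          ∫⁻ M, ENNReal.ofReal (wt q E M) ∂(gmm (Fin (m+1)) (Fin (m+1)))) := by gcongr
    _ = ((m+1 : ℕ) : ℝ≥0∞) * (ENNReal.ofReal (q * κ) *
          ∫⁻ M, ENNReal.ofReal (wt q E M) ∂(gmm (Fin (m+1)) (Fin (m+1)))) := by ring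
    _ ≤ ((m+1 : ℕ) : ℝ≥0∞) * ∫⁻ M, ENNReal.ofReal (wt q⁻¹ (κ ^ 2 * E) M)
          ∂(gmm (Fin (m+1)) (Fin (m+1))) := by gcongr
    _ ≤ _ := h2

lemma star {m : ℕ} (κ : ℝ) (hκ0 : 0 ≤ κ) (hκ1 : κ ≤ 1) (E : ℝ) (hE : 0 ≤ E) :
    ENNReal.ofReal κ * F (m+1) E ≤ F (m+1) (κ ^ 2 * E) := by
  rcases hκ0.eq_or_lt with h | hκ
  · rw [← h]; simp
  have ht : Filter.Tendsto (fun N : ℕ => ENNReal.ofReal ((1 - 1 / ((N:ℝ) + 2)) * κ) * F (m+1) E)
      Filter.atTop (nhds (ENNReal.ofReal ((1 - 0) * κ) * F (m+1) E)) := by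
    apply ENNReal.Tendsto.mul_const
    · apply ENNReal.tendsto_ofReal
      apply Filter.Tendsto.mul_const
      apply Filter.Tendsto.sub tendsto_const_nhds
      have := tendsto_one_div_add_atTop_nhds_zero_nat (𝕜 := ℝ)
      have h2 := (Filter.tendsto_add_atTop_iff_nat (f := fun n : ℕ => 1 / ((n:ℝ) + 1)) 1).mpr this
      refine h2.congr (fun N => ?_)
      push_cast
      ring_nf
    · right
      exact measure_ne_top _ _
  rw [sub_zero, one_mul] at ht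
  apply le_of_tendsto' ht
  intro N
  have hN : (0:ℝ) < (N:ℝ) + 2 := by positivity
  apply star_q _ _ hκ hκ1 hE
  · have : 1 / ((N:ℝ) + 2) < 1 := by
      rw [div_lt_one hN]
      have : (0:ℝ) ≤ N := Nat.cast_nonneg N
      linarith
    linarith
  · have : 0 < 1 / ((N:ℝ) + 2) := by positivity
    linarith

/-- the centred bound -/
theorem centred {m : ℕ} {r : ℝ} (hr : 0 ≤ r) :
    F (m+1) (r ^ 2) ≤ ENNReal.ofReal (r * Real.sqrt ((m + 1 : ℕ) : ℝ)) :=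
  centred_of_star star hr

end Pool.Agent.V11333.Sv
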