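import Mathlib
import Pool.Agent.V11333.Sv5

open MeasureTheory ProbabilityTheory Finset
open scoped ENNReal NNReal

namespace Pool.Agent.V11333.Sv

open Pool.Agent.V11333.Slab Pool.Agent.V11333.GRot Pool.Agent.V11333.Cond

/-- transpose -/
def tp {n : ℕ} (G : Fin n → Fin n → ℝ) : Fin n → Fin n → ℝ := fun i j => G j i

lemma gmm_tp {n : ℕ} :
    MeasurePreserving (tp (n := n)) (gmm (Fin n) (Fin n)) (gmm (Fin n) (Fin n)) := by
  have hm : Measurable (tp (n := n)) := by
    unfold tp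
    fun_prop
  refine ⟨hm, ?_⟩
  have : IsProbabilityMeasure ((gmm (Fin n) (Fin n)).map tp) :=
    Measure.isProbabilityMeasure_map hm.aemeasurable
  apply ext_gmm
  intro c
  have hc : Continuous (fun G : Fin n → Fin n → ℝ =>
      Complex.exp (((∑ i, ∑ j, c i j * G i j : ℝ) : ℂ) * Complex.I)) :=
    Complex.continuous_exp.comp
      ((Complex.continuous_ofReal.comp (by fun_prop)).mul continuous_const)
  rw [integral_map hm.aemeasurable hc.aestronglyMeasurable]
  have h1 : ∀ G : Fin n → Fin n → ℝ, (∑ i, ∑ j, c i j * tp G i j)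
      = ∑ i, ∑ j, c j i * G i j := by
    intro G
    unfold tp
    rw [Finset.sum_comm]
  simp_rw [h1]
  rw [cf_gmm]
  congr 4
  rw [Finset.sum_comm]

/-- `Uᵀ G W` -/
def rt {n : ℕ} (U W : Matrix (Fin n) (Fin n) ℝ) (G : Fin n → Fin n → ℝ) : Fin n → Fin n → ℝ :=
  Matrix.of.symm (U.transpose * Matrix.of G * W)

lemma rt_eq {n : ℕ} (U W : Matrix (Fin n) (Fin n) ℝ) (G : Fin n → Fin n → ℝ) :
    Matrix.of (rt U W G) = U.transpose * Matrix.of G * W := rfl

lemma rt_rt {n : ℕ} (U W A B : Matrix (Fin n) (Fin n) ℝ) (G : Fin n → Fin n → ℝ) :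
    rt U W (rt A B G) = rt (A * U) (B * W) G := by
  unfold rt
  congr 1
  simp only [Equiv.apply_symm_apply, Matrix.transpose_mul, Matrix.mul_assoc]

lemma rt_lm {n : ℕ} (U W : Matrix (Fin n) (Fin n) ℝ) (G : Fin n → Fin n → ℝ) :
    rt U W G = lm U.transpose (tp (lm W.transpose (tp G))) := by
  have h1 : Matrix.of (rt U W G) = U.transpose * (Matrix.of G * W) := by
    rw [rt_eq, Matrix.mul_assoc]
  ext i j
  have h2 : rt U W G i j = (U.transpose * (Matrix.of G * W)) i j := by
    rw [← h1]; rfl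
  rw [h2, Matrix.mul_apply]
  unfold lm tp
  apply Finset.sum_congr rfl
  intro k _
  rw [Matrix.mul_apply]
  congr 1
  apply Finset.sum_congr rfl
  intro l _
  simp only [Matrix.of_apply, Matrix.transpose_apply]
  ring

lemma gmm_rt {n : ℕ} (U W : Matrix (Fin n) (Fin n) ℝ) (hU : U.transpose * U = 1)
    (hW : W.transpose * W = 1) :
    MeasurePreserving (rt U W) (gmm (Fin n) (Fin n)) (gmm (Fin n) (Fin n)) := by
  have h1 : MeasurePreserving (lm (κ := Fin n) U.transpose) (gmm (Fin n) (Fin n)) (gmm (Fin n) (Fin n)) :=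
    ⟨lm_meas _, gmm_left _ (by rw [Matrix.transpose_transpose]; exact hU)⟩
  have h2 : MeasurePreserving (lm (κ := Fin n) W.transpose) (gmm (Fin n) (Fin n)) (gmm (Fin n) (Fin n)) :=
    ⟨lm_meas _, gmm_left _ (by rw [Matrix.transpose_transpose]; exact hW)⟩
  have h3 := h1.comp (gmm_tp.comp (h2.comp gmm_tp))
  have e : rt U W = (lm U.transpose) ∘ tp ∘ (lm W.transpose) ∘ tp := by
    funext G
    exact rt_lm U W G
  rw [e]
  exact h3

lemma qf_eq {n : ℕ} (M : Fin n → Fin n → ℝ) (u : Fin n → ℝ) :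
    qf M u = (Matrix.vecMul u (Matrix.of M)) ⬝ᵥ (Matrix.vecMul u (Matrix.of M)) := by
  unfold qf
  simp only [dotProduct, Matrix.vecMul, Matrix.of_apply]
  apply Finset.sum_congr rfl
  intro j _
  ring

lemma mem_sph {n : ℕ} (u : Fin n → ℝ) : u ∈ sph n ↔ u ⬝ᵥ u = 1 := by
  unfold sph
  simp only [Set.mem_ofPred_eq, dotProduct, sq]

lemma qf_rt {n : ℕ} (U W : Matrix (Fin n) (Fin n) ℝ) (hW : W.transpose * W = 1)
    (M : Fin n → Fin n → ℝ) (u : Fin n → ℝ) :
    qf (rt U W M) u = qf M (U.mulVec u) := by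
  have hW' : W * W.transpose = 1 := mul_eq_one_comm.mp hW
  rw [qf_eq, qf_eq, rt_eq]
  rw [← Matrix.vecMul_vecMul, ← Matrix.vecMul_vecMul, Matrix.vecMul_transpose]
  set y := Matrix.vecMul (U.mulVec u) (Matrix.of M) with hy
  have h1 : Matrix.vecMul y W = W.transpose.mulVec y := by
    rw [Matrix.mulVec_transpose]
  rw [h1, Matrix.dotProduct_mulVec, Matrix.vecMul_transpose, Matrix.mulVec_mulVec, hW',
    Matrix.one_mulVec]

lemma sph_rot {n : ℕ} {U : Matrix (Fin n) (Fin n) ℝ} (hU : U.transpose * U = 1)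
    {u : Fin n → ℝ} (hu : u ∈ sph n) : U.mulVec u ∈ sph n := by
  rw [mem_sph] at hu ⊢
  rw [Matrix.dotProduct_mulVec, ← Matrix.mulVec_transpose, Matrix.mulVec_mulVec, hU,
    Matrix.one_mulVec, hu]

lemma s2_rt {m : ℕ} (U W : Matrix (Fin (m+1)) (Fin (m+1)) ℝ) (hU : U.transpose * U = 1)
    (hW : W.transpose * W = 1) (M : Fin (m+1) → Fin (m+1) → ℝ) :
    s2 (rt U W M) = s2 M := by
  have key : ∀ (U W : Matrix (Fin (m+1)) (Fin (m+1)) ℝ), U.transpose * U = 1 → W.transpose * W = 1 →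
      ∀ M : Fin (m+1) → Fin (m+1) → ℝ, s2 M ≤ s2 (rt U W M) := by
    intro U W hU hW M
    obtain ⟨u, hu, hus⟩ := s2_att (rt U W M)
    rw [← hus, qf_rt U W hW]
    exact s2_le _ (sph_rot hU hu)
  apply le_antisymm _ (key U W hU hW M)
  have h1 := key U.transpose W.transpose
    (by rw [Matrix.transpose_transpose]; exact mul_eq_one_comm.mp hU)
    (by rw [Matrix.transpose_transpose]; exact mul_eq_one_comm.mp hW) (rt U W M)
  rw [rt_rt, mul_eq_one_comm.mp hU, mul_eq_one_comm.mp hW] at h1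
  have h2 : rt 1 1 M = M := by
    unfold rt
    simp
  rw [h2] at h1
  exact h1

/-! shift -/

lemma pi_wd {ι : Type*} [Fintype ι] {X : ι → Type*} [∀ i, MeasurableSpace (X i)]
    (μ : ∀ i, Measure (X i)) [∀ i, IsProbabilityMeasure (μ i)] (f : ∀ i, X i → ℝ≥0∞)
    (hf : ∀ i, Measurable (f i)) (h1 : ∀ i, ∫⁻ x, f i x ∂(μ i) = 1) :
    (Measure.pi μ).withDensity (fun x => ∏ i, f i (x i))
      = Measure.pi (fun i => (μ i).withDensity (f i)) := by
  have hp : ∀ i, IsProbabilityMeasure ((μ i).withDensity (f i)) := by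
    intro i
    constructor
    rw [withDensity_apply _ MeasurableSet.univ, Measure.restrict_univ, h1]
  symm
  apply Measure.pi_eq
  intro s hs
  rw [withDensity_apply _ (MeasurableSet.univ_pi hs), ← lintegral_indicator (MeasurableSet.univ_pi hs)]
  have e : ∀ x : (∀ i, X i), (Set.univ.pi s).indicator (fun x => ∏ i, f i (x i)) x
      = ∏ i, (s i).indicator (f i) (x i) := by
    intro x
    by_cases hx : x ∈ Set.univ.pi s
    · rw [Set.indicator_of_mem hx]
      apply Finset.prod_congr rfl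
      intro i _
      rw [Set.indicator_of_mem (hx i (Set.mem_univ i))]
    · rw [Set.indicator_of_notMem hx]
      simp only [Set.mem_pi, Set.mem_univ, forall_const, not_forall] at hx
      obtain ⟨i, hi⟩ := hx
      symm
      apply Finset.prod_eq_zero (Finset.mem_univ i)
      rw [Set.indicator_of_notMem hi]
  simp_rw [e]
  rw [lint_pi_prod μ (fun i => (s i).indicator (f i)) (fun i => (hf i).indicator (hs i))]
  apply Finset.prod_congr rfl
  intro i _
  rw [withDensity_apply _ (hs i), lintegral_indicator (hs i)]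

lemma g1_shift (a : ℝ) : g1.map (fun x => x + a)
    = g1.withDensity (fun x => ENNReal.ofReal (Real.exp (a * x - a ^ 2 / 2))) := by
  change (gaussianReal 0 1).map (fun x => x + a) = (gaussianReal 0 1).withDensity _
  rw [gaussianReal_map_add_const, zero_add]
  rw [gaussianReal_of_var_ne_zero a one_ne_zero, gaussianReal_of_var_ne_zero 0 one_ne_zero]
  rw [← withDensity_mul _ (measurable_gaussianPDF 0 1) (by fun_prop)]
  congr 1
  ext x
  simp only [Pi.mul_apply, gaussianPDF]
  rw [← ENNReal.ofReal_mul (gaussianPDFReal_nonneg _ _ _)]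
  congr 1
  unfold gaussianPDFReal
  simp only [NNReal.coe_one, mul_one, sub_zero]
  rw [mul_assoc, ← Real.exp_add]
  congr 2
  ring

lemma g1_shift_one (a : ℝ) :
    ∫⁻ x, ENNReal.ofReal (Real.exp (a * x - a ^ 2 / 2)) ∂g1 = 1 := by
  have h := g1_shift a
  have h2 : (g1.map (fun x => x + a)) Set.univ = 1 := by
    rw [Measure.map_apply (by fun_prop) MeasurableSet.univ]
    simp
  rw [h, withDensity_apply _ MeasurableSet.univ, Measure.restrict_univ] at h2
  exact h2

/-- inner product of matrices -/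
def ip {n : ℕ} (A G : Fin n → Fin n → ℝ) : ℝ := ∑ i, ∑ j, A i j * G i j

/-- density of the shift -/
noncomputable def wgt {n : ℕ} (A G : Fin n → Fin n → ℝ) : ℝ := Real.exp (ip A G - ip A A / 2)

lemma gv_shift {n : ℕ} (a : Fin n → ℝ) : (gv (Fin n)).map (fun x => x + a)
    = (gv (Fin n)).withDensity
      (fun x => ∏ j, ENNReal.ofReal (Real.exp (a j * x j - a j ^ 2 / 2))) := by
  have h1 : (gv (Fin n)).map (fun x => x + a)
      = Measure.pi (fun j => g1.map (fun t => t + a j)) := by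
    rw [← Measure.pi_map_pi (fun j => by fun_prop)]
    rfl
  rw [h1]
  have h2 := pi_wd (fun _ : Fin n => g1)
    (fun j x => ENNReal.ofReal (Real.exp (a j * x - a j ^ 2 / 2))) (fun j => by fun_prop)
    (fun j => g1_shift_one (a j))
  rw [h2]
  congr 1
  funext j
  exact g1_shift (a j)

lemma gmm_shift {n : ℕ} (A : Fin n → Fin n → ℝ) : (gmm (Fin n) (Fin n)).map (fun x => x + A)
    = (gmm (Fin n) (Fin n)).withDensity (fun G => ENNReal.ofReal (wgt A G)) := by
  have h1 : (gmm (Fin n) (Fin n)).map (fun x => x + A)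
      = Measure.pi (fun i => (gv (Fin n)).map (fun t => t + A i)) := by
    rw [← Measure.pi_map_pi (fun j => by fun_prop)]
    rfl
  rw [h1]
  have hone : ∀ i, ∫⁻ x, (∏ j, ENNReal.ofReal (Real.exp (A i j * x j - A i j ^ 2 / 2)))
      ∂(gv (Fin n)) = 1 := by
    intro i
    rw [lint_pi_prod (fun _ : Fin n => g1)
      (fun j x => ENNReal.ofReal (Real.exp (A i j * x - A i j ^ 2 / 2))) (fun j => by fun_prop)]
    simp_rw [g1_shift_one]
    simp
  have h2 := pi_wd (fun _ : Fin n => gv (Fin n))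
    (fun i x => ∏ j, ENNReal.ofReal (Real.exp (A i j * x j - A i j ^ 2 / 2)))
    (fun i => by fun_prop) hone
  have e : (fun G : Fin n → Fin n → ℝ => ENNReal.ofReal (wgt A G))
      = fun G => ∏ i, ∏ j, ENNReal.ofReal (Real.exp (A i j * G i j - A i j ^ 2 / 2)) := by
    funext G
    simp_rw [← ENNReal.ofReal_prod_of_nonneg (fun j _ => (Real.exp_pos _).le)]
    rw [← ENNReal.ofReal_prod_of_nonneg (fun j _ => Finset.prod_nonneg (fun _ _ => (Real.exp_pos _).le))]
    congr 1
    simp_rw [← Real.exp_sum]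
    unfold wgt ip
    congr 1
    rw [Finset.sum_div, ← Finset.sum_sub_distrib]
    apply Finset.sum_congr rfl
    intro i _
    rw [Finset.sum_div, ← Finset.sum_sub_distrib]
    apply Finset.sum_congr rfl
    intro j _
    ring
  rw [e, h2]
  congr 1
  funext i
  exact gv_shift (A i)

lemma ip_cont {n : ℕ} (A : Fin n → Fin n → ℝ) : Continuous (ip A) := by
  unfold ip
  fun_prop

lemma wgt_cont {n : ℕ} (A : Fin n → Fin n → ℝ) : Continuous (wgt A) := by
  unfold wgt
  exact Real.continuous_exp.comp ((ip_cont A).sub continuous_const)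

lemma wgt_pos {n : ℕ} (A G : Fin n → Fin n → ℝ) : 0 < wgt A G := Real.exp_pos _

lemma wgt_lint {n : ℕ} (A : Fin n → Fin n → ℝ) :
    ∫⁻ G, ENNReal.ofReal (wgt A G) ∂(gmm (Fin n) (Fin n)) = 1 := by
  have h := gmm_shift A
  have h2 : ((gmm (Fin n) (Fin n)).map (fun x => x + A)) Set.univ = 1 := by
    rw [Measure.map_apply (by fun_prop) MeasurableSet.univ]
    simp
  rw [h, withDensity_apply _ MeasurableSet.univ, Measure.restrict_univ] at h2
  exact h2

lemma wgt_int {n : ℕ} (A : Fin n → Fin n → ℝ) : Integrable (wgt A) (gmm (Fin n) (Fin n)) := by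
  refine ⟨(wgt_cont A).aestronglyMeasurable, ?_⟩
  rw [hasFiniteIntegral_iff_ofReal (ae_of_all _ (fun G => (wgt_pos A G).le)), wgt_lint]
  exact ENNReal.one_lt_top

lemma wgt_integral {n : ℕ} (A : Fin n → Fin n → ℝ) : ∫ G, wgt A G ∂(gmm (Fin n) (Fin n)) = 1 := by
  rw [integral_eq_lintegral_of_nonneg_ae (ae_of_all _ (fun G => (wgt_pos A G).le))
    (wgt_cont A).aestronglyMeasurable, wgt_lint]
  simp

lemma shift_int {n : ℕ} (A : Fin n → Fin n → ℝ) (h : (Fin n → Fin n → ℝ) → ℝ) (hh : Measurable h) :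
    ∫ G, h (G + A) ∂(gmm (Fin n) (Fin n)) = ∫ G, wgt A G * h G ∂(gmm (Fin n) (Fin n)) := by
  have h1 : ∫ G, h G ∂((gmm (Fin n) (Fin n)).map (fun x => x + A))
      = ∫ G, h (G + A) ∂(gmm (Fin n) (Fin n)) :=
    integral_map (by fun_prop) hh.aestronglyMeasurable
  rw [← h1, gmm_shift]
  rw [integral_withDensity_eq_integral_toReal_smul
    ((wgt_cont A).measurable.ennreal_ofReal) (ae_of_all _ (fun G => ENNReal.ofReal_lt_top))]
  apply integral_congr_ae
  refine ae_of_all _ (fun G => ?_)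
  simp only [smul_eq_mul]
  rw [ENNReal.toReal_ofReal (wgt_pos A G).le]

end Pool.Agent.V11333.Sv
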