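import Mathlib

open MeasureTheory Finset
open scoped ENNReal NNReal

namespace Pool.Agent.V11333.Sv

/-- finite sums of squares of continuous functions, as kernels -/
def PD {X : Type} [TopologicalSpace X] (f : X → X → ℝ) : Prop :=
  ∃ (N : Type) (_ : Fintype N) (φ : N → X → ℝ), (∀ a, Continuous (φ a)) ∧
    ∀ u w, f u w = ∑ a, φ a u * φ a w

section pd

variable {X : Type} [TopologicalSpace X]

lemma PD.diag {φ : X → ℝ} (h : Continuous φ) : PD (fun u w => φ u * φ w) :=
  ⟨Unit, inferInstance, fun _ => φ, fun _ => h, fun u w => by simp⟩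

lemma PD.zero : PD (fun (_ _ : X) => (0:ℝ)) :=
  ⟨Empty, inferInstance, fun a => a.elim, fun a => a.elim, fun u w => by simp⟩

lemma PD.one : PD (fun (_ _ : X) => (1:ℝ)) := by
  have := PD.diag (X := X) (φ := fun _ => (1:ℝ)) continuous_const
  simpa using this

lemma PD.add {f g : X → X → ℝ} (hf : PD f) (hg : PD g) : PD (fun u w => f u w + g u w) := by
  obtain ⟨N, hN, φ, hφ, h1⟩ := hf
  obtain ⟨M, hM, ψ, hψ, h2⟩ := hg
  refine ⟨N ⊕ M, inferInstance, Sum.elim φ ψ, ?_, ?_⟩
  · rintro (a | a)
    · exact hφ a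
    · exact hψ a
  · intro u w
    simp only [h1, h2, Fintype.sum_sum_type, Sum.elim_inl, Sum.elim_inr]

lemma PD.mul {f g : X → X → ℝ} (hf : PD f) (hg : PD g) : PD (fun u w => f u w * g u w) := by
  obtain ⟨N, hN, φ, hφ, h1⟩ := hf
  obtain ⟨M, hM, ψ, hψ, h2⟩ := hg
  refine ⟨N × M, inferInstance, fun p u => φ p.1 u * ψ p.2 u, ?_, ?_⟩
  · intro p
    exact (hφ p.1).mul (hψ p.2)
  · intro u w
    simp only [h1, h2, Fintype.sum_prod_type, Finset.sum_mul_sum]
    apply Finset.sum_congr rfl
    intro a _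
    apply Finset.sum_congr rfl
    intro b _
    ring

lemma PD.smul {f : X → X → ℝ} (hf : PD f) {c : ℝ} (hc : 0 ≤ c) : PD (fun u w => c * f u w) := by
  have h := PD.diag (X := X) (φ := fun _ => Real.sqrt c) continuous_const
  have h2 := h.mul hf
  simp only [Real.mul_self_sqrt hc] at h2
  exact h2

lemma PD.pow {f : X → X → ℝ} (hf : PD f) (N : ℕ) : PD (fun u w => f u w ^ N) := by
  induction N with
  | zero => simpa using PD.one
  | succ N ih =>
    have := ih.mul hf
    simpa [pow_succ] using this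

lemma PD.sum {ι : Type} (s : Finset ι) {f : ι → X → X → ℝ} (hf : ∀ i, PD (f i)) :
    PD (fun u w => ∑ i ∈ s, f i u w) := by
  classical
  induction s using Finset.induction_on with
  | empty => simpa using PD.zero
  | insert a s ha ih =>
    have := (hf a).add ih
    simpa [Finset.sum_insert ha] using this

lemma PD.cont {f : X → X → ℝ} (hf : PD f) : Continuous (fun p : X × X => f p.1 p.2) := by
  obtain ⟨N, hN, φ, hφ, h1⟩ := hf
  simp_rw [h1]
  apply continuous_finsetSum
  intro a _
  exact ((hφ a).comp continuous_fst).mul ((hφ a).comp continuous_snd)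

variable [CompactSpace X] [MeasurableSpace X] [BorelSpace X] [SecondCountableTopology X]
  (ν : Measure X) [IsProbabilityMeasure ν]

lemma cont_bdd {Y : Type} [TopologicalSpace Y] [CompactSpace Y] {f : Y → ℝ} (hf : Continuous f) :
    ∃ C, 0 ≤ C ∧ ∀ y, |f y| ≤ C := by
  obtain ⟨C, hC⟩ := (isCompact_univ (X := Y)).exists_bound_of_continuousOn hf.continuousOn
  refine ⟨max C 0, le_max_right _ _, fun y => ?_⟩
  exact (hC y (Set.mem_univ y)).trans (le_max_left _ _)

lemma cont_int {Y : Type} [TopologicalSpace Y] [CompactSpace Y] [MeasurableSpace Y] [BorelSpace Y]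
    (μ : Measure Y) [IsProbabilityMeasure μ] {f : Y → ℝ} (hf : Continuous f) : Integrable f μ := by
  obtain ⟨C, hC0, hC⟩ := cont_bdd hf
  refine Integrable.mono' (integrable_const C) hf.aestronglyMeasurable ?_
  exact ae_of_all _ (fun y => hC y)

lemma PD.int_nonneg {f : X → X → ℝ} (hf : PD f) : 0 ≤ ∫ p, f p.1 p.2 ∂(ν.prod ν) := by
  obtain ⟨N, hN, φ, hφ, h1⟩ := hf
  simp_rw [h1]
  rw [integral_finsetSum]
  · apply Finset.sum_nonneg
    intro a _
    rw [integral_prod_mul]
    exact mul_self_nonneg _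
  · intro a _
    exact cont_int _ (((hφ a).comp continuous_fst).mul ((hφ a).comp continuous_snd))

lemma PD.exp_nonneg {f k : X → X → ℝ} (hf : PD f) (hk : PD k) :
    0 ≤ ∫ p, f p.1 p.2 * Real.exp (k p.1 p.2) ∂(ν.prod ν) := by
  obtain ⟨C, hC0, hC⟩ := cont_bdd hf.cont
  obtain ⟨D, hD0, hD⟩ := cont_bdd hk.cont
  have hlim : Filter.Tendsto (fun N : ℕ => ∫ p, f p.1 p.2 * (1 + k p.1 p.2 / N) ^ N ∂(ν.prod ν))
      Filter.atTop (nhds (∫ p, f p.1 p.2 * Real.exp (k p.1 p.2) ∂(ν.prod ν))) := by
    apply tendsto_integral_of_dominated_convergence (fun _ => C * Real.exp D)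
    · intro N
      have h1 : Continuous (fun p : X × X => f p.1 p.2 * (1 + k p.1 p.2 / N) ^ N) :=
        hf.cont.mul (((continuous_const.add (hk.cont.div_const _))).pow _)
      exact h1.aestronglyMeasurable
    · exact integrable_const _
    · intro N
      refine ae_of_all _ (fun p => ?_)
      rw [Real.norm_eq_abs, abs_mul, abs_pow]
      apply mul_le_mul (hC p) _ (by positivity) hC0
      have h2 : |1 + k p.1 p.2 / N| ≤ Real.exp (D / N) := by
        have h3 : |1 + k p.1 p.2 / N| ≤ 1 + D / N := by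
          refine (abs_add_le _ _).trans ?_
          rw [abs_one, abs_div, Nat.abs_cast]
          gcongr
          exact hD p
        refine h3.trans ?_
        have := Real.add_one_le_exp (D / N)
        linarith
      calc |1 + k p.1 p.2 / N| ^ N ≤ Real.exp (D / N) ^ N := by gcongr
        _ = Real.exp (N * (D / N)) := by rw [← Real.exp_nat_mul]
        _ ≤ Real.exp D := by
            apply Real.exp_le_exp.mpr
            rcases Nat.eq_zero_or_pos N with rfl | hN
            · simpa using hD0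
            · have : (0:ℝ) < N := by exact_mod_cast hN
              rw [mul_div_cancel₀ _ this.ne']
    · refine ae_of_all _ (fun p => ?_)
      exact (Real.tendsto_one_add_div_pow_exp (k p.1 p.2)).const_mul _
  apply ge_of_tendsto' hlim
  intro N
  have h1 : PD (fun u w => f u w * (1 + k u w / N) ^ N) := by
    apply hf.mul
    apply PD.pow
    apply PD.one.add
    have h2 := hk.smul (c := 1 / (N:ℝ)) (by positivity)
    have h3 : (fun u w => 1 / (N:ℝ) * k u w) = fun u w => k u w / N := by
      funext u w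
      ring
    rw [h3] at h2
    exact h2
  exact h1.int_nonneg ν

end pd

/-- the orthogonal group -/
abbrev OG (n : ℕ) := unitary (Matrix (Fin n) (Fin n) ℝ)

lemma OG_tm {n : ℕ} (U : OG n) : (U : Matrix (Fin n) (Fin n) ℝ).transpose * U = 1 := by
  have h := Unitary.coe_star_mul_self U
  rw [Matrix.star_eq_conjTranspose, Matrix.conjTranspose_eq_transpose_of_trivial] at h
  exact h

lemma OG_mt {n : ℕ} (U : OG n) : (U : Matrix (Fin n) (Fin n) ℝ) * (U : Matrix (Fin n) (Fin n) ℝ).transpose = 1 :=
  mul_eq_one_comm.mp (OG_tm U)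

lemma OG_le {n : ℕ} (U : OG n) (i j : Fin n) : (U : Matrix (Fin n) (Fin n) ℝ) i j ∈ Set.Icc (-1:ℝ) 1 := by
  have h : ((U : Matrix (Fin n) (Fin n) ℝ).transpose * U) j j = 1 := by rw [OG_tm]; simp
  rw [Matrix.mul_apply] at h
  have h2 : (U : Matrix (Fin n) (Fin n) ℝ) i j ^ 2 ≤ 1 := by
    rw [← h, sq]
    exact Finset.single_le_sum (f := fun i => (U : Matrix (Fin n) (Fin n) ℝ).transpose j i *
      (U : Matrix (Fin n) (Fin n) ℝ) i j) (fun k _ => mul_self_nonneg _) (Finset.mem_univ i)
  exact abs_le.mp (abs_le_of_sq_le_sq (by simpa using h2) zero_le_one)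

instance OG_compact (n : ℕ) : CompactSpace (OG n) := by
  apply isCompact_iff_compactSpace (s := (unitary (Matrix (Fin n) (Fin n) ℝ) : Set (Matrix (Fin n) (Fin n) ℝ))).mp
  have hK : IsCompact (Set.univ.pi (fun _ : Fin n => Set.univ.pi (fun _ : Fin n => Set.Icc (-1:ℝ) 1))) :=
    isCompact_univ_pi (fun _ => isCompact_univ_pi (fun _ => isCompact_Icc))
  refine IsCompact.of_isClosed_subset hK (isClosed_unitary (R := Matrix (Fin n) (Fin n) ℝ)) ?_
  intro U hU i _ j _
  exact OG_le ⟨U, hU⟩ i j

instance mat_sc (n : ℕ) : SecondCountableTopology (Matrix (Fin n) (Fin n) ℝ) :=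
  inferInstanceAs (SecondCountableTopology (Fin n → Fin n → ℝ))

instance OG_meas (n : ℕ) : MeasurableSpace (OG n) := borel _

instance OG_borel (n : ℕ) : BorelSpace (OG n) := ⟨rfl⟩

/-- Haar probability measure on the orthogonal group -/
noncomputable def nu (n : ℕ) : Measure (OG n) := Measure.haarMeasure ⊤

instance nu_prob (n : ℕ) : IsProbabilityMeasure (nu n) := by
  constructor
  have := Measure.haarMeasure_self (G := OG n) (K₀ := ⊤)
  simpa [nu] using this

instance nu_left (n : ℕ) : (nu n).IsMulLeftInvariant := by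
  unfold nu
  infer_instance

end Pool.Agent.V11333.Sv
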