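import Mathlib
import Pool.Agent.V11333.Sv6
import Pool.Agent.V11333.Sv7

open MeasureTheory ProbabilityTheory Finset
open scoped ENNReal NNReal

namespace Pool.Agent.V11333.Sv

open Pool.Agent.V11333.Slab Pool.Agent.V11333.GRot Pool.Agent.V11333.Cond

lemma mem_OG {n : ℕ} {P : Matrix (Fin n) (Fin n) ℝ} (h : P.transpose * P = 1) :
    P ∈ unitary (Matrix (Fin n) (Fin n) ℝ) := by
  rw [Unitary.mem_iff, Matrix.star_eq_conjTranspose, Matrix.conjTranspose_eq_transpose_of_trivial]
  exact ⟨h, mul_eq_one_comm.mp h⟩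

/-- singular value decomposition of an invertible matrix -/
lemma svd {n : ℕ} (M : Matrix (Fin n) (Fin n) ℝ) (h : M.det ≠ 0) :
    ∃ (A B : OG n) (d : Fin n → ℝ), (∀ k, 0 ≤ d k) ∧
      M = (A : Matrix (Fin n) (Fin n) ℝ).transpose * Matrix.diagonal d * B := by
  have hinj : Function.Injective M.mulVec := by
    apply Matrix.mulVec_injective_of_isUnit
    exact (Matrix.isUnit_iff_isUnit_det M).mpr (isUnit_iff_ne_zero.mpr h)
  have hpd : (M.conjTranspose * M).PosDef := Matrix.PosDef.conjTranspose_mul_self M hinj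
  have hH := hpd.1
  have he := hpd.eigenvalues_pos
  set e := hH.eigenvalues with hedef
  have hsp := hH.spectral_theorem
  rw [Unitary.conjStarAlgAut_apply] at hsp
  set V : OG n := hH.eigenvectorUnitary with hV
  have hsp2 : M.transpose * M = (V : Matrix (Fin n) (Fin n) ℝ) * Matrix.diagonal e *
      (V : Matrix (Fin n) (Fin n) ℝ).transpose := by
    exact hsp
  set d : Fin n → ℝ := fun k => Real.sqrt (e k) with hd
  have hdpos : ∀ k, 0 < d k := fun k => Real.sqrt_pos.mpr (he k)
  set P : Matrix (Fin n) (Fin n) ℝ := M * V * Matrix.diagonal (fun k => (d k)⁻¹) with hP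
  have hPP : P.transpose * P = 1 := by
    rw [hP, Matrix.transpose_mul, Matrix.transpose_mul, Matrix.diagonal_transpose]
    calc Matrix.diagonal (fun k => (d k)⁻¹) * ((V : Matrix (Fin n) (Fin n) ℝ).transpose * M.transpose) *
          (M * V * Matrix.diagonal (fun k => (d k)⁻¹))
        = Matrix.diagonal (fun k => (d k)⁻¹) * ((V : Matrix (Fin n) (Fin n) ℝ).transpose *
          (M.transpose * M) * V) * Matrix.diagonal (fun k => (d k)⁻¹) := by
          simp only [Matrix.mul_assoc]
      _ = Matrix.diagonal (fun k => (d k)⁻¹) * (((V : Matrix (Fin n) (Fin n) ℝ).transpose * V) *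
          Matrix.diagonal e * ((V : Matrix (Fin n) (Fin n) ℝ).transpose * V)) *
          Matrix.diagonal (fun k => (d k)⁻¹) := by
          rw [hsp2]
          simp only [Matrix.mul_assoc]
      _ = 1 := by
          rw [OG_tm, one_mul, mul_one, Matrix.diagonal_mul_diagonal, Matrix.diagonal_mul_diagonal]
          rw [← Matrix.diagonal_one]
          congr 1
          funext k
          have h1 : d k * d k = e k := Real.mul_self_sqrt (he k).le
          have h2 := (hdpos k).ne'
          rw [← h1]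
          field_simp
  refine ⟨⟨P.transpose, mem_OG (by rw [Matrix.transpose_transpose]; exact mul_eq_one_comm.mp hPP)⟩,
    ⟨(V : Matrix (Fin n) (Fin n) ℝ).transpose, mem_OG (by rw [Matrix.transpose_transpose]; exact OG_mt V)⟩,
    d, fun k => (hdpos k).le, ?_⟩
  simp only [Matrix.transpose_transpose]
  rw [hP]
  calc M = M * ((V : Matrix (Fin n) (Fin n) ℝ) * (V : Matrix (Fin n) (Fin n) ℝ).transpose) := by
        rw [OG_mt, mul_one]
    _ = M * V * (Matrix.diagonal (fun k => (d k)⁻¹) * Matrix.diagonal d) *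
        (V : Matrix (Fin n) (Fin n) ℝ).transpose := by
        rw [Matrix.diagonal_mul_diagonal]
        have : (fun k => (d k)⁻¹ * d k) = fun _ => (1:ℝ) := by
          funext k
          exact inv_mul_cancel₀ (hdpos k).ne'
        rw [this, Matrix.diagonal_one, mul_one, Matrix.mul_assoc]
    _ = _ := by simp only [Matrix.mul_assoc]

/-- diagonal matrix as a function -/
def dg {n : ℕ} (d : Fin n → ℝ) : Fin n → Fin n → ℝ := Matrix.of.symm (Matrix.diagonal d)

lemma svd' {n : ℕ} (M : Fin n → Fin n → ℝ) (h : (Matrix.of M).det ≠ 0) :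
    ∃ (A B : OG n) (d : Fin n → ℝ), (∀ k, 0 ≤ d k) ∧ M = rt A B (dg d) := by
  obtain ⟨A, B, d, hd, hM⟩ := svd (Matrix.of M) h
  refine ⟨A, B, d, hd, ?_⟩
  unfold rt dg
  rw [Equiv.apply_symm_apply, ← hM]
  rfl

lemma rt_dg {n : ℕ} (U W : Matrix (Fin n) (Fin n) ℝ) (d : Fin n → ℝ) (i j : Fin n) :
    rt U W (dg d) i j = ∑ k, U k i * d k * W k j := by
  have h : rt U W (dg d) i j = (U.transpose * Matrix.diagonal d * W) i j := rfl
  rw [h, Matrix.mul_apply]
  apply Finset.sum_congr rfl
  intro k _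
  rw [Matrix.mul_diagonal]
  rfl

/-- the smallest singular value of a diagonal matrix, lower bound -/
lemma s2_dg_ge {m : ℕ} (d : Fin (m+1) → ℝ) (k0 : Fin (m+1)) (hk : ∀ k, d k0 ^ 2 ≤ d k ^ 2) :
    d k0 ^ 2 ≤ s2 (dg d) := by
  obtain ⟨u, hu, hus⟩ := s2_att (dg d)
  rw [← hus]
  have h1 : qf (dg d) u = ∑ j, d j ^ 2 * u j ^ 2 := by
    unfold qf
    apply Finset.sum_congr rfl
    intro j _
    have h2 : ∑ i, u i * dg d i j = u j * d j := by
      rw [Finset.sum_eq_single j]
      · simp [dg]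
      · intro b _ hb
        simp [dg, Matrix.diagonal_apply_ne d hb]
      · intro hj
        exact absurd (Finset.mem_univ j) hj
    rw [h2]
    ring
  rw [h1]
  have h3 : ∑ i, u i ^ 2 = 1 := hu
  calc d k0 ^ 2 = ∑ j, d k0 ^ 2 * u j ^ 2 := by rw [← Finset.mul_sum, h3, mul_one]
    _ ≤ ∑ j, d j ^ 2 * u j ^ 2 := by
        apply Finset.sum_le_sum
        intro j _
        exact mul_le_mul_of_nonneg_right (hk j) (sq_nonneg _)

/-- the cross term -/
def xx {n : ℕ} (l : Fin n → ℝ) (k0 : Fin n) (U W : Matrix (Fin n) (Fin n) ℝ) : ℝ :=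
  ∑ i, l i * (U k0 i * W k0 i)

/-- the test vector bound -/
lemma test_bound {n : ℕ} (l d : Fin n → ℝ) (k0 : Fin n) (U W : OG n) (δ : ℝ) :
    s2 (rt U W (dg d) - δ • dg l)
      ≤ d k0 ^ 2 - 2 * δ * d k0 * xx l k0 U W + δ ^ 2 * ∑ i, (l i) ^ 2 := by
  have hU : ∑ i, (U : Matrix (Fin n) (Fin n) ℝ) k0 i ^ 2 = 1 := by
    have h := congrFun (congrFun (OG_mt U) k0) k0
    rw [Matrix.mul_apply] at h
    simp only [Matrix.transpose_apply, Matrix.one_apply_eq] at h
    simpa [sq] using h
  have hW : ∑ i, (W : Matrix (Fin n) (Fin n) ℝ) k0 i ^ 2 = 1 := by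
    have h := congrFun (congrFun (OG_mt W) k0) k0
    rw [Matrix.mul_apply] at h
    simp only [Matrix.transpose_apply, Matrix.one_apply_eq] at h
    simpa [sq] using h
  refine (s2_le _ (u := fun i => (U : Matrix (Fin n) (Fin n) ℝ) k0 i) hU).trans ?_
  unfold qf
  have h1 : ∀ j, ∑ i, (U : Matrix (Fin n) (Fin n) ℝ) k0 i * (rt U W (dg d) - δ • dg l) i j
      = d k0 * (W : Matrix (Fin n) (Fin n) ℝ) k0 j - δ * (l j * (U : Matrix (Fin n) (Fin n) ℝ) k0 j) := by
    intro j
    simp only [Pi.sub_apply, Pi.smul_apply, smul_eq_mul, mul_sub, Finset.sum_sub_distrib]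
    congr 1
    · simp_rw [rt_dg, Finset.mul_sum]
      rw [Finset.sum_comm]
      have h2 : ∀ k, ∑ i, (U : Matrix (Fin n) (Fin n) ℝ) k0 i *
          ((U : Matrix (Fin n) (Fin n) ℝ) k i * d k * (W : Matrix (Fin n) (Fin n) ℝ) k j)
          = (if k0 = k then d k * (W : Matrix (Fin n) (Fin n) ℝ) k j else 0) := by
        intro k
        have h3 := congrFun (congrFun (OG_mt U) k0) k
        rw [Matrix.mul_apply] at h3
        simp only [Matrix.transpose_apply] at h3
        calc ∑ i, (U : Matrix (Fin n) (Fin n) ℝ) k0 i *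
            ((U : Matrix (Fin n) (Fin n) ℝ) k i * d k * (W : Matrix (Fin n) (Fin n) ℝ) k j)
            = (∑ i, (U : Matrix (Fin n) (Fin n) ℝ) k0 i * (U : Matrix (Fin n) (Fin n) ℝ) k i) *
              (d k * (W : Matrix (Fin n) (Fin n) ℝ) k j) := by
              rw [Finset.sum_mul]
              apply Finset.sum_congr rfl
              intro i _
              ring
          _ = _ := by
              rw [h3, Matrix.one_apply]
              split_ifs <;> simp
      simp_rw [h2]
      simp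
    · rw [Finset.sum_eq_single j]
      · simp [dg]
        ring
      · intro b _ hb
        simp [dg, Matrix.diagonal_apply_ne l hb]
      · intro hj
        exact absurd (Finset.mem_univ j) hj
  simp_rw [h1]
  have h2 : ∀ j, (d k0 * (W : Matrix (Fin n) (Fin n) ℝ) k0 j - δ * (l j * (U : Matrix (Fin n) (Fin n) ℝ) k0 j)) ^ 2
      = d k0 ^ 2 * (W : Matrix (Fin n) (Fin n) ℝ) k0 j ^ 2
        - 2 * δ * d k0 * (l j * ((U : Matrix (Fin n) (Fin n) ℝ) k0 j * (W : Matrix (Fin n) (Fin n) ℝ) k0 j))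
        + δ ^ 2 * (l j ^ 2 * (U : Matrix (Fin n) (Fin n) ℝ) k0 j ^ 2) := by
    intro j; ring
  simp_rw [h2]
  rw [Finset.sum_add_distrib, Finset.sum_sub_distrib, ← Finset.mul_sum, ← Finset.mul_sum,
    ← Finset.mul_sum, hW, mul_one]
  unfold xx
  gcongr with j _
  have h3 : (U : Matrix (Fin n) (Fin n) ℝ) k0 j ^ 2 ≤ 1 := by
    rw [← hU]
    exact Finset.single_le_sum (f := fun i => (U : Matrix (Fin n) (Fin n) ℝ) k0 i ^ 2)
      (fun _ _ => sq_nonneg _) (Finset.mem_univ j)
  exact mul_le_of_le_one_right (sq_nonneg _) h3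

end Pool.Agent.V11333.Sv
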