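import Mathlib
import Pool.Agent.V11333.Sv8

open MeasureTheory ProbabilityTheory Finset
open scoped ENNReal NNReal

namespace Pool.Agent.V11333.Sv

open Pool.Agent.V11333.Slab Pool.Agent.V11333.GRot Pool.Agent.V11333.Cond

/-- clamp to the unit interval -/
noncomputable def cl (w : ℝ) : ℝ := max 0 (min 1 w)

lemma cl_nonneg (w : ℝ) : 0 ≤ cl w := le_max_left _ _

lemma cl_le_one (w : ℝ) : cl w ≤ 1 := max_le zero_le_one (min_le_left _ _)

lemma cl_mono {x y : ℝ} (h : x ≤ y) : cl x ≤ cl y := by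
  unfold cl
  gcongr

/-- smoothstep -/
noncomputable def gs (w : ℝ) : ℝ := (1 - cl w) ^ 2 * (1 + 2 * cl w)

/-- minus its derivative -/
noncomputable def gd (w : ℝ) : ℝ := 6 * cl w * (1 - cl w)

lemma gs_nonneg (w : ℝ) : 0 ≤ gs w := by
  have := cl_nonneg w
  unfold gs
  positivity

lemma gs_anti {x y : ℝ} (h : x ≤ y) : gs y ≤ gs x := by
  have h1 := cl_mono h
  have h2 := cl_nonneg x
  have h3 := cl_le_one y
  unfold gs
  set a := cl x
  set b := cl y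
  nlinarith [mul_nonneg (sub_nonneg.mpr h1) (mul_nonneg h2 (sub_nonneg.mpr h3)),
    mul_nonneg (sub_nonneg.mpr h1) (mul_nonneg h2 (sub_nonneg.mpr (h1.trans h3))),
    mul_nonneg (sub_nonneg.mpr h1) (mul_nonneg (h2.trans h1) (sub_nonneg.mpr h3)),
    mul_nonneg (sub_nonneg.mpr h1) (mul_nonneg (h2.trans h1) (sub_nonneg.mpr (h1.trans h3)))]

lemma gs_zero {w : ℝ} (h : w ≤ 0) : gs w = 1 := by
  unfold gs cl
  rw [min_eq_right (h.trans zero_le_one), max_eq_left h]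
  norm_num

lemma gs_one {w : ℝ} (h : 1 ≤ w) : gs w = 0 := by
  unfold gs cl
  rw [min_eq_left h]
  norm_num

lemma gd_one {w : ℝ} (h : 1 ≤ w) : gd w = 0 := by
  unfold gd cl
  rw [min_eq_left h]
  norm_num

lemma gs_le_one (w : ℝ) : gs w ≤ 1 := by
  rcases le_total w 0 with h | h
  · rw [gs_zero h]
  · rw [← gs_zero le_rfl]
    exact gs_anti h

lemma gd_nonneg (w : ℝ) : 0 ≤ gd w := by
  unfold gd
  have := cl_nonneg w
  have := cl_le_one w
  exact mul_nonneg (by positivity) (by linarith)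

lemma gd_le (w : ℝ) : gd w ≤ 6 := by
  unfold gd
  have := cl_nonneg w
  have := cl_le_one w
  nlinarith

lemma gs_cont : Continuous gs := by
  unfold gs cl
  fun_prop

lemma cl_cases (w : ℝ) : (w ≤ 0 ∧ cl w = 0) ∨ (0 ≤ w ∧ w ≤ 1 ∧ cl w = w) ∨ (1 ≤ w ∧ cl w = 1) := by
  unfold cl
  rcases le_total w 0 with h | h
  · left
    rw [min_eq_right (h.trans zero_le_one), max_eq_left h]
    exact ⟨h, rfl⟩
  · rcases le_total w 1 with h1 | h1
    · right; left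
      rw [min_eq_right h1, max_eq_right h]
      exact ⟨h, h1, rfl⟩
    · right; right
      rw [min_eq_left h1, max_eq_right zero_le_one]
      exact ⟨h1, rfl⟩

lemma gs_ineq (x y : ℝ) : gs x - gs y ≤ -gd x * (x - y) + 3 * (x - y) ^ 2 := by
  have key : gs x - gs y = -6 * cl x * (1 - cl x) * (cl x - cl y)
      + (cl y - cl x) ^ 2 * (3 - 4 * cl x - 2 * cl y) := by
    unfold gs
    ring
  rw [key]
  unfold gd
  rcases cl_cases x with ⟨hx, ex⟩ | ⟨hx, hx1, ex⟩ | ⟨hx, ex⟩ <;>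
  rcases cl_cases y with ⟨hy, ey⟩ | ⟨hy, hy1, ey⟩ | ⟨hy, ey⟩ <;>
  rw [ex, ey]
  · nlinarith [sq_nonneg (x - y)]
  · nlinarith [sq_nonneg (x - y), mul_nonneg (neg_nonneg.mpr hx) hy, mul_nonneg hy hy,
      mul_nonneg hy (mul_nonneg hy hy)]
  · nlinarith [sq_nonneg (x - y)]
  · -- 0 ≤ x ≤ 1, y ≤ 0
    have hs : 0 ≤ -y := by linarith
    nlinarith [mul_nonneg hx hs, mul_nonneg (mul_nonneg hx hs) hx, mul_nonneg hx (mul_nonneg hx hx),
      sq_nonneg y]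
  · nlinarith [mul_nonneg (sq_nonneg (y - x)) hx, mul_nonneg (sq_nonneg (y - x)) hy]
  · -- 0 ≤ x ≤ 1, 1 ≤ y
    have hs : 0 ≤ y - 1 := by linarith
    have hr : 0 ≤ 1 - x := by linarith
    nlinarith [mul_nonneg hr hs, mul_nonneg (mul_nonneg hr hs) hx, mul_nonneg (mul_nonneg hr hr) hx,
      sq_nonneg (y - 1), mul_nonneg hr hr]
  · nlinarith [sq_nonneg (x - y)]
  · -- 1 ≤ x, 0 ≤ y ≤ 1
    have hs : 0 ≤ x - 1 := by linarith
    have hr : 0 ≤ 1 - y := by linarith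
    nlinarith [mul_nonneg hr hs, mul_nonneg hr hr, mul_nonneg (mul_nonneg hr hr) hy, sq_nonneg (x - 1),
      mul_nonneg (mul_nonneg hr hr) hr]
  · nlinarith [sq_nonneg (x - y)]

/-- the cut-off -/
noncomputable def kk (α β v : ℝ) : ℝ := gs ((v - α) / (β - α))

lemma kk_cont (α β : ℝ) : Continuous (kk α β) := by
  unfold kk
  exact gs_cont.comp (by fun_prop)

lemma kk_anti {α β : ℝ} (h : α < β) {x y : ℝ} (hxy : x ≤ y) : kk α β y ≤ kk α β x := by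
  have : 0 < β - α := by linarith
  exact gs_anti (by gcongr)

lemma kk_ineq {α β : ℝ} (h : α < β) (x y : ℝ) :
    kk α β x - kk α β y ≤ -(gd ((x - α) / (β - α)) / (β - α)) * (x - y)
      + 3 * (x - y) ^ 2 / (β - α) ^ 2 := by
  have hL : 0 < β - α := by linarith
  have h1 := gs_ineq ((x - α) / (β - α)) ((y - α) / (β - α))
  have h2 : (x - α) / (β - α) - (y - α) / (β - α) = (x - y) / (β - α) := by
    field_simp; ring
  rw [h2] at h1
  unfold kk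
  refine h1.trans (le_of_eq ?_)
  field_simp

/-- deterministic one-step inequality -/
lemma step_det {m : ℕ} {α β : ℝ} (hα : 0 ≤ α) (h : α < β) (l d : Fin (m+1) → ℝ) (hl : ∀ i, 0 ≤ l i)
    (hd : ∀ i, 0 ≤ d i) (k0 : Fin (m+1)) (hk : ∀ k, d k0 ≤ d k) {δ : ℝ} (hδ0 : 0 ≤ δ) (hδ1 : δ ≤ 1)
    (U W : OG (m+1)) :
    kk α β (s2 (rt U W (dg d))) - kk α β (s2 (rt U W (dg d) - δ • dg l))
      ≤ -(2 * δ * (gd ((d k0 ^ 2 - α) / (β - α)) / (β - α)) * d k0) * xx l k0 U W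
        + (6 * (∑ i, l i ^ 2) / (β - α)
          + 3 * (8 * β * (∑ i, l i) ^ 2 + 2 * (∑ i, l i ^ 2) ^ 2) / (β - α) ^ 2) * δ ^ 2 := by
  have hL : 0 < β - α := by linarith
  set X := xx l k0 U W with hX
  set L2 := ∑ i, l i ^ 2 with hL2
  set L1 := ∑ i, l i with hL1
  have hL2n : 0 ≤ L2 := Finset.sum_nonneg (fun i _ => sq_nonneg _)
  have hL1n : 0 ≤ L1 := Finset.sum_nonneg (fun i _ => hl i)
  have hXL : |X| ≤ L1 := by
    rw [hX, hL1]
    unfold xx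
    refine (Finset.abs_sum_le_sum_abs _ _).trans ?_
    apply Finset.sum_le_sum
    intro i _
    rw [abs_mul, abs_of_nonneg (hl i)]
    apply mul_le_of_le_one_right (hl i)
    rw [abs_mul]
    have h1 := abs_le.mpr (OG_le U k0 i)
    have h2 := abs_le.mpr (OG_le W k0 i)
    exact mul_le_one₀ h1 (abs_nonneg _) h2
  have hs2 : d k0 ^ 2 ≤ s2 (rt U W (dg d)) := by
    rw [s2_rt _ _ (OG_tm U) (OG_tm W)]
    exact s2_dg_ge d k0 (fun k => by have := hk k; have := hd k0; gcongr)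
  have hC : 0 ≤ (6 * L2 / (β - α) + 3 * (8 * β * L1 ^ 2 + 2 * L2 ^ 2) / (β - α) ^ 2) := by
    have : 0 ≤ β := by linarith
    positivity
  rcases le_or_gt β (d k0 ^ 2) with hb | hb
  · have h1 : kk α β (s2 (rt U W (dg d))) = 0 := by
      unfold kk
      apply gs_one
      rw [le_div_iff₀ hL]
      linarith
    have h2 : gd ((d k0 ^ 2 - α) / (β - α)) = 0 := by
      apply gd_one
      rw [le_div_iff₀ hL]
      linarith
    rw [h1, h2]
    have h3 : 0 ≤ kk α β (s2 (rt U W (dg d) - δ • dg l)) := gs_nonneg _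
    have h4 := mul_nonneg hC (sq_nonneg δ)
    simp only [zero_div, mul_zero, zero_mul, neg_zero, zero_add]
    linarith
  · have h1 : kk α β (s2 (rt U W (dg d))) ≤ kk α β (d k0 ^ 2) := kk_anti h hs2
    have h2 := kk_anti (α := α) (β := β) h (test_bound l d k0 U W δ)
    have h3 := kk_ineq h (d k0 ^ 2) (d k0 ^ 2 - 2 * δ * d k0 * X + δ ^ 2 * L2)
    set κ := gd ((d k0 ^ 2 - α) / (β - α)) / (β - α) with hκ
    have hκ1 : κ ≤ 6 / (β - α) := by
      rw [hκ]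
      have := gd_le ((d k0 ^ 2 - α) / (β - α))
      gcongr
    have hκ0 : 0 ≤ κ := div_nonneg (gd_nonneg _) hL.le
    have e1 : d k0 ^ 2 - (d k0 ^ 2 - 2 * δ * d k0 * X + δ ^ 2 * L2) = 2 * δ * d k0 * X - δ ^ 2 * L2 := by
      ring
    rw [e1] at h3
    have h4 : (2 * δ * d k0 * X - δ ^ 2 * L2) ^ 2 ≤ (8 * β * L1 ^ 2 + 2 * L2 ^ 2) * δ ^ 2 := by
      have h5 : (2 * δ * d k0 * X - δ ^ 2 * L2) ^ 2 ≤ 2 * (2 * δ * d k0 * X) ^ 2 + 2 * (δ ^ 2 * L2) ^ 2 := by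
        nlinarith [sq_nonneg (2 * δ * d k0 * X + δ ^ 2 * L2)]
      have h6 : X ^ 2 ≤ L1 ^ 2 := by
        rw [← sq_abs X]
        gcongr
      have hβ : 0 ≤ β := by linarith
      have h7 : (2 * δ * d k0 * X) ^ 2 ≤ 4 * β * L1 ^ 2 * δ ^ 2 := by
        calc (2 * δ * d k0 * X) ^ 2 = 4 * δ ^ 2 * (d k0 ^ 2 * X ^ 2) := by ring
          _ ≤ 4 * δ ^ 2 * (β * L1 ^ 2) := by gcongr
          _ = _ := by ring
      have h8 : (δ ^ 2 * L2) ^ 2 ≤ L2 ^ 2 * δ ^ 2 := by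
        have : δ ^ 2 ≤ 1 := by nlinarith
        calc (δ ^ 2 * L2) ^ 2 = L2 ^ 2 * δ ^ 2 * δ ^ 2 := by ring
          _ ≤ L2 ^ 2 * δ ^ 2 * 1 := by gcongr
          _ = _ := by ring
      linarith
    have h9 : 3 * (2 * δ * d k0 * X - δ ^ 2 * L2) ^ 2 / (β - α) ^ 2
        ≤ 3 * ((8 * β * L1 ^ 2 + 2 * L2 ^ 2) * δ ^ 2) / (β - α) ^ 2 := by gcongr
    have h10 : κ * (δ ^ 2 * L2) ≤ 6 / (β - α) * (δ ^ 2 * L2) := by gcongr
    calc kk α β (s2 (rt U W (dg d))) - kk α β (s2 (rt U W (dg d) - δ • dg l))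
        ≤ kk α β (d k0 ^ 2) - kk α β (d k0 ^ 2 - 2 * δ * d k0 * X + δ ^ 2 * L2) := by linarith
      _ ≤ -κ * (2 * δ * d k0 * X - δ ^ 2 * L2)
          + 3 * (2 * δ * d k0 * X - δ ^ 2 * L2) ^ 2 / (β - α) ^ 2 := h3
      _ = -(2 * δ * κ * d k0) * X + (κ * (δ ^ 2 * L2)
          + 3 * (2 * δ * d k0 * X - δ ^ 2 * L2) ^ 2 / (β - α) ^ 2) := by ring
      _ ≤ -(2 * δ * κ * d k0) * X + (6 / (β - α) * (δ ^ 2 * L2)
          + 3 * ((8 * β * L1 ^ 2 + 2 * L2 ^ 2) * δ ^ 2) / (β - α) ^ 2) := by linarith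
      _ = _ := by ring

end Pool.Agent.V11333.Sv
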