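import Mathlib
import Pool.Agent.V11333.Sv9

open MeasureTheory ProbabilityTheory Finset
open scoped ENNReal NNReal

namespace Pool.Agent.V11333.Sv

open Pool.Agent.V11333.Slab Pool.Agent.V11333.GRot Pool.Agent.V11333.Cond

instance OG_sc (n : ℕ) : SecondCountableTopology (OG n) :=
  TopologicalSpace.Subtype.secondCountableTopology
    (unitary (Matrix (Fin n) (Fin n) ℝ) : Set (Matrix (Fin n) (Fin n) ℝ))

lemma ip_dg {n : ℕ} (l : Fin n → ℝ) (G : Fin n → Fin n → ℝ) : ip (dg l) G = ∑ i, l i * G i i := by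
  unfold ip
  apply Finset.sum_congr rfl
  intro i _
  rw [Finset.sum_eq_single i]
  · simp [dg]
  · intro j _ hj
    simp [dg, Matrix.diagonal_apply_ne' l hj]
  · intro hj
    exact absurd (Finset.mem_univ i) hj

lemma elem_cont {n : ℕ} (k i : Fin n) : Continuous (fun U : OG n => (U : Matrix (Fin n) (Fin n) ℝ) k i) :=
  Continuous.matrix_elem continuous_subtype_val k i

lemma pd_xx {n : ℕ} {l : Fin n → ℝ} (hl : ∀ i, 0 ≤ l i) (k0 : Fin n) :
    PD (fun U W : OG n => xx l k0 U W) := by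
  unfold xx
  apply PD.sum
  intro i
  exact (PD.diag (elem_cont k0 i)).smul (hl i)

lemma pd_ip {n : ℕ} {l d : Fin n → ℝ} (hl : ∀ i, 0 ≤ l i) (hd : ∀ i, 0 ≤ d i) {s : ℝ} (hs : 0 ≤ s) :
    PD (fun U W : OG n => s * ip (dg l) (rt U W (dg d))) := by
  apply PD.smul _ hs
  have e : (fun U W : OG n => ip (dg l) (rt U W (dg d)))
      = fun U W : OG n => ∑ i, l i * ∑ k, d k *
        ((U : Matrix (Fin n) (Fin n) ℝ) k i * (W : Matrix (Fin n) (Fin n) ℝ) k i) := by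
    funext U W
    rw [ip_dg]
    apply Finset.sum_congr rfl
    intro i _
    rw [rt_dg]
    congr 1
    apply Finset.sum_congr rfl
    intro k _
    ring
  rw [e]
  apply PD.sum
  intro i
  apply PD.smul _ (hl i)
  apply PD.sum
  intro k
  exact (PD.diag (elem_cont k i)).smul (hd k)

lemma rt_cont {n : ℕ} : Continuous (fun q : (OG n × OG n) × (Fin n → Fin n → ℝ) =>
    rt q.1.1 q.1.2 q.2) := by
  have h1 : Continuous (fun q : (OG n × OG n) × (Fin n → Fin n → ℝ) =>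
      (q.1.1 : Matrix (Fin n) (Fin n) ℝ)) := continuous_subtype_val.comp (continuous_fst.comp continuous_fst)
  have h2 : Continuous (fun q : (OG n × OG n) × (Fin n → Fin n → ℝ) =>
      (q.1.2 : Matrix (Fin n) (Fin n) ℝ)) := continuous_subtype_val.comp (continuous_snd.comp continuous_fst)
  have h3 : Continuous (fun q : (OG n × OG n) × (Fin n → Fin n → ℝ) =>
      (Matrix.of q.2 : Matrix (Fin n) (Fin n) ℝ)) := continuous_snd
  exact (h1.matrix_transpose.matrix_mul h3).matrix_mul h2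

lemma rt_cont' {n : ℕ} (G : Fin n → Fin n → ℝ) : Continuous (fun p : OG n × OG n =>
    rt p.1 p.2 G) := rt_cont.comp (f := fun p : OG n × OG n => (p, G)) (by fun_prop)

/-- the tested function -/
noncomputable def tf {n : ℕ} (α β s δ : ℝ) (l : Fin n → ℝ) (G : Fin n → Fin n → ℝ) : ℝ :=
  wgt (s • dg l) G * (kk α β (s2 G) - kk α β (s2 (G - δ • dg l)))

lemma tf_cont {n : ℕ} (α β s δ : ℝ) (l : Fin n → ℝ) : Continuous (tf α β s δ l) := by
  unfold tf
  apply (wgt_cont _).mul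
  apply ((kk_cont α β).comp s2_cont).sub
  exact (kk_cont α β).comp (s2_cont.comp (continuous_id.sub continuous_const))

/-- the constant -/
noncomputable def CC {n : ℕ} (α β : ℝ) (l : Fin n → ℝ) : ℝ :=
  6 * (∑ i, l i ^ 2) / (β - α) + 3 * (8 * β * (∑ i, l i) ^ 2 + 2 * (∑ i, l i ^ 2) ^ 2) / (β - α) ^ 2

lemma wgt_eq {n : ℕ} (l : Fin n → ℝ) (s : ℝ) (G : Fin n → Fin n → ℝ) :
    wgt (s • dg l) G = Real.exp (-(ip (s • dg l) (s • dg l)) / 2) * Real.exp (s * ip (dg l) G) := by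
  unfold wgt
  rw [← Real.exp_add]
  congr 1
  have h : ip (s • dg l) G = s * ip (dg l) G := by
    unfold ip
    simp only [Pi.smul_apply, smul_eq_mul, Finset.mul_sum]
    apply Finset.sum_congr rfl
    intro i _
    apply Finset.sum_congr rfl
    intro j _
    ring
  rw [h]
  ring

lemma inv_int {n : ℕ} (A B : OG n) {f : OG n × OG n → ℝ} (hf : Continuous f) :
    ∫ p, f (A * p.1, B * p.2) ∂((nu n).prod (nu n)) = ∫ p, f p ∂((nu n).prod (nu n)) := by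
  have h : MeasurePreserving (Prod.map (fun x => A * x) (fun x => B * x)) ((nu n).prod (nu n))
      ((nu n).prod (nu n)) :=
    (measurePreserving_mul_left (nu n) A).prod (measurePreserving_mul_left (nu n) B)
  have h2 := integral_map (μ := (nu n).prod (nu n)) h.measurable.aemeasurable
    (f := f) hf.aestronglyMeasurable
  rw [h.map_eq] at h2
  exact h2.symm

lemma avg_dg {m : ℕ} {α β : ℝ} (hα : 0 ≤ α) (h : α < β) {l d : Fin (m+1) → ℝ} (hl : ∀ i, 0 ≤ l i)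
    (hd : ∀ i, 0 ≤ d i) {s δ : ℝ} (hs : 0 ≤ s) (hδ0 : 0 ≤ δ) (hδ1 : δ ≤ 1) :
    ∫ p, tf α β s δ l (rt p.1 p.2 (dg d)) ∂((nu (m+1)).prod (nu (m+1)))
      ≤ CC α β l * δ ^ 2 * ∫ p, wgt (s • dg l) (rt p.1 p.2 (dg d)) ∂((nu (m+1)).prod (nu (m+1))) := by
  obtain ⟨k0, _, hk⟩ := Finset.exists_min_image Finset.univ d Finset.univ_nonempty
  have hk' : ∀ k, d k0 ≤ d k := fun k => hk k (Finset.mem_univ k)
  have hL : 0 < β - α := by linarith
  set c := 2 * δ * (gd ((d k0 ^ 2 - α) / (β - α)) / (β - α)) * d k0 with hc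
  have hc0 : 0 ≤ c := by
    have h1 := gd_nonneg ((d k0 ^ 2 - α) / (β - α))
    have h2 := hd k0
    positivity
  have hpt : ∀ p : OG (m+1) × OG (m+1), tf α β s δ l (rt p.1 p.2 (dg d))
      ≤ -c * (xx l k0 p.1 p.2 * wgt (s • dg l) (rt p.1 p.2 (dg d)))
        + CC α β l * δ ^ 2 * wgt (s • dg l) (rt p.1 p.2 (dg d)) := by
    intro p
    have h1 := step_det hα h l d hl hd k0 hk' hδ0 hδ1 p.1 p.2
    rw [← hc] at h1
    have h2 := mul_le_mul_of_nonneg_left h1 (wgt_pos (s • dg l) (rt p.1 p.2 (dg d))).le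
    unfold tf
    refine h2.trans (le_of_eq ?_)
    unfold CC
    ring
  have hcw : Continuous (fun p : OG (m+1) × OG (m+1) => wgt (s • dg l) (rt p.1 p.2 (dg d))) :=
    (wgt_cont _).comp (rt_cont' _)
  have hcx : Continuous (fun p : OG (m+1) × OG (m+1) => xx l k0 p.1 p.2) := (pd_xx hl k0).cont
  have i1 : Integrable (fun p : OG (m+1) × OG (m+1) => -c * (xx l k0 p.1 p.2 *
      wgt (s • dg l) (rt p.1 p.2 (dg d)))) ((nu (m+1)).prod (nu (m+1))) :=
    cont_int _ (continuous_const.mul (hcx.mul hcw))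
  have i2 : Integrable (fun p : OG (m+1) × OG (m+1) => CC α β l * δ ^ 2 *
      wgt (s • dg l) (rt p.1 p.2 (dg d))) ((nu (m+1)).prod (nu (m+1))) :=
    cont_int _ (continuous_const.mul hcw)
  have i3 : Integrable (fun p : OG (m+1) × OG (m+1) => tf α β s δ l (rt p.1 p.2 (dg d)))
      ((nu (m+1)).prod (nu (m+1))) :=
    cont_int _ ((tf_cont α β s δ l).comp (rt_cont' _))
  refine (integral_mono i3 (i1.add i2) hpt).trans ?_
  have e1 : ∫ p, ((fun p : OG (m+1) × OG (m+1) => -c * (xx l k0 p.1 p.2 *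
      wgt (s • dg l) (rt p.1 p.2 (dg d)))) + (fun p : OG (m+1) × OG (m+1) => CC α β l * δ ^ 2 *
      wgt (s • dg l) (rt p.1 p.2 (dg d)))) p ∂((nu (m+1)).prod (nu (m+1)))
      = -c * (∫ p, xx l k0 p.1 p.2 * wgt (s • dg l) (rt p.1 p.2 (dg d)) ∂((nu (m+1)).prod (nu (m+1))))
        + CC α β l * δ ^ 2 * ∫ p, wgt (s • dg l) (rt p.1 p.2 (dg d)) ∂((nu (m+1)).prod (nu (m+1))) := by
    rw [integral_add' i1 i2, integral_const_mul, integral_const_mul]
  rw [e1]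
  have h3 : 0 ≤ ∫ p, xx l k0 p.1 p.2 * wgt (s • dg l) (rt p.1 p.2 (dg d)) ∂((nu (m+1)).prod (nu (m+1))) := by
    have h4 := PD.exp_nonneg (nu (m+1)) (pd_xx hl k0) (pd_ip hl hd hs)
    have e2 : ∀ p : OG (m+1) × OG (m+1), xx l k0 p.1 p.2 * wgt (s • dg l) (rt p.1 p.2 (dg d))
        = Real.exp (-(ip (s • dg l) (s • dg l)) / 2) *
          (xx l k0 p.1 p.2 * Real.exp (s * ip (dg l) (rt p.1 p.2 (dg d)))) := by
      intro p
      rw [wgt_eq]
      ring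
    simp_rw [e2]
    rw [integral_const_mul]
    exact mul_nonneg (Real.exp_pos _).le h4
  have h5 := mul_nonneg hc0 h3
  linarith

lemma avg_G {m : ℕ} {α β : ℝ} (hα : 0 ≤ α) (h : α < β) {l : Fin (m+1) → ℝ} (hl : ∀ i, 0 ≤ l i)
    {s δ : ℝ} (hs : 0 ≤ s) (hδ0 : 0 ≤ δ) (hδ1 : δ ≤ 1) (G : Fin (m+1) → Fin (m+1) → ℝ)
    (hG : (Matrix.of G).det ≠ 0) :
    ∫ p, tf α β s δ l (rt p.1 p.2 G) ∂((nu (m+1)).prod (nu (m+1)))
      ≤ CC α β l * δ ^ 2 * ∫ p, wgt (s • dg l) (rt p.1 p.2 G) ∂((nu (m+1)).prod (nu (m+1))) := by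
  obtain ⟨A, B, d, hd, rfl⟩ := svd' G hG
  have e : ∀ p : OG (m+1) × OG (m+1), rt p.1 p.2 (rt A B (dg d))
      = rt ((A * p.1 : OG (m+1)) : Matrix (Fin (m+1)) (Fin (m+1)) ℝ)
        ((B * p.2 : OG (m+1)) : Matrix (Fin (m+1)) (Fin (m+1)) ℝ) (dg d) := by
    intro p
    rw [rt_rt]
    rfl
  simp_rw [e]
  have h1 := inv_int A B (f := fun p => tf α β s δ l (rt p.1 p.2 (dg d)))
    ((tf_cont α β s δ l).comp (rt_cont' _))
  have h2 := inv_int A B (f := fun p => wgt (s • dg l) (rt p.1 p.2 (dg d)))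
    ((wgt_cont _).comp (rt_cont' _))
  rw [h1, h2]
  exact avg_dg hα h hl hd hs hδ0 hδ1

lemma T_mp {n : ℕ} : MeasurePreserving (fun q : (OG n × OG n) × (Fin n → Fin n → ℝ) =>
    rt q.1.1 q.1.2 q.2) (((nu n).prod (nu n)).prod (gmm (Fin n) (Fin n))) (gmm (Fin n) (Fin n)) := by
  refine ⟨rt_cont.measurable, ?_⟩
  ext S hS
  rw [Measure.map_apply rt_cont.measurable hS, Measure.prod_apply (rt_cont.measurable hS)]
  have e : ∀ p : OG n × OG n, gmm (Fin n) (Fin n) (Prod.mk p ⁻¹'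
      ((fun q : (OG n × OG n) × (Fin n → Fin n → ℝ) => rt q.1.1 q.1.2 q.2) ⁻¹' S))
      = gmm (Fin n) (Fin n) S := by
    intro p
    exact (gmm_rt (p.1 : Matrix (Fin n) (Fin n) ℝ) p.2 (OG_tm p.1) (OG_tm p.2)).measure_preimage
      hS.nullMeasurableSet
  simp_rw [e]
  simp

lemma T_int {n : ℕ} {h : (Fin n → Fin n → ℝ) → ℝ} (hc : Continuous h)
    (hi : Integrable h (gmm (Fin n) (Fin n))) :
    Integrable (fun G => ∫ p, h (rt p.1 p.2 G) ∂((nu n).prod (nu n))) (gmm (Fin n) (Fin n)) ∧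
    ∫ G, h G ∂(gmm (Fin n) (Fin n))
      = ∫ G, ∫ p, h (rt p.1 p.2 G) ∂((nu n).prod (nu n)) ∂(gmm (Fin n) (Fin n)) := by
  have h1 : Integrable (fun q : (OG n × OG n) × (Fin n → Fin n → ℝ) => h (rt q.1.1 q.1.2 q.2))
      (((nu n).prod (nu n)).prod (gmm (Fin n) (Fin n))) :=
    (T_mp.integrable_comp hc.aestronglyMeasurable).mpr hi
  refine ⟨h1.integral_prod_right, ?_⟩
  have h2 := integral_map (μ := ((nu n).prod (nu n)).prod (gmm (Fin n) (Fin n)))
    T_mp.measurable.aemeasurable (f := h) hc.aestronglyMeasurable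
  rw [T_mp.map_eq] at h2
  rw [h2]
  exact integral_prod_symm _ h1

lemma tf_int {m : ℕ} (α β s δ : ℝ) (l : Fin (m+1) → ℝ) :
    Integrable (tf α β s δ l) (gmm (Fin (m+1)) (Fin (m+1))) := by
  refine Integrable.mono' (wgt_int (s • dg l)) (tf_cont α β s δ l).aestronglyMeasurable ?_
  refine ae_of_all _ (fun G => ?_)
  unfold tf
  rw [Real.norm_eq_abs, abs_mul, abs_of_pos (wgt_pos _ _)]
  apply mul_le_of_le_one_right (wgt_pos _ _).le
  have h1 : 0 ≤ kk α β (s2 G) := gs_nonneg _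
  have h2 : kk α β (s2 G) ≤ 1 := gs_le_one _
  have h3 : 0 ≤ kk α β (s2 (G - δ • dg l)) := gs_nonneg _
  have h4 : kk α β (s2 (G - δ • dg l)) ≤ 1 := gs_le_one _
  rw [abs_le]
  constructor <;> linarith

lemma step_int {m : ℕ} {α β : ℝ} (hα : 0 ≤ α) (h : α < β) {l : Fin (m+1) → ℝ} (hl : ∀ i, 0 ≤ l i)
    {s δ : ℝ} (hs : 0 ≤ s) (hδ0 : 0 ≤ δ) (hδ1 : δ ≤ 1) :
    ∫ G, tf α β s δ l G ∂(gmm (Fin (m+1)) (Fin (m+1))) ≤ CC α β l * δ ^ 2 := by
  obtain ⟨i1, e1⟩ := T_int (tf_cont α β s δ l) (tf_int α β s δ l)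
  obtain ⟨i2, e2⟩ := T_int (wgt_cont (s • dg l)) (wgt_int (s • dg l))
  rw [e1]
  calc ∫ G, ∫ p, tf α β s δ l (rt p.1 p.2 G) ∂((nu (m+1)).prod (nu (m+1)))
        ∂(gmm (Fin (m+1)) (Fin (m+1)))
      ≤ ∫ G, CC α β l * δ ^ 2 * ∫ p, wgt (s • dg l) (rt p.1 p.2 G) ∂((nu (m+1)).prod (nu (m+1)))
        ∂(gmm (Fin (m+1)) (Fin (m+1))) := by
        apply integral_mono_ae i1 (i2.const_mul _)
        filter_upwards [det_ae] with G hG
        exact avg_G hα h hl hs hδ0 hδ1 G hG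
    _ = CC α β l * δ ^ 2 := by
        rw [integral_const_mul, ← e2, wgt_integral, mul_one]

/-- the profile -/
noncomputable def Ph {m : ℕ} (α β : ℝ) (l : Fin (m+1) → ℝ) (t : ℝ) : ℝ :=
  ∫ G, kk α β (s2 (G + t • dg l)) ∂(gmm (Fin (m+1)) (Fin (m+1)))

lemma kk_int {m : ℕ} (α β : ℝ) {f : (Fin (m+1) → Fin (m+1) → ℝ) → (Fin (m+1) → Fin (m+1) → ℝ)}
    (hf : Continuous f) : Integrable (fun G => kk α β (s2 (f G))) (gmm (Fin (m+1)) (Fin (m+1))) := by
  refine Integrable.mono' (integrable_const (1:ℝ))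
    ((kk_cont α β).comp (s2_cont.comp hf)).aestronglyMeasurable ?_
  refine ae_of_all _ (fun G => ?_)
  have h1 : 0 ≤ kk α β (s2 (f G)) := gs_nonneg _
  rw [Real.norm_eq_abs, abs_of_nonneg h1]
  exact gs_le_one _

lemma Ph_step {m : ℕ} {α β : ℝ} (hα : 0 ≤ α) (h : α < β) {l : Fin (m+1) → ℝ} (hl : ∀ i, 0 ≤ l i)
    {s δ : ℝ} (hs : 0 ≤ s) (hδ0 : 0 ≤ δ) (hδ1 : δ ≤ 1) :
    Ph α β l s ≤ Ph α β l (s - δ) + CC α β l * δ ^ 2 := by
  have h1 := step_int hα h hl hs hδ0 hδ1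
  have hc : Continuous (fun G : Fin (m+1) → Fin (m+1) → ℝ =>
      kk α β (s2 G) - kk α β (s2 (G - δ • dg l))) :=
    ((kk_cont α β).comp s2_cont).sub
      ((kk_cont α β).comp (s2_cont.comp (continuous_id.sub continuous_const)))
  have h2 := shift_int (s • dg l) (fun G => kk α β (s2 G) - kk α β (s2 (G - δ • dg l))) hc.measurable
  have h3 : ∫ G, wgt (s • dg l) G * (kk α β (s2 G) - kk α β (s2 (G - δ • dg l)))
      ∂(gmm (Fin (m+1)) (Fin (m+1))) ≤ CC α β l * δ ^ 2 := h1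
  rw [← h2] at h3
  have e : ∀ G : Fin (m+1) → Fin (m+1) → ℝ, G + s • dg l - δ • dg l = G + (s - δ) • dg l := by
    intro G
    rw [sub_smul]
    abel
  simp_rw [e] at h3
  rw [integral_sub (kk_int α β (by fun_prop)) (kk_int α β (by fun_prop))] at h3
  unfold Ph
  linarith

lemma Ph_mono {m : ℕ} {α β : ℝ} (hα : 0 ≤ α) (h : α < β) {l : Fin (m+1) → ℝ} (hl : ∀ i, 0 ≤ l i) :
    Ph α β l 1 ≤ Ph α β l 0 := by
  have hN : ∀ N : ℕ, Ph α β l 1 ≤ Ph α β l 0 + CC α β l * (1 / ((N:ℝ) + 1)) := by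
    intro N
    have hpos : (0:ℝ) < (N:ℝ) + 1 := by positivity
    set δ := 1 / ((N:ℝ) + 1) with hδ
    have hδ0 : 0 ≤ δ := by positivity
    have hδ1 : δ ≤ 1 := by
      rw [hδ, div_le_one hpos]
      have : (0:ℝ) ≤ N := Nat.cast_nonneg N
      linarith
    have hj : ∀ j : ℕ, Ph α β l (j * δ) ≤ Ph α β l 0 + j * (CC α β l * δ ^ 2) := by
      intro j
      induction j with
      | zero => simp
      | succ j ih =>
        have h1 := Ph_step hα h hl (s := ((j + 1 : ℕ) : ℝ) * δ) (by positivity) hδ0 hδ1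
        have e : ((j + 1 : ℕ) : ℝ) * δ - δ = j * δ := by push_cast; ring
        rw [e] at h1
        push_cast at h1 ⊢
        linarith
    have h2 := hj (N + 1)
    have e1 : ((N + 1 : ℕ) : ℝ) * δ = 1 := by
      rw [hδ]; push_cast; field_simp
    rw [e1] at h2
    have e2 : ((N + 1 : ℕ) : ℝ) * (CC α β l * δ ^ 2) = CC α β l * δ := by
      calc ((N + 1 : ℕ) : ℝ) * (CC α β l * δ ^ 2) = CC α β l * δ * (((N + 1 : ℕ) : ℝ) * δ) := by ring
        _ = _ := by rw [e1, mul_one]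
    rw [e2] at h2
    exact h2
  have hlim : Filter.Tendsto (fun N : ℕ => Ph α β l 0 + CC α β l * (1 / ((N:ℝ) + 1)))
      Filter.atTop (nhds (Ph α β l 0 + CC α β l * 0)) :=
    (tendsto_one_div_add_atTop_nhds_zero_nat.const_mul _).const_add _
  rw [mul_zero, add_zero] at hlim
  exact ge_of_tendsto' hlim hN

end Pool.Agent.V11333.Sv
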