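import Mathlib
import Pool.Agent.V11333.Sv10

open MeasureTheory ProbabilityTheory Finset
open scoped ENNReal NNReal

namespace Pool.Agent.V11333.Sv

open Pool.Agent.V11333.Slab Pool.Agent.V11333.GRot Pool.Agent.V11333.Cond

lemma rt_add {n : ℕ} (U W : Matrix (Fin n) (Fin n) ℝ) (G H : Fin n → Fin n → ℝ) :
    rt U W (G + H) = rt U W G + rt U W H := by
  unfold rt
  have h : (Matrix.of (G + H) : Matrix (Fin n) (Fin n) ℝ) = Matrix.of G + Matrix.of H := rfl
  rw [h, Matrix.mul_add, Matrix.add_mul]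
  rfl

lemma dom_inv {m : ℕ} {α β : ℝ} (hα : 0 ≤ α) (h : α < β) (A : Fin (m+1) → Fin (m+1) → ℝ)
    (hA : (Matrix.of A).det ≠ 0) :
    ∫ G, kk α β (s2 (G + A)) ∂(gmm (Fin (m+1)) (Fin (m+1)))
      ≤ ∫ G, kk α β (s2 G) ∂(gmm (Fin (m+1)) (Fin (m+1))) := by
  obtain ⟨P, Q, l, hl, rfl⟩ := svd' A hA
  have hmp := gmm_rt (P : Matrix (Fin (m+1)) (Fin (m+1)) ℝ) Q (OG_tm P) (OG_tm Q)
  have hc : Continuous (fun G : Fin (m+1) → Fin (m+1) → ℝ => kk α β (s2 (G + rt P Q (dg l)))) :=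
    (kk_cont α β).comp (s2_cont.comp (continuous_id.add continuous_const))
  have h1 := integral_map (μ := gmm (Fin (m+1)) (Fin (m+1))) hmp.measurable.aemeasurable
    (f := fun G => kk α β (s2 (G + rt P Q (dg l)))) hc.aestronglyMeasurable
  rw [hmp.map_eq] at h1
  rw [h1]
  have e : ∀ G : Fin (m+1) → Fin (m+1) → ℝ, kk α β (s2 (rt P Q G + rt P Q (dg l)))
      = kk α β (s2 (G + (1:ℝ) • dg l)) := by
    intro G
    rw [← rt_add, s2_rt _ _ (OG_tm P) (OG_tm Q), one_smul]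
  simp_rw [e]
  have h2 := Ph_mono hα h hl
  unfold Ph at h2
  simpa using h2

lemma dom {m : ℕ} {α β : ℝ} (hα : 0 ≤ α) (h : α < β) (A : Fin (m+1) → Fin (m+1) → ℝ) :
    ∫ G, kk α β (s2 (G + A)) ∂(gmm (Fin (m+1)) (Fin (m+1)))
      ≤ ∫ G, kk α β (s2 G) ∂(gmm (Fin (m+1)) (Fin (m+1))) := by
  have hall : ∀ᵐ Q ∂(gmm (Fin (m+1)) (Fin (m+1))), ∀ j : ℕ,
      (Matrix.of (A + (1 / ((j:ℝ) + 1)) • Q)).det ≠ 0 := by
    rw [ae_all_iff]
    intro j
    have := det_null A (σ := 1 / ((j:ℝ) + 1)) (by positivity)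
    rw [ae_iff]
    simpa using this
  obtain ⟨Q, hQ⟩ := hall.exists
  have hlim : Filter.Tendsto (fun j : ℕ => ∫ G, kk α β (s2 (G + (A + (1 / ((j:ℝ) + 1)) • Q)))
      ∂(gmm (Fin (m+1)) (Fin (m+1)))) Filter.atTop
      (nhds (∫ G, kk α β (s2 (G + A)) ∂(gmm (Fin (m+1)) (Fin (m+1))))) := by
    apply tendsto_integral_of_dominated_convergence (fun _ => (1:ℝ))
    · intro j
      have hc : Continuous (fun G : Fin (m+1) → Fin (m+1) → ℝ =>
          kk α β (s2 (G + (A + (1 / ((j:ℝ) + 1)) • Q)))) :=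
        (kk_cont α β).comp (s2_cont.comp (continuous_id.add continuous_const))
      exact hc.aestronglyMeasurable
    · exact integrable_const _
    · intro j
      refine ae_of_all _ (fun G => ?_)
      have h1 : 0 ≤ kk α β (s2 (G + (A + (1 / ((j:ℝ) + 1)) • Q))) := gs_nonneg _
      rw [Real.norm_eq_abs, abs_of_nonneg h1]
      exact gs_le_one _
    · refine ae_of_all _ (fun G => ?_)
      have hc : Continuous (fun t : ℝ => kk α β (s2 (G + (A + t • Q)))) :=
        (kk_cont α β).comp (s2_cont.comp (by fun_prop))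
      have h1 := hc.tendsto 0
      have h2 := h1.comp (tendsto_one_div_add_atTop_nhds_zero_nat (𝕜 := ℝ))
      rw [zero_smul, add_zero] at h2
      exact h2
  apply le_of_tendsto' hlim
  intro j
  exact dom_inv hα h _ (hQ j)

lemma prob_le {m : ℕ} {α β : ℝ} (hα : 0 ≤ α) (h : α < β) (A : Fin (m+1) → Fin (m+1) → ℝ) :
    gmm (Fin (m+1)) (Fin (m+1)) {G | s2 (G + A) ≤ α} ≤ F (m+1) β := by
  have hL : 0 < β - α := by linarith
  have hS : MeasurableSet {G : Fin (m+1) → Fin (m+1) → ℝ | s2 (G + A) ≤ α} :=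
    measurableSet_le (s2_cont.comp (continuous_id.add continuous_const)).measurable measurable_const
  have hT : MeasurableSet {G : Fin (m+1) → Fin (m+1) → ℝ | s2 G ≤ β} :=
    measurableSet_le s2_meas measurable_const
  have i1 : Integrable (fun G : Fin (m+1) → Fin (m+1) → ℝ => kk α β (s2 (G + A)))
      (gmm (Fin (m+1)) (Fin (m+1))) := kk_int α β (f := fun G => G + A) (by fun_prop)
  have i2 : Integrable (fun G : Fin (m+1) → Fin (m+1) → ℝ => kk α β (s2 G))
      (gmm (Fin (m+1)) (Fin (m+1))) := kk_int α β (f := fun G => G) (by fun_prop)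
  calc gmm (Fin (m+1)) (Fin (m+1)) {G | s2 (G + A) ≤ α}
      = ∫⁻ G, Set.indicator {G | s2 (G + A) ≤ α} 1 G ∂(gmm (Fin (m+1)) (Fin (m+1))) :=
        (lintegral_indicator_one hS).symm
    _ ≤ ∫⁻ G, ENNReal.ofReal (kk α β (s2 (G + A))) ∂(gmm (Fin (m+1)) (Fin (m+1))) := by
        apply lintegral_mono
        intro G
        by_cases hG : s2 (G + A) ≤ α
        · rw [Set.indicator_of_mem (by exact hG)]
          have : kk α β (s2 (G + A)) = 1 := by
            unfold kk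
            apply gs_zero
            apply div_nonpos_of_nonpos_of_nonneg _ hL.le
            linarith
          show (1 : ℝ≥0∞) ≤ ENNReal.ofReal (kk α β (s2 (G + A)))
          rw [this]
          simp
        · rw [Set.indicator_of_notMem (by exact hG)]
          exact zero_le
    _ = ENNReal.ofReal (∫ G, kk α β (s2 (G + A)) ∂(gmm (Fin (m+1)) (Fin (m+1)))) := by
        rw [ofReal_integral_eq_lintegral_ofReal i1 (ae_of_all _ (fun G => gs_nonneg _))]
    _ ≤ ENNReal.ofReal (∫ G, kk α β (s2 G) ∂(gmm (Fin (m+1)) (Fin (m+1)))) :=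
        ENNReal.ofReal_le_ofReal (dom hα h A)
    _ = ∫⁻ G, ENNReal.ofReal (kk α β (s2 G)) ∂(gmm (Fin (m+1)) (Fin (m+1))) := by
        rw [ofReal_integral_eq_lintegral_ofReal i2 (ae_of_all _ (fun G => gs_nonneg _))]
    _ ≤ ∫⁻ G, Set.indicator {G | s2 G ≤ β} 1 G ∂(gmm (Fin (m+1)) (Fin (m+1))) := by
        apply lintegral_mono
        intro G
        by_cases hG : s2 G ≤ β
        · rw [Set.indicator_of_mem (by exact hG)]
          refine (ENNReal.ofReal_le_ofReal (gs_le_one _)).trans ?_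
          simp
        · rw [Set.indicator_of_notMem (by exact hG)]
          have : kk α β (s2 G) = 0 := by
            unfold kk
            apply gs_one
            rw [le_div_iff₀ hL]
            push Not at hG
            linarith
          show ENNReal.ofReal (kk α β (s2 G)) ≤ 0
          rw [this]
          simp
    _ = F (m+1) β := lintegral_indicator_one hT

lemma prob_bound {m : ℕ} {α : ℝ} (hα : 0 ≤ α) (A : Fin (m+1) → Fin (m+1) → ℝ) :
    gmm (Fin (m+1)) (Fin (m+1)) {G | s2 (G + A) ≤ α}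
      ≤ ENNReal.ofReal (Real.sqrt α * Real.sqrt ((m + 1 : ℕ) : ℝ)) := by
  have hlim : Filter.Tendsto (fun j : ℕ => ENNReal.ofReal (Real.sqrt (α + 1 / ((j:ℝ) + 1)) *
      Real.sqrt ((m + 1 : ℕ) : ℝ))) Filter.atTop
      (nhds (ENNReal.ofReal (Real.sqrt α * Real.sqrt ((m + 1 : ℕ) : ℝ)))) := by
    apply ENNReal.tendsto_ofReal
    apply Filter.Tendsto.mul_const
    have hc : Continuous (fun t : ℝ => Real.sqrt (α + t)) := by fun_prop
    have h1 := (hc.tendsto 0).comp (tendsto_one_div_add_atTop_nhds_zero_nat (𝕜 := ℝ))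
    rw [add_zero] at h1
    exact h1
  apply ge_of_tendsto' hlim
  intro j
  have hj : 0 < 1 / ((j:ℝ) + 1) := by positivity
  refine (prob_le hα (show α < α + 1 / ((j:ℝ) + 1) by linarith) A).trans ?_
  have h2 := centred (m := m) (r := Real.sqrt (α + 1 / ((j:ℝ) + 1))) (Real.sqrt_nonneg _)
  rw [Real.sq_sqrt (by positivity)] at h2
  exact h2

/-- the deterministic part -/
lemma event_sub {m : ℕ} (A : Matrix (Fin (m+1)) (Fin (m+1)) ℝ) {σ x : ℝ} (hσ : 0 < σ) (hx : 0 < x)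
    (G : Fin (m+1) → Fin (m+1) → ℝ) (hdet : (A + σ • Matrix.of G).det ≠ 0)
    (v : Fin (m+1) → ℝ) (hv : ∑ i, v i ^ 2 ≤ 1)
    (hvx : x ^ 2 ≤ ∑ i, (Matrix.mulVec (A + σ • Matrix.of G)⁻¹ v) i ^ 2) :
    s2 (G + (fun i j => σ⁻¹ * A i j)) ≤ (1 / (x * σ)) ^ 2 := by
  set M := A + σ • Matrix.of G with hM
  have hu : IsUnit M.det := isUnit_iff_ne_zero.mpr hdet
  set y := Matrix.mulVec M⁻¹ v with hy
  have hMy : M.mulVec y = v := by
    rw [hy, Matrix.mulVec_mulVec, Matrix.mul_nonsing_inv _ hu, Matrix.one_mulVec]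
  set u0 := Matrix.vecMul y M⁻¹ with hu0
  have hMu : Matrix.vecMul u0 M = y := by
    rw [hu0, Matrix.vecMul_vecMul, Matrix.nonsing_inv_mul _ hu, Matrix.vecMul_one]
  set Y := ∑ i, y i ^ 2 with hY
  have hY0 : 0 < Y := lt_of_lt_of_le (by positivity) hvx
  have h1 : u0 ⬝ᵥ v = Y := by
    rw [← hMy, Matrix.dotProduct_mulVec, hMu, hY]
    simp only [dotProduct, sq]
  have h2 : Y ^ 2 ≤ ∑ i, u0 i ^ 2 := by
    have hcs := Finset.sum_mul_sq_le_sq_mul_sq Finset.univ u0 v
    have e : (∑ i, u0 i * v i) = Y := h1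
    rw [e] at hcs
    refine hcs.trans ?_
    exact mul_le_of_le_one_right (Finset.sum_nonneg (fun _ _ => sq_nonneg _)) hv
  have hN2 : en u0 ^ 2 = ∑ i, u0 i ^ 2 := en_sq u0
  have hN : 0 < en u0 := by
    rcases (en_nonneg u0).lt_or_eq with h | h
    · exact h
    · exfalso
      rw [← h] at hN2
      have : 0 < Y ^ 2 := by positivity
      linarith [hN2]
  have hmem : (fun i => u0 i / en u0) ∈ sph (m+1) := by
    unfold sph
    simp only [Set.mem_ofPred_eq, div_pow]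
    rw [← Finset.sum_div, ← en_sq]
    field_simp
  refine (s2_le _ hmem).trans ?_
  unfold qf
  have h3 : ∀ j, ∑ i, u0 i / en u0 * (G + (fun i j => σ⁻¹ * A i j)) i j = y j / (en u0 * σ) := by
    intro j
    have h4 : y j = ∑ i, u0 i * (A i j + σ * G i j) := by
      rw [← hMu]
      rfl
    rw [h4, Finset.sum_div]
    apply Finset.sum_congr rfl
    intro i _
    simp only [Pi.add_apply]
    field_simp
    ring
  simp_rw [h3, div_pow]
  rw [← Finset.sum_div, ← hY, mul_pow, hN2]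
  have h5 : 0 < ∑ i, u0 i ^ 2 := lt_of_lt_of_le (by positivity) h2
  rw [one_pow, div_le_div_iff₀ (by positivity) (by positivity), one_mul, mul_pow]
  calc Y * (x ^ 2 * σ ^ 2) ≤ Y * (Y * σ ^ 2) := by gcongr
    _ = Y ^ 2 * σ ^ 2 := by ring
    _ ≤ (∑ i, u0 i ^ 2) * σ ^ 2 := by gcongr

theorem main_bound (n : ℕ) (Abar : Matrix (Fin n) (Fin n) ℝ) (σ x : ℝ) (hσ : 0 < σ) (hx : 0 < x) :
    (Measure.pi (fun _ : Fin n => Measure.pi (fun _ : Fin n => gaussianReal 0 1)))
        {G : Fin n → Fin n → ℝ |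
          ∃ v : Fin n → ℝ, (∑ i, v i ^ 2 ≤ 1) ∧
            x ^ 2 ≤ ∑ i, (Matrix.mulVec (Abar + σ • Matrix.of G)⁻¹ v) i ^ 2}
        ≤ ENNReal.ofReal (Real.sqrt n / (x * σ)) := by
  rcases n with _ | m
  · have : {G : Fin 0 → Fin 0 → ℝ | ∃ v : Fin 0 → ℝ, (∑ i, v i ^ 2 ≤ 1) ∧
            x ^ 2 ≤ ∑ i, (Matrix.mulVec (Abar + σ • Matrix.of G)⁻¹ v) i ^ 2} = ∅ := by
      ext G
      simp only [Set.mem_ofPred_eq, Set.mem_empty_iff_false, iff_false, not_exists, not_and]
      intro v _ h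
      simp only [Finset.univ_eq_empty, Finset.sum_empty] at h
      have : 0 < x ^ 2 := by positivity
      linarith
    rw [this, measure_empty]
    exact zero_le
  · have hnull := det_null (fun i j => Abar i j) hσ
    have hsub : {G : Fin (m+1) → Fin (m+1) → ℝ | ∃ v : Fin (m+1) → ℝ, (∑ i, v i ^ 2 ≤ 1) ∧
            x ^ 2 ≤ ∑ i, (Matrix.mulVec (Abar + σ • Matrix.of G)⁻¹ v) i ^ 2}
        ⊆ {Q | (Matrix.of ((fun i j => Abar i j) + σ • Q)).det = 0} ∪
          {G | s2 (G + (fun i j => σ⁻¹ * Abar i j)) ≤ (1 / (x * σ)) ^ 2} := by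
      intro G hG
      obtain ⟨v, hv, hvx⟩ := hG
      by_cases hdet : (Abar + σ • Matrix.of G).det = 0
      · left
        exact hdet
      · right
        exact event_sub Abar hσ hx G hdet v hv hvx
    refine (measure_mono hsub).trans ((measure_union_le _ _).trans ?_)
    have h1 := prob_bound (sq_nonneg (1 / (x * σ))) (fun i j => σ⁻¹ * Abar i j)
    rw [Real.sqrt_sq (by positivity)] at h1
    have h2 : (Measure.pi (fun _ : Fin (m+1) => Measure.pi (fun _ : Fin (m+1) => gaussianReal 0 1)))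
        {Q | (Matrix.of ((fun i j => Abar i j) + σ • Q)).det = 0} = 0 := hnull
    rw [h2, zero_add]
    refine h1.trans (le_of_eq ?_)
    congr 1
    ring

end Pool.Agent.V11333.Sv
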