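import Pool.Agent.Y330.G.A9

set_option autoImplicit false
set_option linter.unusedSectionVars false

open Filter Topology Set Metric
open scoped Manifold ContDiff

namespace Pool.Agent.V11333.AnoGap

open Pool.Agent.H789R2.AN Pool.Agent.H721R2 Pool.Agent.Y330.G

/-- Arithmetic of the gap. -/
theorem numericGap {a a' L L' : ℕ → ℕ} {R R' K K' Ks Ks' j₀ N : ℕ} (hj₀ : 1 ≤ j₀)
    (ha : ∀ n, 1 ≤ a n) (ha' : ∀ n, 1 ≤ a' n) (hR : 1 ≤ R) (hR' : 1 ≤ R')
    (h1 : ∀ n ≤ N, a n ≤ R * L n) (h2 : ∀ n ≤ N, a' n ≤ R' * L' n)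
    (hs : ∀ n m, a (n + m) ≤ Ks * (a n * a m))
    (hs' : ∀ n m, a' (n + m) ≤ Ks' * (a' n * a' m))
    (hI : ∀ m n, j₀ * m ≤ n → ∑ i ∈ Finset.range m, L' (j₀ * (i + 1)) * L (n - j₀ * (i + 1)) ≤
      K * a n)
    (hII : ∀ m n, j₀ * m ≤ n → ∑ i ∈ Finset.range m, L (j₀ * (i + 1)) * L' (n - j₀ * (i + 1)) ≤
      K' * a' n) : N ≤ j₀ * (K * Ks + K' * Ks' + 1) * (R * R') := by
  -- one half
  have key : ∀ (a a' L L' : ℕ → ℕ) (R R' K Ks : ℕ), (∀ n, 1 ≤ a n) → (∀ n, 1 ≤ a' n) →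
      (∀ n ≤ N, a n ≤ R * L n) → (∀ n ≤ N, a' n ≤ R' * L' n) →
      (∀ n m, a (n + m) ≤ Ks * (a n * a m)) →
      (∀ m n, j₀ * m ≤ n → ∑ i ∈ Finset.range m, L' (j₀ * (i + 1)) * L (n - j₀ * (i + 1)) ≤
        K * a n) →
      ∑ i ∈ Finset.range (N / j₀), ((a' (j₀ * (i + 1)) : ℝ) / a (j₀ * (i + 1))) ≤
        (R * R' : ℝ) * (K * Ks) := by
    intro a a' L L' R R' K Ks ha ha' h1 h2 hs hI
    have hm : j₀ * (N / j₀) ≤ N := Nat.mul_div_le N j₀
    have h3 := hI (N / j₀) N hm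
    have haN : (0 : ℝ) < a N := by exact_mod_cast (ha N)
    have h4 : ∀ i ∈ Finset.range (N / j₀), (a' (j₀ * (i + 1)) : ℝ) / a (j₀ * (i + 1)) ≤
        (R * R' * Ks : ℝ) * ((L' (j₀ * (i + 1)) * L (N - j₀ * (i + 1)) : ℕ) : ℝ) / a N := by
      intro i hi
      have hi' : j₀ * (i + 1) ≤ N :=
        (Nat.mul_le_mul_left _ (Finset.mem_range.mp hi)).trans hm
      have e : j₀ * (i + 1) + (N - j₀ * (i + 1)) = N := by omega
      have h5 := hs (j₀ * (i + 1)) (N - j₀ * (i + 1))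
      rw [e] at h5
      have h6 := h2 _ hi'
      have h7 := h1 (N - j₀ * (i + 1)) (Nat.sub_le _ _)
      have hai : (0 : ℝ) < a (j₀ * (i + 1)) := by exact_mod_cast (ha _)
      rw [div_le_div_iff₀ hai haN]
      have h8 : a' (j₀ * (i + 1)) * a N ≤
          R * R' * Ks * (L' (j₀ * (i + 1)) * L (N - j₀ * (i + 1))) * a (j₀ * (i + 1)) := by
        calc a' (j₀ * (i + 1)) * a N
            ≤ a' (j₀ * (i + 1)) * (Ks * (a (j₀ * (i + 1)) * a (N - j₀ * (i + 1)))) :=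
              Nat.mul_le_mul_left _ h5
          _ ≤ (R' * L' (j₀ * (i + 1))) *
              (Ks * (a (j₀ * (i + 1)) * (R * L (N - j₀ * (i + 1))))) :=
              Nat.mul_le_mul h6 (Nat.mul_le_mul_left _ (Nat.mul_le_mul_left _ h7))
          _ = _ := by ring
      exact_mod_cast h8
    calc ∑ i ∈ Finset.range (N / j₀), ((a' (j₀ * (i + 1)) : ℝ) / a (j₀ * (i + 1)))
        ≤ ∑ i ∈ Finset.range (N / j₀),
          (R * R' * Ks : ℝ) * ((L' (j₀ * (i + 1)) * L (N - j₀ * (i + 1)) : ℕ) : ℝ) / a N :=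
          Finset.sum_le_sum h4
      _ = (R * R' * Ks : ℝ) * ((∑ i ∈ Finset.range (N / j₀),
          L' (j₀ * (i + 1)) * L (N - j₀ * (i + 1)) : ℕ) : ℝ) / a N := by
          rw [← Finset.sum_div, ← Finset.mul_sum]
          push_cast
          rfl
      _ ≤ (R * R' * Ks : ℝ) * ((K * a N : ℕ) : ℝ) / a N := by
          gcongr
      _ = (R * R' : ℝ) * (K * Ks) := by
          push_cast
          field_simp
  have k1 := key a a' L L' R R' K Ks ha ha' h1 h2 hs hI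
  have k2 := key a' a L' L R' R K' Ks' ha' ha h2 h1 hs' hII
  have k3 : (2 * (N / j₀ : ℕ) : ℝ) ≤ ∑ i ∈ Finset.range (N / j₀),
      ((a' (j₀ * (i + 1)) : ℝ) / a (j₀ * (i + 1)) +
        (a (j₀ * (i + 1)) : ℝ) / a' (j₀ * (i + 1))) := by
    have : ∀ i ∈ Finset.range (N / j₀), (2 : ℝ) ≤ (a' (j₀ * (i + 1)) : ℝ) / a (j₀ * (i + 1)) +
        (a (j₀ * (i + 1)) : ℝ) / a' (j₀ * (i + 1)) := by
      intro i _
      have hai : (0 : ℝ) < a (j₀ * (i + 1)) := by exact_mod_cast (ha _)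
      have hai' : (0 : ℝ) < a' (j₀ * (i + 1)) := by exact_mod_cast (ha' _)
      rw [div_add_div _ _ hai.ne' hai'.ne', le_div_iff₀ (by positivity)]
      nlinarith [sq_nonneg ((a' (j₀ * (i + 1)) : ℝ) - a (j₀ * (i + 1)))]
    have h9 := Finset.card_nsmul_le_sum _ _ _ this
    rw [Finset.card_range, nsmul_eq_mul] at h9
    linarith
  rw [Finset.sum_add_distrib] at k3
  have k4 : ((N / j₀ : ℕ) : ℝ) ≤ ((R * R' * (K * Ks + K' * Ks') : ℕ) : ℝ) := by
    push_cast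
    have e1 : (R' * R : ℝ) = R * R' := mul_comm _ _
    rw [e1] at k2
    have hpos : (0 : ℝ) ≤ (R * R' : ℝ) * (K * Ks + K' * Ks') := by positivity
    nlinarith
  have k5 : N / j₀ ≤ R * R' * (K * Ks + K' * Ks') := by exact_mod_cast k4
  have k6 : N < j₀ * (N / j₀ + 1) := by
    have := Nat.lt_mul_div_succ N (show 0 < j₀ by omega)
    simpa using this
  have k7 : 1 ≤ R * R' := Nat.mul_pos hR hR'
  calc N ≤ j₀ * (N / j₀ + 1) := k6.le
    _ ≤ j₀ * (R * R' * (K * Ks + K' * Ks') + R * R') :=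
        Nat.mul_le_mul_left _ (Nat.add_le_add k5 k7)
    _ = _ := by ring

variable {X : Type*} [MetricSpace X]

/-- The gap for a map with local product structure that has a proper attractor. -/
theorem gap_std [CompactSpace X] [ConnectedSpace X] {g : X ≃ₜ X} {c : ℝ} (h : LP g c)
    (hno : ¬ ∀ S, IsAtt g S → S = univ) :
    ∃ B : ℕ, ∀ N R R' : ℕ,
      (∀ n ≤ N, ∀ x y, P g (c / 4) (c / 2) n x ≤ R * P g (c / 4) (c / 2) n y) →
      (∀ n ≤ N, ∀ x y, P g.symm (c / 4) (c / 2) n x ≤ R' * P g.symm (c / 4) (c / 2) n y) →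
      N ≤ B * (R * R') := by
  push Not at hno
  obtain ⟨S, hS, hne⟩ := hno
  have hc := h.c_pos
  -- a proper repeller
  obtain ⟨z, hz⟩ := (ne_univ_iff_exists_notMem S).mp hne
  obtain ⟨w, hw, -⟩ := exists_repeller h hS hz
  have hrep : IsAtt g.symm (Bas g S)ᶜ := by
    refine ⟨(isOpen_bas h hS).isClosed_compl, ⟨w, hw⟩, ?_, ?_⟩
    · intro x
      rw [mem_compl_iff, mem_compl_iff, not_iff_not]
      have := bas_map (g := g) (φ := g) (fun _ => rfl) hS.inv (g.symm x)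
      rw [g.apply_symm_apply] at this
      exact this.symm
    · intro x hx y hxy hy
      obtain ⟨s, hs, h1⟩ := hy
      exact hx ⟨s, hs, WS.trans (g := g) hxy h1⟩
  obtain ⟨R₀, hRs, hR⟩ := exists_minAtt hrep
  have hRne : R₀ ≠ univ := by
    intro e
    obtain ⟨s, hs⟩ := hS.nonempty
    have : s ∈ (Bas g S)ᶜ := hRs (by rw [e]; trivial)
    exact this (subset_bas g S hs)
  -- a proper attractor
  obtain ⟨S', hSs, hS'⟩ := exists_minAtt hS
  have hSne : S' ≠ univ := by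
    intro e
    exact hz (hSs (by rw [e]; trivial))
  obtain ⟨K, -, j₂, hI⟩ := rep_ineq h hR hRne
  obtain ⟨K', -, j₂', hII⟩ := rep_ineq h.symm (R := S') hS' hSne
  obtain ⟨Ks, -, hs⟩ := A_submult h (ε := c / 4) (δ := c / 2) (by linarith) (by linarith)
    (by linarith) (by linarith)
  obtain ⟨Ks', -, hs'⟩ := A_submult h.symm (ε := c / 4) (δ := c / 2) (by linarith) (by linarith)
    (by linarith) (by linarith)
  have hδ : 0 < c / 2 := by linarith
  refine ⟨max (max j₂ j₂') 1 * (K * Ks + K' * Ks' + 1), fun N R R' h1 h2 => ?_⟩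
  have hP : 1 ≤ P g (c / 4) (c / 2) 0 z := one_le_P g (by linarith) hδ 0 z
  have hP' : 1 ≤ P g.symm (c / 4) (c / 2) 0 z := one_le_P g.symm (by linarith) hδ 0 z
  have hR1 : 1 ≤ R := by
    by_contra hcon
    have : R = 0 := by omega
    have h3 := h1 0 (Nat.zero_le _) z z
    rw [this, zero_mul] at h3
    omega
  have hR1' : 1 ≤ R' := by
    by_contra hcon
    have : R' = 0 := by omega
    have h3 := h2 0 (Nat.zero_le _) z z
    rw [this, zero_mul] at h3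
    omega
  refine numericGap (a := A g (c / 4) (c / 2)) (a' := A g.symm (c / 4) (c / 2))
    (L := Lo g (c / 4) (c / 2)) (L' := Lo g.symm (c / 4) (c / 2)) (le_max_right _ _)
    ?_ ?_ hR1 hR1' ?_ ?_ hs hs' ?_ ?_
  · intro n
    exact (one_le_P g (by linarith) hδ n z).trans (P_le_A hδ n z)
  · intro n
    exact (one_le_P g.symm (by linarith) hδ n z).trans (P_le_A hδ n z)
  · intro n hn
    exact A_le_Lo hδ (h1 n hn)
  · intro n hn
    exact A_le_Lo hδ (h2 n hn)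
  · exact hI _ ((le_max_left _ _).trans (le_max_left _ _)) _ _ (Lo_le g _ _) (Lo_le g.symm _ _)
  · exact hII _ ((le_max_right _ _).trans (le_max_left _ _)) _ _ (Lo_le g.symm _ _) (Lo_le g _ _)

section two

variable {Y : Type*} [CompactSpace X] [MetricSpace Y] [CompactSpace Y]

/-- Comparison of the growth of `f` at small scales with the growth of the power, time by time. -/
theorem growth_at {φ : X ≃ₜ Y} {f : X ≃ₜ X} {f' : Y ≃ₜ Y} (hφ : ∀ x, φ (f x) = f' (φ x)) {N : ℕ}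
    (hN : 1 ≤ N) {c : ℝ} (h : LP (iterHomeo f' N) c) :
    ∃ r > 0, ∀ ε > 0, ε ≤ r → ∀ δ > 0, δ ≤ r → ∃ K : ℕ, ∀ n C : ℕ,
      (∀ x y, P f ε δ (N * n) x ≤ C * P f ε δ (N * n) y) →
        ∀ x y, P (iterHomeo f' N) (c / 4) (c / 2) n x ≤
          K * C * P (iterHomeo f' N) (c / 4) (c / 2) n y := by
  have hc := h.c_pos
  obtain ⟨r, hr, hr1⟩ := one_uc φ (show 0 < c / 4 by linarith)
  refine ⟨r, hr, fun ε hε0 hε δ hδ0 hδ => ?_⟩
  have hδ1 : ∀ a b : X, dist a b ≤ δ → dist (φ a) (φ b) ≤ c / 2 := fun a b hab =>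
    (hr1 a b (hab.trans hδ)).trans (by linarith)
  have hε1 : ∀ a b : X, dist a b ≤ ε → dist (φ a) (φ b) ≤ c / 4 := fun a b hab =>
    hr1 a b (hab.trans hε)
  obtain ⟨ε', hε'0, hA⟩ := cmpA hφ hN hδ0 hδ1 hε0
  obtain ⟨δ', hδ'0, hB⟩ := cmpB hφ hN hε1 hδ0
  have hA' : ∀ (m : ℕ) (x : X), P (iterHomeo f' N) (min ε' (c / 4)) (c / 2) m (φ x) ≤
      P f ε δ (N * m) x := by
    intro m x
    refine le_trans ?_ (hA m x)
    obtain ⟨F, hF, h1⟩ := P_att (iterHomeo f' N) (min ε' (c / 4)) (show 0 < c / 2 by linarith) m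
      (φ x)
    rw [← h1]
    exact P_le (by linarith) ⟨fun y hy => (hF.1 y hy).mono (min_le_left _ _), hF.2⟩
  have hm0 : 0 < min ε' (c / 4) := lt_min hε'0 (by linarith)
  have hm1 : min ε' (c / 4) ≤ c / 4 := min_le_right _ _
  obtain ⟨K₁, -, j₁, h1⟩ := P_gen h (ε := c / 4) (ε' := min ε' (c / 4)) (δ := c / 2)
    (δ' := c / 2) (by linarith) hm0 (by linarith) (by linarith) (by linarith) (by linarith)
  obtain ⟨K₂, -, h2⟩ := P_chg h (ε := c / 4) (δ := δ') (δ' := c / 2) (by linarith) hδ'0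
    (by linarith) (by linarith)
  refine ⟨K₁ * K₂, fun n C hC x y => ?_⟩
  have h3 := h1 n x
  have h4 := hA' n (φ.symm ((iterHomeo f' N).symm^[j₁] x))
  rw [φ.apply_symm_apply] at h4
  have h5 := hC (φ.symm ((iterHomeo f' N).symm^[j₁] x)) (φ.symm y)
  have h6 := hB (N * n) (φ.symm y)
  rw [φ.apply_symm_apply, Nat.mul_div_cancel_left n (by omega)] at h6
  have h7 := h2 n y
  calc _ ≤ K₁ * _ := h3
    _ ≤ K₁ * _ := Nat.mul_le_mul_left _ h4
    _ ≤ K₁ * _ := Nat.mul_le_mul_left _ h5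
    _ ≤ K₁ * (C * _) := Nat.mul_le_mul_left _ (Nat.mul_le_mul_left _ h6)
    _ ≤ K₁ * (C * _) := Nat.mul_le_mul_left _ (Nat.mul_le_mul_left _ h7)
    _ = _ := by ring

theorem trans_conj [ConnectedSpace X] {φ : X ≃ₜ Y} {f : X ≃ₜ X} {f' : Y ≃ₜ Y}
    (hφ : ∀ x, φ (f x) = f' (φ x)) (ht : TopTransitive f') : TopTransitive f := by
  intro U V hU hUn hV hVn
  obtain ⟨n, _, ⟨x, hx, rfl⟩, hy⟩ := ht (φ.symm ⁻¹' U) (φ.symm ⁻¹' V)
    (hU.preimage φ.symm.continuous) (hUn.preimage φ.symm.surjective)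
    (hV.preimage φ.symm.continuous) (hVn.preimage φ.symm.surjective)
  refine ⟨n, φ.symm (f'^[n] x), ⟨φ.symm x, hx, ?_⟩, hy⟩
  apply φ.injective
  rw [conj_iter hφ, φ.apply_symm_apply, φ.apply_symm_apply]

/-- The gap for the map itself. -/
theorem gap_abs [ConnectedSpace X] {φ : X ≃ₜ Y} {f : X ≃ₜ X} {f' : Y ≃ₜ Y}
    (hφ : ∀ x, φ (f x) = f' (φ x)) {N : ℕ} (hN : 1 ≤ N) {c : ℝ} (h : LP (iterHomeo f' N) c) :
    ∃ r > 0, ∀ ε > 0, ε ≤ r → ∀ δ > 0, δ ≤ r → ¬ TopTransitive f →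
      ∃ B : ℕ, ∀ n R R' : ℕ,
        (∀ k ≤ n, ∀ x y, P f ε δ k x ≤ R * P f ε δ k y) →
        (∀ k ≤ n, ∀ x y, P f.symm ε δ k x ≤ R' * P f.symm ε δ k y) → n ≤ B * (R * R') := by
  have hY : ConnectedSpace Y := φ.surjective.connectedSpace φ.continuous
  have h' : LP (iterHomeo f'.symm N) c := by
    rw [← ith_symm]
    exact h.symm
  obtain ⟨r₁, hr₁, h1⟩ := growth_at hφ hN h
  obtain ⟨r₂, hr₂, h2⟩ := growth_at (conj_symm hφ) hN h'
  refine ⟨min r₁ r₂, lt_min hr₁ hr₂, fun ε hε0 hε δ hδ0 hδ hnt => ?_⟩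
  obtain ⟨K₁, hK₁⟩ := h1 ε hε0 (hε.trans (min_le_left _ _)) δ hδ0 (hδ.trans (min_le_left _ _))
  obtain ⟨K₂, hK₂⟩ := h2 ε hε0 (hε.trans (min_le_right _ _)) δ hδ0 (hδ.trans (min_le_right _ _))
  have hno : ¬ ∀ S, IsAtt (iterHomeo f' N) S → S = univ := fun hS =>
    hnt (trans_conj hφ ((trans_iff hN h).2 hS))
  obtain ⟨B, hB⟩ := gap_std h hno
  refine ⟨N * (B * (K₁ * K₂) + 1), fun n R R' hR hR' => ?_⟩
  have hx : Nonempty X := inferInstance
  have hR1 : 1 ≤ R := by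
    by_contra hcon
    have e : R = 0 := by omega
    have h3 := hR 0 (Nat.zero_le _) hx.some hx.some
    rw [e, zero_mul] at h3
    have := one_le_P f (ε := ε) hε0.le hδ0 0 hx.some
    omega
  have hR1' : 1 ≤ R' := by
    by_contra hcon
    have e : R' = 0 := by omega
    have h3 := hR' 0 (Nat.zero_le _) hx.some hx.some
    rw [e, zero_mul] at h3
    have := one_le_P f.symm (ε := ε) hε0.le hδ0 0 hx.some
    omega
  have hle : ∀ m ≤ n / N, N * m ≤ n := fun m hm =>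
    (Nat.mul_le_mul_left _ hm).trans (Nat.mul_div_le n N)
  have h5 := hB (n / N) (K₁ * R) (K₂ * R')
    (fun m hm => hK₁ m R (hR _ (hle m hm)))
    (fun m hm => by
      have := hK₂ m R' (hR' _ (hle m hm))
      rw [ith_symm]
      exact this)
  have h6 : n < N * (n / N + 1) := by
    have := Nat.lt_mul_div_succ n (show 0 < N by omega)
    simpa using this
  have h7 : 1 ≤ R * R' := Nat.mul_pos hR1 hR1'
  calc n ≤ N * (n / N + 1) := h6.le
    _ ≤ N * (B * ((K₁ * R) * (K₂ * R')) + R * R') :=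
        Nat.mul_le_mul_left _ (Nat.add_le_add h5 h7)
    _ = _ := by ring

end two

end Pool.Agent.V11333.AnoGap
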