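import Pool.Agent.V11333.OneSide4
import Pool.Agent.W263.BSD.OrderFinal

/-!
# The behaviour at the centre of functions which are analytic along the real axis
-/

set_option autoImplicit false

namespace Pool.Agent.V11333.Central

open MeasureTheory Filter Topology Set
open Pool.Agent.W263.BSD
open Pool.Agent.V11333.OneSide (DataLoc)

variable {a : ℝ → ℝ} {Φ G : ℂ → ℂ} {c0 : ℝ}

/-- the Laplace transform of `a` near `0` -/
theorem near (D : DataLoc 0 a Φ G c0)
    (hGb : ∃ C : ℝ, ∀ᶠ w : ℝ in 𝓝[>] 0, |(G w).re| ≤ C) {r : ℕ} (hr : OrdZero Φ r)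
    (hconv : ∀ w > 0, LInt a w) :
    ∃ C : ℝ, ∀ᶠ w : ℝ in 𝓝[>] 0, |w * lap a w - r * (-Real.log w)| ≤ C := by
  obtain ⟨C, hC⟩ := hGb
  obtain ⟨c, hc0, hc⟩ := hr.limit
  have h1 : Tendsto (fun w : ℝ => Real.log (‖Φ w‖ / w ^ r)) (𝓝[>] 0) (𝓝 (Real.log c)) :=
    hc.log hc0.ne'
  have h2 : ∀ᶠ w : ℝ in 𝓝[>] 0, |Real.log (‖Φ w‖ / w ^ r)| ≤ |Real.log c| + 1 := by
    have := h1.abs.eventually (gt_mem_nhds (show |Real.log c| < |Real.log c| + 1 by linarith))
    filter_upwards [this] with w hw using hw.le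
  refine ⟨C + (|Real.log c| + 1), ?_⟩
  filter_upwards [hC, h2, self_mem_nhdsWithin] with w h3 h4 h5
  have hw : (0 : ℝ) < w := h5
  rw [D.norm_eq le_rfl hconv hw, Real.log_div (Real.exp_pos _).ne' (pow_pos hw _).ne',
    Real.log_exp, Real.log_pow] at h4
  have e1 : w * lap a w - r * (-Real.log w) =
      (G w).re - ((G w).re - w * lap a w - r * Real.log w) := by ring
  rw [e1]
  exact (abs_sub _ _).trans (add_le_add h3 h4)

/-- subtraction of the logarithm -/
theorem near_ell {κ : ℝ} (hconv : ∀ w > 0, LInt a w)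
    (h : ∃ C : ℝ, ∀ᶠ w : ℝ in 𝓝[>] 0, |w * lap a w - κ * (-Real.log w)| ≤ C) :
    ∃ C : ℝ, ∀ᶠ w : ℝ in 𝓝[>] 0, |w * lap (fun u => a u - κ * ell u) w| ≤ C := by
  obtain ⟨C, hC⟩ := h
  refine ⟨C + |κ| * (Real.exp 1 + |ck 0|), ?_⟩
  filter_upwards [hC, self_mem_nhdsWithin, Ioo_mem_nhdsGT (show (0 : ℝ) < 1 by norm_num)]
    with w h3 h5 h6
  have hw : (0 : ℝ) < w := h5
  have e2 := pl_lap_le 0 hw h6.2.le
  have e3 := le_pl_lap 0 hw
  rw [pl_zero] at e2 e3
  norm_num at e2 e3
  rw [lap_sub (hconv w hw) ((ell_LInt hw).const_mul _), lap_const_mul]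
  have e1 : w * (lap a w - κ * lap ell w) =
      (w * lap a w - κ * (-Real.log w)) - κ * (w * lap ell w - -Real.log w) := by ring
  rw [e1]
  refine (abs_sub _ _).trans (add_le_add h3 ?_)
  rw [abs_mul]
  refine mul_le_mul_of_nonneg_left ?_ (abs_nonneg _)
  rw [abs_le]
  have := le_abs_self (ck 0)
  have := Real.exp_pos 1
  have := abs_nonneg (ck 0)
  constructor <;> linarith

/-- a bound of `a` by `κ ell + M` on the whole half line -/
theorem upper_all {κ K₀ x₀ : ℝ} (hK₀ : 0 ≤ K₀) (hx₀ : 0 ≤ x₀)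
    (hloc : ∀ u, 0 < u → |a u| ≤ K₀ * Real.exp (x₀ * u))
    (h : ∃ C : ℝ, ∀ᶠ u in atTop, a u ≤ κ * Real.log u + C) :
    ∃ M : ℝ, 0 ≤ M ∧ ∀ u, 0 < u → a u ≤ κ * ell u + M := by
  obtain ⟨C, hC⟩ := h
  obtain ⟨U, hU⟩ := eventually_atTop.mp hC
  set V : ℝ := max U 2 with hV
  have hV2 : 2 ≤ V := le_max_right _ _
  have hell : 0 ≤ ell V := by linarith [ell_nonneg (u := V) (by linarith)]
  refine ⟨|C| + |κ| + K₀ * Real.exp (x₀ * V) + |κ| * ell V, by positivity, fun u hu => ?_⟩
  have p1 : 0 ≤ K₀ * Real.exp (x₀ * V) := by positivity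
  have p2 : 0 ≤ |κ| * ell V := by positivity
  rcases le_or_gt V u with h2 | h2
  · have h3 := hU u ((le_max_left _ _).trans h2)
    have h4 := ell_le (hV2.trans h2)
    have h5 := log_le_ell hu
    have h6 : κ * Real.log u ≤ κ * ell u + |κ| := by
      have e1 : κ * (Real.log u - ell u) ≤ |κ| * 1 := by
        refine (le_abs_self _).trans ?_
        rw [abs_mul]
        refine mul_le_mul_of_nonneg_left ?_ (abs_nonneg _)
        rw [abs_le]
        constructor <;> linarith
      linarith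
    have h7 := le_abs_self C
    linarith
  · have h3 := (abs_le.mp (hloc u hu)).2
    have h4 : K₀ * Real.exp (x₀ * u) ≤ K₀ * Real.exp (x₀ * V) :=
      mul_le_mul_of_nonneg_left (Real.exp_le_exp.mpr (mul_le_mul_of_nonneg_left h2.le hx₀)) hK₀
    have h5 : -(|κ| * ell V) ≤ κ * ell u := by
      have e1 := ell_mono hu.le h2.le
      have e2 : 0 ≤ ell u := by linarith [ell_nonneg hu.le]
      have e3 : |κ * ell u| ≤ |κ| * ell V := by
        rw [abs_mul, abs_of_nonneg e2]
        exact mul_le_mul_of_nonneg_left e1 (abs_nonneg _)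
      exact (abs_le.mp e3).1
    have := abs_nonneg C
    have := abs_nonneg κ
    linarith

/-- an upper bound by the logarithm gives the bounds `exp (ε u)` -/
theorem exp_of_log {κ : ℝ} (h : ∃ C : ℝ, ∀ᶠ u in atTop, a u ≤ κ * Real.log u + C) :
    ∀ ε : ℝ, 0 < ε → ∃ C y₀ : ℝ, ∀ y, y₀ ≤ y → a y ≤ C * Real.exp ((0 + ε) * y) := by
  intro ε hε
  obtain ⟨C, hC⟩ := h
  have h1 := sqrt_sub_exp (|C|) (|κ| * 2) hε
  obtain ⟨U, hU⟩ := eventually_atTop.mp (hC.and (h1.and (eventually_ge_atTop 1)))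
  refine ⟨1, U, fun y hy => ?_⟩
  obtain ⟨e1, e2, e3⟩ := hU y hy
  rw [one_mul, zero_add]
  refine e1.trans (le_trans ?_ e2)
  have hy0 : 0 < y := by linarith
  have e4 : Real.log y ≤ 2 * √y := by
    have e5 := Real.log_le_sub_one_of_pos (Real.sqrt_pos.2 hy0)
    rw [Real.log_sqrt hy0.le] at e5
    linarith
  have e6 : 0 ≤ Real.log y := Real.log_nonneg e3
  have e7 : κ * Real.log y ≤ |κ| * (2 * √y) :=
    mul_le_mul (le_abs_self κ) e4 e6 (abs_nonneg _)
  have e8 := le_abs_self C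
  linarith

/-- **Mean values**, from an upper bound by the logarithm. -/
theorem mean_of_upper {κ K₀ x₀ K : ℝ} (ham : Measurable a) (hK₀ : 0 ≤ K₀) (hx₀ : 0 ≤ x₀)
    (hloc : ∀ u, 0 < u → |a u| ≤ K₀ * Real.exp (x₀ * u)) (hconv : ∀ w > 0, LInt a w)
    (hnear : ∃ C : ℝ, ∀ᶠ w : ℝ in 𝓝[>] 0, |w * lap a w - κ * (-Real.log w)| ≤ C)
    (h : ∃ C : ℝ, ∀ᶠ u in atTop, a u ≤ K * Real.log u + C) :
    Tendsto (fun U : ℝ => (∫ u in Ioc 0 U, a u) / (U * Real.log U)) atTop (𝓝 κ) := by
  obtain ⟨M, hM, hle⟩ := upper_all hK₀ hx₀ hloc h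
  obtain ⟨C, hC⟩ := near_ell hconv hnear
  -- `b = |K| ell + M`, `b - a ≥ 0`
  set b : ℝ → ℝ := fun u => (|K|) * ell u + M * ex 0 u with hb
  have hbm : Measurable b := (ell_meas.const_mul _).add ((ex_meas 0).const_mul _)
  have hbi : ∀ w > 0, LInt b w := fun w hw =>
    ((ell_LInt hw).const_mul _).add ((ex_LInt hw).const_mul _)
  have hex : ∀ u, ex 0 u = 1 := fun u => by simp [ex]
  have hb0 : ∀ u, 0 < u → 0 ≤ b u := by
    intro u hu
    have h2 := ell_nonneg hu.le
    have h3 : 0 ≤ ell u := by linarith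
    rw [hb]
    simp only [hex]
    positivity
  have hle' : ∀ u, 0 < u → a u ≤ b u := by
    intro u hu
    have h2 := ell_nonneg hu.le
    have h3 : K * ell u ≤ |K| * ell u := mul_le_mul_of_nonneg_right (le_abs_self K) (by linarith)
    have h4 := hle u hu
    rw [hb]
    simp only [hex]
    linarith
  have hblap : ∀ᶠ w : ℝ in 𝓝[>] 0, |w ^ (0 + 1) * lap b w - |K| * (-Real.log w)| ≤
      |K| * (Real.exp 1 + |ck 0|) + M := by
    filter_upwards [Ioo_mem_nhdsGT (show (0 : ℝ) < 1 by norm_num)] with w hw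
    have hw0 := hw.1
    have e2 := pl_lap_le 0 hw0 hw.2.le
    have e3 := le_pl_lap 0 hw0
    rw [pl_zero] at e2 e3
    norm_num at e2 e3
    rw [hb, lap_add ((ell_LInt hw0).const_mul _) ((ex_LInt hw0).const_mul _), lap_const_mul,
      lap_const_mul, ex_lap hw0, sub_zero, zero_add, pow_one]
    have e5 : w * (|K| * lap ell w + M * (1 / w)) - |K| * (-Real.log w) =
        |K| * (w * lap ell w - -Real.log w) + M := by
      field_simp
      ring
    rw [e5]
    refine (abs_add_le _ _).trans (add_le_add ?_ (abs_of_nonneg hM).le)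
    rw [abs_mul, abs_abs]
    refine mul_le_mul_of_nonneg_left ?_ (abs_nonneg _)
    rw [abs_le]
    have := le_abs_self (ck 0)
    have := Real.exp_pos 1
    have := abs_nonneg (ck 0)
    constructor <;> linarith
  obtain ⟨C', hC'⟩ := hnear
  have hd0 : ∀ u, 0 < u → 0 ≤ b u - a u := fun u hu => by have := hle' u hu; linarith
  have hdi : ∀ w > 0, LInt (fun u => b u - a u) w := fun w hw => (hbi w hw).sub (hconv w hw)
  have hdm : Measurable fun u => b u - a u := hbm.sub ham
  have hk1 := karamata 0 hbm hb0 hbi (log_div_tendsto hblap)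
  have hk2 : Tendsto (fun U : ℝ => (∫ u in Ioc 0 U, (b u - a u)) /
      (U ^ (0 + 1) / (0 + 1).factorial * Real.log U)) atTop (𝓝 (|K| - κ)) := by
    refine karamata 0 hdm hd0 hdi (log_div_tendsto
      (C := (|K| * (Real.exp 1 + |ck 0|) + M) + C') ?_)
    filter_upwards [hblap, hC', self_mem_nhdsWithin] with w h1 h2 h3
    have hw : (0 : ℝ) < w := h3
    rw [lap_sub (hbi w hw) (hconv w hw)]
    have e1 : w ^ (0 + 1) * (lap b w - lap a w) - (|K| - κ) * (-Real.log w) =
        (w ^ (0 + 1) * lap b w - |K| * (-Real.log w)) -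
        (w * lap a w - κ * (-Real.log w)) := by ring
    rw [e1]
    exact (abs_sub _ _).trans (add_le_add h1 h2)
  have hk3 := hk1.sub hk2
  rw [sub_sub_cancel] at hk3
  refine hk3.congr fun U => ?_
  rw [← sub_div, ← integral_sub (b_integrable hbm hbi U) (b_integrable hdm hdi U)]
  congr 1
  · congr 1
    funext u
    ring
  · simp

/-- comparison of the exponents -/
theorem exponent_le {κ K₀ x₀ K : ℝ} (ham : Measurable a) (hK₀ : 0 ≤ K₀) (hx₀ : 0 ≤ x₀)
    (hloc : ∀ u, 0 < u → |a u| ≤ K₀ * Real.exp (x₀ * u)) (hconv : ∀ w > 0, LInt a w)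
    (hnear : ∃ C : ℝ, ∀ᶠ w : ℝ in 𝓝[>] 0, |w * lap a w - κ * (-Real.log w)| ≤ C)
    (h : ∃ C : ℝ, ∀ᶠ u in atTop, a u ≤ K * Real.log u + C) : κ ≤ K := by
  obtain ⟨M, hM, hle⟩ := upper_all hK₀ hx₀ hloc h
  obtain ⟨C, hC⟩ := hnear
  by_contra hcon
  push Not at hcon
  have hlog : Tendsto (fun w : ℝ => (κ - K) * (-Real.log w)) (𝓝[>] 0) atTop :=
    Tendsto.const_mul_atTop (by linarith)
      (tendsto_neg_atBot_atTop.comp Real.tendsto_log_nhdsGT_zero)
  have h1 := hlog.eventually_gt_atTop (C + M + |K| * (Real.exp 1 + |ck 0|))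
  have h0 : ∀ᶠ w : ℝ in 𝓝[>] 0, w ∈ Ioo (0 : ℝ) 1 := Ioo_mem_nhdsGT (by norm_num)
  obtain ⟨w, h2, h3, h5⟩ := (h1.and (hC.and h0)).exists
  have hw : (0 : ℝ) < w := h5.1
  have e2 := pl_lap_le 0 hw h5.2.le
  have e3 := le_pl_lap 0 hw
  rw [pl_zero] at e2 e3
  norm_num at e2 e3
  have hb : LInt (fun u => K * ell u + M * ex 0 u) w :=
    ((ell_LInt hw).const_mul _).add ((ex_LInt hw).const_mul _)
  have e4 : lap a w ≤ lap (fun u => K * ell u + M * ex 0 u) w := by
    refine lap_mono (hconv w hw) hb fun u hu => ?_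
    have := hle u hu
    simpa [ex] using this
  rw [lap_add ((ell_LInt hw).const_mul _) ((ex_LInt hw).const_mul _), lap_const_mul,
    lap_const_mul, ex_lap hw, sub_zero] at e4
  have e5 : w * lap a w ≤ K * (w * lap ell w) + M := by
    have := mul_le_mul_of_nonneg_left e4 hw.le
    have e6 : w * (K * lap ell w + M * (1 / w)) = K * (w * lap ell w) + M := by
      field_simp
    linarith
  have e7 : K * (w * lap ell w) ≤ K * (-Real.log w) + |K| * (Real.exp 1 + |ck 0|) := by
    have e8 : K * (w * lap ell w - -Real.log w) ≤ |K| * (Real.exp 1 + |ck 0|) := by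
      refine (le_abs_self _).trans ?_
      rw [abs_mul]
      refine mul_le_mul_of_nonneg_left ?_ (abs_nonneg _)
      rw [abs_le]
      have := le_abs_self (ck 0)
      have := Real.exp_pos 1
      have := abs_nonneg (ck 0)
      constructor <;> linarith
    linarith
  have e9 := (abs_le.mp h3).1
  linarith

/-- **The critical exponent.** An upper bound by `κ log u + C` gives closeness in the mean. -/
theorem l1_of_upper {κ K₀ x₀ : ℝ} (ham : Measurable a) (hK₀ : 0 ≤ K₀) (hx₀ : 0 ≤ x₀)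
    (hloc : ∀ u, 0 < u → |a u| ≤ K₀ * Real.exp (x₀ * u)) (hconv : ∀ w > 0, LInt a w)
    (hnear : ∃ C : ℝ, ∀ᶠ w : ℝ in 𝓝[>] 0, |w * lap a w - κ * (-Real.log w)| ≤ C)
    (h : ∃ C : ℝ, ∀ᶠ u in atTop, a u ≤ κ * Real.log u + C) :
    ∃ C : ℝ, ∀ U : ℝ, 1 ≤ U → ∫ u in Ioc 1 U, |a u - κ * Real.log u| ≤ C * U := by
  obtain ⟨M, hM, hle⟩ := upper_all hK₀ hx₀ hloc h
  have hfm : Measurable (fun u => a u - κ * ell u) := ham.sub (ell_meas.const_mul _)
  have hfi : ∀ w > 0, LInt (fun u => a u - κ * ell u) w := fun w hw =>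
    (hconv w hw).sub ((ell_LInt hw).const_mul _)
  obtain ⟨B, hB⟩ := abel_all hfm hfi (near_ell hconv hnear)
  set b : ℝ → ℝ := fun u => M * ex 0 u - (a u - κ * ell u) with hb
  have hbm : Measurable b := ((ex_meas 0).const_mul _).sub hfm
  have hbi : ∀ w > 0, LInt b w := fun w hw => ((ex_LInt hw).const_mul _).sub (hfi w hw)
  have hex : ∀ u, ex 0 u = 1 := fun u => by simp [ex]
  have hb0 : ∀ u, 0 < u → 0 ≤ b u := by
    intro u hu
    have := hle u hu
    rw [hb]
    simp only [hex]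
    linarith
  have key : ∀ U : ℝ, 1 ≤ U → ∫ u in Ioc 0 U, b u ≤ Real.exp 1 * ((M + B) * U) := by
    intro U hU
    have hU0 : 0 < U := by linarith
    have hw0 : 0 < 1 / U := by positivity
    have hw1 : 1 / U ≤ 1 := by rw [div_le_one hU0]; exact hU
    have e1 : ∫ u in Ioc 0 U, b u ≤ ∫ u in Ioc 0 U, Real.exp 1 * (b u * Real.exp (-(1 / U * u))) := by
      refine setIntegral_mono_on (b_integrable hbm hbi U)
        (Integrable.const_mul ((hbi _ hw0).mono_set Ioc_subset_Ioi_self) _) measurableSet_Ioc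
        fun u hu => ?_
      have e2 : 1 ≤ Real.exp 1 * Real.exp (-(1 / U * u)) := by
        rw [← Real.exp_add]
        apply Real.one_le_exp
        have : 1 / U * u ≤ 1 := by
          rw [one_div, inv_mul_le_iff₀ hU0]
          linarith [hu.2]
        linarith
      have e3 := mul_le_mul_of_nonneg_left e2 (hb0 u hu.1)
      linarith
    have e4 : ∫ u in Ioc 0 U, Real.exp 1 * (b u * Real.exp (-(1 / U * u))) ≤
        Real.exp 1 * lap b (1 / U) := by
      rw [integral_const_mul]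
      refine mul_le_mul_of_nonneg_left ?_ (Real.exp_pos _).le
      unfold lap
      refine setIntegral_mono_set (hbi _ hw0) ?_ (Eventually.of_forall Ioc_subset_Ioi_self)
      refine (ae_restrict_iff' measurableSet_Ioi).mpr (Eventually.of_forall fun u hu => ?_)
      exact mul_nonneg (hb0 u hu) (Real.exp_pos _).le
    have e5 : lap b (1 / U) = M * U - lap (fun u => a u - κ * ell u) (1 / U) := by
      rw [hb, lap_sub ((ex_LInt hw0).const_mul _) (hfi _ hw0), lap_const_mul, ex_lap hw0, sub_zero,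
        one_div_one_div]
    have e6 := (abs_le.mp (hB _ hw0 hw1)).1
    have e7 : -lap (fun u => a u - κ * ell u) (1 / U) ≤ B * U := by
      have e8 : -B * U ≤ 1 / U * lap (fun u => a u - κ * ell u) (1 / U) * U :=
        mul_le_mul_of_nonneg_right e6 hU0.le
      have e9 : 1 / U * lap (fun u => a u - κ * ell u) (1 / U) * U =
          lap (fun u => a u - κ * ell u) (1 / U) := by
        field_simp
      rw [e9] at e8
      linarith
    refine e1.trans (e4.trans ?_)
    rw [e5]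
    refine mul_le_mul_of_nonneg_left ?_ (Real.exp_pos _).le
    linarith
  have hl : ∀ u : ℝ, 1 ≤ u → |ell u - Real.log u| ≤ 2 := by
    intro u hu
    have hu0 : 0 < u := by linarith
    have h1 := log_le_ell hu0
    have h2 : ell u ≤ Real.log u + 2 := by
      have h3 : ell u ≤ ell (2 * u) := ell_mono hu0.le (by linarith)
      have h4 := ell_le (u := 2 * u) (by linarith)
      rw [Real.log_mul (by norm_num) hu0.ne'] at h4
      have := Real.log_two_lt_d9
      linarith
    rw [abs_of_nonneg (by linarith)]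
    linarith
  refine ⟨Real.exp 1 * (M + B) + (M + |κ| * 2), fun U hU => ?_⟩
  have hbI := b_integrable hbm hbi U
  have hsub : Ioc 1 U ⊆ Ioc 0 U := Ioc_subset_Ioc_left zero_le_one
  have e1 : ∀ u ∈ Ioc 1 U, |a u - κ * Real.log u| ≤ b u + (M + |κ| * 2) := by
    intro u hu
    have hu0 : 0 < u := by linarith [hu.1]
    have h1 : a u - κ * Real.log u = (M - b u) + κ * (ell u - Real.log u) := by
      rw [hb]
      simp only [hex]
      ring
    rw [h1]
    refine (abs_add_le _ _).trans ?_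
    have h2 : |M - b u| ≤ M + b u := by
      have := hb0 u hu0
      rw [abs_le]
      constructor <;> linarith
    have h3 : |κ * (ell u - Real.log u)| ≤ |κ| * 2 := by
      rw [abs_mul]
      exact mul_le_mul_of_nonneg_left (hl u hu.1.le) (abs_nonneg _)
    linarith
  have hci : IntegrableOn (fun _ : ℝ => M + |κ| * 2) (Ioc 1 U) :=
    integrableOn_const (by simp)
  have hgi : IntegrableOn (fun u => b u + (M + |κ| * 2)) (Ioc 1 U) :=
    (hbI.mono_set hsub).add hci
  have e2 : ∫ u in Ioc 1 U, |a u - κ * Real.log u| ≤ ∫ u in Ioc 1 U, (b u + (M + |κ| * 2)) := by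
    refine setIntegral_mono_on ?_ hgi measurableSet_Ioc e1
    refine Integrable.mono' hgi ?_ ?_
    · exact ((ham.sub (Real.measurable_log.const_mul _)).abs).aestronglyMeasurable
    · refine (ae_restrict_iff' measurableSet_Ioc).mpr (Eventually.of_forall fun u hu => ?_)
      rw [Real.norm_eq_abs, abs_abs]
      exact e1 u hu
  refine e2.trans ?_
  rw [integral_add (hbI.mono_set hsub) hci]
  have e3 : ∫ u in Ioc 1 U, b u ≤ ∫ u in Ioc 0 U, b u := by
    refine setIntegral_mono_set hbI ?_ (Eventually.of_forall hsub)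
    refine (ae_restrict_iff' measurableSet_Ioc).mpr (Eventually.of_forall fun u hu => ?_)
    exact hb0 u hu.1
  have e4 : ∫ _u in Ioc 1 U, (M + |κ| * 2) ≤ (M + |κ| * 2) * U := by
    rw [setIntegral_const, smul_eq_mul, Measure.real, Real.volume_Ioc,
      ENNReal.toReal_ofReal (by linarith)]
    have : 0 ≤ M + |κ| * 2 := by positivity
    nlinarith
  have e5 := key U hU
  have e6 : Real.exp 1 * ((M + B) * U) = Real.exp 1 * (M + B) * U := by ring
  rw [e6] at e5
  linarith

/-- **Upper doubling implies the exact order.** -/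
theorem order_of_upper {κ K₀ x₀ K u0 : ℝ} (ham : Measurable a) (hK₀ : 0 ≤ K₀) (hx₀ : 0 ≤ x₀)
    (hloc : ∀ u, 0 < u → |a u| ≤ K₀ * Real.exp (x₀ * u)) (hconv : ∀ w > 0, LInt a w)
    (hnear : ∃ C : ℝ, ∀ᶠ w : ℝ in 𝓝[>] 0, |w * lap a w - κ * (-Real.log w)| ≤ C)
    (hK : 0 ≤ K) (hu0 : 1 ≤ u0) (h : ∀ u v, u0 ≤ u → u ≤ v → v ≤ 2 * u → a v ≤ a u + K) :
    ∃ M : ℝ, ∀ u, 0 < u → |a u - κ * ell u| ≤ M := by
  have hu0' : 0 < u0 := by linarith
  have hfi : ∀ w > 0, LInt (fun u => a u - κ * ell u) w := fun w hw =>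
    (hconv w hw).sub ((ell_LInt hw).const_mul _)
  have hfm : Measurable (fun u => a u - κ * ell u) := ham.sub (ell_meas.const_mul _)
  obtain ⟨B, hB⟩ := abel_all hfm hfi (near_ell hconv hnear)
  have hlog2 : 0 ≤ Real.log 2 := Real.log_nonneg (by norm_num)
  have hK' : 0 ≤ K + |κ| * Real.log 2 := by positivity
  refine bounded_of_slow hfi hB hu0 (L := 3 * (K + |κ| * Real.log 2)) (by positivity) ?_ ?_
  · refine slow_of_doubling hK' hu0' fun u v h1 h2 h3 => ?_
    have e1 := h u v h1 h2 h3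
    have e2 : κ * ell u ≤ κ * ell v + |κ| * Real.log 2 := by
      have e3 := ell_mono (by linarith : 0 ≤ u) h2
      have e4 := ell_double (by linarith : 0 < u) h3 (by linarith)
      have e5 : κ * (ell u - ell v) ≤ |κ| * Real.log 2 := by
        refine (le_abs_self _).trans ?_
        rw [abs_mul]
        refine mul_le_mul_of_nonneg_left ?_ (abs_nonneg _)
        rw [abs_le]
        constructor <;> linarith
      linarith
    linarith
  · intro U
    refine ⟨K₀ * Real.exp (x₀ * U) + |κ| * ell U, fun u hu huU => ?_⟩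
    have e1 := hloc u hu
    have e2 : K₀ * Real.exp (x₀ * u) ≤ K₀ * Real.exp (x₀ * U) :=
      mul_le_mul_of_nonneg_left (Real.exp_le_exp.mpr (mul_le_mul_of_nonneg_left huU hx₀)) hK₀
    have e4 : 0 ≤ ell u := by linarith [ell_nonneg hu.le]
    have e5 : |κ * ell u| ≤ |κ| * ell U := by
      rw [abs_mul, abs_of_nonneg e4]
      exact mul_le_mul_of_nonneg_left (ell_mono hu.le huU) (abs_nonneg _)
    refine (abs_sub _ _).trans ?_
    linarith

/-- the growth which follows from the doubling condition -/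
theorem exp_of_doubling {K u0 : ℝ} (hK : 0 ≤ K) (hu0 : 1 ≤ u0)
    (h : ∀ u v, u0 ≤ u → u ≤ v → v ≤ 2 * u → a v ≤ a u + K) :
    ∀ ε : ℝ, 0 < ε → ∃ C y₀ : ℝ, ∀ y, y₀ ≤ y → a y ≤ C * Real.exp ((0 + ε) * y) := by
  intro ε hε
  have hu0' : 0 < u0 := by linarith
  have hs := slow_of_doubling hK hu0' h
  obtain ⟨U, hU⟩ := eventually_atTop.mp
    ((sqrt_sub_exp (a u0) (3 * K * (1 / √u0)) hε).and (eventually_ge_atTop u0))
  refine ⟨1, U, fun y hy => ?_⟩
  obtain ⟨h1, h2⟩ := hU y hy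
  rw [one_mul, zero_add]
  refine le_trans (hs u0 y le_rfl h2) (le_trans (le_of_eq ?_) h1)
  rw [Real.sqrt_div' _ hu0'.le]
  ring

end Pool.Agent.V11333.Central
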