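import Pool.Agent.V11333.Central1

/-!
# The order of the partial products of a system of primes
-/

set_option autoImplicit false

namespace Pool.Agent.V11333.Central

open MeasureTheory Filter Topology Set
open Pool.Agent.W263.BSD (LInt lap lapC OrdZero ell lap_const_mul ell_nonneg ell_le log_le_ell
  ell_mono)
open Pool.Agent.TH942.ES
open Pool.Agent.V11333.OneSide

variable {X : Type} {d : ℕ} {N : X → ℕ} {α : X → Fin d → ℂ}

theorem lap_neg' (f : ℝ → ℝ) (w : ℝ) : lap (fun u => -f u) w = -lap f w := by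
  have := lap_const_mul (f := f) (w := w) (-1)
  simp only [neg_mul, one_mul] at this
  exact this

theorem GG_bdd (E : Sys N α) : ∃ C : ℝ, ∀ᶠ w : ℝ in 𝓝[>] 0, |(GG N α w).re| ≤ C := by
  obtain ⟨C, hC⟩ := E.GG_sector (K := 1) one_pos
  refine ⟨C, ?_⟩
  filter_upwards [self_mem_nhdsWithin] with w hw
  have hw0 : (0 : ℝ) < w := hw
  refine (Complex.abs_re_le_norm _).trans (hC _ (by rwa [Complex.ofReal_re]) ?_)
  rw [Complex.norm_real, Real.norm_eq_abs, abs_of_pos hw0, Complex.ofReal_re, one_mul]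

/-- the transform near the centre -/
theorem sys_near (E : Sys N α) {H : ℂ → ℂ} (hH : ∀ x : ℝ, 0 < x → AnalyticAt ℂ H x)
    (hHe : ∀ x : ℝ, 1 / 2 < x → H x = LE N α x) {r : ℕ} (hr : OrdZero H r)
    (hconv : ∀ w > 0, LInt (st N α) w) :
    ∃ C : ℝ, ∀ᶠ w : ℝ in 𝓝[>] 0, |w * lap (st N α) w - r * (-Real.log w)| ≤ C :=
  near (data_upper E le_rfl hH hHe) (GG_bdd E) hr hconv

theorem sys_near_neg (E : Sys N α) {H : ℂ → ℂ} (hH : ∀ x : ℝ, 0 < x → AnalyticAt ℂ H x)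
    (hHe : ∀ x : ℝ, 1 / 2 < x → H x = LE N α x) {r : ℕ} (hr : OrdZero H r)
    (hconv : ∀ w > 0, LInt (st N α) w) :
    ∃ C : ℝ, ∀ᶠ w : ℝ in 𝓝[>] 0,
      |w * lap (fun t => -st N α t) w - (-r : ℝ) * (-Real.log w)| ≤ C := by
  obtain ⟨C, hC⟩ := sys_near E hH hHe hr hconv
  refine ⟨C, hC.mono fun w hw => ?_⟩
  rw [lap_neg', ← abs_neg]
  have e : -(w * -lap (st N α) w - (-r : ℝ) * (-Real.log w)) =
      w * lap (st N α) w - r * (-Real.log w) := by ring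
  rw [e]
  exact hw

theorem sys_conv_upper (E : Sys N α) {H : ℂ → ℂ} (hH : ∀ x : ℝ, 0 < x → AnalyticAt ℂ H x)
    (hHe : ∀ x : ℝ, 1 / 2 < x → H x = LE N α x)
    (h : ∀ ε : ℝ, 0 < ε → ∃ C y₀ : ℝ, ∀ y, y₀ ≤ y → st N α y ≤ C * Real.exp ((0 + ε) * y)) :
    ∀ w > 0, LInt (st N α) w := by
  obtain ⟨K₀, hK₀, hb⟩ := st_bound E (σ := 1) (by norm_num)
  exact (data_upper E le_rfl hH hHe).conv hK₀ zero_le_one
    (fun u _ => (le_abs_self _).trans (hb u)) h

theorem sys_conv_lower (E : Sys N α) {H : ℂ → ℂ} (hH : ∀ x : ℝ, 0 < x → AnalyticAt ℂ H x)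
    (hHe : ∀ x : ℝ, 1 / 2 < x → H x = LE N α x) (hne : ∀ x : ℝ, 0 < x → H x ≠ 0)
    (h : ∀ ε : ℝ, 0 < ε → ∃ C y₀ : ℝ, ∀ y, y₀ ≤ y → -st N α y ≤ C * Real.exp ((0 + ε) * y)) :
    ∀ w > 0, LInt (st N α) w := by
  obtain ⟨K₀, hK₀, hb⟩ := st_bound E (σ := 1) (by norm_num)
  have h1 := (data_lower E le_rfl (H := fun z => (H z)⁻¹) (fun x hx => (hH x hx).inv (hne x hx))
    (fun x hx => by rw [hHe x hx])).conv hK₀ zero_le_one
    (fun u _ => (neg_le_abs _).trans (hb u)) h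
  intro w hw
  have h2 := (h1 w hw).neg
  simpa only [neg_neg] using h2

/-- **The exact order and the doubling conditions.** -/
theorem sys_order (E : Sys N α) {H : ℂ → ℂ} (hH : ∀ x : ℝ, 0 < x → AnalyticAt ℂ H x)
    (hHe : ∀ x : ℝ, 1 / 2 < x → H x = LE N α x) {r : ℕ} (hr : OrdZero H r) {K u0 : ℝ}
    (hK : 0 ≤ K) (hu0 : 1 ≤ u0)
    (h : (∀ u v, u0 ≤ u → u ≤ v → v ≤ 2 * u → st N α v ≤ st N α u + K) ∨
      ((∀ x : ℝ, 0 < x → H x ≠ 0) ∧
        ∀ u v, u0 ≤ u → u ≤ v → v ≤ 2 * u → st N α u ≤ st N α v + K)) :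
    (∀ w > 0, LInt (st N α) w) ∧ ∃ M : ℝ, ∀ u, 0 < u → |st N α u - r * ell u| ≤ M := by
  obtain ⟨K₀, hK₀, hb⟩ := st_bound E (σ := 1) (by norm_num)
  rcases h with h | ⟨hne, h⟩
  · have hconv := sys_conv_upper E hH hHe (exp_of_doubling hK hu0 h)
    exact ⟨hconv, order_of_upper (st_meas E) hK₀ zero_le_one (fun u _ => hb u) hconv
      (sys_near E hH hHe hr hconv) hK hu0 h⟩
  · have h' : ∀ u v, u0 ≤ u → u ≤ v → v ≤ 2 * u → -st N α v ≤ -st N α u + K := fun u v h1 h2 h3 => by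
      have := h u v h1 h2 h3
      linarith
    have hconv := sys_conv_lower E hH hHe hne
      (exp_of_doubling (a := fun t => -st N α t) hK hu0 h')
    refine ⟨hconv, ?_⟩
    obtain ⟨M, hM⟩ := order_of_upper (a := fun t => -st N α t) (κ := (-r : ℝ)) (st_meas E).neg hK₀
      zero_le_one (fun u _ => by rw [abs_neg]; exact hb u) (fun w hw => (hconv w hw).neg)
      (sys_near_neg E hH hHe hr hconv) hK hu0 h'
    refine ⟨M, fun u hu => ?_⟩
    have := hM u hu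
    rw [← abs_neg] at this
    have e : -(-st N α u - (-r : ℝ) * ell u) = st N α u - r * ell u := by ring
    rwa [e] at this

/-- **One-sided bounds by a power of the logarithm.** -/
theorem sys_upper (E : Sys N α) {H : ℂ → ℂ} (hH : ∀ x : ℝ, 0 < x → AnalyticAt ℂ H x)
    (hHe : ∀ x : ℝ, 1 / 2 < x → H x = LE N α x) {r : ℕ} (hr : OrdZero H r) {A : ℝ}
    (h : ∃ C : ℝ, ∀ᶠ u in atTop, st N α u ≤ A * Real.log u + C) :
    (∀ w > 0, LInt (st N α) w) ∧
    Tendsto (fun U : ℝ => (∫ u in Ioc 0 U, st N α u) / (U * Real.log U)) atTop (𝓝 r) ∧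
    (r : ℝ) ≤ A ∧
    ((r : ℝ) = A → ∃ C : ℝ, ∀ U : ℝ, 1 ≤ U → ∫ u in Ioc 1 U, |st N α u - r * Real.log u| ≤ C * U) := by
  obtain ⟨K₀, hK₀, hb⟩ := st_bound E (σ := 1) (by norm_num)
  have hconv := sys_conv_upper E hH hHe (exp_of_log h)
  have hn := sys_near E hH hHe hr hconv
  refine ⟨hconv, mean_of_upper (st_meas E) hK₀ zero_le_one (fun u _ => hb u) hconv hn h,
    exponent_le (st_meas E) hK₀ zero_le_one (fun u _ => hb u) hconv hn h, fun e => ?_⟩
  rw [← e] at h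
  exact l1_of_upper (st_meas E) hK₀ zero_le_one (fun u _ => hb u) hconv hn h

theorem sys_lower (E : Sys N α) {H : ℂ → ℂ} (hH : ∀ x : ℝ, 0 < x → AnalyticAt ℂ H x)
    (hHe : ∀ x : ℝ, 1 / 2 < x → H x = LE N α x) (hne : ∀ x : ℝ, 0 < x → H x ≠ 0) {r : ℕ}
    (hr : OrdZero H r) {A : ℝ}
    (h : ∃ C : ℝ, ∀ᶠ u in atTop, A * Real.log u - C ≤ st N α u) :
    (∀ w > 0, LInt (st N α) w) ∧
    Tendsto (fun U : ℝ => (∫ u in Ioc 0 U, st N α u) / (U * Real.log U)) atTop (𝓝 r) ∧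
    A ≤ (r : ℝ) ∧
    ((r : ℝ) = A → ∃ C : ℝ, ∀ U : ℝ, 1 ≤ U → ∫ u in Ioc 1 U, |st N α u - r * Real.log u| ≤ C * U) := by
  obtain ⟨K₀, hK₀, hb⟩ := st_bound E (σ := 1) (by norm_num)
  have h' : ∃ C : ℝ, ∀ᶠ u in atTop, -st N α u ≤ -A * Real.log u + C := by
    obtain ⟨C, hC⟩ := h
    exact ⟨C, hC.mono fun u hu => by linarith⟩
  have hconv := sys_conv_lower E hH hHe hne (exp_of_log (a := fun t => -st N α t) h')
  have hn := sys_near_neg E hH hHe hr hconv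
  have hb' : ∀ u, 0 < u → |-st N α u| ≤ K₀ * Real.exp (1 * u) := fun u _ => by
    rw [abs_neg]
    exact hb u
  have hconv' : ∀ w > 0, LInt (fun t => -st N α t) w := fun w hw => (hconv w hw).neg
  refine ⟨hconv, ?_, ?_, fun e => ?_⟩
  · have h1 := (mean_of_upper (a := fun t => -st N α t) (st_meas E).neg hK₀ zero_le_one hb' hconv'
      hn h').neg
    rw [neg_neg] at h1
    refine h1.congr fun U => ?_
    rw [integral_neg, neg_div, neg_neg]
  · have := exponent_le (a := fun t => -st N α t) (st_meas E).neg hK₀ zero_le_one hb' hconv' hn h'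
    linarith
  · have h2 : ∃ C : ℝ, ∀ᶠ u in atTop, -st N α u ≤ (-r : ℝ) * Real.log u + C := by
      rw [e]
      exact h'
    obtain ⟨C, hC⟩ := l1_of_upper (a := fun t => -st N α t) (st_meas E).neg hK₀ zero_le_one hb'
      hconv' hn h2
    refine ⟨C, fun U hU => ?_⟩
    have h3 := hC U hU
    have e1 : (fun u => |-st N α u - (-r : ℝ) * Real.log u|) =
        fun u => |st N α u - r * Real.log u| := by
      funext u
      rw [← abs_neg]
      congr 1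
      ring
    rwa [e1] at h3

/-- the order of vanishing is finite -/
theorem order_nat (E : Sys N α) {H : ℂ → ℂ} (hH : ∀ x : ℝ, 0 ≤ x → AnalyticAt ℂ H x)
    (hHe : ∀ x : ℝ, 1 / 2 < x → H x = LE N α x) : ∃ r : ℕ, analyticOrderAt H 0 = r := by
  have h0 : AnalyticAt ℂ H 0 := by simpa using hH 0 le_rfl
  have hne : analyticOrderAt H 0 ≠ ⊤ := by
    intro htop
    rw [analyticOrderAt_eq_top] at htop
    have h1 : AnalyticOnNhd ℝ (fun w : ℝ => H (w : ℂ)) (Ici 0) := fun w hw => an_ofReal (hH w hw)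
    have h2 : (fun w : ℝ => H (w : ℂ)) =ᶠ[𝓝 0] 0 := by
      have h3 : Tendsto (fun w : ℝ => (w : ℂ)) (𝓝 0) (𝓝 0) := by
        have := Complex.continuous_ofReal.tendsto 0
        rwa [Complex.ofReal_zero] at this
      exact h3.eventually htop
    have h4 := h1.eqOn_zero_of_preconnected_of_eventuallyEq_zero isPreconnected_Ici
      (self_mem_Ici : (0 : ℝ) ∈ Ici 0) h2
    have h5 : H ((2 : ℝ) : ℂ) = 0 := h4 (show (0 : ℝ) ≤ 2 by norm_num)
    have h6 : (1 / 2 : ℝ) < ((2 : ℝ) : ℂ).re := by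
      rw [Complex.ofReal_re]
      norm_num
    rw [hHe 2 (by norm_num), E.LE_eq h6] at h5
    exact Complex.exp_ne_zero _ h5
  exact ⟨(analyticOrderAt H 0).toNat, (ENat.coe_toNat hne).symm⟩

theorem ordZero_of {H : ℂ → ℂ} (h0 : AnalyticAt ℂ H 0) {r : ℕ} (hr : analyticOrderAt H 0 = r) :
    OrdZero H r := by
  obtain ⟨g, hg, hg0, he⟩ := (h0.analyticOrderAt_eq_natCast).mp hr
  refine ⟨g, hg, hg0, he.mono fun z hz => ?_⟩
  rw [hz, sub_zero, smul_eq_mul]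

end Pool.Agent.V11333.Central
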