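import Pool.Agent.V11333.Central2

/-!
# The radial order at the centre
-/

set_option autoImplicit false

namespace Pool.Agent.V11333.Central

open MeasureTheory Filter Topology Set
open Pool.Agent.W263.BSD
open Pool.Agent.TH942.ES
open Pool.Agent.V11333.OneSide (DataLoc st st_bound st_meas data_upper data_lower)

variable {a : ℝ → ℝ} {Φ G : ℂ → ℂ} {c0 : ℝ}

/-- the radial order of `Φ` at `0` is `κ` -/
def RO (Φ : ℂ → ℂ) (κ : ℝ) : Prop :=
  ∃ c C : ℝ, 0 < c ∧ ∀ᶠ w : ℝ in 𝓝[>] 0, c * w ^ κ ≤ ‖Φ w‖ ∧ ‖Φ w‖ ≤ C * w ^ κ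

theorem near' (D : DataLoc 0 a Φ G c0)
    (hGb : ∃ C : ℝ, ∀ᶠ w : ℝ in 𝓝[>] 0, |(G w).re| ≤ C) {κ : ℝ} (hr : RO Φ κ)
    (hconv : ∀ w > 0, LInt a w) :
    ∃ C : ℝ, ∀ᶠ w : ℝ in 𝓝[>] 0, |w * lap a w - κ * (-Real.log w)| ≤ C := by
  obtain ⟨B, hB⟩ := hGb
  obtain ⟨c, C, hc, h⟩ := hr
  refine ⟨B + (|Real.log c| + |Real.log C|), ?_⟩
  filter_upwards [hB, h, self_mem_nhdsWithin] with w h3 h4 h5
  have hw : (0 : ℝ) < w := h5
  rw [D.norm_eq le_rfl hconv hw] at h4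
  have hwk : 0 < w ^ κ := Real.rpow_pos_of_pos hw κ
  have e1 : Real.log c + κ * Real.log w ≤ (G w).re - w * lap a w := by
    have := Real.log_le_log (by positivity) h4.1
    rwa [Real.log_mul hc.ne' hwk.ne', Real.log_rpow hw, Real.log_exp] at this
  have hC : 0 < C := by
    have h6 : 0 < C * w ^ κ := (Real.exp_pos _).trans_le h4.2
    exact pos_of_mul_pos_left h6 hwk.le
  have e2 : (G w).re - w * lap a w ≤ Real.log C + κ * Real.log w := by
    have := Real.log_le_log (Real.exp_pos _) h4.2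
    rwa [Real.log_mul hC.ne' hwk.ne', Real.log_rpow hw, Real.log_exp] at this
  have h6 := abs_le.mp h3
  have h7 := neg_abs_le (Real.log c)
  have h8 := le_abs_self (Real.log C)
  have h9 := abs_nonneg (Real.log c)
  have h10 := abs_nonneg (Real.log C)
  rw [abs_le]
  constructor <;> linarith

theorem ro_of_near (D : DataLoc 0 a Φ G c0)
    (hGb : ∃ C : ℝ, ∀ᶠ w : ℝ in 𝓝[>] 0, |(G w).re| ≤ C) {κ : ℝ} (hconv : ∀ w > 0, LInt a w)
    (h : ∃ C : ℝ, ∀ᶠ w : ℝ in 𝓝[>] 0, |w * lap a w - κ * (-Real.log w)| ≤ C) : RO Φ κ := by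
  obtain ⟨B, hB⟩ := hGb
  obtain ⟨C, hC⟩ := h
  refine ⟨Real.exp (-(B + C)), Real.exp (B + C), Real.exp_pos _, ?_⟩
  filter_upwards [hB, hC, self_mem_nhdsWithin] with w h3 h4 h5
  have hw : (0 : ℝ) < w := h5
  rw [D.norm_eq le_rfl hconv hw, Real.rpow_def_of_pos hw, ← Real.exp_add, ← Real.exp_add]
  have h6 := abs_le.mp h3
  have h7 := abs_le.mp h4
  constructor
  · apply Real.exp_le_exp.mpr
    linarith
  · apply Real.exp_le_exp.mpr
    linarith

/-- the Abelian direction -/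
theorem near_of_exact {κ K₀ x₀ : ℝ} (ham : Measurable a) (hK₀ : 0 ≤ K₀) (hx₀ : 0 ≤ x₀)
    (hloc : ∀ u, 0 < u → |a u| ≤ K₀ * Real.exp (x₀ * u)) (hconv : ∀ w > 0, LInt a w)
    (h : ∃ C : ℝ, ∀ᶠ u in atTop, |a u - κ * Real.log u| ≤ C) :
    ∃ C : ℝ, ∀ᶠ w : ℝ in 𝓝[>] 0, |w * lap a w - κ * (-Real.log w)| ≤ C := by
  obtain ⟨C, hC⟩ := h
  obtain ⟨M1, hM1, h1⟩ := upper_all hK₀ hx₀ hloc ⟨C, hC.mono fun u hu => by
    have := (abs_le.mp hu).2
    linarith⟩
  obtain ⟨M2, hM2, h2⟩ := upper_all (a := fun u => -a u) (κ := -κ) hK₀ hx₀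
    (fun u hu => by rw [abs_neg]; exact hloc u hu) ⟨C, hC.mono fun u hu => by
    have := (abs_le.mp hu).1
    linarith⟩
  set M := max M1 M2 with hM
  refine ⟨M + |κ| * (Real.exp 1 + |ck 0|), ?_⟩
  filter_upwards [Ioo_mem_nhdsGT (show (0 : ℝ) < 1 by norm_num)] with w h6
  have hw : (0 : ℝ) < w := h6.1
  have e2 := pl_lap_le 0 hw h6.2.le
  have e3 := le_pl_lap 0 hw
  rw [pl_zero] at e2 e3
  norm_num at e2 e3
  have hfi : LInt (fun u => a u - κ * ell u) w := (hconv w hw).sub ((ell_LInt hw).const_mul _)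
  have hex : ∀ u, ex 0 u = 1 := fun u => by simp [ex]
  have hMi : LInt (fun u => M * ex 0 u) w := (ex_LInt hw).const_mul _
  have hMi' : LInt (fun u => -M * ex 0 u) w := (ex_LInt hw).const_mul _
  have k1 : lap (fun u => a u - κ * ell u) w ≤ M * (1 / w) := by
    have := lap_mono hfi hMi fun u hu => by
      have := h1 u hu
      have := le_max_left M1 M2
      simp only [hex]
      linarith
    rwa [lap_const_mul, ex_lap hw, sub_zero] at this
  have k2 : -M * (1 / w) ≤ lap (fun u => a u - κ * ell u) w := by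
    have := lap_mono hMi' hfi fun u hu => by
      have := h2 u hu
      have := le_max_right M1 M2
      simp only [hex]
      linarith
    rwa [lap_const_mul, ex_lap hw, sub_zero] at this
  have k3 : |w * lap (fun u => a u - κ * ell u) w| ≤ M := by
    have l1 := mul_le_mul_of_nonneg_left k1 hw.le
    have l2 := mul_le_mul_of_nonneg_left k2 hw.le
    have l3 : w * (M * (1 / w)) = M := by field_simp
    have l4 : w * (-M * (1 / w)) = -M := by field_simp
    rw [l3] at l1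
    rw [l4] at l2
    exact abs_le.mpr ⟨l2, l1⟩
  rw [lap_sub (hconv w hw) ((ell_LInt hw).const_mul _), lap_const_mul] at k3
  have e1 : w * lap a w - κ * (-Real.log w) =
      w * (lap a w - κ * lap ell w) + κ * (w * lap ell w - -Real.log w) := by ring
  rw [e1]
  refine (abs_add_le _ _).trans (add_le_add k3 ?_)
  rw [abs_mul]
  refine mul_le_mul_of_nonneg_left ?_ (abs_nonneg _)
  rw [abs_le]
  have := le_abs_self (ck 0)
  have := Real.exp_pos 1
  have := abs_nonneg (ck 0)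
  constructor <;> linarith

/-- meromorphic functions have their order as radial order -/
theorem ro_of_mero {H : ℂ → ℂ} {n : ℤ} (hm : MeromorphicAt H 0) (hn : meromorphicOrderAt H 0 = n) :
    RO H n := by
  obtain ⟨g, hg, hg0, he⟩ := (meromorphicOrderAt_eq_int_iff hm).1 hn
  have h0 : 0 < ‖g 0‖ := norm_pos_iff.mpr hg0
  have h1 : Tendsto (fun w : ℝ => (w : ℂ)) (𝓝[>] 0) (𝓝[≠] 0) := by
    refine tendsto_nhdsWithin_of_tendsto_nhds_of_eventually_within _ ?_ ?_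
    · have := Complex.continuous_ofReal.tendsto 0
      rw [Complex.ofReal_zero] at this
      exact tendsto_nhdsWithin_of_tendsto_nhds this
    · filter_upwards [self_mem_nhdsWithin] with w hw
      have : (0 : ℝ) < w := hw
      exact Complex.ofReal_ne_zero.mpr this.ne'
  have h2 : Tendsto (fun w : ℝ => ‖g w‖) (𝓝[>] 0) (𝓝 ‖g 0‖) :=
    (hg.continuousAt.tendsto.comp (h1.mono_right nhdsWithin_le_nhds)).norm
  refine ⟨‖g 0‖ / 2, ‖g 0‖ * 2, by positivity, ?_⟩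
  filter_upwards [h1.eventually he, h2.eventually (lt_mem_nhds (show ‖g 0‖ / 2 < ‖g 0‖ by linarith)),
    h2.eventually (gt_mem_nhds (show ‖g 0‖ < ‖g 0‖ * 2 by linarith)), self_mem_nhdsWithin]
    with w h3 h4 h5 h6
  have hw : (0 : ℝ) < w := h6
  have hwn : 0 < w ^ n := zpow_pos hw n
  rw [h3, sub_zero, norm_smul, norm_zpow, Complex.norm_real, Real.norm_of_nonneg hw.le,
    Real.rpow_intCast]
  constructor
  · rw [mul_comm]
    exact mul_le_mul_of_nonneg_left h4.le hwn.le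
  · rw [mul_comm (‖g 0‖ * 2)]
    exact mul_le_mul_of_nonneg_left h5.le hwn.le

/-- the radial order is unique -/
theorem RO.unique {H : ℂ → ℂ} {κ κ' : ℝ} (h : RO H κ) (h' : RO H κ') : κ = κ' := by
  have key : ∀ {κ κ' : ℝ}, RO H κ → RO H κ' → κ' ≤ κ := by
    intro κ κ' h h'
    obtain ⟨c, C, hc, h1⟩ := h
    obtain ⟨c', C', hc', h2⟩ := h'
    by_contra hcon
    push Not at hcon
    -- `c w^κ ≤ C' w^κ'`, `κ < κ'`
    have h3 : Tendsto (fun w : ℝ => C' * w ^ (κ' - κ)) (𝓝[>] 0) (𝓝 0) := by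
      have h4 : Tendsto (fun w : ℝ => w ^ (κ' - κ)) (𝓝[>] 0) (𝓝 0) := by
        have := (Real.continuousAt_rpow_const 0 (κ' - κ) (Or.inr (by linarith))).tendsto
        rw [Real.zero_rpow (by linarith)] at this
        exact this.mono_left nhdsWithin_le_nhds
      simpa using h4.const_mul C'
    have h5 := h3.eventually (gt_mem_nhds hc)
    obtain ⟨w, h6, h7, h8, h9⟩ := (h5.and (h1.and (h2.and
      (self_mem_nhdsWithin : ∀ᶠ w in 𝓝[>] (0 : ℝ), w ∈ Ioi (0 : ℝ))))).exists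
    have hw : (0 : ℝ) < w := h9
    have h10 : c * w ^ κ ≤ C' * w ^ κ' := h7.1.trans h8.2
    have h11 : w ^ κ' = w ^ (κ' - κ) * w ^ κ := by
      rw [← Real.rpow_add hw]
      congr 1
      ring
    rw [h11, ← mul_assoc] at h10
    have h12 := le_of_mul_le_mul_right h10 (Real.rpow_pos_of_pos hw κ)
    linarith
  exact le_antisymm (key h' h) (key h h')

variable {X : Type} {d : ℕ} {N : X → ℕ} {α : X → Fin d → ℂ}

theorem near_neg {κ : ℝ} (h : ∃ C : ℝ, ∀ᶠ w : ℝ in 𝓝[>] 0, |w * lap a w - κ * (-Real.log w)| ≤ C) :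
    ∃ C : ℝ, ∀ᶠ w : ℝ in 𝓝[>] 0, |w * lap (fun t => -a t) w - (-κ) * (-Real.log w)| ≤ C := by
  obtain ⟨C, hC⟩ := h
  refine ⟨C, hC.mono fun w hw => ?_⟩
  rw [lap_neg', ← abs_neg]
  have e : -(w * -lap a w - (-κ) * (-Real.log w)) = w * lap a w - κ * (-Real.log w) := by ring
  rw [e]
  exact hw

/-- **The exact order and the doubling conditions**, with the radial order. -/
theorem sys_order' (E : Sys N α) {H : ℂ → ℂ} (hH : ∀ x : ℝ, 0 < x → AnalyticAt ℂ H x)
    (hHe : ∀ x : ℝ, 1 / 2 < x → H x = LE N α x) {κ : ℝ} (hr : RO H κ) {K u0 : ℝ}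
    (hK : 0 ≤ K) (hu0 : 1 ≤ u0)
    (h : (∀ u v, u0 ≤ u → u ≤ v → v ≤ 2 * u → st N α v ≤ st N α u + K) ∨
      ((∀ x : ℝ, 0 < x → H x ≠ 0) ∧
        ∀ u v, u0 ≤ u → u ≤ v → v ≤ 2 * u → st N α u ≤ st N α v + K)) :
    (∀ w > 0, LInt (st N α) w) ∧ ∃ M : ℝ, ∀ u, 0 < u → |st N α u - κ * ell u| ≤ M := by
  obtain ⟨K₀, hK₀, hb⟩ := st_bound E (σ := 1) (by norm_num)
  rcases h with h | ⟨hne, h⟩
  · have hconv := sys_conv_upper E hH hHe (exp_of_doubling hK hu0 h)
    exact ⟨hconv, order_of_upper (st_meas E) hK₀ zero_le_one (fun u _ => hb u) hconv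
      (near' (data_upper E le_rfl hH hHe) (GG_bdd E) hr hconv) hK hu0 h⟩
  · have h' : ∀ u v, u0 ≤ u → u ≤ v → v ≤ 2 * u → -st N α v ≤ -st N α u + K := fun u v h1 h2 h3 => by
      have := h u v h1 h2 h3
      linarith
    have hconv := sys_conv_lower E hH hHe hne
      (exp_of_doubling (a := fun t => -st N α t) hK hu0 h')
    refine ⟨hconv, ?_⟩
    obtain ⟨M, hM⟩ := order_of_upper (a := fun t => -st N α t) (κ := -κ) (st_meas E).neg hK₀
      zero_le_one (fun u _ => by rw [abs_neg]; exact hb u) (fun w hw => (hconv w hw).neg)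
      (near_neg (near' (data_upper E le_rfl hH hHe) (GG_bdd E) hr hconv)) hK hu0 h'
    refine ⟨M, fun u hu => ?_⟩
    have := hM u hu
    rw [← abs_neg] at this
    have e : -(-st N α u - (-κ) * ell u) = st N α u - κ * ell u := by ring
    rwa [e] at this

/-- **The exact order implies the radial order.** -/
theorem sys_exact (E : Sys N α) {H : ℂ → ℂ} (hH : ∀ x : ℝ, 0 < x → AnalyticAt ℂ H x)
    (hHe : ∀ x : ℝ, 1 / 2 < x → H x = LE N α x) {κ : ℝ}
    (h : ∃ C : ℝ, ∀ᶠ u in atTop, |st N α u - κ * Real.log u| ≤ C) :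
    (∀ w > 0, LInt (st N α) w) ∧ RO H κ := by
  obtain ⟨K₀, hK₀, hb⟩ := st_bound E (σ := 1) (by norm_num)
  have h' : ∃ C : ℝ, ∀ᶠ u in atTop, st N α u ≤ κ * Real.log u + C := by
    obtain ⟨C, hC⟩ := h
    exact ⟨C, hC.mono fun u hu => by
      have := (abs_le.mp hu).2
      linarith⟩
  have hconv := sys_conv_upper E hH hHe (exp_of_log h')
  exact ⟨hconv, ro_of_near (data_upper E le_rfl hH hHe) (GG_bdd E) hconv
    (near_of_exact (st_meas E) hK₀ zero_le_one (fun u _ => hb u) hconv h)⟩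

/-- **One-sided bounds by a power of the logarithm.** -/
theorem sys_upper' (E : Sys N α) {H : ℂ → ℂ} (hH : ∀ x : ℝ, 0 < x → AnalyticAt ℂ H x)
    (hHe : ∀ x : ℝ, 1 / 2 < x → H x = LE N α x) {A : ℝ}
    (h : ∃ C : ℝ, ∀ᶠ u in atTop, st N α u ≤ A * Real.log u + C) :
    (∀ w > 0, LInt (st N α) w) ∧ ∀ κ : ℝ, RO H κ →
    Tendsto (fun U : ℝ => (∫ u in Ioc 0 U, st N α u) / (U * Real.log U)) atTop (𝓝 κ) ∧
    κ ≤ A ∧
    (κ = A → ∃ C : ℝ, ∀ U : ℝ, 1 ≤ U → ∫ u in Ioc 1 U, |st N α u - κ * Real.log u| ≤ C * U) := by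
  obtain ⟨K₀, hK₀, hb⟩ := st_bound E (σ := 1) (by norm_num)
  have hconv := sys_conv_upper E hH hHe (exp_of_log h)
  refine ⟨hconv, fun κ hr => ?_⟩
  have hn := near' (data_upper E le_rfl hH hHe) (GG_bdd E) hr hconv
  refine ⟨mean_of_upper (st_meas E) hK₀ zero_le_one (fun u _ => hb u) hconv hn h,
    exponent_le (st_meas E) hK₀ zero_le_one (fun u _ => hb u) hconv hn h, fun e => ?_⟩
  rw [← e] at h
  exact l1_of_upper (st_meas E) hK₀ zero_le_one (fun u _ => hb u) hconv hn h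

theorem sys_lower' (E : Sys N α) {H : ℂ → ℂ} (hH : ∀ x : ℝ, 0 < x → AnalyticAt ℂ H x)
    (hHe : ∀ x : ℝ, 1 / 2 < x → H x = LE N α x) (hne : ∀ x : ℝ, 0 < x → H x ≠ 0) {A : ℝ}
    (h : ∃ C : ℝ, ∀ᶠ u in atTop, A * Real.log u - C ≤ st N α u) :
    (∀ w > 0, LInt (st N α) w) ∧ ∀ κ : ℝ, RO H κ →
    Tendsto (fun U : ℝ => (∫ u in Ioc 0 U, st N α u) / (U * Real.log U)) atTop (𝓝 κ) ∧
    A ≤ κ ∧
    (κ = A → ∃ C : ℝ, ∀ U : ℝ, 1 ≤ U → ∫ u in Ioc 1 U, |st N α u - κ * Real.log u| ≤ C * U) := by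
  obtain ⟨K₀, hK₀, hb⟩ := st_bound E (σ := 1) (by norm_num)
  have h' : ∃ C : ℝ, ∀ᶠ u in atTop, -st N α u ≤ -A * Real.log u + C := by
    obtain ⟨C, hC⟩ := h
    exact ⟨C, hC.mono fun u hu => by linarith⟩
  have hconv := sys_conv_lower E hH hHe hne (exp_of_log (a := fun t => -st N α t) h')
  refine ⟨hconv, fun κ hr => ?_⟩
  have hn := near_neg (near' (data_upper E le_rfl hH hHe) (GG_bdd E) hr hconv)
  have hb' : ∀ u, 0 < u → |-st N α u| ≤ K₀ * Real.exp (1 * u) := fun u _ => by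
    rw [abs_neg]
    exact hb u
  have hconv' : ∀ w > 0, LInt (fun t => -st N α t) w := fun w hw => (hconv w hw).neg
  refine ⟨?_, ?_, fun e => ?_⟩
  · have h1 := (mean_of_upper (a := fun t => -st N α t) (st_meas E).neg hK₀ zero_le_one hb' hconv'
      hn h').neg
    rw [neg_neg] at h1
    refine h1.congr fun U => ?_
    rw [integral_neg, neg_div, neg_neg]
  · have := exponent_le (a := fun t => -st N α t) (st_meas E).neg hK₀ zero_le_one hb' hconv' hn h'
    linarith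
  · have h2 : ∃ C : ℝ, ∀ᶠ u in atTop, -st N α u ≤ (-κ) * Real.log u + C := by
      rw [e]
      exact h'
    obtain ⟨C, hC⟩ := l1_of_upper (a := fun t => -st N α t) (st_meas E).neg hK₀ zero_le_one hb'
      hconv' hn h2
    refine ⟨C, fun U hU => ?_⟩
    have h3 := hC U hU
    have e1 : (fun u => |-st N α u - (-κ) * Real.log u|) =
        fun u => |st N α u - κ * Real.log u| := by
      funext u
      rw [← abs_neg]
      congr 1
      ring
    rwa [e1] at h3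

end Pool.Agent.V11333.Central
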