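import Mathlib
import Pool.Agent.V11333.Cond5

open MeasureTheory ProbabilityTheory Finset
open scoped ENNReal NNReal

namespace Pool.Agent.V11333.Cond

open Pool.Agent.V11333.Slab Pool.Agent.V11333.GRot

/-- `P(|g| ≥ 1)` -/
noncomputable def p0 : ℝ≥0∞ := gaussianReal 0 1 {t : ℝ | 1 ≤ |t|}

lemma p0_pos : p0 ≠ 0 := by
  intro h
  unfold p0 at h
  have h1 : gaussianReal 0 1 (Set.Ioo (1:ℝ) 2) = 0 := by
    refine measure_mono_null ?_ h
    intro t ht
    simp only [Set.mem_ofPred_eq]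
    rw [abs_of_pos (by linarith [ht.1])]
    exact ht.1.le
  rw [gaussianReal_apply 0 one_ne_zero] at h1
  rw [setLIntegral_eq_zero_iff measurableSet_Ioo (measurable_gaussianPDF 0 1)] at h1
  have h2 : volume (Set.Ioo (1:ℝ) 2) = 0 := by
    refine measure_mono_null ?_ h1
    intro t ht
    simp only [Set.mem_compl_iff, Set.mem_ofPred_eq]
    intro hh
    exact (gaussianPDF_pos 0 one_ne_zero t).ne' (hh ht)
  rw [Real.volume_Ioo] at h2
  norm_num at h2

lemma p0_le : p0 ≤ 1 := prob_le_one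

lemma dir_bound {n : ℕ} (A : Matrix (Fin n) (Fin n) ℝ) {x : ℝ} (hx : 0 < x)
    (h : A.det = 0 ∨ x ≤ nrm A * nrm A⁻¹) :
    p0 ≤ gv (Fin n) {z | (x/2) * |A.det| ≤ nrm A * en (A.adjugate.mulVec z)} := by
  by_cases hd : A.det = 0
  · have : {z : Fin n → ℝ | (x/2) * |A.det| ≤ nrm A * en (A.adjugate.mulVec z)} = Set.univ := by
      ext z
      simp only [Set.mem_ofPred_eq, Set.mem_univ, iff_true, hd, abs_zero, mul_zero]
      exact mul_nonneg (nrm_nonneg _) (en_nonneg _)
    rw [this, measure_univ]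
    exact p0_le
  · have hx2 : x ≤ nrm A * nrm A⁻¹ := by
      rcases h with h | h
      · exact absurd h hd
      · exact h
    have hL : 0 < nrm A⁻¹ := by
      rcases (nrm_nonneg A⁻¹).lt_or_eq with h | h
      · exact h
      · rw [← h, mul_zero] at hx2; linarith
    set L := nrm A⁻¹ with hLdef
    obtain ⟨y, hy1, hy2⟩ := (Matrix.toEuclideanCLM (𝕜 := ℝ) A⁻¹).exists_lt_apply_of_lt_opNorm
      (show L / 2 < ‖Matrix.toEuclideanCLM (𝕜 := ℝ) A⁻¹‖ by
        change L / 2 < L; linarith)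
    set yy : Fin n → ℝ := fun j => y j with hyy
    have hyy1 : en yy ^ 2 ≤ 1 := by
      have := EuclideanSpace.real_norm_sq_eq y
      rw [en_sq, hyy]
      simp only
      rw [← this]
      nlinarith [norm_nonneg y]
    set u : Fin n → ℝ := A⁻¹.mulVec yy with hu
    have hNL : L / 2 < en u := by
      have h1 := nrm_apply A⁻¹ y
      have h2 : ‖Matrix.toEuclideanCLM (𝕜 := ℝ) A⁻¹ y‖ ^ 2 = en u ^ 2 := by
        rw [h1, en_sq]
        rfl
      have h3 : L / 2 * (L / 2) < en u ^ 2 := by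
        rw [← h2]
        nlinarith
      nlinarith [en_nonneg u]
    set N := en u with hN
    have hNpos : 0 < N := by linarith
    set w : Fin n → ℝ := fun i => u i / N with hw
    have hw1 : ∑ i, w i ^ 2 = 1 := by
      simp only [hw, div_pow]
      rw [← Finset.sum_div, ← en_sq, ← hN]
      field_simp
    set r : Fin n → ℝ := fun j => ∑ i, w i * A⁻¹ i j with hr
    have hrz : ∀ z : Fin n → ℝ, ∑ j, r j * z j = ∑ i, w i * (A⁻¹.mulVec z) i := by
      intro z
      simp only [hr, Matrix.mulVec, dotProduct, Finset.sum_mul, Finset.mul_sum]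
      rw [Finset.sum_comm]
      apply Finset.sum_congr rfl
      intro i _
      apply Finset.sum_congr rfl
      intro j _
      ring
    have hry : ∑ j, r j * yy j = N := by
      rw [hrz yy, ← hu]
      have : ∑ i, w i * u i = (∑ i, u i ^ 2) / N := by
        rw [Finset.sum_div]
        apply Finset.sum_congr rfl
        intro i _
        simp only [hw]
        ring
      rw [this, ← en_sq, ← hN]
      field_simp
    have hcs := Finset.sum_mul_sq_le_sq_mul_sq univ r yy
    rw [hry, ← en_sq, ← en_sq] at hcs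
    have hrN : N ≤ en r := by
      have : N ^ 2 ≤ en r ^ 2 := by nlinarith [sq_nonneg (en r)]
      exact abs_le_of_sq_le_sq' this (en_nonneg r) |>.2
    have hrpos : 0 < en r := by linarith
    set ρ := en r with hρ
    have hunit : ∑ j, (r j / ρ) ^ 2 = 1 := by
      simp only [div_pow]
      rw [← Finset.sum_div, ← en_sq, ← hρ]
      field_simp
    have hlaw := law_lin (1 : ℝ≥0) (fun j => r j / ρ) hunit
    have hmeas : Measurable (fun a : Fin n → ℝ => ∑ j, r j / ρ * a j) := by fun_prop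
    have hp0 : p0 = gv (Fin n) ((fun a : Fin n → ℝ => ∑ j, r j / ρ * a j) ⁻¹' {t : ℝ | 1 ≤ |t|}) := by
      rw [← Measure.map_apply hmeas (measurableSet_le (by fun_prop) (by fun_prop)), hlaw]
      rfl
    rw [hp0]
    apply measure_mono
    intro z hz
    simp only [Set.mem_preimage, Set.mem_ofPred_eq] at hz ⊢
    have e1 : ∑ j, r j / ρ * z j = (∑ j, r j * z j) / ρ := by
      rw [Finset.sum_div]
      apply Finset.sum_congr rfl
      intro j _
      ring
    rw [e1, abs_div, abs_of_pos hrpos, le_div_iff₀ hrpos, one_mul] at hz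
    have hcs2 := Finset.sum_mul_sq_le_sq_mul_sq univ w (A⁻¹.mulVec z)
    rw [← hrz, hw1, one_mul, ← en_sq] at hcs2
    have h4 : |∑ j, r j * z j| ≤ en (A⁻¹.mulVec z) := by
      apply abs_le_of_sq_le_sq hcs2 (en_nonneg _)
    have h5 : A.adjugate.mulVec z = A.det • A⁻¹.mulVec z := by
      rw [Matrix.inv_def, Matrix.smul_mulVec, smul_smul, Ring.mul_inverse_cancel _ (Ne.isUnit hd),
        one_smul]
    rw [h5, en_smul]
    have h6 : L / 2 ≤ en (A⁻¹.mulVec z) := by linarith
    have h7 : x / 2 ≤ nrm A * (L / 2) := by linarith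
    have h8 : nrm A * (L / 2) ≤ nrm A * en (A⁻¹.mulVec z) :=
      mul_le_mul_of_nonneg_left h6 (nrm_nonneg _)
    have h9 : (x / 2) * |A.det| ≤ (nrm A * en (A⁻¹.mulVec z)) * |A.det| :=
      mul_le_mul_of_nonneg_right (h7.trans h8) (abs_nonneg _)
    linarith

lemma sq_exp : ∫⁻ t, ENNReal.ofReal (t ^ 2) ∂(gaussianReal 0 1) ≤ ENNReal.ofReal 6 := by
  calc ∫⁻ t, ENNReal.ofReal (t ^ 2) ∂(gaussianReal 0 1)
      ≤ ∫⁻ t, ENNReal.ofReal 4 * ENNReal.ofReal (Real.exp (t ^ 2 / 4)) ∂(gaussianReal 0 1) := by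
        apply lintegral_mono
        intro t
        simp only
        rw [← ENNReal.ofReal_mul (by norm_num)]
        apply ENNReal.ofReal_le_ofReal
        have := Real.add_one_le_exp (t ^ 2 / 4)
        linarith
    _ = ENNReal.ofReal 4 * ENNReal.ofReal (Real.sqrt 2) := by
        rw [lintegral_const_mul' _ _ ENNReal.ofReal_ne_top, exp_sq_gauss]
    _ ≤ _ := by
        rw [← ENNReal.ofReal_mul (by norm_num)]
        apply ENNReal.ofReal_le_ofReal
        have : Real.sqrt 2 < 1.5 := by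
          rw [Real.sqrt_lt' (by norm_num)]; norm_num
        linarith

lemma en_exp {n : ℕ} (hn : 1 ≤ n) :
    ∫⁻ z, ENNReal.ofReal (en z) ∂(gv (Fin n)) ≤ ENNReal.ofReal (4 * Real.sqrt n) := by
  have hnpos : (1:ℝ) ≤ n := by exact_mod_cast hn
  have hsn : 0 < Real.sqrt n := Real.sqrt_pos.mpr (by linarith)
  have hsn2 : Real.sqrt n ^ 2 = n := Real.sq_sqrt (by linarith)
  have hsq : ∫⁻ z, ENNReal.ofReal (en z ^ 2) ∂(gv (Fin n)) ≤ ENNReal.ofReal (6 * n) := by
    have e : ∀ z : Fin n → ℝ, ENNReal.ofReal (en z ^ 2) = ∑ j, ENNReal.ofReal (z j ^ 2) := by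
      intro z
      rw [en_sq, ENNReal.ofReal_sum_of_nonneg (fun j _ => sq_nonneg _)]
    simp_rw [e]
    rw [lintegral_finsetSum _ (fun j _ => by fun_prop)]
    calc ∑ j, ∫⁻ z, ENNReal.ofReal (z j ^ 2) ∂(gv (Fin n))
        = ∑ _j : Fin n, ∫⁻ t, ENNReal.ofReal (t ^ 2) ∂(gaussianReal 0 1) := by
          apply Finset.sum_congr rfl
          intro j _
          exact (measurePreserving_eval (fun _ : Fin n => gaussianReal 0 1) j).lintegral_comp
            (f := fun t => ENNReal.ofReal (t ^ 2)) (by fun_prop)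
      _ ≤ ∑ _j : Fin n, ENNReal.ofReal 6 := Finset.sum_le_sum (fun _ _ => sq_exp)
      _ = _ := by
          rw [Finset.sum_const, Finset.card_univ, Fintype.card_fin, nsmul_eq_mul,
            ← ENNReal.ofReal_natCast, ← ENNReal.ofReal_mul (by positivity), mul_comm]
  have hpt : ∀ z : Fin n → ℝ, ENNReal.ofReal (en z)
      ≤ ENNReal.ofReal (1 / 2 * Real.sqrt n) + ENNReal.ofReal (1 / (2 * Real.sqrt n)) *
        ENNReal.ofReal (en z ^ 2) := by
    intro z
    rw [← ENNReal.ofReal_mul (by positivity), ← ENNReal.ofReal_add (by positivity) (by positivity)]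
    apply ENNReal.ofReal_le_ofReal
    rw [← sub_nonneg]
    have h2 : 1 / 2 * Real.sqrt n + 1 / (2 * Real.sqrt n) * en z ^ 2
        - en z = (en z - Real.sqrt n) ^ 2 / (2 * Real.sqrt n) := by
      field_simp
      ring
    rw [h2]
    positivity
  calc ∫⁻ z, ENNReal.ofReal (en z) ∂(gv (Fin n))
      ≤ ∫⁻ z, (ENNReal.ofReal (1 / 2 * Real.sqrt n) + ENNReal.ofReal (1 / (2 * Real.sqrt n)) *
        ENNReal.ofReal (en z ^ 2)) ∂(gv (Fin n)) :=
        lintegral_mono hpt
    _ = ENNReal.ofReal (1 / 2 * Real.sqrt n) + ENNReal.ofReal (1 / (2 * Real.sqrt n)) *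
        ∫⁻ z, ENNReal.ofReal (en z ^ 2) ∂(gv (Fin n)) := by
        rw [lintegral_add_left measurable_const, lintegral_const,
          lintegral_const_mul' _ _ ENNReal.ofReal_ne_top]
        simp
    _ ≤ ENNReal.ofReal (1 / 2 * Real.sqrt n) + ENNReal.ofReal (1 / (2 * Real.sqrt n)) *
        ENNReal.ofReal (6 * n) := by
        gcongr
    _ ≤ _ := by
        rw [← ENNReal.ofReal_mul (by positivity), ← ENNReal.ofReal_add (by positivity) (by positivity)]
        apply ENNReal.ofReal_le_ofReal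
        have h3 : 1 / (2 * Real.sqrt n) * (6 * n) = 3 * Real.sqrt n := by
          rw [← hsn2]
          field_simp
          rw [Real.sqrt_sq hsn.le]
          ring
        rw [h3]
        linarith

/-- the tail bound -/
theorem cond_tail {m : ℕ} (Ab : Matrix (Fin (m+1)) (Fin (m+1)) ℝ)
    (hA : nrm Ab ≤ Real.sqrt ((m + 1 : ℕ) : ℝ)) {σ x : ℝ}
    (hσ : 0 < σ) (hσ1 : σ ≤ 1) (hx : 0 < x) :
    gmm (Fin (m+1)) (Fin (m+1)) {G | (Ab + σ • Matrix.of G).det = 0 ∨
        x ≤ nrm (Ab + σ • Matrix.of G) * nrm (Ab + σ • Matrix.of G)⁻¹}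
      ≤ ENNReal.ofReal (256 / p0.toReal * ((m + 1 : ℕ) : ℝ) / (x * σ)) := by
  set μ := gmm (Fin (m+1)) (Fin (m+1)) with hμ
  set γ := gv (Fin (m+1)) with hγ
  set E := {G : Fin (m+1) → Fin (m+1) → ℝ | (Ab + σ • Matrix.of G).det = 0 ∨
        x ≤ nrm (Ab + σ • Matrix.of G) * nrm (Ab + σ • Matrix.of G)⁻¹} with hE
  set n : ℝ := ((m + 1 : ℕ) : ℝ) with hn
  have hn0 : 0 ≤ n := Nat.cast_nonneg _
  have hT : MeasurableSet {p : (Fin (m+1) → Fin (m+1) → ℝ) × (Fin (m+1) → ℝ) |
      p.1 ∈ ev Ab σ x p.2} := (ev_closed Ab σ x).measurableSet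
  have hfm : Measurable (fun G : Fin (m+1) → Fin (m+1) → ℝ => γ {z | G ∈ ev Ab σ x z}) :=
    measurable_measure_prodMk_left hT
  have h1 : p0 * μ E ≤ ∫⁻ G, γ {z | G ∈ ev Ab σ x z} ∂μ := by
    refine le_trans ?_ (mul_meas_ge_le_lintegral₀ hfm.aemeasurable p0)
    gcongr
    intro G hG
    exact dir_bound _ hx hG
  have h2 : ∫⁻ G, γ {z | G ∈ ev Ab σ x z} ∂μ = ∫⁻ z, μ (ev Ab σ x z) ∂γ := by
    have ha := Measure.prod_apply (μ := μ) (ν := γ) hT
    have hb := Measure.prod_apply_symm (μ := μ) (ν := γ) hT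
    exact ha.symm.trans hb
  have h3 : ∫⁻ z, μ (ev Ab σ x z) ∂γ ≤ ENNReal.ofReal (256 * n / (x * σ)) := by
    calc ∫⁻ z, μ (ev Ab σ x z) ∂γ
        ≤ ∫⁻ z, ENNReal.ofReal (64 * Real.sqrt n / (x * σ)) * ENNReal.ofReal (en z) ∂γ := by
          apply lintegral_mono
          intro z
          refine (gen_bound Ab hA hσ hσ1 hx z).trans (le_of_eq ?_)
          beta_reduce
          rw [← ENNReal.ofReal_mul (by positivity)]
          congr 1
          ring
      _ = ENNReal.ofReal (64 * Real.sqrt n / (x * σ)) * ∫⁻ z, ENNReal.ofReal (en z) ∂γ :=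
          lintegral_const_mul' _ _ ENNReal.ofReal_ne_top
      _ ≤ ENNReal.ofReal (64 * Real.sqrt n / (x * σ)) * ENNReal.ofReal (4 * Real.sqrt n) := by
          gcongr
          exact en_exp (by omega)
      _ = _ := by
          rw [← ENNReal.ofReal_mul (by positivity)]
          congr 1
          have : Real.sqrt n * Real.sqrt n = n := Real.mul_self_sqrt hn0
          have h5 : 64 * Real.sqrt n / (x * σ) * (4 * Real.sqrt n)
            = 256 * (Real.sqrt n * Real.sqrt n) / (x * σ) := by ring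
          rw [h5, this]
  have h4 : p0 * μ E ≤ ENNReal.ofReal (256 * n / (x * σ)) := h1.trans (h2.le.trans h3)
  have hp0top : p0 ≠ ∞ := ne_top_of_le_ne_top ENNReal.one_ne_top p0_le
  have hp0r : 0 < p0.toReal := ENNReal.toReal_pos p0_pos hp0top
  have h6 : μ E ≤ ENNReal.ofReal (256 * n / (x * σ)) / p0 := by
    rw [ENNReal.le_div_iff_mul_le (Or.inl p0_pos) (Or.inl hp0top), mul_comm]
    exact h4
  refine h6.trans (le_of_eq ?_)
  conv_lhs => rw [← ENNReal.ofReal_toReal hp0top]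
  rw [← ENNReal.ofReal_div_of_pos hp0r]
  congr 1
  field_simp

end Pool.Agent.V11333.Cond
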