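import Mathlib

/-!
# A theorem of Lindeloef type: limits in cones from limits on the axis
-/

set_option autoImplicit false

open Filter Topology Set Complex

namespace Pool.Agent.V11333.Cone

/-- the exponential map of the strip -/
noncomputable def E (t s : ℝ) (ζ : ℂ) : ℂ := exp (-(t : ℂ) + s * ζ * I)

lemma E_arg (t s : ℝ) (ζ : ℂ) : (-(t : ℂ) + s * ζ * I).re = -t - s * ζ.im ∧
    (-(t : ℂ) + s * ζ * I).im = s * ζ.re := by
  constructor <;> simp [sub_eq_add_neg]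

lemma E_norm (t s : ℝ) (ζ : ℂ) : ‖E t s ζ‖ = Real.exp (-t - s * ζ.im) := by
  unfold E
  rw [Complex.norm_exp, (E_arg t s ζ).1]

lemma E_re (t s : ℝ) (ζ : ℂ) :
    (E t s ζ).re = Real.exp (-t - s * ζ.im) * Real.cos (s * ζ.re) := by
  unfold E
  rw [Complex.exp_re, (E_arg t s ζ).1, (E_arg t s ζ).2]

lemma E_diff (t s : ℝ) (ζ : ℂ) : DifferentiableAt ℂ (E t s) ζ := by
  unfold E
  fun_prop

lemma E_real (t s : ℝ) {ζ : ℂ} (h : ζ.re = 0) :
    E t s ζ = ((Real.exp (-t - s * ζ.im) : ℝ) : ℂ) := by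
  unfold E
  rw [Complex.ofReal_exp]
  congr 1
  apply Complex.ext
  · rw [(E_arg t s ζ).1, Complex.ofReal_re]
  · rw [(E_arg t s ζ).2, Complex.ofReal_im, h, mul_zero]

lemma cos_ge {θ s x : ℝ} (hθ : θ ≤ Real.pi) (hs : |s| ≤ θ) (hx : |x| ≤ 1) :
    Real.cos θ ≤ Real.cos (s * x) := by
  rw [← Real.cos_abs (s * x)]
  refine Real.cos_le_cos_of_nonneg_of_le_pi (abs_nonneg _) hθ ?_
  rw [abs_mul]
  calc |s| * |x| ≤ θ * 1 := mul_le_mul hs hx (abs_nonneg _) ((abs_nonneg s).trans hs)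
    _ = θ := mul_one θ

/-- the cone -/
lemma E_cone {θ t s : ℝ} {ζ : ℂ} (hθ : θ < Real.pi / 2) (hs : |s| ≤ θ) (hx0 : 0 ≤ ζ.re)
    (hx1 : ζ.re ≤ 1) : 0 < (E t s ζ).re ∧ Real.cos θ * ‖E t s ζ‖ ≤ (E t s ζ).re := by
  have hpi := Real.pi_pos
  have h1 : Real.cos θ ≤ Real.cos (s * ζ.re) := cos_ge (by linarith) hs (by
    rw [abs_of_nonneg hx0]
    exact hx1)
  have h0 : 0 < Real.cos θ := Real.cos_pos_of_mem_Ioo ⟨by
    have := (abs_nonneg s).trans hs
    linarith, hθ⟩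
  have h2 := Real.exp_pos (-t - s * ζ.im)
  rw [E_re, E_norm]
  refine ⟨mul_pos h2 (h0.trans_le h1), ?_⟩
  rw [mul_comm]
  exact mul_le_mul_of_nonneg_left h1 h2.le

lemma gauss_norm (ζ : ℂ) : ‖exp (ζ ^ 2)‖ = Real.exp (ζ.re ^ 2 - ζ.im ^ 2) := by
  rw [Complex.norm_exp]
  congr 1
  rw [sq, Complex.mul_re]
  ring

/-- **A limit on the axis is a limit in cones**, for functions of moderate growth. -/
theorem lindelof₀ {F : ℂ → ℂ} (hd : ∀ v : ℂ, 0 < v.re → DifferentiableAt ℂ F v)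
    {κ C : ℝ} (hκ : 0 < κ) (hκ1 : κ ≤ 1) (hC : 0 ≤ C)
    (hb : ∀ v : ℂ, 0 < v.re → κ / 2 * ‖v‖ ≤ v.re → ‖F v‖ ≤ C * (1 + ‖v‖))
    (hl : Tendsto (fun x : ℝ => F x) (𝓝[>] 0) (𝓝 0)) :
    Tendsto F (𝓝[{v : ℂ | 0 < v.re ∧ κ * ‖v‖ ≤ v.re}] 0) (𝓝 0) := by
  have hpi := Real.pi_pos
  set θ : ℝ := Real.arccos (κ / 2) with hθ
  have hcos : Real.cos θ = κ / 2 := Real.cos_arccos (by linarith) (by linarith)
  have hθ2 : θ < Real.pi / 2 := Real.arccos_lt_pi_div_two.2 (by linarith)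
  have hθ0 : 0 < θ := Real.arccos_pos.2 (by linarith)
  have hθ4 : θ ≤ 2 := by
    have := Real.pi_lt_four
    linarith
  set θ₁ : ℝ := Real.arccos κ with hθ₁
  have hθ₁0 : 0 ≤ θ₁ := Real.arccos_nonneg κ
  have hθ₁l : θ₁ < θ := Real.arccos_lt_arccos (by linarith) (by linarith) hκ1
  set q : ℝ := θ₁ / θ with hq
  have hq0 : 0 ≤ q := by positivity
  have hq1 : q < 1 := (div_lt_one hθ0).2 hθ₁l
  set b : ℝ := C * (Real.exp 1 * (1 + Real.exp 1)) + 1 with hb'
  have he := Real.exp_pos 1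
  have hb1 : 1 ≤ b := by
    rw [hb']
    have : 0 ≤ C * (Real.exp 1 * (1 + Real.exp 1)) := by positivity
    linarith
  have hb0 : 0 < b := by linarith
  -- global bound
  have hglob : ∀ (t s : ℝ) (ζ : ℂ), 0 ≤ t → |s| ≤ θ → 0 ≤ ζ.re → ζ.re ≤ 1 →
      ‖F (E t s ζ)‖ ≤ C * (1 + Real.exp (2 * |ζ.im|)) := by
    intro t s ζ ht hs h0 h1
    obtain ⟨e1, e2⟩ := E_cone (t := t) hθ2 hs h0 h1
    rw [hcos] at e2
    refine (hb _ e1 e2).trans (mul_le_mul_of_nonneg_left ?_ hC)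
    rw [E_norm]
    have e3 : -t - s * ζ.im ≤ 2 * |ζ.im| := by
      have e4 : -(s * ζ.im) ≤ |s * ζ.im| := neg_le_abs _
      rw [abs_mul] at e4
      have e5 : |s| * |ζ.im| ≤ 2 * |ζ.im| :=
        mul_le_mul_of_nonneg_right (hs.trans hθ4) (abs_nonneg _)
      linarith
    have := Real.exp_le_exp.2 e3
    linarith
  rw [Metric.tendsto_nhds]
  intro ε hε
  -- the level `a`
  obtain ⟨a, ha0, ha1, haε⟩ : ∃ a : ℝ, 0 < a ∧ a ≤ 1 ∧ a ^ (1 - q) * b < ε := by
    have h1 : Tendsto (fun a : ℝ => a ^ (1 - q) * b) (𝓝[>] 0) (𝓝 (0 ^ (1 - q) * b)) :=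
      ((tendsto_id.mono_left nhdsWithin_le_nhds).rpow_const (Or.inr (by linarith))).mul_const b
    rw [Real.zero_rpow (by linarith), zero_mul] at h1
    obtain ⟨a, h2, h3⟩ := ((h1.eventually (gt_mem_nhds hε)).and
      (Ioc_mem_nhdsGT (show (0 : ℝ) < 1 by norm_num))).exists
    exact ⟨a, h3.1, h3.2, h2⟩
  -- the radius `δ`
  obtain ⟨δ, hδ0, hδ⟩ : ∃ δ : ℝ, 0 < δ ∧ ∀ x : ℝ, 0 < x → x < δ → ‖F x‖ ≤ a := by
    have h1 := (Metric.tendsto_nhds.1 hl) a ha0
    rw [eventually_nhdsWithin_iff, Metric.eventually_nhds_iff] at h1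
    obtain ⟨δ, hδ, h2⟩ := h1
    refine ⟨δ, hδ, fun x hx hxδ => ?_⟩
    have h3 := h2 (y := x) (by rw [Real.dist_eq, sub_zero, abs_of_pos hx]; exact hxδ) hx
    rw [dist_zero_right] at h3
    exact h3.le
  set R : ℝ := max 3 (Real.log ((2 * C + 1) / a)) with hR
  have hR3 : 3 ≤ R := le_max_left _ _
  have hRa : 2 * C * Real.exp (-R) ≤ a := by
    have h1 : Real.exp (-R) ≤ a / (2 * C + 1) := by
      have h2 : Real.exp (Real.log ((2 * C + 1) / a)) ≤ Real.exp R :=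
        Real.exp_le_exp.2 (le_max_right _ _)
      rw [Real.exp_log (by positivity)] at h2
      rw [Real.exp_neg]
      have h3 := inv_anti₀ (by positivity) h2
      rwa [inv_div] at h3
    calc 2 * C * Real.exp (-R) ≤ 2 * C * (a / (2 * C + 1)) := by gcongr
      _ ≤ (2 * C + 1) * (a / (2 * C + 1)) := by
        refine mul_le_mul_of_nonneg_right (by linarith) (by positivity)
      _ = a := by field_simp
  set T : ℝ := max 0 (2 * R - Real.log δ) with hT
  have hT0 : 0 ≤ T := le_max_left _ _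
  -- the three lines
  have key : ∀ (t s x : ℝ), T ≤ t → |s| ≤ θ → 0 ≤ x → x ≤ q → ‖F (E t s (x : ℂ))‖ < ε := by
    intro t s x ht hs hx0 hxq
    have ht0 : 0 ≤ t := hT0.trans ht
    set f : ℂ → ℂ := fun ζ => F (E t s ζ) * exp (ζ ^ 2) with hf
    have hfd : ∀ ζ : ℂ, 0 ≤ ζ.re → ζ.re ≤ 1 → DifferentiableAt ℂ f ζ := by
      intro ζ h0 h1
      have e1 := (E_cone (t := t) hθ2 hs h0 h1).1
      have e2 : DifferentiableAt ℂ (fun ζ => F (E t s ζ)) ζ :=
        DifferentiableAt.comp (g := F) (f := E t s) ζ (hd _ e1) (E_diff t s ζ)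
      exact e2.mul (by fun_prop)
    have hfb : ∀ ζ : ℂ, 0 ≤ ζ.re → ζ.re ≤ 1 → ‖f ζ‖ ≤ b := by
      intro ζ h0 h1
      have e1 := hglob t s ζ ht0 hs h0 h1
      rw [hf]
      simp only
      rw [norm_mul, gauss_norm]
      have e2 : Real.exp (ζ.re ^ 2 - ζ.im ^ 2) ≤ Real.exp 1 * Real.exp (-ζ.im ^ 2) := by
        rw [← Real.exp_add]
        apply Real.exp_le_exp.2
        nlinarith
      have e3 : (1 + Real.exp (2 * |ζ.im|)) * Real.exp (-ζ.im ^ 2) ≤ 1 + Real.exp 1 := by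
        rw [add_mul, one_mul, ← Real.exp_add]
        have e4 : Real.exp (-ζ.im ^ 2) ≤ 1 := by
          rw [Real.exp_le_one_iff]
          nlinarith [sq_nonneg ζ.im]
        have e5 : Real.exp (2 * |ζ.im| + -ζ.im ^ 2) ≤ Real.exp 1 := by
          apply Real.exp_le_exp.2
          nlinarith [sq_nonneg (|ζ.im| - 1), sq_abs ζ.im]
        linarith
      calc ‖F (E t s ζ)‖ * Real.exp (ζ.re ^ 2 - ζ.im ^ 2)
          ≤ (C * (1 + Real.exp (2 * |ζ.im|))) * (Real.exp 1 * Real.exp (-ζ.im ^ 2)) :=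
            mul_le_mul e1 e2 (Real.exp_pos _).le (by positivity)
        _ = C * (Real.exp 1 * ((1 + Real.exp (2 * |ζ.im|)) * Real.exp (-ζ.im ^ 2))) := by ring
        _ ≤ C * (Real.exp 1 * (1 + Real.exp 1)) := by gcongr
        _ ≤ b := by rw [hb']; linarith
    have hline0 : ∀ ζ : ℂ, ζ.re = 0 → ‖f ζ‖ ≤ a := by
      intro ζ h0
      rw [hf]
      simp only
      rw [norm_mul, gauss_norm, h0]
      rcases lt_or_ge (-t - s * ζ.im) (Real.log δ) with h | h
      · have e1 : Real.exp (-t - s * ζ.im) < δ := by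
          rwa [← Real.lt_log_iff_exp_lt hδ0]
        have e2 := hδ _ (Real.exp_pos _) e1
        rw [← E_real t s h0] at e2
        have e3 : Real.exp ((0 : ℝ) ^ 2 - ζ.im ^ 2) ≤ 1 := by
          rw [Real.exp_le_one_iff]
          nlinarith [sq_nonneg ζ.im]
        calc ‖F (E t s ζ)‖ * Real.exp ((0 : ℝ) ^ 2 - ζ.im ^ 2) ≤ a * 1 :=
              mul_le_mul e2 e3 (Real.exp_pos _).le ha0.le
          _ = a := mul_one a
      · have e1 : 2 * R - Real.log δ ≤ t := (le_max_right _ _).trans ht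
        have e2 : R ≤ |ζ.im| := by
          have e4 : -(s * ζ.im) ≤ |s * ζ.im| := neg_le_abs _
          rw [abs_mul] at e4
          have e5 : |s| * |ζ.im| ≤ 2 * |ζ.im| :=
            mul_le_mul_of_nonneg_right (hs.trans hθ4) (abs_nonneg _)
          linarith
        have e3 := hglob t s ζ ht0 hs h0.ge (by rw [h0]; norm_num)
        have e6 : (1 + Real.exp (2 * |ζ.im|)) * Real.exp ((0 : ℝ) ^ 2 - ζ.im ^ 2) ≤
            2 * Real.exp (-R) := by
          have e7 : (1 : ℝ) ≤ Real.exp (2 * |ζ.im|) := Real.one_le_exp (by positivity)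
          calc (1 + Real.exp (2 * |ζ.im|)) * Real.exp ((0 : ℝ) ^ 2 - ζ.im ^ 2)
              ≤ (2 * Real.exp (2 * |ζ.im|)) * Real.exp ((0 : ℝ) ^ 2 - ζ.im ^ 2) := by
                gcongr
                linarith
            _ = 2 * Real.exp (2 * |ζ.im| - |ζ.im| ^ 2) := by
                rw [mul_assoc, ← Real.exp_add, sq_abs]
                congr 2
                ring
            _ ≤ 2 * Real.exp (-R) := by
                gcongr
                nlinarith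
        calc ‖F (E t s ζ)‖ * Real.exp ((0 : ℝ) ^ 2 - ζ.im ^ 2)
            ≤ (C * (1 + Real.exp (2 * |ζ.im|))) * Real.exp ((0 : ℝ) ^ 2 - ζ.im ^ 2) :=
              mul_le_mul_of_nonneg_right e3 (Real.exp_pos _).le
          _ = C * ((1 + Real.exp (2 * |ζ.im|)) * Real.exp ((0 : ℝ) ^ 2 - ζ.im ^ 2)) := by ring
          _ ≤ C * (2 * Real.exp (-R)) := by gcongr
          _ = 2 * C * Real.exp (-R) := by ring
          _ ≤ a := hRa
    have hx1 : x ≤ 1 := hxq.trans hq1.le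
    have hz : (x : ℂ) ∈ HadamardThreeLines.verticalClosedStrip 0 1 := by
      simp only [HadamardThreeLines.verticalClosedStrip, mem_preimage, Complex.ofReal_re]
      exact ⟨hx0, hx1⟩
    have h3 := HadamardThreeLines.norm_le_interp_of_mem_verticalClosedStrip₀₁' f (a := a) (b := b)
      hz ?_ ?_ ?_ ?_
    · rw [Complex.ofReal_re] at h3
      have h4 : ‖F (E t s (x : ℂ))‖ ≤ ‖f (x : ℂ)‖ := by
        rw [hf]
        simp only
        rw [norm_mul, gauss_norm, Complex.ofReal_re, Complex.ofReal_im]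
        refine le_mul_of_one_le_right (norm_nonneg _) (Real.one_le_exp ?_)
        nlinarith [sq_nonneg x]
      have h5 : a ^ (1 - x) ≤ a ^ (1 - q) :=
        Real.rpow_le_rpow_of_exponent_ge ha0 ha1 (by linarith)
      have h6 : b ^ x ≤ b := by
        calc b ^ x ≤ b ^ (1 : ℝ) := Real.rpow_le_rpow_of_exponent_le hb1 hx1
          _ = b := Real.rpow_one b
      calc ‖F (E t s (x : ℂ))‖ ≤ a ^ (1 - x) * b ^ x := h4.trans h3
        _ ≤ a ^ (1 - q) * b := mul_le_mul h5 h6 (by positivity) (by positivity)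
        _ < ε := haε
    · refine ⟨fun ζ hζ => ?_, fun ζ hζ => ?_⟩
      · exact (hfd ζ hζ.1.le hζ.2.le).differentiableWithinAt
      · have hcl : closure (HadamardThreeLines.verticalStrip 0 1) ⊆
            HadamardThreeLines.verticalClosedStrip 0 1 := by
          refine closure_minimal ?_ ?_
          · intro z hz
            exact ⟨hz.1.le, hz.2.le⟩
          · exact isClosed_Icc.preimage Complex.continuous_re
        have := hcl hζ
        exact (hfd ζ this.1 this.2).continuousAt.continuousWithinAt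
    · refine ⟨b, ?_⟩
      rintro _ ⟨ζ, hζ, rfl⟩
      exact hfb ζ hζ.1 hζ.2
    · intro ζ hζ
      exact hline0 ζ hζ
    · intro ζ hζ
      have : ζ.re = 1 := hζ
      exact hfb ζ (by rw [this]; norm_num) this.le
  -- conclusion
  have hnear : ∀ᶠ v : ℂ in 𝓝 0, ‖v‖ < Real.exp (-T) := by
    have h1 : Tendsto (fun v : ℂ => ‖v‖) (𝓝 0) (𝓝 ‖(0 : ℂ)‖) := continuous_norm.tendsto 0
    rw [norm_zero] at h1
    exact h1.eventually (gt_mem_nhds (Real.exp_pos _))
  filter_upwards [nhdsWithin_le_nhds hnear, self_mem_nhdsWithin] with v h1 h2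
  rw [dist_zero_right]
  have hv0 : v ≠ 0 := by
    rintro rfl
    simp at h2
  have hn : 0 < ‖v‖ := norm_pos_iff.2 hv0
  have ht : T ≤ -Real.log ‖v‖ := by
    have := Real.log_le_log hn h1.le
    rw [Real.log_exp] at this
    linarith
  have harg : |arg v| ≤ θ₁ := by
    have h3 : κ ≤ Real.cos (arg v) := by
      rw [Complex.cos_arg hv0, le_div_iff₀ hn]
      exact h2.2
    rw [← Real.cos_abs] at h3
    have h4 : Real.arccos (Real.cos |arg v|) = |arg v| :=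
      Real.arccos_cos (abs_nonneg _) (Complex.abs_arg_le_pi v)
    rw [← h4]
    exact Real.arccos_le_arccos h3
  have hx : |arg v| / θ ≤ q := by
    rw [hq]
    gcongr
  obtain ⟨s, hs, hs2⟩ : ∃ s : ℝ, |s| ≤ θ ∧ s * (|arg v| / θ) = arg v := by
    rcases le_total 0 (arg v) with h | h
    · refine ⟨θ, (abs_of_pos hθ0).le, ?_⟩
      rw [abs_of_nonneg h]
      field_simp
    · refine ⟨-θ, by rw [abs_neg, abs_of_pos hθ0], ?_⟩
      rw [abs_of_nonpos h]
      field_simp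
  have h5 := key (-Real.log ‖v‖) s (|arg v| / θ) ht hs (by positivity) hx
  have h6 : E (-Real.log ‖v‖) s ((|arg v| / θ : ℝ) : ℂ) = v := by
    unfold E
    rw [← Complex.ofReal_mul, hs2, ← Complex.ofReal_neg, neg_neg]
    exact Complex.exp_log hv0
  rwa [h6] at h5

/-- **A limit on the axis is a limit in cones.** -/
theorem lindelof {F : ℂ → ℂ} (hd : ∀ v : ℂ, 0 < v.re → DifferentiableAt ℂ F v)
    (hb : ∀ κ : ℝ, 0 < κ → ∃ C : ℝ, ∀ v : ℂ, 0 < v.re → κ * ‖v‖ ≤ v.re →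
      ‖F v‖ ≤ C * (1 + ‖v‖)) {L : ℂ}
    (hl : Tendsto (fun x : ℝ => F x) (𝓝[>] 0) (𝓝 L)) {κ : ℝ} (hκ : 0 < κ) :
    Tendsto F (𝓝[{v : ℂ | 0 < v.re ∧ κ * ‖v‖ ≤ v.re}] 0) (𝓝 L) := by
  set κ' : ℝ := min κ 1 with hκ'
  have h0 : 0 < κ' := lt_min hκ one_pos
  obtain ⟨C, hC⟩ := hb (κ' / 2) (by positivity)
  have h1 := lindelof₀ (F := fun v => F v - L) (κ := κ') (C := |C| + ‖L‖)
    (fun v hv => (hd v hv).sub_const L) h0 (min_le_right _ _) (by positivity)
    (fun v hv hv2 => by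
      have e1 := hC v hv hv2
      have e2 : C * (1 + ‖v‖) ≤ |C| * (1 + ‖v‖) :=
        mul_le_mul_of_nonneg_right (le_abs_self C) (by positivity)
      have e3 : ‖L‖ ≤ ‖L‖ * (1 + ‖v‖) := by
        have := mul_nonneg (norm_nonneg L) (norm_nonneg v)
        linarith
      calc ‖F v - L‖ ≤ ‖F v‖ + ‖L‖ := norm_sub_le _ _
        _ ≤ (|C| + ‖L‖) * (1 + ‖v‖) := by rw [add_mul]; linarith)
    (by
      have := hl.sub_const L
      rwa [sub_self] at this)
  have h2 := h1.add_const L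
  rw [zero_add] at h2
  refine (h2.congr fun v => by rw [sub_add_cancel]).mono_left (nhdsWithin_mono 0 ?_)
  rintro v ⟨h3, h4⟩
  exact ⟨h3, (mul_le_mul_of_nonneg_right (min_le_left _ _) (norm_nonneg v)).trans h4⟩

end Pool.Agent.V11333.Cone
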