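import Pool.Agent.V11333.Cone8

/-!
# One-sided bounds and the value at the central point
-/

set_option autoImplicit false

open Filter Topology Set NumberField IsDedekindDomain
open Pool.Agent.TH942.ES
open Pool.Agent.V11333.Cone
open Pool.Agent.H921R2.TatePole (nm)
open Pool.Agent.V11333.PR (ctr nal factor Pure)
open Pool.Agent.V11333.OneSide (an_ofReal)

namespace Pool.Agent.V11333.CP

/-- the Euler product is positive on the real axis -/
theorem LE_pos {X : Type} {d : ℕ} {N : X → ℕ} {α : X → Fin d → ℂ} (E : Sys N α)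
    (hreal : ∀ v k, (∑ i, zv N α v i ^ k).im = 0) {x : ℝ} (hx : 1 / 2 < x) :
    ∃ t : ℝ, 0 < t ∧ LE N α x = t := by
  have := E.cnt
  obtain ⟨e, he⟩ := Countable.exists_injective_nat (X × ℕ)
  have h1 := (E.exp_DD hreal he (s := (x : ℂ)) (by rwa [Complex.ofReal_re])).symm
  rw [h1, DD_real, ← Complex.ofReal_exp]
  exact ⟨_, Real.exp_pos _, rfl⟩

variable {K : Type} [Field K] [NumberField K] {N : ℕ}
variable {S : Set (HeightOneSpectrum (𝓞 K))}
variable {w : ℝ} {α : S → Fin N → ℂ}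

/-- positivity of the value -/
theorem value_pos (h : Pure w α) {ρ₀ : ℝ} (hρ₀ : 1 ≤ ρ₀) {F : ℂ → ℂ}
    (hF : IsRealContinuation (ctr w) (w + 1) α F) (hz : ZeroFree (ctr w) (w + 1) α ρ₀)
    (h0 : F (ctr w) ≠ 0) : ∃ A : ℝ, 0 < A ∧ F (ctr w) = A := by
  have E := PR.sys h
  obtain ⟨G, q1, q2⟩ := (zeroFree_iff h ρ₀).1 hz
  set H : ℂ → ℂ := fun s => F (s + ctr w) with hH
  have hHa : ∀ x : ℝ, 0 ≤ x → AnalyticAt ℂ H x := fun x hx =>
    an_shift (c := 0) (hF.1 _ (by linarith))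
  have hHe : ∀ x : ℝ, 1 / 2 < x → H x = LE (fun v : S => nm v.1) (nal w α) x := fun x hx => by
    have h4 := hF.2 (x + ctr w) (by unfold ctr; linarith)
    rw [PR.hasProd_iff h (by rw [Complex.ofReal_re]; unfold ctr; linarith)] at h4
    rw [hH]
    simp only
    rw [← Complex.ofReal_add, h4, Complex.ofReal_add, add_sub_cancel_right]
  have hGan : ∀ x : ℝ, 0 < x → AnalyticAt ℂ G x := fun x hx => by
    have h1 : DifferentiableOn ℂ G (Pool.Agent.TH942.SL.Sect ρ₀) := fun z hz =>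
      (q1 z (Or.inl hz)).1.differentiableWithinAt
    exact h1.analyticAt ((sect_open' hρ₀).mem_nhds (sect_real' hρ₀ hx))
  have hGH : ∀ x : ℝ, 0 < x → G x = H x := by
    have a1 : AnalyticOnNhd ℝ (fun x : ℝ => G x) (Ioi 0) := fun x hx => an_ofReal (hGan x hx)
    have a2 : AnalyticOnNhd ℝ (fun x : ℝ => H x) (Ioi 0) := fun x hx =>
      an_ofReal (hHa x (le_of_lt hx))
    have a3 := a1.eqOn_of_preconnected_of_eventuallyEq a2 isPreconnected_Ioi
      (Set.mem_Ioi.2 (one_pos : (0 : ℝ) < 1)) (by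
        filter_upwards [lt_mem_nhds (show (1 / 2 : ℝ) < 1 by norm_num)] with x hx
        rw [hHe x hx, q2 _ (by rwa [Complex.ofReal_re])])
    exact fun x hx => a3 hx
  have hHpos : ∀ x : ℝ, 0 < x → ∃ t : ℝ, 0 < t ∧ H x = t := by
    refine real_pos (fun x hx => ⟨hHa x hx.le, ?_⟩) fun x hx => ?_
    · rw [← hGH x hx]
      exact (q1 _ (Or.inl (sect_real' hρ₀ hx))).2
    · rw [hHe x hx]
      exact LE_pos E (hreal h) hx
  have e0 : H 0 = F (ctr w) := by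
    rw [hH]
    simp only [zero_add]
  obtain ⟨A, hA, hA0⟩ := lead_pos (H := H) (h := H) (m := 0) hHpos (by
    have := hHa 0 le_rfl
    rwa [Complex.ofReal_zero] at this) (by rwa [e0]) (Eventually.of_forall fun s => by
    rw [pow_zero, one_mul])
  exact ⟨A, hA, by rw [← e0, hA0]⟩

/-- **One-sided bounds and the value.** -/
theorem value_main (h : Pure w α) {c σ : ℝ} (hc : c = w + 1 / 2) (hσ : σ = w + 1) {ρ₀ : ℝ}
    (hρ₀ : 1 ≤ ρ₀) {F : ℂ → ℂ} (hF : IsRealContinuation c σ α F) :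
    ((F c ≠ 0 ∧ ZeroFree c σ α ρ₀) ↔ LowerR c α ρ₀ 0) ∧
    (LowerR c α ρ₀ 0 ↔ ∃ t : ℝ, t < 1 ∧ LowerR c α ρ₀ t) ∧
    (LowerR c α ρ₀ 0 ↔ ∃ A : ℝ, 0 < A ∧ F c = A ∧ Limits c α ρ₀ 0 A) := by
  have hFc : AnalyticAt ℂ F (c : ℂ) := hF.1 c le_rfl
  have h1 : (F c ≠ 0 ∧ ZeroFree c σ α ρ₀) ↔ LowerR c α ρ₀ 0 := by
    rw [order_main h hc hσ hρ₀ hF 0]
    refine and_congr_left fun _ => ?_
    rw [← hFc.analyticOrderAt_eq_zero]
    constructor
    · intro h2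
      exact ⟨0, by rw [h2]; rfl, by rw [Nat.cast_zero]⟩
    · rintro ⟨m, h2, h3⟩
      have h4 : (m : ℝ) = 0 := le_antisymm h3 (Nat.cast_nonneg m)
      have h5 : m = 0 := by exact_mod_cast h4
      rw [h2, h5]
      rfl
  refine ⟨h1, ⟨fun h2 => ⟨0, one_pos, h2⟩, ?_⟩, ?_, ?_⟩
  · rintro ⟨t, ht, h2⟩
    obtain ⟨⟨m, h3, h4⟩, h5⟩ := (order_main h hc hσ hρ₀ hF t).1 h2
    refine (order_main h hc hσ hρ₀ hF 0).2 ⟨⟨m, h3, ?_⟩, h5⟩
    have h6 : (m : ℝ) < ((1 : ℕ) : ℝ) := by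
      rw [Nat.cast_one]
      linarith
    have h7 : m < 1 := by exact_mod_cast h6
    have h8 : m = 0 := by omega
    rw [h8, Nat.cast_zero]
  · intro h2
    obtain ⟨h3, h4⟩ := h1.2 h2
    have h5 : ∃ A : ℝ, 0 < A ∧ F c = A := by
      subst hc hσ
      exact value_pos h hρ₀ hF h4 h3
    obtain ⟨A, hA, hA0⟩ := h5
    refine ⟨A, hA, hA0, ((main h hc hσ hρ₀ 0 hA).2.1).2 ⟨⟨F, fun x hx => hF.1 x hx.le, hF.2, ?_⟩, ?_⟩⟩
    · have hT : Tendsto (fun x : ℝ => (x : ℂ)) (𝓝[>] c) (𝓝 (c : ℂ)) :=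
        (Complex.continuous_ofReal.tendsto c).mono_left nhdsWithin_le_nhds
      have h6 := hFc.continuousAt.tendsto.comp hT
      rw [hA0] at h6
      refine h6.congr fun x => ?_
      rw [pow_zero, div_one]
      rfl
    · intro ρ ρ' hρ hρ'
      obtain ⟨C, hC⟩ := h2 ρ ρ' hρ hρ'
      refine ⟨C, hC.mono fun Y hY => ?_⟩
      rwa [Nat.cast_zero]
  · rintro ⟨A, hA, -, h2⟩ ρ ρ' hρ hρ'
    have h3 := (h2 ρ ρ' hρ hρ').eventually (lt_mem_nhds (sub_one_lt _))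
    refine ⟨-(Real.log A - ((0 : ℕ) : ℝ) * Real.eulerMascheroniConstant / ρ - 1), h3.mono fun Y hY => ?_⟩
    rw [neg_neg]
    have h4 := hY.le
    rwa [Nat.cast_zero] at h4 ⊢

end Pool.Agent.V11333.CP
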