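import Pool.Agent.V11333.OneSide1
import Pool.Agent.TH942.SL.Ext2

/-!
# The Laplace transform of the means
-/

set_option autoImplicit false

open MeasureTheory Filter Topology Set Complex
open Pool.Agent.TH942.LS (Dat P P_le Cont)
open Pool.Agent.TH942.SL
open Pool.Agent.W263.BSD (LInt lap lapC)

namespace Pool.Agent.V11333.OneSide

variable {α : ℝ} {lam c : ℕ → ℝ} {δ σ : ℝ}

/-- **The Laplace transform of the means.** -/
theorem transform (D : Dat lam c δ σ) (h0 : 0 < α) (h1 : α < 1) :
    ∃ (a : ℝ → ℝ) (K x₀ : ℝ), Measurable a ∧ 0 ≤ K ∧ 0 < x₀ ∧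
      (∀ y, 0 < y → a y = M lam c α y) ∧
      (∀ y, 0 < y → |a y| ≤ K * Real.exp (x₀ * y)) ∧
      (∀ w, x₀ < w → LInt a w) ∧
      ∀ v : ℂ, x₀ < v.re → v * lapC a v = f₀ lam c α v := by
  obtain ⟨x₀, hx1, hx₀⟩ := exists_abscissa h0 h1 σ
  obtain ⟨g, K, hK, hgc, hneg, hgpos, hgb, hinv⟩ := lines D h0 h1 hx1 hx₀
  obtain ⟨B, C, hB, hC, hfin⟩ := M_finite D h0 h1
  have hδ := D.δ0
  have hx00 : 0 < x₀ := by linarith
  set a : ℝ → ℝ := fun y => (g y).re / y with ha
  have ham : Measurable a := (Complex.measurable_re.comp hgc.measurable).div measurable_id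
  have haM : ∀ y, 0 < y → a y = M lam c α y := by
    intro y hy
    rw [ha]
    simp only
    rw [hgpos y hy, Complex.ofReal_re]
    field_simp
  have hag : ∀ y : ℝ, 0 < y → (y : ℂ) * (a y : ℂ) = g y := by
    intro y hy
    rw [haM y hy, hgpos y hy]
    push_cast
    rfl
  set K1 : ℝ := C + K * (B / δ) with hK1
  have hK10 : 0 ≤ K1 := by positivity
  have hbd : ∀ y, 0 < y → |a y| ≤ K1 * Real.exp (x₀ * y) := by
    intro y hy
    have e1 : 1 ≤ Real.exp (x₀ * y) := Real.one_le_exp (by positivity)
    rcases le_total (B * y) δ with h | h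
    · have h2 := hfin y ∅ hy (fun n _ => Or.inr (h.trans (D.lam_ge n)))
      rw [Finset.sum_empty, sub_zero] at h2
      rw [haM y hy]
      calc |M lam c α y| ≤ C := h2
        _ ≤ K1 := by
          rw [hK1]
          have : 0 ≤ K * (B / δ) := by positivity
          linarith
        _ ≤ _ := le_mul_of_one_le_right hK10 e1
    · have h2 : |a y| * y ≤ K * Real.exp (x₀ * y) := by
        have h3 := hgb y
        rw [← hag y hy, norm_mul, Complex.norm_real, Complex.norm_real, Real.norm_eq_abs,
          Real.norm_eq_abs, abs_of_pos hy] at h3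
        linarith
      have h4 : 1 ≤ B / δ * y := by
        rw [div_mul_eq_mul_div, le_div_iff₀ hδ]
        linarith
      have h5 : 0 ≤ |a y| := abs_nonneg _
      calc |a y| ≤ |a y| * (B / δ * y) := le_mul_of_one_le_right h5 h4
        _ = B / δ * (|a y| * y) := by ring
        _ ≤ B / δ * (K * Real.exp (x₀ * y)) := mul_le_mul_of_nonneg_left h2 (by positivity)
        _ = K * (B / δ) * Real.exp (x₀ * y) := by ring
        _ ≤ _ := by
          refine mul_le_mul_of_nonneg_right ?_ (Real.exp_pos _).le
          rw [hK1]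
          linarith
  have hint : ∀ w, x₀ < w → LInt a w := by
    intro w hw
    unfold LInt
    have h2 := (exp_ints (x := w - x₀) (by linarith)).1.1
    have h3 : IntegrableOn (fun y : ℝ => K1 * Real.exp (-((w - x₀) * y))) (Ioi 0) :=
      Integrable.const_mul h2 K1
    refine Integrable.mono' h3 ((ham.mul (by fun_prop)).aestronglyMeasurable) ?_
    refine (ae_restrict_iff' measurableSet_Ioi).mpr (Eventually.of_forall fun y hy => ?_)
    have hy' : 0 < y := hy
    rw [Real.norm_eq_abs, abs_mul, abs_of_pos (Real.exp_pos _)]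
    calc |a y| * Real.exp (-(w * y)) ≤ (K1 * Real.exp (x₀ * y)) * Real.exp (-(w * y)) :=
        mul_le_mul_of_nonneg_right (hbd y hy') (Real.exp_pos _).le
      _ = _ := by
        rw [mul_assoc, ← Real.exp_add]
        congr 2
        ring
  refine ⟨a, K1, x₀, ham, hK10, hx00, haM, hbd, hint, ?_⟩
  set W : Set ℂ := {v | x₀ < v.re} with hW
  have hWo : IsOpen W := isOpen_lt continuous_const Complex.continuous_re
  have hWc : Convex ℝ W := convex_halfSpace_re_gt x₀
  -- the derivative of the Laplace transform
  have hder : ∀ v ∈ W, HasDerivAt (lapC a) (-hh (f₀ lam c α) (f₁ lam c α) v) v := by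
    intro v hv
    have hv' : x₀ < v.re := hv
    set η : ℝ := (v.re - x₀) / 2 with hη
    have hη0 : 0 < η := by rw [hη]; linarith
    set s : Set ℂ := {z | x₀ + η < z.re} with hs
    have hso : s ∈ 𝓝 v := (isOpen_lt continuous_const Complex.continuous_re).mem_nhds
      (show x₀ + η < v.re by rw [hη]; linarith)
    have hmeas : ∀ z : ℂ, AEStronglyMeasurable
        (fun y : ℝ => (a y : ℂ) * exp (-(z * y))) (volume.restrict (Ioi 0)) := fun z =>
      ((Complex.measurable_ofReal.comp ham).mul (by fun_prop)).aestronglyMeasurable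
    have hb2 : IntegrableOn (fun y : ℝ => K1 * (y * Real.exp (-(η * y)))) (Ioi 0) :=
      Integrable.const_mul (exp_ints hη0).2.1.1 K1
    have key := hasDerivAt_integral_of_dominated_loc_of_deriv_le (μ := volume.restrict (Ioi (0 : ℝ)))
      (F := fun (z : ℂ) (y : ℝ) => (a y : ℂ) * exp (-(z * y)))
      (F' := fun (z : ℂ) (y : ℝ) => (a y : ℂ) * (-y * exp (-(z * y)))) (x₀ := v) (s := s)
      (bound := fun y : ℝ => K1 * (y * Real.exp (-(η * y)))) hso
      (Eventually.of_forall hmeas)
      (LInt.complex ham (hint _ hv'))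
      (((Complex.measurable_ofReal.comp ham).mul (by fun_prop)).aestronglyMeasurable)
      ((ae_restrict_iff' measurableSet_Ioi).mpr (Eventually.of_forall fun y hy z hz => by
        have hy' : 0 < y := hy
        have hz' : x₀ + η < z.re := hz
        rw [norm_mul, norm_mul, norm_neg, Complex.norm_real, Complex.norm_real, Complex.norm_exp,
          Real.norm_eq_abs, Real.norm_eq_abs, abs_of_pos hy']
        have e1 : (-(z * (y : ℂ))).re = -(z.re * y) := by
          rw [Complex.neg_re, Complex.re_mul_ofReal]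
        rw [e1]
        calc |a y| * (y * Real.exp (-(z.re * y))) ≤
              (K1 * Real.exp (x₀ * y)) * (y * Real.exp (-((x₀ + η) * y))) := by
              refine mul_le_mul (hbd y hy') ?_ (by positivity) (by positivity)
              refine mul_le_mul_of_nonneg_left (Real.exp_le_exp.2 ?_) hy'.le
              nlinarith
          _ = K1 * (y * (Real.exp (x₀ * y) * Real.exp (-((x₀ + η) * y)))) := by ring
          _ = _ := by
            rw [← Real.exp_add]
            congr 3
            ring))
      hb2
      (Eventually.of_forall fun y z _ => by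
        have e0 : HasDerivAt (fun z : ℂ => z * (y : ℂ)) (1 * (y : ℂ)) z :=
          (hasDerivAt_id z).mul_const (y : ℂ)
        rw [one_mul] at e0
        have e1 : HasDerivAt (fun z : ℂ => -(z * (y : ℂ))) (-(y : ℂ)) z := e0.neg
        have e2 := (e1.cexp).const_mul (a y : ℂ)
        refine e2.congr_deriv ?_
        ring)
    refine key.2.congr_deriv ?_
    have e1 := hinv v.re hv' v.im
    rw [Complex.re_add_im] at e1
    rw [← e1, ← integral_neg, ← integral_indicator measurableSet_Ioi]
    refine integral_congr_ae ?_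
    have e2 : ∀ᵐ y : ℝ, y ≠ 0 := by
      rw [ae_iff]
      simp
    filter_upwards [e2] with y hy
    by_cases hy2 : y ∈ Ioi (0 : ℝ)
    · rw [indicator_of_mem hy2, ← hag y hy2]
      ring
    · rw [indicator_of_notMem hy2]
      have : y < 0 := lt_of_le_of_ne (not_lt.1 hy2) hy
      rw [hneg y this, mul_zero, neg_zero]
  have hWx : ∀ v ∈ W, 0 < v.re ∧ σ + 1 ≤ kap α * ‖v‖ ^ α ∧ σ < (v ^ (α : ℂ)).re := by
    intro v hv
    have hv' : x₀ < v.re := hv
    have e1 : 0 < v.re := hx00.trans hv'
    have e2 : x₀ ≤ ‖v‖ := hv'.le.trans (re_le_norm v)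
    have e3 := hx₀ v e1 e2
    have e4 := re_pow_ge h0 h1 e1
    exact ⟨e1, e3, by linarith⟩
  -- the difference is constant
  set w₀ : ℂ := ((x₀ + 1 : ℝ) : ℂ) with hw₀
  have hw₀W : w₀ ∈ W := by
    change x₀ < w₀.re
    rw [hw₀, Complex.ofReal_re]
    linarith
  set k : ℂ := lapC a w₀ - f₀ lam c α w₀ / w₀ with hk
  have hconst : ∀ v ∈ W, lapC a v - f₀ lam c α v / v = k := by
    have hd : ∀ v ∈ W, HasDerivAt (fun v => lapC a v - f₀ lam c α v / v) 0 v := by
      intro v hv
      obtain ⟨e1, e2, e3⟩ := hWx v hv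
      have e4 := (f₀_deriv D e1 e3).div (hasDerivAt_id v) (ne_zero' e1)
      refine ((hder v hv).sub e4).congr_deriv ?_
      have := ne_zero' e1
      simp only [hh, id]
      field_simp
      ring
    intro v hv
    refine hWc.is_const_of_fderivWithin_eq_zero (𝕜 := ℂ)
      (fun z hz => (hd z hz).differentiableAt.differentiableWithinAt) (fun z hz => ?_) hv hw₀W
    rw [fderivWithin_of_isOpen hWo hz]
    ext
    simp [(hd z hz).deriv]
  -- the limit
  have hS := S₀_nonneg lam c σ
  have hk0 : k = 0 := by
    have hlim : Tendsto (fun w : ℝ => K1 * (w - x₀)⁻¹ + S₀ lam c σ * w⁻¹) atTop (𝓝 0) := by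
      have e1 : Tendsto (fun w : ℝ => (w - x₀)⁻¹) atTop (𝓝 0) :=
        tendsto_inv_atTop_zero.comp (tendsto_atTop_add_const_right _ _ tendsto_id)
      have e2 := (e1.const_mul K1).add (tendsto_inv_atTop_zero.const_mul (S₀ lam c σ))
      simpa using e2
    have hle : ‖k‖ ≤ 0 := by
      refine ge_of_tendsto hlim ?_
      filter_upwards [eventually_gt_atTop x₀] with w hw
      have hwW : (w : ℂ) ∈ W := by
        change x₀ < (w : ℂ).re
        rwa [Complex.ofReal_re]
      have hw0 : 0 < w := hx00.trans hw
      rw [← hconst w hwW]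
      refine (norm_sub_le _ _).trans (add_le_add ?_ ?_)
      · unfold lapC
        refine (norm_integral_le_integral_norm _).trans ?_
        have h2 := exp_ints (x := w - x₀) (by linarith)
        rw [← h2.1.2, ← integral_const_mul]
        refine setIntegral_mono_on ?_ (Integrable.const_mul h2.1.1 K1) measurableSet_Ioi
          fun y hy => ?_
        · refine (LInt.complex ham (z := (w : ℂ)) ?_).norm
          rw [Complex.ofReal_re]
          exact hint w hw
        · have hy' : 0 < y := hy
          rw [norm_mul, Complex.norm_real, Complex.norm_exp, Real.norm_eq_abs]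
          have e1 : (-((w : ℂ) * (y : ℂ))).re = -(w * y) := by
            rw [Complex.neg_re, ← Complex.ofReal_mul, Complex.ofReal_re]
          rw [e1]
          calc |a y| * Real.exp (-(w * y)) ≤ (K1 * Real.exp (x₀ * y)) * Real.exp (-(w * y)) :=
              mul_le_mul_of_nonneg_right (hbd y hy') (Real.exp_pos _).le
            _ = _ := by
              rw [mul_assoc, ← Real.exp_add]
              congr 2
              ring
      · obtain ⟨e1, e2, e3⟩ := hWx _ hwW
        rw [norm_div, Complex.norm_real, Real.norm_eq_abs, abs_of_pos hw0, div_eq_mul_inv]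
        refine mul_le_mul_of_nonneg_right ?_ (by positivity)
        exact f₀_bound' D h0 h1 e1 (by linarith)
    exact norm_le_zero_iff.1 hle
  intro v hv
  have h2 := hconst v hv
  rw [hk0, sub_eq_zero] at h2
  obtain ⟨e1, -, -⟩ := hWx v hv
  rw [h2]
  have := ne_zero' e1
  field_simp

end Pool.Agent.V11333.OneSide
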