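import Pool.Agent.V11333.Cone1
import Pool.Agent.V11333.OneSide2
import Pool.Agent.W263.BSD.Lead1
import Pool.Agent.TH942.SL.AbelLim

/-!
# A Tauberian theorem in cones
-/

set_option autoImplicit false

open MeasureTheory Filter Topology Set Complex
open Pool.Agent.TH942.SL
open Pool.Agent.W263.BSD (LInt lap lapC lapC_ofReal lap_nonneg lapC_differentiableAt ell ell_meas
  ell_nonneg ell_lap_limit)

namespace Pool.Agent.V11333.Cone

/-- the bound of the complex transform -/
lemma lapC_norm_le {g : ℝ → ℝ} (h0 : ∀ u, 0 < u → 0 ≤ g u) (v : ℂ) :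
    ‖lapC g v‖ ≤ lap g v.re := by
  unfold lapC lap
  refine (norm_integral_le_integral_norm _).trans (le_of_eq ?_)
  refine setIntegral_congr_fun measurableSet_Ioi fun u hu => ?_
  have hu' : 0 < u := hu
  rw [norm_mul, Complex.norm_real, Real.norm_eq_abs, abs_of_nonneg (h0 u hu'), Complex.norm_exp,
    Complex.neg_re, Complex.re_mul_ofReal]

/-- the transform decreases -/
lemma lap_anti {g : ℝ → ℝ} (h0 : ∀ u, 0 < u → 0 ≤ g u) {w w' : ℝ} (hi : LInt g w) (hi' : LInt g w')
    (h : w ≤ w') : lap g w' ≤ lap g w := by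
  unfold lap
  refine setIntegral_mono_on hi' hi measurableSet_Ioi fun u hu => ?_
  have hu' : 0 < u := hu
  refine mul_le_mul_of_nonneg_left (Real.exp_le_exp.2 ?_) (h0 u hu')
  nlinarith

/-- **The Tauberian theorem in cones**: for a nonnegative function the limit of `w lap g w` on the
axis is the limit in all cones. -/
theorem cone_tauber {g : ℝ → ℝ} (hg : Measurable g) (h0 : ∀ u, 0 < u → 0 ≤ g u)
    (hi : ∀ w : ℝ, 0 < w → LInt g w) {L : ℝ}
    (hl : Tendsto (fun w : ℝ => w * lap g w) (𝓝[>] 0) (𝓝 L)) {κ : ℝ} (hκ : 0 < κ) :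
    Tendsto (fun v : ℂ => v * lapC g v) (𝓝[{v : ℂ | 0 < v.re ∧ κ * ‖v‖ ≤ v.re}] 0)
      (𝓝 (L : ℂ)) := by
  refine lindelof (fun v hv => ?_) (fun κ hκ => ?_) ?_ hκ
  · exact differentiableAt_id.mul (lapC_differentiableAt hg (w0 := 0) hi hv)
  · have h1 := (Metric.tendsto_nhds.1 hl) 1 one_pos
    rw [eventually_nhdsWithin_iff, Metric.eventually_nhds_iff] at h1
    obtain ⟨δ, hδ, h2⟩ := h1
    have hδ2 : 0 < δ / 2 := by positivity
    have hn := lap_nonneg h0 (δ / 2)
    have h3 : ∀ w : ℝ, 0 < w → w * lap g w ≤ (|L| + 1) + w * lap g (δ / 2) := by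
      intro w hw
      rcases lt_or_ge w (δ / 2) with h | h
      · have e1 := h2 (y := w) (by rw [Real.dist_eq, sub_zero, abs_of_pos hw]; linarith) hw
        rw [Real.dist_eq] at e1
        have e2 := (abs_lt.1 e1).2
        have e3 := le_abs_self L
        have e4 : 0 ≤ w * lap g (δ / 2) := by positivity
        linarith
      · have e1 : w * lap g w ≤ w * lap g (δ / 2) :=
          mul_le_mul_of_nonneg_left (lap_anti h0 (hi _ hδ2) (hi _ hw) h) hw.le
        have := abs_nonneg L
        linarith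
    refine ⟨κ⁻¹ * (|L| + 1 + lap g (δ / 2)), fun v hv hv2 => ?_⟩
    have hL := abs_nonneg L
    have e1 : ‖v‖ ≤ κ⁻¹ * v.re := by
      rw [inv_mul_eq_div, le_div_iff₀ hκ]
      linarith
    have e2 : 0 ≤ lap g v.re := lap_nonneg h0 _
    have e3 := re_le_norm v
    have e5 := norm_nonneg v
    calc ‖v * lapC g v‖ ≤ ‖v‖ * lap g v.re := by
          rw [norm_mul]
          exact mul_le_mul_of_nonneg_left (lapC_norm_le h0 v) (norm_nonneg _)
      _ ≤ κ⁻¹ * v.re * lap g v.re := mul_le_mul_of_nonneg_right e1 e2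
      _ = κ⁻¹ * (v.re * lap g v.re) := by ring
      _ ≤ κ⁻¹ * ((|L| + 1) + v.re * lap g (δ / 2)) :=
          mul_le_mul_of_nonneg_left (h3 _ hv) (by positivity)
      _ ≤ κ⁻¹ * ((|L| + 1 + lap g (δ / 2)) * (1 + ‖v‖)) := by
          refine mul_le_mul_of_nonneg_left ?_ (by positivity)
          have e6 : v.re * lap g (δ / 2) ≤ ‖v‖ * lap g (δ / 2) :=
            mul_le_mul_of_nonneg_right e3 hn
          have e7 : 0 ≤ (|L| + 1) * ‖v‖ := by positivity
          nlinarith
      _ = _ := by ring
  · have h1 := (Complex.continuous_ofReal.tendsto L).comp hl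
    refine h1.congr fun w => ?_
    simp only [Function.comp_apply]
    rw [lapC_ofReal]
    push_cast
    ring

/-- the derivative of the Laplace transform -/
theorem lapC_hasDerivAt {a : ℝ → ℝ} (ham : Measurable a) {K1 x₀ : ℝ}
    (hbd : ∀ y, 0 < y → |a y| ≤ K1 * Real.exp (x₀ * y)) {v : ℂ} (hv' : x₀ < v.re) :
    HasDerivAt (lapC a) (∫ y in Ioi (0 : ℝ), (a y : ℂ) * (-y * exp (-(v * y)))) v := by
  set η : ℝ := (v.re - x₀) / 2 with hη
  have hη0 : 0 < η := by rw [hη]; linarith
  set s : Set ℂ := {z | x₀ + η < z.re} with hs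
  have hso : s ∈ 𝓝 v := (isOpen_lt continuous_const Complex.continuous_re).mem_nhds
    (show x₀ + η < v.re by rw [hη]; linarith)
  have hint : LInt a v.re := by
    unfold LInt
    have h2 := (exp_ints (x := v.re - x₀) (by linarith)).1.1
    have h3 : IntegrableOn (fun y : ℝ => K1 * Real.exp (-((v.re - x₀) * y))) (Ioi 0) :=
      Integrable.const_mul h2 K1
    refine Integrable.mono' h3 ((ham.mul (by fun_prop)).aestronglyMeasurable) ?_
    refine (ae_restrict_iff' measurableSet_Ioi).mpr (Eventually.of_forall fun y hy => ?_)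
    have hy' : 0 < y := hy
    rw [Real.norm_eq_abs, abs_mul, abs_of_pos (Real.exp_pos _)]
    calc |a y| * Real.exp (-(v.re * y)) ≤ (K1 * Real.exp (x₀ * y)) * Real.exp (-(v.re * y)) :=
        mul_le_mul_of_nonneg_right (hbd y hy') (Real.exp_pos _).le
      _ = _ := by
        rw [mul_assoc, ← Real.exp_add]
        congr 2
        ring
  have hmeas : ∀ z : ℂ, AEStronglyMeasurable
      (fun y : ℝ => (a y : ℂ) * exp (-(z * y))) (volume.restrict (Ioi 0)) := fun z =>
    ((Complex.measurable_ofReal.comp ham).mul (by fun_prop)).aestronglyMeasurable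
  have hb2 : IntegrableOn (fun y : ℝ => K1 * (y * Real.exp (-(η * y)))) (Ioi 0) :=
    Integrable.const_mul (exp_ints hη0).2.1.1 K1
  have key := hasDerivAt_integral_of_dominated_loc_of_deriv_le (μ := volume.restrict (Ioi (0 : ℝ)))
    (F := fun (z : ℂ) (y : ℝ) => (a y : ℂ) * exp (-(z * y)))
    (F' := fun (z : ℂ) (y : ℝ) => (a y : ℂ) * (-y * exp (-(z * y)))) (x₀ := v) (s := s)
    (bound := fun y : ℝ => K1 * (y * Real.exp (-(η * y)))) hso
    (Eventually.of_forall hmeas)
    (LInt.complex ham hint)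
    (((Complex.measurable_ofReal.comp ham).mul (by fun_prop)).aestronglyMeasurable)
    ((ae_restrict_iff' measurableSet_Ioi).mpr (Eventually.of_forall fun y hy z hz => by
      have hy' : 0 < y := hy
      have hz' : x₀ + η < z.re := hz
      rw [norm_mul, norm_mul, norm_neg, Complex.norm_real, Complex.norm_real, Complex.norm_exp,
        Real.norm_eq_abs, Real.norm_eq_abs, abs_of_pos hy']
      have e1 : (-(z * (y : ℂ))).re = -(z.re * y) := by
        rw [Complex.neg_re, Complex.re_mul_ofReal]
      rw [e1]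
      calc |a y| * (y * Real.exp (-(z.re * y))) ≤
            (K1 * Real.exp (x₀ * y)) * (y * Real.exp (-((x₀ + η) * y))) := by
            refine mul_le_mul (hbd y hy') ?_ (by positivity) ((abs_nonneg _).trans (hbd y hy'))
            refine mul_le_mul_of_nonneg_left (Real.exp_le_exp.2 ?_) hy'.le
            nlinarith
        _ = K1 * (y * (Real.exp (x₀ * y) * Real.exp (-((x₀ + η) * y)))) := by ring
        _ ≤ _ := by
          rw [← Real.exp_add]
          apply le_of_eq
          congr 3
          ring))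
    hb2
    (Eventually.of_forall fun y z _ => by
      have e0 : HasDerivAt (fun z : ℂ => z * (y : ℂ)) (1 * (y : ℂ)) z :=
        (hasDerivAt_id z).mul_const (y : ℂ)
      rw [one_mul] at e0
      have e1 : HasDerivAt (fun z : ℂ => -(z * (y : ℂ))) (-(y : ℂ)) z := e0.neg
      have e2 := (e1.cexp).const_mul (a y : ℂ)
      refine e2.congr_deriv ?_
      ring)
  exact key.2

lemma ell_bound {ε : ℝ} (hε : 0 < ε) : ∀ y, 0 < y →
    |ell y| ≤ (1 / ε + Real.exp 1) * Real.exp (ε * y) := by
  intro y hy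
  have he := Real.exp_pos 1
  have h1 := ell_nonneg hy.le
  rw [abs_of_nonneg (by linarith)]
  have h2 : ell y ≤ y + Real.exp 1 := by
    unfold ell
    have := Real.log_le_sub_one_of_pos (show 0 < y + Real.exp 1 by positivity)
    linarith
  have h3 : ε * y ≤ Real.exp (ε * y) := by
    have := Real.add_one_le_exp (ε * y)
    linarith
  have h4 : y ≤ 1 / ε * Real.exp (ε * y) := by
    rw [one_div_mul_eq_div, le_div_iff₀ hε]
    linarith
  have h5 : Real.exp 1 ≤ Real.exp 1 * Real.exp (ε * y) :=
    le_mul_of_one_le_right he.le (Real.one_le_exp (by positivity))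
  rw [add_mul]
  linarith

/-- the transform of the logarithm in cones -/
theorem ell_cone {κ : ℝ} (hκ : 0 < κ) :
    Tendsto (fun v : ℂ => v * lapC ell v + log v) (𝓝[{v : ℂ | 0 < v.re ∧ κ * ‖v‖ ≤ v.re}] 0)
      (𝓝 (((-Real.eulerMascheroniConstant : ℝ)) : ℂ)) := by
  have he := Real.exp_pos 1
  have hgc : Continuous fun y : ℝ => ((y * ell |y| : ℝ) : ℂ) := by
    refine Complex.continuous_ofReal.comp (continuous_id.mul ?_)
    unfold ell
    refine Continuous.log (by fun_prop) fun y => ?_
    positivity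
  have h1 := ext_lim (fh := fun v => v * lapC ell v) hgc (fun v hv => by
    have h2 := lapC_hasDerivAt ell_meas (ell_bound (ε := v.re / 2) (by linarith)) (v := v)
      (by linarith)
    have h3 : (∫ y in Ioi (0 : ℝ), (ell y : ℂ) * (-y * exp (-(v * y)))) =
        -∫ y in Ioi (0 : ℝ), exp (-(v * y)) * ((y * ell |y| : ℝ) : ℂ) := by
      rw [← integral_neg]
      refine setIntegral_congr_fun measurableSet_Ioi fun y hy => ?_
      have hy' : 0 < y := hy
      rw [abs_of_pos hy']
      push_cast
      ring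
    rw [h3] at h2
    refine h2.congr_of_eventuallyEq ?_
    have h4 : ∀ᶠ z : ℂ in 𝓝 v, z ≠ 0 := by
      refine isOpen_ne.mem_nhds ?_
      rintro rfl
      simp at hv
    filter_upwards [h4] with z hz
    field_simp) (K := 1) (c₀ := 0) ?_ hκ
  · have e0 : (((-Real.eulerMascheroniConstant : ℝ)) : ℂ) =
        0 - ((1 : ℝ) : ℂ) * Real.eulerMascheroniConstant := by
      push_cast
      ring
    rw [e0]
    refine h1.congr fun v => ?_
    push_cast
    ring
  · have h5 : Tendsto (fun y : ℝ => Real.log (1 + Real.exp 1 / y)) atTop (𝓝 0) := by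
      have e1 : Tendsto (fun y : ℝ => 1 + Real.exp 1 / y) atTop (𝓝 (1 + 0)) :=
        tendsto_const_nhds.add (tendsto_const_nhds.div_atTop tendsto_id)
      rw [add_zero] at e1
      have e2 := e1.log one_ne_zero
      rwa [Real.log_one] at e2
    have h6 := (Complex.continuous_ofReal.tendsto (0 : ℝ)).comp h5
    rw [Complex.ofReal_zero] at h6
    refine h6.congr' ?_
    filter_upwards [eventually_gt_atTop 0] with y hy
    have hyc : (y : ℂ) ≠ 0 := by exact_mod_cast hy.ne'
    simp only [Function.comp_apply]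
    rw [eq_div_iff hyc, abs_of_pos hy]
    have e1 : 1 + Real.exp 1 / y = (y + Real.exp 1) / y := by field_simp
    rw [e1, Real.log_div (by positivity) hy.ne']
    unfold ell
    push_cast
    ring

end Pool.Agent.V11333.Cone
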