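import Pool.Agent.V11333.OneSide2
import Pool.Agent.TH942.ES.Ext

/-!
# One-sided bounds for the means continue an Euler product which is analytic along the real axis
-/

set_option autoImplicit false

open Filter Topology Set Complex MeasureTheory
open Pool.Agent.TH942.LS (Dat P P_le Cont Qf)
open Pool.Agent.TH942.SL
open Pool.Agent.TH942.ES
open Pool.Agent.W263.BSD (LInt lap lapC lapC_differentiableAt)

namespace Pool.Agent.V11333.OneSide

variable {X : Type} {d : ℕ} {N : X → ℕ} {α : X → Fin d → ℂ} {e : X → ℕ}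

/-- from the continuation of the sum over the primes to the continuation of the Euler product -/
theorem cont_of_Dh (E : Sys N α) {ρ : ℝ} (hρ : 1 < ρ) (he : Function.Injective e) {Dh : ℂ → ℂ}
    (hDd : ∀ s ∈ Sect ρ, DifferentiableAt ℂ Dh s)
    (hDe : ∀ s ∈ Sect ρ, 1 < s.re → Dh s = DD (lamN N e) (cN N α e) s) :
    ∃ G : ℂ → ℂ, (∀ s : ℂ, s ∈ Sect ρ ∨ 1 / 2 < s.re → DifferentiableAt ℂ G s ∧ G s ≠ 0) ∧
      ∀ s : ℂ, 1 / 2 < s.re → G s = LE N α s := by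
  have hDE : ∀ s ∈ Sect ρ, 1 / 2 < s.re → Dh s = DE N α s := by
    set R : Set ℂ := Sect ρ ∩ {s : ℂ | 1 / 2 < s.re} with hR
    have hRo : IsOpen R := (sect_open hρ).inter (isOpen_lt continuous_const Complex.continuous_re)
    have hRc : Convex ℝ R := (sect_convex hρ).inter (convex_halfSpace_re_gt _)
    have a1 : AnalyticOnNhd ℂ Dh R :=
      DifferentiableOn.analyticOnNhd (fun s hs => (hDd s hs.1).differentiableWithinAt) hRo
    have a2 : AnalyticOnNhd ℂ (DE N α) R :=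
      DifferentiableOn.analyticOnNhd (fun s hs => (E.DE_diff hs.2).differentiableWithinAt) hRo
    have h2 : ((2 : ℝ) : ℂ) ∈ R := ⟨sect_real hρ (by norm_num), by
      change 1 / 2 < ((2 : ℝ) : ℂ).re
      rw [Complex.ofReal_re]
      norm_num⟩
    have ho : IsOpen {z : ℂ | 1 < z.re} := isOpen_lt continuous_const Complex.continuous_re
    have a3 := a1.eqOn_of_preconnected_of_eventuallyEq a2 hRc.isPreconnected h2 (by
      filter_upwards [hRo.mem_nhds h2, ho.mem_nhds (show 1 < ((2 : ℝ) : ℂ).re by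
        rw [Complex.ofReal_re]
        norm_num)] with z hz hz2
      rw [hDe z hz.1 hz2]
      exact Sys.DD_eq he z)
    exact fun s hs hs2 => a3 ⟨hs, hs2⟩
  set G : ℂ → ℂ := fun s => if 1 / 2 < s.re then LE N α s else exp (GG N α s - Dh s) with hG
  have hG1 : ∀ s : ℂ, 1 / 2 < s.re → G s = LE N α s := fun s hs => by
    rw [hG]
    simp only
    rw [if_pos hs]
  have hG2 : ∀ s ∈ Sect ρ, G s = exp (GG N α s - Dh s) := fun s hs => by
    by_cases h2 : 1 / 2 < s.re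
    · rw [hG1 s h2, E.LE_eq h2, hDE s hs h2]
    · rw [hG]
      simp only
      rw [if_neg h2]
  refine ⟨G, fun s hs => ?_, hG1⟩
  rcases hs with hs | hs
  · constructor
    · refine DifferentiableAt.congr_of_eventuallyEq (f := fun s => exp (GG N α s - Dh s)) ?_ ?_
      · exact ((E.GG_diff (sect_re hρ hs)).sub (hDd s hs)).cexp
      · filter_upwards [(sect_open hρ).mem_nhds hs] with z hz
        exact hG2 z hz
    · rw [hG2 s hs]
      exact Complex.exp_ne_zero _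
  · have ho : IsOpen {z : ℂ | 1 / 2 < z.re} := isOpen_lt continuous_const Complex.continuous_re
    obtain ⟨e1, e2⟩ := E.LE_diff hs
    refine ⟨e1.congr_of_eventuallyEq ?_, by rw [hG1 s hs]; exact e2⟩
    filter_upwards [ho.mem_nhds hs] with z hz
    exact hG1 z hz

/-- from a convergent Laplace integral to the continuation -/
theorem cont_of_LInt (E : Sys N α) {ρ : ℝ} (hρ : 1 < ρ) (he : Function.Injective e)
    {a : ℝ → ℝ} {x₀ : ℝ} (ham : Measurable a)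
    (hconv : ∀ w : ℝ, 0 < w → LInt a w)
    (htr : ∀ v : ℂ, x₀ < v.re → v * lapC a v = f₀ (lamN N e) (cN N α e) ρ⁻¹ v) :
    ∃ G : ℂ → ℂ, (∀ s : ℂ, s ∈ Sect ρ ∨ 1 / 2 < s.re → DifferentiableAt ℂ G s ∧ G s ≠ 0) ∧
      ∀ s : ℂ, 1 / 2 < s.re → G s = LE N α s := by
  have hρ0 : 0 < ρ := by linarith
  set fh : ℂ → ℂ := fun v => v * lapC a v with hfh
  have hfd : ∀ v : ℂ, 0 < v.re → DifferentiableAt ℂ fh v := fun v hv =>
    differentiableAt_id.mul (lapC_differentiableAt ham (fun w hw => hconv w hw) hv)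
  have hdiff : ∀ s ∈ Sect ρ, DifferentiableAt ℂ (fun s : ℂ => fh (s ^ (ρ : ℂ))) s := by
    intro s hs
    obtain ⟨h2, -⟩ := exists_root hρ hs.1 hs.2
    exact DifferentiableAt.comp (f := fun s : ℂ => s ^ (ρ : ℂ)) s (hfd _ h2)
      (differentiableAt_id.cpow_const (slit (sect_re hρ hs)))
  have D := E.dat he
  refine cont_of_Dh E hρ he hdiff ?_
  set R : Set ℂ := Sect ρ ∩ {s : ℂ | 1 < s.re} with hR
  have hRo : IsOpen R := (sect_open hρ).inter (isOpen_lt continuous_const Complex.continuous_re)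
  have hRc : Convex ℝ R := (sect_convex hρ).inter (convex_halfSpace_re_gt 1)
  have a1 : AnalyticOnNhd ℂ (fun s : ℂ => fh (s ^ (ρ : ℂ))) R :=
    DifferentiableOn.analyticOnNhd (fun s hs => (hdiff s hs.1).differentiableWithinAt) hRo
  have a2 : AnalyticOnNhd ℂ (DD (lamN N e) (cN N α e)) R :=
    DifferentiableOn.analyticOnNhd
      (fun s hs => (dd_deriv D hs.2).differentiableAt.differentiableWithinAt) hRo
  have hT : Tendsto (fun x : ℝ => x ^ ρ) atTop atTop := tendsto_rpow_atTop hρ0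
  obtain ⟨x, hx⟩ := ((hT.eventually_gt_atTop x₀).and
    ((eventually_gt_atTop 1).and (eventually_gt_atTop 0))).exists
  obtain ⟨hx1, hx2, hx3⟩ := hx
  have hxR : (x : ℂ) ∈ R := ⟨sect_real hρ hx3, by rwa [Set.mem_ofPred_eq, Complex.ofReal_re]⟩
  have hxp : (((x : ℂ)) ^ (ρ : ℂ)).re = x ^ ρ := by
    rw [← Complex.ofReal_cpow hx3.le, Complex.ofReal_re]
  have hnear : (fun s : ℂ => fh (s ^ (ρ : ℂ))) =ᶠ[𝓝 (x : ℂ)] DD (lamN N e) (cN N α e) := by
    have hc : ContinuousAt (fun s : ℂ => (s ^ (ρ : ℂ)).re) (x : ℂ) :=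
      Complex.continuous_re.continuousAt.comp
        (ContinuousAt.cpow continuousAt_id continuousAt_const
          (slit (show 0 < ((x : ℂ)).re by rwa [Complex.ofReal_re])))
    have h5 : ∀ᶠ s : ℂ in 𝓝 (x : ℂ), x₀ < (s ^ (ρ : ℂ)).re :=
      hc.eventually (lt_mem_nhds (show x₀ < ((x : ℂ) ^ (ρ : ℂ)).re by rw [hxp]; exact hx1))
    filter_upwards [h5, hRo.mem_nhds hxR] with s h6 h7
    rw [hfh]
    simp only
    rw [htr _ h6]
    obtain ⟨-, h8⟩ := exists_root hρ h7.1.1 h7.1.2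
    unfold f₀
    rw [h8]
  have a3 := a1.eqOn_of_preconnected_of_eventuallyEq a2 hRc.isPreconnected hxR hnear
  exact fun s hs hσ => a3 ⟨hs, hσ⟩

/-- the map `v ↦ H (v ^ β)` at the real points -/
theorem comp_an {H : ℂ → ℂ} (hH : ∀ x : ℝ, 0 < x → AnalyticAt ℂ H x) {β : ℝ} {w : ℝ} (hw : 0 < w) :
    AnalyticAt ℂ (fun v : ℂ => H (v ^ (β : ℂ))) w := by
  have h1 : AnalyticAt ℂ (fun v : ℂ => v ^ (β : ℂ)) w :=
    pow_analytic (Complex.ofReal_mem_slitPlane.2 hw)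
  have h2 : (w : ℂ) ^ (β : ℂ) = ((w ^ β : ℝ) : ℂ) := (Complex.ofReal_cpow hw.le _).symm
  have h3 : AnalyticAt ℂ H ((w : ℂ) ^ (β : ℂ)) := by
    rw [h2]
    exact hH _ (Real.rpow_pos_of_pos hw _)
  exact AnalyticAt.comp (g := H) (f := fun v : ℂ => v ^ (β : ℂ)) h3 h1

/-- `GG (v ^ β)` is holomorphic in the right half plane -/
theorem comp_GG (E : Sys N α) {β : ℝ} (h0 : 0 < β) (h1 : β < 1) {z : ℂ} (hz : 0 < z.re) :
    DifferentiableAt ℂ (fun v : ℂ => GG N α (v ^ (β : ℂ))) z := by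
  have h2 : DifferentiableAt ℂ (GG N α) (z ^ (β : ℂ)) := E.GG_diff (re_pow_pos h0 h1 hz)
  exact DifferentiableAt.comp (g := GG N α) (f := fun v : ℂ => v ^ (β : ℂ)) z h2
    (differentiableAt_id.cpow_const (slit hz))

/-- the value at the real points -/
theorem real_value (E : Sys N α) (he : Function.Injective e) {ρ : ℝ} (hρ : 1 < ρ) {a : ℝ → ℝ}
    {x₀ : ℝ} (htr : ∀ v : ℂ, x₀ < v.re → v * lapC a v = f₀ (lamN N e) (cN N α e) ρ⁻¹ v)
    {w : ℝ} (hw1 : 1 < w) (hw : x₀ < w) :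
    (1 / 2 : ℝ) < w ^ ρ⁻¹ ∧
      LE N α ((w ^ ρ⁻¹ : ℝ) : ℂ) = exp (GG N α ((w ^ ρ⁻¹ : ℝ) : ℂ) - w * lapC a w) := by
  have h1 : (1 : ℝ) < w ^ ρ⁻¹ := Real.one_lt_rpow hw1 (by positivity)
  refine ⟨by linarith, ?_⟩
  have h2 : (1 / 2 : ℝ) < ((w ^ ρ⁻¹ : ℝ) : ℂ).re := by
    rw [Complex.ofReal_re]
    linarith
  rw [E.LE_eq h2, htr w (by rwa [Complex.ofReal_re])]
  unfold f₀
  have h3 : (w : ℂ) ^ ((ρ⁻¹ : ℝ) : ℂ) = ((w ^ ρ⁻¹ : ℝ) : ℂ) :=
    (Complex.ofReal_cpow (by linarith) _).symm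
  rw [h3, Sys.DD_eq he]
  rfl

/-- the bound for the means, in the variable `y = (log Y)^ρ` -/
theorem bound_trans (E : Sys N α) (he : Function.Injective e) {ρ ρ' : ℝ} (hρ : 1 < ρ)
    (hρ' : ρ < ρ') {τ : ℝ} (hτ : |τ| = 1) {a : ℝ → ℝ}
    (haM : ∀ y, 0 < y → a y = M (lamN N e) (cN N α e) ρ⁻¹ y)
    (h : ∀ ε : ℝ, 0 < ε → ∃ C : ℝ, ∀ᶠ Y : ℝ in atTop,
      τ * SrE N α ρ ρ' Y ≤ C * Real.exp (ε * Real.log Y ^ ρ)) :
    ∀ ε : ℝ, 0 < ε → ∃ C y₀ : ℝ, ∀ y, y₀ ≤ y → τ * a y ≤ C * Real.exp (ε * y) := by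
  intro ε hε
  obtain ⟨C₁, hC₁, h1⟩ := E.Sr_close he hρ hρ'
  have h1' := (Sys.tendsto_exp_rpow hρ).eventually h1
  obtain ⟨C, hC⟩ := h ε hε
  have hC' := (Sys.tendsto_exp_rpow hρ).eventually hC
  obtain ⟨y₀, hy₀⟩ := (h1'.and (hC'.and (eventually_gt_atTop 0))).exists_forall_of_atTop
  refine ⟨C + C₁, y₀, fun y hy => ?_⟩
  obtain ⟨e1, e2, e3⟩ := hy₀ y hy
  rw [Sys.pow_log hρ e3.le] at e1 e2
  rw [haM y e3]
  have e4 : 1 ≤ Real.exp (ε * y) := Real.one_le_exp (by positivity)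
  have e5 : C₁ ≤ C₁ * Real.exp (ε * y) := le_mul_of_one_le_right hC₁ e4
  have e6 : τ * (M (lamN N e) (cN N α e) ρ⁻¹ y - SrE N α ρ ρ' (Real.exp (y ^ ρ⁻¹))) ≤ C₁ := by
    refine (le_abs_self _).trans ?_
    rw [abs_mul, hτ, one_mul, abs_sub_comm]
    exact e1
  have e7 : τ * M (lamN N e) (cN N α e) ρ⁻¹ y = τ * SrE N α ρ ρ' (Real.exp (y ^ ρ⁻¹)) +
      τ * (M (lamN N e) (cN N α e) ρ⁻¹ y - SrE N α ρ ρ' (Real.exp (y ^ ρ⁻¹))) := by ring
  rw [e7, add_mul]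
  linarith

/-- **Upper bounds for the means continue the Euler product**, if it is analytic along the real axis. -/
theorem cont_of_upper (E : Sys N α) {ρ ρ' : ℝ} (hρ : 1 < ρ) (hρ' : ρ < ρ') {H : ℂ → ℂ}
    (hH : ∀ x : ℝ, 0 < x → AnalyticAt ℂ H x)
    (hHe : ∀ x : ℝ, 1 / 2 < x → H x = LE N α x)
    (h : ∀ ε : ℝ, 0 < ε → ∃ C : ℝ, ∀ᶠ Y : ℝ in atTop,
      SrE N α ρ ρ' Y ≤ C * Real.exp (ε * Real.log Y ^ ρ)) :
    ∃ G : ℂ → ℂ, (∀ s : ℂ, s ∈ Sect ρ ∨ 1 / 2 < s.re → DifferentiableAt ℂ G s ∧ G s ≠ 0) ∧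
      ∀ s : ℂ, 1 / 2 < s.re → G s = LE N α s := by
  have := E.cnt
  obtain ⟨e, he⟩ := Countable.exists_injective_nat X
  have hρ0 : 0 < ρ := by linarith
  have h0 : 0 < ρ⁻¹ := by positivity
  have h1 : ρ⁻¹ < 1 := inv_lt_one_of_one_lt₀ hρ
  obtain ⟨a, K, x₀, ham, hK, hx₀, haM, hbd, hint, htr⟩ := transform (E.dat he) h0 h1
  have D : DataLoc 0 a (fun v => H (v ^ ((ρ⁻¹ : ℝ) : ℂ))) (fun v => GG N α (v ^ ((ρ⁻¹ : ℝ) : ℂ)))
      (max x₀ 1) :=
    { al_nonneg := le_rfl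
      meas := ham
      c0_nonneg := le_max_of_le_right zero_le_one
      int := fun w hw => hint w ((le_max_left _ _).trans_lt hw)
      hΦ := fun w hw => comp_an hH hw
      hG := fun z hz => comp_GG E h0 h1 hz
      eq := fun w hw => by
        obtain ⟨e1, e2⟩ := real_value E he hρ htr ((le_max_right _ _).trans_lt hw)
          ((le_max_left _ _).trans_lt hw)
        have e3 : (w : ℂ) ^ ((ρ⁻¹ : ℝ) : ℂ) = ((w ^ ρ⁻¹ : ℝ) : ℂ) :=
          (Complex.ofReal_cpow (hx₀.le.trans ((le_max_left _ _).trans hw.le)) _).symm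
        rw [e3, hHe _ e1, e2] }
  refine cont_of_LInt E hρ he ham ?_ htr
  refine D.conv hK hx₀.le (fun u hu => (le_abs_self _).trans (hbd u hu)) ?_
  have h2 := bound_trans E he hρ hρ' (τ := 1) abs_one haM (by simpa only [one_mul] using h)
  simpa only [one_mul, zero_add] using h2

/-- **Lower bounds for the means continue the Euler product**, if its inverse is analytic along the
real axis. -/
theorem cont_of_lower (E : Sys N α) {ρ ρ' : ℝ} (hρ : 1 < ρ) (hρ' : ρ < ρ') {H : ℂ → ℂ}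
    (hH : ∀ x : ℝ, 0 < x → AnalyticAt ℂ H x)
    (hHe : ∀ x : ℝ, 1 / 2 < x → H x = (LE N α x)⁻¹)
    (h : ∀ ε : ℝ, 0 < ε → ∃ C : ℝ, ∀ᶠ Y : ℝ in atTop,
      -(C * Real.exp (ε * Real.log Y ^ ρ)) ≤ SrE N α ρ ρ' Y) :
    ∃ G : ℂ → ℂ, (∀ s : ℂ, s ∈ Sect ρ ∨ 1 / 2 < s.re → DifferentiableAt ℂ G s ∧ G s ≠ 0) ∧
      ∀ s : ℂ, 1 / 2 < s.re → G s = LE N α s := by
  have := E.cnt
  obtain ⟨e, he⟩ := Countable.exists_injective_nat X
  have hρ0 : 0 < ρ := by linarith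
  have h0 : 0 < ρ⁻¹ := by positivity
  have h1 : ρ⁻¹ < 1 := inv_lt_one_of_one_lt₀ hρ
  obtain ⟨a, K, x₀, ham, hK, hx₀, haM, hbd, hint, htr⟩ := transform (E.dat he) h0 h1
  have hlap : ∀ w : ℝ, lapC (fun y => -a y) w = -lapC a w := by
    intro w
    unfold lapC
    rw [← integral_neg]
    congr 1
    funext y
    push_cast
    ring
  have D : DataLoc 0 (fun y => -a y) (fun v => H (v ^ ((ρ⁻¹ : ℝ) : ℂ)))
      (fun v => -GG N α (v ^ ((ρ⁻¹ : ℝ) : ℂ))) (max x₀ 1) :=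
    { al_nonneg := le_rfl
      meas := ham.neg
      c0_nonneg := le_max_of_le_right zero_le_one
      int := fun w hw => (hint w ((le_max_left _ _).trans_lt hw)).neg
      hΦ := fun w hw => comp_an hH hw
      hG := fun z hz => (comp_GG E h0 h1 hz).neg
      eq := fun w hw => by
        obtain ⟨e1, e2⟩ := real_value E he hρ htr ((le_max_right _ _).trans_lt hw)
          ((le_max_left _ _).trans_lt hw)
        have e3 : (w : ℂ) ^ ((ρ⁻¹ : ℝ) : ℂ) = ((w ^ ρ⁻¹ : ℝ) : ℂ) :=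
          (Complex.ofReal_cpow (hx₀.le.trans ((le_max_left _ _).trans hw.le)) _).symm
        rw [e3, hHe _ e1, e2, hlap, ← Complex.exp_neg]
        congr 1
        ring }
  refine cont_of_LInt E hρ he ham (fun w hw => ?_) htr
  have h3 := D.conv hK hx₀.le (fun u hu => (neg_le_abs _).trans (hbd u hu)) (by
    have h2 := bound_trans E he hρ hρ' (τ := -1) (by norm_num) haM (fun ε hε => by
      obtain ⟨C, hC⟩ := h ε hε
      exact ⟨C, hC.mono fun Y hY => by linarith⟩)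
    simpa only [neg_mul, one_mul, zero_add] using h2) w hw
  have h4 := h3.neg
  simpa only [neg_neg] using h4

end Pool.Agent.V11333.OneSide
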