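import Pool.Agent.V11333.Cone2
import Pool.Agent.V11333.OneSide3
import Pool.Agent.TH942.ES.StarExt

/-!
# One-sided bounds of the means and the asymptotic in sectors
-/

set_option autoImplicit false

open MeasureTheory Filter Topology Set Complex
open Pool.Agent.TH942.LS (Dat P P_le Cont)
open Pool.Agent.TH942.SL Pool.Agent.TH942.ES
open Pool.Agent.W263.BSD (LInt lap lapC lapC_ofReal lap_nonneg lapC_differentiableAt ell ell_meas
  ell_nonneg ell_lap_limit ell_LInt ell_mono ell_le log_le_ell ex ex_LInt ex_lap ex_meas lap_add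
  lap_const_mul)
open Pool.Agent.V11333.OneSide (DataLoc transform comp_an)

namespace Pool.Agent.V11333.Cone

variable {lam c : ℕ → ℝ} {δ σ : ℝ}

lemma lapC_const_mul (c : ℝ) (f : ℝ → ℝ) (z : ℂ) : lapC (fun u => c * f u) z = c * lapC f z := by
  unfold lapC
  rw [← integral_const_mul]
  congr 1
  funext u
  push_cast
  ring

lemma lapC_add {f g : ℝ → ℝ} (hf : Measurable f) (hg : Measurable g) {z : ℂ} (h1 : LInt f z.re)
    (h2 : LInt g z.re) : lapC (fun u => f u + g u) z = lapC f z + lapC g z := by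
  unfold lapC
  rw [← integral_add (h1.complex hf) (h2.complex hg)]
  congr 1
  funext u
  push_cast
  ring

lemma ex_zero : (ex 0 : ℝ → ℝ) = fun _ => 1 := by
  funext u
  simp [ex]

lemma lapC_one {z : ℂ} (hz : 0 < z.re) : z * lapC (ex 0) z = 1 := by
  have hz0 : z ≠ 0 := by
    rintro rfl
    simp at hz
  unfold lapC
  rw [ex_zero]
  have h1 := integral_exp_mul_complex_Ioi (a := -z) (by rw [Complex.neg_re]; linarith) 0
  have h2 : ∫ u in Ioi (0 : ℝ), (((1 : ℝ) : ℝ) : ℂ) * exp (-(z * u)) =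
      ∫ u in Ioi (0 : ℝ), exp (-z * u) := by
    congr 1
    funext u
    push_cast
    rw [one_mul, neg_mul]
  rw [h2, h1, Complex.ofReal_zero, mul_zero, Complex.exp_zero]
  field_simp

/-- **The Tauberian theorem for the means, one-sided.** -/
theorem cone_core (D : Dat lam c δ σ) {ρ : ℝ} (hρ : 1 < ρ) {K κ τ : ℝ} (hτ : τ = 1 ∨ τ = -1)
    {H : ℂ → ℂ} (hH : ∀ x : ℝ, 0 < x → AnalyticAt ℂ H x) {σ' : ℝ}
    (hHe : ∀ x : ℝ, σ' < x → H x = exp (τ * DD lam c x))
    (hlim : Tendsto (fun x : ℝ => Real.log ‖H x‖ + τ * K * Real.log x) (𝓝[>] 0) (𝓝 (τ * κ)))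
    (hM : ∃ C : ℝ, ∀ᶠ y : ℝ in atTop, -C ≤ τ * (M lam c ρ⁻¹ y - K * ρ⁻¹ * Real.log y)) :
    ∃ (a : ℝ → ℝ) (x₀ : ℝ), Measurable a ∧ (∀ w : ℝ, 0 < w → LInt a w) ∧
      (∀ v : ℂ, x₀ < v.re → v * lapC a v = f₀ lam c ρ⁻¹ v) ∧
      ∀ κ' : ℝ, 0 < κ' → Tendsto (fun v : ℂ => v * lapC a v + ((K * ρ⁻¹ : ℝ) : ℂ) * log v)
        (𝓝[{v : ℂ | 0 < v.re ∧ κ' * ‖v‖ ≤ v.re}] 0) (𝓝 (κ : ℂ)) := by
  have hρ0 : 0 < ρ := by linarith
  have h0 : 0 < ρ⁻¹ := by positivity
  have h1 : ρ⁻¹ < 1 := inv_lt_one_of_one_lt₀ hρ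
  have hττ : τ * τ = 1 := by rcases hτ with h | h <;> rw [h] <;> norm_num
  have hτa : |τ| = 1 := by rcases hτ with h | h <;> rw [h] <;> norm_num
  obtain ⟨a, K1, x₀, ham, hK1, hx₀, haM, hbd, hint, htr⟩ := transform D h0 h1
  set b : ℝ → ℝ := fun u => -τ * a u with hb
  have hbm : Measurable b := ham.const_mul _
  have hbC : ∀ z : ℂ, lapC b z = -τ * lapC a z := fun z => by
    rw [hb, lapC_const_mul]
    push_cast
    ring
  have hab : ∀ w : ℝ, LInt b w → LInt a w := by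
    intro w hw
    have h2 := hw.const_mul (-τ)
    have h3 : (fun u => -τ * b u) = a := by
      funext u
      rw [hb]
      simp only
      linear_combination (a u) * hττ
    rwa [h3] at h2
  set c0 : ℝ := max x₀ (|σ'| ^ ρ) with hc0
  have hroot : ∀ w : ℝ, c0 < w → σ' < w ^ ρ⁻¹ := by
    intro w hw
    have h2 : |σ'| ^ ρ < w := (le_max_right _ _).trans_lt hw
    have h3 := Real.rpow_lt_rpow (by positivity) h2 h0
    rw [Real.rpow_rpow_inv (abs_nonneg _) hρ0.ne'] at h3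
    exact (le_abs_self _).trans_lt h3
  have DL : DataLoc 0 b (fun v => H (v ^ ((ρ⁻¹ : ℝ) : ℂ))) (fun _ => 0) c0 :=
    { al_nonneg := le_rfl
      meas := hbm
      c0_nonneg := le_max_of_le_left hx₀.le
      int := fun w hw => (hint w ((le_max_left _ _).trans_lt hw)).const_mul _
      hΦ := fun w hw => comp_an hH hw
      hG := fun z hz => differentiableAt_const _
      eq := fun w hw => by
        have hw0 : 0 ≤ w := (le_max_of_le_left hx₀.le).trans hw.le
        have hwx : x₀ < w := (le_max_left _ _).trans_lt hw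
        have e3 : (w : ℂ) ^ ((ρ⁻¹ : ℝ) : ℂ) = ((w ^ ρ⁻¹ : ℝ) : ℂ) :=
          (Complex.ofReal_cpow hw0 _).symm
        have e4 := htr (w : ℂ) (by rwa [Complex.ofReal_re])
        unfold f₀ at e4
        rw [e3] at e4
        rw [e3, hHe _ (hroot w hw), hbC, ← e4]
        congr 1
        ring }
  obtain ⟨C, hC⟩ := hM
  obtain ⟨y₁, hy₁⟩ := (hC.and (eventually_ge_atTop 2)).exists_forall_of_atTop
  set y₀ : ℝ := max y₁ 2 with hy₀
  have hy02 : 2 ≤ y₀ := le_max_right _ _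
  have hy0 : ∀ y, y₀ ≤ y → -C ≤ τ * (a y - K * ρ⁻¹ * Real.log y) := by
    intro y hy
    have e1 := (hy₁ y ((le_max_left _ _).trans hy)).1
    rwa [haM y (by linarith)]
  have hsm : ∀ u, 0 < u → u ≤ y₀ → |a u| ≤ K1 * Real.exp (x₀ * y₀) := by
    intro u hu huy
    refine (hbd u hu).trans (mul_le_mul_of_nonneg_left (Real.exp_le_exp.2 ?_) hK1)
    exact mul_le_mul_of_nonneg_left huy hx₀.le
  have hell0 := ell_nonneg (show (0 : ℝ) ≤ y₀ by linarith)
  have hKρ : |τ * (K * ρ⁻¹)| = |K| * ρ⁻¹ := by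
    rw [abs_mul, hτa, one_mul, abs_mul, abs_of_pos h0]
  have hex : 0 ≤ K1 * Real.exp (x₀ * y₀) := by positivity
  set C2 : ℝ := |C| + |K| * ρ⁻¹ * (1 + ell y₀) + K1 * Real.exp (x₀ * y₀) with hC2
  -- the nonnegative function
  set g : ℝ → ℝ := fun u => (τ * a u + -(τ * (K * ρ⁻¹)) * ell u) + C2 * ex 0 u with hg
  have hgm : Measurable g := ((ham.const_mul _).add (ell_meas.const_mul _)).add
    ((ex_meas 0).const_mul _)
  have hg0 : ∀ u, 0 < u → 0 ≤ g u := by
    intro u hu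
    have e0 : g u = τ * a u + -(τ * (K * ρ⁻¹)) * ell u + C2 := by
      rw [hg, ex_zero]
      ring
    rw [e0]
    have hCa := neg_abs_le C
    have hCb := le_abs_self C
    rcases le_total y₀ u with h | h
    · have e1 := hy0 u h
      have e2 := ell_le (hy02.trans h)
      have e3 := log_le_ell hu
      have e4 : |τ * (K * ρ⁻¹) * (ell u - Real.log u)| ≤ |K| * ρ⁻¹ * 1 := by
        rw [abs_mul, hKρ]
        refine mul_le_mul_of_nonneg_left ?_ (by positivity)
        rw [abs_le]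
        constructor <;> linarith
      have e5 := (abs_le.1 e4).2
      have e6 : 0 ≤ |K| * ρ⁻¹ * ell y₀ := by positivity
      rw [hC2]
      nlinarith
    · have e1 := hsm u hu h
      have e2 : |τ * a u| ≤ K1 * Real.exp (x₀ * y₀) := by rwa [abs_mul, hτa, one_mul]
      have e3 : |τ * (K * ρ⁻¹) * ell u| ≤ |K| * ρ⁻¹ * ell y₀ := by
        rw [abs_mul, hKρ]
        refine mul_le_mul_of_nonneg_left ?_ (by positivity)
        rw [abs_of_nonneg (by linarith [ell_nonneg hu.le])]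
        exact ell_mono hu.le h
      have e4 := (abs_le.1 e2).1
      have e5 := (abs_le.1 e3).2
      have e6 : 0 ≤ |K| * ρ⁻¹ := by positivity
      rw [hC2]
      nlinarith [abs_nonneg C]
  -- convergence
  have hconvb : ∀ w : ℝ, 0 < w → LInt b w := by
    refine DL.core_upper (w0 := 0) le_rfl
      (κ := fun u => -(τ * (K * ρ⁻¹)) * ell u + C2 * ex 0 u)
      ((ell_meas.const_mul _).add ((ex_meas 0).const_mul _))
      (fun w hw => ((ell_LInt hw).const_mul _).add ((ex_LInt hw).const_mul _)) fun u hu => ?_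
    have e1 := hg0 u hu
    rw [hg] at e1
    simp only at e1
    rw [hb]
    simp only
    linarith
  have hconv : ∀ w : ℝ, 0 < w → LInt a w := fun w hw => hab w (hconvb w hw)
  have hgL : ∀ w : ℝ, 0 < w → LInt g w := fun w hw =>
    (((hconv w hw).const_mul _).add ((ell_LInt hw).const_mul _)).add ((ex_LInt hw).const_mul _)
  -- the limit on the axis
  have hnorm : ∀ w : ℝ, 0 < w → Real.log ‖H ((w ^ ρ⁻¹ : ℝ) : ℂ)‖ = τ * (w * lap a w) := by
    intro w hw
    have e1 := DL.norm_eq (s := 0) le_rfl hconvb hw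
    rw [← Complex.ofReal_cpow hw.le] at e1
    rw [e1, Real.log_exp, Complex.zero_re, hb, lap_const_mul]
    ring
  have hlimw : Tendsto (fun w : ℝ => τ * (w * lap a w) + τ * (K * ρ⁻¹) * Real.log w) (𝓝[>] 0)
      (𝓝 (τ * κ)) := by
    have e1 : Tendsto (fun w : ℝ => w ^ ρ⁻¹) (𝓝[>] 0) (𝓝[>] 0) := by
      refine tendsto_nhdsWithin_of_tendsto_nhds_of_eventually_within _ ?_ ?_
      · have e2 : Tendsto (fun w : ℝ => w ^ ρ⁻¹) (𝓝[>] 0) (𝓝 (0 ^ ρ⁻¹)) :=
          (tendsto_id.mono_left nhdsWithin_le_nhds).rpow_const (Or.inr h0.le)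
        rwa [Real.zero_rpow h0.ne'] at e2
      · filter_upwards [self_mem_nhdsWithin] with w hw
        exact Real.rpow_pos_of_pos hw _
    refine (hlim.comp e1).congr' ?_
    filter_upwards [self_mem_nhdsWithin] with w hw
    have hw' : 0 < w := hw
    simp only [Function.comp_apply]
    rw [hnorm w hw', Real.log_rpow hw']
    ring
  have hgl : Tendsto (fun w : ℝ => w * lap g w) (𝓝[>] 0)
      (𝓝 (τ * κ + -(τ * (K * ρ⁻¹)) * (-Real.eulerMascheroniConstant) + C2)) := by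
    have e1 := (hlimw.add (ell_lap_limit.const_mul (-(τ * (K * ρ⁻¹))))).add_const C2
    refine e1.congr' ?_
    filter_upwards [self_mem_nhdsWithin] with w hw
    have hw' : 0 < w := hw
    have e2 : lap g w = (τ * lap a w + -(τ * (K * ρ⁻¹)) * lap ell w) + C2 * (1 / (w - 0)) := by
      rw [hg, lap_add (((hconv w hw').const_mul _).add ((ell_LInt hw').const_mul _))
        ((ex_LInt hw').const_mul _), lap_add ((hconv w hw').const_mul _)
        ((ell_LInt hw').const_mul _), lap_const_mul, lap_const_mul, lap_const_mul, ex_lap hw']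
    rw [e2, sub_zero]
    field_simp
    ring
  refine ⟨a, x₀, ham, hconv, htr, fun κ' hκ' => ?_⟩
  have f1 := cone_tauber hgm hg0 hgL hgl hκ'
  have f2 := ell_cone hκ'
  have f3 := ((f1.sub_const (C2 : ℂ)).const_mul (τ : ℂ)).add (f2.const_mul ((K * ρ⁻¹ : ℝ) : ℂ))
  have f4 : (τ : ℂ) * (((τ * κ + -(τ * (K * ρ⁻¹)) * (-Real.eulerMascheroniConstant) + C2 : ℝ) : ℂ)
      - C2) + ((K * ρ⁻¹ : ℝ) : ℂ) * ((-Real.eulerMascheroniConstant : ℝ) : ℂ) = (κ : ℂ) := by
    rw [← Complex.ofReal_sub, ← Complex.ofReal_mul, ← Complex.ofReal_mul, ← Complex.ofReal_add]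
    congr 1
    linear_combination (κ + K * ρ⁻¹ * Real.eulerMascheroniConstant) * hττ
  rw [f4] at f3
  refine f3.congr' ?_
  filter_upwards [self_mem_nhdsWithin] with v hv
  have hv' : 0 < v.re := hv.1
  have e2 : v * lapC g v = (τ * (v * lapC a v) + (-(τ * (K * ρ⁻¹)) : ℝ) * (v * lapC ell v)) +
      C2 * (v * lapC (ex 0) v) := by
    have q1 : lapC g v = lapC (fun u => τ * a u + -(τ * (K * ρ⁻¹)) * ell u) v +
        lapC (fun u => C2 * ex 0 u) v :=
      lapC_add (f := fun u => τ * a u + -(τ * (K * ρ⁻¹)) * ell u) (g := fun u => C2 * ex 0 u)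
        ((ham.const_mul _).add (ell_meas.const_mul _)) ((ex_meas 0).const_mul _)
        (((hconv _ hv').const_mul _).add ((ell_LInt hv').const_mul _)) ((ex_LInt hv').const_mul _)
    have q2 : lapC (fun u => τ * a u + -(τ * (K * ρ⁻¹)) * ell u) v =
        lapC (fun u => τ * a u) v + lapC (fun u => -(τ * (K * ρ⁻¹)) * ell u) v :=
      lapC_add (f := fun u => τ * a u) (g := fun u => -(τ * (K * ρ⁻¹)) * ell u)
        (ham.const_mul _) (ell_meas.const_mul _) ((hconv _ hv').const_mul _)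
        ((ell_LInt hv').const_mul _)
    rw [q1, q2, lapC_const_mul, lapC_const_mul, lapC_const_mul]
    ring
  rw [e2, lapC_one hv']
  have hττc : (τ : ℂ) * τ = 1 := by exact_mod_cast hττ
  push_cast
  linear_combination (v * lapC a v - K * ((ρ : ℂ))⁻¹ * (v * lapC ell v)) * hττc

/-- the sector version -/
theorem ext_sector_one (D : Dat lam c δ σ) {ρ : ℝ} (hρ : 1 < ρ) {a : ℝ → ℝ} {x₀ : ℝ}
    (ham : Measurable a) (hconv : ∀ w : ℝ, 0 < w → LInt a w)
    (htr : ∀ v : ℂ, x₀ < v.re → v * lapC a v = f₀ lam c ρ⁻¹ v) {K κ₀ : ℝ}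
    (hcone0 : ∀ κ' : ℝ, 0 < κ' → Tendsto (fun v : ℂ => v * lapC a v + ((K * ρ⁻¹ : ℝ) : ℂ) * log v)
        (𝓝[{v : ℂ | 0 < v.re ∧ κ' * ‖v‖ ≤ v.re}] 0) (𝓝 (κ₀ : ℂ))) :
    ∃ Dh : ℂ → ℂ, (∀ s ∈ Sect ρ, DifferentiableAt ℂ Dh s) ∧
      (∀ s ∈ Sect ρ, σ < s.re → Dh s = DD lam c s) ∧
      ∀ ρ₂ : ℝ, ρ < ρ₂ → Tendsto (fun s => Dh s + K * log s) (𝓝[Sect ρ₂] 0) (𝓝 (κ₀ : ℂ)) := by
  have hρ0 : 0 < ρ := by linarith
  have h0 : 0 < ρ⁻¹ := by positivity
  have h1 : ρ⁻¹ < 1 := inv_lt_one_of_one_lt₀ hρ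
  set fh : ℂ → ℂ := fun v => v * lapC a v with hfh
  have hfd : ∀ v : ℂ, 0 < v.re → DifferentiableAt ℂ fh v := fun v hv =>
    differentiableAt_id.mul (lapC_differentiableAt ham (w0 := 0) hconv hv)
  have hdiff : ∀ s ∈ Sect ρ, DifferentiableAt ℂ (fun s : ℂ => fh (s ^ (ρ : ℂ))) s := by
    intro s hs
    obtain ⟨h2, -⟩ := exists_root hρ hs.1 hs.2
    exact DifferentiableAt.comp (g := fh) (f := fun s : ℂ => s ^ (ρ : ℂ)) s (hfd _ h2)
      (differentiableAt_id.cpow_const (slit (sect_re hρ hs)))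
  refine ⟨fun s => fh (s ^ (ρ : ℂ)), hdiff, ?_, ?_⟩
  · -- the identity theorem on the convex set
    set R : Set ℂ := Sect ρ ∩ {s : ℂ | σ < s.re} with hR
    have hRo : IsOpen R := (sect_open hρ).inter (isOpen_lt continuous_const Complex.continuous_re)
    have hRc : Convex ℝ R := (sect_convex hρ).inter (convex_halfSpace_re_gt σ)
    have a1 : AnalyticOnNhd ℂ (fun s : ℂ => fh (s ^ (ρ : ℂ))) R :=
      DifferentiableOn.analyticOnNhd (fun s hs => (hdiff s hs.1).differentiableWithinAt) hRo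
    have a2 : AnalyticOnNhd ℂ (DD lam c) R :=
      DifferentiableOn.analyticOnNhd
        (fun s hs => (dd_deriv D hs.2).differentiableAt.differentiableWithinAt) hRo
    -- the base point
    have hT : Tendsto (fun x : ℝ => x ^ ρ) atTop atTop := tendsto_rpow_atTop hρ0
    obtain ⟨x, hx⟩ := ((hT.eventually_gt_atTop x₀).and
      ((eventually_gt_atTop σ).and (eventually_gt_atTop 0))).exists
    obtain ⟨hx1, hx2, hx3⟩ := hx
    have hxR : (x : ℂ) ∈ R := ⟨sect_real hρ hx3, by rwa [Set.mem_ofPred_eq, Complex.ofReal_re]⟩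
    have hxp : (((x : ℂ)) ^ (ρ : ℂ)).re = x ^ ρ := by
      rw [← Complex.ofReal_cpow hx3.le, Complex.ofReal_re]
    have hnear : (fun s : ℂ => fh (s ^ (ρ : ℂ))) =ᶠ[𝓝 (x : ℂ)] DD lam c := by
      have hc : ContinuousAt (fun s : ℂ => (s ^ (ρ : ℂ)).re) (x : ℂ) :=
        Complex.continuous_re.continuousAt.comp
          (ContinuousAt.cpow continuousAt_id continuousAt_const
            (slit (show 0 < ((x : ℂ)).re by rwa [Complex.ofReal_re])))
      have h5 : ∀ᶠ s : ℂ in 𝓝 (x : ℂ), x₀ < (s ^ (ρ : ℂ)).re :=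
        hc.eventually (lt_mem_nhds (show x₀ < ((x : ℂ) ^ (ρ : ℂ)).re by rw [hxp]; exact hx1))
      filter_upwards [h5, hRo.mem_nhds hxR] with s h6 h7
      rw [hfh]
      simp only
      rw [htr _ h6]
      obtain ⟨-, h8⟩ := exists_root hρ h7.1.1 h7.1.2
      unfold f₀
      rw [h8]
    have a3 := a1.eqOn_of_preconnected_of_eventuallyEq a2 hRc.isPreconnected hxR hnear
    exact fun s hs hσ => a3 ⟨hs, hσ⟩
  · intro ρ₂ hρ₂
    have hpi := Real.pi_pos
    have hρ20 : 0 < ρ₂ := by linarith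
    -- the cone
    set κ : ℝ := Real.cos (Real.pi * ρ / (2 * ρ₂)) with hκ
    have hang : Real.pi * ρ / (2 * ρ₂) < Real.pi / 2 := by
      rw [div_lt_div_iff₀ (by positivity) (by norm_num)]
      nlinarith
    have hκ0 : 0 < κ := Real.cos_pos_of_mem_Ioo ⟨by
      have : 0 < Real.pi * ρ / (2 * ρ₂) := by positivity
      linarith, hang⟩
    have hcone : Tendsto (fun s : ℂ => s ^ (ρ : ℂ)) (𝓝[Sect ρ₂] 0)
        (𝓝[{v : ℂ | 0 < v.re ∧ κ * ‖v‖ ≤ v.re}] 0) := by
      refine tendsto_nhdsWithin_of_tendsto_nhds_of_eventually_within _ ?_ ?_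
      · rw [tendsto_zero_iff_norm_tendsto_zero]
        have e1 : Tendsto (fun s : ℂ => ‖s‖ ^ ρ) (𝓝 0) (𝓝 (‖(0 : ℂ)‖ ^ ρ)) :=
          ((continuous_norm.tendsto 0).rpow_const (Or.inr hρ0.le))
        rw [norm_zero, Real.zero_rpow hρ0.ne'] at e1
        refine (e1.mono_left nhdsWithin_le_nhds).congr fun s => ?_
        rw [norm_pow']
      · filter_upwards [self_mem_nhdsWithin] with s hs
        have hs1 : s ∈ Sect ρ := sect_mono hρ hρ₂.le hs
        obtain ⟨h2, -⟩ := exists_root hρ hs1.1 hs1.2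
        refine ⟨h2, ?_⟩
        rw [norm_pow', re_pow, mul_comm]
        refine mul_le_mul_of_nonneg_left ?_ (by positivity)
        rw [hκ, ← Real.cos_abs (arg s * ρ)]
        refine Real.cos_le_cos_of_nonneg_of_le_pi (abs_nonneg _) (by linarith) ?_
        rw [abs_mul, abs_of_pos hρ0]
        have h3 := hs.2
        calc |arg s| * ρ ≤ Real.pi / (2 * ρ₂) * ρ := by gcongr
          _ = Real.pi * ρ / (2 * ρ₂) := by ring
    have main := (hcone0 κ hκ0).comp hcone
    refine main.congr' ?_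
    filter_upwards [self_mem_nhdsWithin] with s hs
    have hs1 : s ∈ Sect ρ := sect_mono hρ hρ₂.le hs
    simp only [Function.comp_apply, hfh]
    have e3 : log (s ^ (ρ : ℂ)) = ρ * log s := by
      have h5 : |arg s * ρ| < Real.pi := by
        rw [abs_mul, abs_of_pos hρ0]
        calc |arg s| * ρ < Real.pi / (2 * ρ) * ρ := mul_lt_mul_of_pos_right hs1.2 hρ0
          _ = Real.pi / 2 := by field_simp
          _ < Real.pi := by linarith
      have h6 : (log s * (ρ : ℂ)).im = arg s * ρ := by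
        rw [mul_comm, Complex.im_ofReal_mul, Complex.log_im, mul_comm]
      rw [Complex.cpow_def_of_ne_zero hs1.1, Complex.log_exp, mul_comm]
      · rw [h6]; exact (abs_lt.1 h5).1
      · rw [h6]; exact (abs_lt.1 h5).2.le
    have hρc : (ρ : ℂ) ≠ 0 := by exact_mod_cast hρ0.ne'
    rw [e3]
    push_cast
    field_simp

/-- **The one-sided Tauberian theorem**: from one-sided bounds of all means and the behaviour on the
positive real axis, the limits of all means. -/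
theorem one_sided_limits (D : Dat lam c δ σ) {ρ₀ : ℝ} (hρ₀ : 1 ≤ ρ₀) {K κ τ : ℝ}
    (hτ : τ = 1 ∨ τ = -1)
    {H : ℂ → ℂ} (hH : ∀ x : ℝ, 0 < x → AnalyticAt ℂ H x) {σ' : ℝ}
    (hHe : ∀ x : ℝ, σ' < x → H x = exp (τ * DD lam c x))
    (hlim : Tendsto (fun x : ℝ => Real.log ‖H x‖ + τ * K * Real.log x) (𝓝[>] 0) (𝓝 (τ * κ)))
    (hM : ∀ ρ : ℝ, ρ₀ < ρ → ∃ C : ℝ, ∀ᶠ y : ℝ in atTop,
      -C ≤ τ * (M lam c ρ⁻¹ y - K * ρ⁻¹ * Real.log y)) :
    ∀ ρ : ℝ, ρ₀ < ρ → Tendsto (fun y : ℝ => M lam c ρ⁻¹ y - K * ρ⁻¹ * Real.log y) atTop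
      (𝓝 (κ + K * ρ⁻¹ * Real.eulerMascheroniConstant)) := by
  intro ρ hρ
  obtain ⟨ρ₁, h1, h2⟩ := exists_between hρ
  have hρ1 : 1 < ρ₁ := by linarith
  obtain ⟨a, x₀, ham, hconv, htr, hcone⟩ := cone_core D hρ1 hτ hH hHe hlim (hM ρ₁ h1)
  exact (sect_equiv D hρ1.le K κ).2 (ext_sector_one D hρ1 ham hconv htr hcone) ρ h2

end Pool.Agent.V11333.Cone
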