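import Pool.Agent.V11333.Cone3

/-!
# One-sided bounds of smoothed Euler products and the leading term
-/

set_option autoImplicit false

open MeasureTheory Filter Topology Set Complex
open Pool.Agent.TH942.LS (Dat P P_le Cont)
open Pool.Agent.TH942.SL Pool.Agent.TH942.ES

namespace Pool.Agent.V11333.Cone

variable {X : Type} {d : ℕ} {N : X → ℕ} {α : X → Fin d → ℂ}

/-- all limits -/
def LimStar (N : X → ℕ) (α : X → Fin d → ℂ) (ρ₀ : ℝ) (r : ℕ) (A : ℝ) : Prop :=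
  ∀ ρ ρ' : ℝ, ρ₀ < ρ → ρ < ρ' →
    Tendsto (fun Y : ℝ => StE N α ρ ρ' Y + r * Real.log (Real.log Y)) atTop
      (𝓝 (Real.log A - r * Real.eulerMascheroniConstant / ρ))

lemma real_path {ρ : ℝ} (h : 1 ≤ ρ) :
    Tendsto (fun x : ℝ => (x : ℂ)) (𝓝[>] 0) (𝓝[Sect ρ] 0) := by
  refine tendsto_nhdsWithin_of_tendsto_nhds_of_eventually_within _ ?_ ?_
  · have := Complex.continuous_ofReal.tendsto (0 : ℝ)
    rw [Complex.ofReal_zero] at this
    exact this.mono_left nhdsWithin_le_nhds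
  · filter_upwards [self_mem_nhdsWithin] with x hx
    exact sect_real' h hx

/-- translation of the one-sided bounds -/
lemma bound_M (E : Sys N α) {e : X × ℕ → ℕ} (he : Function.Injective e) {ρ ρ' : ℝ} (hρ : 1 < ρ)
    (hρ' : ρ < ρ') {τ : ℝ} (hτ : τ = 1 ∨ τ = -1) (r : ℕ)
    (h : ∃ C : ℝ, ∀ᶠ Y : ℝ in atTop, -C ≤ τ * (StE N α ρ ρ' Y + r * Real.log (Real.log Y))) :
    ∃ C : ℝ, ∀ᶠ y : ℝ in atTop,
      -C ≤ τ * (M (lamS N e) (cS N α e) ρ⁻¹ y - (-(r : ℝ)) * ρ⁻¹ * Real.log y) := by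
  obtain ⟨C, hC⟩ := h
  have hc := (Metric.tendsto_nhds.1 (E.St_close he hρ hρ')) 1 one_pos
  have h1 := (Sys.tendsto_exp_rpow hρ).eventually (hC.and hc)
  refine ⟨C + 1, ?_⟩
  filter_upwards [h1, eventually_gt_atTop 0] with y hy hy0
  obtain ⟨e1, e2⟩ := hy
  rw [Sys.pow_log hρ hy0.le, dist_zero_right, Real.norm_eq_abs] at e2
  have e3 : Real.log (Real.log (Real.exp (y ^ ρ⁻¹))) = ρ⁻¹ * Real.log y := by
    rw [Real.log_exp, Real.log_rpow hy0]
  rw [e3] at e1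
  have e4 := abs_lt.1 e2
  rcases hτ with h | h
  · rw [h, one_mul] at e1 ⊢
    linarith
  · rw [h] at e1 ⊢
    linarith

variable (E : Sys N α)
include E

/-- the common step -/
theorem limits_of_bound (hreal : ∀ v k, (∑ i, zv N α v i ^ k).im = 0) {ρ₀ : ℝ} (h : 1 ≤ ρ₀)
    (r : ℕ) {A τ : ℝ} (hA : 0 < A) (hτ : τ = 1 ∨ τ = -1) {H : ℂ → ℂ}
    (hH : ∀ x : ℝ, 0 < x → AnalyticAt ℂ H x)
    (hHe : ∀ (x : ℝ) (w : ℂ), 1 / 2 < x → exp w = LE N α x → H x = exp (τ * w))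
    (hlim : Tendsto (fun x : ℝ => Real.log ‖H x‖ + τ * (-(r : ℝ)) * Real.log x) (𝓝[>] 0)
      (𝓝 (τ * Real.log A)))
    (hb : ∀ ρ ρ' : ℝ, ρ₀ < ρ → ρ < ρ' → ∃ C : ℝ, ∀ᶠ Y : ℝ in atTop,
      -C ≤ τ * (StE N α ρ ρ' Y + r * Real.log (Real.log Y))) :
    LimStar N α ρ₀ r A := by
  have := E.cnt
  obtain ⟨e, he⟩ := Countable.exists_injective_nat (X × ℕ)
  have hM := one_sided_limits (E.datS he (σ := 1) (by norm_num)) h hτ hH (σ' := 1 / 2)
    (K := -(r : ℝ)) (κ := Real.log A)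
    (fun x hx => hHe x _ hx (E.exp_DD hreal he (by rwa [Complex.ofReal_re]))) hlim
    (fun ρ hρ => bound_M E he (by linarith) (by linarith : ρ < ρ + 1) hτ r
      (hb ρ (ρ + 1) hρ (by linarith)))
  intro ρ ρ' hρ hρ'
  have hρ1 : 1 < ρ := by linarith
  have hρ0 : 0 < ρ := by linarith
  have hpow : Tendsto (fun Y : ℝ => Real.log Y ^ ρ) atTop atTop :=
    (tendsto_rpow_atTop hρ0).comp Real.tendsto_log_atTop
  have h2 := ((hM ρ hρ).comp hpow).add (E.St_close he hρ1 hρ')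
  have e0 : Real.log A + -(r : ℝ) * ρ⁻¹ * Real.eulerMascheroniConstant + 0 =
      Real.log A - r * Real.eulerMascheroniConstant / ρ := by
    rw [div_eq_mul_inv]
    ring
  rw [e0] at h2
  refine h2.congr' ?_
  filter_upwards [eventually_gt_atTop 1] with Y hY
  have e1 : ρ⁻¹ * Real.log (Real.log Y ^ ρ) = Real.log (Real.log Y) := by
    rw [Real.log_rpow (Real.log_pos hY)]
    field_simp
  simp only [Function.comp_apply]
  rw [← e1]
  ring

/-- **Lower bounds.** -/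
theorem star_lower (hreal : ∀ v k, (∑ i, zv N α v i ^ k).im = 0) {ρ₀ : ℝ} (h : 1 ≤ ρ₀) (r : ℕ)
    {A : ℝ} (hA : 0 < A) :
    LimStar N α ρ₀ r A ↔
      (∃ H : ℂ → ℂ, (∀ x : ℝ, 0 < x → AnalyticAt ℂ H x) ∧ (∀ x : ℝ, 1 / 2 < x → H x = LE N α x) ∧
        Tendsto (fun x : ℝ => H x / (x : ℂ) ^ r) (𝓝[>] 0) (𝓝 (A : ℂ))) ∧
      ∀ ρ ρ' : ℝ, ρ₀ < ρ → ρ < ρ' → ∃ C : ℝ, ∀ᶠ Y : ℝ in atTop,
        -C ≤ StE N α ρ ρ' Y + r * Real.log (Real.log Y) := by
  constructor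
  · intro hL
    obtain ⟨G, g1, g2, g3⟩ := (E.star_equiv hreal h r hA).1 hL
    refine ⟨⟨G, fun x hx => ?_, fun x hx => g2 _ (by rwa [Complex.ofReal_re]), ?_⟩, ?_⟩
    · have h1 : DifferentiableOn ℂ G (Sect ρ₀) := fun z hz =>
        (g1 z (Or.inl hz)).1.differentiableWithinAt
      exact h1.analyticAt ((sect_open' h).mem_nhds (sect_real' h hx))
    · exact (g3 (ρ₀ + 1) (by linarith)).comp (real_path (by linarith))
    · intro ρ ρ' hρ hρ'
      have h1 := (hL ρ ρ' hρ hρ').eventually (lt_mem_nhds (sub_one_lt _))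
      refine ⟨-(Real.log A - r * Real.eulerMascheroniConstant / ρ - 1), h1.mono fun Y hY => ?_⟩
      linarith
  · rintro ⟨⟨H, h1, h2, h3⟩, h4⟩
    refine limits_of_bound E hreal h r hA (τ := 1) (Or.inl rfl) h1 (fun x w hx hw => ?_) ?_ ?_
    · rw [h2 x hx, ← hw, Complex.ofReal_one, one_mul]
    · have e1 := (h3.norm).log (by rw [Complex.norm_real, Real.norm_eq_abs, abs_of_pos hA]; exact hA.ne')
      rw [Complex.norm_real, Real.norm_eq_abs, abs_of_pos hA] at e1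
      rw [one_mul, one_mul]
      refine e1.congr' ?_
      have e2 := h3.norm.eventually (lt_mem_nhds (show (0 : ℝ) < ‖(A : ℂ)‖ by
        rw [Complex.norm_real, Real.norm_eq_abs, abs_of_pos hA]; exact hA))
      filter_upwards [e2, self_mem_nhdsWithin] with x hx hx0
      have hx0' : 0 < x := hx0
      rw [norm_div, norm_pow, Complex.norm_real, Real.norm_eq_abs, abs_of_pos hx0'] at hx ⊢
      have hH0 : ‖H x‖ ≠ 0 := by
        intro h0
        rw [h0, zero_div] at hx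
        exact lt_irrefl _ hx
      rw [Real.log_div hH0 (by positivity), Real.log_pow]
      ring
    · intro ρ ρ' hρ hρ'
      obtain ⟨C, hC⟩ := h4 ρ ρ' hρ hρ'
      exact ⟨C, hC.mono fun Y hY => by rwa [one_mul]⟩

/-- **Upper bounds.** -/
theorem star_upper (hreal : ∀ v k, (∑ i, zv N α v i ^ k).im = 0) {ρ₀ : ℝ} (h : 1 ≤ ρ₀) (r : ℕ)
    {A : ℝ} (hA : 0 < A) :
    LimStar N α ρ₀ r A ↔
      (∃ H : ℂ → ℂ, (∀ x : ℝ, 0 < x → AnalyticAt ℂ H x) ∧
        (∀ x : ℝ, 1 / 2 < x → H x = (LE N α x)⁻¹) ∧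
        Tendsto (fun x : ℝ => H x * (x : ℂ) ^ r) (𝓝[>] 0) (𝓝 ((A : ℂ)⁻¹))) ∧
      ∀ ρ ρ' : ℝ, ρ₀ < ρ → ρ < ρ' → ∃ C : ℝ, ∀ᶠ Y : ℝ in atTop,
        StE N α ρ ρ' Y + r * Real.log (Real.log Y) ≤ C := by
  have hAc : (A : ℂ) ≠ 0 := by exact_mod_cast hA.ne'
  have hAn : ‖((A : ℂ))⁻¹‖ = A⁻¹ := by
    rw [norm_inv, Complex.norm_real, Real.norm_eq_abs, abs_of_pos hA]
  have hAi : 0 < A⁻¹ := by positivity
  constructor
  · intro hL
    obtain ⟨G, g1, g2, g3⟩ := (E.star_equiv hreal h r hA).1 hL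
    refine ⟨⟨fun s => (G s)⁻¹, fun x hx => ?_, fun x hx => ?_, ?_⟩, ?_⟩
    · have h1 : DifferentiableOn ℂ G (Sect ρ₀) := fun z hz =>
        (g1 z (Or.inl hz)).1.differentiableWithinAt
      exact (h1.analyticAt ((sect_open' h).mem_nhds (sect_real' h hx))).inv
        (g1 _ (Or.inl (sect_real' h hx))).2
    · simp only
      rw [g2 _ (by rwa [Complex.ofReal_re])]
    · have e1 := ((g3 (ρ₀ + 1) (by linarith)).comp (real_path (by linarith))).inv₀ hAc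
      refine e1.congr fun x => ?_
      simp only [Function.comp_apply]
      rw [inv_div, div_eq_mul_inv, mul_comm]
    · intro ρ ρ' hρ hρ'
      have h1 := (hL ρ ρ' hρ hρ').eventually (gt_mem_nhds (lt_add_one _))
      refine ⟨Real.log A - r * Real.eulerMascheroniConstant / ρ + 1, h1.mono fun Y hY => hY.le⟩
  · rintro ⟨⟨H, h1, h2, h3⟩, h4⟩
    refine limits_of_bound E hreal h r hA (τ := -1) (Or.inr rfl) h1 (fun x w hx hw => ?_) ?_ ?_
    · rw [h2 x hx, ← hw, Complex.ofReal_neg, Complex.ofReal_one, neg_one_mul, Complex.exp_neg]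
    · have e1 := (h3.norm).log (by rw [hAn]; exact hAi.ne')
      rw [hAn, Real.log_inv] at e1
      have e3 : (-1 : ℝ) * Real.log A = -Real.log A := by ring
      rw [e3]
      refine e1.congr' ?_
      have e2 := h3.norm.eventually (lt_mem_nhds (show (0 : ℝ) < ‖((A : ℂ))⁻¹‖ by
        rw [hAn]; exact hAi))
      filter_upwards [e2, self_mem_nhdsWithin] with x hx hx0
      have hx0' : 0 < x := hx0
      rw [norm_mul, norm_pow, Complex.norm_real, Real.norm_eq_abs, abs_of_pos hx0'] at hx ⊢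
      have hH0 : ‖H x‖ ≠ 0 := by
        intro h0
        rw [h0, zero_mul] at hx
        exact lt_irrefl _ hx
      rw [Real.log_mul hH0 (by positivity), Real.log_pow]
      ring
    · intro ρ ρ' hρ hρ'
      obtain ⟨C, hC⟩ := h4 ρ ρ' hρ hρ'
      exact ⟨C, hC.mono fun Y hY => by linarith⟩

end Pool.Agent.V11333.Cone
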