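import Pool.Agent.V11333.Mero2
import Pool.Agent.TH942.ES.NF

/-!
# Systems of eigenvalues with a bound with a real exponent as systems of primes
-/

set_option autoImplicit false

namespace Pool.Agent.V11333.PR

open Filter Topology Set NumberField IsDedekindDomain MeasureTheory
open Pool.Agent.TH942.ES Pool.Agent.V11333.OneSide
open Pool.Agent.W263.BSD (LInt LInt.neg LInt.posPart)
open Pool.Agent.H921R2.TatePole (nm)

variable {K : Type} [Field K] [NumberField K] {N : ℕ}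
variable {S : Set (HeightOneSpectrum (𝓞 K))}

/-- the centre -/
noncomputable def ctr (w : ℝ) : ℝ := w + 1 / 2

/-- the normalised eigenvalues -/
noncomputable def nal (w : ℝ) (α : S → Fin N → ℂ) (v : S) (j : Fin N) : ℂ :=
  α v j * (((nm v.1 : ℝ) ^ (-w) : ℝ) : ℂ)

/-- `α` is a system with real traces and `|α| ≤ q ^ w` -/
def Pure (w : ℝ) (α : S → Fin N → ℂ) : Prop :=
  (∀ v j, ‖α v j‖ ≤ (nm v.1 : ℝ) ^ w) ∧ ∀ v k, (∑ j, α v j ^ k).im = 0

theorem nrm_two (v : HeightOneSpectrum (𝓞 K)) : (2 : ℝ) ≤ nm v := by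
  exact_mod_cast Pool.Agent.H921R2.TatePole.two_le_nm v

theorem zv_eq (w : ℝ) (α : S → Fin N → ℂ) (v : S) (j : Fin N) :
    zv (fun v : S => nm v.1) (nal w α) v j = α v j * ((((nm v.1 : ℝ) ^ ctr w)⁻¹ : ℝ) : ℂ) := by
  have h2 := nrm_two v.1
  have h0 : (0 : ℝ) < nm v.1 := by linarith
  change α v j * (((nm v.1 : ℝ) ^ (-w) : ℝ) : ℂ) / ((√(nm v.1 : ℝ) : ℝ) : ℂ) = _
  rw [mul_div_assoc, ← Complex.ofReal_div]
  congr 2
  rw [Real.sqrt_eq_rpow, ← Real.rpow_sub h0, ← Real.rpow_neg h0.le]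
  congr 1
  unfold ctr
  ring

theorem norm_lt {w : ℝ} {α : S → Fin N → ℂ} (h : Pure w α) (v : S) (j : Fin N) :
    ‖α v j * ((((nm v.1 : ℝ) ^ ctr w)⁻¹ : ℝ) : ℂ)‖ < 1 := by
  have h2 := nrm_two v.1
  have h0 : (0 : ℝ) < nm v.1 := by linarith
  have h1 := h.1 v j
  rw [norm_mul, Complex.norm_real, Real.norm_eq_abs, abs_of_pos (by positivity)]
  have h3 : (nm v.1 : ℝ) ^ w * ((nm v.1 : ℝ) ^ ctr w)⁻¹ < 1 := by
    rw [← Real.rpow_neg h0.le, ← Real.rpow_add h0]
    refine Real.rpow_lt_one_of_one_lt_of_neg (by linarith) ?_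
    unfold ctr
    linarith
  exact (mul_le_mul_of_nonneg_right h1 (by positivity)).trans_lt h3

theorem nal_norm {w : ℝ} {α : S → Fin N → ℂ} (h : Pure w α) (v : S) (j : Fin N) :
    ‖nal w α v j‖ ≤ 1 := by
  have h2 := nrm_two v.1
  have h0 : (0 : ℝ) < nm v.1 := by linarith
  have h1 := h.1 v j
  unfold nal
  rw [norm_mul, Complex.norm_real, Real.norm_eq_abs, abs_of_pos (by positivity)]
  calc ‖α v j‖ * (nm v.1 : ℝ) ^ (-w) ≤ (nm v.1 : ℝ) ^ w * (nm v.1 : ℝ) ^ (-w) := by gcongr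
    _ = 1 := by rw [← Real.rpow_add h0, add_neg_cancel, Real.rpow_zero]

theorem pow_real {w : ℝ} {α : S → Fin N → ℂ} (h : Pure w α) (v : S) (c : ℝ) (k : ℕ) :
    (∑ j, (α v j * (c : ℂ)) ^ k).im = 0 := by
  simp only [mul_pow]
  rw [← Finset.sum_mul, ← Complex.ofReal_pow, Complex.im_mul_ofReal, h.2 v k, zero_mul]

theorem log_real {w : ℝ} {α : S → Fin N → ℂ} (h : Pure w α) (v : S) :
    (∑ j, Complex.log (1 - α v j * ((((nm v.1 : ℝ) ^ ctr w)⁻¹ : ℝ) : ℂ))).im = 0 := by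
  have h1 : HasSum (fun k : ℕ => ∑ j, (α v j * ((((nm v.1 : ℝ) ^ ctr w)⁻¹ : ℝ) : ℂ)) ^ k / k)
      (∑ j, -Complex.log (1 - α v j * ((((nm v.1 : ℝ) ^ ctr w)⁻¹ : ℝ) : ℂ))) :=
    hasSum_sum fun j _ => Complex.hasSum_taylorSeries_neg_log (norm_lt h v j)
  have h2 := Complex.hasSum_im h1
  have h3 : ∀ k : ℕ, (∑ j, (α v j * ((((nm v.1 : ℝ) ^ ctr w)⁻¹ : ℝ) : ℂ)) ^ k / k).im = 0 := by
    intro k
    rw [← Finset.sum_div, ← Complex.ofReal_natCast, Complex.div_ofReal_im, pow_real h v, zero_div]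
  simp only [h3] at h2
  have h4 := h2.unique hasSum_zero
  rw [Finset.sum_neg_distrib, Complex.neg_im, neg_eq_zero] at h4
  exact h4

theorem sys {w : ℝ} {α : S → Fin N → ℂ} (h : Pure w α) :
    Sys (fun v : S => nm v.1) (nal w α) :=
  nf_sys (fun v => v ∈ S) (nal w α) (fun v j => nal_norm h v j) fun v => by
    have h1 : ∀ j, nal w α v j / ((√(((nm v.1 : ℕ) : ℝ)) : ℝ) : ℂ) =
        α v j * ((((nm v.1 : ℝ) ^ ctr w)⁻¹ : ℝ) : ℂ) := fun j => zv_eq w α v j
    simp only [h1]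
    exact log_real h v

theorem pow_ctr (w : ℝ) (v : S) :
    (nm v.1 : ℂ) ^ (-(ctr w : ℂ)) = ((((nm v.1 : ℝ) ^ ctr w)⁻¹ : ℝ) : ℂ) := by
  have h2 := nrm_two v.1
  have h0 : (0 : ℝ) < nm v.1 := by linarith
  rw [← Real.rpow_neg h0.le, Complex.ofReal_cpow h0.le, Complex.ofReal_natCast]
  push_cast
  rfl

/-- the local term at the centre -/
theorem cv_log {w : ℝ} {α : S → Fin N → ℂ} (h : Pure w α) (v : S) :
    cv (fun v : S => nm v.1) (nal w α) v =
      Real.log ‖∏ j, (1 - α v j * (nm v.1 : ℂ) ^ (-(ctr w : ℂ)))‖ := by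
  unfold cv
  rw [norm_prod, Real.log_prod, Complex.re_sum]
  · refine Finset.sum_congr rfl fun j _ => ?_
    rw [Complex.log_re, zv_eq, pow_ctr]
  · intro j _
    rw [norm_ne_zero_iff, pow_ctr]
    intro h0
    have h1 := norm_lt h v j
    rw [← sub_eq_zero.1 h0, norm_one] at h1
    exact lt_irrefl _ h1

/-- the local factor -/
noncomputable def factor (α : S → Fin N → ℂ) (v : S) (s : ℂ) : ℂ :=
  ∏ j, (1 - α v j * (nm v.1 : ℂ) ^ (-s))⁻¹

theorem factor_eq (w : ℝ) (α : S → Fin N → ℂ) (s : ℂ) :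
    (fun v : S => factor α v s) = fun v : S =>
      ∏ j, (1 - zv (fun v : S => nm v.1) (nal w α) v j *
        xv (fun v : S => nm v.1) v (s - ctr w))⁻¹ := by
  funext v
  have h2 := nrm_two v.1
  have h0 : (0 : ℝ) < nm v.1 := by linarith
  have hc : (nm v.1 : ℂ) ≠ 0 := by exact_mod_cast h0.ne'
  unfold factor
  refine Finset.prod_congr rfl fun j _ => ?_
  rw [zv_eq]
  congr 2
  rw [mul_assoc]
  congr 1
  have e1 : xv (fun v : S => nm v.1) v (s - ctr w) = (nm v.1 : ℂ) ^ (-(s - ctr w)) := by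
    rw [Complex.cpow_def_of_ne_zero hc]
    unfold xv
    congr 1
    change -((s - ctr w) * ((Real.log (nm v.1 : ℝ) : ℝ) : ℂ)) = _
    rw [Complex.ofReal_log h0.le, Complex.ofReal_natCast]
    ring
  rw [e1, ← pow_ctr, ← Complex.cpow_add _ _ hc]
  congr 1
  ring

theorem hasProd_iff {w : ℝ} {α : S → Fin N → ℂ} (h : Pure w α) {s : ℂ}
    (hs : w + 1 < s.re) (y : ℂ) :
    HasProd (fun v : S => factor α v s) y ↔
      y = LE (fun v : S => nm v.1) (nal w α) (s - ctr w) := by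
  have h1 : 1 / 2 < (s - ctr w).re := by
    rw [Complex.sub_re, Complex.ofReal_re]
    unfold ctr
    linarith
  have h2 := (sys h).hasProd h1
  rw [factor_eq w α s]
  constructor
  · intro h
    exact h.tprod_eq.symm
  · rintro rfl
    unfold Pool.Agent.TH942.ES.LE
    rw [h2.tprod_eq]
    exact h2

/-- `log P(x)` -/
noncomputable def logP (w : ℝ) (α : S → Fin N → ℂ) (x : ℝ) : ℝ :=
  ∑ᶠ (v : S) (_ : (nm v.1 : ℝ) ≤ x),
    Real.log ‖∏ j, (1 - α v j * (nm v.1 : ℂ) ^ (-(ctr w : ℂ)))‖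

/-- `R(x)` -/
noncomputable def rest (w : ℝ) (α : S → Fin N → ℂ) (T : Finset ℝ) (m : ℝ → ℤ) (x : ℝ) : ℝ :=
  logP w α x - ∑ β ∈ T, m β * Mero.EE (β * Real.log x)

/-- The function `∏_{β ∈ T} (s - c - β)^{m(β)}`. -/
noncomputable def divisor (w : ℝ) (T : Finset ℝ) (m : ℝ → ℤ) (s : ℂ) : ℂ :=
  ∏ β ∈ T, (s - ctr w - β) ^ m β

def RealContinues (w : ℝ) (α : S → Fin N → ℂ) (al : ℝ) (T : Finset ℝ) (m : ℝ → ℤ) : Prop :=
  ∃ F : ℂ → ℂ, (∀ x : ℝ, ctr w + al < x → AnalyticAt ℂ F x) ∧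
    ∀ x : ℝ, w + 1 < x → HasProd (fun v : S => factor α v x) (F x * divisor w T m x)

def RealContinuesInv (w : ℝ) (α : S → Fin N → ℂ) (al : ℝ) (T : Finset ℝ) (m : ℝ → ℤ) : Prop :=
  ∃ F : ℂ → ℂ, (∀ x : ℝ, ctr w + al < x → AnalyticAt ℂ F x) ∧
    ∀ x : ℝ, w + 1 < x → HasProd (fun v : S => factor α v x) ((F x)⁻¹ * divisor w T m x)

def Continues (w : ℝ) (α : S → Fin N → ℂ) (al : ℝ) (T : Finset ℝ) (m : ℝ → ℤ) : Prop :=
  ∃ G : ℂ → ℂ, (∀ s : ℂ, ctr w + al < s.re → DifferentiableAt ℂ G s ∧ G s ≠ 0) ∧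
    ∀ s : ℂ, w + 1 < s.re → HasProd (fun v : S => factor α v s) (G s * divisor w T m s)

def LaplaceConverges (f : ℝ → ℝ) (al : ℝ) : Prop :=
  ∀ w : ℝ, al < w → IntegrableOn (fun t : ℝ => f t * Real.exp (-(w * t))) (Ioi 0)

section tools

variable {w : ℝ} {α : S → Fin N → ℂ} {al : ℝ} {T : Finset ℝ} {m : ℝ → ℤ}

theorem rest_exp (h : Pure w α) : (fun t => rest w α T m (Real.exp t)) =
    Mero.aa (fun v : S => nm v.1) (nal w α) T m := by
  funext t
  unfold rest Mero.aa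
  rw [Real.log_exp]
  congr 1
  unfold logP st SP
  refine finsum_congr fun v => finsum_congr fun _ => ?_
  exact (cv_log h v).symm

theorem div_shift (x : ℂ) : divisor w T m (x + ctr w) = ∏ β ∈ T, (x - β) ^ m β := by
  unfold divisor
  rw [add_sub_cancel_right]

/-- the shift on the real axis -/
theorem shift (h : Pure w α) (g : ℂ → ℂ) {F : ℂ → ℂ}
    (h1 : ∀ x : ℝ, ctr w + al < x → AnalyticAt ℂ F x)
    (h2 : ∀ x : ℝ, w + 1 < x → HasProd (fun v : S => factor α v x)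
      (g (F x) * divisor w T m x)) :
    (∀ x : ℝ, al < x → AnalyticAt ℂ (fun s => F (s + ctr w)) x) ∧
      ∀ x : ℝ, 1 / 2 < x → g (F ((x : ℂ) + ctr w)) * ∏ β ∈ T, ((x : ℂ) - β) ^ m β =
        LE (fun v : S => nm v.1) (nal w α) x := by
  refine ⟨fun x hx => ?_, fun x hx => ?_⟩
  · have e : AnalyticAt ℂ F ((x : ℂ) + ctr w) := by
      have := h1 (x + ctr w) (by linarith)
      push_cast at this
      exact this
    exact AnalyticAt.comp (g := F) (f := fun s : ℂ => s + ctr w) e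
      (analyticAt_id.add analyticAt_const)
  · have e := h2 (x + ctr w) (by unfold ctr; linarith)
    rw [hasProd_iff h (by rw [Complex.ofReal_re]; unfold ctr; linarith)] at e
    push_cast at e
    rw [div_shift, add_sub_cancel_right] at e
    exact e

theorem neg_laplace {f : ℝ → ℝ} (h : LaplaceConverges (fun t => -f t) al) :
    LaplaceConverges f al := fun w hw => by
  have h1 : LInt (fun t => -f t) w := h w hw
  have h2 := h1.neg
  simp only [neg_neg] at h2
  exact h2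

/-- the continuation from the convergence of the Laplace integral -/
theorem continues_of (h : Pure w α) (hal : 0 ≤ al) (hT : ∀ β ∈ T, 0 < β ∧ β ≤ 1 / 2)
    (hc : LaplaceConverges (fun t => rest w α T m (Real.exp t)) al) : Continues w α al T m := by
  rw [rest_exp h] at hc
  by_cases hal2 : al < 1 / 2
  · obtain ⟨G, h1, h2⟩ := Mero.mero_cont (sys h) hal hal2
      (fun β hβ => (hT β hβ).1) (fun β hβ => (hT β hβ).2) hc
    refine ⟨fun s => G (s - ctr w), fun s hs => ?_, fun s hs => ?_⟩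
    · have h3 : al < (s - ctr w).re := by
        rw [Complex.sub_re, Complex.ofReal_re]
        linarith
      exact ⟨(h1 _ h3).1.comp s (by fun_prop), (h1 _ h3).2⟩
    · have h3 : 1 / 2 < (s - ctr w).re := by
        rw [Complex.sub_re, Complex.ofReal_re]
        unfold ctr
        linarith
      rw [hasProd_iff h hs]
      exact h2 _ h3
  · have hE := sys h
    have hne : ∀ s : ℂ, ctr w + al < s.re → ∀ β ∈ T, s - ctr w - (β : ℂ) ≠ 0 := by
      intro s hs β hβ h0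
      have h1 := congrArg Complex.re h0
      rw [Complex.sub_re, Complex.sub_re, Complex.ofReal_re, Complex.ofReal_re, Complex.zero_re] at h1
      have := (hT β hβ).2
      linarith
    refine ⟨fun s => LE (fun v : S => nm v.1) (nal w α) (s - ctr w) * (divisor w T m s)⁻¹,
      fun s hs => ?_, fun s hs => ?_⟩
    · have h3 : 1 / 2 < (s - ctr w).re := by
        rw [Complex.sub_re, Complex.ofReal_re]
        linarith
      have h4 := hE.LE_diff h3
      have h5 : divisor w T m s ≠ 0 :=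
        Finset.prod_ne_zero_iff.mpr fun β hβ => zpow_ne_zero _ (hne s hs β hβ)
      have h6 : DifferentiableAt ℂ (divisor w T m) s :=
        DifferentiableAt.fun_finsetProd fun β hβ =>
          ((differentiableAt_id.sub_const _).sub_const _).zpow (Or.inl (hne s hs β hβ))
      have h7 : DifferentiableAt ℂ (fun s : ℂ => s - ctr w) s := by fun_prop
      have h8 : DifferentiableAt ℂ (fun s : ℂ =>
          LE (fun v : S => nm v.1) (nal w α) (s - ctr w)) s :=
        DifferentiableAt.comp (g := LE (fun v : S => nm v.1)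
          (nal w α)) (f := fun s : ℂ => s - ctr w) s h4.1 h7
      exact ⟨h8.mul (h6.inv h5), mul_ne_zero h4.2 (inv_ne_zero h5)⟩
    · have hs' : ∀ β ∈ T, s - ctr w - (β : ℂ) ≠ 0 := by
        intro β hβ h0
        have h1 := congrArg Complex.re h0
        rw [Complex.sub_re, Complex.sub_re, Complex.ofReal_re, Complex.ofReal_re, Complex.zero_re] at h1
        have := (hT β hβ).2
        unfold ctr at h1
        linarith
      have h5 : divisor w T m s ≠ 0 :=
        Finset.prod_ne_zero_iff.mpr fun β hβ => zpow_ne_zero _ (hs' β hβ)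
      rw [inv_mul_cancel_right₀ h5, hasProd_iff h hs]

/-- the continuation gives the two continuations along the real axis -/
theorem real_of_cont (h : Continues w α al T m) :
    RealContinues w α al T m ∧ RealContinuesInv w α al T m := by
  obtain ⟨G, h1, h2⟩ := h
  have hG : ∀ x : ℝ, ctr w + al < x → AnalyticAt ℂ G x := fun x hx =>
    an_of_half (fun z hz => (h1 z hz).1) (by simpa using hx)
  refine ⟨⟨G, hG, fun x hx => h2 x (by rwa [Complex.ofReal_re])⟩,
    ⟨fun s => (G s)⁻¹, fun x hx => (hG x hx).inv (h1 x (by rwa [Complex.ofReal_re])).2,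
      fun x hx => ?_⟩⟩
  rw [inv_inv]
  exact h2 x (by rwa [Complex.ofReal_re])

/-- a pointwise bound for `f(x)` in terms of `t = log x` -/
theorem pointwise {f : ℝ → ℝ}
    (h : ∀ ε : ℝ, 0 < ε → ∃ C : ℝ, ∀ᶠ x : ℝ in atTop, f x ≤ C * x ^ (al + ε)) :
    ∀ ε : ℝ, 0 < ε → ∃ C y₀ : ℝ, ∀ y, y₀ ≤ y → f (Real.exp y) ≤ C * Real.exp ((al + ε) * y) := by
  intro ε hε
  obtain ⟨C, hC⟩ := h ε hε
  obtain ⟨y₀, hy₀⟩ := (Real.tendsto_exp_atTop.eventually hC).exists_forall_of_atTop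
  refine ⟨C, y₀, fun y hy => ?_⟩
  have h1 := hy₀ y hy
  rwa [← Real.exp_mul, mul_comm y] at h1

/-- the exponential bound -/
theorem aa_bound (h : Pure w α) (hT : ∀ β ∈ T, 0 < β) : ∃ K₀ x₀ : ℝ, 0 ≤ K₀ ∧ 0 ≤ x₀ ∧
    ∀ u, 0 < u → |Mero.aa (fun v : S => nm v.1) (nal w α) T m u| ≤
      K₀ * Real.exp (x₀ * u) := by
  obtain ⟨K₁, hK₁, hb₁⟩ := st_bound (sys h) (σ := 1) (by norm_num)
  obtain ⟨K₂, x₂, hK₂, hx₂, hb₂⟩ := Mero.MM_bound (n := m) hT
  refine ⟨K₁ + K₂, 1 + x₂, by positivity, by positivity, fun u hu => ?_⟩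
  unfold Mero.aa
  have h1 := hb₁ u
  have h2 := hb₂ u hu
  have h3 : Real.exp (1 * u) ≤ Real.exp ((1 + x₂) * u) :=
    Real.exp_le_exp.mpr (by nlinarith)
  have h4 : Real.exp (x₂ * u) ≤ Real.exp ((1 + x₂) * u) :=
    Real.exp_le_exp.mpr (by nlinarith)
  refine (abs_sub _ _).trans ?_
  rw [add_mul]
  exact add_le_add (h1.trans (mul_le_mul_of_nonneg_left h3 hK₁))
    (h2.trans (mul_le_mul_of_nonneg_left h4 hK₂))

end tools

/-- the criterion -/
theorem main {w : ℝ} {α : S → Fin N → ℂ} (h : Pure w α) {al : ℝ} {T : Finset ℝ} {m : ℝ → ℤ}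
    (hal : 0 ≤ al) (hT : ∀ β ∈ T, 0 < β ∧ β ≤ 1 / 2) :
    List.TFAE [
      LaplaceConverges (fun t => rest w α T m (Real.exp t)) al,
      RealContinues w α al T m ∧
        LaplaceConverges (fun t => max (rest w α T m (Real.exp t)) 0) al,
      RealContinuesInv w α al T m ∧
        LaplaceConverges (fun t => max (-rest w α T m (Real.exp t)) 0) al] ∧
    (LaplaceConverges (fun t => rest w α T m (Real.exp t)) al → Continues w α al T m) ∧
    (((RealContinues w α al T m ∧ ∀ ε : ℝ, 0 < ε → ∃ C : ℝ, ∀ᶠ x : ℝ in atTop,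
        rest w α T m x ≤ C * x ^ (al + ε)) ∨
      (RealContinuesInv w α al T m ∧ ∀ ε : ℝ, 0 < ε → ∃ C : ℝ, ∀ᶠ x : ℝ in atTop,
        -(C * x ^ (al + ε)) ≤ rest w α T m x)) → Continues w α al T m) := by
  have E := sys h
  have hT1 : ∀ β ∈ T, 0 < β := fun β hβ => (hT β hβ).1
  set NN : S → ℕ := fun v => nm v.1 with hNN
  have e0 : (fun t => rest w α T m (Real.exp t)) = Mero.aa NN (nal w α) T m := rest_exp h
  have e1 : (fun t => max (rest w α T m (Real.exp t)) 0) =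
      fun t => max (Mero.aa NN (nal w α) T m t) 0 := by
    funext t
    rw [← e0]
  have e2 : (fun t => max (-rest w α T m (Real.exp t)) 0) =
      fun t => max (-Mero.aa NN (nal w α) T m t) 0 := by
    funext t
    rw [← e0]
  have hcont := fun hc => continues_of (al := al) (T := T) (m := m) h hal hT hc
  refine ⟨?_, hcont, ?_⟩
  · tfae_have 1 → 2 := by
      intro hc
      refine ⟨(real_of_cont (hcont hc)).1, ?_⟩
      rw [e1]
      rw [e0] at hc
      exact fun w hw => LInt.posPart (Mero.aa_meas E) (hc w hw)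
    tfae_have 1 → 3 := by
      intro hc
      refine ⟨(real_of_cont (hcont hc)).2, ?_⟩
      rw [e2]
      rw [e0] at hc
      exact fun w hw => LInt.posPart (Mero.aa_meas E).neg (LInt.neg (hc w hw))
    tfae_have 2 → 1 := by
      rintro ⟨⟨F, h1, h2⟩, h3⟩
      rw [e1] at h3
      rw [e0]
      obtain ⟨h4, h5⟩ := shift h id h1 h2
      exact (Mero.mdata_upper E hal hT1 h4 h5).core_upper le_rfl
        ((Mero.aa_meas E).max measurable_const) h3 fun u _ => le_max_left _ _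
    tfae_have 3 → 1 := by
      rintro ⟨⟨F, h1, h2⟩, h3⟩
      rw [e2] at h3
      rw [e0]
      obtain ⟨h4, h5⟩ := shift h (fun z => z⁻¹) h1 h2
      exact neg_laplace ((Mero.mdata_lower E hal hT1 h4 h5).core_upper le_rfl
        ((Mero.aa_meas E).neg.max measurable_const) h3 fun u _ => le_max_left _ _)
    tfae_finish
  · intro h3
    refine hcont ?_
    obtain ⟨K₀, x₀, hK₀, hx₀, hb⟩ := aa_bound (m := m) h hT1
    rcases h3 with ⟨⟨F, h1, h2⟩, h3⟩ | ⟨⟨F, h1, h2⟩, h3⟩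
    · obtain ⟨h4, h5⟩ := shift h id h1 h2
      rw [e0]
      refine (Mero.mdata_upper E hal hT1 h4 h5).conv hK₀ hx₀
        (fun u hu => (le_abs_self _).trans (hb u hu)) ?_
      have h6 := pointwise h3
      intro ε hε
      obtain ⟨C, y₀, hC⟩ := h6 ε hε
      refine ⟨C, y₀, fun y hy => ?_⟩
      rw [← e0]
      exact hC y hy
    · obtain ⟨h4, h5⟩ := shift h (fun z => z⁻¹) h1 h2
      rw [e0]
      refine neg_laplace ((Mero.mdata_lower E hal hT1 h4 h5).conv hK₀ hx₀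
        (fun u hu => (neg_le_abs _).trans (hb u hu)) ?_)
      have h6 := pointwise (f := fun x => -rest w α T m x) (al := al) (fun ε hε => by
        obtain ⟨C, hC⟩ := h3 ε hε
        exact ⟨C, hC.mono fun x hx => by linarith⟩)
      intro ε hε
      obtain ⟨C, y₀, hC⟩ := h6 ε hε
      refine ⟨C, y₀, fun y hy => ?_⟩
      rw [← e0]
      exact hC y hy

end Pool.Agent.V11333.PR
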