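import Pool.Agent.V11333.Cone4
import Pool.Agent.V11333.PureReal

/-!
# One-sided bounds and leading terms for pure systems of eigenvalues over number fields
-/

set_option autoImplicit false

open Filter Topology Set NumberField IsDedekindDomain
open Pool.Agent.TH942.ES
open Pool.Agent.H921R2.TatePole (nm)
open Pool.Agent.V11333.PR (ctr nal factor Pure)

namespace Pool.Agent.V11333.CP

variable {K : Type} [Field K] [NumberField K] {N : ℕ}
variable {S : Set (HeightOneSpectrum (𝓞 K))}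

/-- the sector `|arg (s - c)| < π/(2ρ)` -/
def Sector (c ρ : ℝ) : Set ℂ := {s | s ≠ c ∧ |(s - c).arg| < Real.pi / (2 * ρ)}

/-- the continuation to the sector with the leading term -/
def Continues (c σ : ℝ) (α : S → Fin N → ℂ) (ρ₀ : ℝ) (r : ℕ) (A : ℝ) : Prop :=
  ∃ G : ℂ → ℂ, (∀ s : ℂ, s ∈ Sector c ρ₀ ∨ σ < s.re → DifferentiableAt ℂ G s ∧ G s ≠ 0) ∧
    (∀ s : ℂ, σ < s.re → HasProd (fun v : S => factor α v s) (G s)) ∧
    ∀ ρ : ℝ, ρ₀ < ρ → Tendsto (fun s : ℂ => G s / (s - c) ^ r) (𝓝[Sector c ρ] (c : ℂ)) (𝓝 (A : ℂ))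

/-- The weight `w_ρ(u) = (1/2πi) ∫_{Re z = 1} exp(z - u z^{1/ρ}) dz/z`. -/
noncomputable def weight (ρ u : ℝ) : ℝ :=
  (2 * Real.pi)⁻¹ * ∫ t : ℝ, (Complex.exp ((1 + t * Complex.I) -
    u * (1 + t * Complex.I) ^ ((ρ⁻¹ : ℝ) : ℂ)) / (1 + t * Complex.I)).re

/-- the smoothed Euler product -/
noncomputable def mean (c : ℝ) (α : S → Fin N → ℂ) (ρ ρ' Y : ℝ) : ℝ :=
  ∑ᶠ (p : S × ℕ) (_ : (nm p.1.1 : ℝ) ^ (p.2 + 1) ≤ Real.exp (Real.log Y ^ ρ')),
    weight ρ (((p.2 : ℝ) + 1) * Real.log (nm p.1.1) / Real.log Y) *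
      ((∑ j, α p.1 j ^ (p.2 + 1)).re /
        (((p.2 : ℝ) + 1) * ((nm p.1.1 : ℝ) ^ c) ^ (p.2 + 1)))

/-- the limits -/
def Limits (c : ℝ) (α : S → Fin N → ℂ) (ρ₀ : ℝ) (r : ℕ) (A : ℝ) : Prop :=
  ∀ ρ ρ' : ℝ, ρ₀ < ρ → ρ < ρ' →
    Tendsto (fun Y : ℝ => mean c α ρ ρ' Y + r * Real.log (Real.log Y)) atTop
      (𝓝 (Real.log A - r * Real.eulerMascheroniConstant / ρ))

/-- the continuation along the real axis with the leading term -/
def RealContinues (c σ : ℝ) (α : S → Fin N → ℂ) (r : ℕ) (A : ℝ) : Prop :=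
  ∃ F : ℂ → ℂ, (∀ x : ℝ, c < x → AnalyticAt ℂ F x) ∧
    (∀ x : ℝ, σ < x → HasProd (fun v : S => factor α v x) (F x)) ∧
    Tendsto (fun x : ℝ => F x / ((x - c : ℝ) : ℂ) ^ r) (𝓝[>] c) (𝓝 (A : ℂ))

/-- the continuation of the inverse along the real axis with the leading term -/
def RealContinuesInv (c σ : ℝ) (α : S → Fin N → ℂ) (r : ℕ) (A : ℝ) : Prop :=
  ∃ F : ℂ → ℂ, (∀ x : ℝ, c < x → AnalyticAt ℂ F x) ∧
    (∀ x : ℝ, σ < x → HasProd (fun v : S => factor α v x) (F x)⁻¹) ∧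
    Tendsto (fun x : ℝ => F x * ((x - c : ℝ) : ℂ) ^ r) (𝓝[>] c) (𝓝 ((A : ℂ)⁻¹))

/-- lower bounds -/
def Lower (c : ℝ) (α : S → Fin N → ℂ) (ρ₀ : ℝ) (r : ℕ) : Prop :=
  ∀ ρ ρ' : ℝ, ρ₀ < ρ → ρ < ρ' → ∃ C : ℝ, ∀ᶠ Y : ℝ in atTop,
    -C ≤ mean c α ρ ρ' Y + r * Real.log (Real.log Y)

/-- upper bounds -/
def Upper (c : ℝ) (α : S → Fin N → ℂ) (ρ₀ : ℝ) (r : ℕ) : Prop :=
  ∀ ρ ρ' : ℝ, ρ₀ < ρ → ρ < ρ' → ∃ C : ℝ, ∀ᶠ Y : ℝ in atTop,
    mean c α ρ ρ' Y + r * Real.log (Real.log Y) ≤ C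

theorem mean_eq {w : ℝ} (α : S → Fin N → ℂ) (ρ ρ' Y : ℝ) : mean (ctr w) α ρ ρ' Y =
    StE (fun v : S => nm v.1) (nal w α) ρ ρ' Y := by
  unfold mean StE
  refine finsum_congr fun p => finsum_congr fun _ => ?_
  have h2 := PR.nrm_two p.1.1
  have h0 : (0 : ℝ) < nm p.1.1 := by linarith
  have h3 : (0 : ℝ) < (nm p.1.1 : ℝ) ^ ctr w := by positivity
  have e1 : cP (fun v : S => nm v.1) (nal w α) p =
      (∑ j, α p.1 j ^ (p.2 + 1)).re /
        (((p.2 : ℝ) + 1) * ((nm p.1.1 : ℝ) ^ ctr w) ^ (p.2 + 1)) := by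
    unfold cP
    simp only [PR.zv_eq, mul_pow]
    rw [← Finset.sum_mul, ← Complex.ofReal_pow, Complex.re_mul_ofReal, inv_pow]
    field_simp
  rw [e1]
  rfl

theorem sector_shift (c ρ : ℝ) (s : ℂ) :
    s ∈ Sector c ρ ↔ s - c ∈ Pool.Agent.TH942.SL.Sect ρ := by
  unfold Sector Pool.Agent.TH942.SL.Sect
  simp only [Set.mem_ofPred_eq, sub_ne_zero]

theorem tendsto_shift {c ρ : ℝ} {g : ℂ → ℂ} {l : Filter ℂ} :
    Tendsto (fun s : ℂ => g (s - c)) (𝓝[Sector c ρ] (c : ℂ)) l ↔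
      Tendsto g (𝓝[Pool.Agent.TH942.SL.Sect ρ] 0) l := by
  have h1 : Tendsto (fun s : ℂ => s - c) (𝓝[Sector c ρ] (c : ℂ))
      (𝓝[Pool.Agent.TH942.SL.Sect ρ] 0) := by
    refine tendsto_nhdsWithin_of_tendsto_nhds_of_eventually_within _ ?_ ?_
    · have : Tendsto (fun s : ℂ => s - c) (𝓝 (c : ℂ)) (𝓝 ((c : ℂ) - c)) :=
        (continuous_id.sub continuous_const).tendsto _
      rw [sub_self] at this
      exact this.mono_left nhdsWithin_le_nhds
    · filter_upwards [self_mem_nhdsWithin] with s hs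
      exact (sector_shift c ρ s).1 hs
  have h2 : Tendsto (fun s : ℂ => s + c) (𝓝[Pool.Agent.TH942.SL.Sect ρ] 0)
      (𝓝[Sector c ρ] (c : ℂ)) := by
    refine tendsto_nhdsWithin_of_tendsto_nhds_of_eventually_within _ ?_ ?_
    · have : Tendsto (fun s : ℂ => s + c) (𝓝 (0 : ℂ)) (𝓝 ((0 : ℂ) + c)) :=
        (continuous_id.add continuous_const).tendsto _
      rw [zero_add] at this
      exact this.mono_left nhdsWithin_le_nhds
    · filter_upwards [self_mem_nhdsWithin] with s hs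
      rw [sector_shift, add_sub_cancel_right]
      exact hs
  constructor
  · intro h
    refine (h.comp h2).congr fun s => ?_
    simp only [Function.comp_apply, add_sub_cancel_right]
  · intro h
    exact h.comp h1

theorem real_shift {c : ℝ} {g : ℝ → ℂ} {l : Filter ℂ} :
    Tendsto (fun x : ℝ => g (x - c)) (𝓝[>] c) l ↔ Tendsto g (𝓝[>] 0) l := by
  have h1 : Tendsto (fun x : ℝ => x - c) (𝓝[>] c) (𝓝[>] 0) := by
    refine tendsto_nhdsWithin_of_tendsto_nhds_of_eventually_within _ ?_ ?_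
    · have : Tendsto (fun x : ℝ => x - c) (𝓝 c) (𝓝 (c - c)) :=
        (continuous_id.sub continuous_const).tendsto _
      rw [sub_self] at this
      exact this.mono_left nhdsWithin_le_nhds
    · filter_upwards [self_mem_nhdsWithin] with x hx
      have hx' : c < x := hx
      exact sub_pos.2 hx'
  have h2 : Tendsto (fun x : ℝ => x + c) (𝓝[>] 0) (𝓝[>] c) := by
    refine tendsto_nhdsWithin_of_tendsto_nhds_of_eventually_within _ ?_ ?_
    · have : Tendsto (fun x : ℝ => x + c) (𝓝 0) (𝓝 (0 + c)) :=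
        (continuous_id.add continuous_const).tendsto _
      rw [zero_add] at this
      exact this.mono_left nhdsWithin_le_nhds
    · filter_upwards [self_mem_nhdsWithin] with x hx
      have hx' : 0 < x := hx
      exact (lt_add_iff_pos_left c).2 hx'
  constructor
  · intro h
    refine (h.comp h2).congr fun x => ?_
    simp only [Function.comp_apply, add_sub_cancel_right]
  · intro h
    exact h.comp h1

variable {w : ℝ} {α : S → Fin N → ℂ}

theorem hreal (h : Pure w α) (v : S) (k : ℕ) :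
    (∑ j, zv (fun v : S => nm v.1) (nal w α) v j ^ k).im = 0 := by
  simp only [PR.zv_eq]
  exact PR.pow_real h v _ k

theorem limits_iff (ρ₀ : ℝ) (r : ℕ) (A : ℝ) : Limits (ctr w) α ρ₀ r A ↔
    Cone.LimStar (fun v : S => nm v.1) (nal w α) ρ₀ r A := by
  unfold Limits Cone.LimStar
  simp only [mean_eq]

/-- sectors -/
theorem main_sector (h : Pure w α) {ρ₀ : ℝ} (hρ₀ : 1 ≤ ρ₀) (r : ℕ) {A : ℝ} (hA : 0 < A) :
    Limits (ctr w) α ρ₀ r A ↔ Continues (ctr w) (w + 1) α ρ₀ r A := by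
  have E := PR.sys h
  have h1 := E.star_equiv (hreal h) hρ₀ r hA
  rw [limits_iff]
  unfold Cone.LimStar
  rw [h1]
  have h3 : ∀ s : ℂ, w + 1 < s.re ↔ 1 / 2 < (s - ctr w).re := by
    intro s
    rw [Complex.sub_re, Complex.ofReal_re]
    unfold ctr
    constructor <;> intro <;> linarith
  constructor
  · rintro ⟨G, g1, g2, g3⟩
    refine ⟨fun s => G (s - ctr w), fun s hs => ?_, fun s hs => ?_, fun ρ hρ => ?_⟩
    · have h4 := g1 (s - ctr w) (hs.imp (sector_shift _ ρ₀ s).1 (h3 s).1)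
      exact ⟨h4.1.comp s (by fun_prop), h4.2⟩
    · rw [PR.hasProd_iff h hs]
      exact g2 _ ((h3 s).1 hs)
    · exact (tendsto_shift (g := fun s => G s / s ^ r)).2 (g3 ρ hρ)
  · rintro ⟨G, g1, g2, g3⟩
    refine ⟨fun s => G (s + ctr w), fun s hs => ?_, fun s hs => ?_, fun ρ hρ => ?_⟩
    · have h4 := g1 (s + ctr w) (hs.imp (fun h5 => by
        rwa [sector_shift, add_sub_cancel_right]) (fun h5 => by
        rwa [h3, add_sub_cancel_right]))
      exact ⟨h4.1.comp s (by fun_prop), h4.2⟩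
    · have h4 : w + 1 < (s + ctr w).re := by
        rwa [h3, add_sub_cancel_right]
      have h5 := (PR.hasProd_iff h h4 _).1 (g2 _ h4)
      rwa [add_sub_cancel_right] at h5
    · refine (tendsto_shift (c := ctr w) (g := fun s => G (s + ctr w) / s ^ r)).1 ?_
      refine (g3 ρ hρ).congr fun s => ?_
      rw [sub_add_cancel]

/-- the shift of a function analytic on the real axis -/
theorem an_shift {c t : ℝ} {F : ℂ → ℂ} {x : ℝ} (h : AnalyticAt ℂ F ((x + t : ℝ) : ℂ)) :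
    AnalyticAt ℂ (fun s => F (s + t)) (x : ℂ) := by
  have h1 : AnalyticAt ℂ (fun s : ℂ => s + t) (x : ℂ) := by fun_prop
  have h2 : AnalyticAt ℂ F ((fun s : ℂ => s + t) (x : ℂ)) := by
    simpa using h
  exact AnalyticAt.comp (g := F) (f := fun s : ℂ => s + t) h2 h1

theorem main_lower (h : Pure w α) {ρ₀ : ℝ} (hρ₀ : 1 ≤ ρ₀) (r : ℕ) {A : ℝ} (hA : 0 < A) :
    Limits (ctr w) α ρ₀ r A ↔
      RealContinues (ctr w) (w + 1) α r A ∧ Lower (ctr w) α ρ₀ r := by
  have E := PR.sys h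
  have h1 := Cone.star_lower E (hreal h) hρ₀ r hA
  rw [limits_iff, h1]
  refine and_congr ?_ ?_
  · constructor
    · rintro ⟨H, g1, g2, g3⟩
      refine ⟨fun s => H (s - ctr w), fun x hx => ?_, fun x hx => ?_, ?_⟩
      · have h4 := g1 (x - ctr w) (by linarith)
        have h5 := an_shift (c := 0) (t := -ctr w) (F := H) (x := x) (by
          rwa [← sub_eq_add_neg])
        refine h5.congr (Eventually.of_forall fun s => ?_)
        simp only [Complex.ofReal_neg, sub_eq_add_neg]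
      · rw [PR.hasProd_iff h (by rwa [Complex.ofReal_re])]
        have h4 := g2 (x - ctr w) (by unfold ctr; linarith)
        simp only
        rw [← Complex.ofReal_sub]
        exact h4
      · refine (real_shift (c := ctr w) (g := fun x => H x / (x : ℂ) ^ r)).2 g3 |>.congr fun x => ?_
        push_cast
        rfl
    · rintro ⟨F, g1, g2, g3⟩
      refine ⟨fun s => F (s + ctr w), fun x hx => an_shift (c := 0) (g1 _ (by linarith)),
        fun x hx => ?_, ?_⟩
      · have h4 := g2 (x + ctr w) (by unfold ctr; linarith)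
        rw [PR.hasProd_iff h (by rw [Complex.ofReal_re]; unfold ctr; linarith)] at h4
        simp only
        rw [← Complex.ofReal_add, h4, Complex.ofReal_add, add_sub_cancel_right]
      · refine (real_shift (c := ctr w) (g := fun x => F ((x : ℂ) + ctr w) / (x : ℂ) ^ r)).1 ?_
        refine g3.congr fun x => ?_
        push_cast
        rw [sub_add_cancel]
  · unfold Lower
    simp only [mean_eq]

theorem main_upper (h : Pure w α) {ρ₀ : ℝ} (hρ₀ : 1 ≤ ρ₀) (r : ℕ) {A : ℝ} (hA : 0 < A) :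
    Limits (ctr w) α ρ₀ r A ↔
      RealContinuesInv (ctr w) (w + 1) α r A ∧ Upper (ctr w) α ρ₀ r := by
  have E := PR.sys h
  have h1 := Cone.star_upper E (hreal h) hρ₀ r hA
  rw [limits_iff, h1]
  refine and_congr ?_ ?_
  · constructor
    · rintro ⟨H, g1, g2, g3⟩
      refine ⟨fun s => H (s - ctr w), fun x hx => ?_, fun x hx => ?_, ?_⟩
      · have h4 := g1 (x - ctr w) (by linarith)
        have h5 := an_shift (c := 0) (t := -ctr w) (F := H) (x := x) (by
          rwa [← sub_eq_add_neg])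
        refine h5.congr (Eventually.of_forall fun s => ?_)
        simp only [Complex.ofReal_neg, sub_eq_add_neg]
      · rw [PR.hasProd_iff h (by rwa [Complex.ofReal_re])]
        have h4 := g2 (x - ctr w) (by unfold ctr; linarith)
        simp only
        rw [← Complex.ofReal_sub, h4, inv_inv]
      · refine (real_shift (c := ctr w) (g := fun x => H x * (x : ℂ) ^ r)).2 g3 |>.congr fun x => ?_
        push_cast
        rfl
    · rintro ⟨F, g1, g2, g3⟩
      refine ⟨fun s => F (s + ctr w), fun x hx => an_shift (c := 0) (g1 _ (by linarith)),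
        fun x hx => ?_, ?_⟩
      · have h4 := g2 (x + ctr w) (by unfold ctr; linarith)
        rw [PR.hasProd_iff h (by rw [Complex.ofReal_re]; unfold ctr; linarith)] at h4
        simp only
        rw [← inv_inj, inv_inv, ← Complex.ofReal_add, h4, Complex.ofReal_add, add_sub_cancel_right]
      · refine (real_shift (c := ctr w) (g := fun x => F ((x : ℂ) + ctr w) * (x : ℂ) ^ r)).1 ?_
        refine g3.congr fun x => ?_
        push_cast
        rw [sub_add_cancel]
  · unfold Upper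
    simp only [mean_eq]

/-- **The main theorem** for pure systems. -/
theorem main (h : Pure w α) {c σ : ℝ} (hc : c = w + 1 / 2) (hσ : σ = w + 1) {ρ₀ : ℝ}
    (hρ₀ : 1 ≤ ρ₀) (r : ℕ) {A : ℝ} (hA : 0 < A) :
    (Limits c α ρ₀ r A ↔ Continues c σ α ρ₀ r A) ∧
    (Limits c α ρ₀ r A ↔ RealContinues c σ α r A ∧ Lower c α ρ₀ r) ∧
    (Limits c α ρ₀ r A ↔ RealContinuesInv c σ α r A ∧ Upper c α ρ₀ r) := by
  subst hc hσ
  exact ⟨main_sector h hρ₀ r hA, main_lower h hρ₀ r hA, main_upper h hρ₀ r hA⟩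

end Pool.Agent.V11333.CP
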