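import Pool.Agent.V11333.Cone4

/-!
# One-sided bounds of smoothed Euler products and the order at the vertex
-/

set_option autoImplicit false

open MeasureTheory Filter Topology Set Complex
open Pool.Agent.TH942.LS (Dat P P_le Cont)
open Pool.Agent.TH942.SL Pool.Agent.TH942.ES
open Pool.Agent.W263.BSD (LInt lap lapC lapC_ofReal lap_nonneg lapC_differentiableAt ell ell_meas
  ell_nonneg ell_lap_limit ell_LInt ell_mono ell_le log_le_ell ex ex_LInt ex_lap ex_meas lap_add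
  lap_const_mul)
open Pool.Agent.V11333.OneSide (DataLoc transform comp_an an_ofReal)

namespace Pool.Agent.V11333.Cone

/-- the identity theorem from the real axis -/
theorem eqOn_of_real {U : Set ℂ} (hU : IsOpen U) (hc : IsPreconnected U) {f g : ℂ → ℂ}
    (hf : ∀ s ∈ U, DifferentiableAt ℂ f s) (hg : ∀ s ∈ U, DifferentiableAt ℂ g s) {x₀ : ℝ}
    (hx : (x₀ : ℂ) ∈ U) (h : ∀ᶠ x : ℝ in 𝓝 x₀, f x = g x) : EqOn f g U := by
  have a1 : AnalyticOnNhd ℂ f U :=
    DifferentiableOn.analyticOnNhd (fun s hs => (hf s hs).differentiableWithinAt) hU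
  have a2 : AnalyticOnNhd ℂ g U :=
    DifferentiableOn.analyticOnNhd (fun s hs => (hg s hs).differentiableWithinAt) hU
  refine a1.eqOn_of_preconnected_of_frequently_eq a2 hc hx ?_
  have h1 : Tendsto (fun w : ℝ => (w : ℂ)) (𝓝[≠] x₀) (𝓝[≠] (x₀ : ℂ)) := by
    refine tendsto_nhdsWithin_of_tendsto_nhds_of_eventually_within _ ?_ ?_
    · exact (Complex.continuous_ofReal.tendsto _).mono_left nhdsWithin_le_nhds
    · filter_upwards [self_mem_nhdsWithin] with w hw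
      exact fun h => hw (Complex.ofReal_injective h)
  exact h1.frequently (Eventually.frequently (nhdsWithin_le_nhds h))

/-- positivity on the real axis -/
theorem real_pos {G : ℂ → ℂ} (hG : ∀ x : ℝ, 0 < x → AnalyticAt ℂ G x ∧ G x ≠ 0)
    (h1 : ∀ x : ℝ, 1 / 2 < x → ∃ t : ℝ, 0 < t ∧ G x = t) :
    ∀ x : ℝ, 0 < x → ∃ t : ℝ, 0 < t ∧ G x = t := by
  have him : ∀ x : ℝ, 0 < x → (G x).im = 0 := by
    have a1 : AnalyticOnNhd ℝ (fun x : ℝ => (G x).im) (Ioi 0) := fun x hx =>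
      AnalyticAt.comp (g := Complex.imCLM) (f := fun t : ℝ => G (t : ℂ))
        (Complex.imCLM.analyticAt _) (an_ofReal (hG x hx).1)
    have a2 : AnalyticOnNhd ℝ (fun _ : ℝ => (0 : ℝ)) (Ioi 0) := fun x _ => analyticAt_const
    have a3 := a1.eqOn_of_preconnected_of_eventuallyEq a2 isPreconnected_Ioi
      (Set.mem_Ioi.2 (one_pos : (0 : ℝ) < 1)) (by
        filter_upwards [lt_mem_nhds (show (1 / 2 : ℝ) < 1 by norm_num)] with x hx
        obtain ⟨t, -, ht⟩ := h1 x hx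
        rw [ht, Complex.ofReal_im])
    exact fun x hx => a3 hx
  have hre : ∀ x : ℝ, 0 < x → (G x).re ≠ 0 := fun x hx h0 =>
    (hG x hx).2 (Complex.ext h0 (him x hx))
  intro x hx
  refine ⟨(G x).re, ?_, Complex.ext (by simp) (by simp [him x hx])⟩
  by_contra hneg
  have h3 : (G x).re ≤ 0 := not_lt.1 hneg
  obtain ⟨t, ht, ht1⟩ := h1 1 (by norm_num)
  have h4 : 0 < (G ((1 : ℝ) : ℂ)).re := by
    rw [ht1, Complex.ofReal_re]
    exact ht
  have hcont : ContinuousOn (fun x : ℝ => (G x).re) (uIcc x 1) := by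
    intro y hy
    have hy0 : 0 < y := by
      have := hy.1
      have h5 : 0 < min x 1 := lt_min hx one_pos
      exact h5.trans_le this
    have h6 := (an_ofReal (hG y hy0).1).continuousAt
    exact (Complex.continuous_re.continuousAt.comp h6).continuousWithinAt
  have h5 := intermediate_value_uIcc hcont
  have h6 : (0 : ℝ) ∈ uIcc (G x).re (G ((1 : ℝ) : ℂ)).re := by
    rw [uIcc_of_le (h3.trans h4.le)]
    exact ⟨h3, h4.le⟩
  obtain ⟨y, hy, hy0⟩ := h5 h6
  have h7 : 0 < y := (lt_min hx one_pos).trans_le hy.1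
  exact hre y h7 hy0

variable {lam c : ℕ → ℝ} {δ σ : ℝ}

lemma DD_real (lam c : ℕ → ℝ) (x : ℝ) :
    DD lam c x = ((∑' n, c n * Real.exp (-(x * lam n)) : ℝ) : ℂ) := by
  unfold DD
  rw [Complex.ofReal_tsum]
  congr 1
  funext n
  push_cast
  rfl

/-- convergence from lower bounds -/
theorem conv_core (D : Dat lam c δ σ) {ρ : ℝ} (hρ : 1 < ρ) {K : ℝ}
    {H : ℂ → ℂ} (hH : ∀ x : ℝ, 0 < x → AnalyticAt ℂ H x) {σ' : ℝ}
    (hHe : ∀ x : ℝ, σ' < x → H x = exp (DD lam c x))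
    (hM : ∃ C : ℝ, ∀ᶠ y : ℝ in atTop, -C ≤ M lam c ρ⁻¹ y - K * ρ⁻¹ * Real.log y) :
    ∃ (a : ℝ → ℝ) (x₀ : ℝ), Measurable a ∧ (∀ w : ℝ, 0 < w → LInt a w) ∧
      (∀ v : ℂ, x₀ < v.re → v * lapC a v = f₀ lam c ρ⁻¹ v) ∧
      (∀ w : ℝ, 0 < w → H ((w ^ ρ⁻¹ : ℝ) : ℂ) = exp (((w * lap a w : ℝ)) : ℂ)) ∧
      ∃ C2 : ℝ, ∀ w : ℝ, 0 < w → -C2 ≤ w * lap a w - K * ρ⁻¹ * (w * lap ell w) := by
  have hρ0 : 0 < ρ := by linarith
  have h0 : 0 < ρ⁻¹ := by positivity
  have h1 : ρ⁻¹ < 1 := inv_lt_one_of_one_lt₀ hρ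
  obtain ⟨a, K1, x₀, ham, hK1, hx₀, haM, hbd, hint, htr⟩ := transform D h0 h1
  set b : ℝ → ℝ := fun u => -1 * a u with hb
  have hbm : Measurable b := ham.const_mul _
  have hbC : ∀ z : ℂ, lapC b z = -lapC a z := fun z => by
    rw [hb, lapC_const_mul]
    push_cast
    ring
  have hab : ∀ w : ℝ, LInt b w → LInt a w := by
    intro w hw
    have h2 := hw.const_mul (-1)
    have h3 : (fun u => -1 * b u) = a := by
      funext u
      rw [hb]
      ring
    rwa [h3] at h2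
  set c0 : ℝ := max x₀ (|σ'| ^ ρ) with hc0
  have hroot : ∀ w : ℝ, c0 < w → σ' < w ^ ρ⁻¹ := by
    intro w hw
    have h2 : |σ'| ^ ρ < w := (le_max_right _ _).trans_lt hw
    have h3 := Real.rpow_lt_rpow (by positivity) h2 h0
    rw [Real.rpow_rpow_inv (abs_nonneg _) hρ0.ne'] at h3
    exact (le_abs_self _).trans_lt h3
  have DL : DataLoc 0 b (fun v => H (v ^ ((ρ⁻¹ : ℝ) : ℂ))) (fun _ => 0) c0 :=
    { al_nonneg := le_rfl
      meas := hbm
      c0_nonneg := le_max_of_le_left hx₀.le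
      int := fun w hw => (hint w ((le_max_left _ _).trans_lt hw)).const_mul _
      hΦ := fun w hw => comp_an hH hw
      hG := fun z hz => differentiableAt_const _
      eq := fun w hw => by
        have hw0 : 0 ≤ w := (le_max_of_le_left hx₀.le).trans hw.le
        have hwx : x₀ < w := (le_max_left _ _).trans_lt hw
        have e3 : (w : ℂ) ^ ((ρ⁻¹ : ℝ) : ℂ) = ((w ^ ρ⁻¹ : ℝ) : ℂ) :=
          (Complex.ofReal_cpow hw0 _).symm
        have e4 := htr (w : ℂ) (by rwa [Complex.ofReal_re])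
        unfold f₀ at e4
        rw [e3] at e4
        rw [e3, hHe _ (hroot w hw), hbC, ← e4]
        congr 1
        ring }
  obtain ⟨C, hC⟩ := hM
  obtain ⟨y₁, hy₁⟩ := (hC.and (eventually_ge_atTop 2)).exists_forall_of_atTop
  set y₀ : ℝ := max y₁ 2 with hy₀
  have hy02 : 2 ≤ y₀ := le_max_right _ _
  have hy0 : ∀ y, y₀ ≤ y → -C ≤ a y - K * ρ⁻¹ * Real.log y := by
    intro y hy
    have e1 := (hy₁ y ((le_max_left _ _).trans hy)).1
    rwa [haM y (by linarith)]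
  have hsm : ∀ u, 0 < u → u ≤ y₀ → |a u| ≤ K1 * Real.exp (x₀ * y₀) := by
    intro u hu huy
    refine (hbd u hu).trans (mul_le_mul_of_nonneg_left (Real.exp_le_exp.2 ?_) hK1)
    exact mul_le_mul_of_nonneg_left huy hx₀.le
  have hell0 := ell_nonneg (show (0 : ℝ) ≤ y₀ by linarith)
  have hKρ : |K * ρ⁻¹| = |K| * ρ⁻¹ := by
    rw [abs_mul, abs_of_pos h0]
  have hex : 0 ≤ K1 * Real.exp (x₀ * y₀) := by positivity
  set C2 : ℝ := |C| + |K| * ρ⁻¹ * (1 + ell y₀) + K1 * Real.exp (x₀ * y₀) with hC2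
  -- the nonnegative function
  set g : ℝ → ℝ := fun u => (a u + -(K * ρ⁻¹) * ell u) + C2 * ex 0 u with hg
  have hg0 : ∀ u, 0 < u → 0 ≤ g u := by
    intro u hu
    have e0 : g u = a u + -(K * ρ⁻¹) * ell u + C2 := by
      rw [hg, ex_zero]
      ring
    rw [e0]
    have hCa := neg_abs_le C
    have hCb := le_abs_self C
    rcases le_total y₀ u with h | h
    · have e1 := hy0 u h
      have e2 := ell_le (hy02.trans h)
      have e3 := log_le_ell hu
      have e4 : |K * ρ⁻¹ * (ell u - Real.log u)| ≤ |K| * ρ⁻¹ * 1 := by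
        rw [abs_mul, hKρ]
        refine mul_le_mul_of_nonneg_left ?_ (by positivity)
        rw [abs_le]
        constructor <;> linarith
      have e5 := (abs_le.1 e4).2
      have e6 : 0 ≤ |K| * ρ⁻¹ * ell y₀ := by positivity
      rw [hC2]
      nlinarith
    · have e1 := hsm u hu h
      have e3 : |K * ρ⁻¹ * ell u| ≤ |K| * ρ⁻¹ * ell y₀ := by
        rw [abs_mul, hKρ]
        refine mul_le_mul_of_nonneg_left ?_ (by positivity)
        rw [abs_of_nonneg (by linarith [ell_nonneg hu.le])]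
        exact ell_mono hu.le h
      have e4 := (abs_le.1 e1).1
      have e5 := (abs_le.1 e3).2
      have e6 : 0 ≤ |K| * ρ⁻¹ := by positivity
      rw [hC2]
      nlinarith [abs_nonneg C]
  -- convergence
  have hconvb : ∀ w : ℝ, 0 < w → LInt b w := by
    refine DL.core_upper (w0 := 0) le_rfl
      (κ := fun u => -(K * ρ⁻¹) * ell u + C2 * ex 0 u)
      ((ell_meas.const_mul _).add ((ex_meas 0).const_mul _))
      (fun w hw => ((ell_LInt hw).const_mul _).add ((ex_LInt hw).const_mul _)) fun u hu => ?_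
    have e1 := hg0 u hu
    rw [hg] at e1
    simp only at e1
    rw [hb]
    simp only
    linarith
  have hconv : ∀ w : ℝ, 0 < w → LInt a w := fun w hw => hab w (hconvb w hw)
  refine ⟨a, x₀, ham, hconv, htr, fun w hw => ?_, C2, fun w hw => ?_⟩
  · have e1 := DL.eq_of_conv (s := 0) le_rfl hconvb w hw
    have e3 : (w : ℂ) ^ ((ρ⁻¹ : ℝ) : ℂ) = ((w ^ ρ⁻¹ : ℝ) : ℂ) :=
      (Complex.ofReal_cpow hw.le _).symm
    rw [e3] at e1
    rw [e1, hbC, lapC_ofReal]
    congr 1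
    push_cast
    ring
  · have e2 : lap g w = (lap a w + -(K * ρ⁻¹) * lap ell w) + C2 * (1 / (w - 0)) := by
      rw [hg, lap_add ((hconv w hw).add ((ell_LInt hw).const_mul _))
        ((ex_LInt hw).const_mul _), lap_add (hconv w hw)
        ((ell_LInt hw).const_mul _), lap_const_mul, lap_const_mul, ex_lap hw]
    have e3 := lap_nonneg hg0 w
    have e4 : 0 ≤ w * lap g w := mul_nonneg hw.le e3
    have e5 : w * lap g w = w * lap a w - K * ρ⁻¹ * (w * lap ell w) + C2 := by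
      rw [e2, sub_zero]
      field_simp
      ring
    linarith

/-- the lower bound on the real axis -/
theorem real_lower {ρ K : ℝ} (hρ : 1 < ρ) {H : ℂ → ℂ} {a : ℝ → ℝ}
    (hval : ∀ w : ℝ, 0 < w → H ((w ^ ρ⁻¹ : ℝ) : ℂ) = exp (((w * lap a w : ℝ)) : ℂ)) {C2 : ℝ}
    (hC2 : ∀ w : ℝ, 0 < w → -C2 ≤ w * lap a w - K * ρ⁻¹ * (w * lap ell w)) :
    ∃ B : ℝ, 0 < B ∧ ∀ᶠ x : ℝ in 𝓝[>] 0, B * Real.exp (-K * Real.log x) ≤ ‖H x‖ := by
  have hρ0 : 0 < ρ := by linarith
  have h0 : 0 < ρ⁻¹ := by positivity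
  have h1 := (Metric.tendsto_nhds.1 ell_lap_limit) 1 one_pos
  have h2 : Tendsto (fun x : ℝ => x ^ ρ) (𝓝[>] 0) (𝓝[>] 0) := by
    refine tendsto_nhdsWithin_of_tendsto_nhds_of_eventually_within _ ?_ ?_
    · have e2 : Tendsto (fun w : ℝ => w ^ ρ) (𝓝[>] 0) (𝓝 (0 ^ ρ)) :=
        (tendsto_id.mono_left nhdsWithin_le_nhds).rpow_const (Or.inr hρ0.le)
      rwa [Real.zero_rpow hρ0.ne'] at e2
    · filter_upwards [self_mem_nhdsWithin] with w hw
      exact Real.rpow_pos_of_pos hw _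
  set γ := Real.eulerMascheroniConstant with hγ
  refine ⟨Real.exp (-C2 - |K * ρ⁻¹| * (1 + |γ|)), Real.exp_pos _, ?_⟩
  filter_upwards [h2.eventually h1, self_mem_nhdsWithin] with x hx hx0
  have hx' : 0 < x := hx0
  have hxρ : 0 < x ^ ρ := Real.rpow_pos_of_pos hx' _
  have e1 := hval (x ^ ρ) hxρ
  rw [Real.rpow_rpow_inv hx'.le hρ0.ne'] at e1
  have e2 := hC2 (x ^ ρ) hxρ
  rw [e1, Complex.norm_exp, Complex.ofReal_re, ← Real.exp_add]
  apply Real.exp_le_exp.2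
  rw [Real.dist_eq] at hx
  set L := x ^ ρ * lap ell (x ^ ρ) with hL
  have e3 : Real.log (x ^ ρ) = ρ * Real.log x := Real.log_rpow hx' _
  rw [e3] at hx
  have e4 : |L + ρ * Real.log x| ≤ 1 + |γ| := by
    have e5 : L + ρ * Real.log x = (L + ρ * Real.log x - -γ) + -γ := by ring
    rw [e5]
    refine (abs_add_le _ _).trans (add_le_add hx.le ?_)
    rw [abs_neg]
  have e6 : |K * ρ⁻¹ * (L + ρ * Real.log x)| ≤ |K * ρ⁻¹| * (1 + |γ|) := by
    rw [abs_mul]
    exact mul_le_mul_of_nonneg_left e4 (abs_nonneg _)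
  have e7 := (abs_le.1 e6).1
  have e8 : K * ρ⁻¹ * (L + ρ * Real.log x) = K * ρ⁻¹ * L + K * Real.log x := by
    field_simp
  linarith

/-- the order -/
theorem order_le {H : ℂ → ℂ} (h0 : AnalyticAt ℂ H 0) {t : ℝ} {B : ℝ} (hB : 0 < B)
    (h : ∀ᶠ x : ℝ in 𝓝[>] 0, B * Real.exp (t * Real.log x) ≤ ‖H x‖) :
    ∃ m : ℕ, analyticOrderAt H 0 = m ∧ (m : ℝ) ≤ t := by
  have key : ∀ m : ℕ, (m : ℕ∞) ≤ analyticOrderAt H 0 → (m : ℝ) ≤ t := by
    intro m hm
    by_contra hcon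
    have hmt : 0 < (m : ℝ) - t := by linarith [not_le.1 hcon]
    obtain ⟨g, hg, hge⟩ := (natCast_le_analyticOrderAt h0).1 hm
    have hT : Tendsto (fun x : ℝ => (x : ℂ)) (𝓝[>] 0) (𝓝 0) := by
      have := Complex.continuous_ofReal.tendsto (0 : ℝ)
      rw [Complex.ofReal_zero] at this
      exact this.mono_left nhdsWithin_le_nhds
    have hgc : Tendsto (fun x : ℝ => ‖g x‖) (𝓝[>] 0) (𝓝 ‖g 0‖) :=
      (hg.continuousAt.tendsto.comp hT).norm
    have hev : ∀ᶠ x : ℝ in 𝓝[>] 0, H x = ((x : ℂ) - 0) ^ m • g x := hT.eventually hge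
    have hpw : Tendsto (fun x : ℝ => x ^ ((m : ℝ) - t)) (𝓝[>] 0) (𝓝 (0 ^ ((m : ℝ) - t))) :=
      (tendsto_id.mono_left nhdsWithin_le_nhds).rpow_const (Or.inr hmt.le)
    have hlim := hpw.mul hgc
    rw [Real.zero_rpow hmt.ne', zero_mul] at hlim
    obtain ⟨x, hx⟩ := (h.and (hev.and ((hlim.eventually (gt_mem_nhds hB)).and
      self_mem_nhdsWithin))).exists
    obtain ⟨e1, e2, e3, e4⟩ := hx
    have hx0 : 0 < x := e4
    rw [e2, sub_zero, norm_smul, norm_pow, Complex.norm_real, Real.norm_eq_abs,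
      abs_of_pos hx0] at e1
    have e5 : Real.exp (t * Real.log x) = x ^ t := by
      rw [Real.rpow_def_of_pos hx0, mul_comm]
    have e6 : x ^ m = x ^ t * x ^ ((m : ℝ) - t) := by
      rw [← Real.rpow_add hx0, ← Real.rpow_natCast]
      congr 1
      ring
    have e7 : 0 < x ^ t := Real.rpow_pos_of_pos hx0 _
    rw [e5, e6, mul_comm B, mul_assoc] at e1
    have e8 := le_of_mul_le_mul_left e1 e7
    linarith
  have h1 : analyticOrderAt H 0 ≠ ⊤ := by
    intro h2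
    obtain ⟨m, hm⟩ := exists_nat_gt t
    have h3 := key m (by rw [h2]; exact le_top)
    linarith
  exact ⟨(analyticOrderAt H 0).toNat, (ENat.natCast_toNat h1).symm,
    key _ (ENat.natCast_toNat h1).le⟩

end Pool.Agent.V11333.Cone
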