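import Pool.Agent.V11333.Cone6

/-!
# One-sided bounds of smoothed Euler products and the order at the vertex: the equivalence
-/

set_option autoImplicit false

open MeasureTheory Filter Topology Set Complex
open Pool.Agent.TH942.LS (Dat P P_le Cont)
open Pool.Agent.TH942.SL Pool.Agent.TH942.ES
open Pool.Agent.W263.BSD (LInt lap lapC lapC_ofReal lapC_differentiableAt)
open Pool.Agent.V11333.OneSide (an_ofReal)

namespace Pool.Agent.V11333.Cone

variable {lam c : ℕ → ℝ} {δ σ : ℝ}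

/-- the continuation to the sector -/
theorem ext_diff (D : Dat lam c δ σ) {ρ : ℝ} (hρ : 1 < ρ) {a : ℝ → ℝ} {x₀ : ℝ}
    (ham : Measurable a) (hconv : ∀ w : ℝ, 0 < w → LInt a w)
    (htr : ∀ v : ℂ, x₀ < v.re → v * lapC a v = f₀ lam c ρ⁻¹ v) :
    ∃ Dh : ℂ → ℂ, (∀ s ∈ Sect ρ, DifferentiableAt ℂ Dh s) ∧
      (∀ s ∈ Sect ρ, σ < s.re → Dh s = DD lam c s) ∧
      ∀ x : ℝ, 0 < x → Dh x = ((x ^ ρ * lap a (x ^ ρ) : ℝ) : ℂ) := by
  have hρ0 : 0 < ρ := by linarith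
  have h0 : 0 < ρ⁻¹ := by positivity
  have h1 : ρ⁻¹ < 1 := inv_lt_one_of_one_lt₀ hρ
  set fh : ℂ → ℂ := fun v => v * lapC a v with hfh
  have hfd : ∀ v : ℂ, 0 < v.re → DifferentiableAt ℂ fh v := fun v hv =>
    differentiableAt_id.mul (lapC_differentiableAt ham (w0 := 0) hconv hv)
  have hdiff : ∀ s ∈ Sect ρ, DifferentiableAt ℂ (fun s : ℂ => fh (s ^ (ρ : ℂ))) s := by
    intro s hs
    obtain ⟨h2, -⟩ := exists_root hρ hs.1 hs.2
    exact DifferentiableAt.comp (g := fh) (f := fun s : ℂ => s ^ (ρ : ℂ)) s (hfd _ h2)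
      (differentiableAt_id.cpow_const (slit (sect_re hρ hs)))
  refine ⟨fun s => fh (s ^ (ρ : ℂ)), hdiff, ?_, ?_⟩
  · set R : Set ℂ := Sect ρ ∩ {s : ℂ | σ < s.re} with hR
    have hRo : IsOpen R := (sect_open hρ).inter (isOpen_lt continuous_const Complex.continuous_re)
    have hRc : Convex ℝ R := (sect_convex hρ).inter (convex_halfSpace_re_gt σ)
    have hT : Tendsto (fun x : ℝ => x ^ ρ) atTop atTop := tendsto_rpow_atTop hρ0
    obtain ⟨y, hy⟩ := ((hT.eventually_gt_atTop x₀).and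
      ((eventually_gt_atTop σ).and (eventually_gt_atTop 0))).exists_forall_of_atTop
    obtain ⟨-, hx2, hx3⟩ := hy y le_rfl
    have hxR : ((y + 1 : ℝ) : ℂ) ∈ R := ⟨sect_real hρ (by linarith), by
      rw [Set.mem_ofPred_eq, Complex.ofReal_re]
      linarith⟩
    have a3 := eqOn_of_real hRo hRc.isPreconnected (f := fun s : ℂ => fh (s ^ (ρ : ℂ)))
      (g := DD lam c) (fun s hs => hdiff s hs.1) (fun s hs => (dd_deriv D hs.2).differentiableAt)
      hxR (by
        filter_upwards [lt_mem_nhds (show y < y + 1 by linarith)] with x hx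
        obtain ⟨e1, e2, e3⟩ := hy x hx.le
        have e4 : ((x : ℂ)) ^ (ρ : ℂ) = ((x ^ ρ : ℝ) : ℂ) := (Complex.ofReal_cpow e3.le _).symm
        have e5 := htr (((x ^ ρ : ℝ)) : ℂ) (by rwa [Complex.ofReal_re])
        simp only [hfh]
        rw [e4, e5]
        unfold f₀
        rw [← e4, (exists_root hρ (sect_real hρ e3).1 (sect_real hρ e3).2).2])
    exact fun s hs hσ => a3 ⟨hs, hσ⟩
  · intro x hx
    have e4 : ((x : ℂ)) ^ (ρ : ℂ) = ((x ^ ρ : ℝ) : ℂ) := (Complex.ofReal_cpow hx.le _).symm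
    simp only [hfh]
    rw [e4, lapC_ofReal]
    push_cast
    ring

/-- **The limits at a vertex where the function is analytic.** -/
theorem limits_of_analytic (D : Dat lam c δ σ) {ρ₁ : ℝ} (hρ₁ : 1 < ρ₁) {H h : ℂ → ℂ}
    {Dh : ℂ → ℂ} (hDd : ∀ s ∈ Sect ρ₁, DifferentiableAt ℂ Dh s)
    (hDe : ∀ s ∈ Sect ρ₁, σ < s.re → Dh s = DD lam c s)
    (hDr : ∀ x : ℝ, 0 < x → (Dh x).im = 0)
    (hDH : ∀ x : ℝ, 0 < x → exp (Dh x) = H x)
    (hH0 : AnalyticAt ℂ H 0) (hh : AnalyticAt ℂ h 0) {m : ℕ} {A : ℝ} (hA : 0 < A)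
    (hhA : h 0 = A) (hHh : ∀ᶠ s : ℂ in 𝓝 0, H s = s ^ m * h s) :
    ∀ ρ : ℝ, ρ₁ < ρ → Tendsto (fun y : ℝ => M lam c ρ⁻¹ y - (-(m : ℝ)) * ρ⁻¹ * Real.log y) atTop
      (𝓝 (Real.log A + (-(m : ℝ)) * ρ⁻¹ * Real.eulerMascheroniConstant)) := by
  -- near the vertex
  have hHd : ∀ᶠ s : ℂ in 𝓝 0, DifferentiableAt ℂ H s := by
    filter_upwards [hH0.eventually_analyticAt] with s hs
    exact hs.differentiableAt
  obtain ⟨ε, hε, hball⟩ := Metric.eventually_nhds_iff_ball.1 (hHd.and hHh)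
  set U : Set ℂ := Sect ρ₁ ∩ Metric.ball 0 ε with hU
  have hUo : IsOpen U := (sect_open hρ₁).inter Metric.isOpen_ball
  have hUc : Convex ℝ U := (sect_convex hρ₁).inter (convex_ball 0 ε)
  have hx : ((ε / 2 : ℝ) : ℂ) ∈ U := by
    refine ⟨sect_real hρ₁ (by positivity), ?_⟩
    rw [Metric.mem_ball, dist_zero_right, Complex.norm_real, Real.norm_eq_abs,
      abs_of_pos (by positivity)]
    linarith
  have heq : EqOn (fun s => exp (Dh s)) H U := by
    refine eqOn_of_real hUo hUc.isPreconnected (fun s hs => (hDd s hs.1).cexp)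
      (fun s hs => (hball s hs.2).1) hx ?_
    filter_upwards [lt_mem_nhds (show 0 < ε / 2 by positivity)] with x hx
    exact hDH x hx
  -- the limit of the exponential
  set u : ℂ → ℂ := fun s => Dh s + ((-(m : ℝ) : ℝ) : ℂ) * log s with hu
  have hud : ∀ s ∈ Sect ρ₁, DifferentiableAt ℂ u s := fun s hs =>
    (hDd s hs).add ((Complex.differentiableAt_log (slit (sect_re hρ₁ hs))).const_mul _)
  have hul : Tendsto (fun s => exp (u s)) (𝓝[Sect ρ₁] 0) (𝓝 (A : ℂ)) := by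
    have e1 : Tendsto h (𝓝[Sect ρ₁] 0) (𝓝 (A : ℂ)) := by
      rw [← hhA]
      exact hh.continuousAt.tendsto.mono_left nhdsWithin_le_nhds
    refine e1.congr' ?_
    filter_upwards [inter_mem_nhdsWithin (Sect ρ₁) (Metric.ball_mem_nhds (0 : ℂ) hε)] with s hs
    have hs0 : s ≠ 0 := hs.1.1
    have e2 : exp (Dh s) = s ^ m * h s := (heq hs).trans (hball s hs.2).2
    rw [hu]
    simp only
    rw [Complex.exp_add, e2]
    have e3 : exp (((-(m : ℝ) : ℝ) : ℂ) * log s) = (s ^ m)⁻¹ := by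
      push_cast
      rw [neg_mul, Complex.exp_neg, Complex.exp_nat_mul, Complex.exp_log hs0]
    rw [e3]
    field_simp
  obtain ⟨κ, hκ1, hκ2⟩ := log_conv hρ₁ hud hA hul
  -- the logarithm is real
  have hκr : κ.im = 0 := by
    have e1 := (Complex.continuous_im.tendsto κ).comp (hκ2.comp (real_path hρ₁.le))
    have e2 : Tendsto (fun _ : ℝ => (0 : ℝ)) (𝓝[>] (0 : ℝ)) (𝓝 κ.im) := by
      refine e1.congr' ?_
      filter_upwards [self_mem_nhdsWithin] with x hx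
      have hx' : 0 < x := hx
      simp only [Function.comp_apply, hu]
      rw [← Complex.ofReal_log hx'.le, ← Complex.ofReal_mul, Complex.add_im, hDr x hx',
        Complex.ofReal_im, add_zero]
    exact tendsto_nhds_unique e2 tendsto_const_nhds |>.symm ▸ rfl
  have hκe : κ = ((Real.log A : ℝ) : ℂ) := by
    have e1 : κ = ((κ.re : ℝ) : ℂ) := Complex.ext (by simp) (by simp [hκr])
    rw [e1] at hκ1 ⊢
    rw [← Complex.ofReal_exp] at hκ1
    have e2 : Real.exp κ.re = A := by exact_mod_cast hκ1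
    rw [← e2, Real.log_exp]
  rw [hκe] at hκ2
  refine (sect_equiv D hρ₁.le (-(m : ℝ)) (Real.log A)).2 ⟨Dh, hDd, hDe, fun ρ hρ => ?_⟩
  exact hκ2.mono_left (nhdsWithin_mono 0 (sect_mono hρ₁ hρ.le))

variable {X : Type} {d : ℕ} {N : X → ℕ} {α : X → Fin d → ℂ}

/-- the translation of the limits -/
theorem limStar_of_M (E : Sys N α) {e : X × ℕ → ℕ} (he : Function.Injective e) {ρ₀ : ℝ}
    (h : 1 ≤ ρ₀) {r : ℕ} {A : ℝ}
    (hM : ∀ ρ : ℝ, ρ₀ < ρ → Tendsto (fun y : ℝ => M (lamS N e) (cS N α e) ρ⁻¹ y -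
      (-(r : ℝ)) * ρ⁻¹ * Real.log y) atTop
      (𝓝 (Real.log A + (-(r : ℝ)) * ρ⁻¹ * Real.eulerMascheroniConstant))) :
    LimStar N α ρ₀ r A := by
  intro ρ ρ' hρ hρ'
  have hρ1 : 1 < ρ := by linarith
  have hρ0 : 0 < ρ := by linarith
  have hpow : Tendsto (fun Y : ℝ => Real.log Y ^ ρ) atTop atTop :=
    (tendsto_rpow_atTop hρ0).comp Real.tendsto_log_atTop
  have h2 := ((hM ρ hρ).comp hpow).add (E.St_close he hρ1 hρ')
  have e0 : Real.log A + -(r : ℝ) * ρ⁻¹ * Real.eulerMascheroniConstant + 0 =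
      Real.log A - r * Real.eulerMascheroniConstant / ρ := by
    rw [div_eq_mul_inv]
    ring
  rw [e0] at h2
  refine h2.congr' ?_
  filter_upwards [eventually_gt_atTop 1] with Y hY
  have e1 : ρ⁻¹ * Real.log (Real.log Y ^ ρ) = Real.log (Real.log Y) := by
    rw [Real.log_rpow (Real.log_pos hY)]
    field_simp
  simp only [Function.comp_apply]
  rw [← e1]
  ring

/-- positivity of the leading coefficient -/
theorem lead_pos {H h : ℂ → ℂ} (hpos : ∀ x : ℝ, 0 < x → ∃ t : ℝ, 0 < t ∧ H x = t)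
    (hh : AnalyticAt ℂ h 0) (hh0 : h 0 ≠ 0) {m : ℕ}
    (hHh : ∀ᶠ s : ℂ in 𝓝 0, H s = s ^ m * h s) : ∃ A : ℝ, 0 < A ∧ h 0 = A := by
  have hT : Tendsto (fun x : ℝ => (x : ℂ)) (𝓝[>] 0) (𝓝 0) := by
    have := Complex.continuous_ofReal.tendsto (0 : ℝ)
    rw [Complex.ofReal_zero] at this
    exact this.mono_left nhdsWithin_le_nhds
  have h1 : Tendsto (fun x : ℝ => h x) (𝓝[>] 0) (𝓝 (h 0)) := hh.continuousAt.tendsto.comp hT
  have h2 : ∀ᶠ x : ℝ in 𝓝[>] 0, (h x).im = 0 ∧ 0 ≤ (h x).re := by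
    filter_upwards [hT.eventually hHh, self_mem_nhdsWithin] with x hx hx0
    have hx0' : 0 < x := hx0
    obtain ⟨t, ht, htx⟩ := hpos x hx0'
    have hxc : (x : ℂ) ^ m ≠ 0 := pow_ne_zero _ (by exact_mod_cast hx0'.ne')
    have e1 : h x = ((t / x ^ m : ℝ) : ℂ) := by
      rw [htx] at hx
      push_cast
      rw [hx]
      field_simp
    rw [e1, Complex.ofReal_im, Complex.ofReal_re]
    exact ⟨rfl, by positivity⟩
  have h3 : (h 0).im = 0 := by
    have e1 := (Complex.continuous_im.tendsto _).comp h1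
    have e2 : Tendsto (fun _ : ℝ => (0 : ℝ)) (𝓝[>] (0 : ℝ)) (𝓝 (h 0).im) :=
      e1.congr' (h2.mono fun x hx => hx.1)
    exact (tendsto_nhds_unique e2 tendsto_const_nhds)
  have h4 : 0 ≤ (h 0).re := by
    have e1 := (Complex.continuous_re.tendsto _).comp h1
    exact ge_of_tendsto e1 (h2.mono fun x hx => hx.2)
  refine ⟨(h 0).re, lt_of_le_of_ne h4 fun h5 => hh0 (Complex.ext h5.symm h3),
    Complex.ext (by simp) (by simp [h3])⟩

/-- translation of the lower bounds, with a real exponent -/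
lemma bound_M' (E : Sys N α) {e : X × ℕ → ℕ} (he : Function.Injective e) {ρ ρ' : ℝ} (hρ : 1 < ρ)
    (hρ' : ρ < ρ') (t : ℝ)
    (h : ∃ C : ℝ, ∀ᶠ Y : ℝ in atTop, -C ≤ StE N α ρ ρ' Y + t * Real.log (Real.log Y)) :
    ∃ C : ℝ, ∀ᶠ y : ℝ in atTop,
      -C ≤ M (lamS N e) (cS N α e) ρ⁻¹ y - (-t) * ρ⁻¹ * Real.log y := by
  obtain ⟨C, hC⟩ := h
  have hc := (Metric.tendsto_nhds.1 (E.St_close he hρ hρ')) 1 one_pos
  have h1 := (Sys.tendsto_exp_rpow hρ).eventually (hC.and hc)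
  refine ⟨C + 1, ?_⟩
  filter_upwards [h1, eventually_gt_atTop 0] with y hy hy0
  obtain ⟨e1, e2⟩ := hy
  rw [Sys.pow_log hρ hy0.le, dist_zero_right, Real.norm_eq_abs] at e2
  have e3 : Real.log (Real.log (Real.exp (y ^ ρ⁻¹))) = ρ⁻¹ * Real.log y := by
    rw [Real.log_exp, Real.log_rpow hy0]
  rw [e3] at e1
  have e4 := abs_lt.1 e2
  linarith

/-- **One-sided bounds and the order.** -/
theorem order_lower (E : Sys N α) (hreal : ∀ v k, (∑ i, zv N α v i ^ k).im = 0) {ρ₀ : ℝ}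
    (h : 1 ≤ ρ₀) {H : ℂ → ℂ} (hH : ∀ x : ℝ, 0 ≤ x → AnalyticAt ℂ H x)
    (hHe : ∀ x : ℝ, 1 / 2 < x → H x = LE N α x) (t : ℝ) :
    (∀ ρ ρ' : ℝ, ρ₀ < ρ → ρ < ρ' → ∃ C : ℝ, ∀ᶠ Y : ℝ in atTop,
        -C ≤ StE N α ρ ρ' Y + t * Real.log (Real.log Y)) ↔
      (∃ m : ℕ, analyticOrderAt H 0 = m ∧ (m : ℝ) ≤ t) ∧
      ∃ G : ℂ → ℂ, (∀ s : ℂ, s ∈ Sect ρ₀ ∨ 1 / 2 < s.re → DifferentiableAt ℂ G s ∧ G s ≠ 0) ∧
        ∀ s : ℂ, 1 / 2 < s.re → G s = LE N α s := by
  have := E.cnt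
  obtain ⟨e, he⟩ := Countable.exists_injective_nat (X × ℕ)
  set D := E.datS he (σ := 1) (by norm_num) with hD
  have hH0 : AnalyticAt ℂ H 0 := by simpa using hH 0 le_rfl
  have hLE : ∀ x : ℝ, 1 / 2 < x → LE N α x = exp (DD (lamS N e) (cS N α e) x) := fun x hx =>
    (E.exp_DD hreal he (by rwa [Complex.ofReal_re])).symm
  constructor
  · intro hb
    have hcore : ∀ ρ : ℝ, ρ₀ < ρ → _ := fun ρ hρ =>
      conv_core (D := D) (ρ := ρ) (by linarith) (K := -t)
        (H := H) (fun x hx => hH x hx.le) (σ' := 1 / 2)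
        (fun x hx => by rw [hHe x hx, hLE x hx])
        (bound_M' E he (ρ := ρ) (ρ' := ρ + 1) (by linarith) (by linarith) t
          (hb ρ (ρ + 1) hρ (by linarith)))
    -- positivity and order
    have h1 : 1 < ρ₀ + 1 := by linarith
    obtain ⟨a, x₀, ham, hconv, htr, hval, C2, hC2⟩ := hcore (ρ₀ + 1) (by linarith)
    have hpos : ∀ x : ℝ, 0 < x → ∃ t : ℝ, 0 < t ∧ H x = t := by
      intro x hx
      have e1 := hval (x ^ (ρ₀ + 1)) (Real.rpow_pos_of_pos hx _)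
      rw [Real.rpow_rpow_inv hx.le (by linarith)] at e1
      exact ⟨_, Real.exp_pos _, by rw [e1, ← Complex.ofReal_exp]⟩
    obtain ⟨B, hB, hlow⟩ := real_lower h1 hval hC2
    obtain ⟨m, hm, hmt⟩ := order_le hH0 (t := t) hB (by simpa only [neg_neg] using hlow)
    refine ⟨⟨m, hm, hmt⟩, ?_⟩
    obtain ⟨hf, hf1, hf2, hf3⟩ := (hH0.analyticOrderAt_eq_natCast).1 hm
    have hHh : ∀ᶠ s : ℂ in 𝓝 0, H s = s ^ m * hf s := by
      filter_upwards [hf3] with s hs
      rw [hs, sub_zero, smul_eq_mul]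
    obtain ⟨A, hA, hA0⟩ := lead_pos hpos hf1 hf2 hHh
    have hlim : LimStar N α ρ₀ m A := by
      refine limStar_of_M E he h fun ρ hρ => ?_
      obtain ⟨ρ₁, g1, g2⟩ := exists_between hρ
      have g3 : 1 < ρ₁ := by linarith
      obtain ⟨a, x₀, ham, hconv, htr, hval, -⟩ := hcore ρ₁ g1
      obtain ⟨Dh, k1, k2, k3⟩ := ext_diff D g3 ham hconv htr
      refine limits_of_analytic D g3 k1 k2 (fun x hx => ?_) (fun x hx => ?_) hH0 hf1 hA hA0 hHh
        ρ g2
      · rw [k3 x hx, Complex.ofReal_im]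
      · have e1 := hval (x ^ ρ₁) (Real.rpow_pos_of_pos hx _)
        rw [Real.rpow_rpow_inv hx.le (by linarith)] at e1
        rw [k3 x hx, e1]
    obtain ⟨G, q1, q2, -⟩ := (E.star_equiv hreal h m hA).1 hlim
    exact ⟨G, q1, q2⟩
  · rintro ⟨⟨m, hm, hmt⟩, G, q1, q2⟩
    obtain ⟨hf, hf1, hf2, hf3⟩ := (hH0.analyticOrderAt_eq_natCast).1 hm
    have hHh : ∀ᶠ s : ℂ in 𝓝 0, H s = s ^ m * hf s := by
      filter_upwards [hf3] with s hs
      rw [hs, sub_zero, smul_eq_mul]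
    -- `G` and `H` on the real axis
    have hGan : ∀ x : ℝ, 0 < x → AnalyticAt ℂ G x := fun x hx => by
      have h1 : DifferentiableOn ℂ G (Sect ρ₀) := fun z hz =>
        (q1 z (Or.inl hz)).1.differentiableWithinAt
      exact h1.analyticAt ((sect_open' h).mem_nhds (sect_real' h hx))
    have hGH : ∀ x : ℝ, 0 < x → G x = H x := by
      have a1 : AnalyticOnNhd ℝ (fun x : ℝ => G x) (Ioi 0) := fun x hx => an_ofReal (hGan x hx)
      have a2 : AnalyticOnNhd ℝ (fun x : ℝ => H x) (Ioi 0) := fun x hx =>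
        an_ofReal (hH x (le_of_lt hx))
      have a3 := a1.eqOn_of_preconnected_of_eventuallyEq a2 isPreconnected_Ioi
        (Set.mem_Ioi.2 (one_pos : (0 : ℝ) < 1)) (by
          filter_upwards [lt_mem_nhds (show (1 / 2 : ℝ) < 1 by norm_num)] with x hx
          rw [hHe x hx, q2 _ (by rwa [Complex.ofReal_re])])
      exact fun x hx => a3 hx
    have hGpos : ∀ x : ℝ, 0 < x → ∃ t : ℝ, 0 < t ∧ G x = t := by
      refine real_pos (fun x hx => ⟨hGan x hx, (q1 _ (Or.inl (sect_real' h hx))).2⟩)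
        fun x hx => ?_
      rw [q2 _ (by rwa [Complex.ofReal_re]), hLE x hx, DD_real, ← Complex.ofReal_exp]
      exact ⟨_, Real.exp_pos _, rfl⟩
    obtain ⟨A, hA, hA0⟩ := lead_pos (H := H) (fun x hx => by rw [← hGH x hx]; exact hGpos x hx)
      hf1 hf2 hHh
    -- near the vertex
    have hHd : ∀ᶠ s : ℂ in 𝓝 0, DifferentiableAt ℂ H s := by
      filter_upwards [hH0.eventually_analyticAt] with s hs
      exact hs.differentiableAt
    obtain ⟨ε, hε, hball⟩ := Metric.eventually_nhds_iff_ball.1 (hHd.and hHh)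
    set U : Set ℂ := Sect ρ₀ ∩ Metric.ball 0 ε with hU
    have hUo : IsOpen U := (sect_open' h).inter Metric.isOpen_ball
    have hUc : Convex ℝ U := (sect_convex' h).inter (convex_ball 0 ε)
    have hx : ((ε / 2 : ℝ) : ℂ) ∈ U := by
      refine ⟨sect_real' h (by positivity), ?_⟩
      rw [Metric.mem_ball, dist_zero_right, Complex.norm_real, Real.norm_eq_abs,
        abs_of_pos (by positivity)]
      linarith
    have heq : EqOn G H U := by
      refine eqOn_of_real hUo hUc.isPreconnected (fun s hs => (q1 s (Or.inl hs.1)).1)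
        (fun s hs => (hball s hs.2).1) hx ?_
      filter_upwards [lt_mem_nhds (show 0 < ε / 2 by positivity)] with x hx
      exact hGH x hx
    have hlim : LimStar N α ρ₀ m A := by
      refine (E.star_equiv hreal h m hA).2 ⟨G, q1, q2, fun ρ hρ => ?_⟩
      have e1 : Tendsto hf (𝓝[Sect ρ] 0) (𝓝 (A : ℂ)) := by
        rw [← hA0]
        exact hf1.continuousAt.tendsto.mono_left nhdsWithin_le_nhds
      refine e1.congr' ?_
      filter_upwards [inter_mem_nhdsWithin (Sect ρ) (Metric.ball_mem_nhds (0 : ℂ) hε)] with s hs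
      have hs0 : s ≠ 0 := hs.1.1
      have hs1 : s ∈ U := ⟨sect_mono' h hρ.le hs.1, hs.2⟩
      rw [heq hs1, (hball s hs.2).2]
      field_simp
    intro ρ ρ' hρ hρ'
    have e1 := (hlim ρ ρ' hρ hρ').eventually (lt_mem_nhds (sub_one_lt _))
    have e2 : ∀ᶠ Y : ℝ in atTop, 0 < Real.log (Real.log Y) :=
      (Real.tendsto_log_atTop.comp Real.tendsto_log_atTop).eventually_gt_atTop 0
    refine ⟨-(Real.log A - m * Real.eulerMascheroniConstant / ρ - 1), ?_⟩
    filter_upwards [e1, e2] with Y h1 h2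
    have h3 : (m : ℝ) * Real.log (Real.log Y) ≤ t * Real.log (Real.log Y) :=
      mul_le_mul_of_nonneg_right hmt h2.le
    linarith

end Pool.Agent.V11333.Cone
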