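import Pool.Agent.V11333.Cone5
import Pool.Agent.V11333.Cone7

/-!
# One-sided bounds and the order at the central point for pure systems over number fields
-/

set_option autoImplicit false

open Filter Topology Set NumberField IsDedekindDomain
open Pool.Agent.TH942.ES
open Pool.Agent.H921R2.TatePole (nm)
open Pool.Agent.V11333.PR (ctr nal factor Pure)

namespace Pool.Agent.V11333.CP

variable {K : Type} [Field K] [NumberField K] {N : ℕ}
variable {S : Set (HeightOneSpectrum (𝓞 K))}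

/-- the continuation without zeros to the sector -/
def ZeroFree (c σ : ℝ) (α : S → Fin N → ℂ) (ρ₀ : ℝ) : Prop :=
  ∃ G : ℂ → ℂ, (∀ s : ℂ, s ∈ Sector c ρ₀ ∨ σ < s.re → DifferentiableAt ℂ G s ∧ G s ≠ 0) ∧
    ∀ s : ℂ, σ < s.re → HasProd (fun v : S => factor α v s) (G s)

/-- `F` is a continuation of `L` along the real axis up to the central point -/
def IsRealContinuation (c σ : ℝ) (α : S → Fin N → ℂ) (F : ℂ → ℂ) : Prop :=
  (∀ x : ℝ, c ≤ x → AnalyticAt ℂ F x) ∧
    ∀ x : ℝ, σ < x → HasProd (fun v : S => factor α v x) (F x)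

variable {w : ℝ} {α : S → Fin N → ℂ}

/-- lower bounds with a real exponent -/
def LowerR (c : ℝ) (α : S → Fin N → ℂ) (ρ₀ t : ℝ) : Prop :=
  ∀ ρ ρ' : ℝ, ρ₀ < ρ → ρ < ρ' → ∃ C : ℝ, ∀ᶠ Y : ℝ in atTop,
    -C ≤ mean c α ρ ρ' Y + t * Real.log (Real.log Y)

/-- the order of a translate -/
theorem order_shift {c : ℝ} {F : ℂ → ℂ} (hF : AnalyticAt ℂ F (c : ℂ)) :
    analyticOrderAt (fun s => F (s + c)) 0 = analyticOrderAt F (c : ℂ) := by
  have hF' : AnalyticAt ℂ (fun s => F (s + c)) 0 := by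
    have h1 := an_shift (c := 0) (t := c) (F := F) (x := 0) (by simpa using hF)
    simpa using h1
  refine ENat.eq_of_forall_natCast_le_iff fun k => ?_
  rw [natCast_le_analyticOrderAt hF', natCast_le_analyticOrderAt hF]
  constructor
  · rintro ⟨g, hg, hge⟩
    refine ⟨fun s => g (s - c), ?_, ?_⟩
    · have h1 : AnalyticAt ℂ (fun s : ℂ => s - c) (c : ℂ) := by fun_prop
      have h2 : AnalyticAt ℂ g ((fun s : ℂ => s - c) (c : ℂ)) := by simpa using hg
      exact AnalyticAt.comp (g := g) (f := fun s : ℂ => s - c) h2 h1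
    · have hT : Tendsto (fun s : ℂ => s - c) (𝓝 (c : ℂ)) (𝓝 0) := by
        have h1 : ContinuousAt (fun s : ℂ => s - c) (c : ℂ) := by fun_prop
        have h2 := h1.tendsto
        rwa [sub_self] at h2
      filter_upwards [hT.eventually hge] with s hs
      rw [sub_add_cancel, sub_zero] at hs
      exact hs
  · rintro ⟨g, hg, hge⟩
    refine ⟨fun s => g (s + c), ?_, ?_⟩
    · have h1 := an_shift (c := 0) (t := c) (F := g) (x := 0) (by simpa using hg)
      simpa using h1
    · have hT : Tendsto (fun s : ℂ => s + c) (𝓝 0) (𝓝 (c : ℂ)) := by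
        have h1 : ContinuousAt (fun s : ℂ => s + c) 0 := by fun_prop
        have h2 := h1.tendsto
        rwa [zero_add] at h2
      filter_upwards [hT.eventually hge] with s hs
      rw [hs, add_sub_cancel_right, sub_zero]

theorem zeroFree_iff (h : Pure w α) (ρ₀ : ℝ) : ZeroFree (ctr w) (w + 1) α ρ₀ ↔
    ∃ G : ℂ → ℂ, (∀ s : ℂ, s ∈ Pool.Agent.TH942.SL.Sect ρ₀ ∨ 1 / 2 < s.re →
      DifferentiableAt ℂ G s ∧ G s ≠ 0) ∧
      ∀ s : ℂ, 1 / 2 < s.re → G s = LE (fun v : S => nm v.1) (nal w α) s := by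
  have h3 : ∀ s : ℂ, w + 1 < s.re ↔ 1 / 2 < (s - ctr w).re := by
    intro s
    rw [Complex.sub_re, Complex.ofReal_re]
    unfold ctr
    constructor <;> intro <;> linarith
  constructor
  · rintro ⟨G, g1, g2⟩
    refine ⟨fun s => G (s + ctr w), fun s hs => ?_, fun s hs => ?_⟩
    · have h4 := g1 (s + ctr w) (hs.imp (fun h5 => by
        rwa [sector_shift, add_sub_cancel_right]) (fun h5 => by
        rwa [h3, add_sub_cancel_right]))
      exact ⟨h4.1.comp s (by fun_prop), h4.2⟩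
    · have h4 : w + 1 < (s + ctr w).re := by
        rwa [h3, add_sub_cancel_right]
      have h5 := (PR.hasProd_iff h h4 _).1 (g2 _ h4)
      rwa [add_sub_cancel_right] at h5
  · rintro ⟨G, g1, g2⟩
    refine ⟨fun s => G (s - ctr w), fun s hs => ?_, fun s hs => ?_⟩
    · have h4 := g1 (s - ctr w) (hs.imp (sector_shift _ ρ₀ s).1 (h3 s).1)
      exact ⟨h4.1.comp s (by fun_prop), h4.2⟩
    · rw [PR.hasProd_iff h hs]
      exact g2 _ ((h3 s).1 hs)

/-- **One-sided bounds and the order at the central point.** -/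
theorem order_main (h : Pure w α) {c σ : ℝ} (hc : c = w + 1 / 2) (hσ : σ = w + 1) {ρ₀ : ℝ}
    (hρ₀ : 1 ≤ ρ₀) {F : ℂ → ℂ} (hF : IsRealContinuation c σ α F) (t : ℝ) :
    LowerR c α ρ₀ t ↔
      (∃ m : ℕ, analyticOrderAt F (c : ℂ) = m ∧ (m : ℝ) ≤ t) ∧ ZeroFree c σ α ρ₀ := by
  subst hc hσ
  have E := PR.sys h
  have hc : ((w + 1 / 2 : ℝ)) = ctr w := rfl
  rw [hc] at hF ⊢
  have h1 := Cone.order_lower E (hreal h) hρ₀ (H := fun s => F (s + ctr w))
    (fun x hx => an_shift (c := 0) (hF.1 _ (by linarith)))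
    (fun x hx => by
      have h4 := hF.2 (x + ctr w) (by unfold ctr; linarith)
      rw [PR.hasProd_iff h (by rw [Complex.ofReal_re]; unfold ctr; linarith)] at h4
      rw [← Complex.ofReal_add, h4, Complex.ofReal_add, add_sub_cancel_right]) t
  rw [order_shift (hF.1 _ le_rfl)] at h1
  rw [zeroFree_iff h, ← h1]
  unfold LowerR
  simp only [mean_eq]

end Pool.Agent.V11333.CP
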