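import Pool.Agent.V11333.Central3
import Pool.Agent.TH942.ES.NF
import Pool.Agent.V11288.EV.Frob

/-!
# The Euler products of the cohomology groups of varieties as systems of primes
-/

set_option autoImplicit false

namespace Pool.Agent.V11333.EVS

open Filter Topology Set NumberField IsDedekindDomain
open Pool.Agent.TH942.ES
open Pool.Agent.V11288
open Pool.Agent.H921R2.TatePole (nm)

variable {K : Type} [Field K] [NumberField K] {n N : ℕ}
variable {S : Set (HeightOneSpectrum (𝓞 K))}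

/-- the central point -/
noncomputable def ctr (i : ℕ) : ℝ := ((i : ℝ) + 1) / 2

/-- the normalised eigenvalues -/
noncomputable def nal (i : ℕ) (α : S → Fin N → ℂ) (v : S) (j : Fin N) : ℂ :=
  α v j * (((nm v.1 : ℝ) ^ (-((i : ℝ) / 2)) : ℝ) : ℂ)

theorem nrm_two (v : HeightOneSpectrum (𝓞 K)) : (2 : ℝ) ≤ nm v := by
  exact_mod_cast Pool.Agent.H921R2.TatePole.two_le_nm v

theorem zv_eq (i : ℕ) (α : S → Fin N → ℂ) (v : S) (j : Fin N) :
    zv (fun v : S => nm v.1) (nal i α) v j = α v j * ((((nm v.1 : ℝ) ^ ctr i)⁻¹ : ℝ) : ℂ) := by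
  have h2 := nrm_two v.1
  have h0 : (0 : ℝ) < nm v.1 := by linarith
  change α v j * (((nm v.1 : ℝ) ^ (-((i : ℝ) / 2)) : ℝ) : ℂ) / ((√(nm v.1 : ℝ) : ℝ) : ℂ) = _
  rw [mul_div_assoc, ← Complex.ofReal_div]
  congr 2
  rw [Real.sqrt_eq_rpow, ← Real.rpow_sub h0, ← Real.rpow_neg h0.le]
  congr 1
  unfold ctr
  ring

theorem norm_lt {X : Set (MvPolynomial (Fin n) (𝓞 K))} {d i : ℕ} {v : S} {α : S → Fin N → ℂ}
    (h : EV.IsFrobenius X d i v.1 (α v)) (j : Fin N) :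
    ‖α v j * ((((nm v.1 : ℝ) ^ ctr i)⁻¹ : ℝ) : ℂ)‖ < 1 := by
  have h2 := nrm_two v.1
  have h0 : (0 : ℝ) < nm v.1 := by linarith
  have h1 : ‖α v j‖ = (nm v.1 : ℝ) ^ ((i : ℝ) / 2) := EV.norm' h j
  rw [norm_mul, h1, Complex.norm_real, Real.norm_eq_abs, abs_of_pos (by positivity),
    ← Real.rpow_neg h0.le, ← Real.rpow_add h0]
  refine Real.rpow_lt_one_of_one_lt_of_neg (by linarith) ?_
  unfold ctr
  linarith

theorem nal_norm {X : Set (MvPolynomial (Fin n) (𝓞 K))} {d i : ℕ} {v : S} {α : S → Fin N → ℂ}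
    (h : EV.IsFrobenius X d i v.1 (α v)) (j : Fin N) : ‖nal i α v j‖ ≤ 1 := by
  have h2 := nrm_two v.1
  have h0 : (0 : ℝ) < nm v.1 := by linarith
  have h1 : ‖α v j‖ = (nm v.1 : ℝ) ^ ((i : ℝ) / 2) := EV.norm' h j
  unfold nal
  rw [norm_mul, h1, Complex.norm_real, Real.norm_eq_abs, abs_of_pos (by positivity),
    ← Real.rpow_add h0, add_neg_cancel, Real.rpow_zero]

theorem log_real {X : Set (MvPolynomial (Fin n) (𝓞 K))} {d i : ℕ} (hi : i ≤ 2 * d) {v : S}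
    {α : S → Fin N → ℂ} (h : EV.IsFrobenius X d i v.1 (α v)) :
    (∑ j, Complex.log (1 - α v j * ((((nm v.1 : ℝ) ^ ctr i)⁻¹ : ℝ) : ℂ))).im = 0 := by
  refine EV.real_sum hi h
    (fun z => Complex.log (1 - z * ((((nm v.1 : ℝ) ^ ctr i)⁻¹ : ℝ) : ℂ))) fun j => ?_
  have h1 := norm_lt h j
  rw [← Complex.log_conj]
  · rw [map_sub, map_one, map_mul, Complex.conj_ofReal]
  · intro h2
    have h3 := (Complex.arg_eq_pi_iff.1 h2).1
    rw [Complex.sub_re, Complex.one_re] at h3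
    have h4 := (Complex.re_le_norm (α v j * ((((nm v.1 : ℝ) ^ ctr i)⁻¹ : ℝ) : ℂ))).trans_lt h1
    linarith

theorem sys {X : Set (MvPolynomial (Fin n) (𝓞 K))} {d i : ℕ} (hi : i ≤ 2 * d)
    {α : S → Fin N → ℂ} (h : ∀ v, EV.IsFrobenius X d i v.1 (α v)) :
    Sys (fun v : S => nm v.1) (nal i α) :=
  nf_sys (fun v => v ∈ S) (nal i α) (fun v j => nal_norm (h v) j) fun v => by
    have h1 : ∀ j, nal i α v j / ((√(((nm v.1 : ℕ) : ℝ)) : ℝ) : ℂ) =
        α v j * ((((nm v.1 : ℝ) ^ ctr i)⁻¹ : ℝ) : ℂ) := fun j => zv_eq i α v j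
    simp only [h1]
    exact log_real hi (h v)

theorem pow_ctr (i : ℕ) (v : S) :
    (nm v.1 : ℂ) ^ (-(ctr i : ℂ)) = ((((nm v.1 : ℝ) ^ ctr i)⁻¹ : ℝ) : ℂ) := by
  have h2 := nrm_two v.1
  have h0 : (0 : ℝ) < nm v.1 := by linarith
  rw [← Real.rpow_neg h0.le, Complex.ofReal_cpow h0.le, Complex.ofReal_natCast]
  push_cast
  rfl

/-- the local term at the centre -/
theorem cv_log {X : Set (MvPolynomial (Fin n) (𝓞 K))} {d i : ℕ}
    {α : S → Fin N → ℂ} (h : ∀ v, EV.IsFrobenius X d i v.1 (α v)) (v : S) :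
    cv (fun v : S => nm v.1) (nal i α) v =
      Real.log ‖∏ j, (1 - α v j * (nm v.1 : ℂ) ^ (-(ctr i : ℂ)))‖ := by
  unfold cv
  rw [norm_prod, Real.log_prod, Complex.re_sum]
  · refine Finset.sum_congr rfl fun j _ => ?_
    rw [Complex.log_re, zv_eq, pow_ctr]
  · intro j _
    rw [norm_ne_zero_iff, pow_ctr]
    intro h0
    have h1 := norm_lt (h v) j
    rw [← sub_eq_zero.1 h0, norm_one] at h1
    exact lt_irrefl _ h1

/-- the local factor -/
theorem factor_eq (i : ℕ) (α : S → Fin N → ℂ) (s : ℂ) :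
    (fun v : S => ∏ j, (1 - α v j * (nm v.1 : ℂ) ^ (-s))⁻¹) = fun v : S =>
      ∏ j, (1 - zv (fun v : S => nm v.1) (nal i α) v j *
        xv (fun v : S => nm v.1) v (s - ctr i))⁻¹ := by
  funext v
  have h2 := nrm_two v.1
  have h0 : (0 : ℝ) < nm v.1 := by linarith
  have hc : (nm v.1 : ℂ) ≠ 0 := by exact_mod_cast h0.ne'
  refine Finset.prod_congr rfl fun j _ => ?_
  rw [zv_eq]
  congr 2
  rw [mul_assoc]
  congr 1
  have e1 : xv (fun v : S => nm v.1) v (s - ctr i) = (nm v.1 : ℂ) ^ (-(s - ctr i)) := by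
    rw [Complex.cpow_def_of_ne_zero hc]
    unfold xv
    congr 1
    change -((s - ctr i) * ((Real.log (nm v.1 : ℝ) : ℝ) : ℂ)) = _
    rw [Complex.ofReal_log h0.le, Complex.ofReal_natCast]
    ring
  rw [e1, ← pow_ctr, ← Complex.cpow_add _ _ hc]
  congr 1
  ring

theorem hasProd_iff {X : Set (MvPolynomial (Fin n) (𝓞 K))} {d i : ℕ} (hi : i ≤ 2 * d)
    {α : S → Fin N → ℂ} (h : ∀ v, EV.IsFrobenius X d i v.1 (α v)) {s : ℂ}
    (hs : (i : ℝ) / 2 + 1 < s.re) (y : ℂ) :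
    HasProd (fun v : S => ∏ j, (1 - α v j * (nm v.1 : ℂ) ^ (-s))⁻¹) y ↔
      y = LE (fun v : S => nm v.1) (nal i α) (s - ctr i) := by
  have h1 : 1 / 2 < (s - ctr i).re := by
    rw [Complex.sub_re, Complex.ofReal_re]
    unfold ctr
    linarith
  have h2 := (sys hi h).hasProd h1
  rw [factor_eq i α s]
  constructor
  · intro h
    exact h.tprod_eq.symm
  · rintro rfl
    unfold Pool.Agent.TH942.ES.LE
    rw [h2.tprod_eq]
    exact h2

end Pool.Agent.V11333.EVS
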