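import Mathlib

open Finset Matrix

namespace Pool.Agent.V11333.Gap

/-- orthonormal eigenbasis of a symmetric real matrix, in plain terms -/
lemma eigen {n : ℕ} (T : Matrix (Fin n) (Fin n) ℝ) (hT : T.IsHermitian) :
    ∃ (b : Fin n → (Fin n → ℝ)) (mu : Fin n → ℝ), (∀ l, T *ᵥ b l = mu l • b l) ∧
      (∀ l, b l ⬝ᵥ b l = 1) ∧ (∀ k l, k ≠ l → b k ⬝ᵥ b l = 0) ∧
      (∀ u w : Fin n → ℝ, ∑ l, (b l ⬝ᵥ u) * (b l ⬝ᵥ w) = u ⬝ᵥ w) ∧ mu = hT.eigenvalues := by
  refine ⟨fun l => ⇑(hT.eigenvectorBasis l), hT.eigenvalues, ?_, ?_, ?_, ?_, rfl⟩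
  · intro l
    exact hT.mulVec_eigenvectorBasis l
  · intro l
    have h := hT.eigenvectorBasis.orthonormal.1 l
    have h2 : ‖hT.eigenvectorBasis l‖ ^ 2 = 1 := by rw [h]; norm_num
    rw [EuclideanSpace.real_norm_sq_eq] at h2
    rw [← h2]
    simp [dotProduct, pow_two]
  · intro k l hkl
    have h : inner ℝ (hT.eigenvectorBasis k) (hT.eigenvectorBasis l) = 0 :=
      hT.eigenvectorBasis.orthonormal.2 hkl
    rw [EuclideanSpace.inner_eq_star_dotProduct] at h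
    rw [dotProduct_comm]
    simpa using h
  · intro u w
    have h := hT.eigenvectorBasis.sum_inner_mul_inner (WithLp.toLp 2 u) (WithLp.toLp 2 w)
    have e1 : ∀ l, inner ℝ (WithLp.toLp 2 u : EuclideanSpace ℝ (Fin n)) (hT.eigenvectorBasis l)
        = (⇑(hT.eigenvectorBasis l)) ⬝ᵥ u := by
      intro l
      rw [EuclideanSpace.inner_eq_star_dotProduct]
      simp
    have e2 : ∀ l, inner ℝ (hT.eigenvectorBasis l) (WithLp.toLp 2 w : EuclideanSpace ℝ (Fin n))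
        = (⇑(hT.eigenvectorBasis l)) ⬝ᵥ w := by
      intro l
      rw [EuclideanSpace.inner_eq_star_dotProduct]
      simp [dotProduct_comm]
    have e3 : inner ℝ (WithLp.toLp 2 u : EuclideanSpace ℝ (Fin n)) (WithLp.toLp 2 w)
        = u ⬝ᵥ w := by
      rw [EuclideanSpace.inner_eq_star_dotProduct]
      simp [dotProduct_comm]
    rw [e3] at h
    rw [← h]
    apply Finset.sum_congr rfl
    intro l _
    rw [e1, e2]

lemma dot_self_nonneg {n : ℕ} (u : Fin n → ℝ) : 0 ≤ u ⬝ᵥ u := by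
  unfold dotProduct
  exact Finset.sum_nonneg (fun i _ => mul_self_nonneg _)

lemma dot_self_eq_zero {n : ℕ} (u : Fin n → ℝ) (h : u ⬝ᵥ u = 0) : u = 0 := by
  unfold dotProduct at h
  rw [Finset.sum_eq_zero_iff_of_nonneg (fun i _ => mul_self_nonneg _)] at h
  funext i
  exact mul_self_eq_zero.mp (h i (mem_univ i))

lemma abs_dot_le {n : ℕ} (u w : Fin n → ℝ) : (u ⬝ᵥ w) ^ 2 ≤ (u ⬝ᵥ u) * (w ⬝ᵥ w) := by
  unfold dotProduct
  have := Finset.sum_mul_sq_le_sq_mul_sq univ u w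
  simpa [pow_two] using this

/-- Algebraic heart: two eigenvalues `lam ≥ lam'` of the bordered Gram matrix, and one row
`a` removed (the others being the rows of `A`). -/
lemma heart {m n : ℕ} (A : Matrix (Fin m) (Fin n) ℝ) (a : Fin n → ℝ) (v v' : Fin m → ℝ)
    (s s' lam lam' : ℝ) (hs : s ≠ 0) (hll : lam' ≤ lam)
    (hv : v ⬝ᵥ v + s * s = 1) (hv' : v' ⬝ᵥ v' + s' * s' = 1) (hvv : v ⬝ᵥ v' + s * s' = 0)
    (h1 : A *ᵥ (Aᵀ *ᵥ v + s • a) = lam • v)
    (h1' : A *ᵥ (Aᵀ *ᵥ v' + s' • a) = lam' • v')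
    (b : Fin m → (Fin m → ℝ)) (mu : Fin m → ℝ) (hb : ∀ l, (A * Aᵀ) *ᵥ b l = mu l • b l)
    (hbn : ∀ l, b l ⬝ᵥ b l = 1)
    (hbs : ∀ u w : Fin m → ℝ, ∑ l, (b l ⬝ᵥ u) * (b l ⬝ᵥ w) = u ⬝ᵥ w) :
    ∃ l, lam' ≤ mu l ∧ mu l ≤ lam ∧ |s| * |(Aᵀ *ᵥ b l) ⬝ᵥ a| ≤ lam - lam' := by
  have hsymm : ∀ u w : Fin m → ℝ, u ⬝ᵥ ((A * Aᵀ) *ᵥ w) = ((A * Aᵀ) *ᵥ u) ⬝ᵥ w := by
    intro u w
    rw [Matrix.dotProduct_mulVec, ← Matrix.mulVec_transpose]
    simp
  have hex : ∃ l, lam' ≤ mu l ∧ mu l ≤ lam := by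
    by_contra hcon
    push Not at hcon
    set z : Fin m → ℝ := s' • v - s • v' with hz
    have hTz : (A * Aᵀ) *ᵥ z = (s' * lam) • v - (s * lam') • v' := by
      rw [← Matrix.mulVec_mulVec]
      have e : Aᵀ *ᵥ z = s' • (Aᵀ *ᵥ v + s • a) - s • (Aᵀ *ᵥ v' + s' • a) := by
        rw [hz, Matrix.mulVec_sub, Matrix.mulVec_smul, Matrix.mulVec_smul]
        simp only [smul_add, smul_smul]
        rw [mul_comm s' s]
        abel
      rw [e, Matrix.mulVec_sub, Matrix.mulVec_smul, Matrix.mulVec_smul, h1, h1', smul_smul, smul_smul]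
    have hA1 : (A * Aᵀ) *ᵥ z - lam • z = (s * (lam - lam')) • v' := by
      rw [hTz, hz]
      ext i
      simp only [Pi.sub_apply, Pi.smul_apply, smul_eq_mul]
      ring
    have hA2 : (A * Aᵀ) *ᵥ z - lam' • z = (s' * (lam - lam')) • v := by
      rw [hTz, hz]
      ext i
      simp only [Pi.sub_apply, Pi.smul_apply, smul_eq_mul]
      ring
    have hq := hbs ((A * Aᵀ) *ᵥ z - lam • z) ((A * Aᵀ) *ᵥ z - lam' • z)
    have hcoef : ∀ (l : Fin m) (t : ℝ), b l ⬝ᵥ ((A * Aᵀ) *ᵥ z - t • z) = (mu l - t) * (b l ⬝ᵥ z) := by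
      intro l t
      rw [dotProduct_sub, hsymm, hb, smul_dotProduct, dotProduct_smul]
      simp only [smul_eq_mul]
      ring
    simp_rw [hcoef] at hq
    have hR : ((A * Aᵀ) *ᵥ z - lam • z) ⬝ᵥ ((A * Aᵀ) *ᵥ z - lam' • z)
        = -((s * s') ^ 2 * (lam - lam') ^ 2) := by
      rw [hA1, hA2, smul_dotProduct, dotProduct_smul, dotProduct_comm v' v]
      simp only [smul_eq_mul]
      have : v ⬝ᵥ v' = -(s * s') := by linarith
      rw [this]
      ring
    rw [hR] at hq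
    have hterm : ∀ l ∈ univ, 0 ≤ (mu l - lam) * (b l ⬝ᵥ z) * ((mu l - lam') * (b l ⬝ᵥ z)) := by
      intro l _
      have h3 : 0 ≤ (mu l - lam) * (mu l - lam') := by
        by_cases hc : lam' ≤ mu l
        · have := hcon l hc
          exact mul_nonneg (by linarith) (by linarith)
        · push Not at hc
          exact mul_nonneg_of_nonpos_of_nonpos (by linarith) (by linarith)
      nlinarith [mul_nonneg h3 (sq_nonneg (b l ⬝ᵥ z))]
    have hsum0 : ∑ l, (mu l - lam) * (b l ⬝ᵥ z) * ((mu l - lam') * (b l ⬝ᵥ z)) = 0 := by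
      apply le_antisymm
      · rw [hq]
        have : 0 ≤ (s * s') ^ 2 * (lam - lam') ^ 2 := by positivity
        linarith
      · exact Finset.sum_nonneg hterm
    rw [Finset.sum_eq_zero_iff_of_nonneg hterm] at hsum0
    have hbz : ∀ l, b l ⬝ᵥ z = 0 := by
      intro l
      have h4 := hsum0 l (mem_univ l)
      have h3 : 0 < (mu l - lam) * (mu l - lam') := by
        by_cases hc : lam' ≤ mu l
        · have := hcon l hc
          exact mul_pos (by linarith) (by linarith)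
        · push Not at hc
          exact mul_pos_of_neg_of_neg (by linarith) (by linarith)
      have h5 : ((mu l - lam) * (mu l - lam')) * (b l ⬝ᵥ z) ^ 2 = 0 := by
        rw [← h4]; ring
      rcases mul_eq_zero.mp h5 with h | h
      · exact absurd h h3.ne'
      · exact pow_eq_zero_iff (two_ne_zero) |>.mp h
    have hz0 : z ⬝ᵥ z = 0 := by
      rw [← hbs z z]
      exact Finset.sum_eq_zero (fun l _ => by rw [hbz l, mul_zero])
    have hzz := dot_self_eq_zero z hz0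
    -- then s • v' = s' • v
    have hv'1 : s • v' = s' • v := by
      rw [hz] at hzz
      exact (sub_eq_zero.mp hzz).symm
    -- v ⬝ v' = -(s s'), so s (v⬝v') = s' (v⬝v)
    have h6 : s * (v ⬝ᵥ v') = s' * (v ⬝ᵥ v) := by
      have := congrArg (fun u => v ⬝ᵥ u) hv'1
      simpa [dotProduct_smul] using this
    have h7 : s' = 0 := by
      have h8 : v ⬝ᵥ v' = -(s * s') := by linarith
      rw [h8] at h6
      have h9 : v ⬝ᵥ v = 1 - s * s := by linarith
      rw [h9] at h6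
      have : s' * 1 = 0 := by linarith
      linarith
    have h8 : v' = 0 := by
      rw [h7, zero_smul] at hv'1
      exact (smul_eq_zero.mp hv'1).resolve_left hs
    rw [h8, h7] at hv'
    simp at hv'
  obtain ⟨l, hl1, hl2⟩ := hex
  refine ⟨l, hl1, hl2, ?_⟩
  have h3 : lam * (b l ⬝ᵥ v) = mu l * (b l ⬝ᵥ v) + s * ((Aᵀ *ᵥ b l) ⬝ᵥ a) := by
    have h4 := congrArg (fun u => b l ⬝ᵥ u) h1
    simp only [Matrix.mulVec_add, Matrix.mulVec_smul, dotProduct_add, dotProduct_smul,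
      smul_eq_mul, Matrix.mulVec_mulVec] at h4
    rw [hsymm, hb, smul_dotProduct, smul_eq_mul] at h4
    rw [← h4, Matrix.mulVec_transpose, ← Matrix.dotProduct_mulVec]
  have h5 : |b l ⬝ᵥ v| ≤ 1 := by
    rw [← sq_le_one_iff_abs_le_one]
    have h6 := abs_dot_le (b l) v
    rw [hbn l, one_mul] at h6
    nlinarith [mul_self_nonneg s]
  have h6 : s * ((Aᵀ *ᵥ b l) ⬝ᵥ a) = (lam - mu l) * (b l ⬝ᵥ v) := by linarith
  rw [← abs_mul, h6, abs_mul]
  calc |lam - mu l| * |b l ⬝ᵥ v| ≤ |lam - mu l| * 1 :=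
        mul_le_mul_of_nonneg_left h5 (abs_nonneg _)
    _ = lam - mu l := by rw [mul_one, abs_of_nonneg (by linarith)]
    _ ≤ lam - lam' := by linarith

end Pool.Agent.V11333.Gap
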