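import Mathlib
import Pool.Agent.V11333.Slab
import Pool.Agent.V11333.Gap1

open Finset Matrix MeasureTheory ProbabilityTheory
open scoped ENNReal NNReal

namespace Pool.Agent.V11333.Gap

open Pool.Agent.V11333.Slab

/-- the parameter space: eigenvectors and eigenvalues -/
abbrev Par (m : ℕ) := (Fin (m+1) → ℝ) × (Fin (m+1) → ℝ) × ℝ × ℝ

/-- closed relation -/
def Rel {m n : ℕ} (Abar : Matrix (Fin (m+1)) (Fin n) ℝ) (x : ℝ) (p : Fin (m+1)) :
    Set ((Fin (m+1) → Fin n → ℝ) × Par m) :=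
  {q | q.2.1 ⬝ᵥ q.2.1 = 1 ∧ q.2.2.1 ⬝ᵥ q.2.2.1 = 1 ∧ q.2.1 ⬝ᵥ q.2.2.1 = 0 ∧
    q.2.2.2.2 ≤ q.2.2.2.1 ∧ (q.2.2.2.1 - q.2.2.2.2) * x ≤ 3 * q.2.2.2.2 ∧
    1 ≤ (m + 1) * (q.2.1 p) ^ 2 ∧
    (Abar + Matrix.of q.1) *ᵥ ((Abar + Matrix.of q.1)ᵀ *ᵥ q.2.1) = q.2.2.2.1 • q.2.1 ∧
    (Abar + Matrix.of q.1) *ᵥ ((Abar + Matrix.of q.1)ᵀ *ᵥ q.2.2.1) = q.2.2.2.2 • q.2.2.1}

/-- compact parameter set -/
def Kc (m : ℕ) (R : ℝ) : Set (Par m) :=
  Metric.closedBall 0 1 ×ˢ (Metric.closedBall 0 1 ×ˢ (Set.Icc 0 (R ^ 2) ×ˢ Set.Icc 0 (R ^ 2)))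

/-- the bad event attached to the row `p` -/
def Bad {m n : ℕ} (Abar : Matrix (Fin (m+1)) (Fin n) ℝ) (x R : ℝ) (p : Fin (m+1)) :
    Set (Fin (m+1) → Fin n → ℝ) :=
  {G | ∃ q ∈ Kc m R, (G, q) ∈ Rel Abar x p}

lemma isClosed_Rel {m n : ℕ} (Abar : Matrix (Fin (m+1)) (Fin n) ℝ) (x : ℝ) (p : Fin (m+1)) :
    IsClosed (Rel Abar x p) := by
  have hM : Continuous (fun q : (Fin (m+1) → Fin n → ℝ) × Par m => Abar + Matrix.of q.1) := by
    apply continuous_matrix
    intro i j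
    simp only [Matrix.add_apply, Matrix.of_apply]
    fun_prop
  have h1 : Continuous (fun q : (Fin (m+1) → Fin n → ℝ) × Par m => q.2.1) := by fun_prop
  have h2 : Continuous (fun q : (Fin (m+1) → Fin n → ℝ) × Par m => q.2.2.1) := by fun_prop
  have h3 : Continuous (fun q : (Fin (m+1) → Fin n → ℝ) × Par m => q.2.2.2.1) := by fun_prop
  have h4 : Continuous (fun q : (Fin (m+1) → Fin n → ℝ) × Par m => q.2.2.2.2) := by fun_prop
  refine IsClosed.inter (isClosed_eq (h1.dotProduct h1) continuous_const) ?_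
  refine IsClosed.inter (isClosed_eq (h2.dotProduct h2) continuous_const) ?_
  refine IsClosed.inter (isClosed_eq (h1.dotProduct h2) continuous_const) ?_
  refine IsClosed.inter (isClosed_le h4 h3) ?_
  refine IsClosed.inter (isClosed_le ((h3.sub h4).mul_const x) (h4.const_mul 3)) ?_
  refine IsClosed.inter (isClosed_le continuous_const
    ((((continuous_apply p).comp h1).pow 2).const_mul ((m:ℝ) + 1))) ?_
  refine IsClosed.inter (isClosed_eq ?_ (h3.smul h1)) (isClosed_eq ?_ (h4.smul h2))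
  · exact hM.matrix_mulVec (hM.matrix_transpose.matrix_mulVec h1)
  · exact hM.matrix_mulVec (hM.matrix_transpose.matrix_mulVec h2)

lemma isCompact_Kc (m : ℕ) (R : ℝ) : IsCompact (Kc m R) := by
  unfold Kc
  exact (isCompact_closedBall _ _).prod ((isCompact_closedBall _ _).prod
    (isCompact_Icc.prod isCompact_Icc))

lemma isClosed_Bad {m n : ℕ} (Abar : Matrix (Fin (m+1)) (Fin n) ℝ) (x R : ℝ) (p : Fin (m+1)) :
    IsClosed (Bad Abar x R p) := by
  have : CompactSpace (Kc m R) := isCompact_iff_compactSpace.mp (isCompact_Kc m R)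
  have hc : IsClosed {q : (Fin (m+1) → Fin n → ℝ) × (Kc m R) | (q.1, (q.2 : Par m)) ∈ Rel Abar x p} :=
    (isClosed_Rel Abar x p).preimage (by fun_prop)
  have h := isClosedMap_fst_of_compactSpace _ hc
  convert h using 1
  ext G
  simp only [Bad, Set.mem_ofPred_eq, Set.mem_image]
  constructor
  · rintro ⟨q, hq, hr⟩
    exact ⟨(G, ⟨q, hq⟩), hr, rfl⟩
  · rintro ⟨q, hq, rfl⟩
    exact ⟨q.2, q.2.2, hq⟩

/-- section estimate -/
lemma section_bound {m n : ℕ} (hmn : m < n) (Abar : Matrix (Fin (m+1)) (Fin n) ℝ) (x R : ℝ)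
    (hx : 1 < x) (hR : 0 < R) (p : Fin (m+1)) {v : ℝ≥0} (hv : v ≠ 0)
    (G' : Fin m → Fin n → ℝ) :
    (Measure.pi (fun _ : Fin n => gaussianReal 0 v))
      {a | Fin.insertNth p a G' ∈ Bad Abar x R p}
      ≤ ENNReal.ofReal (m * (2 * (3 * Real.sqrt (m+1) * R / x) / Real.sqrt (2 * Real.pi * v))) := by
  set A : Matrix (Fin m) (Fin n) ℝ := fun i j => Abar (p.succAbove i) j + G' i j with hA
  obtain ⟨b, mu, hb, hbn, -, hbs, -⟩ := eigen (A * Aᵀ)
    (by have := Matrix.isHermitian_mul_conjTranspose_self A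
        simpa using this)
  have hrn : ∀ l, (Aᵀ *ᵥ b l) ⬝ᵥ (Aᵀ *ᵥ b l) = mu l := by
    intro l
    have h1 : (Aᵀ *ᵥ b l) ⬝ᵥ (Aᵀ *ᵥ b l) = b l ⬝ᵥ ((A * Aᵀ) *ᵥ b l) := by
      rw [← Matrix.mulVec_mulVec, Matrix.dotProduct_mulVec (b l), ← Matrix.mulVec_transpose]
    rw [h1, hb, dotProduct_smul, hbn, smul_eq_mul, mul_one]
  -- a unit vector orthogonal to the rows of A
  obtain ⟨r0, hr0, hr0n⟩ : ∃ r0 : Fin n → ℝ, A *ᵥ r0 = 0 ∧ ∑ j, r0 j ^ 2 = 1 := by
    have hker := LinearMap.ker_ne_bot_of_finrank_lt (f := Matrix.mulVecLin A) (by simpa using hmn)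
    obtain ⟨r, hr, hr0⟩ := (Submodule.ne_bot_iff _).mp hker
    have hrA : A *ᵥ r = 0 := by
      rw [LinearMap.mem_ker] at hr
      exact hr
    have hpos : 0 < ∑ j, r j ^ 2 := by
      have h0 : 0 ≤ r ⬝ᵥ r := dot_self_nonneg r
      have h1 : r ⬝ᵥ r ≠ 0 := fun h => hr0 (dot_self_eq_zero r h)
      have h2 : r ⬝ᵥ r = ∑ j, r j ^ 2 := by simp [dotProduct, pow_two]
      rw [← h2]
      exact lt_of_le_of_ne h0 (Ne.symm h1)
    refine ⟨(Real.sqrt (∑ j, r j ^ 2))⁻¹ • r, ?_, ?_⟩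
    · rw [Matrix.mulVec_smul, hrA, smul_zero]
    · simp only [Pi.smul_apply, smul_eq_mul, mul_pow]
      rw [← Finset.mul_sum, inv_pow, Real.sq_sqrt hpos.le]
      field_simp
  have hτ0 : 0 ≤ 3 * Real.sqrt (m+1) * R / x := by positivity
  set τ : ℝ := 3 * Real.sqrt (m+1) * R / x with hτ
  have hincl : {a : Fin n → ℝ | Fin.insertNth p a G' ∈ Bad Abar x R p} ⊆
      {a | |(∑ j, r0 j * a j) + ∑ j, r0 j * Abar p j| ≤ 0} ∪
      ⋃ l ∈ (univ : Finset (Fin m)), {a | 0 < mu l ∧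
        |(∑ j, (Aᵀ *ᵥ b l) j * a j) + ∑ j, (Aᵀ *ᵥ b l) j * Abar p j| ≤ τ * Real.sqrt (mu l)} := by
    rintro a ⟨⟨u, u', lam, lam'⟩, hK, hrel⟩
    obtain ⟨hu, hu', huu, hll, hgap, hp, he, he'⟩ := hrel
    simp only at hu hu' huu hll hgap hp he he'
    simp only [Kc, Set.mem_prod, Set.mem_Icc] at hK
    obtain ⟨-, -, ⟨-, hlamR⟩, ⟨hlam'0, hlam'R⟩⟩ := hK
    set a' : Fin n → ℝ := fun j => Abar p j + a j with ha'
    set w : Fin m → ℝ := fun i => u (p.succAbove i) with hw
    set w' : Fin m → ℝ := fun i => u' (p.succAbove i) with hw'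
    have hMp : ∀ j, (Abar + Matrix.of (Fin.insertNth (α := fun _ => Fin n → ℝ) p a G')) p j = a' j := by
      intro j
      simp [ha']
    have hMs : ∀ i j, (Abar + Matrix.of (Fin.insertNth (α := fun _ => Fin n → ℝ) p a G')) (p.succAbove i) j
        = A i j := by
      intro i j
      simp [hA]
    have hT : ∀ z : Fin (m+1) → ℝ,
        (Abar + Matrix.of (Fin.insertNth (α := fun _ => Fin n → ℝ) p a G'))ᵀ *ᵥ z
          = Aᵀ *ᵥ (fun i => z (p.succAbove i)) + z p • a' := by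
      intro z
      ext j
      simp only [Matrix.mulVec, dotProduct, Matrix.transpose_apply, Pi.add_apply, Pi.smul_apply,
        smul_eq_mul]
      rw [Fin.sum_univ_succAbove _ p, hMp]
      simp_rw [hMs]
      ring
    have hdot : ∀ z z' : Fin (m+1) → ℝ, z ⬝ᵥ z' =
        (fun i => z (p.succAbove i)) ⬝ᵥ (fun i => z' (p.succAbove i)) + z p * z' p := by
      intro z z'
      unfold dotProduct
      rw [Fin.sum_univ_succAbove _ p]
      ring
    have hrow : ∀ (y : Fin n → ℝ) (t : ℝ) (z : Fin (m+1) → ℝ),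
        (Abar + Matrix.of (Fin.insertNth (α := fun _ => Fin n → ℝ) p a G')) *ᵥ y = t • z →
        A *ᵥ y = t • (fun i => z (p.succAbove i)) ∧ a' ⬝ᵥ y = t * z p := by
      intro y t z h
      constructor
      · ext i
        have := congrFun h (p.succAbove i)
        simp only [Matrix.mulVec, dotProduct, Pi.smul_apply, smul_eq_mul] at this ⊢
        simp_rw [hMs] at this
        exact this
      · have := congrFun h p
        simp only [Matrix.mulVec, dotProduct, Pi.smul_apply, smul_eq_mul] at this ⊢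
        simp_rw [hMp] at this
        exact this
    rw [hT] at he he'
    obtain ⟨he1, he2⟩ := hrow _ _ _ he
    obtain ⟨he1', he2'⟩ := hrow _ _ _ he'
    have hup : u p ≠ 0 := by
      intro h
      rw [h] at hp
      norm_num at hp
    rcases eq_or_lt_of_le hlam'0 with h0 | hpos
    · -- both eigenvalues vanish
      left
      have hlam : lam = 0 := by
        rw [← h0] at hgap hll
        nlinarith
      rw [hlam, zero_smul] at he1
      rw [hlam, zero_mul] at he2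
      set y := Aᵀ *ᵥ w + u p • a' with hy
      have hyy : y ⬝ᵥ y = 0 := by
        have h1 : y ⬝ᵥ (Aᵀ *ᵥ w) = 0 := by
          rw [dotProduct_comm, Matrix.mulVec_transpose, ← Matrix.dotProduct_mulVec, he1,
            dotProduct_zero]
        have h2 : y ⬝ᵥ (u p • a') = 0 := by
          rw [dotProduct_smul, dotProduct_comm, he2, smul_zero]
        calc y ⬝ᵥ y = y ⬝ᵥ (Aᵀ *ᵥ w + u p • a') := by rw [← hy]
          _ = 0 := by rw [dotProduct_add, h1, h2, add_zero]
      have hy0 := dot_self_eq_zero y hyy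
      have h3 : r0 ⬝ᵥ y = 0 := by rw [hy0, dotProduct_zero]
      have h4 : r0 ⬝ᵥ (Aᵀ *ᵥ w) = 0 := by
        rw [dotProduct_comm, Matrix.mulVec_transpose, ← Matrix.dotProduct_mulVec, hr0,
          dotProduct_zero]
      rw [hy, dotProduct_add, h4, zero_add, dotProduct_smul, smul_eq_mul] at h3
      have h5 := (mul_eq_zero.mp h3).resolve_left hup
      simp only [Set.mem_ofPred_eq]
      have h6 : (∑ j, r0 j * a j) + ∑ j, r0 j * Abar p j = r0 ⬝ᵥ a' := by
        rw [← Finset.sum_add_distrib]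
        unfold dotProduct
        apply Finset.sum_congr rfl
        intro j _
        simp only [ha']; ring
      rw [h6, h5, abs_zero]
    · right
      rw [hdot] at hu hu' huu
      obtain ⟨l, hl1, hl2, hl3⟩ := heart A a' w w' (u p) (u' p) lam lam' hup hll hu hu' huu he1 he1'
        b mu hb hbn hbs
      rw [Set.mem_iUnion₂]
      refine ⟨l, mem_univ l, lt_of_lt_of_le hpos hl1, ?_⟩
      have h6 : (∑ j, (Aᵀ *ᵥ b l) j * a j) + ∑ j, (Aᵀ *ᵥ b l) j * Abar p j
          = (Aᵀ *ᵥ b l) ⬝ᵥ a' := by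
        rw [← Finset.sum_add_distrib]
        unfold dotProduct
        apply Finset.sum_congr rfl
        intro j _
        simp only [ha']; ring
      rw [h6]
      set D := |(Aᵀ *ᵥ b l) ⬝ᵥ a'| with hD
      have hm1 : (0:ℝ) < m + 1 := by positivity
      have hsm : 0 < Real.sqrt (m+1) := Real.sqrt_pos.mpr hm1
      have hup1 : 1 ≤ Real.sqrt (m+1) * |u p| := by
        have h7 : 1 ≤ (Real.sqrt (m+1) * |u p|) ^ 2 := by
          rw [mul_pow, Real.sq_sqrt hm1.le, sq_abs]; exact hp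
        have h8 : 0 ≤ Real.sqrt (m+1) * |u p| := by positivity
        nlinarith
      have hD0 : 0 ≤ D := abs_nonneg _
      have hx0 : 0 < x := by linarith
      have hgap2 : lam - lam' ≤ 3 * lam' / x := by
        rw [le_div_iff₀ hx0]; exact hgap
      have h9 : D ≤ Real.sqrt (m+1) * (3 * lam' / x) := by
        calc D = 1 * D := (one_mul _).symm
          _ ≤ (Real.sqrt (m+1) * |u p|) * D := mul_le_mul_of_nonneg_right hup1 hD0
          _ = Real.sqrt (m+1) * (|u p| * D) := by ring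
          _ ≤ Real.sqrt (m+1) * (3 * lam' / x) :=
              mul_le_mul_of_nonneg_left (hl3.trans hgap2) hsm.le
      have h10 : lam' ≤ R * Real.sqrt (mu l) := by
        have h11 : Real.sqrt lam' ≤ R := by
          rw [Real.sqrt_le_left hR.le]; exact hlam'R
        have h12 : Real.sqrt lam' ≤ Real.sqrt (mu l) := Real.sqrt_le_sqrt hl1
        calc lam' = Real.sqrt lam' * Real.sqrt lam' := (Real.mul_self_sqrt hpos.le).symm
          _ ≤ R * Real.sqrt (mu l) := mul_le_mul h11 h12 (Real.sqrt_nonneg _) hR.le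
      calc D ≤ Real.sqrt (m+1) * (3 * lam' / x) := h9
        _ ≤ Real.sqrt (m+1) * (3 * (R * Real.sqrt (mu l)) / x) := by
            apply mul_le_mul_of_nonneg_left _ hsm.le
            apply div_le_div_of_nonneg_right _ hx0.le
            linarith
        _ = τ * Real.sqrt (mu l) := by rw [hτ]; ring
  refine (measure_mono hincl).trans ((measure_union_le _ _).trans ?_)
  have hz : (Measure.pi (fun _ : Fin n => gaussianReal 0 v))
      {a | |(∑ j, r0 j * a j) + ∑ j, r0 j * Abar p j| ≤ 0} = 0 := by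
    have := slab_unit hv r0 hr0n (∑ j, r0 j * Abar p j) 0
    rw [mul_zero, zero_div, ENNReal.ofReal_zero] at this
    exact le_antisymm this zero_le
  rw [hz, zero_add]
  refine (measure_biUnion_finset_le _ _).trans ?_
  have hl : ∀ l ∈ (univ : Finset (Fin m)), (Measure.pi (fun _ : Fin n => gaussianReal 0 v))
      {a | 0 < mu l ∧ |(∑ j, (Aᵀ *ᵥ b l) j * a j) + ∑ j, (Aᵀ *ᵥ b l) j * Abar p j|
        ≤ τ * Real.sqrt (mu l)} ≤ ENNReal.ofReal (2 * τ / Real.sqrt (2 * Real.pi * v)) := by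
    intro l _
    by_cases hmu : 0 < mu l
    · refine le_trans (measure_mono ?_) (slab_gen hv (Aᵀ *ᵥ b l) (Real.sqrt (mu l))
        (Real.sqrt_pos.mpr hmu) ?_ (∑ j, (Aᵀ *ᵥ b l) j * Abar p j) τ)
      · rintro a ⟨-, ha⟩; exact ha
      · rw [Real.sq_sqrt hmu.le, ← hrn l]
        simp [dotProduct, pow_two]
    · have : {a : Fin n → ℝ | 0 < mu l ∧ |(∑ j, (Aᵀ *ᵥ b l) j * a j) + ∑ j, (Aᵀ *ᵥ b l) j * Abar p j|
        ≤ τ * Real.sqrt (mu l)} = ∅ := by
        ext a; simp [hmu]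
      rw [this, measure_empty]
      exact zero_le
  refine (Finset.sum_le_sum hl).trans (le_of_eq ?_)
  simp only [sum_const, card_univ, Fintype.card_fin, nsmul_eq_mul]
  rw [ENNReal.ofReal_mul (by positivity), ENNReal.ofReal_natCast]

/-- the bad event has small probability -/
lemma bad_prob {m n : ℕ} (hmn : m < n) (Abar : Matrix (Fin (m+1)) (Fin n) ℝ) (x R : ℝ)
    (hx : 1 < x) (hR : 0 < R) (p : Fin (m+1)) {v : ℝ≥0} (hv : v ≠ 0) :
    (Measure.pi (fun _ : Fin (m+1) => Measure.pi (fun _ : Fin n => gaussianReal 0 v)))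
      (Bad Abar x R p)
      ≤ ENNReal.ofReal (m * (2 * (3 * Real.sqrt (m+1) * R / x) / Real.sqrt (2 * Real.pi * v))) := by
  have hmp := measurePreserving_piFinSuccAbove
    (fun _ : Fin (m+1) => Measure.pi (fun _ : Fin n => gaussianReal 0 v)) p
  have hmeas := (isClosed_Bad Abar x R p).measurableSet
  have h1 := hmp.symm.measure_preimage hmeas.nullMeasurableSet
  rw [← h1, Measure.prod_apply_symm]
  · calc _ ≤ ∫⁻ _ : Fin m → Fin n → ℝ, ENNReal.ofReal (m * (2 * (3 * Real.sqrt (m+1) * R / x)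
          / Real.sqrt (2 * Real.pi * v)))
          ∂(Measure.pi (fun _ : Fin m => Measure.pi (fun _ : Fin n => gaussianReal 0 v))) := by
          apply lintegral_mono
          intro G'
          exact section_bound hmn Abar x R hx hR p hv G'
      _ = _ := by simp
  · exact (MeasurableEquiv.measurable _) hmeas

end Pool.Agent.V11333.Gap
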