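import Mathlib

/-!
# One step of Gaussian integration (helper for MP_a7dd25_pr)
-/

set_option autoImplicit false

open MeasureTheory ProbabilityTheory Filter Topology Set
open scoped ENNReal NNReal

namespace Pool.Agent.V11333.Kac

/-- Gaussian density of variance `A` -/
noncomputable def phi (A u : ℝ) : ℝ :=
  (Real.sqrt (2 * Real.pi * A))⁻¹ * Real.exp (-(u ^ 2) / (2 * A))

/-- the standard Gaussian law -/
noncomputable abbrev gam1 : Measure ℝ := gaussianReal 0 1

/-- `E |m + √T Z|` -/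
noncomputable def Mabs (m T : ℝ) : ℝ≥0∞ := ∫⁻ z, ENNReal.ofReal |m + Real.sqrt T * z| ∂gam1

/-- the functional -/
noncomputable def FF (A B C u w : ℝ) : ℝ≥0∞ :=
  ENNReal.ofReal (phi A u) * Mabs (w - B / A * u) (C - B ^ 2 / A)

lemma phi_nonneg (A u : ℝ) : 0 ≤ phi A u := by unfold phi; positivity

lemma measurable_phi : Measurable (fun p : ℝ × ℝ => phi p.1 p.2) := by
  unfold phi
  fun_prop

lemma measurable_Mabs : Measurable (fun p : ℝ × ℝ => Mabs p.1 p.2) := by
  unfold Mabs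
  refine Measurable.lintegral_prod_right' (f := fun q : (ℝ × ℝ) × ℝ =>
    ENNReal.ofReal |q.1.1 + Real.sqrt q.1.2 * q.2|) ?_
  fun_prop

lemma measurable_FF : Measurable (fun p : ℝ × ℝ × ℝ × ℝ × ℝ =>
    FF p.1 p.2.1 p.2.2.1 p.2.2.2.1 p.2.2.2.2) := by
  unfold FF
  refine Measurable.mul ?_ ?_
  · exact ENNReal.measurable_ofReal.comp (measurable_phi.comp
      (f := fun p : ℝ × ℝ × ℝ × ℝ × ℝ => (p.1, p.2.2.2.1)) (by fun_prop))
  · exact measurable_Mabs.comp (f := fun p : ℝ × ℝ × ℝ × ℝ × ℝ =>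
      (p.2.2.2.2 - p.2.1 / p.1 * p.2.2.2.1, p.2.2.1 - p.2.1 ^ 2 / p.1)) (by fun_prop)

/-- affine images of the standard Gaussian law -/
lemma lintegral_affine (m : ℝ) {v : ℝ} (hv : 0 ≤ v) (g : ℝ → ℝ≥0∞) (hg : Measurable g) :
    ∫⁻ z, g (m + Real.sqrt v * z) ∂gam1 = ∫⁻ y, g y ∂(gaussianReal m (Real.toNNReal v)) := by
  have h1 : gam1.map (fun z => m + Real.sqrt v * z) = gaussianReal m (Real.toNNReal v) := by
    have e : (fun z : ℝ => m + Real.sqrt v * z) = (fun z => m + z) ∘ (fun z => Real.sqrt v * z) := by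
      funext z; rfl
    rw [e, ← Measure.map_map (by fun_prop) (by fun_prop), gaussianReal_map_const_mul,
      gaussianReal_map_const_add]
    congr 1
    · ring
    · rw [mul_one]
      apply NNReal.coe_injective
      rw [Real.coe_toNNReal _ hv]
      exact Real.sq_sqrt hv
  rw [← h1, lintegral_map hg (by fun_prop)]

/-- completing the square -/
lemma phi_mul {A : ℝ} (hA : 0 < A) (α u t : ℝ) :
    phi A (u + α * t) * gaussianPDFReal 0 1 t = phi (A + α ^ 2) u *
      gaussianPDFReal (-(α * u) / (A + α ^ 2)) (Real.toNNReal (A / (A + α ^ 2))) t := by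
  have hA' : 0 < A + α ^ 2 := by positivity
  have hv : 0 < A / (A + α ^ 2) := by positivity
  have hpi := Real.pi_pos
  rw [gaussianPDFReal_def, gaussianPDFReal_def]
  simp only [phi, NNReal.coe_one, mul_one, sub_zero, Real.coe_toNNReal _ hv.le]
  have h1 : (Real.sqrt (2 * Real.pi * A))⁻¹ * (Real.sqrt (2 * Real.pi))⁻¹
      = (Real.sqrt (2 * Real.pi * (A + α ^ 2)))⁻¹ *
        (Real.sqrt (2 * Real.pi * (A / (A + α ^ 2))))⁻¹ := by
    rw [← mul_inv, ← mul_inv, ← Real.sqrt_mul (by positivity), ← Real.sqrt_mul (by positivity)]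
    congr 2
    field_simp
  have h2 : -((u + α * t) ^ 2) / (2 * A) + -(t ^ 2) / 2
      = -(u ^ 2) / (2 * (A + α ^ 2)) +
        -(t - -(α * u) / (A + α ^ 2)) ^ 2 / (2 * (A / (A + α ^ 2))) := by
    field_simp
    ring
  calc (Real.sqrt (2 * Real.pi * A))⁻¹ * Real.exp (-((u + α * t) ^ 2) / (2 * A)) *
        ((Real.sqrt (2 * Real.pi))⁻¹ * Real.exp (-(t ^ 2) / 2))
      = ((Real.sqrt (2 * Real.pi * A))⁻¹ * (Real.sqrt (2 * Real.pi))⁻¹) *
        (Real.exp (-((u + α * t) ^ 2) / (2 * A) + -(t ^ 2) / 2)) := by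
        rw [Real.exp_add]; ring
    _ = _ := by
        rw [h1, h2, Real.exp_add]; ring

lemma lintegral_gauss {v : ℝ≥0} (hv : v ≠ 0) (m : ℝ) (g : ℝ → ℝ≥0∞) (hg : Measurable g) :
    ∫⁻ t, g t ∂(gaussianReal m v) = ∫⁻ t, ENNReal.ofReal (gaussianPDFReal m v t) * g t := by
  rw [gaussianReal_of_var_ne_zero _ hv, lintegral_withDensity_eq_lintegral_mul _
    (measurable_gaussianPDF m v) hg]
  rfl

lemma step1 {A : ℝ} (hA : 0 < A) (α u : ℝ) (g : ℝ → ℝ≥0∞) (hg : Measurable g) :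
    ∫⁻ t, ENNReal.ofReal (phi A (u + α * t)) * g t ∂gam1 =
      ENNReal.ofReal (phi (A + α ^ 2) u) *
        ∫⁻ z, g (-(α * u) / (A + α ^ 2) + Real.sqrt (A / (A + α ^ 2)) * z) ∂gam1 := by
  have hA' : 0 < A + α ^ 2 := by positivity
  have hv : 0 < A / (A + α ^ 2) := by positivity
  have hph : Measurable (fun t : ℝ => phi A (u + α * t)) :=
    measurable_phi.comp (f := fun t : ℝ => (A, u + α * t)) (by fun_prop)
  have e1 := lintegral_gauss one_ne_zero 0 (fun t => ENNReal.ofReal (phi A (u + α * t)) * g t)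
    ((ENNReal.measurable_ofReal.comp hph).mul hg)
  rw [lintegral_affine _ hv.le g hg, e1, lintegral_gauss _ _ g hg]
  · have e2 := lintegral_const_mul (μ := volume) (ENNReal.ofReal (phi (A + α ^ 2) u))
      (f := fun t => ENNReal.ofReal (gaussianPDFReal (-(α * u) / (A + α ^ 2))
        (Real.toNNReal (A / (A + α ^ 2))) t) * g t)
      ((ENNReal.measurable_ofReal.comp (measurable_gaussianPDFReal _ _)).mul hg)
    rw [← e2]
    refine lintegral_congr fun t => ?_
    rw [← mul_assoc, ← mul_assoc, ← ENNReal.ofReal_mul (gaussianPDFReal_nonneg _ _ _),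
      ← ENNReal.ofReal_mul (phi_nonneg _ _), mul_comm (gaussianPDFReal 0 1 t), phi_mul hA]
  · intro h
    rw [Real.toNNReal_eq_zero] at h
    linarith

/-- adding independent Gaussian variables -/
lemma Mabs_conv (m κ T : ℝ) (hT : 0 ≤ T) :
    ∫⁻ z, Mabs (m + κ * z) T ∂gam1 = Mabs m (κ ^ 2 + T) := by
  unfold Mabs
  have hmeas : Measurable (fun y : ℝ => ENNReal.ofReal |m + y|) := by fun_prop
  have h1 : ∀ c : ℝ, ∀ s : ℝ, 0 ≤ s → ∫⁻ z, ENNReal.ofReal |m + c + Real.sqrt s * z| ∂gam1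
      = ∫⁻ y, ENNReal.ofReal |m + (c + y)| ∂(gaussianReal 0 (Real.toNNReal s)) := by
    intro c s hs
    have := lintegral_affine 0 hs (fun y => ENNReal.ofReal |m + (c + y)|) (by fun_prop)
    rw [← this]
    refine lintegral_congr fun z => ?_
    rw [zero_add, add_assoc]
  have h2 : ∫⁻ z, ENNReal.ofReal |m + Real.sqrt (κ ^ 2 + T) * z| ∂gam1
      = ∫⁻ y, ENNReal.ofReal |m + y| ∂(gaussianReal 0 (Real.toNNReal (κ ^ 2 + T))) := by
    have := lintegral_affine 0 (show 0 ≤ κ ^ 2 + T by positivity)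
      (fun y => ENNReal.ofReal |m + y|) (by fun_prop)
    rw [← this]
    refine lintegral_congr fun z => ?_
    rw [zero_add]
  rw [h2]
  have h3 : gaussianReal 0 (Real.toNNReal (κ ^ 2 + T))
      = (gaussianReal 0 (Real.toNNReal (κ ^ 2))) ∗ (gaussianReal 0 (Real.toNNReal T)) := by
    rw [gaussianReal_conv_gaussianReal, Real.toNNReal_add (sq_nonneg _) hT, add_zero]
  rw [h3, Measure.lintegral_conv (by fun_prop)]
  have h4 : ∫⁻ z, ∫⁻ z_1, ENNReal.ofReal |m + κ * z + Real.sqrt T * z_1| ∂gam1 ∂gam1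
      = ∫⁻ z, ∫⁻ y, ENNReal.ofReal |m + (κ * z + y)| ∂(gaussianReal 0 (Real.toNNReal T)) ∂gam1 :=
    lintegral_congr fun z => h1 _ T hT
  rw [h4]
  have h5 : gam1.map (fun z => κ * z) = gaussianReal 0 (Real.toNNReal (κ ^ 2)) := by
    rw [gaussianReal_map_const_mul]
    congr 1
    · ring
    · rw [mul_one]
      apply NNReal.coe_injective
      rw [Real.coe_toNNReal _ (sq_nonneg _)]
      rfl
  rw [← h5, lintegral_map (Measurable.lintegral_prod_right' (f := fun q : ℝ × ℝ =>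
    ENNReal.ofReal |m + (q.1 + q.2)|) (by fun_prop)) (by fun_prop)]

/-- the one-step identity -/
theorem step (A B C u w α β : ℝ) (hA : 0 < A) (hT : 0 ≤ C - B ^ 2 / A) :
    ∫⁻ t, FF A B C (u + α * t) (w + β * t) ∂gam1
      = FF (A + α ^ 2) (B + α * β) (C + β ^ 2) u w := by
  have hA' : 0 < A + α ^ 2 := by positivity
  unfold FF
  have hg : Measurable (fun t : ℝ => Mabs (w + β * t - B / A * (u + α * t)) (C - B ^ 2 / A)) :=
    measurable_Mabs.comp (f := fun t : ℝ => (w + β * t - B / A * (u + α * t), C - B ^ 2 / A))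
      (by fun_prop)
  rw [step1 hA α u _ hg]
  congr 1
  have h1 : ∀ z : ℝ, w + β * (-(α * u) / (A + α ^ 2) + Real.sqrt (A / (A + α ^ 2)) * z)
      - B / A * (u + α * (-(α * u) / (A + α ^ 2) + Real.sqrt (A / (A + α ^ 2)) * z))
      = (w - (B + α * β) / (A + α ^ 2) * u)
        + ((β - α * B / A) * Real.sqrt (A / (A + α ^ 2))) * z := by
    intro z
    field_simp
    ring
  simp only [h1]
  rw [Mabs_conv _ _ _ hT]
  congr 1
  rw [mul_pow, Real.sq_sqrt (by positivity)]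
  field_simp
  ring

end Pool.Agent.V11333.Kac
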