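import Pool.Agent.V11333.KacG1
import Pool.Agent.Helper764.KacFin

/-!
# Kac-Rice formula for mixtures of two Gaussian laws (helper for MP_a7dd25_pr)
-/

set_option autoImplicit false

open MeasureTheory ProbabilityTheory Filter Topology Set
open scoped ENNReal NNReal

namespace Pool.Agent.V11333.Kac

/-- the mixture of the centred Gaussian laws with variances `1 + ε` and `1 - ε` -/
noncomputable def mix (ε : ℝ) : Measure ℝ :=
  (1 / 2 : ℝ≥0∞) • gaussianReal 0 (Real.toNNReal (1 + ε)) +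
    (1 / 2 : ℝ≥0∞) • gaussianReal 0 (Real.toNNReal (1 - ε))

/-- the law of a fair sign -/
noncomputable def coin : Measure ℝ :=
  (1 / 2 : ℝ≥0∞) • Measure.dirac 1 + (1 / 2 : ℝ≥0∞) • Measure.dirac (-1)

lemma half_add_half : (1 / 2 : ℝ≥0∞) + 1 / 2 = 1 := ENNReal.add_halves 1

instance mix_prob (ε : ℝ) : IsProbabilityMeasure (mix ε) := by
  refine ⟨?_⟩
  unfold mix
  simp only [Measure.add_apply, Measure.smul_apply, measure_univ, smul_eq_mul, mul_one]
  exact half_add_half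

instance coin_prob : IsProbabilityMeasure coin := by
  refine ⟨?_⟩
  unfold coin
  simp only [Measure.add_apply, Measure.smul_apply, measure_univ, smul_eq_mul, mul_one]
  exact half_add_half

lemma lint_coin (h : ℝ → ℝ≥0∞) : ∫⁻ s, h s ∂coin = 1 / 2 * h 1 + 1 / 2 * h (-1) := by
  unfold coin
  rw [lintegral_add_measure, lintegral_smul_measure, lintegral_smul_measure, lintegral_dirac,
    lintegral_dirac]
  simp

lemma lint_mix {ε : ℝ} (h0 : 0 ≤ ε) (h1 : ε < 1) (g : ℝ → ℝ≥0∞) (hg : Measurable g) :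
    ∫⁻ t, g t ∂(mix ε) = ∫⁻ s, ∫⁻ z, g (Real.sqrt (1 + ε * s) * z) ∂gam1 ∂coin := by
  rw [lint_coin]
  unfold mix
  rw [lintegral_add_measure, lintegral_smul_measure, lintegral_smul_measure]
  have e1 := lintegral_affine 0 (show 0 ≤ 1 + ε by linarith) g hg
  have e2 := lintegral_affine 0 (show 0 ≤ 1 - ε by linarith) g hg
  simp only [zero_add] at e1 e2
  rw [← e1, ← e2]
  simp only [mul_one, mul_neg, ← sub_eq_add_neg, smul_eq_mul]

lemma pdf_eq {v : ℝ} (hv : 0 ≤ v) (c : ℝ) : gaussianPDFReal 0 (Real.toNNReal v) c = phi v c := by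
  rw [gaussianPDFReal_def]
  simp only [phi, Real.coe_toNNReal _ hv, sub_zero]

lemma lint_mix_density {ε : ℝ} (h0 : 0 ≤ ε) (h1 : ε < 1) (g : ℝ → ℝ≥0∞) (hg : Measurable g) :
    ∫⁻ t, g t ∂(mix ε) = ∫⁻ t, g t * ∫⁻ s, ENNReal.ofReal (phi (1 + ε * s) t) ∂coin := by
  have hph : ∀ v : ℝ, Measurable (fun t : ℝ => ENNReal.ofReal (phi v t)) := fun v =>
    ENNReal.measurable_ofReal.comp (measurable_phi.comp (f := fun t : ℝ => (v, t)) (by fun_prop))
  have e3 : ∀ v : ℝ, 0 < v → ∫⁻ t, g t ∂(gaussianReal 0 (Real.toNNReal v))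
      = ∫⁻ t, ENNReal.ofReal (phi v t) * g t := by
    intro v hv
    rw [lintegral_gauss _ _ g hg]
    · refine lintegral_congr fun t => ?_
      rw [pdf_eq hv.le]
    · intro h
      rw [Real.toNNReal_eq_zero] at h
      linarith
  simp only [lint_coin]
  unfold mix
  rw [lintegral_add_measure, lintegral_smul_measure, lintegral_smul_measure,
    e3 _ (by linarith), e3 _ (by linarith)]
  simp only [mul_one, mul_neg, ← sub_eq_add_neg, smul_eq_mul]
  have e4 : ∀ v : ℝ, (1 / 2 : ℝ≥0∞) * ∫⁻ t, ENNReal.ofReal (phi v t) * g t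
      = ∫⁻ t, (1 / 2 : ℝ≥0∞) * (ENNReal.ofReal (phi v t) * g t) := fun v =>
    (lintegral_const_mul (1 / 2 : ℝ≥0∞) ((hph v).mul hg)).symm
  have e5 := lintegral_add_left (μ := volume)
    (f := fun t => (1 / 2 : ℝ≥0∞) * (ENNReal.ofReal (phi (1 + ε) t) * g t))
    (((hph _).mul hg).const_mul _)
    (fun t => (1 / 2 : ℝ≥0∞) * (ENNReal.ofReal (phi (1 - ε) t) * g t))
  rw [e4, e4, ← e5]
  refine lintegral_congr fun t => ?_
  ring

lemma phi_neg (A u : ℝ) : phi A (-u) = phi A u := by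
  unfold phi
  rw [neg_sq]

lemma Mabs_zero (m : ℝ) : Mabs m 0 = ENNReal.ofReal |m| := by
  unfold Mabs
  simp

lemma FF_base (v u w : ℝ) : FF v 0 0 u w = ENNReal.ofReal (phi v u) * ENNReal.ofReal |w| := by
  unfold FF
  simp [Mabs_zero]

lemma FF_final {A B C : ℝ} (hA : 0 < A) :
    FF A B C 0 0 = ENNReal.ofReal (1 / Real.pi * Real.sqrt (A * C - B ^ 2) / A) := by
  have hpi := Real.pi_pos
  unfold FF Mabs
  have e1 : ∀ z : ℝ, ENNReal.ofReal |0 - B / A * 0 + Real.sqrt (C - B ^ 2 / A) * z|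
      = ENNReal.ofReal (Real.sqrt (C - B ^ 2 / A)) * ENNReal.ofReal |z| := by
    intro z
    rw [← ENNReal.ofReal_mul (Real.sqrt_nonneg _)]
    congr 1
    rw [mul_zero, sub_zero, zero_add, abs_mul, abs_of_nonneg (Real.sqrt_nonneg _)]
  simp only [e1]
  rw [lintegral_const_mul _ (by fun_prop)]
  have e2 : ∫⁻ z, ENNReal.ofReal |z| ∂gam1 = ENNReal.ofReal (2 * Kac764.K3.gePhi) := by
    rw [← Kac764.K3.ge_E0, ofReal_integral_eq_lintegral_ofReal Kac764.K3.ge_absint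
      (Eventually.of_forall fun z => abs_nonneg z)]
  rw [e2, ← ENNReal.ofReal_mul (Real.sqrt_nonneg _), ← ENNReal.ofReal_mul (phi_nonneg _ _)]
  congr 1
  have e3 : phi A 0 = Kac764.K3.gePhi / Real.sqrt A := by
    unfold phi Kac764.K3.gePhi
    rw [Real.sqrt_mul (by positivity)]
    simp
    field_simp
  rw [e3]
  have e4 : Real.sqrt (C - B ^ 2 / A) = Real.sqrt (A * C - B ^ 2) / Real.sqrt A := by
    rw [← Real.sqrt_div' _ hA.le]
    congr 1
    field_simp
  rw [e4]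
  have e5 := Kac764.K3.ge_phi_sq
  have e6 : Real.sqrt A * Real.sqrt A = A := Real.mul_self_sqrt hA.le
  have e7 : 0 < Real.sqrt A := Real.sqrt_pos.2 hA
  calc Kac764.K3.gePhi / Real.sqrt A * (Real.sqrt (A * C - B ^ 2) / Real.sqrt A *
        (2 * Kac764.K3.gePhi))
      = (2 * Kac764.K3.gePhi * Kac764.K3.gePhi) * Real.sqrt (A * C - B ^ 2)
        / (Real.sqrt A * Real.sqrt A) := by
        field_simp
    _ = _ := by rw [e5, e6]

/-- one step for the mixture -/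
lemma step_mix {ε : ℝ} (h0 : 0 ≤ ε) (h1 : ε < 1) (A B C u w α β : ℝ) (hA : 0 < A)
    (hT : 0 ≤ C - B ^ 2 / A) :
    ∫⁻ t, FF A B C (u + α * t) (w + β * t) ∂(mix ε)
      = ∫⁻ s, FF (A + (1 + ε * s) * α ^ 2) (B + (1 + ε * s) * (α * β))
          (C + (1 + ε * s) * β ^ 2) u w ∂coin := by
  have hg : Measurable (fun t : ℝ => FF A B C (u + α * t) (w + β * t)) :=
    measurable_FF.comp (f := fun t : ℝ => (A, B, C, u + α * t, w + β * t)) (by fun_prop)
  rw [lint_mix h0 h1 _ hg, lint_coin, lint_coin]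
  have key : ∀ v : ℝ, 0 ≤ v → ∫⁻ z, FF A B C (u + α * (Real.sqrt v * z))
      (w + β * (Real.sqrt v * z)) ∂gam1
      = FF (A + v * α ^ 2) (B + v * (α * β)) (C + v * β ^ 2) u w := by
    intro v hv
    have e := step A B C u w (α * Real.sqrt v) (β * Real.sqrt v) hA hT
    have hs : Real.sqrt v * Real.sqrt v = v := Real.mul_self_sqrt hv
    rw [show A + v * α ^ 2 = A + (α * Real.sqrt v) ^ 2 by rw [mul_pow, pow_two (Real.sqrt v), hs]; ring,
      show B + v * (α * β) = B + (α * Real.sqrt v) * (β * Real.sqrt v) by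
        rw [show (α * Real.sqrt v) * (β * Real.sqrt v) = α * β * (Real.sqrt v * Real.sqrt v) by ring,
          hs]; ring,
      show C + v * β ^ 2 = C + (β * Real.sqrt v) ^ 2 by rw [mul_pow, pow_two (Real.sqrt v), hs]; ring,
      ← e]
    refine lintegral_congr fun z => ?_
    rw [mul_assoc, mul_assoc]
  rw [key _ (by linarith), key _ (by linarith)]

lemma ae_coin : ∀ᵐ η ∂(Kac764.PP coin), ∀ k : ℕ, |η k| ≤ 1 := by
  rw [ae_all_iff]
  intro k
  have hmp : MeasurePreserving (fun ω : ℕ → ℝ => ω k) (Kac764.PP coin) coin :=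
    measurePreserving_eval_infinitePi _ k
  have h1 : ∀ᵐ s ∂coin, |s| ≤ 1 := by
    unfold coin
    rw [ae_iff]
    have hset : MeasurableSet {a : ℝ | ¬ |a| ≤ 1} :=
      (measurableSet_le (f := fun a : ℝ => |a|) (g := fun _ => (1 : ℝ)) (by fun_prop)
        (by fun_prop)).compl
    rw [Measure.add_apply, Measure.smul_apply, Measure.smul_apply, Measure.dirac_apply' _ hset,
      Measure.dirac_apply' _ hset]
    simp
  exact hmp.quasiMeasurePreserving.ae h1


/-! ### The truncated sums -/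

section Sums

variable (ε : ℝ) (η : ℕ → ℝ) (x : ℝ)

/-- `∑_{k ≤ j} (1 + ε η_k) x^{2k}` -/
noncomputable def sA (j : ℕ) : ℝ := ∑ k ∈ Finset.range (j + 1), (1 + ε * η k) * (x ^ k) ^ 2
/-- `∑_{k ≤ j} (1 + ε η_k) x^k (k x^{k-1})` -/
noncomputable def sB (j : ℕ) : ℝ :=
  ∑ k ∈ Finset.range (j + 1), (1 + ε * η k) * (x ^ k * ((k : ℝ) * x ^ (k - 1)))
/-- `∑_{k ≤ j} (1 + ε η_k) (k x^{k-1})^2` -/
noncomputable def sC (j : ℕ) : ℝ :=
  ∑ k ∈ Finset.range (j + 1), (1 + ε * η k) * ((k : ℝ) * x ^ (k - 1)) ^ 2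

/-- `∑_{j < k ≤ n} ω_k x^k` -/
noncomputable def sU (ω : ℕ → ℝ) (n j : ℕ) : ℝ := ∑ k ∈ Finset.Ioc j n, ω k * x ^ k
/-- `∑_{j < k ≤ n} ω_k k x^{k-1}` -/
noncomputable def sW (ω : ℕ → ℝ) (n j : ℕ) : ℝ :=
  ∑ k ∈ Finset.Ioc j n, ω k * ((k : ℝ) * x ^ (k - 1))

end Sums

lemma one_add_pos {ε : ℝ} (h0 : 0 ≤ ε) (h1 : ε < 1) {s : ℝ} (hs : |s| ≤ 1) : 0 < 1 + ε * s := by
  have := (abs_le.1 hs).1
  nlinarith

lemma sA_pos {ε : ℝ} (h0 : 0 ≤ ε) (h1 : ε < 1) {η : ℕ → ℝ} (hη : ∀ k, |η k| ≤ 1) (x : ℝ) (j : ℕ) :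
    0 < sA ε η x j := by
  unfold sA
  rw [Finset.sum_range_succ']
  have h2 : 0 ≤ ∑ k ∈ Finset.range j, (1 + ε * η (k + 1)) * (x ^ (k + 1)) ^ 2 :=
    Finset.sum_nonneg fun k _ => mul_nonneg (one_add_pos h0 h1 (hη _)).le (sq_nonneg _)
  have h3 := one_add_pos h0 h1 (hη 0)
  simp only [pow_zero, one_pow, mul_one]
  linarith

/-- Cauchy-Schwarz -/
lemma sBC {ε : ℝ} (h0 : 0 ≤ ε) (h1 : ε < 1) {η : ℕ → ℝ} (hη : ∀ k, |η k| ≤ 1) (x : ℝ) (j : ℕ) :
    sB ε η x j ^ 2 ≤ sA ε η x j * sC ε η x j := by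
  unfold sA sB sC
  have h := Finset.sum_mul_sq_le_sq_mul_sq (Finset.range (j + 1))
    (fun k => Real.sqrt (1 + ε * η k) * x ^ k)
    (fun k => Real.sqrt (1 + ε * η k) * ((k : ℝ) * x ^ (k - 1)))
  have e : ∀ k, Real.sqrt (1 + ε * η k) * Real.sqrt (1 + ε * η k) = 1 + ε * η k := fun k =>
    Real.mul_self_sqrt (one_add_pos h0 h1 (hη k)).le
  have e1 : ∀ k, (Real.sqrt (1 + ε * η k) * x ^ k) *
      (Real.sqrt (1 + ε * η k) * ((k : ℝ) * x ^ (k - 1)))
      = (1 + ε * η k) * (x ^ k * ((k : ℝ) * x ^ (k - 1))) := by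
    intro k
    calc _ = (Real.sqrt (1 + ε * η k) * Real.sqrt (1 + ε * η k)) *
          (x ^ k * ((k : ℝ) * x ^ (k - 1))) := by ring
      _ = _ := by rw [e k]
  have e2 : ∀ k, (Real.sqrt (1 + ε * η k) * x ^ k) ^ 2 = (1 + ε * η k) * (x ^ k) ^ 2 := by
    intro k; rw [mul_pow, pow_two (Real.sqrt _), e k]
  have e3 : ∀ k, (Real.sqrt (1 + ε * η k) * ((k : ℝ) * x ^ (k - 1))) ^ 2
      = (1 + ε * η k) * ((k : ℝ) * x ^ (k - 1)) ^ 2 := by
    intro k; rw [mul_pow, pow_two (Real.sqrt _), e k]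
  simp only [e1, e2, e3] at h
  exact h

lemma sT_nonneg {ε : ℝ} (h0 : 0 ≤ ε) (h1 : ε < 1) {η : ℕ → ℝ} (hη : ∀ k, |η k| ≤ 1) (x : ℝ)
    (j : ℕ) : 0 ≤ sC ε η x j - sB ε η x j ^ 2 / sA ε η x j := by
  have h2 := sA_pos h0 h1 hη x j
  have h3 := sBC h0 h1 hη x j
  rw [sub_nonneg, div_le_iff₀ h2]
  linarith

lemma Ioc_eq {n j : ℕ} (hj : j + 1 ≤ n) :
    Finset.Ioc j n = insert (j + 1) (Finset.Ioc (j + 1) n) := by
  ext k
  simp only [Finset.mem_insert, Finset.mem_Ioc]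
  omega

lemma sU_succ (x : ℝ) (ω : ℕ → ℝ) {n j : ℕ} (hj : j + 1 ≤ n) (t : ℝ) :
    sU x (Function.update ω (j + 1) t) n j = sU x ω n (j + 1) + x ^ (j + 1) * t := by
  unfold sU
  rw [Ioc_eq hj, Finset.sum_insert (by simp), Function.update_self, add_comm, mul_comm t]
  congr 1
  refine Finset.sum_congr rfl fun k hk => ?_
  rw [Finset.mem_Ioc] at hk
  rw [Function.update_of_ne (by omega)]

lemma sW_succ (x : ℝ) (ω : ℕ → ℝ) {n j : ℕ} (hj : j + 1 ≤ n) (t : ℝ) :
    sW x (Function.update ω (j + 1) t) n j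
      = sW x ω n (j + 1) + (((j + 1 : ℕ) : ℝ) * x ^ j) * t := by
  unfold sW
  rw [Ioc_eq hj, Finset.sum_insert (by simp), Function.update_self, add_comm, mul_comm t]
  congr 1
  refine Finset.sum_congr rfl fun k hk => ?_
  rw [Finset.mem_Ioc] at hk
  rw [Function.update_of_ne (by omega)]

lemma sA_upd (ε x : ℝ) (η : ℕ → ℝ) (j : ℕ) (s : ℝ) :
    sA ε (Function.update η (j + 1) s) x (j + 1)
      = sA ε η x j + (1 + ε * s) * (x ^ (j + 1)) ^ 2 := by
  unfold sA
  rw [Finset.sum_range_succ, Function.update_self]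
  congr 1
  refine Finset.sum_congr rfl fun k hk => ?_
  rw [Finset.mem_range] at hk
  rw [Function.update_of_ne (by omega)]

lemma sB_upd (ε x : ℝ) (η : ℕ → ℝ) (j : ℕ) (s : ℝ) :
    sB ε (Function.update η (j + 1) s) x (j + 1)
      = sB ε η x j + (1 + ε * s) * (x ^ (j + 1) * (((j + 1 : ℕ) : ℝ) * x ^ j)) := by
  unfold sB
  rw [Finset.sum_range_succ, Function.update_self]
  congr 1
  refine Finset.sum_congr rfl fun k hk => ?_
  rw [Finset.mem_range] at hk
  rw [Function.update_of_ne (by omega)]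

lemma sC_upd (ε x : ℝ) (η : ℕ → ℝ) (j : ℕ) (s : ℝ) :
    sC ε (Function.update η (j + 1) s) x (j + 1)
      = sC ε η x j + (1 + ε * s) * (((j + 1 : ℕ) : ℝ) * x ^ j) ^ 2 := by
  unfold sC
  rw [Finset.sum_range_succ, Function.update_self]
  congr 1
  refine Finset.sum_congr rfl fun k hk => ?_
  rw [Finset.mem_range] at hk
  rw [Function.update_of_ne (by omega)]

lemma meas_sA (ε x : ℝ) (j : ℕ) : Measurable (fun η : ℕ → ℝ => sA ε η x j) := by
  unfold sA; fun_prop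
lemma meas_sB (ε x : ℝ) (j : ℕ) : Measurable (fun η : ℕ → ℝ => sB ε η x j) := by
  unfold sB; fun_prop
lemma meas_sC (ε x : ℝ) (j : ℕ) : Measurable (fun η : ℕ → ℝ => sC ε η x j) := by
  unfold sC; fun_prop
lemma meas_sU (x : ℝ) (n j : ℕ) : Measurable (fun ω : ℕ → ℝ => sU x ω n j) := by
  unfold sU; fun_prop
lemma meas_sW (x : ℝ) (n j : ℕ) : Measurable (fun ω : ℕ → ℝ => sW x ω n j) := by
  unfold sW; fun_prop

/-- the integrand at stage `j` -/
noncomputable def stage (ε x : ℝ) (n j : ℕ) (ω η : ℕ → ℝ) : ℝ≥0∞ :=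
  FF (sA ε η x j) (sB ε η x j) (sC ε η x j) (sU x ω n j) (sW x ω n j)

lemma meas_stage (ε x : ℝ) (n j : ℕ) :
    Measurable (fun p : (ℕ → ℝ) × (ℕ → ℝ) => stage ε x n j p.1 p.2) := by
  unfold stage
  exact measurable_FF.comp (((meas_sA ε x j).comp measurable_snd).prodMk
    (((meas_sB ε x j).comp measurable_snd).prodMk
    (((meas_sC ε x j).comp measurable_snd).prodMk
    (((meas_sU x n j).comp measurable_fst).prodMk ((meas_sW x n j).comp measurable_fst)))))

/-- the integral at stage `j` -/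
noncomputable def stageInt (ε x : ℝ) (n j : ℕ) : ℝ≥0∞ :=
  ∫⁻ ω, ∫⁻ η, stage ε x n j ω η ∂(Kac764.PP coin) ∂(Kac764.PP (mix ε))

lemma stageInt_succ {ε : ℝ} (h0 : 0 ≤ ε) (h1 : ε < 1) (x : ℝ) {n j : ℕ} (hj : j + 1 ≤ n) :
    stageInt ε x n j = stageInt ε x n (j + 1) := by
  unfold stageInt
  have hm1 : Measurable (fun ω : ℕ → ℝ => ∫⁻ η, stage ε x n j ω η ∂(Kac764.PP coin)) :=
    Measurable.lintegral_prod_right' (meas_stage ε x n j)
  rw [← Kac764.G1.x_lint_upd (mix ε) (j + 1) hm1]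
  refine lintegral_congr fun ω => ?_
  have hup : Measurable (fun p : ℝ × (ℕ → ℝ) => Function.update ω (j + 1) p.1) :=
    (measurable_update ω).comp measurable_fst
  have hm2 : Measurable (fun p : ℝ × (ℕ → ℝ) =>
      stage ε x n j (Function.update ω (j + 1) p.1) p.2) :=
    (meas_stage ε x n j).comp
      (f := fun p : ℝ × (ℕ → ℝ) => (Function.update ω (j + 1) p.1, p.2))
      (hup.prodMk measurable_snd)
  rw [lintegral_lintegral_swap hm2.aemeasurable]
  have hm3 : Measurable (fun η : ℕ → ℝ => stage ε x n (j + 1) ω η) :=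
    (meas_stage ε x n (j + 1)).comp (f := fun η : ℕ → ℝ => (ω, η))
      (measurable_const.prodMk measurable_id)
  rw [← Kac764.G1.x_lint_upd coin (j + 1) hm3]
  refine lintegral_congr_ae ?_
  filter_upwards [ae_coin] with η hη
  unfold stage
  simp only [sU_succ x ω hj, sW_succ x ω hj, sA_upd, sB_upd, sC_upd]
  exact step_mix h0 h1 _ _ _ _ _ _ _ (sA_pos h0 h1 hη x j) (sT_nonneg h0 h1 hη x j)

/-- the conditional density of zeros -/
noncomputable def rhoe (ε : ℝ) (n : ℕ) (x : ℝ) (η : ℕ → ℝ) : ℝ :=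
  1 / Real.pi * Real.sqrt (sA ε η x n * sC ε η x n - sB ε η x n ^ 2) / sA ε η x n

lemma stageInt_last {ε : ℝ} (h0 : 0 ≤ ε) (h1 : ε < 1) (x : ℝ) (n : ℕ) :
    stageInt ε x n n = ∫⁻ η, ENNReal.ofReal (rhoe ε n x η) ∂(Kac764.PP coin) := by
  unfold stageInt
  have h2 : ∀ ω : ℕ → ℝ, ∫⁻ η, stage ε x n n ω η ∂(Kac764.PP coin)
      = ∫⁻ η, ENNReal.ofReal (rhoe ε n x η) ∂(Kac764.PP coin) := by
    intro ω
    refine lintegral_congr_ae ?_
    filter_upwards [ae_coin] with η hη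
    unfold stage sU sW rhoe
    simp only [Finset.Ioc_self, Finset.sum_empty]
    exact FF_final (sA_pos h0 h1 hη x n)
  simp only [h2]
  rw [lintegral_const, measure_univ, mul_one]

lemma stageInt_zero {ε : ℝ} (h0 : 0 ≤ ε) (h1 : ε < 1) (x : ℝ) (n : ℕ) :
    stageInt ε x n 0 = ∫⁻ η, ENNReal.ofReal (rhoe ε n x η) ∂(Kac764.PP coin) := by
  rw [← stageInt_last h0 h1]
  have : ∀ j, j ≤ n → stageInt ε x n 0 = stageInt ε x n j := by
    intro j
    induction j with
    | zero => intro _; rfl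
    | succ j ih => intro hj; rw [ih (by omega), stageInt_succ h0 h1 x hj]
  exact this n le_rfl

lemma D0_upd (n : ℕ) (ω : ℕ → ℝ) (x : ℝ) :
    Kac764.D0 n (Function.update ω 0 0) x = sU x ω n 0 := by
  unfold Kac764.D0 sU
  rw [Finset.sum_range_succ', Function.update_self, zero_mul, add_zero]
  have h : Finset.Ioc 0 n = (Finset.range n).image (fun k => k + 1) := by
    ext k
    simp only [Finset.mem_Ioc, Finset.mem_image, Finset.mem_range]
    constructor
    · intro hk; exact ⟨k - 1, by omega, by omega⟩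
    · rintro ⟨i, hi, rfl⟩; omega
  rw [h, Finset.sum_image (fun a _ b _ hab => by simpa using hab)]
  refine Finset.sum_congr rfl fun k _ => ?_
  rw [Function.update_of_ne (by omega)]

lemma D1_upd (n : ℕ) (ω : ℕ → ℝ) (x : ℝ) :
    Kac764.D1 n (Function.update ω 0 0) x = sW x ω n 0 := by
  unfold Kac764.D1 sW
  rw [Finset.sum_range_succ', Function.update_self, zero_mul, add_zero]
  have h : Finset.Ioc 0 n = (Finset.range n).image (fun k => k + 1) := by
    ext k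
    simp only [Finset.mem_Ioc, Finset.mem_image, Finset.mem_range]
    constructor
    · intro hk; exact ⟨k - 1, by omega, by omega⟩
    · rintro ⟨i, hi, rfl⟩; omega
  rw [h, Finset.sum_image (fun a _ b _ hab => by simpa using hab)]
  refine Finset.sum_congr rfl fun k _ => ?_
  rw [Function.update_of_ne (by omega)]

lemma meas_U2 (n : ℕ) : Measurable (fun p : ℝ × (ℕ → ℝ) => sU p.1 p.2 n 0) := by
  unfold sU; fun_prop
lemma meas_W2 (n : ℕ) : Measurable (fun p : ℝ × (ℕ → ℝ) => sW p.1 p.2 n 0) := by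
  unfold sW; fun_prop

/-- the density of the mixture -/
noncomputable def dens (ε t : ℝ) : ℝ≥0∞ := ∫⁻ s, ENNReal.ofReal (phi (1 + ε * s) t) ∂coin

lemma meas_dens (ε : ℝ) : Measurable (dens ε) := by
  unfold dens
  refine Measurable.lintegral_prod_right' (f := fun q : ℝ × ℝ =>
    ENNReal.ofReal (phi (1 + ε * q.2) q.1)) ?_
  exact ENNReal.measurable_ofReal.comp (measurable_phi.comp
    (f := fun q : ℝ × ℝ => (1 + ε * q.2, q.1)) (by fun_prop))

/-- **Kac-Rice formula** for the mixture. -/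
theorem kacRice {ε : ℝ} (h0 : 0 ≤ ε) (h1 : ε < 1) (n : ℕ) {a b : ℝ} (hab : a < b) :
    ∫⁻ ω, (Kac764.nz (Kac764.kac n ω) (Ioo a b) : ℝ≥0∞) ∂(Kac764.PP (mix ε))
      = ∫⁻ x in Ioo a b, ∫⁻ η, ENNReal.ofReal (rhoe ε n x η) ∂(Kac764.PP coin) := by
  have hm : Measurable (fun ω : ℕ → ℝ => (Kac764.nz (Kac764.kac n ω) (Ioo a b) : ℝ≥0∞)) :=
    (measurable_of_countable (fun k : ℕ => (k : ℝ≥0∞))).comp (Kac764.J6.measurable_nz n a b)
  rw [← Kac764.G1.x_lint_upd (mix ε) 0 hm]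
  have h2 : ∀ ω : ℕ → ℝ, ∫⁻ c, (Kac764.nz (Kac764.kac n (Function.update ω 0 c)) (Ioo a b) : ℝ≥0∞)
      ∂(mix ε) = ∫⁻ x in Ioo a b, ENNReal.ofReal |sW x ω n 0| * dens ε (-(sU x ω n 0)) := by
    intro ω
    have hm' : Measurable (fun c : ℝ =>
        (Kac764.nz (Kac764.kac n (Function.update ω 0 c)) (Ioo a b) : ℝ≥0∞)) :=
      hm.comp ((Kac764.G1.x_meas_upd 0).comp (measurable_const.prodMk measurable_id))
    rw [lint_mix_density h0 h1 _ hm']
    have h3 := Kac764.J1.banach_indicatrix (Kac764.kac n (Function.update ω 0 0)) a b hab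
      (dens ε) (meas_dens ε)
    have h4 : ∀ c : ℝ, Kac764.kac n (Function.update ω 0 0) + Polynomial.C c
        = Kac764.kac n (Function.update ω 0 c) := by
      intro c
      have := Kac764.K5.kac_update n (Function.update ω 0 0) c
      rw [← this, Function.update_self, zero_add, Function.update_idem]
    simp only [h4] at h3
    have h5 : ∀ x : ℝ, (Kac764.kac n (Function.update ω 0 0)).derivative.eval x = sW x ω n 0 := by
      intro x
      rw [Kac764.P6.kac_deriv_eval, D1_upd]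
    have h6 : ∀ x : ℝ, (Kac764.kac n (Function.update ω 0 0)).eval x = sU x ω n 0 := by
      intro x
      rw [Kac764.P6.kac_eval, D0_upd]
    simp only [h5, h6] at h3
    exact h3
  simp only [h2]
  have hm4 : Measurable (fun p : (ℕ → ℝ) × ℝ =>
      ENNReal.ofReal |sW p.2 p.1 n 0| * dens ε (-(sU p.2 p.1 n 0))) := by
    refine Measurable.mul ?_ ?_
    · exact ENNReal.measurable_ofReal.comp (((meas_W2 n).comp
        (f := fun p : (ℕ → ℝ) × ℝ => (p.2, p.1)) (by fun_prop)).abs)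
    · exact (meas_dens ε).comp (((meas_U2 n).comp
        (f := fun p : (ℕ → ℝ) × ℝ => (p.2, p.1)) (by fun_prop)).neg)
  rw [lintegral_lintegral_swap hm4.aemeasurable]
  refine lintegral_congr fun x => ?_
  rw [← stageInt_zero h0 h1 x n]
  unfold stageInt
  refine lintegral_congr fun ω => ?_
  have hmp : MeasurePreserving (fun η : ℕ → ℝ => η 0) (Kac764.PP coin) coin :=
    measurePreserving_eval_infinitePi _ 0
  have h7 : ∀ η : ℕ → ℝ, stage ε x n 0 ω η
      = (fun s : ℝ => ENNReal.ofReal (phi (1 + ε * s) (sU x ω n 0)) *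
        ENNReal.ofReal |sW x ω n 0|) (η 0) := by
    intro η
    unfold stage
    have e1 : sA ε η x 0 = 1 + ε * η 0 := by simp [sA]
    have e2 : sB ε η x 0 = 0 := by simp [sB]
    have e3 : sC ε η x 0 = 0 := by simp [sC]
    rw [e1, e2, e3, FF_base]
  simp only [h7]
  have hm5 : Measurable (fun s : ℝ => ENNReal.ofReal (phi (1 + ε * s) (sU x ω n 0))) :=
    ENNReal.measurable_ofReal.comp (measurable_phi.comp
      (f := fun s : ℝ => (1 + ε * s, sU x ω n 0)) (by fun_prop))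
  have h9 := lintegral_mul_const (μ := Kac764.PP coin) (ENNReal.ofReal |sW x ω n 0|)
    (f := fun η : ℕ → ℝ => ENNReal.ofReal (phi (1 + ε * η 0) (sU x ω n 0)))
    (hm5.comp (measurable_pi_apply 0))
  have h8 := hmp.lintegral_comp hm5
  rw [h9, h8]
  unfold dens
  simp only [phi_neg]
  rw [mul_comm]

end Pool.Agent.V11333.Kac
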