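import Pool.Agent.V11333.KacG2

/-!
# Lower bound for the density of zeros of the mixture (helper for MP_a7dd25_pr)
-/

set_option autoImplicit false

open MeasureTheory ProbabilityTheory Filter Topology Set
open scoped ENNReal NNReal

namespace Pool.Agent.V11333.Kac

lemma coin_int (h : ℝ → ℝ) : ∫ s, h s ∂coin = 1 / 2 * h 1 + 1 / 2 * h (-1) := by
  unfold coin
  rw [integral_add_measure, integral_smul_measure, integral_smul_measure, integral_dirac,
    integral_dirac]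
  · simp
  · exact Integrable.smul_measure (integrable_dirac (by simp)) (by simp)
  · exact Integrable.smul_measure (integrable_dirac (by simp)) (by simp)

lemma coin_integrable (h : ℝ → ℝ) : Integrable h coin := by
  unfold coin
  exact Integrable.add_measure (Integrable.smul_measure (integrable_dirac (by simp)) (by simp))
    (Integrable.smul_measure (integrable_dirac (by simp)) (by simp))

lemma coin_std : Kac764.Std coin :=
  ⟨inferInstance, coin_integrable _, by rw [coin_int]; norm_num, by rw [coin_int]; norm_num⟩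

/-- first and second moments of linear forms -/
lemma moments (n : ℕ) (w : ℕ → ℝ) :
    Integrable (fun ω : ℕ → ℝ => ∑ j ∈ Finset.range (n + 1), ω j * w j) (Kac764.PP coin) ∧
    Integrable (fun ω : ℕ → ℝ => (∑ j ∈ Finset.range (n + 1), ω j * w j) ^ 2) (Kac764.PP coin) ∧
    ∫ ω, (∑ j ∈ Finset.range (n + 1), ω j * w j) ∂(Kac764.PP coin) = 0 ∧
    ∫ ω, (∑ j ∈ Finset.range (n + 1), ω j * w j) ^ 2 ∂(Kac764.PP coin) =
      ∑ j ∈ Finset.range (n + 1), w j ^ 2 := by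
  have hμ := coin_std
  have := hμ.prob
  have hmp : ∀ j : ℕ, MeasurePreserving (fun ω : ℕ → ℝ => ω j) (Kac764.PP coin) coin := fun j =>
    measurePreserving_eval_infinitePi _ j
  have hid : MemLp (fun x : ℝ => x) 2 coin :=
    (memLp_two_iff_integrable_sq (by fun_prop)).2 hμ.int2
  have hX0 : ∀ j : ℕ, MemLp (fun ω : ℕ → ℝ => ω j) 2 (Kac764.PP coin) := fun j =>
    hid.comp_measurePreserving (hmp j)
  have hX : ∀ j : ℕ, MemLp (fun ω : ℕ → ℝ => ω j * w j) 2 (Kac764.PP coin) := fun j =>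
    (hX0 j).mul_const (w j)
  have hind : iIndepFun (fun (i : ℕ) (ω : ℕ → ℝ) => ω i * w i) (Kac764.PP coin) :=
    iIndepFun_infinitePi (P := fun _ : ℕ => coin) (X := fun i x => x * w i) (by fun_prop)
  have hsumL : MemLp (∑ j ∈ Finset.range (n + 1), fun ω : ℕ → ℝ => ω j * w j) 2
      (Kac764.PP coin) := memLp_finsetSum' _ fun j _ => hX j
  have hsum_eq : (∑ j ∈ Finset.range (n + 1), fun ω : ℕ → ℝ => ω j * w j) =
      fun ω => ∑ j ∈ Finset.range (n + 1), ω j * w j := by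
    funext ω
    simp
  have hvar : variance (fun ω => ∑ j ∈ Finset.range (n + 1), ω j * w j) (Kac764.PP coin) =
      ∑ j ∈ Finset.range (n + 1), w j ^ 2 := by
    rw [← hsum_eq, IndepFun.variance_sum (fun j _ => hX j)
      (fun i _ j _ hij => hind.indepFun hij)]
    refine Finset.sum_congr rfl fun j _ => ?_
    have h1 : variance (fun ω : ℕ → ℝ => ω j * w j) (Kac764.PP coin)
        = variance (fun x : ℝ => x * w j) coin :=
      (hmp j).variance_fun_comp (f := fun x : ℝ => x * w j) (by fun_prop)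
    rw [h1, variance_mul_const]
    have h2 : variance (fun x : ℝ => x) coin = 1 := by
      rw [variance_of_integral_eq_zero (by fun_prop) hμ.mean]
      exact hμ.var
    rw [h2, one_mul]
  have hmean : ∫ ω, (∑ j ∈ Finset.range (n + 1), ω j * w j) ∂(Kac764.PP coin) = 0 := by
    rw [integral_finsetSum _ (fun j _ => (hX j).integrable (by norm_num))]
    refine Finset.sum_eq_zero fun j _ => ?_
    rw [integral_mul_const]
    have : ∫ ω : ℕ → ℝ, ω j ∂(Kac764.PP coin) = ∫ x, x ∂coin := by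
      have h := integral_map (μ := Kac764.PP coin) (hmp j).measurable.aemeasurable
        (f := fun x : ℝ => x) (by fun_prop)
      rw [(hmp j).map_eq] at h
      exact h.symm
    rw [this, hμ.mean, zero_mul]
  rw [hsum_eq] at hsumL
  refine ⟨hsumL.integrable (by norm_num), hsumL.integrable_sq, hmean, ?_⟩
  rw [← hvar, variance_of_integral_eq_zero hsumL.aestronglyMeasurable.aemeasurable hmean]

/-! ### Pointwise inequality -/

lemma sqrt_lower {ε X Y Z : ℝ} (h0 : 0 ≤ ε) (h1 : ε ≤ 1 / 20) (hX : |X| ≤ 1) (hY : |Y| ≤ 1)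
    (hZ : |Z| ≤ 1) :
    1 + ε * (Z - X) / 2 + ε ^ 2 * (-(Y ^ 2) / 2 - Z ^ 2 / 8 - X * Z / 4 + 3 * X ^ 2 / 8)
      - 4 * ε ^ 3 * (X ^ 2 + Y ^ 2 + Z ^ 2)
      ≤ Real.sqrt ((1 + ε * X) * (1 + ε * Z) - ε ^ 2 * Y ^ 2) / (1 + ε * X) := by
  obtain ⟨hX1, hX2⟩ := abs_le.1 hX
  obtain ⟨hY1, hY2⟩ := abs_le.1 hY
  obtain ⟨hZ1, hZ2⟩ := abs_le.1 hZ
  have hpos : 0 < 1 + ε * X := by nlinarith
  rw [le_div_iff₀ hpos]
  set N := X ^ 2 + Y ^ 2 + Z ^ 2 with hN
  set m := 1 + ε * (X + Z) / 2 with hm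
  set e2 := ε ^ 2 * (Y ^ 2 / 2 + (Z - X) ^ 2 / 8) with he2
  set r := 4 * N * (1 + ε * X) - X * (-(Y ^ 2) / 2 - Z ^ 2 / 8 - X * Z / 4 + 3 * X ^ 2 / 8) with hr
  have hX3 : X ^ 2 ≤ 1 := by nlinarith
  have hY3 : Y ^ 2 ≤ 1 := by nlinarith
  have hZ3 : Z ^ 2 ≤ 1 := by nlinarith
  have hN0 : 0 ≤ N := by positivity
  have hN3 : N ≤ 3 := by rw [hN]; linarith
  have hlhs : (1 + ε * (Z - X) / 2 + ε ^ 2 * (-(Y ^ 2) / 2 - Z ^ 2 / 8 - X * Z / 4 + 3 * X ^ 2 / 8)
      - 4 * ε ^ 3 * N) * (1 + ε * X) = m - (e2 + ε ^ 3 * r) := by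
    rw [hm, he2, hr]; ring
  have hD : (1 + ε * X) * (1 + ε * Z) - ε ^ 2 * Y ^ 2 = m ^ 2 - 2 * e2 := by
    rw [hm, he2]; ring
  rw [hlhs, hD]
  have hm1 : 1 - ε ≤ m := by
    rw [hm]; nlinarith
  have he20 : 0 ≤ e2 := by rw [he2]; positivity
  have he2N : e2 ≤ ε ^ 2 * (3 / 4 * N) := by
    rw [he2]
    refine mul_le_mul_of_nonneg_left ?_ (sq_nonneg _)
    rw [hN]
    nlinarith [sq_nonneg (X + Z), sq_nonneg Y]
  -- bounds for r
  have hq1 : |-(Y ^ 2) / 2 - Z ^ 2 / 8 - X * Z / 4 + 3 * X ^ 2 / 8| ≤ N / 2 := by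
    rw [abs_le, hN]
    constructor <;> nlinarith [sq_nonneg (X + Z), sq_nonneg (X - Z), sq_nonneg Y, sq_nonneg X,
      sq_nonneg Z]
  have hq2 : |X * (-(Y ^ 2) / 2 - Z ^ 2 / 8 - X * Z / 4 + 3 * X ^ 2 / 8)| ≤ N / 2 := by
    rw [abs_mul]
    calc |X| * |-(Y ^ 2) / 2 - Z ^ 2 / 8 - X * Z / 4 + 3 * X ^ 2 / 8| ≤ 1 * (N / 2) :=
          mul_le_mul hX hq1 (abs_nonneg _) zero_le_one
      _ = N / 2 := one_mul _
  obtain ⟨hq3, hq4⟩ := abs_le.1 hq2
  have heX : |ε * X| ≤ 1 / 20 := by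
    rw [abs_mul, abs_of_nonneg h0]
    calc ε * |X| ≤ ε * 1 := mul_le_mul_of_nonneg_left hX h0
      _ ≤ 1 / 20 := by linarith
  obtain ⟨hx1, hx2⟩ := abs_le.1 heX
  have hr2 : 3 * N ≤ r := by
    rw [hr]; nlinarith
  have hr5 : r ≤ 5 * N := by
    rw [hr]; nlinarith
  have hr0 : 0 ≤ r := by linarith
  set y := e2 + ε ^ 3 * r with hy
  have hy0 : 0 ≤ y := by positivity
  have hε2 : ε ^ 2 ≤ ε * (1 / 20) := by nlinarith
  have hε3 : ε ^ 3 ≤ ε * (1 / 400) := by nlinarith [mul_nonneg h0 h0]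
  have hy1 : y ≤ ε := by
    have a1 : ε ^ 2 * (3 / 4 * N) ≤ ε * (1 / 20) * (3 / 4 * 3) := by
      apply mul_le_mul hε2 (by linarith) (by positivity) (by positivity)
    have a2 : ε ^ 3 * r ≤ ε * (1 / 400) * 15 := by
      apply mul_le_mul hε3 (by linarith) hr0 (by positivity)
    rw [hy]
    linarith
  have hkey : 2 * e2 ≤ y * (2 * m - y) := by
    have b1 : y * (2 - 3 * ε) ≤ y * (2 * m - y) :=
      mul_le_mul_of_nonneg_left (by linarith) hy0
    have b2 : 2 * e2 ≤ y * (2 - 3 * ε) := by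
      have b3 : 3 * ε * e2 ≤ 3 * ε * (ε ^ 2 * (3 / 4 * N)) :=
        mul_le_mul_of_nonneg_left he2N (by positivity)
      have b3' : 3 * ε * (ε ^ 2 * (3 / 4 * N)) = 9 / 4 * (ε ^ 3 * N) := by ring
      have b4 : ε ^ 3 * (3 * N) * (2 - 3 * ε) ≤ ε ^ 3 * r * (2 - 3 * ε) := by
        apply mul_le_mul_of_nonneg_right _ (by linarith)
        exact mul_le_mul_of_nonneg_left hr2 (by positivity)
      have b4' : ε ^ 3 * (3 * N) * (2 - 3 * ε) = 6 * (ε ^ 3 * N) - 9 * (ε * (ε ^ 3 * N)) := by ring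
      have b5 : 0 ≤ ε ^ 3 * N := by positivity
      have b6 : ε * (ε ^ 3 * N) ≤ 1 / 20 * (ε ^ 3 * N) := mul_le_mul_of_nonneg_right h1 b5
      have b7 : y * (2 - 3 * ε) = 2 * e2 - 3 * ε * e2 + ε ^ 3 * r * (2 - 3 * ε) := by
        rw [hy]; ring
      rw [b7]
      linarith
    linarith
  refine Real.le_sqrt_of_sq_le ?_
  have hfin : (m - y) ^ 2 = m ^ 2 - y * (2 * m - y) := by ring
  rw [hfin]
  linarith

end Pool.Agent.V11333.Kac
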