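import Pool.Agent.V11333.KacG3

/-!
# Lower bound for the density of zeros of the mixture, continued (helper for MP_a7dd25_pr)
-/

set_option autoImplicit false

open MeasureTheory ProbabilityTheory Filter Topology Set
open scoped ENNReal NNReal

namespace Pool.Agent.V11333.Kac

section Fixed

variable (n : ℕ) (x : ℝ)

/-- moments `∑_{k ≤ n} k^j y^k` -/
noncomputable def mo (j n : ℕ) (y : ℝ) : ℝ := ∑ k ∈ Finset.range (n + 1), (k : ℝ) ^ j * y ^ k

/-- the mean -/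
noncomputable def kap : ℝ := mo 1 n (x ^ 2) / mo 0 n (x ^ 2)

/-- the variance -/
noncomputable def Vn : ℝ := (∑ k ∈ Finset.range (n + 1), ((k : ℝ) - kap n x) ^ 2 * (x ^ 2) ^ k)
  / mo 0 n (x ^ 2)

/-- weights -/
noncomputable def wX (k : ℕ) : ℝ := (x ^ 2) ^ k / mo 0 n (x ^ 2)
noncomputable def wY (k : ℕ) : ℝ := wX n x k * (((k : ℝ) - kap n x) / Real.sqrt (Vn n x))
noncomputable def wZ (k : ℕ) : ℝ := wX n x k * (((k : ℝ) - kap n x) ^ 2 / Vn n x)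

variable {n x}

lemma mo0_pos : 0 < mo 0 n (x ^ 2) := by
  unfold mo
  rw [Finset.sum_range_succ']
  have h2 : 0 ≤ ∑ k ∈ Finset.range n, ((k + 1 : ℕ) : ℝ) ^ 0 * (x ^ 2) ^ (k + 1) :=
    Finset.sum_nonneg fun k _ => by positivity
  simp only [pow_zero, mul_one]
  simp only [pow_zero] at h2
  linarith

lemma wX_nonneg (k : ℕ) : 0 ≤ wX n x k := by
  unfold wX
  have := mo0_pos (n := n) (x := x)
  positivity

lemma sum_wX : ∑ k ∈ Finset.range (n + 1), wX n x k = 1 := by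
  unfold wX
  rw [← Finset.sum_div]
  have h : ∑ k ∈ Finset.range (n + 1), (x ^ 2) ^ k = mo 0 n (x ^ 2) := by simp [mo]
  rw [h]
  exact div_self mo0_pos.ne'

lemma sum_center : ∑ k ∈ Finset.range (n + 1), ((k : ℝ) - kap n x) * (x ^ 2) ^ k = 0 := by
  have h1 : ∑ k ∈ Finset.range (n + 1), ((k : ℝ) - kap n x) * (x ^ 2) ^ k
      = mo 1 n (x ^ 2) - kap n x * mo 0 n (x ^ 2) := by
    unfold mo
    rw [Finset.mul_sum, ← Finset.sum_sub_distrib]
    refine Finset.sum_congr rfl fun k _ => by ring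
  rw [h1, kap, div_mul_cancel₀ _ mo0_pos.ne', sub_self]

lemma Vn_pos (hn : 1 ≤ n) (hx : x ≠ 0) : 0 < Vn n x := by
  unfold Vn
  refine div_pos ?_ mo0_pos
  have hx2 : 0 < x ^ 2 := by positivity
  have h0 : ∀ k ∈ Finset.range (n + 1), 0 ≤ ((k : ℝ) - kap n x) ^ 2 * (x ^ 2) ^ k :=
    fun k _ => by positivity
  by_contra hcon
  have hz : ∑ k ∈ Finset.range (n + 1), ((k : ℝ) - kap n x) ^ 2 * (x ^ 2) ^ k = 0 :=
    le_antisymm (not_lt.1 hcon) (Finset.sum_nonneg h0)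
  rw [Finset.sum_eq_zero_iff_of_nonneg h0] at hz
  have e0 := hz 0 (by simp)
  have e1 := hz 1 (by simp; omega)
  simp only [Nat.cast_zero, zero_sub, pow_zero, mul_one, Nat.cast_one, pow_one] at e0 e1
  have e2 : kap n x = 0 := by
    have : (-kap n x) ^ 2 = 0 := e0
    have := pow_eq_zero_iff (two_ne_zero) |>.1 this
    linarith
  rw [e2] at e1
  have : x ^ 2 = 0 := by linarith
  exact hx2.ne' this

lemma sum_wZ (hn : 1 ≤ n) (hx : x ≠ 0) : ∑ k ∈ Finset.range (n + 1), wZ n x k = 1 := by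
  unfold wZ wX
  have hV := Vn_pos hn hx
  have hS := mo0_pos (n := n) (x := x)
  have h1 : ∀ k ∈ Finset.range (n + 1), (x ^ 2) ^ k / mo 0 n (x ^ 2) *
      (((k : ℝ) - kap n x) ^ 2 / Vn n x)
      = (((k : ℝ) - kap n x) ^ 2 * (x ^ 2) ^ k) * (1 / (mo 0 n (x ^ 2) * Vn n x)) := by
    intro k _
    field_simp
  rw [Finset.sum_congr rfl h1, ← Finset.sum_mul]
  have h2 : ∑ k ∈ Finset.range (n + 1), ((k : ℝ) - kap n x) ^ 2 * (x ^ 2) ^ k
      = Vn n x * mo 0 n (x ^ 2) := by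
    unfold Vn
    rw [div_mul_cancel₀ _ hS.ne']
  rw [h2]
  field_simp

lemma wZ_nonneg (hn : 1 ≤ n) (hx : x ≠ 0) (k : ℕ) : 0 ≤ wZ n x k := by
  unfold wZ
  have hV := Vn_pos hn hx
  have := wX_nonneg (n := n) (x := x) k
  positivity

lemma wY_sq (hn : 1 ≤ n) (hx : x ≠ 0) (k : ℕ) : wY n x k ^ 2 = wX n x k * wZ n x k := by
  unfold wY wZ
  have hV := Vn_pos hn hx
  have hs : Real.sqrt (Vn n x) ^ 2 = Vn n x := Real.sq_sqrt hV.le
  rw [mul_pow, div_pow, hs]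
  ring

lemma abs_lin_le {η : ℕ → ℝ} (hη : ∀ k, |η k| ≤ 1) {w : ℕ → ℝ} (hw : ∀ k, 0 ≤ w k)
    (hs : ∑ k ∈ Finset.range (n + 1), w k = 1) :
    |∑ k ∈ Finset.range (n + 1), η k * w k| ≤ 1 := by
  calc |∑ k ∈ Finset.range (n + 1), η k * w k| ≤ ∑ k ∈ Finset.range (n + 1), |η k * w k| :=
        Finset.abs_sum_le_sum_abs _ _
    _ ≤ ∑ k ∈ Finset.range (n + 1), w k := by
        refine Finset.sum_le_sum fun k _ => ?_
        rw [abs_mul, abs_of_nonneg (hw k)]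
        calc |η k| * w k ≤ 1 * w k := mul_le_mul_of_nonneg_right (hη k) (hw k)
          _ = w k := one_mul _
    _ = 1 := hs

lemma abs_Y_le (hn : 1 ≤ n) (hx : x ≠ 0) {η : ℕ → ℝ} (hη : ∀ k, |η k| ≤ 1) :
    |∑ k ∈ Finset.range (n + 1), η k * wY n x k| ≤ 1 := by
  rw [← sq_le_one_iff_abs_le_one]
  have h := Finset.sum_mul_sq_le_sq_mul_sq (Finset.range (n + 1))
    (fun k => Real.sqrt (wX n x k)) (fun k => η k * Real.sqrt (wX n x k) *
      (((k : ℝ) - kap n x) / Real.sqrt (Vn n x)))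
  have hV := Vn_pos hn hx
  have hs : Real.sqrt (Vn n x) ^ 2 = Vn n x := Real.sq_sqrt hV.le
  have e1 : ∀ k, Real.sqrt (wX n x k) * (η k * Real.sqrt (wX n x k) *
      (((k : ℝ) - kap n x) / Real.sqrt (Vn n x))) = η k * wY n x k := by
    intro k
    unfold wY
    have := Real.mul_self_sqrt (wX_nonneg (n := n) (x := x) k)
    calc _ = η k * ((Real.sqrt (wX n x k) * Real.sqrt (wX n x k)) *
          (((k : ℝ) - kap n x) / Real.sqrt (Vn n x))) := by ring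
      _ = _ := by rw [this]
  have e2 : ∀ k, Real.sqrt (wX n x k) ^ 2 = wX n x k := fun k =>
    Real.sq_sqrt (wX_nonneg k)
  have e3 : ∀ k, (η k * Real.sqrt (wX n x k) * (((k : ℝ) - kap n x) / Real.sqrt (Vn n x))) ^ 2
      = η k ^ 2 * wZ n x k := by
    intro k
    rw [mul_pow, mul_pow, e2, div_pow, hs]
    unfold wZ
    ring
  simp only [e1, e2, e3] at h
  rw [sum_wX, one_mul] at h
  refine h.trans ?_
  calc ∑ k ∈ Finset.range (n + 1), η k ^ 2 * wZ n x k ≤ ∑ k ∈ Finset.range (n + 1), wZ n x k := by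
        refine Finset.sum_le_sum fun k _ => ?_
        have h1 : η k ^ 2 ≤ 1 := (sq_le_one_iff_abs_le_one _).2 (hη k)
        calc η k ^ 2 * wZ n x k ≤ 1 * wZ n x k :=
              mul_le_mul_of_nonneg_right h1 (wZ_nonneg hn hx k)
          _ = _ := one_mul _
    _ = 1 := sum_wZ hn hx

/-- the linear forms -/
noncomputable def fX (n : ℕ) (x : ℝ) (η : ℕ → ℝ) : ℝ := ∑ k ∈ Finset.range (n + 1), η k * wX n x k
noncomputable def fY (n : ℕ) (x : ℝ) (η : ℕ → ℝ) : ℝ := ∑ k ∈ Finset.range (n + 1), η k * wY n x k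
noncomputable def fZ (n : ℕ) (x : ℝ) (η : ℕ → ℝ) : ℝ := ∑ k ∈ Finset.range (n + 1), η k * wZ n x k

lemma sA_eq (ε : ℝ) (η : ℕ → ℝ) : sA ε η x n = mo 0 n (x ^ 2) * (1 + ε * fX n x η) := by
  have hS := mo0_pos (n := n) (x := x)
  have h1 : fX n x η = (∑ k ∈ Finset.range (n + 1), η k * (x ^ 2) ^ k) / mo 0 n (x ^ 2) := by
    unfold fX wX
    rw [Finset.sum_div]
    refine Finset.sum_congr rfl fun k _ => by ring
  rw [h1]
  field_simp
  unfold sA mo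
  rw [Finset.mul_sum, ← Finset.sum_add_distrib]
  refine Finset.sum_congr rfl fun k _ => ?_
  rw [← pow_mul, ← pow_mul, mul_comm k 2]
  ring

/-- centred sums -/
lemma centred1 (ε : ℝ) (η : ℕ → ℝ) (hn : 1 ≤ n) (hx : x ≠ 0) :
    ∑ k ∈ Finset.range (n + 1), (1 + ε * η k) * (((k : ℝ) - kap n x) * (x ^ 2) ^ k)
      = mo 0 n (x ^ 2) * Real.sqrt (Vn n x) * (ε * fY n x η) := by
  have hS := mo0_pos (n := n) (x := x)
  have hV : 0 < Real.sqrt (Vn n x) := Real.sqrt_pos.2 (Vn_pos hn hx)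
  have h1 : fY n x η = (∑ k ∈ Finset.range (n + 1), η k * (((k : ℝ) - kap n x) * (x ^ 2) ^ k))
      / (mo 0 n (x ^ 2) * Real.sqrt (Vn n x)) := by
    unfold fY wY wX
    rw [Finset.sum_div]
    refine Finset.sum_congr rfl fun k _ => ?_
    field_simp
  rw [h1]
  have h2 : ∑ k ∈ Finset.range (n + 1), (1 + ε * η k) * (((k : ℝ) - kap n x) * (x ^ 2) ^ k)
      = (∑ k ∈ Finset.range (n + 1), ((k : ℝ) - kap n x) * (x ^ 2) ^ k)
        + ε * ∑ k ∈ Finset.range (n + 1), η k * (((k : ℝ) - kap n x) * (x ^ 2) ^ k) := by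
    rw [Finset.mul_sum, ← Finset.sum_add_distrib]
    refine Finset.sum_congr rfl fun k _ => by ring
  rw [h2, sum_center, zero_add]
  field_simp

lemma centred2 (ε : ℝ) (η : ℕ → ℝ) (hn : 1 ≤ n) (hx : x ≠ 0) :
    ∑ k ∈ Finset.range (n + 1), (1 + ε * η k) * (((k : ℝ) - kap n x) ^ 2 * (x ^ 2) ^ k)
      = mo 0 n (x ^ 2) * Vn n x * (1 + ε * fZ n x η) := by
  have hS := mo0_pos (n := n) (x := x)
  have hV := Vn_pos hn hx
  have h1 : fZ n x η = (∑ k ∈ Finset.range (n + 1), η k * (((k : ℝ) - kap n x) ^ 2 * (x ^ 2) ^ k))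
      / (mo 0 n (x ^ 2) * Vn n x) := by
    unfold fZ wZ wX
    rw [Finset.sum_div]
    refine Finset.sum_congr rfl fun k _ => ?_
    field_simp
  rw [h1]
  have h2 : ∑ k ∈ Finset.range (n + 1), (1 + ε * η k) * (((k : ℝ) - kap n x) ^ 2 * (x ^ 2) ^ k)
      = (∑ k ∈ Finset.range (n + 1), ((k : ℝ) - kap n x) ^ 2 * (x ^ 2) ^ k)
        + ε * ∑ k ∈ Finset.range (n + 1), η k * (((k : ℝ) - kap n x) ^ 2 * (x ^ 2) ^ k) := by
    rw [Finset.mul_sum, ← Finset.sum_add_distrib]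
    refine Finset.sum_congr rfl fun k _ => by ring
  have h3 : ∑ k ∈ Finset.range (n + 1), ((k : ℝ) - kap n x) ^ 2 * (x ^ 2) ^ k
      = Vn n x * mo 0 n (x ^ 2) := by
    unfold Vn
    rw [div_mul_cancel₀ _ hS.ne']
  rw [h2, h3]
  field_simp

lemma x_sB (ε : ℝ) (η : ℕ → ℝ) : x * sB ε η x n =
    ∑ k ∈ Finset.range (n + 1), (1 + ε * η k) * ((k : ℝ) * (x ^ 2) ^ k) := by
  unfold sB
  rw [Finset.mul_sum]
  refine Finset.sum_congr rfl fun k _ => ?_
  rcases Nat.eq_zero_or_pos k with h | h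
  · subst h; simp
  · obtain ⟨i, rfl⟩ : ∃ i, k = i + 1 := ⟨k - 1, by omega⟩
    simp only [Nat.add_sub_cancel]
    rw [← pow_mul, show 2 * (i + 1) = (i + 1) + i + 1 by ring, pow_succ, pow_add]
    ring

lemma x_sC (ε : ℝ) (η : ℕ → ℝ) : x ^ 2 * sC ε η x n =
    ∑ k ∈ Finset.range (n + 1), (1 + ε * η k) * ((k : ℝ) ^ 2 * (x ^ 2) ^ k) := by
  unfold sC
  rw [Finset.mul_sum]
  refine Finset.sum_congr rfl fun k _ => ?_
  rcases Nat.eq_zero_or_pos k with h | h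
  · subst h; simp
  · obtain ⟨i, rfl⟩ : ∃ i, k = i + 1 := ⟨k - 1, by omega⟩
    simp only [Nat.add_sub_cancel]
    rw [pow_succ (x ^ 2) i, ← pow_mul x 2 i, mul_pow, ← pow_mul x i 2, mul_comm i 2]
    ring

lemma sA_eq' (ε : ℝ) (η : ℕ → ℝ) : sA ε η x n =
    ∑ k ∈ Finset.range (n + 1), (1 + ε * η k) * (x ^ 2) ^ k := by
  unfold sA
  refine Finset.sum_congr rfl fun k _ => ?_
  rw [← pow_mul, ← pow_mul, mul_comm k 2]

/-- the Gram determinant -/
lemma gram (ε : ℝ) (η : ℕ → ℝ) (hn : 1 ≤ n) (hx : x ≠ 0) :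
    x ^ 2 * (sA ε η x n * sC ε η x n - sB ε η x n ^ 2) = mo 0 n (x ^ 2) ^ 2 * Vn n x *
      ((1 + ε * fX n x η) * (1 + ε * fZ n x η) - ε ^ 2 * fY n x η ^ 2) := by
  have hV := Vn_pos hn hx
  have hs : Real.sqrt (Vn n x) ^ 2 = Vn n x := Real.sq_sqrt hV.le
  have c1 := centred1 (n := n) (x := x) ε η hn hx
  have c2 := centred2 (n := n) (x := x) ε η hn hx
  have a1 := sA_eq' (n := n) (x := x) ε η
  have a2 := x_sB (n := n) (x := x) ε η
  have a3 := x_sC (n := n) (x := x) ε η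
  have a4 := sA_eq (n := n) (x := x) ε η
  set κ := kap n x
  have d1 : ∑ k ∈ Finset.range (n + 1), (1 + ε * η k) * (((k : ℝ) - κ) * (x ^ 2) ^ k)
      = x * sB ε η x n - κ * sA ε η x n := by
    rw [a1, a2, Finset.mul_sum, ← Finset.sum_sub_distrib]
    refine Finset.sum_congr rfl fun k _ => by ring
  have d2 : ∑ k ∈ Finset.range (n + 1), (1 + ε * η k) * (((k : ℝ) - κ) ^ 2 * (x ^ 2) ^ k)
      = x ^ 2 * sC ε η x n - 2 * κ * (x * sB ε η x n) + κ ^ 2 * sA ε η x n := by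
    rw [a1, a2, a3, Finset.mul_sum, Finset.mul_sum, ← Finset.sum_sub_distrib,
      ← Finset.sum_add_distrib]
    refine Finset.sum_congr rfl fun k _ => by ring
  rw [d1] at c1
  rw [d2] at c2
  have e1 : x ^ 2 * (sA ε η x n * sC ε η x n - sB ε η x n ^ 2)
      = sA ε η x n * (x ^ 2 * sC ε η x n - 2 * κ * (x * sB ε η x n) + κ ^ 2 * sA ε η x n)
        - (x * sB ε η x n - κ * sA ε η x n) ^ 2 := by ring
  rw [e1, c1, c2, a4]
  have e2 : (mo 0 n (x ^ 2) * Real.sqrt (Vn n x) * (ε * fY n x η)) ^ 2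
      = mo 0 n (x ^ 2) ^ 2 * Vn n x * (ε ^ 2 * fY n x η ^ 2) := by
    rw [mul_pow, mul_pow, hs]; ring
  rw [e2]
  ring

end Fixed

end Pool.Agent.V11333.Kac
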