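import Pool.Agent.V11333.KacG4

/-!
# Lower bound for the density of zeros of the mixture: averages and limits
(helper for MP_a7dd25_pr)
-/

set_option autoImplicit false

open MeasureTheory ProbabilityTheory Filter Topology Set
open scoped ENNReal NNReal

namespace Pool.Agent.V11333.Kac

section Fixed

variable {n : ℕ} {x : ℝ}

lemma sA0 (η : ℕ → ℝ) : sA 0 η x n = Kac764.SA n x := by
  unfold sA Kac764.SA
  refine Finset.sum_congr rfl fun k _ => by ring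
lemma sB0 (η : ℕ → ℝ) : sB 0 η x n = Kac764.SB n x := by
  unfold sB Kac764.SB
  refine Finset.sum_congr rfl fun k _ => by ring
lemma sC0 (η : ℕ → ℝ) : sC 0 η x n = Kac764.SC n x := by
  unfold sC Kac764.SC
  refine Finset.sum_congr rfl fun k _ => by ring

lemma rhoe_zero (η : ℕ → ℝ) : rhoe 0 n x η = Kac764.rho n x := by
  unfold rhoe Kac764.rho
  rw [sA0, sB0, sC0]

lemma SA_mo : Kac764.SA n x = mo 0 n (x ^ 2) := by
  rw [← sA0 (n := n) (x := x) (fun _ => 0), sA_eq]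
  ring

lemma rhoe_eq {ε : ℝ} (h0 : 0 ≤ ε) (h1 : ε < 1) {η : ℕ → ℝ} (hη : ∀ k, |η k| ≤ 1)
    (hn : 1 ≤ n) (hx : x ≠ 0) :
    rhoe ε n x η = Kac764.rho n x *
      (Real.sqrt ((1 + ε * fX n x η) * (1 + ε * fZ n x η) - ε ^ 2 * fY n x η ^ 2)
        / (1 + ε * fX n x η)) := by
  have hx2 : 0 < x ^ 2 := by positivity
  have hS := mo0_pos (n := n) (x := x)
  have g1 := gram (n := n) (x := x) ε η hn hx
  have g0 := gram (n := n) (x := x) 0 η hn hx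
  rw [sA0, sB0, sC0] at g0
  set D := (1 + ε * fX n x η) * (1 + ε * fZ n x η) - ε ^ 2 * fY n x η ^ 2 with hD
  have e1 : sA ε η x n * sC ε η x n - sB ε η x n ^ 2
      = (Kac764.SA n x * Kac764.SC n x - Kac764.SB n x ^ 2) * D := by
    have : x ^ 2 * (sA ε η x n * sC ε η x n - sB ε η x n ^ 2)
        = x ^ 2 * ((Kac764.SA n x * Kac764.SC n x - Kac764.SB n x ^ 2) * D) := by
      rw [← mul_assoc, g0, g1]; ring
    exact mul_left_cancel₀ hx2.ne' this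
  have hX : 0 < 1 + ε * fX n x η := by
    have := abs_lin_le (n := n) hη (w := wX n x) wX_nonneg sum_wX
    have h2 := (abs_le.1 this).1
    unfold fX
    nlinarith
  have hnn : 0 ≤ Kac764.SA n x * Kac764.SC n x - Kac764.SB n x ^ 2 := by
    have hV := Vn_pos hn hx
    have : 0 ≤ x ^ 2 * (Kac764.SA n x * Kac764.SC n x - Kac764.SB n x ^ 2) := by
      rw [g0]
      simp only [zero_mul, add_zero, ne_eq, OfNat.ofNat_ne_zero, not_false_eq_true,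
        zero_pow, sub_zero, mul_one]
      positivity
    exact nonneg_of_mul_nonneg_right this hx2
  unfold rhoe Kac764.rho
  rw [e1, Real.sqrt_mul hnn, sA_eq, SA_mo]
  field_simp

/-- sums of squared weights -/
noncomputable def S0 (n : ℕ) (x : ℝ) : ℝ := ∑ k ∈ Finset.range (n + 1), wX n x k ^ 2
noncomputable def S1 (n : ℕ) (x : ℝ) : ℝ := ∑ k ∈ Finset.range (n + 1), wX n x k * wZ n x k
noncomputable def S2 (n : ℕ) (x : ℝ) : ℝ := ∑ k ∈ Finset.range (n + 1), wZ n x k ^ 2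

/-- the lower bound, as a function of `η` -/
noncomputable def lowf (ε : ℝ) (n : ℕ) (x : ℝ) (η : ℕ → ℝ) : ℝ :=
  1 + ε * (fZ n x η - fX n x η) / 2 + ε ^ 2 * (-(fY n x η ^ 2) / 2 - fZ n x η ^ 2 / 8
    - fX n x η * fZ n x η / 4 + 3 * fX n x η ^ 2 / 8)
    - 4 * ε ^ 3 * (fX n x η ^ 2 + fY n x η ^ 2 + fZ n x η ^ 2)

lemma lowf_int (ε : ℝ) (hn : 1 ≤ n) (hx : x ≠ 0) :
    Integrable (lowf ε n x) (Kac764.PP coin) ∧ ∫ η, lowf ε n x η ∂(Kac764.PP coin)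
      = 1 - ε ^ 2 * (3 / 4 * S1 n x + 1 / 8 * S2 n x - 3 / 8 * S0 n x)
        - 4 * ε ^ 3 * (S0 n x + S1 n x + S2 n x) := by
  obtain ⟨x1, x2, x3, x4⟩ := moments n (wX n x)
  obtain ⟨y1, y2, y3, y4⟩ := moments n (wY n x)
  obtain ⟨z1, z2, z3, z4⟩ := moments n (wZ n x)
  obtain ⟨u1, u2, u3, u4⟩ := moments n (fun k => wX n x k + wZ n x k)
  have hadd : ∀ η : ℕ → ℝ, ∑ j ∈ Finset.range (n + 1), η j * (wX n x j + wZ n x j)
      = fX n x η + fZ n x η := by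
    intro η
    unfold fX fZ
    rw [← Finset.sum_add_distrib]
    refine Finset.sum_congr rfl fun k _ => by ring
  simp only [hadd] at u2 u4
  have hS : ∑ j ∈ Finset.range (n + 1), (wX n x j + wZ n x j) ^ 2
      = S0 n x + 2 * S1 n x + S2 n x := by
    unfold S0 S1 S2
    rw [Finset.mul_sum, ← Finset.sum_add_distrib, ← Finset.sum_add_distrib]
    refine Finset.sum_congr rfl fun k _ => by ring
  have hSY : ∑ j ∈ Finset.range (n + 1), wY n x j ^ 2 = S1 n x := by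
    unfold S1
    refine Finset.sum_congr rfl fun k _ => wY_sq hn hx k
  rw [hS] at u4
  rw [hSY] at y4
  change Integrable (fun η => fX n x η) _ at x1
  change Integrable (fun η => fX n x η ^ 2) _ at x2
  change ∫ η, fX n x η ∂_ = 0 at x3
  change ∫ η, fX n x η ^ 2 ∂_ = S0 n x at x4
  change Integrable (fun η => fY n x η ^ 2) _ at y2
  change ∫ η, fY n x η ^ 2 ∂_ = S1 n x at y4
  change Integrable (fun η => fZ n x η) _ at z1
  change Integrable (fun η => fZ n x η ^ 2) _ at z2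
  change ∫ η, fZ n x η ∂_ = 0 at z3
  change ∫ η, fZ n x η ^ 2 ∂_ = S2 n x at z4
  have hf : lowf ε n x = fun η => 1 + ((ε / 2) * fZ n x η + ((-ε / 2) * fX n x η
      + ((-(ε ^ 2) / 2 - 4 * ε ^ 3) * fY n x η ^ 2 + ((-4 * ε ^ 3) * fZ n x η ^ 2
      + ((-(ε ^ 2) / 8) * (fX n x η + fZ n x η) ^ 2
      + (ε ^ 2 / 2 - 4 * ε ^ 3) * fX n x η ^ 2))))) := by
    funext η
    unfold lowf
    ring
  have i6 : Integrable (fun η => (ε ^ 2 / 2 - 4 * ε ^ 3) * fX n x η ^ 2) (Kac764.PP coin) :=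
    x2.const_mul _
  have i5 : Integrable (fun η => (-(ε ^ 2) / 8) * (fX n x η + fZ n x η) ^ 2
      + (ε ^ 2 / 2 - 4 * ε ^ 3) * fX n x η ^ 2) (Kac764.PP coin) := (u2.const_mul _).add i6
  have i4 : Integrable (fun η => (-4 * ε ^ 3) * fZ n x η ^ 2
      + ((-(ε ^ 2) / 8) * (fX n x η + fZ n x η) ^ 2
      + (ε ^ 2 / 2 - 4 * ε ^ 3) * fX n x η ^ 2)) (Kac764.PP coin) := (z2.const_mul _).add i5
  have i3 : Integrable (fun η => (-(ε ^ 2) / 2 - 4 * ε ^ 3) * fY n x η ^ 2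
      + ((-4 * ε ^ 3) * fZ n x η ^ 2
      + ((-(ε ^ 2) / 8) * (fX n x η + fZ n x η) ^ 2
      + (ε ^ 2 / 2 - 4 * ε ^ 3) * fX n x η ^ 2))) (Kac764.PP coin) := (y2.const_mul _).add i4
  have i2 : Integrable (fun η => (-ε / 2) * fX n x η
      + ((-(ε ^ 2) / 2 - 4 * ε ^ 3) * fY n x η ^ 2
      + ((-4 * ε ^ 3) * fZ n x η ^ 2
      + ((-(ε ^ 2) / 8) * (fX n x η + fZ n x η) ^ 2
      + (ε ^ 2 / 2 - 4 * ε ^ 3) * fX n x η ^ 2)))) (Kac764.PP coin) := (x1.const_mul _).add i3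
  have i1 : Integrable (fun η => (ε / 2) * fZ n x η + ((-ε / 2) * fX n x η
      + ((-(ε ^ 2) / 2 - 4 * ε ^ 3) * fY n x η ^ 2
      + ((-4 * ε ^ 3) * fZ n x η ^ 2
      + ((-(ε ^ 2) / 8) * (fX n x η + fZ n x η) ^ 2
      + (ε ^ 2 / 2 - 4 * ε ^ 3) * fX n x η ^ 2))))) (Kac764.PP coin) := (z1.const_mul _).add i2
  rw [hf]
  refine ⟨(integrable_const 1).add i1, ?_⟩
  rw [integral_add (integrable_const 1) i1, integral_add (z1.const_mul _) i2,
    integral_add (x1.const_mul _) i3, integral_add (y2.const_mul _) i4,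
    integral_add (z2.const_mul _) i5, integral_add (u2.const_mul _) i6]
  simp only [integral_const_mul, integral_const, probReal_univ, one_smul]
  rw [z3, x3, y4, z4, u4, x4]
  ring

lemma ofReal_integral_le {Ω : Type*} [MeasurableSpace Ω] {P : Measure Ω} {g : Ω → ℝ}
    (hg : Integrable g P) : ENNReal.ofReal (∫ ω, g ω ∂P) ≤ ∫⁻ ω, ENNReal.ofReal (g ω) ∂P := by
  rw [integral_eq_lintegral_pos_part_sub_lintegral_neg_part hg]
  have h0 : 0 ≤ (∫⁻ a, ENNReal.ofReal (-g a) ∂P).toReal := ENNReal.toReal_nonneg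
  calc ENNReal.ofReal ((∫⁻ a, ENNReal.ofReal (g a) ∂P).toReal
        - (∫⁻ a, ENNReal.ofReal (-g a) ∂P).toReal)
      ≤ ENNReal.ofReal ((∫⁻ a, ENNReal.ofReal (g a) ∂P).toReal) :=
        ENNReal.ofReal_le_ofReal (by linarith)
    _ ≤ _ := ENNReal.ofReal_toReal_le

/-- the averaged lower bound -/
noncomputable def lowD (ε : ℝ) (n : ℕ) (x : ℝ) : ℝ := Kac764.rho n x *
  (1 - ε ^ 2 * (3 / 4 * S1 n x + 1 / 8 * S2 n x - 3 / 8 * S0 n x)
        - 4 * ε ^ 3 * (S0 n x + S1 n x + S2 n x))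

lemma lower_eta {ε : ℝ} (h0 : 0 ≤ ε) (h1 : ε ≤ 1 / 20) (hn : 1 ≤ n) (hx : x ≠ 0) :
    ENNReal.ofReal (lowD ε n x) ≤ ∫⁻ η, ENNReal.ofReal (rhoe ε n x η) ∂(Kac764.PP coin) := by
  obtain ⟨hi, he⟩ := lowf_int (n := n) (x := x) ε hn hx
  have hr : 0 ≤ Kac764.rho n x := Kac764.H2.rho_nonneg n x
  have h2 : lowD ε n x = ∫ η, Kac764.rho n x * lowf ε n x η ∂(Kac764.PP coin) := by
    rw [integral_const_mul, he]
    rfl
  rw [h2]
  refine (ofReal_integral_le (hi.const_mul _)).trans ?_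
  refine lintegral_mono_ae ?_
  filter_upwards [ae_coin] with η hη
  refine ENNReal.ofReal_le_ofReal ?_
  rw [rhoe_eq h0 (by linarith) hη hn hx]
  refine mul_le_mul_of_nonneg_left ?_ hr
  exact sqrt_lower h0 h1 (abs_lin_le hη wX_nonneg sum_wX) (abs_Y_le hn hx hη)
    (abs_lin_le hη (wZ_nonneg hn hx) (sum_wZ hn hx))

end Fixed

/-! ### Limits -/

lemma hs0 {y : ℝ} (hy : ‖y‖ < 1) : HasSum (fun k : ℕ => (k : ℝ) ^ 0 * y ^ k) (1 / (1 - y)) := by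
  have h := hasSum_choose_mul_geometric_of_norm_lt_one (𝕜 := ℝ) 0 hy
  simp only [Nat.choose_zero_right, Nat.cast_one, one_mul, zero_add, pow_one] at h
  simpa using h

lemma ch1 (k : ℕ) : (((k + 1).choose 1 : ℕ) : ℝ) = k + 1 := by simp

lemma ch2 (k : ℕ) : (((k + 2).choose 2 : ℕ) : ℝ) = (k + 2) * (k + 1) / 2 := by
  have h := Nat.ascFactorial_eq_factorial_mul_choose k 2
  have h2 : (((k + 1).ascFactorial 2 : ℕ) : ℝ) = ((Nat.factorial 2 * (k + 2).choose 2 : ℕ) : ℝ) := by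
    rw [h]
  simp only [Nat.ascFactorial, Nat.factorial] at h2
  push_cast at h2
  linarith

lemma ch3 (k : ℕ) : (((k + 3).choose 3 : ℕ) : ℝ) = (k + 3) * (k + 2) * (k + 1) / 6 := by
  have h := Nat.ascFactorial_eq_factorial_mul_choose k 3
  have h2 : (((k + 1).ascFactorial 3 : ℕ) : ℝ) = ((Nat.factorial 3 * (k + 3).choose 3 : ℕ) : ℝ) := by
    rw [h]
  simp only [Nat.ascFactorial, Nat.factorial] at h2
  push_cast at h2
  linarith

lemma ch4 (k : ℕ) : (((k + 4).choose 4 : ℕ) : ℝ) = (k + 4) * (k + 3) * (k + 2) * (k + 1) / 24 := by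
  have h := Nat.ascFactorial_eq_factorial_mul_choose k 4
  have h2 : (((k + 1).ascFactorial 4 : ℕ) : ℝ) = ((Nat.factorial 4 * (k + 4).choose 4 : ℕ) : ℝ) := by
    rw [h]
  simp only [Nat.ascFactorial, Nat.factorial] at h2
  push_cast at h2
  linarith

lemma hsc (j : ℕ) {y : ℝ} (hy : ‖y‖ < 1) :
    HasSum (fun k : ℕ => (((k + j).choose j : ℕ) : ℝ) * y ^ k) (1 / (1 - y) ^ (j + 1)) :=
  hasSum_choose_mul_geometric_of_norm_lt_one (𝕜 := ℝ) j hy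

lemma hs1 {y : ℝ} (hy : ‖y‖ < 1) :
    HasSum (fun k : ℕ => (k : ℝ) ^ 1 * y ^ k) (y / (1 - y) ^ 2) := by
  have hne : 1 - y ≠ 0 := by
    rw [Real.norm_eq_abs, abs_lt] at hy; linarith [hy.2]
  have h := (hsc 1 hy).sub (hsc 0 hy)
  have e1 : (fun k : ℕ => (((k + 1).choose 1 : ℕ) : ℝ) * y ^ k - (((k + 0).choose 0 : ℕ) : ℝ) * y ^ k)
      = fun k : ℕ => (k : ℝ) ^ 1 * y ^ k := by
    funext k
    rw [ch1]
    simp only [Nat.choose_zero_right, Nat.cast_one]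
    ring
  rw [e1] at h
  have e2 : y / (1 - y) ^ 2
      = 1 / (1 - y) ^ (1 + 1) - 1 / (1 - y) ^ (0 + 1) := by
    field_simp
    ring
  rw [e2]
  exact h

lemma hs2 {y : ℝ} (hy : ‖y‖ < 1) :
    HasSum (fun k : ℕ => (k : ℝ) ^ 2 * y ^ k) (y * (1 + y) / (1 - y) ^ 3) := by
  have hne : 1 - y ≠ 0 := by
    rw [Real.norm_eq_abs, abs_lt] at hy; linarith [hy.2]
  have h := (((hsc 2 hy).mul_left 2).sub ((hsc 1 hy).mul_left 3)).add (hsc 0 hy)
  have e1 : (fun k : ℕ => 2 * ((((k + 2).choose 2 : ℕ) : ℝ) * y ^ k)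
      - 3 * ((((k + 1).choose 1 : ℕ) : ℝ) * y ^ k) + (((k + 0).choose 0 : ℕ) : ℝ) * y ^ k)
      = fun k : ℕ => (k : ℝ) ^ 2 * y ^ k := by
    funext k
    rw [ch1, ch2]
    simp only [Nat.choose_zero_right, Nat.cast_one]
    ring
  rw [e1] at h
  have e2 : y * (1 + y) / (1 - y) ^ 3
      = 2 * (1 / (1 - y) ^ (2 + 1)) - 3 * (1 / (1 - y) ^ (1 + 1)) + 1 / (1 - y) ^ (0 + 1) := by
    field_simp
    ring
  rw [e2]
  exact h

lemma hs3 {y : ℝ} (hy : ‖y‖ < 1) :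
    HasSum (fun k : ℕ => (k : ℝ) ^ 3 * y ^ k) (y * (1 + 4 * y + y ^ 2) / (1 - y) ^ 4) := by
  have hne : 1 - y ≠ 0 := by
    rw [Real.norm_eq_abs, abs_lt] at hy; linarith [hy.2]
  have h := ((((hsc 3 hy).mul_left 6).sub ((hsc 2 hy).mul_left 12)).add
    ((hsc 1 hy).mul_left 7)).sub (hsc 0 hy)
  have e1 : (fun k : ℕ => 6 * ((((k + 3).choose 3 : ℕ) : ℝ) * y ^ k)
      - 12 * ((((k + 2).choose 2 : ℕ) : ℝ) * y ^ k)
      + 7 * ((((k + 1).choose 1 : ℕ) : ℝ) * y ^ k) - (((k + 0).choose 0 : ℕ) : ℝ) * y ^ k)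
      = fun k : ℕ => (k : ℝ) ^ 3 * y ^ k := by
    funext k
    rw [ch1, ch2, ch3]
    simp only [Nat.choose_zero_right, Nat.cast_one]
    ring
  rw [e1] at h
  have e2 : y * (1 + 4 * y + y ^ 2) / (1 - y) ^ 4
      = 6 * (1 / (1 - y) ^ (3 + 1)) - 12 * (1 / (1 - y) ^ (2 + 1)) + 7 * (1 / (1 - y) ^ (1 + 1)) - 1 / (1 - y) ^ (0 + 1) := by
    field_simp
    ring
  rw [e2]
  exact h

lemma hs4 {y : ℝ} (hy : ‖y‖ < 1) :
    HasSum (fun k : ℕ => (k : ℝ) ^ 4 * y ^ k)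
      (y * (1 + 11 * y + 11 * y ^ 2 + y ^ 3) / (1 - y) ^ 5) := by
  have hne : 1 - y ≠ 0 := by
    rw [Real.norm_eq_abs, abs_lt] at hy; linarith [hy.2]
  have h := (((((hsc 4 hy).mul_left 24).sub ((hsc 3 hy).mul_left 60)).add
    ((hsc 2 hy).mul_left 50)).sub ((hsc 1 hy).mul_left 15)).add (hsc 0 hy)
  have e1 : (fun k : ℕ => 24 * ((((k + 4).choose 4 : ℕ) : ℝ) * y ^ k)
      - 60 * ((((k + 3).choose 3 : ℕ) : ℝ) * y ^ k)
      + 50 * ((((k + 2).choose 2 : ℕ) : ℝ) * y ^ k)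
      - 15 * ((((k + 1).choose 1 : ℕ) : ℝ) * y ^ k) + (((k + 0).choose 0 : ℕ) : ℝ) * y ^ k)
      = fun k : ℕ => (k : ℝ) ^ 4 * y ^ k := by
    funext k
    rw [ch1, ch2, ch3, ch4]
    simp only [Nat.choose_zero_right, Nat.cast_one]
    ring
  rw [e1] at h
  have e2 : y * (1 + 11 * y + 11 * y ^ 2 + y ^ 3) / (1 - y) ^ 5
      = 24 * (1 / (1 - y) ^ (4 + 1)) - 60 * (1 / (1 - y) ^ (3 + 1)) + 50 * (1 / (1 - y) ^ (2 + 1)) - 15 * (1 / (1 - y) ^ (1 + 1)) + 1 / (1 - y) ^ (0 + 1) := by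
    field_simp
    ring
  rw [e2]
  exact h

lemma mo_tendsto {j : ℕ} {y M : ℝ} (h : HasSum (fun k : ℕ => (k : ℝ) ^ j * y ^ k) M) :
    Tendsto (fun n : ℕ => mo j n y) atTop (𝓝 M) := by
  have h1 := h.tendsto_sum_nat.comp (tendsto_add_atTop_nat 1)
  exact h1

end Pool.Agent.V11333.Kac
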