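import Pool.Agent.V11333.KacG5

/-!
# Lower bound for the density of zeros of the mixture: the limit of large degree
(helper for MP_a7dd25_pr)
-/

set_option autoImplicit false

open MeasureTheory ProbabilityTheory Filter Topology Set
open scoped ENNReal NNReal

namespace Pool.Agent.V11333.Kac

lemma Vn_eq (n : ℕ) (x : ℝ) : Vn n x = mo 2 n (x ^ 2) / mo 0 n (x ^ 2) - kap n x ^ 2 := by
  have hS := mo0_pos (n := n) (x := x)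
  have h1 : ∑ k ∈ Finset.range (n + 1), ((k : ℝ) - kap n x) ^ 2 * (x ^ 2) ^ k
      = mo 2 n (x ^ 2) - 2 * kap n x * mo 1 n (x ^ 2) + kap n x ^ 2 * mo 0 n (x ^ 2) := by
    unfold mo
    rw [Finset.mul_sum, Finset.mul_sum, ← Finset.sum_sub_distrib, ← Finset.sum_add_distrib]
    refine Finset.sum_congr rfl fun k _ => by ring
  unfold Vn
  rw [h1]
  have h2 : mo 1 n (x ^ 2) = kap n x * mo 0 n (x ^ 2) := by
    unfold kap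
    rw [div_mul_cancel₀ _ hS.ne']
  rw [h2]
  field_simp
  ring

lemma S0_eq (n : ℕ) (x : ℝ) : S0 n x = mo 0 n ((x ^ 2) ^ 2) / mo 0 n (x ^ 2) ^ 2 := by
  unfold S0 wX
  have h1 : mo 0 n ((x ^ 2) ^ 2) = ∑ k ∈ Finset.range (n + 1), ((x ^ 2) ^ k) ^ 2 := by
    unfold mo
    refine Finset.sum_congr rfl fun k _ => ?_
    rw [pow_zero, one_mul, ← pow_mul, ← pow_mul, ← pow_mul, ← pow_mul]
    congr 1; ring
  rw [h1, Finset.sum_div]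
  refine Finset.sum_congr rfl fun k _ => by rw [div_pow]

lemma S1_eq {n : ℕ} {x : ℝ} (hn : 1 ≤ n) (hx : x ≠ 0) : S1 n x =
    (mo 2 n ((x ^ 2) ^ 2) - 2 * kap n x * mo 1 n ((x ^ 2) ^ 2)
      + kap n x ^ 2 * mo 0 n ((x ^ 2) ^ 2)) / (mo 0 n (x ^ 2) ^ 2 * Vn n x) := by
  have hS := mo0_pos (n := n) (x := x)
  have hV := Vn_pos hn hx
  have h1 : mo 2 n ((x ^ 2) ^ 2) - 2 * kap n x * mo 1 n ((x ^ 2) ^ 2)
      + kap n x ^ 2 * mo 0 n ((x ^ 2) ^ 2)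
      = ∑ k ∈ Finset.range (n + 1), ((k : ℝ) - kap n x) ^ 2 * ((x ^ 2) ^ k) ^ 2 := by
    unfold mo
    rw [Finset.mul_sum, Finset.mul_sum, ← Finset.sum_sub_distrib, ← Finset.sum_add_distrib]
    refine Finset.sum_congr rfl fun k _ => ?_
    have : ((x ^ 2) ^ 2) ^ k = ((x ^ 2) ^ k) ^ 2 := by
      rw [← pow_mul, ← pow_mul, ← pow_mul, ← pow_mul]; congr 1; ring
    rw [this]; ring
  rw [h1, Finset.sum_div]
  unfold S1 wZ wX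
  refine Finset.sum_congr rfl fun k _ => ?_
  field_simp

lemma S2_eq {n : ℕ} {x : ℝ} (hn : 1 ≤ n) (hx : x ≠ 0) : S2 n x =
    (mo 4 n ((x ^ 2) ^ 2) - 4 * kap n x * mo 3 n ((x ^ 2) ^ 2)
      + 6 * kap n x ^ 2 * mo 2 n ((x ^ 2) ^ 2) - 4 * kap n x ^ 3 * mo 1 n ((x ^ 2) ^ 2)
      + kap n x ^ 4 * mo 0 n ((x ^ 2) ^ 2)) / (mo 0 n (x ^ 2) ^ 2 * Vn n x ^ 2) := by
  have hS := mo0_pos (n := n) (x := x)
  have hV := Vn_pos hn hx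
  have h1 : mo 4 n ((x ^ 2) ^ 2) - 4 * kap n x * mo 3 n ((x ^ 2) ^ 2)
      + 6 * kap n x ^ 2 * mo 2 n ((x ^ 2) ^ 2) - 4 * kap n x ^ 3 * mo 1 n ((x ^ 2) ^ 2)
      + kap n x ^ 4 * mo 0 n ((x ^ 2) ^ 2)
      = ∑ k ∈ Finset.range (n + 1), ((k : ℝ) - kap n x) ^ 4 * ((x ^ 2) ^ k) ^ 2 := by
    unfold mo
    rw [Finset.mul_sum, Finset.mul_sum, Finset.mul_sum, Finset.mul_sum,
      ← Finset.sum_sub_distrib, ← Finset.sum_add_distrib, ← Finset.sum_sub_distrib,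
      ← Finset.sum_add_distrib]
    refine Finset.sum_congr rfl fun k _ => ?_
    have : ((x ^ 2) ^ 2) ^ k = ((x ^ 2) ^ k) ^ 2 := by
      rw [← pow_mul, ← pow_mul, ← pow_mul, ← pow_mul]; congr 1; ring
    rw [this]; ring
  rw [h1, Finset.sum_div]
  unfold S2 wZ wX
  refine Finset.sum_congr rfl fun k _ => ?_
  field_simp

section Lim

variable {x : ℝ} (hx : x ≠ 0) (hx1 : |x| < 1)

include hx1 in
lemma q_lt : x ^ 2 < 1 := by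
  have := (sq_lt_one_iff_abs_lt_one x).2 hx1
  exact this

include hx1 in
lemma q_norm : ‖x ^ 2‖ < 1 := by
  rw [Real.norm_eq_abs, abs_of_nonneg (sq_nonneg x)]
  exact q_lt hx1

include hx1 in
lemma q_norm2 : ‖(x ^ 2) ^ 2‖ < 1 := by
  rw [Real.norm_eq_abs, abs_of_nonneg (sq_nonneg _)]
  have := q_lt hx1
  nlinarith [sq_nonneg x]

include hx1 in
lemma kap_tendsto : Tendsto (fun n => kap n x) atTop (𝓝 (x ^ 2 / (1 - x ^ 2))) := by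
  have h1 := q_lt hx1
  have hne : 1 - x ^ 2 ≠ 0 := by linarith
  have h := (mo_tendsto (hs1 (q_norm hx1))).div (mo_tendsto (hs0 (q_norm hx1)))
    (one_div_ne_zero hne)
  have e : x ^ 2 / (1 - x ^ 2) ^ 2 / (1 / (1 - x ^ 2)) = x ^ 2 / (1 - x ^ 2) := by
    field_simp
  rw [e] at h
  exact h

include hx1 in
lemma Vn_tendsto : Tendsto (fun n => Vn n x) atTop (𝓝 (x ^ 2 / (1 - x ^ 2) ^ 2)) := by
  have h1 := q_lt hx1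
  have hne : 1 - x ^ 2 ≠ 0 := by linarith
  have h := ((mo_tendsto (hs2 (q_norm hx1))).div (mo_tendsto (hs0 (q_norm hx1)))
    (one_div_ne_zero hne)).sub ((kap_tendsto hx1).pow 2)
  have e : x ^ 2 * (1 + x ^ 2) / (1 - x ^ 2) ^ 3 / (1 / (1 - x ^ 2))
      - (x ^ 2 / (1 - x ^ 2)) ^ 2 = x ^ 2 / (1 - x ^ 2) ^ 2 := by
    field_simp
    ring
  rw [e] at h
  refine h.congr fun n => ?_
  rw [Vn_eq]; rfl

include hx1 in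
lemma S0_tendsto : Tendsto (fun n => S0 n x) atTop (𝓝 ((1 - x ^ 2) / (1 + x ^ 2))) := by
  have h1 := q_lt hx1
  have hne : 1 - x ^ 2 ≠ 0 := by linarith
  have hne2 : 1 - (x ^ 2) ^ 2 ≠ 0 := by
    have := q_norm2 hx1
    rw [Real.norm_eq_abs, abs_lt] at this
    linarith [this.2]
  have h := (mo_tendsto (hs0 (q_norm2 hx1))).div ((mo_tendsto (hs0 (q_norm hx1))).pow 2)
    (pow_ne_zero 2 (one_div_ne_zero hne))
  have hp : (0 : ℝ) < 1 + x ^ 2 := by positivity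
  have e : 1 / (1 - (x ^ 2) ^ 2) / (1 / (1 - x ^ 2)) ^ 2 = (1 - x ^ 2) / (1 + x ^ 2) := by
    rw [show 1 - (x ^ 2) ^ 2 = (1 - x ^ 2) * (1 + x ^ 2) by ring]
    field_simp
  rw [e] at h
  refine h.congr fun n => ?_
  rw [S0_eq]; rfl

include hx hx1 in
lemma S1_tendsto : Tendsto (fun n => S1 n x) atTop
    (𝓝 ((1 - x ^ 2) / (1 + x ^ 2) * (2 * x ^ 2 / (1 + x ^ 2) ^ 2))) := by
  have h1 := q_lt hx1
  have hne : 1 - x ^ 2 ≠ 0 := by linarith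
  have hp : (0 : ℝ) < 1 + x ^ 2 := by positivity
  have hx2 : x ^ 2 ≠ 0 := pow_ne_zero 2 hx
  have hk := kap_tendsto hx1
  have h := ((((mo_tendsto (hs2 (q_norm2 hx1))).sub
    ((hk.const_mul 2).mul (mo_tendsto (hs1 (q_norm2 hx1))))).add
    ((hk.pow 2).mul (mo_tendsto (hs0 (q_norm2 hx1))))).div
    (((mo_tendsto (hs0 (q_norm hx1))).pow 2).mul (Vn_tendsto hx1))
    (mul_ne_zero (pow_ne_zero 2 (one_div_ne_zero hne)) (div_ne_zero hx2 (pow_ne_zero 2 hne))))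
  have e : ((x ^ 2) ^ 2 * (1 + (x ^ 2) ^ 2) / (1 - (x ^ 2) ^ 2) ^ 3
      - 2 * (x ^ 2 / (1 - x ^ 2)) * ((x ^ 2) ^ 2 / (1 - (x ^ 2) ^ 2) ^ 2)
      + (x ^ 2 / (1 - x ^ 2)) ^ 2 * (1 / (1 - (x ^ 2) ^ 2)))
      / ((1 / (1 - x ^ 2)) ^ 2 * (x ^ 2 / (1 - x ^ 2) ^ 2))
      = (1 - x ^ 2) / (1 + x ^ 2) * (2 * x ^ 2 / (1 + x ^ 2) ^ 2) := by
    rw [show 1 - (x ^ 2) ^ 2 = (1 - x ^ 2) * (1 + x ^ 2) by ring]
    field_simp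
    ring
  rw [e] at h
  refine h.congr' ?_
  filter_upwards [eventually_ge_atTop 1] with n hn
  rw [S1_eq hn hx]; rfl

include hx hx1 in
lemma S2_tendsto : Tendsto (fun n => S2 n x) atTop
    (𝓝 ((1 - x ^ 2) / (1 + x ^ 2) * ((1 - 4 * x ^ 2 + 14 * (x ^ 2) ^ 2 - 4 * (x ^ 2) ^ 3
      + (x ^ 2) ^ 4) / (1 + x ^ 2) ^ 4))) := by
  have h1 := q_lt hx1
  have hne : 1 - x ^ 2 ≠ 0 := by linarith
  have hp : (0 : ℝ) < 1 + x ^ 2 := by positivity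
  have hx2 : x ^ 2 ≠ 0 := pow_ne_zero 2 hx
  have hk := kap_tendsto hx1
  have h := ((((((mo_tendsto (hs4 (q_norm2 hx1))).sub
    ((hk.const_mul 4).mul (mo_tendsto (hs3 (q_norm2 hx1))))).add
    (((hk.pow 2).const_mul 6).mul (mo_tendsto (hs2 (q_norm2 hx1))))).sub
    (((hk.pow 3).const_mul 4).mul (mo_tendsto (hs1 (q_norm2 hx1))))).add
    ((hk.pow 4).mul (mo_tendsto (hs0 (q_norm2 hx1))))).div
    (((mo_tendsto (hs0 (q_norm hx1))).pow 2).mul ((Vn_tendsto hx1).pow 2))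
    (mul_ne_zero (pow_ne_zero 2 (one_div_ne_zero hne))
      (pow_ne_zero 2 (div_ne_zero hx2 (pow_ne_zero 2 hne)))))
  have e : ((x ^ 2) ^ 2 * (1 + 11 * (x ^ 2) ^ 2 + 11 * ((x ^ 2) ^ 2) ^ 2 + ((x ^ 2) ^ 2) ^ 3)
        / (1 - (x ^ 2) ^ 2) ^ 5
      - 4 * (x ^ 2 / (1 - x ^ 2)) * ((x ^ 2) ^ 2 * (1 + 4 * (x ^ 2) ^ 2 + ((x ^ 2) ^ 2) ^ 2)
        / (1 - (x ^ 2) ^ 2) ^ 4)
      + 6 * (x ^ 2 / (1 - x ^ 2)) ^ 2 * ((x ^ 2) ^ 2 * (1 + (x ^ 2) ^ 2) / (1 - (x ^ 2) ^ 2) ^ 3)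
      - 4 * (x ^ 2 / (1 - x ^ 2)) ^ 3 * ((x ^ 2) ^ 2 / (1 - (x ^ 2) ^ 2) ^ 2)
      + (x ^ 2 / (1 - x ^ 2)) ^ 4 * (1 / (1 - (x ^ 2) ^ 2)))
      / ((1 / (1 - x ^ 2)) ^ 2 * (x ^ 2 / (1 - x ^ 2) ^ 2) ^ 2)
      = (1 - x ^ 2) / (1 + x ^ 2) * ((1 - 4 * x ^ 2 + 14 * (x ^ 2) ^ 2 - 4 * (x ^ 2) ^ 3
      + (x ^ 2) ^ 4) / (1 + x ^ 2) ^ 4) := by
    rw [show 1 - (x ^ 2) ^ 2 = (1 - x ^ 2) * (1 + x ^ 2) by ring]
    field_simp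
    ring
  rw [e] at h
  refine h.congr' ?_
  filter_upwards [eventually_ge_atTop 1] with n hn
  rw [S2_eq hn hx]; rfl

end Lim

/-- the explicit minorant -/
noncomputable def gmin (ε x : ℝ) : ℝ := 1 / Real.pi * (1 / (1 - x ^ 2)
  + ε ^ 2 * (1 / 5 - 3 / 4 * x ^ 2 + 3 / 4 * (x ^ 2) ^ 2 - 1 / 4 * (x ^ 2) ^ 3) - 10 * ε ^ 3)

/-- the limit of `lowD` -/
noncomputable def limD (ε x : ℝ) : ℝ := 1 / (Real.pi * (1 - x ^ 2)) *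
  (1 - ε ^ 2 * (3 / 4 * ((1 - x ^ 2) / (1 + x ^ 2) * (2 * x ^ 2 / (1 + x ^ 2) ^ 2))
    + 1 / 8 * ((1 - x ^ 2) / (1 + x ^ 2) * ((1 - 4 * x ^ 2 + 14 * (x ^ 2) ^ 2 - 4 * (x ^ 2) ^ 3
      + (x ^ 2) ^ 4) / (1 + x ^ 2) ^ 4))
    - 3 / 8 * ((1 - x ^ 2) / (1 + x ^ 2)))
  - 4 * ε ^ 3 * ((1 - x ^ 2) / (1 + x ^ 2)
    + (1 - x ^ 2) / (1 + x ^ 2) * (2 * x ^ 2 / (1 + x ^ 2) ^ 2)
    + (1 - x ^ 2) / (1 + x ^ 2) * ((1 - 4 * x ^ 2 + 14 * (x ^ 2) ^ 2 - 4 * (x ^ 2) ^ 3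
      + (x ^ 2) ^ 4) / (1 + x ^ 2) ^ 4)))

lemma gmin_le {ε x : ℝ} (h0 : 0 ≤ ε) (hx1 : |x| < 1) : gmin ε x ≤ limD ε x := by
  unfold gmin limD
  have hq1 := q_lt hx1
  have hq0 : 0 ≤ x ^ 2 := sq_nonneg x
  set q := x ^ 2 with hq
  have hpi := Real.pi_pos
  have hp : 0 < 1 + q := by linarith
  have hm : 0 < 1 - q := by linarith
  -- first polynomial inequality
  have k1 : 1 / 5 - 3 / 4 * q + 3 / 4 * q ^ 2 - 1 / 4 * q ^ 3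
      ≤ (1 + 2 * q - 10 * q ^ 2 + 2 * q ^ 3 + q ^ 4) / (4 * (1 + q) ^ 5) := by
    rw [le_div_iff₀ (by positivity)]
    have hB : 0 ≤ 1 / 5 * (1 - q) ^ 8 + 13 / 5 * q * (1 - q) ^ 7 + 33 / 5 * q ^ 2 * (1 - q) ^ 6
        + 31 / 5 * q ^ 3 * (1 - q) ^ 5 + 11 * q ^ 4 * (1 - q) ^ 4 + 142 / 5 * q ^ 5 * (1 - q) ^ 3
        + 146 / 5 * q ^ 6 * (1 - q) ^ 2 + 56 / 5 * q ^ 7 * (1 - q) + 12 / 5 * q ^ 8 := by
      positivity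
    have hB2 : 1 / 5 * (1 - q) ^ 8 + 13 / 5 * q * (1 - q) ^ 7 + 33 / 5 * q ^ 2 * (1 - q) ^ 6
        + 31 / 5 * q ^ 3 * (1 - q) ^ 5 + 11 * q ^ 4 * (1 - q) ^ 4 + 142 / 5 * q ^ 5 * (1 - q) ^ 3
        + 146 / 5 * q ^ 6 * (1 - q) ^ 2 + 56 / 5 * q ^ 7 * (1 - q) + 12 / 5 * q ^ 8
        = (1 + 2 * q - 10 * q ^ 2 + 2 * q ^ 3 + q ^ 4)
          - (1 / 5 - 3 / 4 * q + 3 / 4 * q ^ 2 - 1 / 4 * q ^ 3) * (4 * (1 + q) ^ 5) := by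
      ring
    linarith
  have k2 : (1 - 4 * q + 14 * q ^ 2 - 4 * q ^ 3 + q ^ 4) / (1 + q) ^ 4 ≤ 1 := by
    rw [div_le_one (by positivity)]
    nlinarith [mul_nonneg hq0 hm.le, mul_nonneg (mul_nonneg hq0 hq0) hq0]
  have k3 : 2 * q / (1 + q) ^ 2 ≤ 1 / 2 := by
    rw [div_le_div_iff₀ (by positivity) (by norm_num)]
    nlinarith [sq_nonneg (1 - q)]
  have k4 : (1 - q) / (1 + q) ≤ 1 - q := by
    rw [div_le_iff₀ hp]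
    nlinarith
  have k5 : 0 ≤ (1 - q) / (1 + q) := by positivity
  have e1 : 3 / 4 * ((1 - q) / (1 + q) * (2 * q / (1 + q) ^ 2))
    + 1 / 8 * ((1 - q) / (1 + q) * ((1 - 4 * q + 14 * q ^ 2 - 4 * q ^ 3 + q ^ 4) / (1 + q) ^ 4))
    - 3 / 8 * ((1 - q) / (1 + q))
    = -((1 - q) * ((1 + 2 * q - 10 * q ^ 2 + 2 * q ^ 3 + q ^ 4) / (4 * (1 + q) ^ 5))) := by
    field_simp
    ring
  rw [e1]
  set K := (1 + 2 * q - 10 * q ^ 2 + 2 * q ^ 3 + q ^ 4) / (4 * (1 + q) ^ 5) with hK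
  have k6 : (1 - q) / (1 + q) + (1 - q) / (1 + q) * (2 * q / (1 + q) ^ 2)
      + (1 - q) / (1 + q) * ((1 - 4 * q + 14 * q ^ 2 - 4 * q ^ 3 + q ^ 4) / (1 + q) ^ 4)
      ≤ 5 / 2 * (1 - q) := by
    have a1 := mul_le_mul_of_nonneg_left k3 k5
    have a2 := mul_le_mul_of_nonneg_left k2 k5
    linarith
  set E := (1 - q) / (1 + q) + (1 - q) / (1 + q) * (2 * q / (1 + q) ^ 2)
      + (1 - q) / (1 + q) * ((1 - 4 * q + 14 * q ^ 2 - 4 * q ^ 3 + q ^ 4) / (1 + q) ^ 4) with hE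
  have e2 : 1 / Real.pi * (1 / (1 - q) + ε ^ 2 * (1 / 5 - 3 / 4 * q + 3 / 4 * q ^ 2
      - 1 / 4 * q ^ 3) - 10 * ε ^ 3)
      = 1 / (Real.pi * (1 - q)) * (1 + ε ^ 2 * ((1 - q) * (1 / 5 - 3 / 4 * q + 3 / 4 * q ^ 2
      - 1 / 4 * q ^ 3)) - 4 * ε ^ 3 * (5 / 2 * (1 - q))) := by
    field_simp
    ring
  rw [e2]
  refine mul_le_mul_of_nonneg_left ?_ (by positivity)
  have b1 : ε ^ 2 * ((1 - q) * (1 / 5 - 3 / 4 * q + 3 / 4 * q ^ 2 - 1 / 4 * q ^ 3))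
      ≤ ε ^ 2 * ((1 - q) * K) :=
    mul_le_mul_of_nonneg_left (mul_le_mul_of_nonneg_left k1 hm.le) (sq_nonneg _)
  have b2 : 4 * ε ^ 3 * E ≤ 4 * ε ^ 3 * (5 / 2 * (1 - q)) :=
    mul_le_mul_of_nonneg_left k6 (by positivity)
  linarith

lemma lowD_tendsto (ε : ℝ) {x : ℝ} (hx : x ≠ 0) (hx1 : |x| < 1) :
    Tendsto (fun n => lowD ε n x) atTop (𝓝 (limD ε x)) := by
  have h0 := S0_tendsto hx1
  have h1 := S1_tendsto hx hx1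
  have h2 := S2_tendsto hx hx1
  have hr := Kac764.H2.j12038_tendsto x hx1
  unfold lowD limD
  exact hr.mul (((tendsto_const_nhds (x := (1 : ℝ))).sub
    ((((h1.const_mul (3 / 4)).add (h2.const_mul (1 / 8))).sub (h0.const_mul (3 / 8))).const_mul
      (ε ^ 2))).sub (((h0.add h1).add h2).const_mul (4 * ε ^ 3)))

end Pool.Agent.V11333.Kac
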