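import Pool.Agent.V11333.KacG6

/-!
# The constants for the mixture and for the Gaussian law (helper for MP_a7dd25_pr)
-/

set_option autoImplicit false

open MeasureTheory ProbabilityTheory Filter Topology Set
open scoped ENNReal NNReal

namespace Pool.Agent.V11333.Kac

/-! ### The laws -/

lemma half_ne_top : (1 / 2 : ℝ≥0∞) ≠ ⊤ := by simp

lemma mix_integrable {ε : ℝ} {g : ℝ → ℝ}
    (h1 : Integrable g (gaussianReal 0 (Real.toNNReal (1 + ε))))
    (h2 : Integrable g (gaussianReal 0 (Real.toNNReal (1 - ε)))) : Integrable g (mix ε) := by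
  unfold mix
  exact Integrable.add_measure (h1.smul_measure half_ne_top) (h2.smul_measure half_ne_top)

lemma mix_integral {ε : ℝ} {g : ℝ → ℝ}
    (h1 : Integrable g (gaussianReal 0 (Real.toNNReal (1 + ε))))
    (h2 : Integrable g (gaussianReal 0 (Real.toNNReal (1 - ε)))) :
    ∫ x, g x ∂(mix ε) = 1 / 2 * ∫ x, g x ∂(gaussianReal 0 (Real.toNNReal (1 + ε)))
      + 1 / 2 * ∫ x, g x ∂(gaussianReal 0 (Real.toNNReal (1 - ε))) := by
  unfold mix
  rw [integral_add_measure (h1.smul_measure half_ne_top) (h2.smul_measure half_ne_top),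
    integral_smul_measure, integral_smul_measure]
  simp

lemma gauss_pow_int (v : ℝ≥0) (p : ℕ) : Integrable (fun x : ℝ => |x| ^ p) (gaussianReal 0 v) := by
  have h := (memLp_id_gaussianReal (μ := 0) (v := v) (p : ℝ≥0)).integrable_norm_pow'
  simpa using h

lemma gauss_id_int (v : ℝ≥0) : Integrable (fun x : ℝ => x) (gaussianReal 0 v) := by
  have h := (memLp_id_gaussianReal (μ := 0) (v := v) (1 : ℝ≥0)).integrable (by norm_num)
  exact h

lemma gauss_sq_int (v : ℝ≥0) : Integrable (fun x : ℝ => x ^ 2) (gaussianReal 0 v) := by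
  have h := gauss_pow_int v 2
  simpa using h

lemma gauss_sq (v : ℝ≥0) : ∫ x, x ^ 2 ∂(gaussianReal 0 v) = v := by
  have h := variance_fun_id_gaussianReal (μ := 0) (v := v)
  rw [variance_of_integral_eq_zero (by fun_prop) integral_id_gaussianReal] at h
  exact h

lemma mix_std {ε : ℝ} (h0 : 0 ≤ ε) (h1 : ε < 1) : Kac764.Std (mix ε) := by
  refine ⟨inferInstance, mix_integrable (gauss_sq_int _) (gauss_sq_int _), ?_, ?_⟩
  · rw [mix_integral (gauss_id_int _) (gauss_id_int _), integral_id_gaussianReal,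
      integral_id_gaussianReal]
    ring
  · rw [mix_integral (gauss_sq_int _) (gauss_sq_int _), gauss_sq, gauss_sq,
      Real.coe_toNNReal _ (by linarith), Real.coe_toNNReal _ (by linarith)]
    ring

lemma mix_zero : mix 0 = gaussianReal 0 1 := by
  unfold mix
  simp only [add_zero, sub_zero, Real.toNNReal_one]
  rw [← add_smul, half_add_half, one_smul]

lemma mix_null {ε : ℝ} (h0 : 0 ≤ ε) (h1 : ε < 1) {s : Set ℝ} (hs : s.Countable) :
    mix ε s = 0 := by
  have hv1 : Real.toNNReal (1 + ε) ≠ 0 := by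
    intro h; rw [Real.toNNReal_eq_zero] at h; linarith
  have hv2 : Real.toNNReal (1 - ε) ≠ 0 := by
    intro h; rw [Real.toNNReal_eq_zero] at h; linarith
  have a1 : NullSingletonClass (gaussianReal 0 (Real.toNNReal (1 + ε))) :=
    nullSingletonClass_gaussianReal hv1
  have a2 : NullSingletonClass (gaussianReal 0 (Real.toNNReal (1 - ε))) :=
    nullSingletonClass_gaussianReal hv2
  unfold mix
  rw [Measure.add_apply, Measure.smul_apply, Measure.smul_apply, hs.measure_zero, hs.measure_zero]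
  simp

/-! ### Multiple roots -/

lemma closed_double (n : ℕ) (p q : ℝ) :
    IsClosed {ω : ℕ → ℝ | ∃ x ∈ Icc p q, Kac764.D0 n ω x = 0 ∧ Kac764.D1 n ω x = 0} := by
  have h : {ω : ℕ → ℝ | ∃ x ∈ Icc p q, Kac764.D0 n ω x = 0 ∧ Kac764.D1 n ω x = 0} =
      Prod.fst '' {z : (ℕ → ℝ) × (Icc p q) | Kac764.D0 n z.1 (z.2 : ℝ) = 0 ∧
        Kac764.D1 n z.1 (z.2 : ℝ) = 0} := by
    ext ω
    constructor
    · rintro ⟨x, hx, h⟩
      exact ⟨(ω, ⟨x, hx⟩), h, rfl⟩
    · rintro ⟨⟨ω', x⟩, h, rfl⟩
      exact ⟨x, x.2, h⟩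
  rw [h]
  apply isClosedMap_fst_of_compactSpace
  have hc0 : Continuous (fun z : (ℕ → ℝ) × (Icc p q) => Kac764.D0 n z.1 (z.2 : ℝ)) := by
    unfold Kac764.D0
    fun_prop
  have hc1 : Continuous (fun z : (ℕ → ℝ) × (Icc p q) => Kac764.D1 n z.1 (z.2 : ℝ)) := by
    unfold Kac764.D1
    fun_prop
  exact (isClosed_singleton.preimage hc0).inter (isClosed_singleton.preimage hc1)

lemma D0_upd' (n : ℕ) (ω : ℕ → ℝ) (c x : ℝ) :
    Kac764.D0 n (Function.update ω 0 c) x = sU x ω n 0 + c := by
  have h1 := D0_upd n ω x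
  rw [← h1]
  unfold Kac764.D0
  rw [Finset.sum_range_succ', Finset.sum_range_succ', Function.update_self, Function.update_self]
  have h2 : ∀ k ∈ Finset.range n, Function.update ω 0 c (k + 1) * x ^ (k + 1)
      = Function.update ω 0 0 (k + 1) * x ^ (k + 1) := by
    intro k _
    rw [Function.update_of_ne (by omega), Function.update_of_ne (by omega)]
  rw [Finset.sum_congr rfl h2]
  ring

lemma D1_upd' (n : ℕ) (ω : ℕ → ℝ) (c x : ℝ) :
    Kac764.D1 n (Function.update ω 0 c) x = Kac764.D1 n (Function.update ω 0 0) x := by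
  unfold Kac764.D1
  rw [Finset.sum_range_succ', Finset.sum_range_succ']
  have h2 : ∀ k ∈ Finset.range n, Function.update ω 0 c (k + 1) *
        (((k + 1 : ℕ) : ℝ) * x ^ (k + 1 - 1))
      = Function.update ω 0 0 (k + 1) * (((k + 1 : ℕ) : ℝ) * x ^ (k + 1 - 1)) := by
    intro k _
    rw [Function.update_of_ne (by omega), Function.update_of_ne (by omega)]
  rw [Finset.sum_congr rfl h2]
  simp

/-- the critical values are countable -/
lemma crit_countable (p : Polynomial ℝ) :
    {c : ℝ | ∃ x : ℝ, p.derivative.eval x = 0 ∧ p.eval x + c = 0}.Countable := by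
  by_cases hp : p.derivative = 0
  · have hp' := Polynomial.derivative_eq_zero.1 hp
    obtain ⟨k, hk⟩ := Polynomial.natDegree_eq_zero.1 hp'
    refine (Set.countable_singleton (-k)).mono ?_
    rintro c ⟨x, -, hx⟩
    rw [← hk, Polynomial.eval_C] at hx
    rw [Set.mem_singleton_iff]
    linarith
  · have hfin : {x : ℝ | p.derivative.eval x = 0}.Finite := by
      have : {x : ℝ | p.derivative.eval x = 0} ⊆ (p.derivative.roots.toFinset : Set ℝ) := by
        intro x hx
        simp only [Finset.mem_coe, Multiset.mem_toFinset, Polynomial.mem_roots', ne_eq]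
        exact ⟨hp, hx⟩
      exact (Finset.finite_toSet _).subset this
    refine (hfin.image (fun x => -p.eval x)).countable.mono ?_
    rintro c ⟨x, h1, h2⟩
    exact ⟨x, h1, by simp only; linarith⟩

lemma ae_no_double_root {ε : ℝ} (h0 : 0 ≤ ε) (h1 : ε < 1) (n : ℕ) :
    ∀ᵐ ω ∂(Kac764.PP (mix ε)), ∀ x : ℝ, ¬ (Kac764.D0 n ω x = 0 ∧ Kac764.D1 n ω x = 0) := by
  have key : ∀ N : ℕ, ∀ᵐ ω ∂(Kac764.PP (mix ε)),
      ¬ ∃ x ∈ Icc (-(N : ℝ)) N, Kac764.D0 n ω x = 0 ∧ Kac764.D1 n ω x = 0 := by
    intro N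
    rw [ae_iff]
    simp only [not_not]
    have hcl := (closed_double n (-(N : ℝ)) N).measurableSet
    set S := {ω : ℕ → ℝ | ∃ x ∈ Icc (-(N : ℝ)) N, Kac764.D0 n ω x = 0 ∧ Kac764.D1 n ω x = 0}
      with hS
    have hm : Measurable (S.indicator (fun _ : ℕ → ℝ => (1 : ℝ≥0∞))) :=
      measurable_const.indicator hcl
    rw [← lintegral_indicator_one hcl]
    have e := Kac764.G1.x_lint_upd (mix ε) 0 hm
    have e' : ∫⁻ w, S.indicator (fun _ : ℕ → ℝ => (1 : ℝ≥0∞)) w ∂(Kac764.PP (mix ε)) = 0 := by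
      rw [← e]
      refine (lintegral_eq_zero_iff ?_).2 ?_
      · exact Measurable.lintegral_prod_right' (hm.comp (Kac764.G1.x_meas_upd 0))
      · refine Eventually.of_forall fun ω => ?_
        simp only [Pi.zero_apply]
        have hset : {c : ℝ | Function.update ω 0 c ∈ S}.Countable := by
          refine (crit_countable (Kac764.kac n (Function.update ω 0 0))).mono ?_
          rintro c ⟨x, -, hx1, hx2⟩
          refine ⟨x, ?_, ?_⟩
          · rw [Kac764.P6.kac_deriv_eval, ← D1_upd' n ω c]; exact hx2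
          · rw [Kac764.P6.kac_eval, D0_upd, ← D0_upd' n ω c]; exact hx1
        have h2 : ∀ c : ℝ, S.indicator (fun _ : ℕ → ℝ => (1 : ℝ≥0∞)) (Function.update ω 0 c)
            = {c : ℝ | Function.update ω 0 c ∈ S}.indicator (fun _ => (1 : ℝ≥0∞)) c := by
          intro c
          rfl
        simp only [h2]
        have hms : MeasurableSet {c : ℝ | Function.update ω 0 c ∈ S} :=
          (measurable_update ω) hcl
        have h3 := lintegral_indicator_one (μ := mix ε) hms
        exact h3.trans (mix_null h0 h1 hset)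
    exact e'
  have h2 := ae_all_iff.2 key
  filter_upwards [h2] with ω hω x hx
  obtain ⟨N, hN⟩ := exists_nat_ge |x|
  exact hω N ⟨x, abs_le.1 hN, hx⟩

/-- almost surely all the real roots are simple -/
lemma ae_card {ε : ℝ} (h0 : 0 ≤ ε) (h1 : ε < 1) (n : ℕ) :
    ∀ᵐ ω ∂(Kac764.PP (mix ε)), (Kac764.kac n ω).roots.card = Kac764.nz (Kac764.kac n ω) univ := by
  filter_upwards [ae_no_double_root h0 h1 n] with ω hω
  have hnd : (Kac764.kac n ω).roots.Nodup := by
    rw [Multiset.nodup_iff_count_le_one]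
    intro x
    rw [Polynomial.count_roots]
    by_contra hcon
    push Not at hcon
    have hne : Kac764.kac n ω ≠ 0 := by
      intro h
      rw [h, Polynomial.rootMultiplicity_zero] at hcon
      omega
    have h2 := (Polynomial.one_lt_rootMultiplicity_iff_isRoot hne).1 hcon
    refine hω x ⟨?_, ?_⟩
    · rw [← Kac764.P6.kac_eval]; exact h2.1
    · rw [← Kac764.P6.kac_deriv_eval]; exact h2.2
  have h3 : (Kac764.kac n ω).roots.card = (Kac764.kac n ω).roots.toFinset.card :=
    (Multiset.toFinset_card_of_nodup hnd).symm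
  rw [h3]
  unfold Kac764.nz
  rw [← Set.ncard_coe_finset]
  congr 1
  ext x
  simp [Polynomial.mem_roots']

end Pool.Agent.V11333.Kac
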