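import Pool.Agent.V11333.KacG7

/-!
# The constants for the mixture and for the Gaussian law, continued (helper for MP_a7dd25_pr)
-/

set_option autoImplicit false

open MeasureTheory ProbabilityTheory Filter Topology Set
open scoped ENNReal NNReal

namespace Pool.Agent.V11333.Kac

lemma nz_int {ε : ℝ} (h0 : 0 ≤ ε) (h1 : ε < 1) (n : ℕ) (a b : ℝ) :
    Integrable (fun ω : ℕ → ℝ => (Kac764.nz (Kac764.kac n ω) (Ioo a b) : ℝ))
      (Kac764.PP (mix ε)) :=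
  Kac764.M2.nz_meas_int (mix ε) (mix_std h0 h1) n _ (Kac764.J6.measurable_nz n a b)

lemma lint_nz {ε : ℝ} (h0 : 0 ≤ ε) (h1 : ε < 1) (n : ℕ) (a b : ℝ) :
    ∫⁻ ω, (Kac764.nz (Kac764.kac n ω) (Ioo a b) : ℝ≥0∞) ∂(Kac764.PP (mix ε))
      = ENNReal.ofReal (∫ ω, (Kac764.nz (Kac764.kac n ω) (Ioo a b) : ℝ) ∂(Kac764.PP (mix ε))) := by
  rw [ofReal_integral_eq_lintegral_ofReal (nz_int h0 h1 n a b)
    (Eventually.of_forall fun ω => Nat.cast_nonneg _)]
  refine lintegral_congr fun ω => ?_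
  rw [ENNReal.ofReal_natCast]

lemma meas_rhoe (ε : ℝ) (n : ℕ) : Measurable (fun p : ℝ × (ℕ → ℝ) => rhoe ε n p.1 p.2) := by
  unfold rhoe sA sB sC
  fun_prop

lemma meas_f (ε : ℝ) (n : ℕ) :
    Measurable (fun x : ℝ => ∫⁻ η, ENNReal.ofReal (rhoe ε n x η) ∂(Kac764.PP coin)) :=
  Measurable.lintegral_prod_right' (f := fun p : ℝ × (ℕ → ℝ) => ENNReal.ofReal (rhoe ε n p.1 p.2))
    (ENNReal.measurable_ofReal.comp (meas_rhoe ε n))

lemma gmin_cont (ε : ℝ) {a b : ℝ} (ha : -1 < a) (hb : b < 1) :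
    ContinuousOn (gmin ε) (Icc a b) := by
  unfold gmin
  intro x hx
  have h1 : 1 - x ^ 2 ≠ 0 := by
    have h2 : -1 < x := ha.trans_le hx.1
    have h3 : x < 1 := hx.2.trans_lt hb
    nlinarith
  refine ContinuousAt.continuousWithinAt ?_
  fun_prop (disch := exact h1)

theorem Ninf_lower {ε : ℝ} (h0 : 0 ≤ ε) (h1 : ε ≤ 1 / 20) {a b : ℝ} (hab : a < b) (ha : -1 < a)
    (hb : b < 1) (h00 : (0 : ℝ) ∉ Ioo a b) :
    ∫ x in Ioo a b, gmin ε x ≤ ∫ ω, (Kac764.Ninf ω (Ioo a b) : ℝ) ∂(Kac764.PP (mix ε)) := by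
  have h1' : ε < 1 := by linarith
  obtain ⟨hNi, hlim⟩ := Kac764.A1.tendsto_nz (mix ε) (mix_std h0 h1') a b hab ha hb h00
  have hlim2 : Tendsto (fun n : ℕ => ∫⁻ x in Ioo a b, ∫⁻ η, ENNReal.ofReal (rhoe ε n x η)
      ∂(Kac764.PP coin)) atTop
      (𝓝 (ENNReal.ofReal (∫ ω, (Kac764.Ninf ω (Ioo a b) : ℝ) ∂(Kac764.PP (mix ε))))) := by
    have := (ENNReal.continuous_ofReal.tendsto _).comp hlim
    refine this.congr fun n => ?_
    simp only [Function.comp]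
    rw [← lint_nz h0 h1', kacRice h0 h1' n hab]
  have hF : ∫⁻ x in Ioo a b, liminf (fun n : ℕ => ∫⁻ η, ENNReal.ofReal (rhoe ε n x η)
      ∂(Kac764.PP coin)) atTop
      ≤ ENNReal.ofReal (∫ ω, (Kac764.Ninf ω (Ioo a b) : ℝ) ∂(Kac764.PP (mix ε))) := by
    refine (lintegral_liminf_le (fun n => meas_f ε n)).trans ?_
    rw [hlim2.liminf_eq]
  have hpt : ∀ x ∈ Ioo a b, ENNReal.ofReal (gmin ε x) ≤
      liminf (fun n : ℕ => ∫⁻ η, ENNReal.ofReal (rhoe ε n x η) ∂(Kac764.PP coin)) atTop := by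
    intro x hx
    have hx0 : x ≠ 0 := fun h => h00 (h ▸ hx)
    have hx1 : |x| < 1 := abs_lt.2 ⟨ha.trans hx.1, hx.2.trans hb⟩
    have t1 : Tendsto (fun n => ENNReal.ofReal (lowD ε n x)) atTop
        (𝓝 (ENNReal.ofReal (limD ε x))) :=
      (ENNReal.continuous_ofReal.tendsto _).comp (lowD_tendsto ε hx0 hx1)
    calc ENNReal.ofReal (gmin ε x) ≤ ENNReal.ofReal (limD ε x) :=
          ENNReal.ofReal_le_ofReal (gmin_le h0 hx1)
      _ = liminf (fun n => ENNReal.ofReal (lowD ε n x)) atTop := t1.liminf_eq.symm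
      _ ≤ _ := by
          refine liminf_le_liminf ?_
          filter_upwards [eventually_ge_atTop 1] with n hn
          exact lower_eta h0 h1 hn hx0
  have hgi : Integrable (gmin ε) (volume.restrict (Ioo a b)) :=
    ((gmin_cont ε ha hb).integrableOn_Icc).mono_set Ioo_subset_Icc_self
  have hfin : ENNReal.ofReal (∫ x in Ioo a b, gmin ε x)
      ≤ ENNReal.ofReal (∫ ω, (Kac764.Ninf ω (Ioo a b) : ℝ) ∂(Kac764.PP (mix ε))) := by
    refine (ofReal_integral_le hgi).trans (le_trans ?_ hF)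
    refine setLIntegral_mono' measurableSet_Ioo hpt
  have hnn : 0 ≤ ∫ ω, (Kac764.Ninf ω (Ioo a b) : ℝ) ∂(Kac764.PP (mix ε)) :=
    integral_nonneg fun ω => Nat.cast_nonneg _
  exact (ENNReal.ofReal_le_ofReal_iff hnn).1 hfin

/-- Gaussian coefficients: exact value -/
theorem Ninf_gauss {a b : ℝ} (hab : a < b) (ha : -1 < a) (hb : b < 1) (h00 : (0 : ℝ) ∉ Ioo a b) :
    ∫ ω, (Kac764.Ninf ω (Ioo a b) : ℝ) ∂(Kac764.PP (mix 0))
      = ∫ x in a..b, 1 / (Real.pi * (1 - x ^ 2)) := by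
  obtain ⟨hNi, hlim⟩ := Kac764.A1.tendsto_nz (mix 0) (mix_std le_rfl one_pos) a b hab ha hb h00
  refine tendsto_nhds_unique hlim ?_
  have h := Kac764.H2.tendsto_int_rho a b ha hab.le hb
  refine h.congr fun n => ?_
  have h1 := kacRice (ε := 0) le_rfl one_pos n hab
  rw [lint_nz le_rfl one_pos] at h1
  simp only [rhoe_zero, lintegral_const, measure_univ, mul_one] at h1
  have hri : Integrable (Kac764.rho n) (volume.restrict (Ioo a b)) :=
    ((Kac764.H2.rho_continuous n).continuousOn.integrableOn_Icc).mono_set Ioo_subset_Icc_self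
  rw [← ofReal_integral_eq_lintegral_ofReal hri
    (Eventually.of_forall fun x => Kac764.H2.rho_nonneg n x)] at h1
  have hnn : 0 ≤ ∫ ω, (Kac764.nz (Kac764.kac n ω) (Ioo a b) : ℝ) ∂(Kac764.PP (mix 0)) :=
    integral_nonneg fun ω => Nat.cast_nonneg _
  have hnn2 : 0 ≤ ∫ x in Ioo a b, Kac764.rho n x :=
    integral_nonneg fun x => Kac764.H2.rho_nonneg n x
  have h2 := (ENNReal.ofReal_eq_ofReal_iff hnn hnn2).1 h1
  rw [h2, intervalIntegral.integral_of_le hab.le, integral_Ioc_eq_integral_Ioo]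

/-- splitting the zeros of the series -/
lemma Ninf_split {μ : Measure ℝ} (hμ : Kac764.Std μ) {r : ℝ} (h0 : 0 < r) (hr : r < 1) :
    ∫ ξ, (Kac764.Ninf ξ {x : ℝ | 0 < |x| ∧ |x| < r} : ℝ) ∂(Kac764.PP μ)
      = ∫ ξ, (Kac764.Ninf ξ (Ioo 0 r) : ℝ) ∂(Kac764.PP μ)
        + ∫ ξ, (Kac764.Ninf ξ (Ioo (-r) 0) : ℝ) ∂(Kac764.PP μ) := by
  have hA := (Kac764.A1.tendsto_nz μ hμ 0 r h0 (by norm_num) hr (by simp)).1
  have hB := (Kac764.A1.tendsto_nz μ hμ (-r) 0 (by linarith) (by linarith) (by norm_num)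
    (by simp)).1
  rw [← integral_add hA hB]
  refine integral_congr_ae ?_
  filter_upwards [Kac764.M1.ae_finite_zeros μ hμ 0 r h0 (by norm_num) hr (by simp),
    Kac764.M1.ae_finite_zeros μ hμ (-r) 0 (by linarith) (by linarith) (by norm_num) (by simp)]
    with ξ h1 h2
  have hset : {x : ℝ | x ∈ {x : ℝ | 0 < |x| ∧ |x| < r} ∧ Kac764.F0 ξ x = 0}
      = {x : ℝ | x ∈ Ioo 0 r ∧ Kac764.F0 ξ x = 0} ∪
        {x : ℝ | x ∈ Ioo (-r) 0 ∧ Kac764.F0 ξ x = 0} := by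
    ext x
    simp only [Set.mem_ofPred_eq, mem_union, mem_Ioo]
    constructor
    · rintro ⟨⟨h3, h4⟩, h5⟩
      rw [abs_lt] at h4
      rcases lt_trichotomy x 0 with h | h | h
      · exact Or.inr ⟨⟨h4.1, h⟩, h5⟩
      · simp [h] at h3
      · exact Or.inl ⟨⟨h, h4.2⟩, h5⟩
    · rintro (⟨⟨h3, h4⟩, h5⟩ | ⟨⟨h3, h4⟩, h5⟩)
      · exact ⟨⟨abs_pos.2 h3.ne', abs_lt.2 ⟨by linarith, h4⟩⟩, h5⟩
      · exact ⟨⟨abs_pos.2 h4.ne, abs_lt.2 ⟨h3, by linarith⟩⟩, h5⟩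
  have hcard : Kac764.Ninf ξ {x : ℝ | 0 < |x| ∧ |x| < r}
      = Kac764.Ninf ξ (Ioo 0 r) + Kac764.Ninf ξ (Ioo (-r) 0) := by
    unfold Kac764.Ninf
    rw [hset]
    refine Set.ncard_union_eq ?_ h1 h2
    rw [Set.disjoint_left]
    rintro x ⟨⟨hx1, _⟩, _⟩ ⟨⟨_, hx2⟩, _⟩
    linarith
  rw [hcard]
  push_cast
  rfl

/-- the polynomial part of the integral of the minorant -/
noncomputable def QQ (r : ℝ) : ℝ := r / 5 - r ^ 3 / 4 + 3 * r ^ 5 / 20 - r ^ 7 / 28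

lemma int_gmin (ε : ℝ) {r : ℝ} (h0 : 0 < r) (hr : r < 1) :
    ∫ x in Ioo 0 r, gmin ε x = 1 / (2 * Real.pi) * Real.log ((1 + r) / (1 - r))
      + 1 / Real.pi * (ε ^ 2 * QQ r - 10 * ε ^ 3 * r) := by
  have hpi := Real.pi_pos
  rw [← integral_Ioc_eq_integral_Ioo, ← intervalIntegral.integral_of_le h0.le]
  have hd : ∀ x ∈ Set.uIcc 0 r, HasDerivAt
      (fun x => 1 / (2 * Real.pi) * (Real.log (1 + x) - Real.log (1 - x))
        + 1 / Real.pi * (ε ^ 2 * QQ x - 10 * ε ^ 3 * x)) (gmin ε x) x := by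
    intro x hx
    rw [Set.uIcc_of_le h0.le] at hx
    have e1 : 0 < 1 + x := by linarith [hx.1]
    have e2 : 0 < 1 - x := by linarith [hx.2]
    have d1 : HasDerivAt (fun x => Real.log (1 + x)) (1 / (1 + x)) x :=
      ((hasDerivAt_id x).const_add 1).log e1.ne'
    have d2 : HasDerivAt (fun x => Real.log (1 - x)) (-1 / (1 - x)) x :=
      ((hasDerivAt_id x).const_sub 1).log e2.ne'
    have d3 : HasDerivAt QQ (1 / 5 - 3 * x ^ 2 / 4 + 3 * (5 * x ^ 4) / 20 - 7 * x ^ 6 / 28) x := by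
      unfold QQ
      have p1 := (hasDerivAt_id x).div_const 5
      have p3 := (hasDerivAt_pow 3 x).div_const 4
      have p5 := ((hasDerivAt_pow 5 x).const_mul 3).div_const 20
      have p7 := (hasDerivAt_pow 7 x).div_const 28
      have := ((p1.sub p3).add p5).sub p7
      refine HasDerivAt.congr_deriv this ?_
      simp
    have d4 := ((d1.sub d2).const_mul (1 / (2 * Real.pi))).add
      (((d3.const_mul (ε ^ 2)).sub ((hasDerivAt_id x).const_mul (10 * ε ^ 3))).const_mul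
        (1 / Real.pi))
    refine d4.congr_deriv ?_
    unfold gmin
    rw [show 1 - x ^ 2 = (1 - x) * (1 + x) by ring]
    field_simp
    ring
  have hi : IntervalIntegrable (gmin ε) volume 0 r := by
    refine ContinuousOn.intervalIntegrable ?_
    rw [Set.uIcc_of_le h0.le]
    exact gmin_cont ε (by norm_num) hr
  rw [intervalIntegral.integral_eq_sub_of_hasDerivAt hd hi]
  have e1 : 0 < 1 + r := by linarith
  have e2 : 0 < 1 - r := by linarith
  rw [Real.log_div e1.ne' e2.ne']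
  simp [QQ]

lemma gmin_even (ε x : ℝ) : gmin ε (-x) = gmin ε x := by
  unfold gmin
  rw [neg_sq]

lemma int_gmin_neg (ε : ℝ) {r : ℝ} (h0 : 0 < r) :
    ∫ x in Ioo (-r) 0, gmin ε x = ∫ x in Ioo 0 r, gmin ε x := by
  rw [← integral_Ioc_eq_integral_Ioo, ← integral_Ioc_eq_integral_Ioo,
    ← intervalIntegral.integral_of_le h0.le, ← intervalIntegral.integral_of_le (by linarith)]
  have h := intervalIntegral.integral_comp_neg (a := 0) (b := r) (gmin ε)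
  simp only [gmin_even, neg_zero] at h
  exact h.symm

/-- lower bound for the constant of the mixture -/
theorem L_mix {ε L : ℝ} (h0 : 0 ≤ ε) (h1 : ε ≤ 1 / 20)
    (hL : Tendsto (fun r : ℝ => 2 * ∫ ω, (Kac764.Ninf ω {x : ℝ | 0 < |x| ∧ |x| < r} : ℝ)
        ∂(Kac764.PP (mix ε)) - (2 / Real.pi) * Real.log ((1 + r) / (1 - r))) (𝓝[<] 1) (𝓝 L)) :
    4 / Real.pi * (ε ^ 2 * (9 / 140) - 10 * ε ^ 3) ≤ L := by
  have hpi := Real.pi_pos
  have hQ : Tendsto (fun r : ℝ => 4 / Real.pi * (ε ^ 2 * QQ r - 10 * ε ^ 3 * r)) (𝓝[<] 1)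
      (𝓝 (4 / Real.pi * (ε ^ 2 * (9 / 140) - 10 * ε ^ 3))) := by
    have hc : Continuous (fun r : ℝ => 4 / Real.pi * (ε ^ 2 * QQ r - 10 * ε ^ 3 * r)) := by
      unfold QQ
      fun_prop
    have h := hc.tendsto 1
    have e : 4 / Real.pi * (ε ^ 2 * QQ 1 - 10 * ε ^ 3 * 1)
        = 4 / Real.pi * (ε ^ 2 * (9 / 140) - 10 * ε ^ 3) := by
      unfold QQ
      norm_num
    rw [e] at h
    exact h.mono_left nhdsWithin_le_nhds
  refine le_of_tendsto_of_tendsto hQ hL ?_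
  have hev : ∀ᶠ r : ℝ in 𝓝[<] 1, 0 < r ∧ r < 1 := by
    have a1 : ∀ᶠ r : ℝ in 𝓝[<] 1, r < 1 := eventually_nhdsWithin_of_forall fun r hr => hr
    have a2 : ∀ᶠ r : ℝ in 𝓝[<] 1, 0 < r :=
      eventually_nhdsWithin_of_eventually_nhds (lt_mem_nhds one_pos)
    exact a2.and a1
  filter_upwards [hev] with r hr
  have h1' : ε < 1 := by linarith
  rw [Ninf_split (mix_std h0 h1') hr.1 hr.2]
  have hA := Ninf_lower h0 h1 (a := 0) (b := r) hr.1 (by norm_num) hr.2 (by simp)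
  have hB := Ninf_lower h0 h1 (a := -r) (b := 0) (by linarith [hr.1]) (by linarith [hr.2])
    (by norm_num) (by simp)
  rw [int_gmin_neg ε hr.1] at hB
  rw [int_gmin ε hr.1 hr.2] at hA hB
  have e : 4 / Real.pi * (ε ^ 2 * QQ r - 10 * ε ^ 3 * r)
      = 2 * (2 * (1 / (2 * Real.pi) * Real.log ((1 + r) / (1 - r))
      + 1 / Real.pi * (ε ^ 2 * QQ r - 10 * ε ^ 3 * r)))
        - 2 / Real.pi * Real.log ((1 + r) / (1 - r)) := by
    field_simp
    ring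
  rw [e]
  linarith

/-- the constant of the Gaussian law -/
theorem L_gauss {L : ℝ}
    (hL : Tendsto (fun r : ℝ => 2 * ∫ ω, (Kac764.Ninf ω {x : ℝ | 0 < |x| ∧ |x| < r} : ℝ)
        ∂(Kac764.PP (mix 0)) - (2 / Real.pi) * Real.log ((1 + r) / (1 - r))) (𝓝[<] 1) (𝓝 L)) :
    L = 0 := by
  have hpi := Real.pi_pos
  refine tendsto_nhds_unique hL ?_
  refine tendsto_const_nhds.congr' ?_
  have hev : ∀ᶠ r : ℝ in 𝓝[<] 1, 0 < r ∧ r < 1 := by
    have a1 : ∀ᶠ r : ℝ in 𝓝[<] 1, r < 1 := eventually_nhdsWithin_of_forall fun r hr => hr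
    have a2 : ∀ᶠ r : ℝ in 𝓝[<] 1, 0 < r :=
      eventually_nhdsWithin_of_eventually_nhds (lt_mem_nhds one_pos)
    exact a2.and a1
  filter_upwards [hev] with r hr
  rw [Ninf_split (mix_std le_rfl one_pos) hr.1 hr.2,
    Ninf_gauss hr.1 (by norm_num) hr.2 (by simp),
    Ninf_gauss (by linarith [hr.1]) (by linarith [hr.2]) (by norm_num) (by simp)]
  have h := intervalIntegral.integral_comp_neg (a := 0) (b := r)
    (fun x : ℝ => 1 / (Real.pi * (1 - x ^ 2)))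
  simp only [neg_sq, neg_zero] at h
  rw [← h, Kac764.H2.int_rhoInf r hr.1.le hr.2]
  field_simp
  ring

end Pool.Agent.V11333.Kac
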