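import Pool.Agent.V11333.Central3

/-!
# The main terms of real zeros and poles
-/

set_option autoImplicit false

namespace Pool.Agent.V11333.Mero

open MeasureTheory Filter Topology Set
open Pool.Agent.W263.BSD

/-- `∑_{k ≥ 1} z^k / (k k!) = ∫_0^z (e^t - 1) dt / t` -/
noncomputable def EE (z : ℝ) : ℝ := ∑' k : ℕ, z ^ (k + 1) / ((k + 1) * (k + 1).factorial)

theorem EE_summable (z : ℝ) :
    Summable fun k : ℕ => z ^ (k + 1) / (((k : ℝ) + 1) * (k + 1).factorial) := by
  have h1 : Summable fun k : ℕ => |z| ^ (k + 1) / ((k + 1).factorial : ℝ) :=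
    (summable_nat_add_iff (f := fun k : ℕ => |z| ^ k / (k.factorial : ℝ)) 1).2
      (Real.summable_pow_div_factorial |z|)
  refine Summable.of_norm_bounded h1 fun k => ?_
  have h2 : (0 : ℝ) < (k + 1).factorial := by positivity
  have h3 : (1 : ℝ) ≤ (k : ℝ) + 1 := by
    have : (0 : ℝ) ≤ k := Nat.cast_nonneg k
    linarith
  rw [norm_div, norm_pow, Real.norm_eq_abs, Real.norm_of_nonneg (by positivity)]
  refine div_le_div_of_nonneg_left (by positivity) h2 ?_
  exact le_mul_of_one_le_left h2.le h3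

theorem EE_nonneg {z : ℝ} (hz : 0 ≤ z) : 0 ≤ EE z := tsum_nonneg fun k => by positivity

theorem EE_le {z : ℝ} (hz : 0 ≤ z) : EE z ≤ Real.exp z := by
  have h1 : Summable fun k : ℕ => z ^ (k + 1) / ((k + 1).factorial : ℝ) :=
    (summable_nat_add_iff (f := fun k : ℕ => z ^ k / (k.factorial : ℝ)) 1).2
      (Real.summable_pow_div_factorial z)
  have h2 : EE z ≤ ∑' k : ℕ, z ^ (k + 1) / ((k + 1).factorial : ℝ) := by
    refine (EE_summable z).tsum_le_tsum (fun k => ?_) h1
    have h2 : (0 : ℝ) < (k + 1).factorial := by positivity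
    have h3 : (1 : ℝ) ≤ (k : ℝ) + 1 := by
      have : (0 : ℝ) ≤ k := Nat.cast_nonneg k
      linarith
    refine div_le_div_of_nonneg_left (by positivity) h2 ?_
    exact le_mul_of_one_le_left h2.le h3
  have h3 := (Real.summable_pow_div_factorial z).tsum_eq_zero_add
  have h4 : Real.exp z = ∑' k : ℕ, z ^ k / (k.factorial : ℝ) := by
    rw [Real.exp_eq_exp_ℝ, NormedSpace.exp_eq_tsum_div]
  rw [h4, h3]
  simp only [pow_zero, Nat.factorial_zero, Nat.cast_one, div_one]
  linarith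

theorem EE_meas (β : ℝ) : Measurable fun u => EE (β * u) := by
  refine measurable_of_tendsto_metrizable (f := fun n u => ∑ k ∈ Finset.range n,
    (β * u) ^ (k + 1) / (((k : ℝ) + 1) * (k + 1).factorial)) (fun n => ?_) ?_
  · fun_prop
  · rw [tendsto_pi_nhds]
    intro u
    exact (EE_summable (β * u)).hasSum.tendsto_sum_nat

theorem EE_LInt {β w : ℝ} (hβ : 0 ≤ β) (hw : β < w) : LInt (fun u => EE (β * u)) w := by
  refine LInt.of_bound (EE_meas β) (ex_LInt hw) fun u hu => ?_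
  have h1 : 0 ≤ β * u := by positivity
  rw [abs_of_nonneg (EE_nonneg h1)]
  exact EE_le h1

theorem EE_lap {β w : ℝ} (hβ : 0 ≤ β) (hw : β < w) :
    w * lap (fun u => EE (β * u)) w = -Real.log (1 - β / w) := by
  have hw0 : 0 < w := by linarith
  have hx : |β / w| < 1 := by
    rw [abs_of_nonneg (by positivity), div_lt_one hw0]
    exact hw
  set F : ℕ → ℝ → ℝ := fun k u => (β ^ (k + 1) / ((k : ℝ) + 1)) * pk (k + 1) u *
    Real.exp (-(w * u)) with hF
  have hFi : ∀ k, IntegrableOn (F k) (Ioi 0) := fun k => by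
    have := (pk_LInt (k + 1) hw0).const_mul (β ^ (k + 1) / ((k : ℝ) + 1))
    exact this
  have hFv : ∀ k, ∫ u in Ioi 0, F k u = (β / w) ^ (k + 1) / ((k : ℝ) + 1) * (1 / w) := by
    intro k
    have h1 : ∫ u in Ioi 0, F k u = lap (fun u => (β ^ (k + 1) / ((k : ℝ) + 1)) * pk (k + 1) u) w := rfl
    rw [h1, lap_const_mul, pk_lap (k + 1) hw0]
    rw [div_pow]
    field_simp
    ring
  have hF0 : ∀ k, ∀ u ∈ Ioi (0 : ℝ), 0 ≤ F k u := by
    intro k u hu
    have := pk_nonneg (k + 1) (le_of_lt hu)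
    rw [hF]
    positivity
  have hsum := Real.hasSum_pow_div_log_of_abs_lt_one hx
  have hns : Summable fun k => ∫ u in Ioi 0, ‖F k u‖ := by
    have h1 : ∀ k, ∫ u in Ioi 0, ‖F k u‖ = (β / w) ^ (k + 1) / ((k : ℝ) + 1) * (1 / w) := by
      intro k
      rw [← hFv k]
      refine setIntegral_congr_fun measurableSet_Ioi fun u hu => ?_
      exact Real.norm_of_nonneg (hF0 k u hu)
    simp only [h1]
    exact hsum.summable.mul_right _
  have h2 := hasSum_integral_of_summable_integral_norm (μ := volume.restrict (Ioi 0)) hFi hns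
  simp only [hFv] at h2
  have h3 := (hsum.mul_right (1 / w)).unique h2
  have h4 : lap (fun u => EE (β * u)) w = ∫ u in Ioi 0, ∑' k, F k u := by
    unfold lap
    refine integral_congr_ae (Eventually.of_forall fun u => ?_)
    simp only
    unfold EE
    rw [← tsum_mul_right]
    refine tsum_congr fun k => ?_
    rw [hF]
    simp only [pk]
    rw [mul_pow]
    have h5 : ((k + 1).factorial : ℝ) ≠ 0 := by positivity
    have h6 : ((k : ℝ) + 1) ≠ 0 := by positivity
    field_simp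
  rw [h4, ← h3]
  field_simp

/-- the main term of a divisor -/
noncomputable def MM (T : Finset ℝ) (n : ℝ → ℤ) (u : ℝ) : ℝ := ∑ β ∈ T, n β * EE (β * u)

variable {T : Finset ℝ} {n : ℝ → ℤ} {al : ℝ}

theorem MM_meas (T : Finset ℝ) (n : ℝ → ℤ) : Measurable (MM T n) := by
  unfold MM
  exact Finset.measurable_sum _ fun β _ => (EE_meas β).const_mul _

theorem LInt_sum {ι : Type} (s : Finset ι) {f : ι → ℝ → ℝ} {w : ℝ} (h : ∀ i ∈ s, LInt (f i) w) :
    LInt (fun u => ∑ i ∈ s, f i u) w ∧ lap (fun u => ∑ i ∈ s, f i u) w = ∑ i ∈ s, lap (f i) w := by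
  classical
  induction s using Finset.induction_on with
  | empty =>
    simp only [Finset.sum_empty]
    constructor
    · unfold LInt
      simp
    · unfold lap
      simp
  | insert i s hi ih =>
    obtain ⟨h1, h2⟩ := ih fun j hj => h j (Finset.mem_insert_of_mem hj)
    have h3 := h i (Finset.mem_insert_self i s)
    simp only [Finset.sum_insert hi]
    exact ⟨h3.add h1, by rw [lap_add h3 h1, h2]⟩

theorem MM_lap (hT : ∀ β ∈ T, 0 < β) {w : ℝ} (hw : ∀ β ∈ T, β < w) :
    LInt (MM T n) w ∧ w * lap (MM T n) w = -∑ β ∈ T, (n β : ℝ) * Real.log (1 - β / w) := by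
  have h1 : ∀ β ∈ T, LInt (fun u => (n β : ℝ) * EE (β * u)) w := fun β hβ =>
    (EE_LInt (hT β hβ).le (hw β hβ)).const_mul _
  obtain ⟨h2, h3⟩ := LInt_sum T h1
  refine ⟨h2, ?_⟩
  have h4 : lap (MM T n) w = lap (fun u => ∑ β ∈ T, (n β : ℝ) * EE (β * u)) w := rfl
  rw [h4, h3, Finset.mul_sum, ← Finset.sum_neg_distrib]
  refine Finset.sum_congr rfl fun β hβ => ?_
  rw [lap_const_mul]
  have := EE_lap (hT β hβ).le (hw β hβ)
  calc w * ((n β : ℝ) * lap (fun u => EE (β * u)) w) =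
        (n β : ℝ) * (w * lap (fun u => EE (β * u)) w) := by ring
    _ = _ := by rw [this]; ring

theorem MM_bound (hT : ∀ β ∈ T, 0 < β) : ∃ K x₀ : ℝ, 0 ≤ K ∧ 0 ≤ x₀ ∧ ∀ u, 0 < u →
    |MM T n u| ≤ K * Real.exp (x₀ * u) := by
  refine ⟨∑ β ∈ T, |(n β : ℝ)|, ∑ β ∈ T, β, Finset.sum_nonneg fun β _ => abs_nonneg _,
    Finset.sum_nonneg fun β hβ => (hT β hβ).le, fun u hu => ?_⟩
  unfold MM
  refine (Finset.abs_sum_le_sum_abs _ _).trans ?_
  rw [Finset.sum_mul]
  refine Finset.sum_le_sum fun β hβ => ?_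
  have h1 : 0 ≤ β * u := by have := hT β hβ; positivity
  rw [abs_mul, abs_of_nonneg (EE_nonneg h1)]
  refine mul_le_mul_of_nonneg_left ((EE_le h1).trans (Real.exp_le_exp.mpr ?_)) (abs_nonneg _)
  refine mul_le_mul_of_nonneg_right ?_ hu.le
  exact Finset.single_le_sum (f := fun β => β) (fun b hb => (hT b hb).le) hβ

end Pool.Agent.V11333.Mero
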