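import Mathlib

open Finset

namespace Pool.Agent.V11333.Nck

variable {m k : ℕ}

/-- index set of the tensor product -/
abbrev Ix (m k : ℕ) := Fin m → Option (Fin k)

/-- the coefficient matrix acting in the `j`-th leg as `E_{0a} + E_{a0}` (times `c`) -/
noncomputable def AA (c : ℝ) (j : Fin m) (a : Fin k) (x y : Ix m k) : ℝ :=
  c * ((if x j = none ∧ y = Function.update x j (some a) then 1 else 0)
    + (if x j = some a ∧ y = Function.update x j none then 1 else 0))

lemma AA_symm (c : ℝ) (j : Fin m) (a : Fin k) (x y : Ix m k) : AA c j a x y = AA c j a y x := by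
  unfold AA
  have h1 : (x j = none ∧ y = Function.update x j (some a)) ↔
      (y j = some a ∧ x = Function.update y j none) := by
    constructor
    · rintro ⟨h, rfl⟩
      simp only [Function.update_self, Function.update_idem, true_and]
      rw [← h, Function.update_eq_self]
    · rintro ⟨h, rfl⟩
      simp only [Function.update_self, Function.update_idem, true_and]
      rw [← h, Function.update_eq_self]
  have h2 : (y j = none ∧ x = Function.update y j (some a)) ↔
      (x j = some a ∧ y = Function.update x j none) := by
    constructor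
    · rintro ⟨h, rfl⟩
      simp only [Function.update_self, Function.update_idem, true_and]
      rw [← h, Function.update_eq_self]
    · rintro ⟨h, rfl⟩
      simp only [Function.update_self, Function.update_idem, true_and]
      rw [← h, Function.update_eq_self]
  simp only [h1, h2]
  ring

lemma AA_act (c : ℝ) (j : Fin m) (a : Fin k) (x : Ix m k) (v : Ix m k → ℝ) :
    ∑ y, AA c j a x y * v y
      = c * ((if x j = none then v (Function.update x j (some a)) else 0)
        + (if x j = some a then v (Function.update x j none) else 0)) := by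
  unfold AA
  have h : ∀ y, c * ((if x j = none ∧ y = Function.update x j (some a) then 1 else 0)
      + (if x j = some a ∧ y = Function.update x j none then 1 else 0)) * v y
      = (if y = Function.update x j (some a) then c * (if x j = none then v y else 0) else 0)
      + (if y = Function.update x j none then c * (if x j = some a then v y else 0) else 0) := by
    intro y
    by_cases h1 : x j = none <;> by_cases h2 : x j = some a <;>
      by_cases h3 : y = Function.update x j (some a) <;>
      by_cases h4 : y = Function.update x j none <;> simp [h1, h2, h3, h4]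
  rw [Finset.sum_congr rfl (fun y _ => h y), Finset.sum_add_distrib, Finset.sum_ite_eq',
    Finset.sum_ite_eq']
  simp only [mem_univ, if_true]
  ring

/-- shifting the `j`-th coordinate -/
lemma shift (j : Fin m) (s t : Option (Fin k)) (f : Ix m k → ℝ) :
    ∑ x, (if x j = s then f (Function.update x j t) else 0)
      = ∑ y, (if y j = t then f y else 0) := by
  rw [← Finset.sum_filter, ← Finset.sum_filter]
  apply Finset.sum_nbij' (fun x => Function.update x j t) (fun y => Function.update y j s)
  · intro x hx; simp
  · intro y hy; simp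
  · intro x hx
    rw [mem_filter] at hx
    simp only [Function.update_idem]
    rw [← hx.2, Function.update_eq_self]
  · intro y hy
    rw [mem_filter] at hy
    simp only [Function.update_idem]
    rw [← hy.2, Function.update_eq_self]
  · intro x hx; rfl

lemma part_le (j : Fin m) (t : Option (Fin k)) (f : Ix m k → ℝ) (hf : ∀ x, 0 ≤ f x) :
    ∑ y, (if y j = t then f y else 0) ≤ ∑ y, f y := by
  apply Finset.sum_le_sum
  intro y _
  split_ifs
  · exact le_rfl
  · exact hf y

lemma part_sum (j : Fin m) (f : Ix m k → ℝ) (hf : ∀ x, 0 ≤ f x) :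
    ∑ a : Fin k, ∑ y, (if y j = some a then f y else 0) ≤ ∑ y, f y := by
  rw [Finset.sum_comm]
  apply Finset.sum_le_sum
  intro y _
  rcases hy : y j with _ | b
  · simp; exact hf y
  · simp

/-- `∑_i |A_i v|^2 ≤ 2 |v|^2` -/
lemma sum_sq (c : ℝ) (v : Ix m k → ℝ) :
    ∑ j : Fin m, ∑ a : Fin k, ∑ x, (∑ y, AA c j a x y * v y) ^ 2
      ≤ c ^ 2 * m * (1 + k) * ∑ x, v x ^ 2 := by
  have h1 : ∀ (j : Fin m) (a : Fin k), ∑ x, (∑ y, AA c j a x y * v y) ^ 2
      ≤ c ^ 2 * (∑ y, (if y j = some a then v y ^ 2 else 0) + ∑ y, v y ^ 2) := by
    intro j a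
    have h2 : ∀ x : Ix m k, (∑ y, AA c j a x y * v y) ^ 2
        = c ^ 2 * ((if x j = none then v (Function.update x j (some a)) ^ 2 else 0)
          + (if x j = some a then v (Function.update x j none) ^ 2 else 0)) := by
      intro x
      rw [AA_act]
      by_cases h1 : x j = none
      · simp [h1]; ring
      · by_cases h2 : x j = some a
        · simp [h2]; ring
        · simp [h1, h2]
    rw [Finset.sum_congr rfl (fun x _ => h2 x), ← Finset.mul_sum, Finset.sum_add_distrib,
      shift j none (some a) (fun y => v y ^ 2), shift j (some a) none (fun y => v y ^ 2)]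
    apply mul_le_mul_of_nonneg_left _ (sq_nonneg c)
    exact add_le_add le_rfl (part_le j none _ (fun x => sq_nonneg _))
  calc ∑ j : Fin m, ∑ a : Fin k, ∑ x, (∑ y, AA c j a x y * v y) ^ 2
      ≤ ∑ j : Fin m, ∑ a : Fin k,
        c ^ 2 * (∑ y, (if y j = some a then v y ^ 2 else 0) + ∑ y, v y ^ 2) :=
        Finset.sum_le_sum (fun j _ => Finset.sum_le_sum (fun a _ => h1 j a))
    _ ≤ ∑ j : Fin m, c ^ 2 * (∑ y, v y ^ 2 + k * ∑ y, v y ^ 2) := by
        apply Finset.sum_le_sum
        intro j _
        rw [← Finset.mul_sum, Finset.sum_add_distrib]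
        apply mul_le_mul_of_nonneg_left _ (sq_nonneg c)
        simp only [sum_const, card_univ, Fintype.card_fin, nsmul_eq_mul]
        exact add_le_add (part_sum j _ (fun x => sq_nonneg _)) le_rfl
    _ = c ^ 2 * m * (1 + k) * ∑ x, v x ^ 2 := by
        simp only [sum_const, card_univ, Fintype.card_fin, nsmul_eq_mul]
        ring

/-- weak variance bound -/
lemma weak (c : ℝ) (v w : Ix m k → ℝ) (hv : ∑ x, v x ^ 2 = 1) (hw : ∑ x, w x ^ 2 = 1) :
    ∑ j : Fin m, ∑ a : Fin k, (∑ x, w x * ∑ y, AA c j a x y * v y) ^ 2 ≤ 4 * c ^ 2 * m := by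
  have h1 : ∀ (j : Fin m) (a : Fin k), (∑ x, w x * ∑ y, AA c j a x y * v y) ^ 2
      ≤ 2 * c ^ 2 * (∑ y, (if y j = some a then v y ^ 2 else 0)
        + ∑ y, (if y j = some a then w y ^ 2 else 0)) := by
    intro j a
    set Pp := ∑ x, (if x j = none then w x else 0) *
      (if x j = none then v (Function.update x j (some a)) else 0) with hP
    set Zz := ∑ x, (if x j = some a then w x else 0) *
      (if x j = some a then v (Function.update x j none) else 0) with hQ
    have h2 : ∑ x, w x * ∑ y, AA c j a x y * v y = c * (Pp + Zz) := by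
      rw [hP, hQ, ← Finset.sum_add_distrib, Finset.mul_sum]
      apply Finset.sum_congr rfl
      intro x _
      rw [AA_act]
      by_cases h1 : x j = none
      · simp [h1]; ring
      · by_cases h2 : x j = some a
        · simp [h2]; ring
        · simp [h1, h2]
    have hPsq : Pp ^ 2 ≤ ∑ y, (if y j = some a then v y ^ 2 else 0) := by
      have hcs := Finset.sum_mul_sq_le_sq_mul_sq (univ : Finset (Ix m k))
        (fun x => if x j = none then w x else 0)
        (fun x => if x j = none then v (Function.update x j (some a)) else 0)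
      have e1 : ∑ x : Ix m k, (if x j = none then w x else 0) ^ 2 ≤ 1 := by
        rw [← hw]
        apply Finset.sum_le_sum
        intro x _
        split_ifs
        · exact le_rfl
        · simp; positivity
      have e2 : ∑ x : Ix m k, (if x j = none then v (Function.update x j (some a)) else 0) ^ 2
          = ∑ y, (if y j = some a then v y ^ 2 else 0) := by
        rw [← shift j none (some a) (fun y => v y ^ 2)]
        apply Finset.sum_congr rfl
        intro x _
        split_ifs <;> simp
      rw [e2] at hcs
      have e3 : 0 ≤ ∑ y : Ix m k, (if y j = some a then v y ^ 2 else 0) :=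
        Finset.sum_nonneg (fun y _ => by split_ifs <;> positivity)
      calc Pp ^ 2 ≤ _ := hcs
        _ ≤ 1 * _ := mul_le_mul_of_nonneg_right e1 e3
        _ = _ := one_mul _
    have hZsq : Zz ^ 2 ≤ ∑ y, (if y j = some a then w y ^ 2 else 0) := by
      have hcs := Finset.sum_mul_sq_le_sq_mul_sq (univ : Finset (Ix m k))
        (fun x => if x j = some a then w x else 0)
        (fun x => if x j = some a then v (Function.update x j none) else 0)
      have e1 : ∑ x : Ix m k, (if x j = some a then v (Function.update x j none) else 0) ^ 2 ≤ 1 := by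
        have : ∑ x : Ix m k, (if x j = some a then v (Function.update x j none) else 0) ^ 2
            = ∑ y : Ix m k, (if y j = none then v y ^ 2 else 0) := by
          rw [← shift j (some a) none (fun y => v y ^ 2)]
          apply Finset.sum_congr rfl
          intro x _
          split_ifs <;> simp
        rw [this, ← hv]
        exact part_le j none _ (fun x => sq_nonneg _)
      have e2 : ∑ x : Ix m k, (if x j = some a then w x else 0) ^ 2
          = ∑ y, (if y j = some a then w y ^ 2 else 0) := by
        apply Finset.sum_congr rfl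
        intro x _
        split_ifs <;> simp
      rw [e2] at hcs
      have e3 : 0 ≤ ∑ y : Ix m k, (if y j = some a then w y ^ 2 else 0) :=
        Finset.sum_nonneg (fun y _ => by split_ifs <;> positivity)
      calc Zz ^ 2 ≤ _ := hcs
        _ ≤ _ * 1 := mul_le_mul_of_nonneg_left e1 e3
        _ = _ := mul_one _
    rw [h2]
    have h3 : (Pp + Zz) ^ 2 ≤ 2 * (Pp ^ 2 + Zz ^ 2) := by nlinarith [sq_nonneg (Pp - Zz)]
    have hc := sq_nonneg c
    calc (c * (Pp + Zz)) ^ 2 = c ^ 2 * (Pp + Zz) ^ 2 := by ring
      _ ≤ c ^ 2 * (2 * (Pp ^ 2 + Zz ^ 2)) := mul_le_mul_of_nonneg_left h3 hc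
      _ ≤ c ^ 2 * (2 * (∑ y, (if y j = some a then v y ^ 2 else 0)
          + ∑ y, (if y j = some a then w y ^ 2 else 0))) := by
          apply mul_le_mul_of_nonneg_left _ hc
          linarith
      _ = _ := by ring
  calc ∑ j : Fin m, ∑ a : Fin k, (∑ x, w x * ∑ y, AA c j a x y * v y) ^ 2
      ≤ ∑ j : Fin m, ∑ a : Fin k, 2 * c ^ 2 * (∑ y, (if y j = some a then v y ^ 2 else 0)
        + ∑ y, (if y j = some a then w y ^ 2 else 0)) :=
        Finset.sum_le_sum (fun j _ => Finset.sum_le_sum (fun a _ => h1 j a))
    _ ≤ ∑ j : Fin m, 2 * c ^ 2 * (1 + 1) := by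
        apply Finset.sum_le_sum
        intro j _
        rw [← Finset.mul_sum, Finset.sum_add_distrib]
        apply mul_le_mul_of_nonneg_left _ (by positivity)
        have a1 := part_sum j (fun y => v y ^ 2) (fun x => sq_nonneg _)
        have a2 := part_sum j (fun y => w y ^ 2) (fun x => sq_nonneg _)
        rw [hv] at a1
        rw [hw] at a2
        exact add_le_add a1 a2
    _ = 4 * c ^ 2 * m := by
        simp only [sum_const, card_univ, Fintype.card_fin, nsmul_eq_mul]
        ring

/-- product vectors -/
noncomputable def pv (u : Fin m → Option (Fin k) → ℝ) (x : Ix m k) : ℝ := ∏ i, u i (x i)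

lemma pv_norm (u : Fin m → Option (Fin k) → ℝ) (hu : ∀ i, ∑ t, u i t ^ 2 = 1) :
    ∑ x, pv u x ^ 2 = 1 := by
  unfold pv
  have h1 : ∀ x : Ix m k, (∏ i, u i (x i)) ^ 2 = ∏ i, (u i (x i)) ^ 2 := by
    intro x; rw [Finset.prod_pow]
  simp_rw [h1]
  have h2 := Finset.prod_univ_sum (fun _ : Fin m => (univ : Finset (Option (Fin k))))
    (fun i t => u i t ^ 2)
  rw [Fintype.piFinset_univ] at h2
  rw [← h2]
  exact Finset.prod_eq_one (fun i _ => hu i)

lemma pv_pair (u : Fin m → Option (Fin k) → ℝ) (hu : ∀ i, ∑ t, u i t ^ 2 = 1) (j : Fin m)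
    (s t : Option (Fin k)) :
    ∑ x, (if x j = s then pv u x * pv u (Function.update x j t) else 0) = u j s * u j t := by
  have h1 : ∀ x : Ix m k, (if x j = s then pv u x * pv u (Function.update x j t) else 0)
      = ∏ i, (if i = j then (if x i = s then u j s * u j t else 0) else u i (x i) ^ 2) := by
    intro x
    by_cases hx : x j = s
    · rw [if_pos hx]
      unfold pv
      rw [← Finset.prod_mul_distrib]
      apply Finset.prod_congr rfl
      intro i _
      by_cases hi : i = j
      · subst hi
        simp [hx]
      · rw [if_neg hi, Function.update_of_ne hi]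
        ring
    · rw [if_neg hx]
      symm
      apply Finset.prod_eq_zero (mem_univ j)
      simp [hx]
  simp_rw [h1]
  have h2 := Finset.prod_univ_sum (fun _ : Fin m => (univ : Finset (Option (Fin k))))
    (fun i r => (if i = j then (if r = s then u j s * u j t else 0) else u i r ^ 2))
  rw [Fintype.piFinset_univ] at h2
  rw [← h2, Finset.prod_eq_single j]
  · simp
  · intro i _ hi
    simp only [hi, if_false]
    exact hu i
  · intro h; exact absurd (mem_univ j) h

lemma pv_form (u : Fin m → Option (Fin k) → ℝ) (hu : ∀ i, ∑ t, u i t ^ 2 = 1) (c : ℝ)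
    (j : Fin m) (a : Fin k) :
    ∑ x, pv u x * ∑ y, AA c j a x y * pv u y = 2 * c * (u j none * u j (some a)) := by
  have h1 : ∀ x : Ix m k, pv u x * ∑ y, AA c j a x y * pv u y
      = c * (if x j = none then pv u x * pv u (Function.update x j (some a)) else 0)
        + c * (if x j = some a then pv u x * pv u (Function.update x j none) else 0) := by
    intro x
    rw [AA_act]
    by_cases h1 : x j = none
    · simp [h1]; ring
    · by_cases h2 : x j = some a
      · simp [h2]; ring
      · simp [h1, h2]
  rw [Finset.sum_congr rfl (fun x _ => h1 x), Finset.sum_add_distrib, ← Finset.mul_sum,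
    ← Finset.mul_sum, pv_pair u hu, pv_pair u hu]
  ring

end Pool.Agent.V11333.Nck
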