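import Pool.Agent.W263.BSD.Lap

/-!
# One-sided Landau argument with an analytic continuation along the real axis only
-/

set_option autoImplicit false

namespace Pool.Agent.V11333.OneSide

open MeasureTheory ProbabilityTheory Filter Topology Set
open Pool.Agent.W263.BSD (LInt lap lapC landau dens dens_pos mem_integrableExpSet_dens mgf_dens
  lapC_ofReal lap_sub lap_nonneg lapC_differentiableAt)

/-- `Φ = exp (G - w lap a)` for large real `w`; `Φ` is analytic at all real points `> al`. -/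
structure DataLoc (al : ℝ) (a : ℝ → ℝ) (Φ G : ℂ → ℂ) (c0 : ℝ) : Prop where
  al_nonneg : 0 ≤ al
  meas : Measurable a
  c0_nonneg : 0 ≤ c0
  int : ∀ w > c0, LInt a w
  hΦ : ∀ w : ℝ, al < w → AnalyticAt ℂ Φ w
  hG : ∀ z : ℂ, 0 < z.re → DifferentiableAt ℂ G z
  eq : ∀ w : ℝ, c0 < w → Φ w = Complex.exp (G w - w * lapC a w)

variable {al : ℝ} {a : ℝ → ℝ} {Φ G : ℂ → ℂ} {c0 : ℝ}

theorem half_open (s : ℝ) : IsOpen {z : ℂ | s < z.re} :=
  isOpen_lt continuous_const Complex.continuous_re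

/-- differentiable in a half plane implies analytic -/
theorem an_of_half {f : ℂ → ℂ} {s : ℝ} (h : ∀ z : ℂ, s < z.re → DifferentiableAt ℂ f z) {z : ℂ}
    (hz : s < z.re) : AnalyticAt ℂ f z :=
  DifferentiableOn.analyticAt (s := {z : ℂ | s < z.re})
    (fun w hw => (h w hw).differentiableWithinAt) ((half_open s).mem_nhds hz)

/-- the restriction to the real axis of a function analytic at a real point -/
theorem an_ofReal {f : ℂ → ℂ} {w : ℝ} (h : AnalyticAt ℂ f (w : ℂ)) :
    AnalyticAt ℝ (fun t : ℝ => f (t : ℂ)) w := by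
  have h1 : AnalyticAt ℝ (fun t : ℝ => (t : ℂ)) w := Complex.ofRealCLM.analyticAt w
  exact AnalyticAt.comp (g := f) (f := fun t : ℝ => (t : ℂ)) (h.restrictScalars (𝕜 := ℝ)) h1

theorem DataLoc.eq_of_conv (D : DataLoc al a Φ G c0) {s : ℝ} (hs' : al ≤ s)
    (h : ∀ w > s, LInt a w) :
    ∀ w : ℝ, s < w → Φ w = Complex.exp (G w - w * lapC a w) := by
  have hs : 0 ≤ s := D.al_nonneg.trans hs'
  have h1 : AnalyticOnNhd ℝ (fun w : ℝ => Φ (w : ℂ)) (Ioi s) := fun w hw =>
    an_ofReal (D.hΦ w (hs'.trans_lt hw))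
  have h2 : AnalyticOnNhd ℝ (fun w : ℝ => Complex.exp (G w - w * lapC a w)) (Ioi s) := by
    intro w hw
    have e : AnalyticAt ℂ (fun z : ℂ => Complex.exp (G z - z * lapC a z)) (w : ℂ) := by
      refine an_of_half (s := s) (fun z hz => ?_) (by simpa using hw)
      exact ((D.hG z (by linarith)).sub (differentiableAt_id.mul
        (lapC_differentiableAt D.meas h hz))).cexp
    exact an_ofReal e
  have hm : max s c0 + 1 ∈ Ioi s := by
    have := le_max_left s c0
    rw [mem_Ioi]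
    linarith
  have h3 := h1.eqOn_of_preconnected_of_eventuallyEq h2 isPreconnected_Ioi hm (by
    have hc : c0 < max s c0 + 1 := by
      have := le_max_right s c0
      linarith
    filter_upwards [lt_mem_nhds hc] with w hw
    exact D.eq w hw)
  exact fun w hw => h3 hw

theorem DataLoc.norm_eq (D : DataLoc al a Φ G c0) {s : ℝ} (hs : al ≤ s) (h : ∀ w > s, LInt a w)
    {w : ℝ} (hw : s < w) : ‖Φ w‖ = Real.exp ((G w).re - w * lap a w) := by
  rw [D.eq_of_conv hs h w hw, Complex.norm_exp, Complex.sub_re, lapC_ofReal, ← Complex.ofReal_mul,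
    Complex.ofReal_re]

/-- **Upper bounds continue the Laplace transform**, if the function is analytic along the real axis. -/
theorem DataLoc.core_upper (D : DataLoc al a Φ G c0) {w0 : ℝ} (hw0' : al ≤ w0) {κ : ℝ → ℝ}
    (hκ : Measurable κ) (hκi : ∀ w > w0, LInt κ w) (hb : ∀ u, 0 < u → a u ≤ κ u) :
    ∀ w > w0, LInt a w := by
  have hw0 : 0 ≤ w0 := D.al_nonneg.trans hw0'
  set T : Set ℝ := {w | w0 ≤ w ∧ ∀ w' > w, LInt a w'} with hT
  have hTne : T.Nonempty := ⟨max w0 c0, le_max_left _ _, fun w' hw' =>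
    D.int w' (lt_of_le_of_lt (le_max_right _ _) hw')⟩
  have hTb : BddBelow T := ⟨w0, fun w hw => hw.1⟩
  set s := sInf T with hs
  have hs0 : w0 ≤ s := le_csInf hTne fun w hw => hw.1
  have hconv : ∀ w > s, LInt a w := by
    intro w hw
    obtain ⟨t, ht, htw⟩ := exists_lt_of_csInf_lt hTne hw
    exact ht.2 w htw
  rcases hs0.eq_or_lt with h0 | h0
  · rw [h0]; exact hconv
  exfalso
  have hspos : 0 < s := by linarith
  -- `Φ s ≠ 0`
  have hΦs : Φ s ≠ 0 := by
    intro hz
    have hcont : Tendsto (fun w : ℝ => ‖Φ w‖) (𝓝[>] s) (𝓝 ‖Φ s‖) := by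
      have h1 : ContinuousAt (fun w : ℝ => Φ (w : ℂ)) s := (an_ofReal (D.hΦ s (by linarith))).continuousAt
      exact h1.norm.tendsto.mono_left nhdsWithin_le_nhds
    have hlow : ContinuousAt (fun w : ℝ => Real.exp ((G w - w * lapC κ w).re)) s := by
      have h1 : AnalyticAt ℂ (fun z : ℂ => G z - z * lapC κ z) (s : ℂ) := by
        refine an_of_half (s := w0) (fun z hz => ?_) (by simpa using h0)
        exact (D.hG z (by linarith)).sub (differentiableAt_id.mul
          (lapC_differentiableAt hκ hκi hz))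
      have h2 : ContinuousAt (fun w : ℝ => G w - w * lapC κ w) s := (an_ofReal h1).continuousAt
      exact (Complex.continuous_re.continuousAt.comp h2).rexp
    have hlow' := hlow.tendsto.mono_left (nhdsWithin_le_nhds (s := Ioi s))
    have hle : Real.exp ((G s - s * lapC κ s).re) ≤ ‖Φ s‖ := by
      refine le_of_tendsto_of_tendsto hlow' hcont ?_
      filter_upwards [self_mem_nhdsWithin] with w hw
      have hw' : s < w := hw
      rw [D.norm_eq (by linarith) hconv hw', lapC_ofReal, Complex.sub_re, ← Complex.ofReal_mul,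
        Complex.ofReal_re]
      apply Real.exp_le_exp.mpr
      have h1 : lap a w ≤ lap κ w := by
        have := lap_nonneg (f := fun u => κ u - a u) (fun u hu => by have := hb u hu; linarith) w
        rw [lap_sub (hκi w (by linarith)) (hconv w hw')] at this
        linarith
      have := mul_le_mul_of_nonneg_left h1 (by linarith : 0 ≤ w)
      linarith
    rw [hz, norm_zero] at hle
    exact absurd hle (not_le.mpr (Real.exp_pos _))
  set b : ℝ → ℝ := fun u => κ u - a u with hbdef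
  have hbm : Measurable b := hκ.sub D.meas
  have hb0 : ∀ u, 0 < u → 0 ≤ b u := fun u hu => by
    have := hb u hu
    rw [hbdef]
    simp only
    linarith
  have hbi : ∀ w > s, LInt b w := fun w hw => (hκi w (by linarith)).sub (hconv w hw)
  -- the real analytic continuation
  have hneg : AnalyticAt ℂ (fun z : ℂ => -z) ((-s : ℝ) : ℂ) := analyticAt_id.neg
  have hns : -(((-s : ℝ)) : ℂ) = (s : ℂ) := by push_cast; ring
  have a1 : AnalyticAt ℂ (fun z : ℂ => lapC κ (-z)) ((-s : ℝ) : ℂ) := by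
    have : AnalyticAt ℂ (lapC κ) (-((-s : ℝ) : ℂ)) := by
      rw [hns]
      exact an_of_half (s := w0) (fun z hz => lapC_differentiableAt hκ hκi hz) (by simpa using h0)
    exact AnalyticAt.comp (g := lapC κ) (f := fun z : ℂ => -z) this hneg
  have a2 : AnalyticAt ℂ (fun z : ℂ => G (-z)) ((-s : ℝ) : ℂ) := by
    have : AnalyticAt ℂ G (-((-s : ℝ) : ℂ)) := by
      rw [hns]
      exact an_of_half (s := 0) (fun z hz => D.hG z hz) (by simpa using hspos)
    exact AnalyticAt.comp (g := G) (f := fun z : ℂ => -z) this hneg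
  have a3 : AnalyticAt ℂ (fun z : ℂ => Φ (-z)) ((-s : ℝ) : ℂ) := by
    have : AnalyticAt ℂ Φ (-((-s : ℝ) : ℂ)) := by
      rw [hns]
      exact D.hΦ s (by linarith)
    exact AnalyticAt.comp (g := Φ) (f := fun z : ℂ => -z) this hneg
  set gr : ℝ → ℝ := fun t => (lapC κ (-(t : ℂ))).re -
    ((G (-(t : ℂ))).re - Real.log ((Φ (-(t : ℂ))).re ^ 2 + (Φ (-(t : ℂ))).im ^ 2) / 2) / (-t)
    with hgr
  have hgra : AnalyticAt ℝ gr (-s) := by
    have r1 : AnalyticAt ℝ (fun t : ℝ => (lapC κ (-(t : ℂ))).re) (-s) := a1.re_ofReal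
    have r2 : AnalyticAt ℝ (fun t : ℝ => (G (-(t : ℂ))).re) (-s) := a2.re_ofReal
    have r3 : AnalyticAt ℝ (fun t : ℝ => (Φ (-(t : ℂ))).re) (-s) := a3.re_ofReal
    have r4 : AnalyticAt ℝ (fun t : ℝ => (Φ (-(t : ℂ))).im) (-s) := a3.im_ofReal
    have r5 : AnalyticAt ℝ (fun t : ℝ => (Φ (-(t : ℂ))).re ^ 2 + (Φ (-(t : ℂ))).im ^ 2) (-s) :=
      (r3.pow 2).add (r4.pow 2)
    have r6 : 0 < (Φ (-((-s : ℝ) : ℂ))).re ^ 2 + (Φ (-((-s : ℝ) : ℂ))).im ^ 2 := by
      rw [hns]
      have h1 : 0 < Complex.normSq (Φ s) := Complex.normSq_pos.2 hΦs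
      rw [Complex.normSq_apply] at h1
      nlinarith
    have r7 : AnalyticAt ℝ (fun t : ℝ =>
        Real.log ((Φ (-(t : ℂ))).re ^ 2 + (Φ (-(t : ℂ))).im ^ 2)) (-s) := r5.log r6
    have r8 : AnalyticAt ℝ (fun t : ℝ => -t) (-s) := analyticAt_id.neg
    have r9 : -(-s) ≠ 0 := by rw [neg_neg]; exact hspos.ne'
    exact r1.sub ((r2.sub (r7.div analyticAt_const (by norm_num))).div r8 r9)
  obtain ⟨t, hts, ht⟩ := landau (X := id) (μ := dens b) (dens_pos b hbm) hgra
    (fun t ht => (mem_integrableExpSet_dens hbm hb0 t).mpr (hbi (-t) (by linarith))) (by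
      filter_upwards [self_mem_nhdsWithin] with t ht
      have ht' : t < -s := ht
      have hw : s < -t := by linarith
      rw [mgf_dens hbm hb0, hbdef, lap_sub (hκi _ (by linarith)) (hconv _ hw)]
      have e : -(t : ℂ) = ((-t : ℝ) : ℂ) := by push_cast; ring
      rw [hgr]
      simp only
      rw [e]
      have h1 := D.norm_eq (by linarith) hconv hw
      have h2 : (Φ ((-t : ℝ) : ℂ)).re ^ 2 + (Φ ((-t : ℝ) : ℂ)).im ^ 2 = ‖Φ ((-t : ℝ) : ℂ)‖ ^ 2 := by
        rw [← Complex.normSq_eq_norm_sq, Complex.normSq_apply]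
        ring
      rw [h2, h1, ← Real.exp_nat_mul, Real.log_exp, lapC_ofReal, Complex.ofReal_re]
      have h3 : (-t : ℝ) ≠ 0 := by linarith
      have h4 : (G ((-t : ℝ) : ℂ)).re - ((2 : ℕ) : ℝ) *
          ((G ((-t : ℝ) : ℂ)).re - -t * lap a (-t)) / 2 = -t * lap a (-t) := by
        push_cast
        ring
      rw [h4, mul_div_cancel_left₀ _ h3])
  -- contradiction
  have ht1 : LInt b (-t) := (mem_integrableExpSet_dens hbm hb0 t).mp ht
  set t' : ℝ := max (-t) ((w0 + s) / 2) with ht'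
  have h5 : t' < s := max_lt (by linarith) (by linarith)
  have h6 : t' ∈ T := by
    refine ⟨le_trans (by linarith) (le_max_right _ _), fun w' hw' => ?_⟩
    have h7 : LInt b w' := ht1.mono hbm (le_trans (le_max_left _ _) hw'.le)
    have h8 : LInt κ w' := hκi w' (lt_of_lt_of_le (by linarith) (le_trans (le_max_right _ _) hw'.le))
    have h9 := h8.sub h7
    have h10 : (fun u => κ u - b u) = a := by
      funext u
      rw [hbdef]
      simp only
      ring
    rwa [h10] at h9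
  have := csInf_le hTb h6
  linarith

/-- the bounds `exp ((al + ε) u)` for all `ε > 0` -/
theorem conv_exp {al K x₀ : ℝ} (hal : 0 ≤ al) (hK : 0 ≤ K) (hx₀ : 0 ≤ x₀) {a : ℝ → ℝ}
    (hloc : ∀ u, 0 < u → a u ≤ K * Real.exp (x₀ * u))
    (h : ∀ ε : ℝ, 0 < ε → ∃ C y₀ : ℝ, ∀ y, y₀ ≤ y → a y ≤ C * Real.exp ((al + ε) * y))
    {w : ℝ} (hw : al < w) :
    ∃ A : ℝ, 0 ≤ A ∧ (∀ u, 0 < u → a u ≤ A * Real.exp ((al + w) / 2 * u)) ∧
      ∀ w' > (al + w) / 2, LInt (fun u => A * Real.exp ((al + w) / 2 * u)) w' := by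
  obtain ⟨C, y₀, hC⟩ := h ((w - al) / 2) (by linarith)
  have e0 : al + (w - al) / 2 = (al + w) / 2 := by ring
  rw [e0] at hC
  set A : ℝ := |C| + K * Real.exp (x₀ * |y₀|) with hA
  have hA0 : 0 ≤ A := by positivity
  refine ⟨A, hA0, fun u hu => ?_, fun w' hw' => ?_⟩
  · have e1 : 1 ≤ Real.exp ((al + w) / 2 * u) := by
      refine Real.one_le_exp (mul_nonneg ?_ hu.le)
      linarith
    rcases le_total y₀ u with h1 | h1
    · refine (hC u h1).trans ?_
      refine mul_le_mul_of_nonneg_right ?_ (Real.exp_pos _).le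
      have h2 := le_abs_self C
      have h3 : 0 ≤ K * Real.exp (x₀ * |y₀|) := by positivity
      linarith
    · refine (hloc u hu).trans ?_
      have h2 : K * Real.exp (x₀ * u) ≤ K * Real.exp (x₀ * |y₀|) := by
        refine mul_le_mul_of_nonneg_left (Real.exp_le_exp.2 ?_) hK
        exact mul_le_mul_of_nonneg_left (h1.trans (le_abs_self y₀)) hx₀
      have h3 : K * Real.exp (x₀ * |y₀|) ≤ A := by
        rw [hA]
        have := abs_nonneg C
        linarith
      exact (h2.trans h3).trans (le_mul_of_one_le_right hA0 e1)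
  · unfold LInt
    have h1 := integrableOn_exp_mul_Ioi (a := (al + w) / 2 - w') (by linarith) 0
    have h2 : IntegrableOn (fun x : ℝ => A * Real.exp (((al + w) / 2 - w') * x)) (Ioi 0) :=
      Integrable.const_mul h1 A
    refine h2.congr_fun (fun u _ => ?_) measurableSet_Ioi
    simp only
    rw [mul_assoc, ← Real.exp_add]
    congr 2
    ring

theorem DataLoc.conv (D : DataLoc al a Φ G c0) {K x₀ : ℝ} (hK : 0 ≤ K) (hx₀ : 0 ≤ x₀)
    (hloc : ∀ u, 0 < u → a u ≤ K * Real.exp (x₀ * u))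
    (h : ∀ ε : ℝ, 0 < ε → ∃ C y₀ : ℝ, ∀ y, y₀ ≤ y → a y ≤ C * Real.exp ((al + ε) * y)) :
    ∀ w : ℝ, al < w → LInt a w := by
  intro w hw
  obtain ⟨A, hA0, h1, h2⟩ := conv_exp D.al_nonneg hK hx₀ hloc h hw
  exact D.core_upper (w0 := (al + w) / 2) (by linarith)
    (κ := fun u => A * Real.exp ((al + w) / 2 * u)) (by fun_prop) h2 h1 w (by linarith)

end Pool.Agent.V11333.OneSide
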