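import Pool.Agent.V11333.OneSide3

/-!
# The partial products themselves
-/

set_option autoImplicit false

open Filter Topology Set Complex MeasureTheory
open Pool.Agent.TH942.ES
open Pool.Agent.W263.BSD (LInt lap lapC lapC_differentiableAt)

namespace Pool.Agent.V11333.OneSide

variable {X : Type} {d : ℕ} {N : X → ℕ} {α : X → Fin d → ℂ} {e : X → ℕ}

/-- the logarithm of the partial product at the centre -/
noncomputable def SP (N : X → ℕ) (α : X → Fin d → ℂ) (x : ℝ) : ℝ :=
  ∑ᶠ (v : X) (_ : (N v : ℝ) ≤ x), cv N α v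

/-- partial sums over `N v ≤ x` -/
noncomputable def PS (N : X → ℕ) (c : X → ℝ) (x : ℝ) : ℝ :=
  ∑' v, if (N v : ℝ) ≤ x then c v else 0

theorem PS_eq (E : Sys N α) (c : X → ℝ) (x : ℝ) :
    PS N c x = ∑ v ∈ (E.fin_le x).toFinset, c v := by
  unfold PS
  rw [tsum_eq_sum (s := (E.fin_le x).toFinset)]
  · refine Finset.sum_congr rfl fun v hv => ?_
    have : (N v : ℝ) ≤ x := by simpa using hv
    rw [if_pos this]
  · intro v hv
    have : ¬ (N v : ℝ) ≤ x := by simpa using hv
    rw [if_neg this]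

theorem SP_eq (E : Sys N α) (x : ℝ) : SP N α x = PS N (cv N α) x := by
  rw [PS_eq E]
  unfold SP
  exact finsum_mem_eq_finite_toFinset_sum (cv N α) (E.fin_le x)

theorem PS_mono (E : Sys N α) {c : X → ℝ} (hc : ∀ v, 0 ≤ c v) : Monotone (PS N c) := by
  intro x y hxy
  rw [PS_eq E, PS_eq E]
  refine Finset.sum_le_sum_of_subset_of_nonneg (fun v hv => ?_) fun v _ _ => hc v
  simp only [Set.Finite.mem_toFinset, Set.mem_ofPred_eq] at hv ⊢
  exact hv.trans hxy

theorem PS_abs (E : Sys N α) (c : X → ℝ) (x : ℝ) : |PS N c x| ≤ PS N (fun v => |c v|) x := by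
  rw [PS_eq E, PS_eq E]
  exact Finset.abs_sum_le_sum_abs _ _

/-- the exponent `3/4`: absolute convergence -/
theorem abs_summable (E : Sys N α) {σ : ℝ} (hσ : 1 / 2 < σ) :
    Summable fun v => |cv N α v| * Real.exp (-(σ * Real.log (N v))) := by
  refine Summable.of_nonneg_of_le (fun v => by positivity) (fun v => ?_)
    ((E.sum (1 / 2 + σ) (by linarith)).mul_left (4 * (d : ℝ)))
  have h1 : Real.exp (-(σ * Real.log (N v))) = (N v : ℝ) ^ (-σ) := by
    rw [Real.rpow_def_of_pos (E.Npos v)]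
    congr 1
    ring
  rw [h1]
  calc |cv N α v| * (N v : ℝ) ^ (-σ) ≤
        (4 * d * (N v : ℝ) ^ (-(1 / 2 : ℝ))) * (N v : ℝ) ^ (-σ) :=
        mul_le_mul_of_nonneg_right (E.cv_abs v) (by positivity)
    _ = _ := by
      rw [mul_assoc, ← Real.rpow_add (E.Npos v)]
      congr 2
      ring

theorem PS_bound (E : Sys N α) {σ : ℝ} (hσ : 1 / 2 < σ) : ∃ K : ℝ, 0 ≤ K ∧ ∀ t : ℝ,
    PS N (fun v => |cv N α v|) (Real.exp t) ≤ K * Real.exp (σ * t) := by
  have hs := abs_summable E hσ
  refine ⟨∑' v, |cv N α v| * Real.exp (-(σ * Real.log (N v))),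
    tsum_nonneg fun v => by positivity, fun t => ?_⟩
  rw [PS_eq E]
  have h1 : ∑ v ∈ (E.fin_le (Real.exp t)).toFinset, |cv N α v| * Real.exp (-(σ * Real.log (N v))) ≤
      ∑' v, |cv N α v| * Real.exp (-(σ * Real.log (N v))) :=
    hs.sum_le_tsum _ fun v _ => by positivity
  refine le_trans ?_ (mul_le_mul_of_nonneg_right h1 (Real.exp_pos _).le)
  rw [Finset.sum_mul]
  refine Finset.sum_le_sum fun v hv => ?_
  have hv' : (N v : ℝ) ≤ Real.exp t := by simpa using hv
  have h2 : Real.log (N v) ≤ t := by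
    have := Real.log_le_log (E.Npos v) hv'
    rwa [Real.log_exp] at this
  rw [mul_assoc, ← Real.exp_add]
  refine le_mul_of_one_le_right (abs_nonneg _) (Real.one_le_exp ?_)
  have : σ * Real.log (N v) ≤ σ * t := mul_le_mul_of_nonneg_left h2 (by linarith)
  linarith

/-- the step function -/
noncomputable def st (N : X → ℕ) (α : X → Fin d → ℂ) (t : ℝ) : ℝ := SP N α (Real.exp t)

theorem st_meas (E : Sys N α) : Measurable (st N α) := by
  have h1 : st N α = fun t => PS N (fun v => max (cv N α v) 0) (Real.exp t) -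
      PS N (fun v => max (-cv N α v) 0) (Real.exp t) := by
    funext t
    unfold st
    rw [SP_eq E, PS_eq E, PS_eq E, PS_eq E, ← Finset.sum_sub_distrib]
    refine Finset.sum_congr rfl fun v _ => ?_
    rcases le_total (cv N α v) 0 with h | h
    · rw [max_eq_right h, max_eq_left (by linarith)]; ring
    · rw [max_eq_left h, max_eq_right (by linarith)]; ring
  rw [h1]
  exact ((PS_mono E fun v => le_max_right _ _).comp Real.exp_strictMono.monotone).measurable.sub
    ((PS_mono E fun v => le_max_right _ _).comp Real.exp_strictMono.monotone).measurable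

theorem st_bound (E : Sys N α) {σ : ℝ} (hσ : 1 / 2 < σ) : ∃ K : ℝ, 0 ≤ K ∧ ∀ t : ℝ,
    |st N α t| ≤ K * Real.exp (σ * t) := by
  obtain ⟨K, hK, h⟩ := PS_bound E hσ
  refine ⟨K, hK, fun t => ?_⟩
  unfold st
  rw [SP_eq E]
  exact (PS_abs E _ _).trans (h t)

theorem st_int (E : Sys N α) {w : ℝ} (hw : 1 / 2 < w) : LInt (st N α) w := by
  obtain ⟨K, hK, h⟩ := st_bound E (σ := (1 / 2 + w) / 2) (by linarith)
  unfold LInt
  have h1 := integrableOn_exp_mul_Ioi (a := (1 / 2 + w) / 2 - w) (by linarith) 0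
  have h2 : IntegrableOn (fun x : ℝ => K * Real.exp (((1 / 2 + w) / 2 - w) * x)) (Ioi 0) :=
    Integrable.const_mul h1 K
  refine Integrable.mono' h2 (((st_meas E).mul (by fun_prop)).aestronglyMeasurable) ?_
  refine Eventually.of_forall fun y => ?_
  rw [Real.norm_eq_abs, abs_mul, abs_of_pos (Real.exp_pos _)]
  refine (mul_le_mul_of_nonneg_right (h y) (Real.exp_pos _).le).trans (le_of_eq ?_)
  rw [mul_assoc, ← Real.exp_add]
  congr 2
  ring

/-- one term -/
theorem term_int {w : ℂ} (hw : 0 < w.re) {l : ℝ} (hl : 0 ≤ l) (c : ℝ) :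
    IntegrableOn (fun t : ℝ => if l ≤ t then (c : ℂ) * exp (-(w * t)) else 0) (Ioi 0) ∧
    ∫ t in Ioi (0 : ℝ), (if l ≤ t then (c : ℂ) * exp (-(w * t)) else 0) =
      (c : ℂ) * exp (-(w * l)) / w ∧
    ∫ t in Ioi (0 : ℝ), ‖(if l ≤ t then (c : ℂ) * exp (-(w * t)) else 0 : ℂ)‖ =
      |c| * Real.exp (-(w.re * l)) / w.re := by
  have hw0 : w ≠ 0 := fun h => by rw [h] at hw; simp at hw
  have e1 : (fun t : ℝ => if l ≤ t then (c : ℂ) * exp (-(w * t)) else 0) =
      (Ici l).indicator fun t : ℝ => (c : ℂ) * exp (-(w * t)) := by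
    funext t
    by_cases h : l ≤ t
    · rw [indicator_of_mem (show t ∈ Ici l from h), if_pos h]
    · rw [indicator_of_notMem (show t ∉ Ici l from h), if_neg h]
  have e1' : (fun t : ℝ => ‖(if l ≤ t then (c : ℂ) * exp (-(w * t)) else 0 : ℂ)‖) =
      (Ici l).indicator fun t : ℝ => |c| * Real.exp (-(w.re * t)) := by
    funext t
    by_cases h : l ≤ t
    · rw [indicator_of_mem (show t ∈ Ici l from h), if_pos h, norm_mul, Complex.norm_real,
        Complex.norm_exp, Real.norm_eq_abs, Complex.neg_re, Complex.re_mul_ofReal]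
    · rw [indicator_of_notMem (show t ∉ Ici l from h), if_neg h, norm_zero]
  have hi : IntegrableOn (fun t : ℝ => (c : ℂ) * exp (-(w * t))) (Ioi l) := by
    have := (integrableOn_exp_mul_complex_Ioi (a := -w) (by simpa using hw) l).const_mul (c : ℂ)
    refine this.congr (Eventually.of_forall fun t => ?_)
    simp only [neg_mul]
  have hri : IntegrableOn (fun t : ℝ => |c| * Real.exp (-(w.re * t))) (Ioi l) := by
    have := (integrableOn_exp_mul_Ioi (a := -w.re) (by linarith) l).const_mul |c|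
    refine this.congr (Eventually.of_forall fun t => ?_)
    simp only [neg_mul]
  have hset : (Ici l ∩ Ioi 0 : Set ℝ) =ᵐ[volume] (Ioi l : Set ℝ) := by
    have h2 : (Ioi l ∩ Ioi 0 : Set ℝ) = Ioi l :=
      inter_eq_left.2 fun t ht => lt_of_le_of_lt hl ht
    have h1 : (Ici l ∩ Ioi 0 : Set ℝ) =ᵐ[volume] (Ioi l ∩ Ioi 0 : Set ℝ) :=
      ae_eq_set_inter Ioi_ae_eq_Ici.symm (ae_eq_refl _)
    rwa [h2] at h1
  refine ⟨?_, ?_, ?_⟩
  · rw [e1, IntegrableOn, integrable_indicator_iff measurableSet_Ici, IntegrableOn,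
      Measure.restrict_restrict measurableSet_Ici]
    exact (integrableOn_congr_set_ae hset).2 hi
  · rw [e1, integral_indicator measurableSet_Ici, Measure.restrict_restrict measurableSet_Ici,
      setIntegral_congr_set hset, integral_const_mul]
    have h3 := integral_exp_mul_complex_Ioi (a := -w) (by simpa using hw) l
    have h4 : ∫ t in Ioi l, exp (-(w * (t : ℂ))) = ∫ t in Ioi l, exp (-w * (t : ℂ)) := by
      simp only [neg_mul]
    rw [h4, h3]
    have h5 : -w * (l : ℂ) = -(w * l) := by ring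
    rw [h5]
    field_simp
  · rw [e1', integral_indicator measurableSet_Ici, Measure.restrict_restrict measurableSet_Ici,
      setIntegral_congr_set hset, integral_const_mul]
    have h3 := integral_exp_mul_Ioi (a := -w.re) (by linarith) l
    have h4 : ∫ t in Ioi l, Real.exp (-(w.re * t)) = ∫ t in Ioi l, Real.exp (-w.re * t) := by
      simp only [neg_mul]
    rw [h4, h3]
    have h5 : -w.re * l = -(w.re * l) := by ring
    rw [h5]
    field_simp

/-- **The transform of the step function.** -/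
theorem st_transform (E : Sys N α) {w : ℂ} (hw : 1 / 2 < w.re) :
    w * lapC (st N α) w = DE N α w := by
  have := E.cnt
  have hw1 : 0 < w.re := by linarith
  have hw0 : w ≠ 0 := fun h => by rw [h] at hw1; simp at hw1
  have hs := abs_summable E hw
  have h1 := hasSum_integral_of_summable_integral_norm (μ := volume.restrict (Ioi (0 : ℝ)))
    (F := fun (v : X) (t : ℝ) => if Real.log (N v) ≤ t then
      (cv N α v : ℂ) * exp (-(w * t)) else 0)
    (fun v => (term_int hw1 (E.logN v).le _).1) (by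
      have h2 : (fun v => ∫ t in Ioi (0 : ℝ), ‖(if Real.log (N v) ≤ t then
          (cv N α v : ℂ) * exp (-(w * t)) else 0 : ℂ)‖) =
          fun v => |cv N α v| * Real.exp (-(w.re * Real.log (N v))) / w.re := by
        funext v
        exact (term_int hw1 (E.logN v).le _).2.2
      rw [h2]
      exact hs.div_const _)
  have h3 : ∀ t : ℝ, (∑' v, (if Real.log (N v) ≤ t then
      (cv N α v : ℂ) * exp (-(w * t)) else 0)) = (st N α t : ℂ) * exp (-(w * t)) := by
    intro t
    unfold st
    rw [SP_eq E]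
    unfold PS
    rw [Complex.ofReal_tsum, ← tsum_mul_right]
    refine tsum_congr fun v => ?_
    have h4 : (N v : ℝ) ≤ Real.exp t ↔ Real.log (N v) ≤ t := by
      rw [Real.log_le_iff_le_exp (E.Npos v)]
    by_cases h : Real.log (N v) ≤ t
    · rw [if_pos h, if_pos (h4.2 h)]
    · rw [if_neg h, if_neg (fun h' => h (h4.1 h')), Complex.ofReal_zero, zero_mul]
  simp only [h3] at h1
  have h5 : lapC (st N α) w = ∑' v, (cv N α v : ℂ) * exp (-(w * Real.log (N v))) / w := by
    unfold lapC
    rw [← h1.tsum_eq]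
    exact tsum_congr fun v => (term_int hw1 (E.logN v).le _).2.1
  rw [h5, tsum_div_const]
  unfold DE xv
  field_simp

/-- continuation from a convergent Laplace integral of the step function -/
theorem cont_of_st (E : Sys N α) {al : ℝ} (hal : 0 ≤ al)
    (hconv : ∀ w : ℝ, al < w → LInt (st N α) w) :
    ∃ G : ℂ → ℂ, (∀ s : ℂ, al < s.re ∨ 1 / 2 < s.re → DifferentiableAt ℂ G s ∧ G s ≠ 0) ∧
      ∀ s : ℂ, 1 / 2 < s.re → G s = LE N α s := by
  set G : ℂ → ℂ := fun s => exp (GG N α s - s * lapC (st N α) s) with hG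
  have hconv' : ∀ w : ℝ, min al (1 / 2) < w → LInt (st N α) w := by
    intro w hw
    rcases min_lt_iff.1 hw with h | h
    · exact hconv w h
    · exact st_int E h
  refine ⟨G, fun s hs => ⟨?_, Complex.exp_ne_zero _⟩, fun s hs => ?_⟩
  · have h1 : min al (1 / 2) < s.re := min_lt_iff.2 hs
    have h0 : 0 < s.re := (le_min hal (by norm_num)).trans_lt h1
    exact ((E.GG_diff h0).sub (differentiableAt_id.mul
      (lapC_differentiableAt (st_meas E) (fun w hw => hconv' w hw) h1))).cexp
  · rw [hG]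
    simp only
    rw [st_transform E hs, E.LE_eq hs]

/-- the data, upper side -/
theorem data_upper (E : Sys N α) {al : ℝ} (hal : 0 ≤ al) {H : ℂ → ℂ}
    (hH : ∀ x : ℝ, al < x → AnalyticAt ℂ H x) (hHe : ∀ x : ℝ, 1 / 2 < x → H x = LE N α x) :
    DataLoc al (st N α) H (GG N α) (1 / 2) where
  al_nonneg := hal
  meas := st_meas E
  c0_nonneg := by norm_num
  int := fun w hw => st_int E hw
  hΦ := hH
  hG := fun z hz => E.GG_diff hz
  eq := fun w hw => by
    have h1 : 1 / 2 < ((w : ℝ) : ℂ).re := by rwa [Complex.ofReal_re]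
    rw [hHe w hw, E.LE_eq h1, st_transform E h1]

theorem lapC_neg (a : ℝ → ℝ) (w : ℂ) : lapC (fun y => -a y) w = -lapC a w := by
  unfold lapC
  rw [← integral_neg]
  congr 1
  funext y
  push_cast
  ring

/-- the data, lower side -/
theorem data_lower (E : Sys N α) {al : ℝ} (hal : 0 ≤ al) {H : ℂ → ℂ}
    (hH : ∀ x : ℝ, al < x → AnalyticAt ℂ H x) (hHe : ∀ x : ℝ, 1 / 2 < x → H x = (LE N α x)⁻¹) :
    DataLoc al (fun t => -st N α t) H (fun z => -GG N α z) (1 / 2) where
  al_nonneg := hal
  meas := (st_meas E).neg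
  c0_nonneg := by norm_num
  int := fun w hw => (st_int E hw).neg
  hΦ := hH
  hG := fun z hz => (E.GG_diff hz).neg
  eq := fun w hw => by
    have h1 : 1 / 2 < ((w : ℝ) : ℂ).re := by rwa [Complex.ofReal_re]
    rw [hHe w hw, E.LE_eq h1, lapC_neg, ← Complex.exp_neg]
    congr 1
    have := st_transform E h1
    linear_combination -this

end Pool.Agent.V11333.OneSide
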