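import Pool.Agent.V11333.OneSide3
import Pool.Agent.V11291.ME.Glue
import Pool.Agent.W263.BSD.Asy
import Pool.Agent.W263.BSD.Euler2

/-!
# The Laplace transform of the main terms of a symmetric divisor
-/

set_option autoImplicit false

open Filter Topology Set Complex MeasureTheory
open Pool.Agent.TH942.SL
open Pool.Agent.V11291.ME
open Pool.Agent.W263.BSD (LInt lap lapC lapC_ofReal lapC_differentiableAt pk pk_LInt pk_lap pk_nonneg ex_LInt
  LInt.of_bound LInt.const_mul)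

namespace Pool.Agent.V11333.OneSide

/-- the divisor is symmetric -/
def Symm (Z : Finset ℂ) (m : ℂ → ℤ) : Prop :=
  ∀ β ∈ Z, (starRingEnd ℂ) β ∈ Z ∧ m ((starRingEnd ℂ) β) = m β

theorem ei_conj (z : ℂ) : (starRingEnd ℂ) (ei z) = ei ((starRingEnd ℂ) z) := by
  unfold ei
  rw [Complex.conj_tsum]
  refine tsum_congr fun n => ?_
  unfold et
  simp [map_div₀, map_pow, map_mul]

theorem conj_pow {β : ℂ} {ρ : ℝ} (hβ : 0 < β.re) :
    ((starRingEnd ℂ) β) ^ (ρ : ℂ) = (starRingEnd ℂ) (β ^ (ρ : ℂ)) := by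
  have h1 : β.arg ≠ Real.pi := by
    intro h
    have := (Complex.arg_eq_pi_iff.1 h).1
    linarith
  rw [Complex.conj_cpow _ _ h1, Complex.conj_ofReal]

variable {Z : Finset ℂ} {m : ℂ → ℤ} {ρ : ℝ}

theorem sum_conj (hS : Symm Z m) (f : ℂ → ℂ) (hf : ∀ β ∈ Z, (starRingEnd ℂ) (f β) = f ((starRingEnd ℂ) β)) :
    (starRingEnd ℂ) (∑ β ∈ Z, (m β : ℂ) * f β) = ∑ β ∈ Z, (m β : ℂ) * f β := by
  rw [map_sum]
  refine Finset.sum_bij' (fun β _ => (starRingEnd ℂ) β) (fun β _ => (starRingEnd ℂ) β)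
    (fun β hβ => (hS β hβ).1) (fun β hβ => (hS β hβ).1) (fun β _ => Complex.conj_conj β)
    (fun β _ => Complex.conj_conj β) fun β hβ => ?_
  rw [map_mul, hf β hβ, (hS β hβ).2]
  congr 1
  simp

theorem modl_conj (hS : Symm Z m) (hZ : ∀ β ∈ Z, 0 < β.re) (y : ℝ) :
    (starRingEnd ℂ) (modl Z m ρ y) = modl Z m ρ y := by
  unfold modl
  refine sum_conj hS (fun β => ei (β ^ (ρ : ℂ) * y)) fun β hβ => ?_
  rw [ei_conj, map_mul, Complex.conj_ofReal, conj_pow (hZ β hβ)]

/-- the real main term -/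
noncomputable def mo (Z : Finset ℂ) (m : ℂ → ℤ) (ρ y : ℝ) : ℝ := (modl Z m ρ y).re

theorem mo_eq (hS : Symm Z m) (hZ : ∀ β ∈ Z, 0 < β.re) (y : ℝ) :
    ((mo Z m ρ y : ℝ) : ℂ) = modl Z m ρ y :=
  Complex.conj_eq_iff_re.1 (modl_conj hS hZ y)

theorem modl_cont (Z : Finset ℂ) (m : ℂ → ℤ) (ρ : ℝ) : Continuous (modl Z m ρ) := by
  unfold modl
  refine continuous_finsetSum _ fun β _ => continuous_const.mul (ei_cont.comp ?_)
  fun_prop

theorem mo_meas (Z : Finset ℂ) (m : ℂ → ℤ) (ρ : ℝ) : Measurable (mo Z m ρ) :=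
  (Complex.continuous_re.comp (modl_cont Z m ρ)).measurable

theorem mo_bound (Z : Finset ℂ) (m : ℂ → ℤ) (ρ : ℝ) : ∃ K : ℝ, 0 ≤ K ∧ ∀ y, 0 < y →
    |mo Z m ρ y| ≤ K * Real.exp (rad Z ρ * y) := by
  refine ⟨∑ β ∈ Z, |(m β : ℝ)|, Finset.sum_nonneg fun β _ => abs_nonneg _, fun y hy => ?_⟩
  refine (Complex.abs_re_le_norm _).trans ?_
  unfold modl
  refine (norm_sum_le _ _).trans ?_
  rw [Finset.sum_mul]
  refine Finset.sum_le_sum fun β hβ => ?_
  rw [norm_mul]
  have e1 : ‖((m β : ℤ) : ℂ)‖ = |(m β : ℝ)| := by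
    rw [Complex.norm_intCast]
  rw [e1]
  refine mul_le_mul_of_nonneg_left ((norm_ei _).trans (Real.exp_le_exp.mpr ?_)) (abs_nonneg _)
  rw [norm_mul, Complex.norm_real, Real.norm_of_nonneg hy.le]
  refine mul_le_mul_of_nonneg_right ?_ hy.le
  have := (rad_ge Z ρ).2 β hβ
  have := norm_nonneg (β ^ (ρ : ℂ))
  linarith

theorem mo_LInt (Z : Finset ℂ) (m : ℂ → ℤ) (ρ : ℝ) {w : ℝ} (hw : rad Z ρ < w) :
    LInt (mo Z m ρ) w := by
  obtain ⟨K, hK, h⟩ := mo_bound Z m ρ
  exact LInt.of_bound (mo_meas Z m ρ) ((ex_LInt hw).const_mul K) h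

/-- the Laplace transform of one term, at a real point -/
theorem lap_ei_real {ω : ℂ} {w : ℝ} (hw : ‖ω‖ < w) :
    IntegrableOn (fun y : ℝ => ei (ω * y) * ((Real.exp (-(w * y)) : ℝ) : ℂ)) (Ioi 0) ∧
    ∫ y in Ioi (0 : ℝ), ei (ω * y) * ((Real.exp (-(w * y)) : ℝ) : ℂ) = ell ω w / w := by
  have hw0 : 0 < w := (norm_nonneg ω).trans_lt hw
  have hwc : (w : ℂ) ≠ 0 := Complex.ofReal_ne_zero.mpr hw0.ne'
  set F : ℕ → ℝ → ℂ := fun k y => (ω ^ (k + 1) / ((k : ℂ) + 1)) *
    ((pk (k + 1) y * Real.exp (-(w * y)) : ℝ) : ℂ) with hF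
  have hFi : ∀ k, IntegrableOn (F k) (Ioi 0) := fun k =>
    ((pk_LInt (k + 1) hw0).ofReal (𝕜 := ℂ)).const_mul _
  have hFv : ∀ k, ∫ y in Ioi 0, F k y = (ω / w) ^ (k + 1) / ((k : ℂ) + 1) * (1 / w) := by
    intro k
    have h1 : ∫ y in Ioi 0, F k y = (ω ^ (k + 1) / ((k : ℂ) + 1)) *
        ((lap (pk (k + 1)) w : ℝ) : ℂ) := by
      rw [hF]
      simp only
      rw [integral_const_mul, integral_complex_ofReal]
      rfl
    rw [h1, pk_lap (k + 1) hw0, div_pow]
    push_cast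
    field_simp
    ring
  have hFn : ∀ k, ∫ y in Ioi 0, ‖F k y‖ = (‖ω‖ / w) ^ (k + 1) / ((k : ℝ) + 1) * (1 / w) := by
    intro k
    have h1 : ∫ y in Ioi 0, ‖F k y‖ = (‖ω‖ ^ (k + 1) / ((k : ℝ) + 1)) * lap (pk (k + 1)) w := by
      have h2 : ∫ y in Ioi 0, ‖F k y‖ = ∫ y in Ioi 0, (‖ω‖ ^ (k + 1) / ((k : ℝ) + 1)) *
          (pk (k + 1) y * Real.exp (-(w * y))) := by
        refine setIntegral_congr_fun measurableSet_Ioi fun y hy => ?_
        rw [hF]
        simp only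
        have h3 : 0 ≤ pk (k + 1) y * Real.exp (-(w * y)) :=
          mul_nonneg (pk_nonneg (k + 1) (le_of_lt hy)) (Real.exp_pos _).le
        rw [norm_mul, norm_div, norm_pow, Complex.norm_real, Real.norm_of_nonneg h3]
        congr 2
        rw [show (k : ℂ) + 1 = ((k + 1 : ℕ) : ℂ) by push_cast; ring, Complex.norm_natCast]
        push_cast
        ring
      rw [h2, integral_const_mul]
      rfl
    rw [h1, pk_lap (k + 1) hw0, div_pow]
    field_simp
    ring
  have hx : |‖ω‖ / w| < 1 := by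
    rw [abs_of_nonneg (by positivity), div_lt_one hw0]
    exact hw
  have hsumr := Real.hasSum_pow_div_log_of_abs_lt_one hx
  have hz : ‖ω / w‖ < 1 := by
    rw [norm_div, Complex.norm_real, Real.norm_of_nonneg hw0.le, div_lt_one hw0]
    exact hw
  have hsum : HasSum (fun k : ℕ => (ω / w) ^ (k + 1) / ((k : ℂ) + 1)) (ell ω w) := by
    have h1 := Complex.hasSum_taylorSeries_neg_log hz
    have h2 := (hasSum_nat_add_iff' 1).2 h1
    unfold ell
    simpa using h2
  have hns : Summable fun k => ∫ y in Ioi 0, ‖F k y‖ := by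
    simp only [hFn]
    exact hsumr.summable.mul_right _
  have h2 := hasSum_integral_of_summable_integral_norm (μ := volume.restrict (Ioi 0)) hFi hns
  simp only [hFv] at h2
  have h3 := (hsum.mul_right (1 / (w : ℂ))).unique h2
  have h4 : ∀ y : ℝ, ei (ω * y) * ((Real.exp (-(w * y)) : ℝ) : ℂ) = ∑' k, F k y := by
    intro y
    unfold ei
    rw [← tsum_mul_right]
    refine tsum_congr fun k => ?_
    rw [hF]
    simp only [pk, et]
    rw [mul_pow]
    have h5 : ((k + 1).factorial : ℂ) ≠ 0 := by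
      exact_mod_cast (k + 1).factorial_ne_zero
    have h6 : ((k : ℂ) + 1) ≠ 0 := n1 k
    push_cast
    field_simp
  have hint : IntegrableOn (fun y : ℝ => ei (ω * y) * ((Real.exp (-(w * y)) : ℝ) : ℂ)) (Ioi 0) := by
    have h5 : Integrable (fun y : ℝ => Real.exp (‖ω‖ * y) * Real.exp (-(w * y)))
      (volume.restrict (Ioi 0)) := ex_LInt hw
    refine Integrable.mono' h5 (Continuous.aestronglyMeasurable ?_) ?_
    · exact (ei_cont.comp (by fun_prop)).mul (by fun_prop)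
    · filter_upwards [ae_restrict_mem measurableSet_Ioi] with y hy
      have hy0 : 0 < y := hy
      rw [norm_mul, Complex.norm_real, Real.norm_of_nonneg (Real.exp_pos _).le]
      refine mul_le_mul_of_nonneg_right ((norm_ei _).trans (Real.exp_le_exp.mpr ?_))
        (Real.exp_pos _).le
      rw [norm_mul, Complex.norm_real, Real.norm_of_nonneg hy0.le]
  refine ⟨hint, ?_⟩
  simp only [h4]
  rw [← h3]
  field_simp

/-- **The Laplace transform of the main terms** at a real point. -/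
theorem lap_mo (hS : Symm Z m) (hZ : ∀ β ∈ Z, 0 < β.re) {w : ℝ} (hw : rad Z ρ < w) :
    (w : ℂ) * lapC (mo Z m ρ) w = Ls Z m ρ w := by
  have hw0 : 0 < w := by
    have := (rad_ge Z ρ).1
    linarith
  have hwc : (w : ℂ) ≠ 0 := Complex.ofReal_ne_zero.mpr hw0.ne'
  have hn : ∀ β ∈ Z, ‖β ^ (ρ : ℂ)‖ < w := fun β hβ => by
    have := (rad_ge Z ρ).2 β hβ
    have := norm_nonneg (β ^ (ρ : ℂ))
    linarith
  have h1 : lapC (mo Z m ρ) w = ∫ y in Ioi (0 : ℝ), ∑ β ∈ Z, (m β : ℂ) *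
      (ei (β ^ (ρ : ℂ) * y) * ((Real.exp (-(w * y)) : ℝ) : ℂ)) := by
    unfold lapC
    refine integral_congr_ae (Eventually.of_forall fun y => ?_)
    simp only
    rw [mo_eq hS hZ]
    unfold modl
    rw [Finset.sum_mul]
    refine Finset.sum_congr rfl fun β _ => ?_
    push_cast
    ring
  rw [h1, integral_finsetSum]
  · unfold Ls
    rw [Finset.mul_sum]
    refine Finset.sum_congr rfl fun β hβ => ?_
    rw [integral_const_mul, (lap_ei_real (hn β hβ)).2]
    field_simp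
  · intro β hβ
    exact ((lap_ei_real (hn β hβ)).1).const_mul _

theorem Ls_diff {v : ℂ} (hv : rad Z ρ < v.re) : DifferentiableAt ℂ (Ls Z m ρ) v := by
  unfold Ls
  refine DifferentiableAt.fun_sum fun β hβ => ?_
  have h1 := (rad_ge Z ρ).2 β hβ
  have h2 : ‖β ^ (ρ : ℂ)‖ < ‖v‖ := by
    have := norm_nonneg (β ^ (ρ : ℂ))
    have := Complex.re_le_norm v
    linarith
  exact (ell_deriv h2).differentiableAt.const_mul _

/-- the complex Laplace transform of the difference -/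
theorem lap_diff (hS : Symm Z m) (hZ : ∀ β ∈ Z, 0 < β.re) {a : ℝ → ℝ} {x₀ : ℝ}
    (ham : Measurable a) (hint : ∀ w, x₀ < w → LInt a w) {v : ℂ} (hv : max x₀ (rad Z ρ) < v.re) :
    v * lapC (fun y => a y - mo Z m ρ y) v = v * lapC a v - Ls Z m ρ v := by
  set U : Set ℂ := {z : ℂ | max x₀ (rad Z ρ) < z.re} with hU
  have hUo : IsOpen U := isOpen_lt continuous_const Complex.continuous_re
  have hUc : IsPreconnected U := (convex_halfSpace_re_gt _).isPreconnected
  have hb : ∀ w, max x₀ (rad Z ρ) < w → LInt (fun y => a y - mo Z m ρ y) w := fun w hw =>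
    (hint w ((le_max_left _ _).trans_lt hw)).sub (mo_LInt Z m ρ ((le_max_right _ _).trans_lt hw))
  have a1 : AnalyticOnNhd ℂ (fun v => v * lapC (fun y => a y - mo Z m ρ y) v) U :=
    DifferentiableOn.analyticOnNhd (fun s hs => (differentiableAt_id.mul
      (lapC_differentiableAt (ham.sub (mo_meas Z m ρ)) hb hs)).differentiableWithinAt) hUo
  have a2 : AnalyticOnNhd ℂ (fun v => v * lapC a v - Ls Z m ρ v) U :=
    DifferentiableOn.analyticOnNhd (fun s hs => ((differentiableAt_id.mul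
      (lapC_differentiableAt ham (fun w hw => hint w hw)
        ((le_max_left _ _).trans_lt (show max x₀ (rad Z ρ) < s.re from hs)))).sub
      (Ls_diff ((le_max_right _ _).trans_lt
        (show max x₀ (rad Z ρ) < s.re from hs)))).differentiableWithinAt) hUo
  have hz : ((max x₀ (rad Z ρ) + 1 : ℝ) : ℂ) ∈ U := by
    show max x₀ (rad Z ρ) < ((max x₀ (rad Z ρ) + 1 : ℝ) : ℂ).re
    rw [Complex.ofReal_re]
    linarith
  have key : ∀ w : ℝ, max x₀ (rad Z ρ) < w →
      (w : ℂ) * lapC (fun y => a y - mo Z m ρ y) w = w * lapC a w - Ls Z m ρ w := by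
    intro w hw
    rw [← lap_mo hS hZ ((le_max_right _ _).trans_lt hw), lapC_ofReal, lapC_ofReal, lapC_ofReal,
      Pool.Agent.W263.BSD.lap_sub (hint w ((le_max_left _ _).trans_lt hw))
        (mo_LInt Z m ρ ((le_max_right _ _).trans_lt hw))]
    push_cast
    ring
  have a3 := a1.eqOn_of_preconnected_of_frequently_eq a2 hUc hz (by
    have h1 : Tendsto (fun w : ℝ => (w : ℂ)) (𝓝[≠] (max x₀ (rad Z ρ) + 1))
        (𝓝[≠] ((max x₀ (rad Z ρ) + 1 : ℝ) : ℂ)) := by
      refine tendsto_nhdsWithin_of_tendsto_nhds_of_eventually_within _ ?_ ?_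
      · exact (Complex.continuous_ofReal.tendsto _).mono_left nhdsWithin_le_nhds
      · filter_upwards [self_mem_nhdsWithin] with w hw
        exact fun h => hw (Complex.ofReal_injective h)
    refine h1.frequently (Eventually.frequently ?_)
    filter_upwards [nhdsWithin_le_nhds (lt_mem_nhds (show max x₀ (rad Z ρ) <
      max x₀ (rad Z ρ) + 1 by linarith))] with w hw
    exact key w hw)
  exact a3 hv

end Pool.Agent.V11333.OneSide
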