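import Pool.Agent.V11333.OneSide5

/-!
# Meromorphic continuation to sectors from the real axis by bounds from one side
-/

set_option autoImplicit false

open Filter Topology Set Complex MeasureTheory
open Pool.Agent.TH942.LS (Dat P P_le Cont Qf)
open Pool.Agent.TH942.SL
open Pool.Agent.TH942.ES
open Pool.Agent.V11291.ME
open Pool.Agent.W263.BSD (LInt lap lapC lapC_ofReal lapC_differentiableAt)

namespace Pool.Agent.V11333.OneSide

variable {X : Type} {d : ℕ} {N : X → ℕ} {α : X → Fin d → ℂ} {e : X → ℕ}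
variable {Z : Finset ℂ} {m : ℂ → ℤ} {ρ ρ' : ℝ}

/-- from the continuation of the sum to the meromorphic continuation of the Euler product -/
theorem cont_of_fh (E : Sys N α) (hρ : 1 < ρ) (he : Function.Injective e)
    (hZ : ∀ β ∈ Z, β ∈ Sect ρ ∧ β.re ≤ 1 / 2) {fh : ℂ → ℂ} {x₂ : ℝ}
    (hfd : ∀ v : ℂ, 0 < v.re → DifferentiableAt ℂ fh v)
    (hfe : ∀ v : ℂ, x₂ < v.re → fh v = f₀ (lamN N e) (cN N α e) ρ⁻¹ v - Ls Z m ρ v) :
    ∃ H : ℂ → ℂ, (∀ s : ℂ, s ∈ Sect ρ ∨ 1 / 2 < s.re → DifferentiableAt ℂ H s ∧ H s ≠ 0) ∧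
      ∀ s : ℂ, 1 / 2 < s.re → LE N α s = H s * ∏ β ∈ Z, (s - β) ^ m β := by
  have hρ0 : 0 < ρ := by linarith
  choose! φ hφ1 hφ2 using fun (β : ℂ) (hβ : β ∈ Z) => exists_phi hρ (hZ β hβ).1
  set Dh : ℂ → ℂ := fun s => fh (s ^ (ρ : ℂ)) with hDh
  have hDd : ∀ s ∈ Sect ρ, DifferentiableAt ℂ Dh s := fun s hs =>
    DifferentiableAt.comp (f := fun s : ℂ => s ^ (ρ : ℂ)) s (hfd _ (pow_back hρ hs).1)
      (powρ_deriv hρ hs).differentiableAt
  have hprod := prod_zpow_diff (U := Sect ρ) Z m fun β hβ => hφ1 β hβ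
  set H₀ : ℂ → ℂ := fun s => exp (GG N α s - Dh s) * ∏ β ∈ Z, φ β s ^ m β with hH₀
  have hH₀d : ∀ s ∈ Sect ρ, DifferentiableAt ℂ H₀ s ∧ H₀ s ≠ 0 := fun s hs =>
    ⟨(((E.GG_diff (sect_re hρ hs)).sub (hDd s hs)).cexp).mul (hprod s hs).1,
      mul_ne_zero (Complex.exp_ne_zero _) (hprod s hs).2⟩
  -- the linear factors to the right of `1/2`
  have hlin := prod_zpow_diff (U := {s : ℂ | 1 / 2 < s.re}) Z m (φ := fun β s => s - β)
    fun β hβ s hs => ⟨by fun_prop, fun h2 => by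
      have h3 : 1 / 2 < s.re := hs
      rw [sub_eq_zero.1 h2] at h3
      linarith [(hZ β hβ).2]⟩
  have hEq : ∀ s ∈ Sect ρ, 1 / 2 < s.re → LE N α s = H₀ s * ∏ β ∈ Z, (s - β) ^ m β := by
    set R : Set ℂ := Sect ρ ∩ {s : ℂ | 1 / 2 < s.re} with hR
    have hRo : IsOpen R := (sect_open hρ).inter (isOpen_lt continuous_const Complex.continuous_re)
    have hRc : Convex ℝ R := (sect_convex hρ).inter (convex_halfSpace_re_gt _)
    have a1 : AnalyticOnNhd ℂ (LE N α) R :=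
      DifferentiableOn.analyticOnNhd (fun s hs => (E.LE_diff hs.2).1.differentiableWithinAt) hRo
    have a2 : AnalyticOnNhd ℂ (fun s => H₀ s * ∏ β ∈ Z, (s - β) ^ m β) R :=
      DifferentiableOn.analyticOnNhd (fun s hs =>
        ((hH₀d s hs.1).1.mul (hlin s hs.2).1).differentiableWithinAt) hRo
    have hT : Tendsto (fun x : ℝ => x ^ ρ) atTop atTop := tendsto_rpow_atTop hρ0
    obtain ⟨x, hx⟩ := ((hT.eventually_gt_atTop (max x₂ (rad Z ρ))).and
      (eventually_gt_atTop 1)).exists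
    obtain ⟨hx1, hx2⟩ := hx
    have hx0 : 0 < x := by linarith
    have hxR : (x : ℂ) ∈ R := ⟨sect_real hρ hx0, by
      rw [Set.mem_ofPred_eq, Complex.ofReal_re]; linarith⟩
    have hxp : (((x : ℂ)) ^ (ρ : ℂ)).re = x ^ ρ := by
      rw [← Complex.ofReal_cpow hx0.le, Complex.ofReal_re]
    have hnear : LE N α =ᶠ[𝓝 (x : ℂ)] fun s => H₀ s * ∏ β ∈ Z, (s - β) ^ m β := by
      have hc : ContinuousAt (fun s : ℂ => (s ^ (ρ : ℂ)).re) (x : ℂ) :=
        Complex.continuous_re.continuousAt.comp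
          (ContinuousAt.cpow continuousAt_id continuousAt_const
            (slit (show 0 < ((x : ℂ)).re by rwa [Complex.ofReal_re])))
      have h5 : ∀ᶠ s : ℂ in 𝓝 (x : ℂ), max x₂ (rad Z ρ) < (s ^ (ρ : ℂ)).re :=
        hc.eventually (lt_mem_nhds (show max x₂ (rad Z ρ) < ((x : ℂ) ^ (ρ : ℂ)).re by
          rw [hxp]; exact hx1))
      filter_upwards [h5, hRo.mem_nhds hxR] with s h6 h7
      have h8 := hfe (s ^ (ρ : ℂ)) (lt_of_le_of_lt (le_max_left _ _) h6)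
      have h9 : f₀ (lamN N e) (cN N α e) ρ⁻¹ (s ^ (ρ : ℂ)) = DE N α s := by
        unfold f₀
        rw [(pow_back hρ h7.1).2]
        exact Sys.DD_eq he s
      rw [h9] at h8
      have h10 : rad Z ρ ≤ ‖s ^ (ρ : ℂ)‖ :=
        ((lt_of_le_of_lt (le_max_right _ _) h6).le).trans (re_le_norm _)
      rw [E.LE_eq h7.2, hH₀]
      simp only
      have h11 : GG N α s - DE N α s = (GG N α s - Dh s) + -Ls Z m ρ (s ^ (ρ : ℂ)) := by
        rw [hDh]
        simp only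
        rw [h8]
        ring
      rw [h11, Complex.exp_add, exp_Ls hφ2 h10]
      ring
    have a3 := a1.eqOn_of_preconnected_of_eventuallyEq a2 hRc.isPreconnected hxR hnear
    exact fun s hs hσ => a3 ⟨hs, hσ⟩
  set H : ℂ → ℂ := fun s => if 1 / 2 < s.re then LE N α s * (∏ β ∈ Z, (s - β) ^ m β)⁻¹ else H₀ s
    with hH
  have hH1 : ∀ s : ℂ, 1 / 2 < s.re → H s = LE N α s * (∏ β ∈ Z, (s - β) ^ m β)⁻¹ := fun s hs => by
    rw [hH]
    simp only
    rw [if_pos hs]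
  have hH2 : ∀ s ∈ Sect ρ, H s = H₀ s := fun s hs => by
    by_cases h2 : 1 / 2 < s.re
    · rw [hH1 s h2, hEq s hs h2, mul_assoc, mul_inv_cancel₀ (hlin s h2).2, mul_one]
    · rw [hH]
      simp only
      rw [if_neg h2]
  refine ⟨H, fun s hs => ?_, fun s hs => ?_⟩
  · rcases hs with hs | hs
    · refine ⟨(hH₀d s hs).1.congr_of_eventuallyEq ?_, by rw [hH2 s hs]; exact (hH₀d s hs).2⟩
      filter_upwards [(sect_open hρ).mem_nhds hs] with z hz
      exact hH2 z hz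
    · have ho : IsOpen {z : ℂ | 1 / 2 < z.re} := isOpen_lt continuous_const Complex.continuous_re
      obtain ⟨e1, e2⟩ := E.LE_diff hs
      have e3 : DifferentiableAt ℂ (fun s => LE N α s * (∏ β ∈ Z, (s - β) ^ m β)⁻¹) s :=
        e1.mul ((hlin s hs).1.inv (hlin s hs).2)
      refine ⟨e3.congr_of_eventuallyEq ?_, by
        rw [hH1 s hs]; exact mul_ne_zero e2 (inv_ne_zero (hlin s hs).2)⟩
      filter_upwards [ho.mem_nhds hs] with z hz
      exact hH1 z hz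
  · rw [hH1 s hs, mul_assoc, inv_mul_cancel₀ (hlin s hs).2, mul_one]

/-- the bound for the means, in the variable `y = (log Y)^ρ`, with main terms -/
theorem bound_trans' (E : Sys N α) (he : Function.Injective e) (hρ : 1 < ρ)
    (hρ' : ρ < ρ') {τ : ℝ} (hτ : |τ| = 1) {a g : ℝ → ℝ}
    (haM : ∀ y, 0 < y → a y = M (lamN N e) (cN N α e) ρ⁻¹ y)
    (h : ∀ ε : ℝ, 0 < ε → ∃ C : ℝ, ∀ᶠ Y : ℝ in atTop,
      τ * (SrE N α ρ ρ' Y - g (Real.log Y ^ ρ)) ≤ C * Real.exp (ε * Real.log Y ^ ρ)) :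
    ∀ ε : ℝ, 0 < ε → ∃ C y₀ : ℝ, ∀ y, y₀ ≤ y → τ * (a y - g y) ≤ C * Real.exp (ε * y) := by
  intro ε hε
  obtain ⟨C₁, hC₁, h1⟩ := E.Sr_close he hρ hρ'
  have h1' := (Sys.tendsto_exp_rpow hρ).eventually h1
  obtain ⟨C, hC⟩ := h ε hε
  have hC' := (Sys.tendsto_exp_rpow hρ).eventually hC
  obtain ⟨y₀, hy₀⟩ := (h1'.and (hC'.and (eventually_gt_atTop 0))).exists_forall_of_atTop
  refine ⟨C + C₁, y₀, fun y hy => ?_⟩
  obtain ⟨e1, e2, e3⟩ := hy₀ y hy
  rw [Sys.pow_log hρ e3.le] at e1 e2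
  rw [haM y e3]
  have e4 : 1 ≤ Real.exp (ε * y) := Real.one_le_exp (by positivity)
  have e5 : C₁ ≤ C₁ * Real.exp (ε * y) := le_mul_of_one_le_right hC₁ e4
  have e6 : τ * (M (lamN N e) (cN N α e) ρ⁻¹ y - SrE N α ρ ρ' (Real.exp (y ^ ρ⁻¹))) ≤ C₁ := by
    refine (le_abs_self _).trans ?_
    rw [abs_mul, hτ, one_mul, abs_sub_comm]
    exact e1
  have e7 : τ * (M (lamN N e) (cN N α e) ρ⁻¹ y - g y) =
      τ * (SrE N α ρ ρ' (Real.exp (y ^ ρ⁻¹)) - g y) +
      τ * (M (lamN N e) (cN N α e) ρ⁻¹ y - SrE N α ρ ρ' (Real.exp (y ^ ρ⁻¹))) := by ring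
  rw [e7, add_mul]
  linarith

/-- **Upper bounds give the meromorphic continuation**, from the real axis. -/
theorem mero_of_upper (E : Sys N α) (hρ : 1 < ρ) (hρ' : ρ < ρ') (hS : Symm Z m)
    (hZ : ∀ β ∈ Z, β ∈ Sect ρ ∧ β.re ≤ 1 / 2) {F : ℂ → ℂ}
    (hF : ∀ x : ℝ, 0 < x → AnalyticAt ℂ F x)
    (hFe : ∀ x : ℝ, 1 / 2 < x → F x * ∏ β ∈ Z, ((x : ℂ) - β) ^ m β = LE N α x)
    (h : ∀ ε : ℝ, 0 < ε → ∃ C : ℝ, ∀ᶠ Y : ℝ in atTop,
      SrE N α ρ ρ' Y ≤ mo Z m ρ (Real.log Y ^ ρ) + C * Real.exp (ε * Real.log Y ^ ρ)) :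
    ∃ H : ℂ → ℂ, (∀ s : ℂ, s ∈ Sect ρ ∨ 1 / 2 < s.re → DifferentiableAt ℂ H s ∧ H s ≠ 0) ∧
      ∀ s : ℂ, 1 / 2 < s.re → LE N α s = H s * ∏ β ∈ Z, (s - β) ^ m β := by
  have := E.cnt
  obtain ⟨e, he⟩ := Countable.exists_injective_nat X
  have hρ0 : 0 < ρ := by linarith
  have h0 : 0 < ρ⁻¹ := by positivity
  have h1 : ρ⁻¹ < 1 := inv_lt_one_of_one_lt₀ hρ
  have hZr : ∀ β ∈ Z, 0 < β.re := fun β hβ => sect_re hρ (hZ β hβ).1
  obtain ⟨a, K, x₀, ham, hK, hx₀, haM, hbd, hint, htr⟩ := transform (E.dat he) h0 h1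
  choose! φ hφ1 hφ2 using fun (β : ℂ) (hβ : β ∈ Z) => exists_phi hρ (hZ β hβ).1
  have hprod := prod_zpow_diff (U := Sect ρ) Z m fun β hβ => hφ1 β hβ
  obtain ⟨K', hK', hmo⟩ := mo_bound Z m ρ
  set b : ℝ → ℝ := fun y => a y - mo Z m ρ y with hb
  have hbm : Measurable b := ham.sub (mo_meas Z m ρ)
  set x₁ : ℝ := max x₀ (rad Z ρ) with hx₁
  have hx₁1 : 1 ≤ x₁ := (rad_ge Z ρ).1.trans (le_max_right _ _)
  have hbi : ∀ w, x₁ < w → LInt b w := fun w hw =>
    (hint w ((le_max_left _ _).trans_lt hw)).sub (mo_LInt Z m ρ ((le_max_right _ _).trans_lt hw))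
  set HH : ℂ → ℂ := fun s => F s * (∏ β ∈ Z, φ β s ^ m β)⁻¹ with hHH
  have hHHa : ∀ x : ℝ, 0 < x → AnalyticAt ℂ HH x := fun x hx => by
    have hxs := sect_real hρ hx
    have h2 : AnalyticAt ℂ (fun s => ∏ β ∈ Z, φ β s ^ m β) (x : ℂ) :=
      an_of (sect_open hρ) (fun s hs => (hprod s hs).1) hxs
    exact (hF x hx).mul (h2.inv (hprod _ hxs).2)
  have D : DataLoc 0 b (fun v => HH (v ^ ((ρ⁻¹ : ℝ) : ℂ))) (fun v => GG N α (v ^ ((ρ⁻¹ : ℝ) : ℂ)))
      x₁ :=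
    { al_nonneg := le_rfl
      meas := hbm
      c0_nonneg := by linarith
      int := fun w hw => hbi w hw
      hΦ := fun w hw => comp_an hHHa hw
      hG := fun z hz => comp_GG E h0 h1 hz
      eq := fun w hw => by
        have hw0 : 0 < w := by linarith
        have hwx : x₀ < w := (le_max_left _ _).trans_lt hw
        obtain ⟨e1, e2⟩ := real_value E he hρ htr (by linarith) hwx
        have e3 : (w : ℂ) ^ ((ρ⁻¹ : ℝ) : ℂ) = ((w ^ ρ⁻¹ : ℝ) : ℂ) :=
          (Complex.ofReal_cpow hw0.le _).symm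
        have e4 : (w : ℂ) * lapC b w = w * lapC a w - Ls Z m ρ w :=
          lap_diff hS hZr ham hint (by rw [Complex.ofReal_re]; exact hw)
        have e5 : (((w ^ ρ⁻¹ : ℝ) : ℂ)) ^ (ρ : ℂ) = w := by
          rw [← e3]
          exact (pow_fwd hρ (v := (w : ℂ)) (by rwa [Complex.ofReal_re])).2
        have e6 : rad Z ρ ≤ ‖(((w ^ ρ⁻¹ : ℝ) : ℂ)) ^ (ρ : ℂ)‖ := by
          rw [e5, Complex.norm_real, Real.norm_of_nonneg hw0.le]
          exact ((le_max_right _ _).trans_lt hw).le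
        have e7 := exp_Ls (m := m) hφ2 e6
        rw [e5] at e7
        have e8 := hFe _ e1
        have e9 : GG N α ((w ^ ρ⁻¹ : ℝ) : ℂ) - w * lapC b w =
            (GG N α ((w ^ ρ⁻¹ : ℝ) : ℂ) - w * lapC a w) - -Ls Z m ρ w := by
          rw [e4]
          ring
        have hxs := sect_real hρ (Real.rpow_pos_of_pos hw0 ρ⁻¹)
        have e10 : ∏ β ∈ Z, (((w ^ ρ⁻¹ : ℝ) : ℂ) - β) ^ m β ≠ 0 :=
          Finset.prod_ne_zero_iff.2 fun β hβ => zpow_ne_zero _ fun h2 => by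
            have h3 := congrArg Complex.re h2
            rw [Complex.sub_re, Complex.ofReal_re, Complex.zero_re] at h3
            linarith [(hZ β hβ).2]
        rw [e3, e9, Complex.exp_sub, ← e2, e7, ← e8, hHH]
        simp only
        rw [mul_div_mul_right _ _ e10, div_eq_mul_inv] }
  have hconv : ∀ w : ℝ, 0 < w → LInt b w := by
    refine D.conv (K := K + K') (x₀ := max x₀ (rad Z ρ)) (by positivity)
      (le_max_of_le_left hx₀.le) (fun u hu => ?_) ?_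
    · refine (le_abs_self _).trans ((abs_sub _ _).trans ?_)
      rw [add_mul]
      refine add_le_add ((hbd u hu).trans (mul_le_mul_of_nonneg_left (Real.exp_le_exp.mpr ?_) hK))
        ((hmo u hu).trans (mul_le_mul_of_nonneg_left (Real.exp_le_exp.mpr ?_) hK'))
      · exact mul_le_mul_of_nonneg_right (le_max_left _ _) hu.le
      · exact mul_le_mul_of_nonneg_right (le_max_right _ _) hu.le
    · have h2 := bound_trans' E he hρ hρ' (τ := 1) abs_one (g := mo Z m ρ) haM (fun ε hε => by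
        obtain ⟨C, hC⟩ := h ε hε
        exact ⟨C, hC.mono fun Y hY => by rw [one_mul]; linarith⟩)
      simpa only [one_mul, zero_add] using h2
  refine cont_of_fh E hρ he hZ (fh := fun v => v * lapC b v) (x₂ := x₁) (fun v hv =>
    differentiableAt_id.mul (lapC_differentiableAt hbm (fun w hw => hconv w hw) hv)) fun v hv => ?_
  have h2 : v * lapC b v = v * lapC a v - Ls Z m ρ v := lap_diff hS hZr ham hint hv
  rw [h2, htr v ((le_max_left _ _).trans_lt hv)]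

/-- **Lower bounds give the meromorphic continuation**, from the real axis. -/
theorem mero_of_lower (E : Sys N α) (hρ : 1 < ρ) (hρ' : ρ < ρ') (hS : Symm Z m)
    (hZ : ∀ β ∈ Z, β ∈ Sect ρ ∧ β.re ≤ 1 / 2) {F : ℂ → ℂ}
    (hF : ∀ x : ℝ, 0 < x → AnalyticAt ℂ F x)
    (hFe : ∀ x : ℝ, 1 / 2 < x → (F x)⁻¹ * ∏ β ∈ Z, ((x : ℂ) - β) ^ m β = LE N α x)
    (h : ∀ ε : ℝ, 0 < ε → ∃ C : ℝ, ∀ᶠ Y : ℝ in atTop,
      mo Z m ρ (Real.log Y ^ ρ) - C * Real.exp (ε * Real.log Y ^ ρ) ≤ SrE N α ρ ρ' Y) :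
    ∃ H : ℂ → ℂ, (∀ s : ℂ, s ∈ Sect ρ ∨ 1 / 2 < s.re → DifferentiableAt ℂ H s ∧ H s ≠ 0) ∧
      ∀ s : ℂ, 1 / 2 < s.re → LE N α s = H s * ∏ β ∈ Z, (s - β) ^ m β := by
  have := E.cnt
  obtain ⟨e, he⟩ := Countable.exists_injective_nat X
  have hρ0 : 0 < ρ := by linarith
  have h0 : 0 < ρ⁻¹ := by positivity
  have h1 : ρ⁻¹ < 1 := inv_lt_one_of_one_lt₀ hρ
  have hZr : ∀ β ∈ Z, 0 < β.re := fun β hβ => sect_re hρ (hZ β hβ).1
  obtain ⟨a, K, x₀, ham, hK, hx₀, haM, hbd, hint, htr⟩ := transform (E.dat he) h0 h1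
  choose! φ hφ1 hφ2 using fun (β : ℂ) (hβ : β ∈ Z) => exists_phi hρ (hZ β hβ).1
  have hprod := prod_zpow_diff (U := Sect ρ) Z m fun β hβ => hφ1 β hβ
  obtain ⟨K', hK', hmo⟩ := mo_bound Z m ρ
  set b : ℝ → ℝ := fun y => a y - mo Z m ρ y with hb
  have hbm : Measurable b := ham.sub (mo_meas Z m ρ)
  set x₁ : ℝ := max x₀ (rad Z ρ) with hx₁
  have hx₁1 : 1 ≤ x₁ := (rad_ge Z ρ).1.trans (le_max_right _ _)
  have hbi : ∀ w, x₁ < w → LInt b w := fun w hw =>
    (hint w ((le_max_left _ _).trans_lt hw)).sub (mo_LInt Z m ρ ((le_max_right _ _).trans_lt hw))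
  have hlapn : ∀ w : ℂ, lapC (fun y => -b y) w = -lapC b w := by
    intro w
    unfold lapC
    rw [← integral_neg]
    congr 1
    funext y
    push_cast
    ring
  set HH : ℂ → ℂ := fun s => F s * ∏ β ∈ Z, φ β s ^ m β with hHH
  have hHHa : ∀ x : ℝ, 0 < x → AnalyticAt ℂ HH x := fun x hx => by
    have hxs := sect_real hρ hx
    have h2 : AnalyticAt ℂ (fun s => ∏ β ∈ Z, φ β s ^ m β) (x : ℂ) :=
      an_of (sect_open hρ) (fun s hs => (hprod s hs).1) hxs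
    exact (hF x hx).mul h2
  have D : DataLoc 0 (fun y => -b y) (fun v => HH (v ^ ((ρ⁻¹ : ℝ) : ℂ)))
      (fun v => -GG N α (v ^ ((ρ⁻¹ : ℝ) : ℂ))) x₁ :=
    { al_nonneg := le_rfl
      meas := hbm.neg
      c0_nonneg := by linarith
      int := fun w hw => (hbi w hw).neg
      hΦ := fun w hw => comp_an hHHa hw
      hG := fun z hz => (comp_GG E h0 h1 hz).neg
      eq := fun w hw => by
        have hw0 : 0 < w := by linarith
        have hwx : x₀ < w := (le_max_left _ _).trans_lt hw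
        obtain ⟨e1, e2⟩ := real_value E he hρ htr (by linarith) hwx
        have e3 : (w : ℂ) ^ ((ρ⁻¹ : ℝ) : ℂ) = ((w ^ ρ⁻¹ : ℝ) : ℂ) :=
          (Complex.ofReal_cpow hw0.le _).symm
        have e4 : (w : ℂ) * lapC b w = w * lapC a w - Ls Z m ρ w :=
          lap_diff hS hZr ham hint (by rw [Complex.ofReal_re]; exact hw)
        have e5 : (((w ^ ρ⁻¹ : ℝ) : ℂ)) ^ (ρ : ℂ) = w := by
          rw [← e3]
          exact (pow_fwd hρ (v := (w : ℂ)) (by rwa [Complex.ofReal_re])).2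
        have e6 : rad Z ρ ≤ ‖(((w ^ ρ⁻¹ : ℝ) : ℂ)) ^ (ρ : ℂ)‖ := by
          rw [e5, Complex.norm_real, Real.norm_of_nonneg hw0.le]
          exact ((le_max_right _ _).trans_lt hw).le
        have e7 := exp_Ls (m := m) hφ2 e6
        rw [e5] at e7
        have e8 := hFe _ e1
        have e9 : -GG N α ((w ^ ρ⁻¹ : ℝ) : ℂ) - w * lapC (fun y => -b y) w =
            -Ls Z m ρ w - (GG N α ((w ^ ρ⁻¹ : ℝ) : ℂ) - w * lapC a w) := by
          rw [hlapn]
          linear_combination e4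
        have hxs := sect_real hρ (Real.rpow_pos_of_pos hw0 ρ⁻¹)
        have e10 : ∏ β ∈ Z, (((w ^ ρ⁻¹ : ℝ) : ℂ) - β) ^ m β ≠ 0 :=
          Finset.prod_ne_zero_iff.2 fun β hβ => zpow_ne_zero _ fun h2 => by
            have h3 := congrArg Complex.re h2
            rw [Complex.sub_re, Complex.ofReal_re, Complex.zero_re] at h3
            linarith [(hZ β hβ).2]
        rw [e3, e9, Complex.exp_sub, ← e2, e7, ← e8, hHH]
        simp only
        have e11 := (hprod _ hxs).2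
        rw [mul_comm (F _)⁻¹, ← div_eq_mul_inv, div_div_eq_mul_div, mul_right_comm,
          mul_div_assoc, div_self e10, mul_one, mul_comm] }
  have hconv : ∀ w : ℝ, 0 < w → LInt (fun y => -b y) w := by
    refine D.conv (K := K + K') (x₀ := max x₀ (rad Z ρ)) (by positivity)
      (le_max_of_le_left hx₀.le) (fun u hu => ?_) ?_
    · refine (neg_le_abs _).trans ((abs_sub _ _).trans ?_)
      rw [add_mul]
      refine add_le_add ((hbd u hu).trans (mul_le_mul_of_nonneg_left (Real.exp_le_exp.mpr ?_) hK))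
        ((hmo u hu).trans (mul_le_mul_of_nonneg_left (Real.exp_le_exp.mpr ?_) hK'))
      · exact mul_le_mul_of_nonneg_right (le_max_left _ _) hu.le
      · exact mul_le_mul_of_nonneg_right (le_max_right _ _) hu.le
    · have h2 := bound_trans' E he hρ hρ' (τ := -1) (by rw [abs_neg, abs_one]) (g := mo Z m ρ) haM
        (fun ε hε => by
          obtain ⟨C, hC⟩ := h ε hε
          exact ⟨C, hC.mono fun Y hY => by linarith⟩)
      intro ε hε
      obtain ⟨C, y₀, hC⟩ := h2 ε hε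
      refine ⟨C, y₀, fun y hy => ?_⟩
      have := hC y hy
      rw [zero_add]
      linarith
  have hconv' : ∀ w : ℝ, 0 < w → LInt b w := fun w hw => by
    have h2 := (hconv w hw).neg
    simp only [neg_neg] at h2
    exact h2
  refine cont_of_fh E hρ he hZ (fh := fun v => v * lapC b v) (x₂ := x₁) (fun v hv =>
    differentiableAt_id.mul (lapC_differentiableAt hbm (fun w hw => hconv' w hw) hv)) fun v hv => ?_
  have h2 : v * lapC b v = v * lapC a v - Ls Z m ρ v := lap_diff hS hZr ham hint hv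
  rw [h2, htr v ((le_max_left _ _).trans_lt hv)]

end Pool.Agent.V11333.OneSide
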