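import Pool.Agent.V11333.OneSide6

/-!
# The divisor of a function with `L(conj s) = conj L(s)` is symmetric
-/

set_option autoImplicit false

open Filter Topology Set Complex MeasureTheory
open Pool.Agent.TH942.SL
open Pool.Agent.TH942.ES
open Pool.Agent.V11291.ME

namespace Pool.Agent.V11333.OneSide

variable {Z : Finset ℂ} {m : ℂ → ℤ} {ρ : ℝ}

/-- the order of `H ∏ (s - β)^m` -/
theorem dv_order {H : ℂ → ℂ} {β : ℂ} (hH : AnalyticAt ℂ H β) (h0 : H β ≠ 0) :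
    meromorphicOrderAt (dv H Z m) β = ((if β ∈ Z then m β else 0 : ℤ) : WithTop ℤ) := by
  classical
  by_cases hβ : β ∈ Z
  · rw [if_pos hβ, meromorphicOrderAt_eq_int_iff (dv_mero hH)]
    refine ⟨dv H (Z.erase β) m, dv_analytic hH (Finset.notMem_erase β Z),
      dv_ne h0 (Finset.notMem_erase β Z), Eventually.of_forall fun z => ?_⟩
    unfold dv
    rw [← Finset.mul_prod_erase Z _ hβ, smul_eq_mul]
    ring
  · rw [if_neg hβ, order_zero (dv_analytic hH hβ) (dv_ne h0 hβ)]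
    rfl

theorem sect_conj {s : ℂ} (hs : s ∈ Sect ρ) : (starRingEnd ℂ) s ∈ Sect ρ := by
  obtain ⟨h1, h2⟩ := hs
  refine ⟨fun h => h1 ((map_eq_zero _).1 h), ?_⟩
  rw [Complex.arg_conj]
  split_ifs with h
  · rwa [h] at h2
  · rwa [abs_neg]

/-- the divisor can be made symmetric by omitting the points of order zero -/
theorem exists_symm {L : ℂ → ℂ} (hρ : 1 < ρ)
    (hL : ∀ s : ℂ, 1 / 2 < s.re → (starRingEnd ℂ) (L ((starRingEnd ℂ) s)) = L s) {H : ℂ → ℂ}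
    (hH : ∀ s ∈ Sect ρ, DifferentiableAt ℂ H s ∧ H s ≠ 0) (hZ : ∀ β ∈ Z, β ∈ Sect ρ)
    (he : ∀ s ∈ Sect ρ, 1 / 2 < s.re → L s = H s * ∏ β ∈ Z, (s - β) ^ m β) :
    ∃ Z' : Finset ℂ, Z' ⊆ Z ∧ Symm Z' m ∧
      ∀ s : ℂ, ∏ β ∈ Z, (s - β) ^ m β = ∏ β ∈ Z', (s - β) ^ m β := by
  classical
  set H2 : ℂ → ℂ := (starRingEnd ℂ) ∘ H ∘ (starRingEnd ℂ) with hH2
  set Z2 : Finset ℂ := Z.image (starRingEnd ℂ) with hZ2
  set m2 : ℂ → ℤ := fun β => m ((starRingEnd ℂ) β) with hm2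
  have hH2' : ∀ s ∈ Sect ρ, DifferentiableAt ℂ H2 s ∧ H2 s ≠ 0 := by
    intro s hs
    obtain ⟨e1, e2⟩ := hH _ (sect_conj hs)
    refine ⟨differentiableAt_conj_conj_iff.2 e1, fun h => e2 ?_⟩
    rw [hH2, Function.comp_apply, map_eq_zero] at h
    exact h
  have hprod : ∀ s : ℂ, (starRingEnd ℂ) (∏ β ∈ Z, ((starRingEnd ℂ) s - β) ^ m β) =
      ∏ β ∈ Z2, (s - β) ^ m2 β := by
    intro s
    rw [map_prod, hZ2, Finset.prod_image (fun a _ b _ h => (starRingEnd ℂ).injective h)]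
    refine Finset.prod_congr rfl fun β _ => ?_
    rw [map_zpow₀, map_sub, Complex.conj_conj, hm2]
    simp only
    rw [Complex.conj_conj]
  have hagree : ∀ s ∈ Sect ρ, s ∉ Z → s ∉ Z2 → dv H Z m s = dv H2 Z2 m2 s :=
    dv_agree hρ (fun s hs => (hH s hs).1) (fun s hs => (hH2' s hs).1) fun s hs h2 => by
      have h3 : 1 / 2 < ((starRingEnd ℂ) s).re := by rwa [Complex.conj_re]
      unfold dv
      rw [← he s hs h2, ← hL s h2, he _ (sect_conj hs) h3, map_mul, hprod]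
      rfl
  have hord : ∀ β ∈ Sect ρ, (if β ∈ Z then m β else 0 : ℤ) = if β ∈ Z2 then m2 β else 0 := by
    intro β hβ
    have e1 := dv_order (Z := Z) (m := m) (an_of (sect_open hρ) (fun s hs => (hH s hs).1) hβ)
      (hH β hβ).2
    have e2 := dv_order (Z := Z2) (m := m2) (an_of (sect_open hρ) (fun s hs => (hH2' s hs).1) hβ)
      (hH2' β hβ).2
    have e3 : dv H Z m =ᶠ[𝓝[≠] β] dv H2 Z2 m2 := by
      have hBc : IsOpen ((((Z ∪ Z2 : Finset ℂ) : Set ℂ)) \ {β})ᶜ :=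
        (((Z ∪ Z2).finite_toSet.subset sdiff_subset).isClosed).isOpen_compl
      have e4 : ((((Z ∪ Z2 : Finset ℂ) : Set ℂ)) \ {β})ᶜ ∈ 𝓝 β := hBc.mem_nhds (fun h => h.2 rfl)
      filter_upwards [mem_nhdsWithin_of_mem_nhds e4, self_mem_nhdsWithin,
        mem_nhdsWithin_of_mem_nhds ((sect_open hρ).mem_nhds hβ)] with z hz1 hz2 hz3
      exact hagree z hz3 (fun h => hz1 ⟨Finset.mem_union_left _ h, hz2⟩)
        (fun h => hz1 ⟨Finset.mem_union_right _ h, hz2⟩)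
    rw [meromorphicOrderAt_congr e3, e2] at e1
    exact_mod_cast e1.symm
  refine ⟨Z.filter fun β => m β ≠ 0, Finset.filter_subset _ _, fun β hβ => ?_, fun s => ?_⟩
  · obtain ⟨h1, h2⟩ := Finset.mem_filter.1 hβ
    have h3 := hord β (hZ β h1)
    rw [if_pos h1] at h3
    by_cases h4 : β ∈ Z2
    · rw [if_pos h4] at h3
      obtain ⟨γ, h5, h6⟩ := Finset.mem_image.1 h4
      have h7 : (starRingEnd ℂ) β ∈ Z := by
        rw [← h6, Complex.conj_conj]
        exact h5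
      exact ⟨Finset.mem_filter.2 ⟨h7, fun h8 => h2 (h3.trans h8)⟩, h3.symm⟩
    · rw [if_neg h4] at h3
      exact absurd h3 h2
  · rw [Finset.prod_filter]
    refine Finset.prod_congr rfl fun β _ => ?_
    split_ifs with h
    · rfl
    · push Not at h
      rw [h, zpow_zero]

end Pool.Agent.V11333.OneSide
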