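import Pool.Agent.V11333.PureSys
import Pool.Agent.V11333.OneSide7

/-!
# Euler products with real traces are real on the real axis
-/

set_option autoImplicit false

namespace Pool.Agent.V11333.PS

open Filter Topology Set NumberField IsDedekindDomain
open Pool.Agent.TH942.ES
open Pool.Agent.H921R2.TatePole (nm)
open Pool.Agent.V11333.EVS (ctr nal zv_eq nrm_two factor_eq pow_ctr)

variable {K : Type} [Field K] [NumberField K] {N : ℕ}
variable {S : Set (HeightOneSpectrum (𝓞 K))}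

theorem prod_exp {a : Fin N → ℂ} {y : ℂ} (hy : ∀ j, ‖a j * y‖ < 1) :
    HasSum (fun k : ℕ => (∑ j, a j ^ k) * y ^ k / k) (∑ j, -Complex.log (1 - a j * y)) ∧
      ∏ j, (1 - a j * y)⁻¹ = Complex.exp (∑ j, -Complex.log (1 - a j * y)) := by
  constructor
  · have h1 : HasSum (fun k : ℕ => ∑ j, (a j * y) ^ k / k) (∑ j, -Complex.log (1 - a j * y)) :=
      hasSum_sum fun j _ => Complex.hasSum_taylorSeries_neg_log (hy j)
    convert h1 using 2 with k
    rw [Finset.sum_mul, Finset.sum_div]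
    exact Finset.sum_congr rfl fun j _ => by rw [mul_pow]
  · rw [Complex.exp_sum]
    refine Finset.prod_congr rfl fun j _ => ?_
    have h1 : 1 - a j * y ≠ 0 := by
      intro h0
      have h2 := hy j
      rw [← sub_eq_zero.1 h0, norm_one] at h2
      exact lt_irrefl _ h2
    rw [Complex.exp_neg, Complex.exp_log h1]

theorem prod_conj {a : Fin N → ℂ} (ha : ∀ k, (∑ j, a j ^ k).im = 0) {x : ℂ}
    (hx : ∀ j, ‖a j * x‖ < 1) :
    (starRingEnd ℂ) (∏ j, (1 - a j * (starRingEnd ℂ) x)⁻¹) = ∏ j, (1 - a j * x)⁻¹ := by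
  have hx' : ∀ j, ‖a j * (starRingEnd ℂ) x‖ < 1 := fun j => by
    rw [norm_mul, Complex.norm_conj, ← norm_mul]
    exact hx j
  obtain ⟨h1, h2⟩ := prod_exp hx
  obtain ⟨h3, h4⟩ := prod_exp hx'
  rw [h2, h4, ← Complex.exp_conj]
  congr 1
  have h5 := h3.map (starRingEnd ℂ) Complex.continuous_conj
  have h6 : HasSum (fun k : ℕ => (∑ j, a j ^ k) * x ^ k / k)
      ((starRingEnd ℂ) (∑ j, -Complex.log (1 - a j * (starRingEnd ℂ) x))) := by
    have e : (starRingEnd ℂ) ∘ (fun k : ℕ => (∑ j, a j ^ k) * (starRingEnd ℂ) x ^ k / k) =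
        fun k : ℕ => (∑ j, a j ^ k) * x ^ k / k := by
      funext k
      rw [Function.comp_apply, map_div₀, map_mul, map_pow, Complex.conj_conj,
        Complex.conj_eq_iff_im.2 (ha k), map_natCast]
    rwa [e] at h5
  exact h6.unique h1

theorem factor_conj {i : ℕ} {α : S → Fin N → ℂ} (h : Pure i α) {s : ℂ}
    (hs : (i : ℝ) / 2 + 1 < s.re) (v : S) :
    (starRingEnd ℂ) (∏ j, (1 - α v j * (nm v.1 : ℂ) ^ (-(starRingEnd ℂ) s))⁻¹) =
      ∏ j, (1 - α v j * (nm v.1 : ℂ) ^ (-s))⁻¹ := by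
  have h2 := nrm_two v.1
  have h0 : (0 : ℝ) < nm v.1 := by linarith
  have h1 : (nm v.1 : ℂ) ^ (-(starRingEnd ℂ) s) = (starRingEnd ℂ) ((nm v.1 : ℂ) ^ (-s)) := by
    have h3 : ((nm v.1 : ℂ)).arg ≠ Real.pi := by
      rw [Complex.natCast_arg]
      exact Real.pi_pos.ne
    rw [← map_neg, Complex.cpow_conj _ _ h3]
    simp
  rw [h1]
  refine prod_conj (h.2 v) fun j => ?_
  rw [norm_mul]
  have h4 : ‖(nm v.1 : ℂ) ^ (-s)‖ = (nm v.1 : ℝ) ^ (-s.re) := by
    rw [show (nm v.1 : ℂ) = ((nm v.1 : ℝ) : ℂ) by push_cast; rfl,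
      Complex.norm_cpow_eq_rpow_re_of_pos h0, Complex.neg_re]
  rw [h4]
  calc ‖α v j‖ * (nm v.1 : ℝ) ^ (-s.re) ≤
        (nm v.1 : ℝ) ^ ((i : ℝ) / 2) * (nm v.1 : ℝ) ^ (-s.re) :=
        mul_le_mul_of_nonneg_right (h.1 v j) (by positivity)
    _ = (nm v.1 : ℝ) ^ ((i : ℝ) / 2 + -s.re) := (Real.rpow_add h0 _ _).symm
    _ < 1 := Real.rpow_lt_one_of_one_lt_of_neg (by linarith) (by linarith)

/-- the Euler product is conjugation invariant -/
theorem LE_conj {i : ℕ} {α : S → Fin N → ℂ} (h : Pure i α) {s : ℂ} (hs : 1 / 2 < s.re) :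
    (starRingEnd ℂ) (LE (fun v : S => nm v.1) (nal i α) ((starRingEnd ℂ) s)) =
      LE (fun v : S => nm v.1) (nal i α) s := by
  have h1 : (i : ℝ) / 2 + 1 < (s + ctr i).re := by
    rw [Complex.add_re, Complex.ofReal_re]
    unfold ctr
    linarith
  have h2 : (i : ℝ) / 2 + 1 < ((starRingEnd ℂ) (s + ctr i)).re := by rwa [Complex.conj_re]
  have e1 := (hasProd_iff h h1 (LE (fun v : S => nm v.1) (nal i α) s)).2 (by
    rw [add_sub_cancel_right])
  have e2 := (hasProd_iff h h2 (LE (fun v : S => nm v.1) (nal i α) ((starRingEnd ℂ) s))).2 (by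
    rw [map_add, Complex.conj_ofReal, add_sub_cancel_right])
  have e3 := e2.map (starRingEnd ℂ) Complex.continuous_conj
  have e4 : (starRingEnd ℂ) ∘ (fun v : S =>
      ∏ j, (1 - α v j * (nm v.1 : ℂ) ^ (-(starRingEnd ℂ) (s + ctr i)))⁻¹) =
      fun v : S => ∏ j, (1 - α v j * (nm v.1 : ℂ) ^ (-(s + ctr i)))⁻¹ := by
    funext v
    exact factor_conj h h1 v
  rw [e4] at e3
  exact e3.unique e1

end Pool.Agent.V11333.PS
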